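import Mathlib

/-!
A small calculus for power series over a polynomial ring: `z d/dz`, coefficientwise linear maps,
and logarithms (problem MP_b52a9f_co).
-/

open MvPolynomial

namespace Pool.Agent.JackB

section Calc

variable {A : Type*} [CommRing A]

/-- `z d/dz`. -/
noncomputable def zd (F : PowerSeries A) : PowerSeries A :=
  PowerSeries.mk fun n => (n : A) * PowerSeries.coeff n F

@[simp] theorem coeff_zd (n : ℕ) (F : PowerSeries A) :
    PowerSeries.coeff n (zd F) = (n : A) * PowerSeries.coeff n F := PowerSeries.coeff_mk _ _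

theorem zd_eq (F : PowerSeries A) :
    zd F = PowerSeries.X * PowerSeries.derivative A F := by
  ext n
  cases n with
  | zero => simp
  | succ n =>
    rw [coeff_zd, PowerSeries.coeff_succ_X_mul, PowerSeries.coeff_derivative]
    push_cast
    ring

theorem zd_add (F G : PowerSeries A) : zd (F + G) = zd F + zd G := by
  ext n
  simp [mul_add]

theorem zd_mul (F G : PowerSeries A) : zd (F * G) = zd F * G + F * zd G := by
  rw [zd_eq, zd_eq, zd_eq, Derivation.leibniz]
  simp only [smul_eq_mul]
  ring

theorem zd_C_mul (a : A) (F : PowerSeries A) :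
    zd (PowerSeries.C a * F) = PowerSeries.C a * zd F := by
  ext n
  simp only [coeff_zd, PowerSeries.coeff_C_mul]
  ring

/-- Coefficientwise additive map. -/
noncomputable def tt {B : Type*} [CommRing B] (T : A →+ B) (F : PowerSeries A) : PowerSeries B :=
  PowerSeries.mk fun n => T (PowerSeries.coeff n F)

@[simp] theorem coeff_tt {B : Type*} [CommRing B] (T : A →+ B) (n : ℕ) (F : PowerSeries A) :
    PowerSeries.coeff n (tt T F) = T (PowerSeries.coeff n F) := PowerSeries.coeff_mk _ _

theorem tt_add {B : Type*} [CommRing B] (T : A →+ B) (F G : PowerSeries A) :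
    tt T (F + G) = tt T F + tt T G := by
  ext n
  simp

theorem tt_X_mul {B : Type*} [CommRing B] (T : A →+ B) (F : PowerSeries A) :
    tt T (PowerSeries.X * F) = PowerSeries.X * tt T F := by
  ext n
  cases n with
  | zero => simp
  | succ n => simp [PowerSeries.coeff_succ_X_mul]

/-- Coefficientwise derivation. -/
noncomputable def dd {R : Type*} [CommRing R] [Algebra R A] (d : Derivation R A A)
    (F : PowerSeries A) : PowerSeries A :=
  PowerSeries.mk fun n => d (PowerSeries.coeff n F)

@[simp] theorem coeff_dd {R : Type*} [CommRing R] [Algebra R A] (d : Derivation R A A)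
    (n : ℕ) (F : PowerSeries A) :
    PowerSeries.coeff n (dd d F) = d (PowerSeries.coeff n F) := PowerSeries.coeff_mk _ _

theorem dd_mul {R : Type*} [CommRing R] [Algebra R A] (d : Derivation R A A)
    (F G : PowerSeries A) : dd d (F * G) = dd d F * G + F * dd d G := by
  ext n
  simp only [coeff_dd, PowerSeries.coeff_mul, map_add, map_sum, Derivation.leibniz, smul_eq_mul]
  rw [← Finset.sum_add_distrib]
  refine Finset.sum_congr rfl fun p _ => ?_
  ring

theorem dd_zd {R : Type*} [CommRing R] [Algebra R A] (d : Derivation R A A)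
    (F : PowerSeries A) : dd d (zd F) = zd (dd d F) := by
  ext n
  simp only [coeff_dd, coeff_zd, Derivation.leibniz, smul_eq_mul, Derivation.map_natCast, mul_zero,
    add_zero]

theorem dd_C_mul {R : Type*} [CommRing R] [Algebra R A] (d : Derivation R A A) (a : A)
    (ha : d a = 0) (F : PowerSeries A) :
    dd d (PowerSeries.C a * F) = PowerSeries.C a * dd d F := by
  ext n
  simp only [coeff_dd, PowerSeries.coeff_C_mul, Derivation.leibniz, smul_eq_mul, ha, mul_zero,
    add_zero]

/-- `W` is `a` times the logarithm of `F`. -/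
structure IsLog (a : A) (F W : PowerSeries A) : Prop where
  one : PowerSeries.coeff 0 F = 1
  zero : PowerSeries.coeff 0 W = 0
  eq : PowerSeries.C a * zd F = F * zd W

theorem IsLog.mul {a : A} {F G W V : PowerSeries A} (h : IsLog a F W) (h' : IsLog a G V) :
    IsLog a (F * G) (W + V) where
  one := by
    rw [PowerSeries.coeff_mul, Finset.Nat.antidiagonal_zero, Finset.sum_singleton, h.one, h'.one,
      mul_one]
  zero := by rw [map_add, h.zero, h'.zero, add_zero]
  eq := by
    rw [zd_mul, zd_add]
    linear_combination G * h.eq + F * h'.eq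

theorem IsLog.map {B : Type*} [CommRing B] (f : A →+* B) {a : A} {F W : PowerSeries A}
    (h : IsLog a F W) : IsLog (f a) (PowerSeries.map f F) (PowerSeries.map f W) where
  one := by rw [PowerSeries.coeff_map, h.one, map_one]
  zero := by rw [PowerSeries.coeff_map, h.zero, map_zero]
  eq := by
    have hz : ∀ G : PowerSeries A, zd (PowerSeries.map f G) = PowerSeries.map f (zd G) := by
      intro G
      ext n
      simp
    rw [hz, hz, ← map_mul, ← h.eq, map_mul, PowerSeries.map_C]

variable [IsDomain A] [CharZero A]

theorem eq_zero_of_ode {a : A} (ha : a ≠ 0) {D V : PowerSeries A}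
    (hD : PowerSeries.coeff 0 D = 0) (hV : PowerSeries.coeff 0 V = 0)
    (h : PowerSeries.C a * zd D = V * D) : D = 0 := by
  ext n
  induction n using Nat.strong_induction_on with
  | _ n ih =>
    rcases Nat.eq_zero_or_pos n with rfl | hn
    · simpa using hD
    · have h1 := congrArg (PowerSeries.coeff n) h
      rw [PowerSeries.coeff_C_mul, coeff_zd, PowerSeries.coeff_mul] at h1
      have h2 : ∑ p ∈ Finset.HasAntidiagonal.antidiagonal n, PowerSeries.coeff p.1 V * PowerSeries.coeff p.2 D
          = 0 := by
        refine Finset.sum_eq_zero fun p hp => ?_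
        rw [Finset.HasAntidiagonal.mem_antidiagonal] at hp
        rcases Nat.eq_zero_or_pos p.1 with h0 | h0
        · rw [h0, hV, zero_mul]
        · rw [ih p.2 (by omega), map_zero, mul_zero]
      rw [h2] at h1
      rcases mul_eq_zero.1 h1 with h3 | h3
      · exact absurd h3 ha
      · rcases mul_eq_zero.1 h3 with h4 | h4
        · exact absurd h4 (Nat.cast_ne_zero.2 hn.ne')
        · rw [h4, map_zero]

theorem IsLog.unique {a : A} {F W W' : PowerSeries A} (h : IsLog a F W) (h' : IsLog a F W') :
    W = W' := by
  have hF : F ≠ 0 := by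
    intro h0
    have := h.one
    rw [h0, map_zero] at this
    exact zero_ne_one this
  have h1 : zd W = zd W' := by
    have := h.eq.symm.trans h'.eq
    exact mul_left_cancel₀ hF this
  ext n
  rcases Nat.eq_zero_or_pos n with rfl | hn
  · rw [h.zero, h'.zero]
  · have h2 := congrArg (PowerSeries.coeff n) h1
    rw [coeff_zd, coeff_zd] at h2
    exact mul_left_cancel₀ (Nat.cast_ne_zero.2 hn.ne') h2

theorem IsLog.dd_eq {R : Type*} [CommRing R] [Algebra R A] (d : Derivation R A A) {a : A}
    (ha : a ≠ 0) (hda : d a = 0) {F W : PowerSeries A} (h : IsLog a F W) :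
    PowerSeries.C a * dd d F = F * dd d W := by
  have h1 : PowerSeries.C a * dd d F - F * dd d W = 0 := by
    refine eq_zero_of_ode (V := zd W) ha ?_ ?_ ?_
    · rw [map_sub, PowerSeries.coeff_C_mul, coeff_dd, h.one, PowerSeries.coeff_mul,
        Finset.Nat.antidiagonal_zero, Finset.sum_singleton, coeff_dd, h.zero]
      simp
    · rw [coeff_zd, Nat.cast_zero, zero_mul]
    · have h2 := congrArg (dd d) h.eq
      rw [dd_C_mul d a hda, dd_mul, dd_zd, dd_zd] at h2
      have h3 : zd (PowerSeries.C a * dd d F - F * dd d W)
          = PowerSeries.C a * zd (dd d F) - (zd F * dd d W + F * zd (dd d W)) := by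
        rw [← zd_C_mul, ← zd_mul]
        ext n
        simp only [coeff_zd, map_sub, mul_sub]
      rw [h3]
      linear_combination (PowerSeries.C a) * h2 - dd d W * h.eq
  exact sub_eq_zero.1 h1

end Calc

section Exist

variable {I F : Type*} [Field F] [CharZero F]

theorem IsLog.exists_log (a : F) {G : PowerSeries (MvPolynomial I F)}
    (h : PowerSeries.coeff 0 G = 1) : ∃ W, IsLog (C a) G W := by
  have hu : PowerSeries.constantCoeff G = ((1 : (MvPolynomial I F)ˣ) : MvPolynomial I F) := by
    rw [Units.val_one, ← PowerSeries.coeff_zero_eq_constantCoeff_apply, h]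
  have hinv : G * PowerSeries.invOfUnit G 1 = 1 := PowerSeries.mul_invOfUnit G 1 hu
  set P := PowerSeries.C (C a) * zd G * PowerSeries.invOfUnit G 1 with hP
  refine ⟨PowerSeries.mk fun n => C ((n : F)⁻¹) * PowerSeries.coeff n P, h, ?_, ?_⟩
  · rw [PowerSeries.coeff_mk]
    simp
  · have h0 : PowerSeries.coeff 0 P = 0 := by
      rw [hP, mul_assoc, PowerSeries.coeff_C_mul, PowerSeries.coeff_mul,
        Finset.Nat.antidiagonal_zero, Finset.sum_singleton, coeff_zd]
      simp
    have h1 : zd (PowerSeries.mk fun n => C ((n : F)⁻¹) * PowerSeries.coeff n P) = P := by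
      ext1 n
      rw [coeff_zd, PowerSeries.coeff_mk]
      rcases Nat.eq_zero_or_pos n with rfl | hn
      · rw [h0]
        simp
      · have hn' : (n : F) ≠ 0 := Nat.cast_ne_zero.2 hn.ne'
        rw [← mul_assoc, ← map_natCast (C : F →+* MvPolynomial I F), ← C_mul,
          mul_inv_cancel₀ hn', C_1, one_mul]
    rw [h1, hP]
    linear_combination (-(PowerSeries.C (C a) * zd G)) * hinv

end Exist

end Pool.Agent.JackB
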