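import Pool.Agent.Lib.JackB.Step

/-!
Translation between the fine positivity of the logarithm and the coefficients `h`, `c`
(problem MP_b52a9f_co).
-/

open MvPolynomial

namespace Pool.Agent.JackB

section Mon

variable {ι : Type*} [Fintype ι]

/-- The exponent of `pm a m`. -/
noncomputable def ex {L : Type*} (a : L) (m : Multiset ℕ) : (L × ℕ) →₀ ℕ :=
  (m.map fun i => Finsupp.single (a, i) 1).sum

theorem ex_cons {L : Type*} (a : L) (i : ℕ) (m : Multiset ℕ) :
    ex a (i ::ₘ m) = Finsupp.single (a, i) 1 + ex a m := by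
  simp [ex]

theorem ex_apply {L : Type*} [DecidableEq L] (a b : L) (m : Multiset ℕ) (i : ℕ) :
    ex a m (b, i) = if a = b then m.count i else 0 := by
  induction m using Multiset.induction_on with
  | empty => simp [ex]
  | cons j m ih =>
    rw [ex_cons, Finsupp.add_apply, ih, Finsupp.single_apply]
    by_cases h : a = b
    · subst h
      by_cases hj : j = i
      · subst hj
        rw [if_pos rfl, if_pos rfl, if_pos rfl, Multiset.count_cons_self, add_comm]
      · have h1 : ((a, j) : L × ℕ) ≠ (a, i) := fun h0 => hj (Prod.ext_iff.1 h0).2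
        rw [if_neg h1, if_pos rfl, if_pos rfl, Multiset.count_cons_of_ne (Ne.symm hj), zero_add]
    · have h1 : ((a, j) : L × ℕ) ≠ (b, i) := fun h0 => h (Prod.ext_iff.1 h0).1
      rw [if_neg h1, if_neg h, if_neg h]

theorem pm_eq_monomial {L : Type*} (a : L) (m : Multiset ℕ) :
    pm K a m = monomial (ex a m) 1 := by
  induction m using Multiset.induction_on with
  | empty => simp [ex]
  | cons j m ih =>
    rw [pm_cons, ih, ex_cons, X, monomial_mul, one_mul]

theorem mon_eq {n : ℕ} (m : ι → n.Partition) : mon m = ∑ a : ι, ex a (m a).parts := rfl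

theorem mon_apply [DecidableEq ι] {n : ℕ} (m : ι → n.Partition) (a : ι) (i : ℕ) :
    mon m (a, i) = (m a).parts.count i := by
  rw [mon_eq, Finsupp.finsetSum_apply, Finset.sum_eq_single a]
  · rw [ex_apply, if_pos rfl]
  · intro b _ hb
    rw [ex_apply, if_neg hb]
  · intro h
    exact absurd (Finset.mem_univ a) h

/-- Union of two partitions. -/
def padd {i j : ℕ} (l : i.Partition) (m : j.Partition) : (i + j).Partition where
  parts := l.parts + m.parts
  parts_pos := by
    intro x hx
    rcases Multiset.mem_add.1 hx with h | h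
    · exact l.parts_pos h
    · exact m.parts_pos h
  parts_sum := by rw [Multiset.sum_add, l.parts_sum, m.parts_sum]

theorem mon_padd {i j : ℕ} (l : ι → i.Partition) (m : ι → j.Partition) :
    mon (fun a => padd (l a) (m a)) = mon l + mon m := by
  rw [mon_eq, mon_eq, mon_eq, ← Finset.sum_add_distrib]
  refine Finset.sum_congr rfl fun a _ => ?_
  simp [ex, padd]

/-- All monomials of `P` have degree `n` in every alphabet. -/
def Hom (n : ℕ) (P : MvPolynomial (ι × ℕ) K) : Prop :=
  ∀ d, P.coeff d ≠ 0 → ∃ m : ι → n.Partition, mon m = d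

theorem Hom.zero (n : ℕ) : Hom n (0 : MvPolynomial (ι × ℕ) K) := by
  intro d hd
  rw [coeff_zero] at hd
  exact absurd rfl hd

theorem Hom.add {n : ℕ} {P Q : MvPolynomial (ι × ℕ) K} (hP : Hom n P) (hQ : Hom n Q) :
    Hom n (P + Q) := by
  intro d hd
  rw [coeff_add] at hd
  by_cases h : P.coeff d = 0
  · rw [h, zero_add] at hd
    exact hQ d hd
  · exact hP d h

theorem Hom.sum {α : Type*} {n : ℕ} (t : Finset α) (f : α → MvPolynomial (ι × ℕ) K)
    (h : ∀ a ∈ t, Hom n (f a)) : Hom n (∑ a ∈ t, f a) := by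
  classical
  induction t using Finset.induction_on with
  | empty =>
    rw [Finset.sum_empty]
    exact Hom.zero n
  | insert a t ha ih =>
    rw [Finset.sum_insert ha]
    exact (h a (Finset.mem_insert_self a t)).add (ih fun b hb => h b (Finset.mem_insert_of_mem hb))

theorem Hom.C_mul {n : ℕ} {P : MvPolynomial (ι × ℕ) K} (hP : Hom n P) (c : K) :
    Hom n (C c * P) := by
  intro d hd
  rw [coeff_C_mul] at hd
  exact hP d (right_ne_zero_of_mul hd)

theorem Hom.mul {i j : ℕ} {P Q : MvPolynomial (ι × ℕ) K} (hP : Hom i P) (hQ : Hom j Q) :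
    Hom (i + j) (P * Q) := by
  classical
  intro d hd
  rw [coeff_mul] at hd
  obtain ⟨p, hp, h⟩ := Finset.exists_ne_zero_of_sum_ne_zero hd
  rw [Finset.HasAntidiagonal.mem_antidiagonal] at hp
  obtain ⟨l, hl⟩ := hP p.1 (left_ne_zero_of_mul h)
  obtain ⟨m, hm⟩ := hQ p.2 (right_ne_zero_of_mul h)
  exact ⟨fun a => padd (l a) (m a), by rw [mon_padd, hl, hm, hp]⟩

theorem hom_mon {n : ℕ} (m : ι → n.Partition) (c : K) : Hom n (monomial (mon m) c) := by
  classical
  intro d hd
  rw [coeff_monomial] at hd
  by_cases h : mon m = d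
  · exact ⟨m, h⟩
  · rw [if_neg h] at hd
    exact absurd rfl hd

theorem hom_tau (J : Fam) (n : ℕ) : Hom n (PowerSeries.coeff n (tau J ι)) := by
  classical
  rw [coeff_tau]
  refine Hom.sum _ _ fun th _ => Hom.C_mul ?_ _
  simp only [Jp_eq]
  rw [Finset.prod_univ_sum]
  refine Hom.sum _ _ fun m _ => ?_
  have h1 : ∏ a : ι, (C (J n th (m a)) * pm K a (m a).parts : MvPolynomial (ι × ℕ) K)
      = C (∏ a : ι, J n th (m a)) * monomial (mon m) 1 := by
    rw [Finset.prod_mul_distrib, ← map_prod]
    congr 1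
    rw [mon_eq, monomial_sum_one]
    exact Finset.prod_congr rfl fun a _ => pm_eq_monomial a (m a).parts
  rw [h1]
  exact Hom.C_mul (hom_mon m 1) _

end Mon

section Log

variable {ι : Type*} [Fintype ι]

theorem hom_log {J : Fam} (h0 : Unital J)
    {W : PowerSeries (MvPolynomial (ι × ℕ) K)} (hW : IsLog (C al) (tau J ι) W) (n : ℕ) :
    Hom n (PowerSeries.coeff n W) := by
  classical
  induction n using Nat.strong_induction_on with
  | _ n ih =>
    rcases Nat.eq_zero_or_pos n with rfl | hn
    · rw [hW.zero]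
      exact Hom.zero 0
    · have h1 := congrArg (PowerSeries.coeff n) hW.eq
      have hmem : ((0, n) : ℕ × ℕ) ∈ Finset.HasAntidiagonal.antidiagonal n :=
        Finset.HasAntidiagonal.mem_antidiagonal.2 (zero_add n)
      rw [PowerSeries.coeff_C_mul, coeff_zd, PowerSeries.coeff_mul,
        ← Finset.add_sum_erase _ _ hmem, coeff_zd, tau_zero h0, one_mul] at h1
      have hn' : (n : K) ≠ 0 := Nat.cast_ne_zero.2 hn.ne'
      have h2 : PowerSeries.coeff n W = C (al) * PowerSeries.coeff n (tau J ι)
          + C (-((n : K)⁻¹)) * ∑ p ∈ (Finset.HasAntidiagonal.antidiagonal n).erase (0, n),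
            PowerSeries.coeff p.1 (tau J ι) * PowerSeries.coeff p.2 (zd W) := by
        have h3 : (C ((n : K)⁻¹) : MvPolynomial (ι × ℕ) K) * (n : MvPolynomial (ι × ℕ) K) = 1 := by
          rw [← map_natCast (C : K →+* MvPolynomial (ι × ℕ) K), ← C_mul,
            inv_mul_cancel₀ hn', C_1]
        rw [C_neg]
        linear_combination (-(PowerSeries.coeff n W) + C al * PowerSeries.coeff n (tau J ι)) * h3
          - C ((n : K)⁻¹) * h1
      rw [h2]
      refine ((hom_tau J n).C_mul _).add (Hom.C_mul (Hom.sum _ _ fun p hp => ?_) _)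
      rw [Finset.mem_erase, Finset.HasAntidiagonal.mem_antidiagonal] at hp
      have hp1 : p.2 < n := by
        rcases Nat.eq_zero_or_pos p.1 with h | h
        · exact absurd (Prod.ext h (by simpa [h] using hp.2)) hp.1
        · omega
      have h4 : Hom p.2 (PowerSeries.coeff p.2 (zd W)) := by
        rw [coeff_zd, ← map_natCast (C : K →+* MvPolynomial (ι × ℕ) K)]
        exact (ih p.2 hp1).C_mul _
      have h5 := (hom_tau J p.1).mul h4
      rw [hp.2] at h5
      exact h5

theorem Psi_eq {J : Fam} (h0 : Unital J) {W : PowerSeries (MvPolynomial (ι × ℕ) K)}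
    (hW : IsLog (C al) (tau J ι) W) : Psi J ι = zd W := by
  have hu : PowerSeries.constantCoeff (tau J ι)
      = ((1 : (MvPolynomial (ι × ℕ) K)ˣ) : MvPolynomial (ι × ℕ) K) := by
    rw [Units.val_one, ← PowerSeries.coeff_zero_eq_constantCoeff_apply, tau_zero h0]
  have hinv := PowerSeries.mul_invOfUnit (tau J ι) 1 hu
  rw [Psi, ← zd_eq, hW.eq]
  linear_combination (zd W) * hinv

theorem coeff_Psi {J : Fam} (h0 : Unital J) {W : PowerSeries (MvPolynomial (ι × ℕ) K)}
    (hW : IsLog (C al) (tau J ι) W) (n : ℕ) (d : (ι × ℕ) →₀ ℕ) :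
    (PowerSeries.coeff n (Psi J ι)).coeff d = (n : K) * (PowerSeries.coeff n W).coeff d := by
  rw [Psi_eq h0 hW, coeff_zd, ← map_natCast (C : K →+* MvPolynomial (ι × ℕ) K), coeff_C_mul]

/-- The exponents of the alphabets of `m` are not bad. -/
def Good {n : ℕ} (bad : ι → Set (ℕ → ℕ)) (m : ι → n.Partition) : Prop :=
  ∀ a, (fun i => (m a).parts.count i) ∉ bad a

theorem good_iff [DecidableEq ι] {n : ℕ} {bad : ι → Set (ℕ → ℕ)} {m : ι → n.Partition} :
    Good bad m ↔ mon m ∉ gb bad := by
  constructor
  · rintro h ⟨a, ha⟩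
    apply h a
    have h1 : (fun i => mon m (a, i)) = fun i => (m a).parts.count i := by
      funext i
      exact mon_apply m a i
    rw [← h1]
    exact ha
  · intro h a ha
    apply h
    refine ⟨a, ?_⟩
    have h1 : (fun i => mon m (a, i)) = fun i => (m a).parts.count i := by
      funext i
      exact mon_apply m a i
    rw [h1]
    exact ha

theorem fine_of_coeff [DecidableEq ι] {J : Fam} (h0 : Unital J) (hal : al ≠ 0)
    {S : Subsemiring K} {bad : ι → Set (ℕ → ℕ)} {a : ι} (ha : bad a = ∅)
    (h : ∀ n : ℕ, 1 ≤ n → ∀ m : ι → n.Partition, Good bad m → ∀ i : ℕ,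
      ((i : K) * ((m a).parts.count i : K) / (n : K)) *
        (PowerSeries.coeff n (Psi J ι)).coeff (mon m) ∈ S) :
    Fine J S ι bad a := by
  intro W hW i n d hd
  rw [coeff_C_mul, coeff_pderiv]
  by_cases h1 : (PowerSeries.coeff n W).coeff (d + Finsupp.single (a, i) 1) = 0
  · rw [h1, zero_mul, mul_zero]
    exact S.zero_mem
  · rcases Nat.eq_zero_or_pos n with rfl | hn
    · rw [hW.zero, coeff_zero, zero_mul, mul_zero]
      exact S.zero_mem
    · obtain ⟨m, hm⟩ := hom_log h0 hW n _ h1
      have hgood : Good bad m := by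
        rw [good_iff, hm]
        rintro ⟨c, hc⟩
        by_cases hca : c = a
        · rw [hca, ha] at hc
          exact hc
        · apply hd
          refine ⟨c, ?_⟩
          have h2 : (fun j => (d + Finsupp.single (a, i) 1 : ι × ℕ →₀ ℕ) (c, j))
              = fun j => d (c, j) := by
            funext j
            rw [Finsupp.add_apply, Finsupp.single_apply, if_neg, add_zero]
            intro h3
            exact hca (Prod.ext_iff.1 h3).1.symm
          rw [← h2]
          exact hc
      have h3 := h n hn m hgood i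
      rw [coeff_Psi h0 hW, hm] at h3
      have h4 : ((m a).parts.count i : K) = (d (a, i) : K) + 1 := by
        rw [← mon_apply m a i, hm, Finsupp.add_apply, Finsupp.single_eq_same]
        push_cast
        ring
      have hn' : (n : K) ≠ 0 := Nat.cast_ne_zero.2 (by omega)
      have h5 : (i : K) * (PowerSeries.coeff n W).coeff (d + Finsupp.single (a, i) 1) *
          ((d (a, i) : K) + 1)
          = ((i : K) * ((m a).parts.count i : K) / (n : K)) *
            ((n : K) * (PowerSeries.coeff n W).coeff (d + Finsupp.single (a, i) 1)) := by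
        rw [h4]
        field_simp
      rw [← mul_assoc, h5]
      exact h3

theorem coeff_of_fine [DecidableEq ι] {J : Fam} (h0 : Unital J)
    {S : Subsemiring K} {bad : ι → Set (ℕ → ℕ)} (hb : UpCl bad) {a : ι}
    (h : Fine J S ι bad a) {n : ℕ} (hn : 1 ≤ n) {m : ι → n.Partition} (hm : Good bad m) (i : ℕ) :
    ((i : K) * ((m a).parts.count i : K) / (n : K)) *
        (PowerSeries.coeff n (Psi J ι)).coeff (mon m) ∈ S := by
  obtain ⟨W, hW⟩ := IsLog.exists_log al (tau_zero h0 ι)
  by_cases hi : (m a).parts.count i = 0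
  · rw [hi, Nat.cast_zero, mul_zero, zero_div, zero_mul]
    exact S.zero_mem
  · have hle : Finsupp.single (a, i) 1 ≤ mon m := by
      rw [Finsupp.single_le_iff, mon_apply]
      omega
    obtain ⟨d, hd⟩ := exists_add_of_le hle
    rw [add_comm] at hd
    have hdg : d ∉ gb bad := by
      intro h1
      rw [good_iff, hd] at hm
      exact hm (gb_add hb _ _ h1)
    have h2 := h W hW i n d hdg
    rw [coeff_C_mul, coeff_pderiv, ← hd] at h2
    rw [coeff_Psi h0 hW]
    have h4 : ((m a).parts.count i : K) = (d (a, i) : K) + 1 := by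
      rw [← mon_apply m a i, hd, Finsupp.add_apply, Finsupp.single_eq_same]
      push_cast
      ring
    have hn' : (n : K) ≠ 0 := Nat.cast_ne_zero.2 (by omega)
    have h5 : (i : K) * ((PowerSeries.coeff n W).coeff (mon m) * ((d (a, i) : K) + 1))
        = ((i : K) * ((m a).parts.count i : K) / (n : K)) *
            ((n : K) * (PowerSeries.coeff n W).coeff (mon m)) := by
      rw [h4]
      field_simp
    rw [← h5]
    exact h2

theorem sum_count {n : ℕ} (l : n.Partition) :
    ∑ i ∈ l.parts.toFinset, i * l.parts.count i = n := by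
  have h1 := Finset.sum_multiset_count l.parts
  rw [l.parts_sum] at h1
  refine Eq.trans (Finset.sum_congr rfl fun i _ => ?_) h1.symm
  rw [smul_eq_mul, mul_comm]

theorem psi_of_fine [DecidableEq ι] {J : Fam} (h0 : Unital J)
    {S : Subsemiring K} {bad : ι → Set (ℕ → ℕ)} (hb : UpCl bad) {a : ι}
    (h : Fine J S ι bad a) {n : ℕ} (hn : 1 ≤ n) {m : ι → n.Partition} (hm : Good bad m) :
    (PowerSeries.coeff n (Psi J ι)).coeff (mon m) ∈ S := by
  have hn' : (n : K) ≠ 0 := Nat.cast_ne_zero.2 (by omega)
  have h1 : (PowerSeries.coeff n (Psi J ι)).coeff (mon m)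
      = ∑ i ∈ (m a).parts.toFinset, ((i : K) * ((m a).parts.count i : K) / (n : K)) *
        (PowerSeries.coeff n (Psi J ι)).coeff (mon m) := by
    rw [← Finset.sum_mul, ← Finset.sum_div]
    have h2 : ∑ i ∈ (m a).parts.toFinset, ((i : K) * ((m a).parts.count i : K)) = (n : K) := by
      have h3 := congrArg (Nat.cast : ℕ → K) (sum_count (m a))
      rw [← h3]
      push_cast
      rfl
    rw [h2, div_self hn', one_mul]
  rw [h1]
  exact S.sum_mem fun i _ => coeff_of_fine h0 hb h hn hm i

end Log

section Cc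

variable {ι : Type*} [Fintype ι] [DecidableEq ι]

/-- Iterated operators `α i ∂_i` in the alphabet `a`. -/
noncomputable def Dl (a : ι) : List ℕ → MvPolynomial (ι × ℕ) K → MvPolynomial (ι × ℕ) K
  | [], P => P
  | i :: l, P => Dl a l (C (al * (i : K)) * pderiv (a, i) P)

omit [Fintype ι] in
theorem coeff_Dl (a : ι) (l : List ℕ) (P : MvPolynomial (ι × ℕ) K) (d : (ι × ℕ) →₀ ℕ)
    (hd : ∀ i, d (a, i) = 0) :
    (Dl a l P).coeff d = (zz (l : Multiset ℕ) : K) * al ^ l.length *
      P.coeff (d + ex a (l : Multiset ℕ)) := by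
  induction l generalizing P with
  | nil => simp [Dl, zz, ex]
  | cons i l ih =>
    rw [Dl, ih, coeff_C_mul, coeff_pderiv, Finsupp.add_apply, hd, ex_apply, if_pos rfl, zero_add,
      ← Multiset.cons_coe, zz_cons, ex_cons, List.length_cons, add_assoc,
      add_comm (ex a (l : Multiset ℕ))]
    push_cast
    ring

theorem Dl_mem {J : Fam} (hal : al ≠ 0) {S : Subsemiring K} (halS : al ∈ S)
    {bad : ι → Set (ℕ → ℕ)} (hb : UpCl bad) {a : ι} (ha : bad a = ∅)
    {W : PowerSeries (MvPolynomial (ι × ℕ) K)} (hW : IsLog (C al) (tau J ι) W)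
    (h : Fine J S ι bad a) (l : List ℕ) :
    ∀ G : PowerSeries (MvPolynomial (ι × ℕ) K),
      (∀ n, PowerSeries.coeff n G ∈ SS S (gb bad) (gb_add hb)) →
      ∃ G' : PowerSeries (MvPolynomial (ι × ℕ) K),
        (∀ n, PowerSeries.coeff n G' ∈ SS S (gb bad) (gb_add hb)) ∧
        ∀ n, Dl a l (PowerSeries.coeff n (tau J ι * G)) = PowerSeries.coeff n (tau J ι * G') := by
  induction l with
  | nil =>
    intro G hG
    exact ⟨G, hG, fun n => rfl⟩
  | cons i l ih =>
    intro G hG
    set s : ι → ι := fun x => x with hs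
    have hpd : ∀ P ∈ SS S (gb bad) (gb_add hb),
        pderiv (a, i) P ∈ SS S (gb bad) (gb_add hb) := by
      intro P hP d hd
      rw [coeff_pderiv]
      refine S.mul_mem (hP _ fun h1 => hd ?_) ?_
      · obtain ⟨c, hc⟩ := h1
        by_cases hca : c = a
        · rw [hca, ha] at hc
          exact absurd hc (Set.notMem_empty _)
        · refine ⟨c, ?_⟩
          have h2 : (fun j => (d + Finsupp.single (a, i) 1 : ι × ℕ →₀ ℕ) (c, j))
              = fun j => d (c, j) := by
            funext j
            rw [Finsupp.add_apply, Finsupp.single_apply, if_neg, add_zero]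
            intro h3
            exact hca (Prod.ext_iff.1 h3).1.symm
          rw [← h2]
          exact hc
      · have : ((d (a, i) : K) + 1) = ((d (a, i) + 1 : ℕ) : K) := by push_cast; rfl
        rw [this]
        exact natCast_mem S _
    set G1 := PowerSeries.C (C (i : K)) * dd (pderiv (R := K) (a, i)) W * G
      + PowerSeries.C (C (al * (i : K))) * dd (pderiv (R := K) (a, i)) G with hG1
    have hG1m : ∀ n, PowerSeries.coeff n G1 ∈ SS S (gb bad) (gb_add hb) := by
      intro n
      rw [hG1, map_add, PowerSeries.coeff_mul, PowerSeries.coeff_C_mul, coeff_dd]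
      refine Subsemiring.add_mem _ (Subsemiring.sum_mem _ fun p _ => ?_) ?_
      · refine Subsemiring.mul_mem _ ?_ (hG _)
        rw [PowerSeries.coeff_C_mul, coeff_dd]
        exact h W hW i p.1
      · exact Subsemiring.mul_mem _ (C_mem (S.mul_mem halS (natCast_mem S i))) (hpd _ (hG n))
    obtain ⟨G', hG', hG'2⟩ := ih G1 hG1m
    refine ⟨G', hG', fun n => ?_⟩
    rw [← hG'2 n, Dl]
    congr 1
    have hC : (C al : MvPolynomial (ι × ℕ) K) ≠ 0 := by
      rw [Ne, C_eq_zero]
      exact hal
    have h2 := hW.dd_eq (pderiv (R := K) (a, i)) hC pderiv_C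
    have h3 : PowerSeries.C (C (al * (i : K))) * dd (pderiv (R := K) (a, i)) (tau J ι * G)
        = tau J ι * G1 := by
      rw [dd_mul, hG1, C_mul, map_mul (PowerSeries.C (R := MvPolynomial (ι × ℕ) K))]
      linear_combination (PowerSeries.C (C (i : K)) * G) * h2
    rw [← h3, PowerSeries.coeff_C_mul, coeff_dd]

theorem c_of_fine {J : Fam} (h0 : Unital J) (hal : al ≠ 0) {S : Subsemiring K} (halS : al ∈ S)
    {bad : ι → Set (ℕ → ℕ)} (hb : UpCl bad) {a : ι} (ha : bad a = ∅)
    (h : Fine J S ι bad a) {n : ℕ} {m : ι → n.Partition} (hm : Good bad m) :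
    zal (m a) * (PowerSeries.coeff n (tau J ι)).coeff (mon m) ∈ S := by
  classical
  obtain ⟨W, hW⟩ := IsLog.exists_log al (tau_zero h0 ι)
  obtain ⟨l, hl⟩ := Quot.exists_rep (m a).parts
  have hl' : ((l : List ℕ) : Multiset ℕ) = (m a).parts := hl
  obtain ⟨G, hG, hG2⟩ := Dl_mem hal halS hb ha hW h l 1 (fun n => by
    rw [PowerSeries.coeff_one]
    split_ifs
    · exact Subsemiring.one_mem _
    · exact Subsemiring.zero_mem _)
  -- the exponent without the alphabet `a`
  set d0 : (ι × ℕ) →₀ ℕ := ∑ b ∈ Finset.univ.erase a, ex b (m b).parts with hd0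
  have hsplit : mon m = d0 + ex a (m a).parts := by
    rw [mon_eq, hd0, Finset.sum_erase_add _ _ (Finset.mem_univ a)]
  have hd0a : ∀ i, d0 (a, i) = 0 := by
    intro i
    have h1 := congrArg (fun e : (ι × ℕ) →₀ ℕ => e (a, i)) hsplit
    simp only [Finsupp.add_apply] at h1
    rw [mon_apply, ex_apply, if_pos rfl] at h1
    omega
  have hd0g : d0 ∉ gb bad := by
    intro h1
    rw [good_iff, hsplit] at hm
    exact hm (gb_add hb _ _ h1)
  have h1 := congrArg (coeff d0) (hG2 n)
  rw [coeff_Dl a l _ d0 hd0a, mul_one, hl', ← hsplit] at h1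
  have h2 : zal (m a) = (zz (m a).parts : K) * al ^ l.length := by
    rw [zal_eq, ← hl', Multiset.coe_card]
  rw [h2, h1, PowerSeries.coeff_mul]
  have h3 : (∑ p ∈ Finset.HasAntidiagonal.antidiagonal n,
      PowerSeries.coeff p.1 (tau J ι) * PowerSeries.coeff p.2 G).coeff d0
      = (PowerSeries.coeff n G).coeff d0 := by
    rw [coeff_sum, Finset.sum_eq_single (0, n)]
    · rw [tau_zero h0, one_mul]
    · intro p hp hpn
      rw [coeff_mul]
      refine Finset.sum_eq_zero fun q hq => ?_
      rw [Finset.HasAntidiagonal.mem_antidiagonal] at hq hp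
      by_cases h4 : (PowerSeries.coeff p.1 (tau J ι)).coeff q.1 = 0
      · rw [h4, zero_mul]
      · exfalso
        obtain ⟨m', hm'⟩ := hom_tau J p.1 _ h4
        have h5 : ∀ i, (m' a).parts.count i = 0 := by
          intro i
          have h6 := congrArg (fun e : (ι × ℕ) →₀ ℕ => e (a, i)) hq
          simp only [Finsupp.add_apply] at h6
          rw [hd0a, ← hm', mon_apply] at h6
          omega
        have h7 : (m' a).parts = 0 := by
          rw [Multiset.eq_zero_iff_forall_notMem]
          intro i hi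
          exact absurd (h5 i) (Multiset.count_ne_zero.2 hi)
        have h8 : p.1 = 0 := by
          rw [← (m' a).parts_sum, h7, Multiset.sum_zero]
        apply hpn
        refine Prod.ext h8 ?_
        show p.2 = n
        omega
    · intro h4
      exact absurd (Finset.HasAntidiagonal.mem_antidiagonal.2 (zero_add n)) h4
  rw [h3]
  exact hG n d0 hd0g

end Cc

end Pool.Agent.JackB
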