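import Pool.Agent.Lib.JackB.Wick

/-!
The fixed point theorem: if the leg derivatives of a logarithm have coefficients in a
subsemiring, so have the derivatives of the logarithm of the contracted series
(problem MP_b52a9f_co).
-/

open MvPolynomial

namespace Pool.Agent.JackB

section Core

variable {F : Type*} [Field F] {L : Type*}

/-- Polynomials whose coefficients outside the set `g` of monomials lie in `S`. -/
def SS (S : Subsemiring F) (g : Set (L × ℕ →₀ ℕ)) (hg : ∀ d e, d ∈ g → d + e ∈ g) :
    Subsemiring (MvPolynomial (L × ℕ) F) where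
  carrier := {P | ∀ d, d ∉ g → P.coeff d ∈ S}
  zero_mem' := fun d _ => by
    rw [coeff_zero]
    exact S.zero_mem
  one_mem' := fun d _ => by
    classical
    rw [coeff_one]
    split_ifs
    · exact S.one_mem
    · exact S.zero_mem
  add_mem' := fun {P Q} hP hQ d hd => by
    rw [coeff_add]
    exact S.add_mem (hP d hd) (hQ d hd)
  mul_mem' := fun {P Q} hP hQ d hd => by
    classical
    rw [coeff_mul]
    refine S.sum_mem fun p hp => ?_
    rw [Finset.HasAntidiagonal.mem_antidiagonal] at hp
    refine S.mul_mem (hP _ fun h => hd ?_) (hQ _ fun h => hd ?_)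
    · rw [← hp]
      exact hg _ _ h
    · rw [← hp, add_comm]
      exact hg _ _ h

variable {S : Subsemiring F} {g : Set (L × ℕ →₀ ℕ)} {hg : ∀ d e, d ∈ g → d + e ∈ g}

theorem mem_SS {P : MvPolynomial (L × ℕ) F} :
    P ∈ SS S g hg ↔ ∀ d, d ∉ g → P.coeff d ∈ S := Iff.rfl

theorem monomial_mem {e : L × ℕ →₀ ℕ} {c : F} (h : c ∈ S ∨ e ∈ g) :
    monomial e c ∈ SS S g hg := by
  classical
  intro d hd
  rw [coeff_monomial]
  split_ifs with h1
  · rcases h with h | h
    · exact h
    · exact absurd (h1 ▸ h) hd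
  · exact S.zero_mem

theorem C_mem {c : F} (h : c ∈ S) : (C c : MvPolynomial (L × ℕ) F) ∈ SS S g hg :=
  monomial_mem (Or.inl h)

theorem X_mem (v : L × ℕ) : (X v : MvPolynomial (L × ℕ) F) ∈ SS S g hg :=
  monomial_mem (Or.inl S.one_mem)

theorem filter_add_filter [DecidableEq L] {s : L → L} (d : L × ℕ →₀ ℕ) :
    d.filter (fun v => s v.1 = v.1) + d.filter (fun v => ¬ s v.1 = v.1) = d :=
  Finsupp.filter_add_filter_not _ _

theorem pderiv_mem [DecidableEq L] {s : L → L}
    (hl : ∀ d ∈ g, d.filter (fun v => s v.1 = v.1) ∈ g) {v : L × ℕ} (hv : s v.1 ≠ v.1)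
    {P : MvPolynomial (L × ℕ) F} (hP : P ∈ SS S g hg) : pderiv v P ∈ SS S g hg := by
  intro d hd
  rw [coeff_pderiv]
  refine S.mul_mem (hP _ fun h => hd ?_) ?_
  · have h1 := hl _ h
    have h2 : (d + Finsupp.single v 1).filter (fun v => s v.1 = v.1)
        = d.filter (fun v => s v.1 = v.1) := by
      rw [Finsupp.filter_add,
        Finsupp.filter_single_of_neg (fun w : L × ℕ => s w.1 = w.1) hv, add_zero]
    rw [h2] at h1
    rw [← filter_add_filter (s := s) d]
    exact hg _ _ h1
  · have : ((d v : F) + 1) = ((d v + 1 : ℕ) : F) := by push_cast; rfl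
    rw [this]
    exact natCast_mem S _

variable [DecidableEq L] {s : L → L} {al : F}
  {T : MvPolynomial (L × ℕ) F →ₗ[F] MvPolynomial (L × ℕ) F}

/-- The operator `G ↦ (T F0)⁻¹ T (F0 G)`. -/
noncomputable def UU (T : MvPolynomial (L × ℕ) F →ₗ[F] MvPolynomial (L × ℕ) F)
    (F0 G : PowerSeries (MvPolynomial (L × ℕ) F)) : PowerSeries (MvPolynomial (L × ℕ) F) :=
  PowerSeries.invOfUnit (tt T.toAddMonoidHom F0) 1 * tt T.toAddMonoidHom (F0 * G)

theorem inv_mul (hT : IsWick s al T) {F0 : PowerSeries (MvPolynomial (L × ℕ) F)}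
    (h0 : PowerSeries.coeff 0 F0 = 1) :
    PowerSeries.invOfUnit (tt T.toAddMonoidHom F0) 1 * tt T.toAddMonoidHom F0 = 1 := by
  refine PowerSeries.invOfUnit_mul _ _ ?_
  rw [Units.val_one, ← PowerSeries.coeff_zero_eq_constantCoeff_apply, coeff_tt, h0]
  exact hT.one

omit [DecidableEq L] in
theorem UU_add (F0 G G' : PowerSeries (MvPolynomial (L × ℕ) F)) :
    UU T F0 (G + G') = UU T F0 G + UU T F0 G' := by
  rw [UU, mul_add, tt_add, mul_add]
  rfl

omit [DecidableEq L] in
theorem UU_X_mul (F0 G : PowerSeries (MvPolynomial (L × ℕ) F)) :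
    UU T F0 (PowerSeries.X * G) = PowerSeries.X * UU T F0 G := by
  rw [UU, mul_left_comm, tt_X_mul, mul_left_comm]
  rfl

theorem UU_one (hT : IsWick s al T) {F0 : PowerSeries (MvPolynomial (L × ℕ) F)}
    (h0 : PowerSeries.coeff 0 F0 = 1) : UU T F0 1 = 1 := by
  rw [UU, mul_one, inv_mul hT h0]

theorem UU_C_mul (hT : IsWick s al T) (F0 G : PowerSeries (MvPolynomial (L × ℕ) F))
    {e : L × ℕ →₀ ℕ} (he : ∀ v ∈ e.support, s v.1 = v.1) (c : F) :
    UU T F0 (PowerSeries.C (monomial e c) * G) = PowerSeries.C (monomial e c) * UU T F0 G := by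
  have h1 : tt T.toAddMonoidHom (F0 * (PowerSeries.C (monomial e c) * G))
      = PowerSeries.C (monomial e c) * tt T.toAddMonoidHom (F0 * G) := by
    rw [mul_left_comm]
    ext1 n
    rw [coeff_tt, PowerSeries.coeff_C_mul, PowerSeries.coeff_C_mul, coeff_tt]
    exact hT.mul_left he c _
  rw [UU, h1, mul_left_comm]
  rfl

theorem UU_var_mul (hT : IsWick s al T) [CharZero F] (hal : al ≠ 0)
    {F0 W : PowerSeries (MvPolynomial (L × ℕ) F)}
    (h0 : PowerSeries.coeff 0 F0 = 1) (hW : IsLog (C al) (tt T.toAddMonoidHom F0) W)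
    (v : L × ℕ) (G : PowerSeries (MvPolynomial (L × ℕ) F)) :
    UU T F0 (PowerSeries.C (X v) * G) = PowerSeries.C (X v) * UU T F0 G
      + PowerSeries.C (C (al * (wt s v : F))) * dd (pderiv (R := F) (sv s v)) (UU T F0 G)
      + PowerSeries.C (C (wt s v : F)) * dd (pderiv (R := F) (sv s v)) W * UU T F0 G := by
  set f := tt T.toAddMonoidHom F0 with hf
  set iv := PowerSeries.invOfUnit f 1 with hiv
  set M := tt T.toAddMonoidHom (F0 * G) with hM
  have hinv : iv * f = 1 := inv_mul hT h0
  have hU : UU T F0 G = iv * M := rfl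
  have hM2 : M = f * UU T F0 G := by
    rw [hU]
    linear_combination (-M) * hinv
  have h1 : tt T.toAddMonoidHom (F0 * (PowerSeries.C (X v) * G))
      = PowerSeries.C (X v) * M
        + PowerSeries.C (C (al * (wt s v : F))) * dd (pderiv (R := F) (sv s v)) M := by
    rw [mul_left_comm]
    ext1 n
    rw [map_add, coeff_tt, PowerSeries.coeff_C_mul, PowerSeries.coeff_C_mul,
      PowerSeries.coeff_C_mul, coeff_dd, hM, coeff_tt]
    exact hT.X_mul v _
  have hC : (C al : MvPolynomial (L × ℕ) F) ≠ 0 := by
    rw [Ne, C_eq_zero]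
    exact hal
  have h2 : PowerSeries.C (C al) * dd (pderiv (R := F) (sv s v)) f
      = f * dd (pderiv (R := F) (sv s v)) W :=
    hW.dd_eq (pderiv (R := F) (sv s v)) hC pderiv_C
  have h3 : dd (pderiv (R := F) (sv s v)) M
      = dd (pderiv (R := F) (sv s v)) f * UU T F0 G
        + f * dd (pderiv (R := F) (sv s v)) (UU T F0 G) := by
    rw [← dd_mul, ← hM2]
  have h4 : UU T F0 (PowerSeries.C (X v) * G)
      = iv * tt T.toAddMonoidHom (F0 * (PowerSeries.C (X v) * G)) := rfl
  rw [h4, h1, h3, hM2, C_mul, map_mul (PowerSeries.C (R := MvPolynomial (L × ℕ) F))]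
  linear_combination (PowerSeries.C (X v) * UU T F0 G
    + PowerSeries.C (C al) * PowerSeries.C (C (wt s v : F)) *
        dd (pderiv (R := F) (sv s v)) (UU T F0 G)
    + PowerSeries.C (C (wt s v : F)) * dd (pderiv (R := F) (sv s v)) W * UU T F0 G) * hinv
    + iv * PowerSeries.C (C (wt s v : F)) * UU T F0 G * h2

theorem UU_fixed (hT : IsWick s al T) [CharZero F] (hal : al ≠ 0)
    {F0 W0 W : PowerSeries (MvPolynomial (L × ℕ) F)} (hW0 : IsLog (C al) F0 W0)
    (hW : IsLog (C al) (tt T.toAddMonoidHom F0) W) (u : L × ℕ) (c : F) :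
    PowerSeries.C (C c) * dd (pderiv (R := F) u) W
      = UU T F0 (PowerSeries.C (C c) * dd (pderiv (R := F) u) W0) := by
  have hC : (C al : MvPolynomial (L × ℕ) F) ≠ 0 := by
    rw [Ne, C_eq_zero]
    exact hal
  have h1 := hW.dd_eq (pderiv (R := F) u) hC pderiv_C
  have h2 := hW0.dd_eq (pderiv (R := F) u) hC pderiv_C
  have h3 : dd (pderiv (R := F) u) (tt T.toAddMonoidHom F0)
      = tt T.toAddMonoidHom (dd (pderiv (R := F) u) F0) := by
    ext1 n
    rw [coeff_dd, coeff_tt, coeff_tt, coeff_dd]
    exact hT.pderiv_comm u _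
  have h4 : PowerSeries.C (C al) * tt T.toAddMonoidHom (dd (pderiv (R := F) u) F0)
      = tt T.toAddMonoidHom (F0 * dd (pderiv (R := F) u) W0) := by
    rw [← h2]
    ext1 n
    rw [PowerSeries.coeff_C_mul, coeff_tt, coeff_tt, PowerSeries.coeff_C_mul]
    exact (hT.C_mul al _).symm
  have hz : ∀ v ∈ (0 : L × ℕ →₀ ℕ).support, s v.1 = v.1 := by
    intro v hv
    simp at hv
  rw [show (C c : MvPolynomial (L × ℕ) F) = monomial 0 c from rfl, UU_C_mul hT _ _ hz, UU, ← h4,
    ← h3, h1]
  linear_combination (-(PowerSeries.C (monomial 0 c) * dd (pderiv (R := F) u) W)) *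
    inv_mul hT hW0.one

theorem coeff_UU_mem (hT : IsWick s al T) [CharZero F] (hs : ∀ a, s (s a) = a) (hal : al ≠ 0)
    (halS : al ∈ S) (hl : ∀ d ∈ g, d.filter (fun v => s v.1 = v.1) ∈ g)
    {F0 W0 W : PowerSeries (MvPolynomial (L × ℕ) F)} (hW0 : IsLog (C al) F0 W0)
    (hW : IsLog (C al) (tt T.toAddMonoidHom F0) W)
    (hleg : ∀ v : L × ℕ, s v.1 ≠ v.1 → ∀ j,
      C (v.2 : F) * pderiv v (PowerSeries.coeff j W0) ∈ SS S g hg) (n : ℕ) :
    ∀ G : PowerSeries (MvPolynomial (L × ℕ) F), (∀ j, PowerSeries.coeff j G ∈ SS S g hg) →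
      PowerSeries.coeff n (UU T F0 G) ∈ SS S g hg := by
  induction n using Nat.strong_induction_on with
  | _ n ih =>
    -- leg derivatives of the new logarithm
    have hsucc : ∀ m ≤ n, ∀ G : PowerSeries (MvPolynomial (L × ℕ) F),
        (∀ j, PowerSeries.coeff j G ∈ SS S g hg) →
        PowerSeries.coeff m (PowerSeries.X * UU T F0 G) ∈ SS S g hg := by
      intro m hm G hG
      rcases m with _ | m
      · rw [PowerSeries.coeff_zero_X_mul]
        exact Subsemiring.zero_mem _
      · rw [PowerSeries.coeff_succ_X_mul]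
        exact ih m (by omega) G hG
    have h1 : ∀ v : L × ℕ, s v.1 ≠ v.1 → ∀ m ≤ n,
        PowerSeries.coeff m (PowerSeries.C (C (v.2 : F)) * dd (pderiv (R := F) v) W)
          ∈ SS S g hg := by
      intro v hv m hm
      rw [UU_fixed hT hal hW0 hW]
      set G := PowerSeries.C (C (v.2 : F)) * dd (pderiv (R := F) v) W0 with hG
      have hG1 : ∀ j, PowerSeries.coeff j G ∈ SS S g hg := by
        intro j
        rw [hG, PowerSeries.coeff_C_mul, coeff_dd]
        exact hleg v hv j
      have hG0 : PowerSeries.constantCoeff G = 0 := by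
        rw [← PowerSeries.coeff_zero_eq_constantCoeff_apply, hG, PowerSeries.coeff_C_mul,
          coeff_dd, hW0.zero, map_zero, mul_zero]
      rw [PowerSeries.eq_X_mul_shift_add_const G, hG0, map_zero, add_zero, UU_X_mul]
      refine hsucc m hm _ fun j => ?_
      rw [PowerSeries.coeff_mk]
      exact hG1 _
    -- monomials in the legs
    have h2 : ∀ (r : ℕ) (e : L × ℕ →₀ ℕ), e.sum (fun _ k => k) = r →
        (∀ v ∈ e.support, s v.1 ≠ v.1) → ∀ m ≤ n,
        PowerSeries.coeff m (UU T F0 (PowerSeries.C (monomial e 1))) ∈ SS S g hg := by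
      intro r
      induction r with
      | zero =>
        intro e hr _ m _
        have h0 : e = 0 := by
          ext v
          by_contra hv
          have : v ∈ e.support := Finsupp.mem_support_iff.2 hv
          have h1 := Finset.single_le_sum (f := fun v => e v) (fun _ _ => Nat.zero_le _) this
          have h2 : ∑ x ∈ e.support, e x = 0 := hr
          rw [h2] at h1
          exact hv (Nat.le_zero.1 h1)
        rw [h0, show (monomial 0 1 : MvPolynomial (L × ℕ) F) = 1 from rfl, map_one,
          UU_one hT hW0.one, PowerSeries.coeff_one]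
        split_ifs
        · exact Subsemiring.one_mem _
        · exact Subsemiring.zero_mem _
      | succ r ihr =>
        intro e hr he m hm
        have hne : e.support.Nonempty := by
          rw [Finset.nonempty_iff_ne_empty]
          intro h0
          have h1 : e.sum (fun _ k => k) = 0 := by
            rw [Finsupp.sum, h0, Finset.sum_empty]
          omega
        obtain ⟨v, hv⟩ := hne
        have hle : Finsupp.single v 1 ≤ e := by
          rw [Finsupp.single_le_iff]
          exact Nat.one_le_iff_ne_zero.2 (Finsupp.mem_support_iff.1 hv)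
        obtain ⟨e', he'⟩ := exists_add_of_le hle
        have hsub : e'.support ⊆ e.support := by
          intro w hw
          rw [Finsupp.mem_support_iff] at hw ⊢
          rw [he', Finsupp.add_apply]
          omega
        have hmon : (monomial e 1 : MvPolynomial (L × ℕ) F) = X v * monomial e' 1 := by
          rw [he', X, monomial_mul, one_mul]
        have hr' : e'.sum (fun _ k => k) = r := by
          have h1 : e.sum (fun _ k => k) = 1 + e'.sum (fun _ k => k) := by
            rw [he', Finsupp.sum_add_index' (fun _ => rfl) (fun _ _ _ => rfl),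
              Finsupp.sum_single_index rfl]
          omega
        have hleg' : s (sv s v).1 ≠ (sv s v).1 := by
          intro h
          apply he v hv
          have h5 : s (s v.1) = s v.1 := h
          rw [hs] at h5
          exact h5.symm
        have hrec := ihr e' hr' fun w hw => he w (hsub hw)
        have hwt : wt s v = (sv s v).2 := by
          rw [wt, if_neg (he v hv)]
          rfl
        rw [hmon, map_mul, UU_var_mul hT hal hW0.one hW, map_add, map_add,
          PowerSeries.coeff_C_mul, PowerSeries.coeff_C_mul, coeff_dd, PowerSeries.coeff_mul]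
        refine Subsemiring.add_mem _ (Subsemiring.add_mem _ ?_ ?_) ?_
        · exact Subsemiring.mul_mem _ (X_mem v) (hrec m hm)
        · exact Subsemiring.mul_mem _ (C_mem (S.mul_mem halS (natCast_mem S _)))
            (pderiv_mem hl hleg' (hrec m hm))
        · refine Subsemiring.sum_mem _ fun p hp => ?_
          rw [Finset.HasAntidiagonal.mem_antidiagonal] at hp
          refine Subsemiring.mul_mem _ ?_ (hrec _ (by omega))
          rw [hwt]
          exact h1 (sv s v) hleg' _ (by omega)
    -- constants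
    have h3 : ∀ P ∈ SS S g hg,
        PowerSeries.coeff n (UU T F0 (PowerSeries.C P)) ∈ SS S g hg := by
      intro P hP
      have hadd : ∀ (t : Finset (L × ℕ →₀ ℕ)) (f : (L × ℕ →₀ ℕ) → MvPolynomial (L × ℕ) F),
          (∀ d ∈ t, PowerSeries.coeff n (UU T F0 (PowerSeries.C (f d))) ∈ SS S g hg) →
          PowerSeries.coeff n (UU T F0 (PowerSeries.C (∑ d ∈ t, f d))) ∈ SS S g hg := by
        classical
        intro t f
        induction t using Finset.induction_on with
        | empty =>
          intro _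
          rw [Finset.sum_empty, map_zero, UU, mul_zero]
          have : tt T.toAddMonoidHom (0 : PowerSeries (MvPolynomial (L × ℕ) F)) = 0 := by
            ext1 n
            rw [coeff_tt, map_zero, map_zero]
          rw [this, mul_zero, map_zero]
          exact Subsemiring.zero_mem _
        | insert a t ha iht =>
          intro h
          rw [Finset.sum_insert ha, map_add, UU_add, map_add]
          exact Subsemiring.add_mem _ (h a (Finset.mem_insert_self a t))
            (iht fun d hd => h d (Finset.mem_insert_of_mem hd))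
      rw [P.as_sum]
      refine hadd _ _ fun d _ => ?_
      have hsplit : (monomial d (P.coeff d) : MvPolynomial (L × ℕ) F)
          = monomial (d.filter (fun v => s v.1 = v.1)) (P.coeff d) *
            monomial (d.filter (fun v => ¬ s v.1 = v.1)) 1 := by
        rw [monomial_mul, mul_one, filter_add_filter]
      rw [hsplit, map_mul, UU_C_mul hT]
      · rw [PowerSeries.coeff_C_mul]
        refine Subsemiring.mul_mem _ (monomial_mem ?_) (h2 _ _ rfl ?_ n le_rfl)
        · by_cases hd : d ∈ g
          · exact Or.inr (hl d hd)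
          · exact Or.inl (hP d hd)
        · intro v hv
          rw [Finsupp.support_filter, Finset.mem_filter] at hv
          exact hv.2
      · intro v hv
        rw [Finsupp.support_filter, Finset.mem_filter] at hv
        exact hv.2
    intro G hG
    rw [PowerSeries.eq_X_mul_shift_add_const G, UU_add, UU_X_mul, map_add]
    refine Subsemiring.add_mem _ (hsucc n le_rfl _ fun j => ?_) (h3 _ ?_)
    · rw [PowerSeries.coeff_mk]
      exact hG _
    · rw [← PowerSeries.coeff_zero_eq_constantCoeff_apply]
      exact hG 0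

/-- The fixed point theorem. -/
theorem core (hT : IsWick s al T) [CharZero F] (hs : ∀ a, s (s a) = a) (hal : al ≠ 0)
    (halS : al ∈ S) (hl : ∀ d ∈ g, d.filter (fun v => s v.1 = v.1) ∈ g)
    {F0 W0 W : PowerSeries (MvPolynomial (L × ℕ) F)} (hW0 : IsLog (C al) F0 W0)
    (hW : IsLog (C al) (tt T.toAddMonoidHom F0) W)
    (hleg : ∀ v : L × ℕ, s v.1 ≠ v.1 → ∀ j,
      C (v.2 : F) * pderiv v (PowerSeries.coeff j W0) ∈ SS S g hg)
    (u : L × ℕ) (c : F)
    (hu : ∀ j, C c * pderiv u (PowerSeries.coeff j W0) ∈ SS S g hg) (n : ℕ) :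
    C c * pderiv u (PowerSeries.coeff n W) ∈ SS S g hg := by
  have h1 := coeff_UU_mem hT hs hal halS hl hW0 hW hleg n
    (PowerSeries.C (C c) * dd (pderiv (R := F) u) W0) (fun j => by
      rw [PowerSeries.coeff_C_mul, coeff_dd]
      exact hu j)
  rw [← UU_fixed hT hal hW0 hW, PowerSeries.coeff_C_mul, coeff_dd] at h1
  exact h1

end Core

end Pool.Agent.JackB
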