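import Pool.Agent.Lib.JackB.Nat

/-!
The algebra generated by the Lax operator and the extensions of the `hk` acts transitively on the
exponential vector, modulo parameters of large rank (problem MP_b52a9f_co).
-/

open MvPolynomial

namespace Pool.Agent.JackB

section Cyc

variable {F : Type*} [Field F] {L : Type*} [DecidableEq L]

theorem hk_par {al b : F} {a : L} {g : AA F L} (hg : Md al a g = 0) (k : ℕ) (f : AA F L) :
    hk al b a k (g * f) = g * hk al b a k f := by
  have h1 : ∀ (k : ℕ) (u : VV F L), (LX al b a ^ k : Module.End F (VV F L)) (Polynomial.C g * u)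
      = Polynomial.C g * (LX al b a ^ k : Module.End F (VV F L)) u := by
    intro k
    induction k with
    | zero => intro u; rfl
    | succ k ih =>
      intro u
      rw [pow_succ, Module.End.mul_apply, LX_C_mul, hg, zero_mul, add_zero, ih,
        Module.End.mul_apply]
  rw [hk_apply, hk_apply, ← C_mul_mo, h1, co_apply, co_apply, Polynomial.coeff_C_mul]

/-- The operators generated by the Lax operator, the operators `T k`, the constants in `S` and
the parameters `r i`. -/
inductive OI (al b : F) (a : L) (T : ℕ → VV F L →ₗ[F] VV F L) (S : Subring F)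
    (r : ℕ → AA F L) : (VV F L →ₗ[F] VV F L) → Prop
  | lx : OI al b a T S r (LX al b a)
  | tk (k : ℕ) : OI al b a T S r (T k)
  | sc (s : F) (hs : s ∈ S) : OI al b a T S r (LinearMap.mulLeft F (Polynomial.C (C s)))
  | pr (i : ℕ) : OI al b a T S r (LinearMap.mulLeft F (Polynomial.C (r i)))
  | add (O O' : VV F L →ₗ[F] VV F L) : OI al b a T S r O → OI al b a T S r O' →
      OI al b a T S r (O + O')
  | comp (O O' : VV F L →ₗ[F] VV F L) : OI al b a T S r O → OI al b a T S r O' →
      OI al b a T S r (O ∘ₗ O')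

variable {al b : F} {a : L} {T : ℕ → VV F L →ₗ[F] VV F L} {S : Subring F} {r : ℕ → AA F L}

theorem OI.zero : OI al b a T S r 0 := by
  have h1 := OI.sc (al := al) (b := b) (a := a) (T := T) (r := r) 0 S.zero_mem
  have h2 : (LinearMap.mulLeft F (Polynomial.C (C 0)) : VV F L →ₗ[F] VV F L) = 0 := by
    refine LinearMap.ext fun u => ?_
    rw [LinearMap.mulLeft_apply, C_0, Polynomial.C_0, zero_mul, LinearMap.zero_apply]
  rwa [h2] at h1

theorem OI.neg {O : VV F L →ₗ[F] VV F L} (h : OI al b a T S r O) : OI al b a T S r (-O) := by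
  have h1 := OI.comp _ _ (OI.sc (al := al) (b := b) (a := a) (T := T) (r := r) (-1)
    (S.neg_mem S.one_mem)) h
  have h2 : (LinearMap.mulLeft F (Polynomial.C (C (-1))) ∘ₗ O : VV F L →ₗ[F] VV F L) = -O := by
    refine LinearMap.ext fun u => ?_
    rw [LinearMap.comp_apply, LinearMap.mulLeft_apply, LinearMap.neg_apply, C_neg, C_1,
      Polynomial.C_neg, Polynomial.C_1]
    ring
  rwa [h2] at h1

theorem OI.id : OI al b a T S r LinearMap.id := by
  have h1 := OI.sc (al := al) (b := b) (a := a) (T := T) (r := r) 1 S.one_mem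
  have h2 : (LinearMap.mulLeft F (Polynomial.C (C 1)) : VV F L →ₗ[F] VV F L) = LinearMap.id := by
    refine LinearMap.ext fun u => ?_
    rw [LinearMap.mulLeft_apply, C_1, Polynomial.C_1, one_mul, LinearMap.id_apply]
  rwa [h2] at h1

/-- The operators that are linear over the constants of the alphabet `a` and commute with the
Lax operator and with the `T k`. -/
structure Cm (al b : F) (a : L) (T : ℕ → VV F L →ₗ[F] VV F L) (O : VV F L →ₗ[F] VV F L) :
    Prop where
  lx : ∀ u, O (LX al b a u) = LX al b a (O u)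
  tk : ∀ k u, O (T k u) = T k (O u)
  par : ∀ g, Md al a g = 0 → ∀ u, O (Polynomial.C g * u) = Polynomial.C g * O u

theorem Cm_lx (hT : ∀ n, IsLift al b a (hk al b a n) (T n)) :
    Cm al b a T (LX al b a) where
  lx := fun u => rfl
  tk := fun k u => ((hT k).lx u).symm
  par := fun _ hg u => by rw [LX_C_mul, hg, zero_mul, add_zero]

theorem par_tk [CharZero F] (hal : al ≠ 0) (hT : ∀ n, IsLift al b a (hk al b a n) (T n)) (k : ℕ)
    {g : AA F L} (hg : Md al a g = 0) (u : VV F L) :
    T k (Polynomial.C g * u) = Polynomial.C g * T k u :=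
  (hT k).par hal hg (fun f => hk_par hg k f) u

theorem Cm_tk [CharZero F] (hal : al ≠ 0) (hT : ∀ n, IsLift al b a (hk al b a n) (T n))
    (hc : ∀ k l f, hk al b a k (hk al b a l f) = hk al b a l (hk al b a k f)) (k : ℕ) :
    Cm al b a T (T k) where
  lx := fun u => (hT k).lx u
  tk := fun l u => (hT k).commute hal (hT l) (hc k l) u
  par := fun _ hg u => par_tk hal hT k hg u

theorem Cm_mul [CharZero F] (hal : al ≠ 0) (hT : ∀ n, IsLift al b a (hk al b a n) (T n))
    {g : AA F L} (hg : Md al a g = 0) :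
    Cm al b a T (LinearMap.mulLeft F (Polynomial.C g)) where
  lx := fun u => by
    rw [LinearMap.mulLeft_apply, LinearMap.mulLeft_apply, LX_C_mul, hg, zero_mul, add_zero]
  tk := fun k u => by
    rw [LinearMap.mulLeft_apply, LinearMap.mulLeft_apply, par_tk hal hT k hg]
  par := fun _ _ u => by
    rw [LinearMap.mulLeft_apply, LinearMap.mulLeft_apply, mul_left_comm]

theorem Cm.add {O O' : VV F L →ₗ[F] VV F L} (h : Cm al b a T O) (h' : Cm al b a T O') :
    Cm al b a T (O + O') where
  lx := fun u => by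
    rw [LinearMap.add_apply, LinearMap.add_apply, h.lx, h'.lx, map_add]
  tk := fun k u => by
    rw [LinearMap.add_apply, LinearMap.add_apply, h.tk, h'.tk, map_add]
  par := fun g hg u => by
    rw [LinearMap.add_apply, LinearMap.add_apply, h.par g hg, h'.par g hg, mul_add]

theorem Cm.comp {O O' : VV F L →ₗ[F] VV F L} (h : Cm al b a T O) (h' : Cm al b a T O') :
    Cm al b a T (O ∘ₗ O') where
  lx := fun u => by
    rw [LinearMap.comp_apply, LinearMap.comp_apply, h'.lx, h.lx]
  tk := fun k u => by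
    rw [LinearMap.comp_apply, LinearMap.comp_apply, h'.tk, h.tk]
  par := fun g hg u => by
    rw [LinearMap.comp_apply, LinearMap.comp_apply, h'.par g hg, h.par g hg]

theorem OI.cm [CharZero F] (hal : al ≠ 0) (hT : ∀ n, IsLift al b a (hk al b a n) (T n))
    (hc : ∀ k l f, hk al b a k (hk al b a l f) = hk al b a l (hk al b a k f))
    (hr : ∀ i, Md al a (r i) = 0) {O : VV F L →ₗ[F] VV F L} (h : OI al b a T S r O) :
    Cm al b a T O := by
  induction h with
  | lx => exact Cm_lx hT
  | tk k => exact Cm_tk hal hT hc k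
  | sc s _ => exact Cm_mul hal hT (derivation_C _ _)
  | pr i => exact Cm_mul hal hT (hr i)
  | add O O' _ _ ih ih' => exact ih.add ih'
  | comp O O' _ _ ih ih' => exact ih.comp ih'

/-- The multiples of the products of parameters of rank at least `N`. -/
noncomputable def Gb (r : ℕ → AA F L) (N : ℕ) : AddSubgroup (VV F L) :=
  AddSubgroup.closure {x | ∃ nu, N ≤ rk nu ∧ ∃ u : VV F L, x = Polynomial.C (rr r nu) * u}

omit [DecidableEq L] in
theorem Gb_gen {N : ℕ} {nu : Multiset ℕ} (h : N ≤ rk nu) (u : VV F L) :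
    Polynomial.C (rr r nu) * u ∈ Gb r N := AddSubgroup.subset_closure ⟨nu, h, u, rfl⟩

omit [DecidableEq L] in
theorem Gb_map {N : ℕ} {O : VV F L →ₗ[F] VV F L}
    (h : ∀ nu u, O (Polynomial.C (rr r nu) * u) = Polynomial.C (rr r nu) * O u) {x : VV F L}
    (hx : x ∈ Gb r N) : O x ∈ Gb r N := by
  refine mem_of_closure (fun x => O x) (fun x y => map_add _ _ _) ?_ hx
  rintro x ⟨nu, hnu, u, rfl⟩
  show O _ ∈ Gb r N
  rw [h]
  exact Gb_gen hnu _

omit [DecidableEq L] in
theorem Gb_mul {N : ℕ} (w : VV F L) {x : VV F L} (hx : x ∈ Gb r N) : w * x ∈ Gb r N := by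
  refine mem_of_closure (fun x => w * x) (fun x y => mul_add _ _ _) ?_ hx
  rintro x ⟨nu, hnu, u, rfl⟩
  show w * _ ∈ Gb r N
  rw [mul_left_comm]
  exact Gb_gen hnu _

theorem Cm.gb [CharZero F] {O : VV F L →ₗ[F] VV F L} (h : Cm al b a T O)
    (hr : ∀ i, Md al a (r i) = 0) {N : ℕ} {x : VV F L} (hx : x ∈ Gb r N) : O x ∈ Gb r N :=
  Gb_map (fun nu u => h.par _ (Md_rr hr nu) u) hx

/-- Congruence modulo `Gb`. -/
def Cg (r : ℕ → AA F L) (N : ℕ) (G H : PowerSeries (VV F L)) : Prop :=
  ∀ n, ∃ x ∈ Gb r N, PowerSeries.coeff n G = PowerSeries.coeff n H + x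

omit [DecidableEq L] in
theorem Cg.rfl' {N : ℕ} (G : PowerSeries (VV F L)) : Cg r N G G :=
  fun _ => ⟨0, (Gb r N).zero_mem, (add_zero _).symm⟩

omit [DecidableEq L] in
theorem Cg.add {N : ℕ} {G H G' H' : PowerSeries (VV F L)} (h : Cg r N G H) (h' : Cg r N G' H') :
    Cg r N (G + G') (H + H') := by
  intro n
  obtain ⟨x, hx, h1⟩ := h n
  obtain ⟨y, hy, h2⟩ := h' n
  refine ⟨x + y, (Gb r N).add_mem hx hy, ?_⟩
  rw [map_add, map_add, h1, h2]
  ring

omit [DecidableEq L] in
theorem Cg.neg {N : ℕ} {G H : PowerSeries (VV F L)} (h : Cg r N G H) :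
    Cg r N (-G) (-H) := by
  intro n
  obtain ⟨x, hx, h1⟩ := h n
  refine ⟨-x, (Gb r N).neg_mem hx, ?_⟩
  rw [map_neg, map_neg, h1]
  ring

omit [DecidableEq L] in
theorem Cg.trans {N : ℕ} {G H K : PowerSeries (VV F L)} (h : Cg r N G H) (h' : Cg r N H K) :
    Cg r N G K := by
  intro n
  obtain ⟨x, hx, h1⟩ := h n
  obtain ⟨y, hy, h2⟩ := h' n
  refine ⟨y + x, (Gb r N).add_mem hy hx, ?_⟩
  rw [h1, h2, add_assoc]

omit [DecidableEq L] in
theorem Cg.map {N : ℕ} {O : VV F L →ₗ[F] VV F L} (hO : ∀ x ∈ Gb r N, O x ∈ Gb r N)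
    {G H : PowerSeries (VV F L)} (h : Cg r N G H) : Cg r N (tl O G) (tl O H) := by
  intro n
  obtain ⟨x, hx, h1⟩ := h n
  exact ⟨O x, hO x hx, by rw [coeff_tl, coeff_tl, h1, map_add]⟩

omit [DecidableEq L] in
theorem tl_co_mul (g : PowerSeries (AA F L)) (H : PowerSeries (VV F L)) :
    tl (co 0) (tl (mo 0) g * H) = g * tl (co 0) H := by
  ext1 n
  rw [coeff_tl, PowerSeries.coeff_mul, PowerSeries.coeff_mul, map_sum]
  refine Finset.sum_congr rfl fun p _ => ?_
  rw [coeff_tl, coeff_tl, mo_zero_eq, co_apply, Polynomial.coeff_C_mul]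
  rfl

theorem T_ve {k : ℕ} {T0 : VV F L →ₗ[F] VV F L} (hT : IsLift al b a (hk al b a k) T0)
    [CharZero F] (hal : al ≠ 0) (hr : ∀ j, Md al a (r j) = 0) (h0 : r 0 = 0)
    (G : PowerSeries (AA F L)) :
    tl T0 (ve al a r * tl (mo 0) G) = ve al a r * tl (mo 0) (hks al b a r k G) := by
  have h1 : ∀ (k : ℕ) (G : PowerSeries (VV F L)),
      tl (LX al b a ^ k : Module.End F (VV F L)) (ve al a r * G)
      = ve al a r * (LXs al b a r)^[k] G := by
    intro k
    induction k with
    | zero =>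
      intro G
      ext1 n
      rw [coeff_tl]
      rfl
    | succ k ih =>
      intro G
      rw [Function.iterate_succ_apply, ← ih, ← LX_ve hal b hr h0, tl_tl]
      rfl
  have h2 : ∀ g : PowerSeries (AA F L), tl T0 (tl (mo 0) g) = tl (mo 0) (tl (co 0)
      (tl (LX al b a ^ k : Module.End F (VV F L)) (tl (mo 0) g))) := by
    intro g
    ext1 n
    rw [coeff_tl, coeff_tl, coeff_tl, coeff_tl, coeff_tl, coeff_tl, hT.mo, hk_apply]
  rw [ve, tl_mo_mul, h2, ← tl_mo_mul]
  have h3 := h1 k (tl (mo 0) G)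
  rw [ve] at h3
  rw [h3, tl_co_mul, ← tl_mo_mul]
  rfl

/-- Every element of the filtration is represented by an operator in `OI`. -/
theorem tri_OI [CharZero F] (hal : al ≠ 0) (halS : al ∈ S) (hbS : b ∈ S)
    (hT : ∀ n, IsLift al b a (hk al b a n) (T n))
    (hc : ∀ k l f, hk al b a k (hk al b a l f) = hk al b a l (hk al b a k f))
    (hr : ∀ i, Md al a (r i) = 0) (h0 : r 0 = 0)
    (h1 : r 1 = 1) {N : ℕ} (hN : ∀ i, N < i → r i = 0) (hN1 : 1 ≤ N) (w : ℕ)
    {G : PowerSeries (VV F L)} (hG : G ∈ FV S a r N w) :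
    ∃ O, OI al b a T S r O ∧ Cg r N (tl O (ve al a r)) (ve al a r * G) := by
  set P : AddSubgroup (PowerSeries (VV F L)) :=
    { carrier := {G | ∃ O, OI al b a T S r O ∧ Cg r N (tl O (ve al a r)) (ve al a r * G)}
      zero_mem' := ⟨0, OI.zero, by
        have h2 : tl (0 : VV F L →ₗ[F] VV F L) (ve al a r) = ve al a r * 0 := by
          ext1 n
          rw [coeff_tl, mul_zero, map_zero, LinearMap.zero_apply]
        rw [h2]
        exact Cg.rfl' _⟩
      add_mem' := fun {G H} hG hH => by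
        obtain ⟨O, hO, h2⟩ := hG
        obtain ⟨O', hO', h3⟩ := hH
        refine ⟨O + O', OI.add O O' hO hO', ?_⟩
        have h4 : tl (O + O') (ve al a r) = tl O (ve al a r) + tl O' (ve al a r) := by
          ext1 n
          rw [map_add, coeff_tl, coeff_tl, coeff_tl, LinearMap.add_apply]
        rw [h4, mul_add]
        exact h2.add h3
      neg_mem' := fun {G} hG => by
        obtain ⟨O, hO, h2⟩ := hG
        refine ⟨-O, hO.neg, ?_⟩
        have h4 : tl (-O) (ve al a r) = -tl O (ve al a r) := by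
          ext1 n
          rw [map_neg, coeff_tl, coeff_tl, LinearMap.neg_apply]
        have h5 : ve al a r * (-G) = -(ve al a r * G) := by ring
        have h6 : Cg r N (tl (-O) (ve al a r)) (ve al a r * (-G)) := by
          rw [h4, h5]
          exact h2.neg
        exact h6 } with hP
  have hPm : ∀ G, (∃ O, OI al b a T S r O ∧ Cg r N (tl O (ve al a r)) (ve al a r * G)) → G ∈ P :=
    fun G h => h
  have hPm' : ∀ G ∈ P, ∃ O, OI al b a T S r O ∧ Cg r N (tl O (ve al a r)) (ve al a r * G) :=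
    fun G h => h
  clear_value P
  set Q : AddSubgroup (PowerSeries (AA F L)) :=
    { carrier := {G | tl (mo 0) G ∈ P}
      zero_mem' := by
        have h2 : tl (mo 0 : AA F L →ₗ[F] VV F L) 0 ∈ P := by
          rw [map_zero]
          exact P.zero_mem
        exact h2
      add_mem' := fun {G H} hG hH => by
        have h2 : tl (mo 0 : AA F L →ₗ[F] VV F L) (G + H) ∈ P := by
          rw [map_add]
          exact P.add_mem hG hH
        exact h2
      neg_mem' := fun {G} hG => by
        have h3 : tl (mo 0 : AA F L →ₗ[F] VV F L) (-G) = -tl (mo 0) G := by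
          rw [map_neg]
        have h2 : tl (mo 0 : AA F L →ₗ[F] VV F L) (-G) ∈ P := by
          rw [h3]
          exact P.neg_mem hG
        exact h2 } with hQ
  have hQm : ∀ G, tl (mo 0) G ∈ P → G ∈ Q := fun G h => h
  have hQm' : ∀ G ∈ Q, tl (mo 0) G ∈ P := fun G h => h
  clear_value Q
  have hgar : ∀ nu D u, N ≤ rk nu →
      PowerSeries.monomial D (Polynomial.C (rr r nu) * u) ∈ P := by
    intro nu D u hnu
    refine hPm _ ⟨0, OI.zero, fun n => ?_⟩
    refine ⟨-PowerSeries.coeff n (ve al a r * PowerSeries.monomial D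
      (Polynomial.C (rr r nu) * u)), ?_, ?_⟩
    · refine (Gb r N).neg_mem ?_
      rw [mul_comm, coeff_monomial_mul]
      split_ifs with h
      · rw [mul_assoc]
        exact Gb_gen hnu _
      · exact (Gb r N).zero_mem
    · rw [coeff_tl, LinearMap.zero_apply]
      ring
  have hA : ∀ w, FA S a r N w ≤ Q := by
    refine triA halS hbS hr h0 h1 hN hN1 Q ?_ ?_ ?_
    · intro s hs nu
      refine hQm _ ?_
      have h2 : ∀ nu, ∃ O, OI al b a T S r O ∧ ∀ u, O u = Polynomial.C (rr r nu * C s) * u := by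
        intro nu
        induction nu using Multiset.induction_on with
        | empty =>
          refine ⟨_, OI.sc s hs, fun u => ?_⟩
          rw [LinearMap.mulLeft_apply, rr, Multiset.map_zero, Multiset.prod_zero, one_mul]
        | cons i nu ih =>
          obtain ⟨O, hO, h2⟩ := ih
          refine ⟨_, OI.comp _ _ (OI.pr i) hO, fun u => ?_⟩
          rw [LinearMap.comp_apply, LinearMap.mulLeft_apply, h2, rr_cons, Polynomial.C_mul,
            Polynomial.C_mul, Polynomial.C_mul]
          ring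
      obtain ⟨O, hO, h3⟩ := h2 nu
      refine hPm _ ⟨O, hO, ?_⟩
      have h4 : tl O (ve al a r) = ve al a r * tl (mo 0) (PowerSeries.monomial 0 (rr r nu * C s)) := by
        ext1 n
        rw [coeff_tl, h3, tl_monomial, mul_comm (ve al a r), coeff_monomial_mul,
          if_pos (Nat.zero_le n), Nat.sub_zero, mo_zero_eq]
      rw [h4]
      exact Cg.rfl' _
    · intro i G hG
      obtain ⟨O, hO, h2⟩ := hPm' _ (hQm' _ hG)
      refine hQm _ (hPm _ ⟨T (i + 2) ∘ₗ O, OI.comp _ _ (OI.tk (i + 2)) hO, ?_⟩)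
      rw [← tl_tl, ← T_ve (hT (i + 2)) hal hr h0]
      exact h2.map fun x hx => (Cm_tk hal hT hc (i + 2)).gb hr hx
    · intro nu D f hnu _
      refine hQm _ ?_
      rw [tl_monomial, ← C_mul_mo]
      exact hgar nu D _ hnu
  have hV := triV halS hbS hr h0 h1 hN hN1 P (fun w G hG => hQm' _ (hA w hG)) (fun G hG => by
    obtain ⟨O, hO, h2⟩ := hPm' _ hG
    refine hPm _ ⟨LX al b a ∘ₗ O, OI.comp _ _ OI.lx hO, ?_⟩
    rw [← tl_tl, ← LX_ve hal b hr h0]
    exact h2.map fun x hx => (Cm_lx hT).gb hr hx) (fun nu D u hnu _ => hgar nu D u hnu) w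
  exact hPm' _ (hV hG)

end Cyc

end Pool.Agent.JackB
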