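import Mathlib

/-!
Jack symmetric functions through their power sum coefficients, the series
`tau`, `Psi` and the coefficients `c`, `h` (problem MP_b52a9f_co).
-/

open MvPolynomial

namespace Pool.Agent.JackB

/-- The field of rational functions in `b` with rational coefficients. -/
abbrev K : Type := RatFunc ℚ

/-- `α = 1 + b`. -/
noncomputable def al : K := 1 + RatFunc.X

/-- `z_λ`, the product over the different parts `i` of `i ^ m_i * m_i !`. -/
def zee {n : ℕ} (l : n.Partition) : ℕ :=
  ∏ i ∈ l.parts.toFinset, i ^ l.parts.count i * (l.parts.count i).factorial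

/-- The squared norm `z_λ α ^ ℓ(λ)` of the power sum `p_λ`. -/
noncomputable def zal {n : ℕ} (l : n.Partition) : K := (zee l : K) * al ^ l.parts.card

/-- The sum of the `k` largest parts of a partition. -/
def topSum {n : ℕ} (l : n.Partition) (k : ℕ) : ℕ :=
  ((l.parts.sort (fun a b => b ≤ a)).take k).sum

/-- Dominance order: `mu` is below `th`. -/
def Dom {n : ℕ} (mu th : n.Partition) : Prop := ∀ k : ℕ, topSum mu k ≤ topSum th k

/-- The partition of `n` with all parts equal to one. -/
def ones (n : ℕ) : n.Partition where
  parts := Multiset.replicate n 1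
  parts_pos := by
    intro i hi
    rw [Multiset.eq_of_mem_replicate hi]
    exact Nat.one_pos
  parts_sum := by simp

/-- A family of homogeneous symmetric functions indexed by partitions, given by
coefficients in the power sum basis: `J n θ λ` is the coefficient of `p_λ` in `J_θ`. -/
abbrev Fam : Type := ∀ n : ℕ, n.Partition → n.Partition → K

/-- Different members of the family (of the same degree) are orthogonal. -/
def Orth (J : Fam) : Prop :=
  ∀ (n : ℕ) (th mu : n.Partition), th ≠ mu → ∑ l, J n th l * J n mu l * zal l = 0

/-- The Jack family: orthogonal, lower triangular in the monomial symmetric functions with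
respect to the dominance order, and with the coefficient `n!` at the monomial `m_(1^n)`.
The identity in the second condition is in `n` variables. -/
structure IsJack (J : Fam) : Prop where
  orth : Orth J
  tri : ∀ (n : ℕ) (th : n.Partition), ∃ a : n.Partition → K,
    (∑ l, C (J n th l) * psumPart (Fin n) K l = ∑ m, C (a m) * msymm (Fin n) K m) ∧
    (∀ m, a m ≠ 0 → Dom m th) ∧ a (ones n) = (n.factorial : K)

/-- `j_θ`, the squared norm of `J_θ`. -/
noncomputable def jn (J : Fam) {n : ℕ} (th : n.Partition) : K :=
  ∑ l, J n th l * J n th l * zal l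

/-- `J_θ` in the alphabet `a`: the variable `(a, i)` stands for the power sum `p_i` of the
alphabet `a`. -/
noncomputable def Jp {ι : Type*} (J : Fam) {n : ℕ} (th : n.Partition) (a : ι) :
    MvPolynomial (ι × ℕ) K :=
  ∑ l : n.Partition, C (J n th l) * (l.parts.map fun i => X (a, i)).prod

/-- The series `τ` in the alphabets `ι` (for `ι` with `k + 2` elements it is the series of the
problem); the series variable is `t`. -/
noncomputable def tau (J : Fam) (ι : Type*) [Fintype ι] :
    PowerSeries (MvPolynomial (ι × ℕ) K) :=
  PowerSeries.mk fun n => ∑ th : n.Partition, C (jn J th)⁻¹ * ∏ a : ι, Jp J th a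

/-- `Ψ = α t (d/dt) log τ = α t τ' / τ`. -/
noncomputable def Psi (J : Fam) (ι : Type*) [Fintype ι] :
    PowerSeries (MvPolynomial (ι × ℕ) K) :=
  PowerSeries.C (C al) * (PowerSeries.X * PowerSeries.derivative (MvPolynomial (ι × ℕ) K) (tau J ι)) *
    PowerSeries.invOfUnit (tau J ι) 1

/-- The exponent of the monomial `∏_a p_{m a}(alphabet a)`. -/
noncomputable def mon {ι : Type*} [Fintype ι] {n : ℕ} (m : ι → n.Partition) : (ι × ℕ) →₀ ℕ :=
  ∑ a : ι, ((m a).parts.map fun i => Finsupp.single (a, i) 1).sum

/-- The coefficient `c`: alphabet `0` carries `λ`, alphabet `i + 1` carries `μ^i`. -/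
noncomputable def cJ (J : Fam) (k : ℕ) {n : ℕ} (m : Fin (k + 2) → n.Partition) : K :=
  zal (m 0) * (PowerSeries.coeff n (tau J (Fin (k + 2)))).coeff (mon m)

/-- The coefficient `h`: alphabet `0` carries `λ`, alphabet `i + 1` carries `μ^i`. -/
noncomputable def hJ (J : Fam) (k : ℕ) {n : ℕ} (m : Fin (k + 2) → n.Partition) : K :=
  (PowerSeries.coeff n (Psi J (Fin (k + 2)))).coeff (mon m)

/-- The polynomials in `b` with coefficients in the natural numbers. -/
noncomputable def Nb : Subsemiring K :=
  ((algebraMap (Polynomial ℚ) K).comp (Polynomial.mapRingHom (Nat.castRingHom ℚ))).rangeS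

end Pool.Agent.JackB
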