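import Pool.Agent.Lib.JackB.Glue1

/-!
The automorphism `α ↦ α⁻¹` of the coefficient field (problem MP_b52a9f_co).
-/

open MvPolynomial

namespace Pool.Agent.JackB

section Aut

theorem aeval_al (P : Polynomial ℚ) : Polynomial.aeval al P
    = algebraMap (Polynomial ℚ) K (P.comp (1 + Polynomial.X)) := by
  have h : ((Polynomial.aeval al : Polynomial ℚ →ₐ[ℚ] K) : Polynomial ℚ →+* K)
      = (algebraMap (Polynomial ℚ) K).comp (Polynomial.compRingHom (1 + Polynomial.X)) := by
    refine Polynomial.ringHom_ext' (RingHom.ext_rat _ _) ?_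
    show Polynomial.aeval al Polynomial.X
      = algebraMap (Polynomial ℚ) K (Polynomial.X.comp (1 + Polynomial.X))
    rw [Polynomial.aeval_X, Polynomial.X_comp, map_add, map_one, RatFunc.algebraMap_X]
    rfl
  exact DFunLike.congr_fun h P

theorem al_transcendental : Transcendental ℚ al := by
  rw [transcendental_iff]
  intro P hP
  rw [aeval_al, map_eq_zero_iff _ (RatFunc.algebraMap_injective ℚ)] at hP
  have h1 : (P.comp (1 + Polynomial.X)).comp (Polynomial.X - 1) = P := by
    rw [Polynomial.comp_assoc]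
    simp
  rw [← h1, hP, Polynomial.zero_comp]

theorem aeval_al_ne_zero {P : Polynomial ℚ} (hP : P ≠ 0) : Polynomial.aeval al P ≠ 0 :=
  fun h => al_transcendental ⟨P, hP, h⟩

theorem dual_ne_zero {P : Polynomial ℚ} (hP : P ≠ 0) : Polynomial.aeval (al⁻¹ - 1) P ≠ 0 := by
  intro h
  apply al_transcendental
  have h1 : IsAlgebraic ℚ (al⁻¹ - 1) := ⟨P, hP, h⟩
  have h2 : IsAlgebraic ℚ (al⁻¹) := by
    have h3 := h1.add (isAlgebraic_one (R := ℚ) (A := K))
    rw [sub_add_cancel] at h3
    exact h3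
  have h4 := h2.inv
  rw [inv_inv] at h4
  exact h4

theorem exists_dual : ∃ φ : K →+* K, φ al = al⁻¹ := by
  have h0 : nonZeroDivisors (Polynomial ℚ) ≤
      (nonZeroDivisors K).comap ((Polynomial.aeval (al⁻¹ - 1) : Polynomial ℚ →ₐ[ℚ] K) :
        Polynomial ℚ →+* K) := by
    intro P hP
    rw [Submonoid.mem_comap, mem_nonZeroDivisors_iff_ne_zero]
    exact dual_ne_zero (mem_nonZeroDivisors_iff_ne_zero.1 hP)
  refine ⟨RatFunc.liftRingHom _ h0, ?_⟩
  have h1 : al = algebraMap (Polynomial ℚ) K (1 + Polynomial.X) := by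
    rw [map_add, map_one, RatFunc.algebraMap_X]
    rfl
  refine (congrArg (RatFunc.liftRingHom _ h0) h1).trans ?_
  rw [RatFunc.liftRingHom_algebraMap]
  show Polynomial.aeval (al⁻¹ - 1) (1 + Polynomial.X : Polynomial ℚ) = _
  rw [map_add, map_one, Polynomial.aeval_X]
  ring

/-- The automorphism `α ↦ α⁻¹`. -/
noncomputable def du : K →+* K := exists_dual.choose

theorem du_al : du al = al⁻¹ := exists_dual.choose_spec

/-- The polynomials in `b` with rational coefficients. -/
noncomputable def Pb : Subring K := (algebraMap (Polynomial ℚ) K).range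

theorem al_mem_Pb : al ∈ Pb := ⟨1 + Polynomial.X, by
  rw [map_add, map_one, RatFunc.algebraMap_X]
  rfl⟩

theorem inv_mem_Pb (n : ℕ) : ((n : K))⁻¹ ∈ Pb := by
  refine ⟨Polynomial.C ((n : ℚ)⁻¹), ?_⟩
  have h := RingHom.ext_rat ((algebraMap (Polynomial ℚ) K).comp Polynomial.C) (Rat.castHom K)
  have h1 := DFunLike.congr_fun h ((n : ℚ)⁻¹)
  rw [RingHom.comp_apply] at h1
  rw [h1]
  show (((n : ℚ)⁻¹ : ℚ) : K) = _
  rw [Rat.cast_inv, Rat.cast_natCast]

theorem mem_Pb_iff {x : K} (h : x ∈ Pb) : ∃ P : Polynomial ℚ, x = Polynomial.aeval al P := by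
  obtain ⟨Q, rfl⟩ := h
  refine ⟨Q.comp (Polynomial.X - 1), ?_⟩
  rw [Polynomial.aeval_comp, map_sub, Polynomial.aeval_X, map_one]
  have h1 : al - 1 = (RatFunc.X : K) := by
    rw [al]
    ring
  rw [h1, ← RatFunc.algebraMap_X, Polynomial.aeval_algebraMap_apply]
  simp

theorem du_aeval (P : Polynomial ℚ) : du (Polynomial.aeval al P) = Polynomial.aeval al⁻¹ P := by
  have h : (du.comp ((Polynomial.aeval al : Polynomial ℚ →ₐ[ℚ] K) : Polynomial ℚ →+* K))
      = ((Polynomial.aeval al⁻¹ : Polynomial ℚ →ₐ[ℚ] K) : Polynomial ℚ →+* K) := by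
    refine Polynomial.ringHom_ext' (RingHom.ext_rat _ _) ?_
    show du (Polynomial.aeval al Polynomial.X) = Polynomial.aeval al⁻¹ Polynomial.X
    rw [Polynomial.aeval_X, Polynomial.aeval_X, du_al]
  exact DFunLike.congr_fun h P

/-- The valuation argument. -/
theorem eq_zero_of_du {x y : K} (hx : x ∈ Pb) (hy : y ∈ Pb) {R M : ℕ} (hRM : R < M)
    (h : du x * (-al) ^ R = al ^ M * y) : x = 0 := by
  obtain ⟨P, rfl⟩ := mem_Pb_iff hx
  obtain ⟨Y, rfl⟩ := mem_Pb_iff hy
  by_contra hne
  have hP : P ≠ 0 := by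
    rintro rfl
    rw [map_zero] at hne
    exact hne rfl
  have hinv : Invertible al⁻¹ := invertibleOfNonzero (inv_ne_zero al_ne_zero)
  have h1 := Polynomial.eval₂_reverse_mul_pow (algebraMap ℚ K) (al⁻¹) P
  have h2 : (⅟(al⁻¹) : K) = al := by
    rw [invOf_eq_inv, inv_inv]
  rw [h2] at h1
  have h3 : Polynomial.aeval al P.reverse * (al⁻¹) ^ P.natDegree = Polynomial.aeval al⁻¹ P := h1
  rw [du_aeval, ← h3] at h
  have h4 : Polynomial.aeval al (P.reverse * Polynomial.C ((-1) ^ R) * Polynomial.X ^ R)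
      = Polynomial.aeval al (Polynomial.X ^ (M + P.natDegree) * Y) := by
    have h10 : Polynomial.aeval al (Polynomial.C ((-1 : ℚ) ^ R)) = (-1 : K) ^ R := by
      rw [Polynomial.aeval_C, map_pow, map_neg, map_one]
    rw [map_mul, map_mul, map_mul, h10, map_pow, map_pow, Polynomial.aeval_X, pow_add]
    have h5 : (al⁻¹) ^ P.natDegree * al ^ P.natDegree = 1 := by
      rw [← mul_pow, inv_mul_cancel₀ al_ne_zero, one_pow]
    have h6 : (-al) ^ R = (-1) ^ R * al ^ R := by
      rw [← mul_pow]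
      ring
    rw [h6] at h
    linear_combination (al ^ P.natDegree) * h
      - (Polynomial.aeval al P.reverse * (-1) ^ R * al ^ R) * h5
  have h7 : P.reverse * Polynomial.C ((-1) ^ R) * Polynomial.X ^ R
      = Polynomial.X ^ (M + P.natDegree) * Y := by
    by_contra h8
    apply aeval_al_ne_zero (sub_ne_zero.2 h8)
    rw [map_sub, h4, sub_self]
  have h8 : (P.reverse * Polynomial.C ((-1) ^ R) * Polynomial.X ^ R).coeff R
      = (Polynomial.X ^ (M + P.natDegree) * Y).coeff R := by rw [h7]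
  rw [Polynomial.coeff_mul_X_pow', if_pos le_rfl, Nat.sub_self, Polynomial.coeff_mul_C,
    Polynomial.coeff_X_pow_mul', if_neg (by omega), Polynomial.coeff_zero_reverse] at h8
  rcases mul_eq_zero.1 h8 with h9 | h9
  · exact hP (Polynomial.leadingCoeff_eq_zero.1 h9)
  · exact absurd h9 (pow_ne_zero _ (by norm_num))

end Aut

end Pool.Agent.JackB
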