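import Pool.Agent.Lib.JackB.Dual1

/-!
The dual family and the degree bound for the coefficients of the logarithm
(problem MP_b52a9f_co).
-/

open MvPolynomial

namespace Pool.Agent.JackB

section Phi

variable {L : Type*}

/-- The dual of a family. -/
noncomputable def Jd (J : Fam) : Fam := fun n th l => (-al) ^ (rk l.parts) * du (J n th l)

/-- The semilinear substitution. -/
noncomputable def Ph1 (L : Type*) : AA K L →+* AA K L :=
  eval₂Hom ((C : K →+* AA K L).comp du) fun v => C ((-al) ^ (v.2 - 1)) * X v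

theorem Ph1_C (c : K) : Ph1 L (C c) = C (du c) := by
  rw [Ph1, coe_eval₂Hom, eval₂_C]
  rfl

theorem Ph1_X (v : L × ℕ) : Ph1 L (X v) = C ((-al) ^ (v.2 - 1)) * X v := by
  rw [Ph1, coe_eval₂Hom, eval₂_X]

theorem Ph1_pm (a : L) (s : Multiset ℕ) : Ph1 L (pm K a s) = C ((-al) ^ rk s) * pm K a s := by
  induction s using Multiset.induction_on with
  | empty => simp [rk]
  | cons i s ih =>
    rw [pm_cons, map_mul, ih, Ph1_X, rk_cons, pow_add, C_mul]
    ring

theorem Ph1_Jp (J : Fam) {n : ℕ} (th : n.Partition) (a : L) :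
    Ph1 L (Jp J th a) = Jp (Jd J) th a := by
  rw [Jp_eq, Jp_eq, map_sum]
  refine Finset.sum_congr rfl fun l _ => ?_
  rw [map_mul, Ph1_C, Ph1_pm, Jd, C_mul]
  ring

/-- The semilinear substitution with one more variable. -/
noncomputable def Ph2 (L : Type*) : VV K L →+* VV K L :=
  Polynomial.eval₂RingHom ((Polynomial.C : AA K L →+* VV K L).comp (Ph1 L))
    (Polynomial.C (C (-al)) * Polynomial.X)

theorem Ph2_mo (m : ℕ) (f : AA K L) : Ph2 L (mo m f) = mo m (C ((-al) ^ m) * Ph1 L f) := by
  rw [Ph2, mo_apply, mo_apply, Polynomial.coe_eval₂RingHom, Polynomial.eval₂_monomial,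
    RingHom.comp_apply, mul_pow, ← map_pow, ← map_pow, ← mul_assoc, ← Polynomial.C_mul,
    Polynomial.C_mul_X_pow_eq_monomial, mul_comm (Ph1 L f)]

theorem co_zero_Ph2 (u : VV K L) : co 0 (Ph2 L u) = Ph1 L (co 0 u) := by
  induction u using Polynomial.induction_on' with
  | add p q hp hq => rw [map_add, map_add, hp, hq, map_add, map_add]
  | monomial m f =>
    rw [← mo_apply, Ph2_mo, co_mo, co_mo]
    by_cases h : m = 0
    · rw [if_pos h, if_pos h, h, pow_zero, C_1, one_mul]
    · rw [if_neg h, if_neg h, map_zero]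

theorem C_mul_smul (c : K) (u : VV K L) : Polynomial.C (C c) * u = c • u := by
  rw [← Polynomial.smul_eq_C_mul, ← algebraMap_smul (AA K L) c u, algebraMap_eq]

variable [DecidableEq L]

theorem Ph2_Md (a : L) (f : AA K L) :
    Polynomial.C (C (-al)) * Ph2 L (Md al a f) = Md al a (Ph1 L f) := by
  induction f using MvPolynomial.induction_on with
  | C c => rw [Ph1_C, derivation_C, derivation_C, map_zero, mul_zero]
  | add p q hp hq => rw [map_add, map_add, mul_add, hp, hq, map_add, map_add]
  | mul_X p v hp =>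
    have h1 : Ph2 L (p • Md al a (X v)) = Polynomial.C (Ph1 L p) * Ph2 L (Md al a (X v)) := by
      rw [Polynomial.smul_eq_C_mul, map_mul]
      congr 1
      rw [← mo_zero_eq, Ph2_mo, pow_zero, C_1, one_mul, mo_zero_eq]
    have h2 : Ph2 L ((X v : AA K L) • Md al a p)
        = Polynomial.C (Ph1 L (X v)) * Ph2 L (Md al a p) := by
      rw [Polynomial.smul_eq_C_mul, map_mul]
      congr 1
      rw [← mo_zero_eq, Ph2_mo, pow_zero, C_1, one_mul, mo_zero_eq]
    have h3 : Polynomial.C (C (-al)) * Ph2 L (Md al a (X v)) = Md al a (Ph1 L (X v)) := by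
      rw [Ph1_X, Derivation.leibniz, derivation_C, smul_zero, add_zero, Polynomial.smul_eq_C_mul,
        Md, mkDerivation_X]
      by_cases hv : v.1 = a
      · rw [if_pos hv, Ph2_mo, Ph1_C, map_mul du, du_al, map_natCast du, C_mul_mo, C_mul_mo]
        congr 1
        rw [← C_mul, ← C_mul, ← C_mul]
        congr 1
        obtain ⟨c, i⟩ := v
        cases i with
        | zero => simp
        | succ i =>
          have h4 := mul_inv_cancel₀ al_ne_zero
          show -al * ((-al) ^ (i + 1) * (al⁻¹ * ((i + 1 : ℕ) : K)))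
            = (-al) ^ (i + 1 - 1) * (al * ((i + 1 : ℕ) : K))
          rw [Nat.add_sub_cancel, pow_succ]
          linear_combination ((-al) ^ i * al * ((i + 1 : ℕ) : K)) * h4
      · rw [if_neg hv, map_zero, mul_zero, mul_zero]
    rw [Derivation.leibniz, map_add, h1, h2, map_mul, Derivation.leibniz, ← h3, ← hp,
      Polynomial.smul_eq_C_mul, Polynomial.smul_eq_C_mul]
    ring

theorem Ph2_LX (a : L) (u : VV K L) :
    Polynomial.C (C (-al)) * Ph2 L (LX al (al - 1) a u) = LX al (al - 1) a (Ph2 L u) := by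
  induction u using Polynomial.induction_on' with
  | add p q hp hq => rw [map_add, map_add, mul_add, hp, hq, map_add, map_add]
  | monomial m f =>
    rw [← mo_apply, Ph2_mo, LX_mo, LX_mo, map_add, map_add, mul_add, mul_add]
    congr 1
    · congr 1
      · rw [map_mul, map_pow]
        have h1 : Ph2 L (Polynomial.X) = Polynomial.C (C (-al)) * Polynomial.X := by
          rw [Ph2, Polynomial.coe_eval₂RingHom, Polynomial.eval₂_X]
        rw [h1, Derivation.leibniz, derivation_C, smul_zero, add_zero, Polynomial.smul_eq_C_mul,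
          ← Ph2_Md, mul_pow, map_pow, map_pow]
        ring
      · rw [← C_mul_smul, ← C_mul_smul, map_mul, Ph2_mo]
        have h1 : Ph2 L (Polynomial.C (C ((al - 1) * (m : K))))
            = Polynomial.C (C ((al⁻¹ - 1) * (m : K))) := by
          rw [← mo_zero_eq, Ph2_mo, pow_zero, C_1, one_mul, mo_zero_eq, Ph1_C, map_mul, map_sub,
            du_al, map_one, map_natCast]
        rw [h1, ← mul_assoc, ← Polynomial.C_mul, ← C_mul]
        congr 3
        have h4 := mul_inv_cancel₀ al_ne_zero
        linear_combination (-(m : K)) * h4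
    · rw [map_sum, Finset.mul_sum]
      refine Finset.sum_congr rfl fun j hj => ?_
      rw [Finset.mem_range] at hj
      rw [Ph2_mo, map_mul (Ph1 L), Ph1_X, C_mul_mo]
      congr 1
      have h2 : (-al) * ((-al) ^ (m - 1 - j) * (-al) ^ ((a, j + 1).2 - 1)) = (-al) ^ m := by
        show (-al) * ((-al) ^ (m - 1 - j) * (-al) ^ (j + 1 - 1)) = (-al) ^ m
        rw [← pow_add, ← pow_succ']
        congr 1
        omega
      rw [← h2, C_mul, C_mul]
      ring

theorem Ph2_LX_pow (a : L) (k : ℕ) (u : VV K L) :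
    Polynomial.C (C ((-al) ^ k)) *
      Ph2 L ((LX al (al - 1) a ^ k : Module.End K (VV K L)) u)
      = (LX al (al - 1) a ^ k : Module.End K (VV K L)) (Ph2 L u) := by
  induction k with
  | zero => simp
  | succ k ih =>
    rw [pow_succ' (LX al (al - 1) a : Module.End K (VV K L)), Module.End.mul_apply,
      Module.End.mul_apply, ← ih, C_mul_smul ((-al) ^ k), map_smul, ← Ph2_LX, ← C_mul_smul,
      pow_succ, C_mul, Polynomial.C_mul]
    ring

theorem Ph1_hk (a : L) (k : ℕ) (f : AA K L) :
    C ((-al) ^ k) * Ph1 L (hk al (al - 1) a k f) = hk al (al - 1) a k (Ph1 L f) := by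
  rw [hk_apply, hk_apply]
  have h1 : mo 0 (Ph1 L f) = Ph2 L (mo 0 f) := by
    rw [Ph2_mo, pow_zero, C_1, one_mul]
  rw [h1, ← Ph2_LX_pow, C_mul_smul, map_smul, co_zero_Ph2, smul_eq_C_mul]

theorem Jd_eig {J : Fam} {a : L} (h : Eig J a) : Eig (Jd J) a := by
  intro k n th
  obtain ⟨c, hc⟩ := h k n th
  refine ⟨(-al) ^ k * du c, ?_⟩
  rw [← Ph1_Jp, ← Ph1_hk, hc, map_mul, Ph1_C, C_mul]
  ring

end Phi

section Fam

variable {J : Fam}

theorem du_zal {n : ℕ} (l : n.Partition) :
    (-al) ^ rk l.parts * (-al) ^ rk l.parts * zal l = al ^ (2 * n) * du (zal l) := by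
  have h1 := rk_parts l
  rw [zal, map_mul, map_natCast, map_pow, du_al, ← mul_pow, neg_mul_neg, ← pow_two, ← pow_mul]
  have h2 : (al⁻¹) ^ l.parts.card * al ^ l.parts.card = 1 := by
    rw [← mul_pow, inv_mul_cancel₀ al_ne_zero, one_pow]
  have h3 : al ^ (2 * n) = al ^ (2 * rk l.parts) * al ^ l.parts.card * al ^ l.parts.card := by
    rw [← pow_add, ← pow_add]
    congr 1
    omega
  rw [h3]
  linear_combination (-(al ^ (2 * rk l.parts) * al ^ l.parts.card * (zee l : K))) * h2

theorem Jd_term {n : ℕ} (th mu l : n.Partition) : Jd J n th l * Jd J n mu l * zal l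
    = al ^ (2 * n) * du (J n th l * J n mu l * zal l) := by
  rw [Jd, Jd, map_mul, map_mul]
  linear_combination (du (J n th l) * du (J n mu l)) * du_zal l

theorem jn_Jd {n : ℕ} (th : n.Partition) : jn (Jd J) th = al ^ (2 * n) * du (jn J th) := by
  rw [jn, jn, map_sum, Finset.mul_sum]
  exact Finset.sum_congr rfl fun l _ => Jd_term th th l

theorem Jd_jok (hJ : JOK J) : JOK (Jd J) where
  orth := by
    intro n th mu h
    rw [Finset.sum_congr rfl fun l _ => Jd_term th mu l, ← Finset.mul_sum, ← map_sum,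
      hJ.orth n th mu h, map_zero, mul_zero]
  jn0 := by
    intro n th
    rw [jn_Jd]
    exact mul_ne_zero (pow_ne_zero _ al_ne_zero) ((map_ne_zero du).2 (hJ.jn0 n th))
  compl := by
    intro n l m
    have h1 : ∀ th : n.Partition, (jn (Jd J) th)⁻¹ * Jd J n th l * Jd J n th m
        = (al ^ (2 * n))⁻¹ * ((-al) ^ rk l.parts * (-al) ^ rk m.parts) *
          du ((jn J th)⁻¹ * J n th l * J n th m) := by
      intro th
      rw [jn_Jd, Jd, Jd, map_mul, map_mul, map_inv₀, mul_inv]
      ring
    rw [Finset.sum_congr rfl fun th _ => h1 th, ← Finset.mul_sum, ← map_sum, hJ.compl n l m]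
    by_cases h : l = m
    · subst h
      rw [if_pos rfl, map_inv₀]
      have h2 := du_zal l
      have h3 := zal_ne_zero l
      have h4 : du (zal l) ≠ 0 := (map_ne_zero du).2 h3
      have h5 : al ^ (2 * n) ≠ 0 := pow_ne_zero _ al_ne_zero
      field_simp
      linear_combination h2
    · rw [if_neg h, map_zero, mul_zero]
  one := by
    intro n th
    rw [Jd, hJ.one, map_one, mul_one]
    have h1 : rk (ones n).parts = 0 := by
      show rk (Multiset.replicate n 1) = 0
      rw [rk, Multiset.map_replicate]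
      simp
    rw [h1, pow_zero]

theorem Jd_unital (h0 : Unital J) : Unital (Jd J) := by
  intro th l
  rw [Jd, h0, map_one, mul_one]
  have h1 := rk_parts l
  have h2 : rk l.parts = 0 := by omega
  rw [h2, pow_zero]

end Fam

end Pool.Agent.JackB
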