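import Pool.Agent.Lib.JackB.Dual2

/-!
Vanishing of the coefficients of the logarithm for small total rank (problem MP_b52a9f_co).
-/

open MvPolynomial

namespace Pool.Agent.JackB

section Wt

variable {L : Type*}

/-- The total rank of an exponent. -/
noncomputable def rw' (d : L × ℕ →₀ ℕ) : ℕ := d.sum fun v k => k * (v.2 - 1)

theorem rw_add (d e : L × ℕ →₀ ℕ) : rw' (d + e) = rw' d + rw' e := by
  classical
  exact Finsupp.sum_add_index' (fun _ => zero_mul _) (fun _ _ _ => add_mul _ _ _)

theorem rw_single (v : L × ℕ) : rw' (Finsupp.single v 1) = v.2 - 1 := by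
  rw [rw', Finsupp.sum_single_index (zero_mul _), one_mul]

theorem rw_zero : rw' (0 : L × ℕ →₀ ℕ) = 0 := Finsupp.sum_zero_index

theorem rw_ex (a : L) (s : Multiset ℕ) : rw' (ex a s) = rk s := by
  induction s using Multiset.induction_on with
  | empty => simp [ex, rk, rw_zero]
  | cons i s ih => rw [ex_cons, rw_add, rw_single, ih, rk_cons]

theorem rw_mon {ι : Type*} [Fintype ι] {n : ℕ} (m : ι → n.Partition) :
    rw' (mon m) = ∑ a, rk (m a).parts := by
  classical
  rw [mon_eq]
  have h : ∀ t : Finset ι, rw' (∑ a ∈ t, ex a (m a).parts) = ∑ a ∈ t, rk (m a).parts := by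
    intro t
    induction t using Finset.induction_on with
    | empty => rw [Finset.sum_empty, Finset.sum_empty, rw_zero]
    | insert a t ha ih => rw [Finset.sum_insert ha, Finset.sum_insert ha, rw_add, rw_ex, ih]
  exact h _

theorem Ph1_monomial (d : L × ℕ →₀ ℕ) (c : K) :
    Ph1 L (monomial d c) = monomial d (du c * (-al) ^ rw' d) := by
  classical
  induction d using Finsupp.induction_linear generalizing c with
  | zero =>
    rw [rw_zero, pow_zero, mul_one]
    exact Ph1_C c
  | add d e hd he =>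
    have h1 : (monomial (d + e) c : AA K L) = monomial d c * monomial e 1 := by
      rw [monomial_mul, mul_one]
    rw [h1, map_mul, hd, he, monomial_mul, map_one, one_mul, rw_add, pow_add, mul_assoc]
  | single v k =>
    have h1 : (monomial (Finsupp.single v k) c : AA K L) = C c * X v ^ k := by
      rw [X_pow_eq_monomial, C_mul_monomial, mul_one]
    have h2 : rw' (Finsupp.single v k) = k * (v.2 - 1) :=
      Finsupp.sum_single_index (zero_mul _)
    rw [h1, map_mul, map_pow, Ph1_C, Ph1_X, mul_pow, ← map_pow, X_pow_eq_monomial,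
      C_mul_monomial, C_mul_monomial, h2, mul_one, ← pow_mul, mul_comm (v.2 - 1) k]

theorem coeff_Ph1 (P : AA K L) (d : L × ℕ →₀ ℕ) :
    (Ph1 L P).coeff d = du (P.coeff d) * (-al) ^ rw' d := by
  classical
  induction P using MvPolynomial.induction_on' with
  | monomial e c =>
    rw [Ph1_monomial, coeff_monomial, coeff_monomial]
    by_cases h : e = d
    · rw [if_pos h, if_pos h, h]
    · rw [if_neg h, if_neg h, map_zero, zero_mul]
  | add p q hp hq => rw [map_add, coeff_add, coeff_add, map_add, hp, hq, add_mul]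

end Wt

section Log

variable {A : Type*} [CommRing A]

theorem zd_rescale (a : A) (F : PowerSeries A) :
    zd (PowerSeries.rescale a F) = PowerSeries.rescale a (zd F) := by
  ext1 n
  rw [coeff_zd, PowerSeries.coeff_rescale, PowerSeries.coeff_rescale, coeff_zd]
  ring

theorem IsLog.rescale {a : A} {F W : PowerSeries A} (h : IsLog a F W) (c : A) :
    IsLog a (PowerSeries.rescale c F) (PowerSeries.rescale c W) where
  one := by rw [PowerSeries.coeff_rescale, pow_zero, one_mul, h.one]
  zero := by rw [PowerSeries.coeff_rescale, h.zero, mul_zero]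
  eq := by
    rw [zd_rescale, zd_rescale, ← map_mul, ← h.eq, map_mul]
    congr 1
    ext1 n
    rw [PowerSeries.coeff_rescale, PowerSeries.coeff_C]
    split_ifs with h
    · rw [h, pow_zero, one_mul]
    · rw [mul_zero]

theorem IsLog.scale {a : A} {F W : PowerSeries A} (h : IsLog a F W) (c : A) :
    IsLog (c * a) F (PowerSeries.C c * W) where
  one := h.one
  zero := by rw [PowerSeries.coeff_C_mul, h.zero, mul_zero]
  eq := by
    rw [zd_C_mul, map_mul, mul_assoc, h.eq]
    ring

end Log

section Van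

variable {J : Fam} {ι : Type*} [Fintype ι] [DecidableEq ι]

omit [DecidableEq ι] in
theorem map_Ph1_tau (J : Fam) : PowerSeries.map (Ph1 ι) (tau J ι)
    = PowerSeries.rescale (C (al ^ 2)) (tau (Jd J) ι) := by
  ext1 n
  rw [PowerSeries.coeff_map, PowerSeries.coeff_rescale, coeff_tau, coeff_tau, map_sum,
    Finset.mul_sum]
  refine Finset.sum_congr rfl fun th _ => ?_
  rw [map_mul, map_prod, Ph1_C, jn_Jd, ← map_pow, ← pow_mul, ← mul_assoc, ← C_mul]
  congr 1
  · congr 1
    rw [mul_inv, ← mul_assoc, mul_inv_cancel₀ (pow_ne_zero _ al_ne_zero), one_mul, map_inv₀]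
  · exact Finset.prod_congr rfl fun a _ => Ph1_Jp J th a

/-- The relation between the logarithms. -/
theorem log_dual {W W' : PowerSeries (AA K ι)} (hW : IsLog (C al) (tau J ι) W)
    (hW' : IsLog (C al) (tau (Jd J) ι) W') (n : ℕ) (m : ι → n.Partition) :
    du ((PowerSeries.coeff n W).coeff (mon m)) * (-al) ^ (∑ a, rk (m a).parts) * al ^ 2
      = al ^ (2 * n) * (PowerSeries.coeff n W').coeff (mon m) := by
  have h1 := hW.map (Ph1 ι)
  rw [map_Ph1_tau, Ph1_C, du_al] at h1
  have h2 := (hW'.rescale (C (al ^ 2))).scale (C ((al ^ 2)⁻¹))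
  have h3 : (C ((al ^ 2)⁻¹) * C al : AA K ι) = C al⁻¹ := by
    rw [← C_mul]
    congr 1
    have h4 := al_ne_zero
    field_simp
  rw [h3] at h2
  have h4 := congrArg (fun P : PowerSeries (AA K ι) => (PowerSeries.coeff n P).coeff (mon m))
    (h1.unique h2)
  have h5 : (Ph1 ι (PowerSeries.coeff n W)).coeff (mon m)
      = (PowerSeries.coeff n (PowerSeries.C (C ((al ^ 2)⁻¹)) *
        PowerSeries.rescale (C (al ^ 2)) W')).coeff (mon m) := h4
  rw [coeff_Ph1, rw_mon, PowerSeries.coeff_C_mul, PowerSeries.coeff_rescale, ← map_pow,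
    coeff_C_mul, coeff_C_mul, ← pow_mul] at h5
  rw [h5]
  have h6 : al ^ 2 ≠ 0 := pow_ne_zero _ al_ne_zero
  rw [mul_comm, ← mul_assoc, mul_inv_cancel₀ h6, one_mul]

/-- The logarithm has polynomial coefficients. -/
theorem log_Pb (hO : JOK J) (h0 : Unital J) (hE : Eig J (0 : Fin 3)) {k : ℕ} (hk : 1 ≤ k)
    {W : PowerSeries (AA K (Fin (k + 2)))} (hW : IsLog (C al) (tau J (Fin (k + 2))) W)
    (n : ℕ) (m : Fin (k + 2) → n.Partition) : (PowerSeries.coeff n W).coeff (mon m) ∈ Pb := by
  rcases Nat.eq_zero_or_pos n with rfl | hn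
  · rw [hW.zero, coeff_zero]
    exact Pb.zero_mem
  have h3 := fine3 hO h0 hE al_mem_Pb
  have h := reduction (S := Pb.toSubsemiring) (Cl := Set.univ) hO.orth h0
    al_mem_Pb (fun _ _ _ _ => Set.mem_univ _) (fun n hn m _ i => ?_) hk hn m
    (fun _ _ => Set.mem_univ _)
  · have h1 : hJ J k m ∈ Pb := h.2.1
    have h2 : hJ J k m = (n : K) * (PowerSeries.coeff n W).coeff (mon m) :=
      coeff_Psi h0 hW n (mon m)
    rw [h2] at h1
    have h4 := Pb.mul_mem (inv_mem_Pb n) h1
    have h5 : (n : K) ≠ 0 := Nat.cast_ne_zero.2 (by omega)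
    rw [← mul_assoc, inv_mul_cancel₀ h5, one_mul] at h4
    exact h4
  · have hgood : Good (fun _ => ∅ : Fin (1 + 2) → Set (ℕ → ℕ)) m := fun a => Set.notMem_empty _
    exact coeff_of_fine h0 (fun a x y hx _ => absurd hx (Set.notMem_empty _)) h3 hn
      hgood i

/-- The coefficients of the logarithm vanish when the total rank is less than `2 n - 2`. -/
theorem log_vanish (hK : IsJack J) {k : ℕ} (hk : 1 ≤ k)
    {W : PowerSeries (AA K (Fin (k + 2)))} (hW : IsLog (C al) (tau J (Fin (k + 2))) W)
    (n : ℕ) (m : Fin (k + 2) → n.Partition) (h : (∑ a, rk (m a).parts) + 2 < 2 * n) :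
    (PowerSeries.coeff n W).coeff (mon m) = 0 := by
  obtain ⟨W', hW'⟩ := IsLog.exists_log al (tau_zero (Jd_unital hK.unital) (Fin (k + 2)))
  have h1 := log_dual hW hW' n m
  have h2 := log_Pb hK.jok hK.unital hK.eig hk hW n m
  have h3 := log_Pb (Jd_jok hK.jok) (Jd_unital hK.unital) (Jd_eig hK.eig) hk hW' n m
  refine eq_zero_of_du h2 h3 (R := ∑ a, rk (m a).parts) (M := 2 * n - 2) (by omega) ?_
  have h4 : al ^ 2 ≠ 0 := pow_ne_zero _ al_ne_zero
  have h5 : al ^ (2 * n) = al ^ (2 * n - 2) * al ^ 2 := by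
    rw [← pow_add]
    congr 1
    omega
  rw [h5] at h1
  exact mul_right_cancel₀ h4 (by linear_combination h1)

end Van

end Pool.Agent.JackB
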