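import Pool.Agent.Lib.JackB.Jop

/-!
Homogeneity of the Lax operator and the bilinear form on Jack functions (problem MP_b52a9f_co).
-/

open MvPolynomial

namespace Pool.Agent.JackB

section Homog

variable {F : Type*} [Field F] {L : Type*} [DecidableEq L]

/-- The span of the products of power sums of the alphabet `a` of degree `n - m`. -/
noncomputable def PPn (F : Type*) [Field F] {L : Type*} (a : L) (n m : ℕ) :
    Submodule F (AA F L) :=
  Submodule.span F {x | ∃ lam : Multiset ℕ, (∀ i ∈ lam, 1 ≤ i) ∧ lam.sum + m = n ∧ x = pm F a lam}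

omit [DecidableEq L] in
theorem PPn_map {a : L} {n m : ℕ} {f : AA F L} (hf : f ∈ PPn F a n m)
    (E : AA F L →ₗ[F] AA F L) (U : Submodule F (AA F L))
    (h : ∀ lam : Multiset ℕ, (∀ i ∈ lam, 1 ≤ i) → lam.sum + m = n → E (pm F a lam) ∈ U) :
    E f ∈ U := by
  have h1 : PPn F a n m ≤ U.comap E := by
    refine Submodule.span_le.2 ?_
    rintro x ⟨lam, h2, h3, rfl⟩
    exact h lam h2 h3
  exact h1 hf

theorem PPn_pderiv {a : L} {n m i : ℕ} {f : AA F L} (hf : f ∈ PPn F a n m) :
    pderiv (a, i) f ∈ PPn F a n (m + i) := by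
  refine PPn_map hf (pderiv (a, i)).toLinearMap _ ?_
  intro lam h1 h2
  show pderiv (a, i) (pm F a lam) ∈ PPn F a n (m + i)
  rw [pderiv_pm, ← smul_eq_C_mul]
  by_cases h : i ∈ lam
  · refine Submodule.smul_mem _ _ (Submodule.subset_span ⟨lam.erase i, ?_, ?_, rfl⟩)
    · intro j hj
      exact h1 j (Multiset.mem_of_mem_erase hj)
    · have h3 := Multiset.sum_erase h
      omega
  · rw [Multiset.count_eq_zero.2 h, Nat.cast_zero, zero_smul]
    exact Submodule.zero_mem _

omit [DecidableEq L] in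
theorem PPn_X {a : L} {n m i : ℕ} (hi : i ≠ 0) (him : i ≤ m) {f : AA F L}
    (hf : f ∈ PPn F a n m) : X (a, i) * f ∈ PPn F a n (m - i) := by
  refine PPn_map hf (LinearMap.mulLeft F (X (a, i))) _ ?_
  intro lam h1 h2
  show X (a, i) * pm F a lam ∈ PPn F a n (m - i)
  rw [← pm_cons]
  refine Submodule.subset_span ⟨i ::ₘ lam, ?_, ?_, rfl⟩
  · intro j hj
    rcases Multiset.mem_cons.1 hj with h | h
    · omega
    · exact h1 j h
  · rw [Multiset.sum_cons]
    omega

theorem PPn_LX {al b : F} {a : L} {n : ℕ} {u : VV F L} (hu : ∀ m, co m u ∈ PPn F a n m) (k : ℕ) :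
    co k (LX al b a u) ∈ PPn F a n k := by
  have h1 : u = ∑ m ∈ Finset.range (u.natDegree + 1), mo m (co m u) := u.as_sum_range
  rw [h1, map_sum, map_sum]
  refine Submodule.sum_mem _ fun m _ => ?_
  rw [co_LX_mo]
  refine Submodule.add_mem _ (Submodule.add_mem _ ?_ ?_) ?_
  · split_ifs with h
    · by_cases hkm : k - m = 0
      · rw [hkm, Nat.cast_zero, mul_zero, C_0, zero_mul]
        exact Submodule.zero_mem _
      · rw [← smul_eq_C_mul]
        have h2 := PPn_pderiv (a := a) (i := k - m) (hu m)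
        have h3 : m + (k - m) = k := by omega
        rw [h3] at h2
        exact Submodule.smul_mem _ _ h2
    · exact Submodule.zero_mem _
  · split_ifs with h
    · rw [← smul_eq_C_mul, ← h]
      exact Submodule.smul_mem _ _ (hu m)
    · exact Submodule.zero_mem _
  · split_ifs with h
    · have h2 := PPn_X (a := a) (i := m - k) (by omega) (by omega) (hu m)
      have h3 : m - (m - k) = k := by omega
      rw [h3] at h2
      exact h2
    · exact Submodule.zero_mem _

theorem PPn_hk {al b : F} {a : L} {n : ℕ} {f : AA F L} (hf : f ∈ PPn F a n 0) (k : ℕ) :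
    hk al b a k f ∈ PPn F a n 0 := by
  have h1 : ∀ k m : ℕ, co m ((LX al b a ^ k : Module.End F (VV F L)) (mo 0 f)) ∈ PPn F a n m := by
    intro k
    induction k with
    | zero =>
      intro m
      rw [pow_zero, Module.End.one_apply, co_mo]
      split_ifs with h
      · rw [← h]
        exact hf
      · exact Submodule.zero_mem _
    | succ k ih =>
      rw [pow_succ', Module.End.mul_apply]
      exact PPn_LX ih
  exact h1 k 0

omit [DecidableEq L] in
theorem PPn_coef {a : L} {n : ℕ} {f : AA F L} (hf : f ∈ PPn F a n 0) :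
    ∃ c : n.Partition → F, f = ∑ l, C (c l) * pm F a l.parts := by
  classical
  refine Submodule.span_induction (p := fun f _ => ∃ c : n.Partition → F,
    f = ∑ l, C (c l) * pm F a l.parts) ?_ ?_ ?_ ?_ hf
  · rintro x ⟨lam, h1, h2, rfl⟩
    rw [add_zero] at h2
    subst h2
    refine ⟨Pi.single ⟨lam, fun {i} hi => h1 i hi, rfl⟩ 1, ?_⟩
    rw [Finset.sum_eq_single ⟨lam, fun {i} hi => h1 i hi, rfl⟩]
    · rw [Pi.single_eq_same, C_1, one_mul]
    · intro m _ hm
      rw [Pi.single_eq_of_ne hm, C_0, zero_mul]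
    · intro h
      exact absurd (Finset.mem_univ _) h
  · exact ⟨0, by simp⟩
  · rintro x y _ _ ⟨c1, rfl⟩ ⟨c2, rfl⟩
    refine ⟨c1 + c2, ?_⟩
    rw [← Finset.sum_add_distrib]
    refine Finset.sum_congr rfl fun l _ => ?_
    rw [Pi.add_apply, C_add, add_mul]
  · rintro t x _ ⟨c1, rfl⟩
    refine ⟨t • c1, ?_⟩
    rw [Finset.smul_sum]
    refine Finset.sum_congr rfl fun l _ => ?_
    rw [Pi.smul_apply, smul_eq_C_mul, smul_eq_mul, C_mul, mul_assoc]

end Homog

section FormJ

variable {L : Type*} [DecidableEq L]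

theorem wm_ex (al' : K) (a : L) (lam : Multiset ℕ) (h : ∀ i ∈ lam, 1 ≤ i) :
    wm al' a (ex a lam) = (zz lam : K) * al' ^ lam.card := by
  induction lam using Multiset.induction_on with
  | empty => simp [ex, wm, zz]
  | cons i lam ih =>
    have h1 : i ≠ 0 := by
      have := h i (Multiset.mem_cons_self i lam)
      omega
    rw [ex_cons, add_comm, wm_add_single al' a _ i h1, ih fun j hj => h j (Multiset.mem_cons_of_mem hj),
      zz_cons, Multiset.card_cons, pow_succ, ex_apply, if_pos rfl]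
    push_cast
    ring

theorem ex_inj (a : L) {l m : Multiset ℕ} (h : ex a l = ex a m) : l = m := by
  ext i
  have h1 := DFunLike.congr_fun h (a, i)
  rw [ex_apply, ex_apply, if_pos rfl, if_pos rfl] at h1
  exact h1

theorem B0_pm (a : L) {n : ℕ} (l m : n.Partition) :
    B0 al a (pm K a l.parts) (pm K a m.parts) = if l = m then zal l else 0 := by
  rw [pm_eq_monomial, pm_eq_monomial, B0_monomial, one_mul, coeff_monomial]
  by_cases h : l = m
  · rw [h, if_pos rfl, if_pos rfl, mul_one, wm_ex al a m.parts (fun i hi => m.parts_pos hi), zal_eq]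
  · rw [if_neg h, if_neg, mul_zero]
    intro h1
    exact h (Nat.Partition.ext (ex_inj a h1).symm)

theorem B0_J (J : Fam) (a : L) {n : ℕ} (th mu : n.Partition) :
    B0 al a (Jp J th a) (Jp J mu a) = ∑ l, J n th l * J n mu l * zal l := by
  rw [Jp_eq, Jp_eq, map_sum]
  refine Finset.sum_congr rfl fun l _ => ?_
  rw [map_sum, LinearMap.sum_apply, Finset.sum_eq_single l]
  · rw [← smul_eq_C_mul, ← smul_eq_C_mul, map_smul, map_smul, LinearMap.smul_apply, B0_pm,
      if_pos rfl, smul_eq_mul, smul_eq_mul]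
    ring
  · intro m _ hm
    rw [← smul_eq_C_mul, ← smul_eq_C_mul, map_smul, map_smul, LinearMap.smul_apply, B0_pm,
      if_neg hm, smul_zero, smul_zero]
  · intro h
    exact absurd (Finset.mem_univ l) h

theorem B0_J_ne {J : Fam} (hJ : Orth J) (a : L) {n : ℕ} {th mu : n.Partition} (h : th ≠ mu) :
    B0 al a (Jp J th a) (Jp J mu a) = 0 := by
  rw [B0_J]
  exact hJ n th mu h

theorem B0_J_self (J : Fam) (a : L) {n : ℕ} (th : n.Partition) :
    B0 al a (Jp J th a) (Jp J th a) = jn J th := B0_J J a th th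

omit [DecidableEq L] in
theorem Jp_mem_PPn (J : Fam) (a : L) {n : ℕ} (th : n.Partition) : Jp J th a ∈ PPn K a n 0 := by
  rw [Jp_eq]
  refine Submodule.sum_mem _ fun l _ => ?_
  rw [← smul_eq_C_mul]
  refine Submodule.smul_mem _ _ (Submodule.subset_span ⟨l.parts, ?_, ?_, rfl⟩)
  · intro i hi
    exact l.parts_pos hi
  · rw [l.parts_sum, add_zero]

/-- The matrix of `hk` in the basis of Jack functions. -/
theorem exists_matrix {J : Fam} (hJ : JOK J) (a : L) (k n : ℕ) :
    ∃ e : n.Partition → n.Partition → K,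
      (∀ th, hk al (al - 1) a k (Jp J th a) = ∑ mu, C (e th mu) * Jp J mu a) ∧
      (∀ th mu, e th mu ≠ 0 → e mu th ≠ 0) := by
  have h1 : ∀ th : n.Partition, ∃ c : n.Partition → K,
      hk al (al - 1) a k (Jp J th a) = ∑ mu, C (c mu) * Jp J mu a := by
    intro th
    obtain ⟨c, hc⟩ := PPn_coef (PPn_hk (al := al) (b := al - 1) (Jp_mem_PPn J a th) k)
    refine ⟨fun mu => ∑ l, c l * (zal l * ((jn J mu)⁻¹ * J n mu l)), ?_⟩
    rw [hc]
    have h2 : ∀ l : n.Partition, C (c l) * pm K a l.parts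
        = ∑ mu : n.Partition, C (c l * (zal l * ((jn J mu)⁻¹ * J n mu l))) * Jp J mu a := by
      intro l
      rw [pm_eq_J hJ a l, Finset.mul_sum]
      refine Finset.sum_congr rfl fun mu _ => ?_
      rw [← mul_assoc, ← C_mul]
    rw [Finset.sum_congr rfl fun l _ => h2 l, Finset.sum_comm]
    refine Finset.sum_congr rfl fun mu _ => ?_
    rw [← Finset.sum_mul, ← map_sum]
  choose e he using h1
  refine ⟨e, he, ?_⟩
  have h3 : ∀ th mu : n.Partition, B0 al a (hk al (al - 1) a k (Jp J th a)) (Jp J mu a)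
      = e th mu * jn J mu := by
    intro th mu
    rw [he, map_sum, LinearMap.sum_apply, Finset.sum_eq_single mu]
    · rw [← smul_eq_C_mul, map_smul, LinearMap.smul_apply, B0_J_self, smul_eq_mul]
    · intro nu _ hnu
      rw [← smul_eq_C_mul, map_smul, LinearMap.smul_apply, B0_J_ne hJ.orth a hnu, smul_zero]
    · intro h
      exact absurd (Finset.mem_univ mu) h
  intro th mu hne h0
  have h4 := h3 th mu
  rw [hk_adj, B0_symm, h3 mu th, h0, zero_mul] at h4
  rcases mul_eq_zero.1 h4.symm with h5 | h5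
  · exact hne h5
  · exact hJ.jn0 n mu h5

end FormJ

end Pool.Agent.JackB
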