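import Pool.Agent.Lib.JackB.Jok35

/-!
Linear independence of the power sum products, antisymmetry of the dominance order.
-/

open MvPolynomial

namespace Pool.Agent.JackB

/-- Antisymmetry of the dominance order. -/
theorem Dom_antisymm {n : ℕ} {mu th : n.Partition} (h1 : Dom mu th) (h2 : Dom th mu) : mu = th := by
  have h3 : ∀ k, topSum mu k = topSum th k := fun k => le_antisymm (h1 k) (h2 k)
  obtain ⟨i, rfl⟩ := (JackTab.pe n).surjective mu
  obtain ⟨j, rfl⟩ := (JackTab.pe n).surjective th
  simp only [JackTab.topSum_pe] at h3
  have h4 : ∀ (l : List ℕ) (k : ℕ), (l.take (k + 1)).sum = (l.take k).sum + l.getD k 0 := by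
    intro l
    induction l with
    | nil => intro k; simp
    | cons a l ih =>
      intro k
      cases k with
      | zero => simp
      | succ k =>
        rw [List.take_succ_cons, List.sum_cons, ih k, List.take_succ_cons, List.sum_cons,
          List.getD_cons_succ, add_assoc]
  have h5 : ∀ k, (JackTab.pt n i).getD k 0 = (JackTab.pt n j).getD k 0 := by
    intro k
    have h6 := h3 (k + 1)
    rw [h4, h4, h3 k] at h6
    exact Nat.add_left_cancel h6
  have hpos : ∀ (i : Fin (JackTab.pn n)) (k : ℕ), k < (JackTab.pt n i).length ↔
      (JackTab.pt n i).getD k 0 ≠ 0 := by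
    intro i k
    constructor
    · intro hk
      rw [List.getD_eq_getElem _ _ hk]
      have := (JackTab.mem_pl.1 (JackTab.pt_mem i.2)).2.1 _ (List.getElem_mem hk)
      omega
    · intro hk
      by_contra h6
      exact hk (List.getD_eq_default _ _ (by omega))
  have hlen : (JackTab.pt n i).length = (JackTab.pt n j).length := by
    apply le_antisymm
    · by_contra h6
      push Not at h6
      have h7 := (hpos i _).1 h6
      rw [h5] at h7
      exact absurd ((hpos j _).2 h7) (lt_irrefl _)
    · by_contra h6
      push Not at h6
      have h7 := (hpos j _).1 h6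
      rw [← h5] at h7
      exact absurd ((hpos i _).2 h7) (lt_irrefl _)
  have h8 : JackTab.pt n i = JackTab.pt n j := by
    apply List.ext_getElem hlen
    intro k hk1 hk2
    have h9 := h5 k
    rw [List.getD_eq_getElem _ _ hk1, List.getD_eq_getElem _ _ hk2] at h9
    exact h9
  apply Nat.Partition.ext
  rw [JackTab.pe_parts, JackTab.pe_parts, h8]

section Coef

variable {σ : Type*} [DecidableEq σ] [Fintype σ]

/-- The multiset of the values of an exponent vector. -/
def vals (d : σ →₀ ℕ) : Multiset ℕ := d.support.val.map d

omit [Fintype σ] in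
theorem vals_single_add (d : σ →₀ ℕ) (i : σ) (k : ℕ) (hk : 0 < k) (hi : d i = 0) :
    vals (Finsupp.single i k + d) = k ::ₘ vals d := by
  have h1 : (Finsupp.single i k + d).support = insert i d.support := by
    ext j
    rw [Finsupp.mem_support_iff, Finset.mem_insert, Finsupp.mem_support_iff, Finsupp.add_apply,
      Finsupp.single_apply]
    by_cases h : i = j
    · subst h
      simp
      omega
    · simp [h, Ne.symm h]
  have hi' : i ∉ d.support := by
    rw [Finsupp.mem_support_iff]
    simpa using hi
  rw [vals, h1, Finset.insert_val_of_notMem hi', Multiset.map_cons, Finsupp.add_apply, hi,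
    Finsupp.single_eq_same, add_zero, vals]
  congr 1
  apply Multiset.map_congr rfl
  intro j hj
  have hij : i ≠ j := by
    rintro rfl
    exact hi' hj
  rw [Finsupp.add_apply, Finsupp.single_apply, if_neg hij, zero_add]

/-- Support of a product of power sums. -/
theorem supp_prod (s : Multiset ℕ) : ∀ d : σ →₀ ℕ, coeff d ((s.map (psum σ K)).prod) ≠ 0 →
    (∀ k ∈ s, 0 < k) → d.support.card ≤ s.card ∧ (d.support.card = s.card → vals d = s) := by
  induction s using Multiset.induction_on with
  | empty =>
    intro d hd _
    rw [Multiset.map_zero, Multiset.prod_zero, coeff_one] at hd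
    have h0 : 0 = d := by
      by_contra h
      rw [if_neg h] at hd
      exact hd rfl
    subst h0
    simp [vals]
  | cons k s ih =>
    intro d hd hs
    rw [Multiset.map_cons, Multiset.prod_cons, coeff_psum_mul] at hd
    obtain ⟨i, _, hi⟩ := Finset.exists_ne_zero_of_sum_ne_zero hd
    have hki : k ≤ d i := by
      by_contra h
      rw [if_neg h] at hi
      exact hi rfl
    rw [if_pos hki] at hi
    have hk : 0 < k := hs k (Multiset.mem_cons_self k s)
    obtain ⟨h1, h2⟩ := ih _ hi (fun j hj => hs j (Multiset.mem_cons_of_mem hj))
    have hd' : d = Finsupp.single i k + (d - Finsupp.single i k) := by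
      rw [add_tsub_cancel_of_le]
      rwa [Finsupp.single_le_iff]
    set d' := d - Finsupp.single i k with hdd
    rw [Multiset.card_cons]
    by_cases h3 : d' i = 0
    · have h4 := vals_single_add d' i k hk h3
      rw [← hd'] at h4
      have h5 : d.support.card = d'.support.card + 1 := by
        have h6 := congrArg Multiset.card h4
        rw [vals, Multiset.card_map, Multiset.card_cons, vals, Multiset.card_map] at h6
        exact h6
      rw [h5]
      refine ⟨by omega, fun h6 => ?_⟩
      rw [h4, h2 (by omega)]
    · have h4 : d.support = d'.support := by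
        ext j
        rw [Finsupp.mem_support_iff, Finsupp.mem_support_iff, hd', Finsupp.add_apply,
          Finsupp.single_apply]
        by_cases h : i = j
        · subst h
          simp [h3]
        · simp [h]
      rw [h4]
      refine ⟨by omega, fun h6 => by omega⟩

/-- The coefficients of a product of power sums are natural numbers. -/
theorem nat_coeff (s : Multiset ℕ) : ∀ d : σ →₀ ℕ, ∃ c : ℕ,
    coeff d ((s.map (psum σ K)).prod) = c ∧ (vals d = s → 0 < c) := by
  induction s using Multiset.induction_on with
  | empty =>
    intro d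
    rw [Multiset.map_zero, Multiset.prod_zero, coeff_one]
    by_cases h : 0 = d
    · exact ⟨1, by rw [if_pos h, Nat.cast_one], fun _ => Nat.one_pos⟩
    · refine ⟨0, by rw [if_neg h, Nat.cast_zero], fun h1 => ?_⟩
      exfalso
      apply h
      rw [vals, Multiset.map_eq_zero, Finset.val_eq_zero, Finsupp.support_eq_empty] at h1
      exact h1.symm
  | cons k s ih =>
    intro d
    choose c hc using ih
    refine ⟨∑ i : σ, if k ≤ d i then c (d - Finsupp.single i k) else 0, ?_, fun h1 => ?_⟩
    · rw [Multiset.map_cons, Multiset.prod_cons, coeff_psum_mul]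
      push_cast
      refine Finset.sum_congr rfl fun i _ => ?_
      split_ifs with h
      · rw [(hc _).1]
      · rfl
    · have hk : k ∈ vals d := by rw [h1]; exact Multiset.mem_cons_self k s
      rw [vals, Multiset.mem_map] at hk
      obtain ⟨i, hi, hik⟩ := hk
      have hk0 : 0 < k := by
        rw [← hik]
        exact Nat.pos_of_ne_zero (Finsupp.mem_support_iff.1 hi)
      have hd' : d = Finsupp.single i k + (d - Finsupp.single i k) := by
        rw [add_tsub_cancel_of_le]
        rw [Finsupp.single_le_iff]
        exact hik.ge
      have h3 : (d - Finsupp.single i k) i = 0 := by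
        rw [Finsupp.tsub_apply, Finsupp.single_eq_same, hik, Nat.sub_self]
      have h4 := vals_single_add _ i k hk0 h3
      rw [← hd', h1] at h4
      have h5 := (hc (d - Finsupp.single i k)).2 ((Multiset.cons_inj_right k).1 h4).symm
      refine lt_of_lt_of_le h5 ?_
      have h6 := Finset.single_le_sum
        (f := fun i => if k ≤ d i then c (d - Finsupp.single i k) else 0)
        (fun _ _ => Nat.zero_le _) (Finset.mem_univ i)
      rw [if_pos hik.ge] at h6
      exact h6

end Coef

theorem vals_dvec {n : ℕ} (j : Fin (JackTab.pn n)) :
    vals (JackTab.dvec n (JackTab.pt n j)) = (JackTab.pe n j).parts := by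
  classical
  set d := JackTab.dvec n (JackTab.pt n j) with hd
  rw [JackTab.pe_parts]
  have h2 : vals d = ((Finset.univ : Finset (Fin n)).val.map d).filter (fun x => x ≠ 0) := by
    rw [Multiset.filter_map, vals]
    have h3 : d.support = Finset.univ.filter (fun i => d i ≠ 0) := by
      ext i
      simp
    rw [h3, Finset.filter_val]
    rfl
  rw [h2]
  have h4 : ((Finset.univ : Finset (Fin n)).val.map d) = (List.ofFn d : Multiset ℕ) := by
    rw [List.ofFn_eq_map, ← Multiset.map_coe]
    rfl
  rw [h4, hd, JackTab.ofFn_dvec (JackTab.pt_length_le j.2), Multiset.filter_coe, List.filter_append,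
    List.filter_eq_self.2, List.filter_eq_nil_iff.2, List.append_nil]
  · intro x hx
    simp [(List.mem_replicate.1 hx).2]
  · intro x hx
    have := (JackTab.mem_pl.1 (JackTab.pt_mem j.2)).2.1 x hx
    simp
    omega

/-- The products of power sums of degree `n` are linearly independent in `n` variables. -/
theorem psum_inj (n : ℕ) (c : n.Partition → K)
    (h : (∑ l, C (c l) * psumPart (Fin n) K l) = 0) (l : n.Partition) : c l = 0 := by
  classical
  by_contra hl
  let S : Finset n.Partition := Finset.univ.filter fun l => c l ≠ 0
  have hS : S.Nonempty := ⟨l, by simp [S, hl]⟩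
  obtain ⟨m, hm, hmax⟩ := S.exists_max_image (fun l => l.parts.card) hS
  have hcm : c m ≠ 0 := by simpa [S] using hm
  obtain ⟨j, rfl⟩ := (JackTab.pe n).surjective m
  have h1 := congrArg (coeff (JackTab.dvec n (JackTab.pt n j))) h
  rw [coeff_sum, coeff_zero, Finset.sum_eq_single (JackTab.pe n j)] at h1
  · rw [coeff_C_mul] at h1
    obtain ⟨x, hx, hx0⟩ := nat_coeff (σ := Fin n) (JackTab.pe n j).parts
      (JackTab.dvec n (JackTab.pt n j))
    rw [psumPart, hx] at h1
    rcases mul_eq_zero.1 h1 with h2 | h2
    · exact hcm h2
    · have := hx0 (vals_dvec j)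
      rw [Nat.cast_eq_zero] at h2
      omega
  · intro b _ hb
    rw [coeff_C_mul]
    by_contra h2
    have hcb : c b ≠ 0 := left_ne_zero_of_mul h2
    have hcoef := right_ne_zero_of_mul h2
    rw [psumPart] at hcoef
    obtain ⟨h3, h4⟩ := supp_prod b.parts _ hcoef (fun k hk => b.parts_pos hk)
    have h5 : (JackTab.dvec n (JackTab.pt n j)).support.card = (JackTab.pe n j).parts.card := by
      rw [← vals_dvec, vals, Multiset.card_map]
      rfl
    have h6 := hmax b (by simp [S, hcb])
    have h7 := h4 (by rw [h5] at h3 ⊢; exact le_antisymm h3 h6)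
    rw [vals_dvec] at h7
    exact hb (Nat.Partition.ext h7.symm)
  · intro h2
    exact absurd (Finset.mem_univ _) h2

end Pool.Agent.JackB
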