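import Pool.Agent.Lib.JackB.Eig32a
import Pool.Agent.Lib.JackB.Eig32b
import Pool.Agent.Lib.JackB.Ind35

/-!
The Jack functions are eigenvectors of the operators `hk` (problem MP_b52a9f_co).
-/

open MvPolynomial

namespace Pool.Agent.JackB

section Tops

theorem list_take_ge (l : List ℕ) : l.Pairwise (fun a b => b ≤ a) → ∀ (k : ℕ) (t : Multiset ℕ),
    t ≤ (l : Multiset ℕ) → t.card ≤ k → t.sum ≤ (l.take k).sum := by
  induction l with
  | nil =>
    intro _ k t ht _
    have h1 : t = 0 := by
      have h2 : ((([] : List ℕ)) : Multiset ℕ) = 0 := rfl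
      rw [h2, Multiset.le_zero] at ht
      exact ht
    rw [h1]
    simp
  | cons x l ih =>
    intro hl k t ht hk
    rw [List.pairwise_cons] at hl
    have h0 : ((x :: l : List ℕ) : Multiset ℕ) = x ::ₘ (l : Multiset ℕ) := rfl
    rw [h0] at ht
    cases k with
    | zero =>
      have h1 : t = 0 := Multiset.card_eq_zero.1 (Nat.le_zero.1 hk)
      rw [h1]
      simp
    | succ k =>
      rw [List.take_succ_cons, List.sum_cons]
      by_cases hx : x ∈ t
      · have h1 := Multiset.cons_erase hx
        have h2 : t.erase x ≤ (l : Multiset ℕ) := by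
          rw [← h1] at ht
          exact (Multiset.cons_le_cons_iff x).1 ht
        have h3 : (t.erase x).card ≤ k := by
          have := Multiset.card_erase_lt_of_mem hx
          omega
        have h4 := ih hl.2 k _ h2 h3
        rw [← h1, Multiset.sum_cons]
        omega
      · have h2 : t ≤ (l : Multiset ℕ) := (Multiset.le_cons_of_notMem hx).1 ht
        rcases Multiset.empty_or_exists_mem t with h3 | ⟨y, hy⟩
        · rw [h3]
          simp
        · have h1 := Multiset.cons_erase hy
          have h4 : t.erase y ≤ (l : Multiset ℕ) := (Multiset.erase_le y t).trans h2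
          have h5 : (t.erase y).card ≤ k := by
            have := Multiset.card_erase_lt_of_mem hy
            omega
          have h6 := ih hl.2 k _ h4 h5
          have h7 : y ≤ x := hl.1 y (Multiset.mem_coe.1 (Multiset.mem_of_le h2 hy))
          rw [← h1, Multiset.sum_cons]
          omega

theorem topSum_ge {n : ℕ} (m : n.Partition) {k : ℕ} {t : Multiset ℕ} (ht : t ≤ m.parts)
    (hk : t.card ≤ k) : t.sum ≤ topSum m k := by
  refine list_take_ge _ (Multiset.pairwise_sort _ _) k t ?_ hk
  rw [Multiset.sort_eq]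
  exact ht

theorem topSum_of_le {n : ℕ} (m : n.Partition) {k : ℕ} (hk : n ≤ k) : topSum m k = n := by
  have h1 : m.parts.card ≤ n := by
    have h2 := Multiset.card_nsmul_le_sum (s := m.parts) (a := 1) fun x hx => m.parts_pos hx
    rw [smul_eq_mul, mul_one, m.parts_sum] at h2
    exact h2
  have h3 : (m.parts.sort (fun a b => b ≤ a)).length ≤ k := by
    rw [Multiset.length_sort]
    omega
  rw [topSum, List.take_of_length_le h3, ← Multiset.sum_coe, Multiset.sort_eq, m.parts_sum]

theorem topSum_mono {n : ℕ} (m : n.Partition) {k l : ℕ} (hkl : k ≤ l) :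
    topSum m k ≤ topSum m l := by
  refine topSum_ge m (t := (((m.parts.sort (fun a b => b ≤ a)).take k : List ℕ) : Multiset ℕ)) ?_ ?_
  · have h1 : ((m.parts.sort (fun a b => b ≤ a) : List ℕ) : Multiset ℕ) = m.parts :=
      Multiset.sort_eq _ _
    conv_rhs => rw [← h1]
    exact Multiset.coe_le.2 (List.take_sublist k _).subperm
  · rw [Multiset.coe_card, List.length_take]
    omega

end Tops

section Sup

variable {F : Type*} [Field F]

theorem Wm_mono {σ : Type*} {T T' : ℕ → ℕ} (h : ∀ k, T k ≤ T' k) : Wm F σ T ≤ Wm F σ T' := by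
  intro f hf d hd S
  exact (hf d hd S).trans (h _)

theorem msymm_mem {n : ℕ} (m : n.Partition) : msymm (Fin n) F m ∈ Wm F (Fin n) (topSum m) := by
  rw [msymm]
  refine Submodule.sum_mem _ fun s _ => ?_
  have h1 : (s.1.1.map (X : Fin n → MvPolynomial (Fin n) F)).prod
      = monomial (Multiset.toFinsupp s.1.1) 1 := JackTab.prod_X_eq _
  rw [h1]
  refine monomial_mem_Wm ?_ 1
  intro S
  have h2 : m.parts = s.1.1.dedup.map s.1.1.count :=
    (congrArg Nat.Partition.parts s.2).symm
  have h3 : ∑ k ∈ S, (Multiset.toFinsupp s.1.1) k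
      = (((S.filter fun k => k ∈ s.1.1).val.map s.1.1.count : Multiset ℕ)).sum := by
    rw [← Finset.sum_filter_add_sum_filter_not S (fun k => k ∈ s.1.1)]
    have h4 : ∑ x ∈ S.filter (fun k => ¬ k ∈ s.1.1), (Multiset.toFinsupp s.1.1) x = 0 := by
      refine Finset.sum_eq_zero fun x hx => ?_
      rw [Multiset.toFinsupp_apply, Multiset.count_eq_zero]
      exact (Finset.mem_filter.1 hx).2
    rw [h4, add_zero]
    rfl
  rw [h3]
  refine topSum_ge m ?_ ?_
  · rw [h2]
    refine Multiset.map_le_map ?_
    rw [Multiset.le_iff_subset (Finset.nodup _)]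
    intro x hx
    rw [Multiset.mem_dedup]
    exact (Finset.mem_filter.1 (Finset.mem_def.2 hx)).2
  · rw [Multiset.card_map]
    exact Finset.card_filter_le _ _

theorem topSum_pe (n : ℕ) (i : Fin (JackTab.pn n)) (k : ℕ) :
    topSum (JackTab.pe n i) k = ((JackTab.pt n i).take k).sum := by
  rw [topSum]
  congr 2
  rw [JackTab.pe_parts]
  have h1 := (JackTab.mem_pl.1 (JackTab.pt_mem i.2)).1
  have h2 : ((JackTab.pt n i : Multiset ℕ).sort (fun a b => b ≤ a)).Perm (JackTab.pt n i) := by
    rw [← Multiset.coe_eq_coe, Multiset.sort_eq]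
  exact h2.eq_of_pairwise (fun a b _ _ hab hba => le_antisymm hba hab)
    (Multiset.pairwise_sort _ _) h1

theorem take_sum_eq (l : List ℕ) : ∀ k : ℕ,
    (l.take k).sum = ∑ i ∈ Finset.range k, l.getD i 0 := by
  induction l with
  | nil =>
    intro k
    simp
  | cons x l ih =>
    intro k
    cases k with
    | zero => simp
    | succ k =>
      rw [List.take_succ_cons, List.sum_cons, ih, Finset.sum_range_succ', add_comm]
      simp

theorem dom_of_mem {n : ℕ} {T : n.Partition} {c : n.Partition → F}
    (h : ∑ m, C (c m) * msymm (Fin n) F m ∈ Wm F (Fin n) (topSum T)) {m : n.Partition}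
    (hm : c m ≠ 0) : Dom m T := by
  obtain ⟨j, rfl⟩ := (JackTab.pe n).surjective m
  have h1 : coeff (JackTab.dvec n (JackTab.pt n j)) (∑ m, C (c m) * msymm (Fin n) F m)
      = c (JackTab.pe n j) := by
    rw [coeff_sum, Finset.sum_eq_single (JackTab.pe n j)]
    · rw [coeff_C_mul, JackTab.coeff_msymm, if_pos rfl, mul_one]
    · intro b _ hb
      rw [coeff_C_mul, JackTab.coeff_msymm, if_neg hb, mul_zero]
    · intro h
      exact absurd (Finset.mem_univ _) h
  have h2 := h (JackTab.dvec n (JackTab.pt n j)) (by rw [h1]; exact hm)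
  intro k
  by_cases hk : k ≤ n
  · have h3 := h2 ((Finset.univ : Finset (Fin k)).map (Fin.castLEEmb hk))
    rw [Finset.card_map, Finset.card_univ, Fintype.card_fin, Finset.sum_map] at h3
    refine le_trans (le_of_eq ?_) h3
    rw [topSum_pe, take_sum_eq, ← Fin.sum_univ_eq_sum_range]
    rfl
  · rw [topSum_of_le _ (by omega), topSum_of_le _ (by omega)]

end Sup

section Mat

theorem tri_inv {ι : Type*} [Fintype ι] [DecidableEq ι] {A : Matrix ι ι K} (hdet : A.det ≠ 0)
    (D : ι → Prop) (hA : ∀ mu, D mu → ∀ nu, ¬ D nu → A mu nu = 0) {e : ι → K}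
    (he : ∀ nu, ¬ D nu → ∑ mu, e mu * A mu nu = 0) : ∀ mu, ¬ D mu → e mu = 0 := by
  classical
  have h1 := Matrix.twoBlockTriangular_det' A D hA
  rw [h1] at hdet
  have h2 : (Matrix.toSquareBlockProp A fun i => ¬ D i).det ≠ 0 := right_ne_zero_of_mul hdet
  have h3 : Matrix.vecMul (fun i : {i // ¬ D i} => e i) (Matrix.toSquareBlockProp A fun i => ¬ D i)
      = 0 := by
    funext nu
    rw [Pi.zero_apply, ← he nu.1 nu.2]
    have h5 : ∑ mu : ι, e mu * A mu nu.1 = ∑ mu ∈ Finset.univ.filter (fun i => ¬ D i),
        e mu * A mu nu.1 := by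
      symm
      refine Finset.sum_subset (Finset.filter_subset _ _) ?_
      intro mu _ hmu
      have h6 : D mu := by
        by_contra h7
        exact hmu (Finset.mem_filter.2 ⟨Finset.mem_univ _, h7⟩)
      rw [hA mu h6 nu.1 nu.2, mul_zero]
    rw [h5, Finset.sum_subtype (p := fun i => ¬ D i) (Finset.univ.filter fun i => ¬ D i)
      (fun x => by rw [Finset.mem_filter]; exact ⟨fun h => h.2, fun h => ⟨Finset.mem_univ _, h⟩⟩)
      (fun mu => e mu * A mu nu.1)]
    rfl
  have h4 := Matrix.eq_zero_of_vecMul_eq_zero h2 h3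
  intro mu hmu
  exact congrFun h4 ⟨mu, hmu⟩

end Mat

section Main

variable {L : Type*} [DecidableEq L]

theorem ev0_pm {n : ℕ} (a : L) (lam : Multiset ℕ) :
    ev0 (Fin n) a (pm K a lam) = (lam.map (psum (Fin n) K)).prod := by
  induction lam using Multiset.induction_on with
  | empty => simp
  | cons i lam ih => rw [pm_cons, map_mul, ih, ev0_X, Multiset.map_cons, Multiset.prod_cons]

theorem ev0_C {n : ℕ} (a : L) (c : K) : ev0 (Fin n) a (C c : AA K L) = C c :=
  (ev0 (Fin n) a : AA K L →ₐ[K] MvPolynomial (Fin n) K).commutes c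

theorem ev0_Jp (J : Fam) (a : L) {n : ℕ} (th : n.Partition) :
    ev0 (Fin n) a (Jp J th a) = ∑ l, C (J n th l) * psumPart (Fin n) K l := by
  rw [Jp_eq, map_sum]
  refine Finset.sum_congr rfl fun l _ => ?_
  rw [map_mul, ev0_C, ev0_pm]
  rfl

/-- The Jack functions are eigenvectors of the `hk`. -/
theorem eig_of {J : Fam} (hI : IsJack J) (hJ : JOK J) (a : L)
    (hps : ∀ (n : ℕ) (c : n.Partition → K), ∑ l, C (c l) * psumPart (Fin n) K l = 0 → ∀ l, c l = 0)
    (hDom : ∀ (n : ℕ) (mu th : n.Partition), Dom mu th → Dom th mu → mu = th) : Eig J a := by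
  classical
  intro k n th
  obtain ⟨e, he, hsym⟩ := exists_matrix hJ a k n
  choose A hA using hI.tri n
  -- the matrix is invertible
  have hdet : (Matrix.of A).det ≠ 0 := by
    intro h0
    obtain ⟨v, hv0, hv⟩ := Matrix.exists_vecMul_eq_zero_iff.2 h0
    have h1 : ∀ l, ∑ mu, v mu * J n mu l = 0 := by
      refine hps n _ ?_
      have h2 : ∑ l, C (∑ mu, v mu * J n mu l) * psumPart (Fin n) K l
          = ∑ mu, C (v mu) * ∑ l, C (J n mu l) * psumPart (Fin n) K l := by
        simp only [map_sum, Finset.sum_mul, Finset.mul_sum]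
        rw [Finset.sum_comm]
        refine Finset.sum_congr rfl fun mu _ => Finset.sum_congr rfl fun l _ => ?_
        rw [C_mul]
        ring
      have h3 : ∑ mu, C (v mu) * ∑ m, C (A mu m) * msymm (Fin n) K m
          = ∑ m, C (∑ mu, v mu * A mu m) * msymm (Fin n) K m := by
        simp only [map_sum, Finset.sum_mul, Finset.mul_sum]
        rw [Finset.sum_comm]
        refine Finset.sum_congr rfl fun mu _ => Finset.sum_congr rfl fun l _ => ?_
        rw [C_mul]
        ring
      rw [h2, Finset.sum_congr rfl fun mu _ => by rw [(hA mu).1], h3]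
      refine Finset.sum_eq_zero fun m _ => ?_
      have h4 : ∑ mu, v mu * A mu m = 0 := congrFun hv m
      rw [h4, C_0, zero_mul]
    apply hv0
    funext nu
    have h5 : ∑ mu, v mu * ∑ l, J n mu l * J n nu l * zal l = 0 := by
      have h6 : ∑ mu, v mu * ∑ l, J n mu l * J n nu l * zal l
          = ∑ l, (∑ mu, v mu * J n mu l) * (J n nu l * zal l) := by
        simp only [Finset.sum_mul, Finset.mul_sum]
        rw [Finset.sum_comm]
        refine Finset.sum_congr rfl fun mu _ => Finset.sum_congr rfl fun l _ => ?_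
        ring
      rw [h6]
      exact Finset.sum_eq_zero fun l _ => by rw [h1, zero_mul]
    rw [Finset.sum_eq_single nu] at h5
    · rcases mul_eq_zero.1 h5 with h7 | h7
      · exact h7
      · exact absurd h7 (hJ.jn0 n nu)
    · intro mu _ hmu
      rw [hJ.orth n mu nu hmu, mul_zero]
    · intro h
      exact absurd (Finset.mem_univ nu) h
  -- triangularity of the matrix `e`
  have hdom : ∀ th mu : n.Partition, e th mu ≠ 0 → Dom mu th := by
    intro th mu hne
    by_contra hD
    refine hne (tri_inv hdet (fun nu => Dom nu th) ?_ (e := e th) ?_ mu hD)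
    · intro nu h1 ka h2
      by_contra h3
      exact h2 fun j => ((hA nu).2.1 ka h3 j).trans (h1 j)
    · intro nu h1
      by_contra h2
      cases n with
      | zero =>
        apply h1
        intro j
        rw [topSum_of_le _ (Nat.zero_le _), topSum_of_le _ (Nat.zero_le _)]
      | succ n =>
        refine h1 (dom_of_mem (F := K) (c := fun m => ∑ mu, e th mu * A mu m) ?_ h2)
        have h3 : ev0 (Fin (n + 1)) a (Jp J th a) ∈ Wm K (Fin (n + 1)) (topSum th) := by
          rw [ev0_Jp, (hA th).1]
          refine Submodule.sum_mem _ fun m _ => ?_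
          by_cases h4 : A th m = 0
          · rw [h4, C_0, zero_mul]
            exact Submodule.zero_mem _
          · rw [← smul_eq_C_mul]
            exact Submodule.smul_mem _ _ (Wm_mono ((hA th).2.1 m h4) (msymm_mem m))
        have h5 := Wm_hk al a (0 : Fin (n + 1)) h3 k
        rw [he, map_sum] at h5
        have h6 : ∀ mu : (n + 1).Partition, ev0 (Fin (n + 1)) a (C (e th mu) * Jp J mu a)
            = ∑ m, C (e th mu * A mu m) * msymm (Fin (n + 1)) K m := by
          intro mu
          rw [map_mul, ev0_C, ev0_Jp, (hA mu).1, Finset.mul_sum]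
          refine Finset.sum_congr rfl fun m _ => ?_
          rw [C_mul, mul_assoc]
        rw [Finset.sum_congr rfl fun mu _ => h6 mu, Finset.sum_comm] at h5
        have h7 : ∑ m, C (∑ mu, e th mu * A mu m) * msymm (Fin (n + 1)) K m
            = ∑ m, ∑ mu, C (e th mu * A mu m) * msymm (Fin (n + 1)) K m := by
          refine Finset.sum_congr rfl fun m _ => ?_
          rw [map_sum, Finset.sum_mul]
        rw [h7]
        exact h5
  refine ⟨e th th, ?_⟩
  rw [he, Finset.sum_eq_single th]
  · intro mu _ hmu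
    by_cases h : e th mu = 0
    · rw [h, C_0, zero_mul]
    · exact absurd (hDom n mu th (hdom th mu h) (hdom mu th (hsym th mu h))) hmu
  · intro h
    exact absurd (Finset.mem_univ th) h

theorem IsJack.eigL {J : Fam} (hJ : IsJack J) (a : L) : Eig J a :=
  eig_of hJ hJ.jok a psum_inj fun _ _ _ h1 h2 => Dom_antisymm h1 h2

theorem IsJack.eig {J : Fam} (hJ : IsJack J) : Eig J (0 : Fin 3) := hJ.eigL 0

end Main

end Pool.Agent.JackB
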