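import Pool.Agent.Lib.JackB.Lax

/-!
Power sums in finitely many variables and the Lax operator: the operator becomes a sum of
divided differences, which preserves the polynomials with exponents below a given bound
(problem MP_b52a9f_co).
-/

open MvPolynomial

namespace Pool.Agent.JackB

section Exps

variable {σ : Type*} [DecidableEq σ]

/-- The exponents with all sums over subsets bounded by `T` of the number of summands. -/
def ExpB (σ : Type*) (T : ℕ → ℕ) : Set (σ →₀ ℕ) := {d | ∀ S : Finset σ, ∑ k ∈ S, d k ≤ T S.card}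

theorem sum_two (e : σ →₀ ℕ) (i j : σ) (p q : ℕ) (S : Finset σ) :
    ∑ k ∈ S, (e + Finsupp.single i p + Finsupp.single j q) k
      = ∑ k ∈ S, e k + (if i ∈ S then p else 0) + (if j ∈ S then q else 0) := by
  simp only [Finsupp.add_apply, Finset.sum_add_distrib, Finsupp.single_apply, Finset.sum_ite_eq]

theorem ExpB_mid {T : ℕ → ℕ} {e : σ →₀ ℕ} {i j : σ} (hij : i ≠ j) {a b p q : ℕ}
    (h : e + Finsupp.single i a + Finsupp.single j b ∈ ExpB σ T) (hp : p ≤ max a b)
    (hq : q ≤ max a b) (hpq : p + q = a + b) (hi : e i = 0) (hj : e j = 0) :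
    e + Finsupp.single i p + Finsupp.single j q ∈ ExpB σ T := by
  intro S
  rw [sum_two]
  have h1 := h S
  rw [sum_two] at h1
  by_cases h2 : i ∈ S
  · by_cases h3 : j ∈ S
    · rw [if_pos h2, if_pos h3] at h1 ⊢
      omega
    · rw [if_pos h2, if_neg h3] at h1 ⊢
      have h4 := h (insert j (S.erase i))
      have h5 : j ∉ S.erase i := fun h => h3 (Finset.mem_of_mem_erase h)
      have h6 : i ∉ insert j (S.erase i) := by
        rw [Finset.mem_insert, Finset.mem_erase]
        rintro (h | h)
        · exact hij h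
        · exact h.1 rfl
      rw [sum_two, if_neg h6, if_pos (Finset.mem_insert_self _ _), Finset.sum_insert h5, hj,
        Finset.card_insert_of_notMem h5, Finset.card_erase_add_one h2] at h4
      have h8 := Finset.add_sum_erase S (fun k => e k) h2
      simp only [hi] at h8
      rcases le_max_iff.1 hp with h9 | h9
      · omega
      · omega
  · by_cases h3 : j ∈ S
    · rw [if_neg h2, if_pos h3] at h1 ⊢
      have h4 := h (insert i (S.erase j))
      have h5 : i ∉ S.erase j := fun h => h2 (Finset.mem_of_mem_erase h)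
      have h6 : j ∉ insert i (S.erase j) := by
        rw [Finset.mem_insert, Finset.mem_erase]
        rintro (h | h)
        · exact hij h.symm
        · exact h.1 rfl
      rw [sum_two, if_neg h6, if_pos (Finset.mem_insert_self _ _), Finset.sum_insert h5, hi,
        Finset.card_insert_of_notMem h5, Finset.card_erase_add_one h3] at h4
      have h8 := Finset.add_sum_erase S (fun k => e k) h3
      simp only [hj] at h8
      rcases le_max_iff.1 hq with h9 | h9
      · omega
      · omega
    · rw [if_neg h2, if_neg h3] at h1 ⊢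
      exact h1

omit [DecidableEq σ] in
theorem ExpB_perm {T : ℕ → ℕ} {d : σ →₀ ℕ} (h : d ∈ ExpB σ T) (s : Equiv.Perm σ) :
    d.mapDomain s ∈ ExpB σ T := by
  intro S
  have h1 := h (S.map s.symm.toEmbedding)
  rw [Finset.card_map, Finset.sum_map] at h1
  refine le_trans (le_of_eq (Finset.sum_congr rfl fun k _ => ?_)) h1
  have h2 : k = s (s.symm k) := (s.apply_symm_apply k).symm
  conv_lhs => rw [h2]
  rw [Finsupp.mapDomain_apply s.injective]
  rfl

end Exps

section Wmod

variable {F : Type*} [Field F] {σ : Type*} [DecidableEq σ]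

/-- The polynomials with exponents in `ExpB T`. -/
def Wm (F : Type*) [Field F] (σ : Type*) (T : ℕ → ℕ) : Submodule F (MvPolynomial σ F) where
  carrier := {f | ∀ d, coeff d f ≠ 0 → d ∈ ExpB σ T}
  add_mem' := by
    intro f g hf hg d hd
    rw [coeff_add] at hd
    by_cases h : coeff d f = 0
    · rw [h, zero_add] at hd
      exact hg d hd
    · exact hf d h
  zero_mem' := by
    intro d hd
    exact absurd (coeff_zero d) hd
  smul_mem' := by
    intro c f hf d hd
    rw [coeff_smul, smul_eq_mul] at hd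
    exact hf d (right_ne_zero_of_mul hd)

omit [DecidableEq σ] in
theorem mem_Wm {T : ℕ → ℕ} {f : MvPolynomial σ F} :
    f ∈ Wm F σ T ↔ ∀ d, coeff d f ≠ 0 → d ∈ ExpB σ T := Iff.rfl

omit [DecidableEq σ] in
theorem monomial_mem_Wm {T : ℕ → ℕ} {d : σ →₀ ℕ} (h : d ∈ ExpB σ T) (c : F) :
    monomial d c ∈ Wm F σ T := by
  classical
  intro e he
  rw [coeff_monomial] at he
  split_ifs at he with h1
  · rw [← h1]
    exact h
  · exact absurd rfl he

omit [DecidableEq σ] in
theorem Wm_ind {T : ℕ → ℕ} {P : MvPolynomial σ F → Prop} (h0 : P 0)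
    (hadd : ∀ f g, P f → P g → P (f + g)) (hm : ∀ d ∈ ExpB σ T, ∀ c, P (monomial d c))
    {f : MvPolynomial σ F} (hf : f ∈ Wm F σ T) : P f := by
  classical
  rw [← support_sum_monomial_coeff f]
  refine Finset.sum_induction _ P hadd h0 fun d hd => ?_
  exact hm d (hf d (mem_support_iff.1 hd)) _

omit [DecidableEq σ] in
theorem Wm_map {T : ℕ → ℕ} {f : MvPolynomial σ F}
    (hf : f ∈ Wm F σ T) (E : MvPolynomial σ F →ₗ[F] MvPolynomial σ F)
    (h : ∀ d ∈ ExpB σ T, ∀ c, E (monomial d c) ∈ Wm F σ T) : E f ∈ Wm F σ T := by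
  refine Wm_ind (P := fun f => E f ∈ Wm F σ T) ?_ ?_ h hf
  · rw [map_zero]
    exact Submodule.zero_mem _
  · intro f g hf hg
    rw [map_add]
    exact Submodule.add_mem _ hf hg

omit [DecidableEq σ] in
theorem Wm_euler {T : ℕ → ℕ} {f : MvPolynomial σ F} (hf : f ∈ Wm F σ T) (i : σ) :
    X i * pderiv i f ∈ Wm F σ T := by
  refine Wm_map hf ((LinearMap.mulLeft F (X i)).comp (pderiv i).toLinearMap) ?_
  intro d hd c
  show X i * pderiv i (monomial d c) ∈ Wm F σ T
  rw [X_mul_pderiv_monomial]
  exact Submodule.smul_of_tower_mem _ _ (monomial_mem_Wm hd c)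

omit [DecidableEq σ] in
theorem Wm_rename {T : ℕ → ℕ} {f : MvPolynomial σ F} (hf : f ∈ Wm F σ T) (s : Equiv.Perm σ) :
    rename s f ∈ Wm F σ T := by
  refine Wm_map hf (rename s).toLinearMap ?_
  intro d hd c
  show rename s (monomial d c) ∈ Wm F σ T
  rw [rename_monomial]
  exact monomial_mem_Wm (ExpB_perm hd s) c

theorem dd_aux {R : Type*} [CommRing R] (x y e : R) {a b : ℕ} (hab : b ≤ a) :
    (x - y) * ∑ l ∈ Finset.range (a - b), e * x ^ (a - l) * y ^ (b + l)
      = x * (e * x ^ a * y ^ b - e * y ^ a * x ^ b) := by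
  obtain ⟨m, rfl⟩ := Nat.exists_eq_add_of_le hab
  have h0 : b + m - b = m := by omega
  rw [h0]
  have h1 := (Commute.all y x).geom_sum₂_mul m
  have h2 : ∀ l ∈ Finset.range m, e * x ^ (b + m - l) * y ^ (b + l)
      = (e * x ^ (b + 1) * y ^ b) * (y ^ l * x ^ (m - 1 - l)) := by
    intro l hl
    rw [Finset.mem_range] at hl
    have h3 : b + m - l = b + 1 + (m - 1 - l) := by omega
    rw [h3, pow_add, pow_add y]
    ring
  rw [Finset.sum_congr rfl h2, ← Finset.mul_sum]
  have h4 : (x - y) * (e * x ^ (b + 1) * y ^ b * ∑ i ∈ Finset.range m, y ^ i * x ^ (m - 1 - i))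
      = -(e * x ^ (b + 1) * y ^ b) * ((∑ i ∈ Finset.range m, y ^ i * x ^ (m - 1 - i)) * (y - x)) := by
    ring
  rw [h4, h1, pow_add, pow_add, pow_succ]
  ring

omit [DecidableEq σ] in
/-- Splitting off two variables. -/
theorem monomial_two {e : σ →₀ ℕ} (i j : σ) (a b : ℕ) (c : F) :
    monomial (e + Finsupp.single i a + Finsupp.single j b) c
      = monomial e c * X i ^ a * X j ^ b := by
  rw [X_pow_eq_monomial, X_pow_eq_monomial, monomial_mul, monomial_mul, mul_one, mul_one]

theorem exists_dd {T : ℕ → ℕ} {f : MvPolynomial σ F} (hf : f ∈ Wm F σ T) {i j : σ} (hij : i ≠ j) :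
    ∃ g ∈ Wm F σ T, (X i - X j) * g = X i * (f - rename (Equiv.swap i j) f) := by
  refine Wm_ind (P := fun f => ∃ g ∈ Wm F σ T,
    (X i - X j) * g = X i * (f - rename (Equiv.swap i j) f)) ?_ ?_ ?_ hf
  · exact ⟨0, Submodule.zero_mem _, by rw [map_zero, sub_zero, mul_zero, mul_zero]⟩
  · rintro f1 f2 ⟨g1, h1, h2⟩ ⟨g2, h3, h4⟩
    refine ⟨g1 + g2, Submodule.add_mem _ h1 h3, ?_⟩
    rw [mul_add, h2, h4, map_add]
    ring
  · intro d hd c
    set e : σ →₀ ℕ := (d.erase i).erase j with he
    have hei : e i = 0 := by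
      rw [he, Finsupp.erase_ne hij, Finsupp.erase_same]
    have hej : e j = 0 := by rw [he, Finsupp.erase_same]
    have hde : d = e + Finsupp.single i (d i) + Finsupp.single j (d j) := by
      ext k
      rw [Finsupp.add_apply, Finsupp.add_apply, Finsupp.single_apply, Finsupp.single_apply]
      by_cases h1 : k = i
      · subst h1
        rw [hei, if_pos rfl, if_neg (Ne.symm hij), zero_add, add_zero]
      · by_cases h2 : k = j
        · subst h2
          rw [hej, if_neg (Ne.symm h1), if_pos rfl, zero_add, zero_add]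
        · rw [he, Finsupp.erase_ne h2, Finsupp.erase_ne h1, if_neg (Ne.symm h1),
            if_neg (Ne.symm h2), add_zero, add_zero]
    set a := d i with ha
    set b := d j with hb
    have hsw : rename (Equiv.swap i j) (monomial d c : MvPolynomial σ F)
        = monomial e c * X j ^ a * X i ^ b := by
      rw [hde, monomial_two, map_mul, map_mul, map_pow, map_pow, rename_X, rename_X,
        Equiv.swap_apply_left, Equiv.swap_apply_right, rename_monomial]
      congr 3
      have h1 : ∀ k ∈ e.support, Equiv.swap i j k = k := by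
        intro k hk
        rw [Finsupp.mem_support_iff] at hk
        refine Equiv.swap_apply_of_ne_of_ne ?_ ?_
        · rintro rfl
          exact hk hei
        · rintro rfl
          exact hk hej
      rw [Finsupp.mapDomain_congr (g := id) (fun k hk => h1 k hk), Finsupp.mapDomain_id]
    rw [hsw]
    have hd' := hd
    rw [hde] at hd'
    rcases le_total b a with hab | hab
    · refine ⟨∑ l ∈ Finset.range (a - b), monomial e c * X i ^ (a - l) * X j ^ (b + l), ?_, ?_⟩
      · refine Submodule.sum_mem _ fun l hl => ?_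
        rw [Finset.mem_range] at hl
        rw [← monomial_two]
        refine monomial_mem_Wm (ExpB_mid hij hd' ?_ ?_ ?_ hei hej) c
        · rw [max_eq_left hab]
          omega
        · rw [max_eq_left hab]
          omega
        · omega
      · rw [dd_aux _ _ _ hab, hde, monomial_two]
    · refine ⟨-∑ l ∈ Finset.range (b - a), monomial e c * X i ^ (b - l) * X j ^ (a + l), ?_, ?_⟩
      · refine Submodule.neg_mem _ (Submodule.sum_mem _ fun l hl => ?_)
        rw [Finset.mem_range] at hl
        rw [← monomial_two]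
        refine monomial_mem_Wm (ExpB_mid hij hd' ?_ ?_ ?_ hei hej) c
        · rw [max_eq_right hab]
          omega
        · rw [max_eq_right hab]
          omega
        · omega
      · rw [mul_neg, dd_aux _ _ _ hab, hde, monomial_two]
        ring

theorem dd_mem {T : ℕ → ℕ} {f g : MvPolynomial σ F} (hf : f ∈ Wm F σ T) {i j : σ} (hij : i ≠ j)
    (hg : (X i - X j) * g = X i * (f - rename (Equiv.swap i j) f)) : g ∈ Wm F σ T := by
  obtain ⟨g', h1, h2⟩ := exists_dd hf hij
  have h3 : (X i - X j : MvPolynomial σ F) ≠ 0 :=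
    sub_ne_zero.2 fun h => hij (X_injective h)
  have h4 : g = g' := mul_left_cancel₀ h3 (hg.trans h2.symm)
  rw [h4]
  exact h1

end Wmod

section Ev

variable {F : Type*} [Field F] {L : Type*} [DecidableEq L] {σ : Type*} [Fintype σ]

/-- The variables of the alphabet `a` go to the power sums, the others to zero. -/
noncomputable def ev0 (σ : Type*) [Fintype σ] (a : L) : AA F L →ₐ[F] MvPolynomial σ F :=
  aeval fun v => if v.1 = a then psum σ F v.2 else 0

theorem ev0_X (a : L) (k : ℕ) : ev0 σ a (X (a, k) : AA F L) = psum σ F k := by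
  rw [ev0, aeval_X, if_pos rfl]

/-- In addition `Y` goes to one of the variables. -/
noncomputable def ev1 (a : L) (i : σ) : VV F L →ₗ[F] MvPolynomial σ F where
  toFun u := u.eval₂ (ev0 σ a : AA F L →ₐ[F] MvPolynomial σ F).toRingHom (X i)
  map_add' u v := Polynomial.eval₂_add _ _
  map_smul' c u := by
    have h1 : c • u = Polynomial.C (C c) * u := by
      rw [← Polynomial.smul_eq_C_mul, MvPolynomial.C_eq_smul_one, smul_assoc, one_smul]
    rw [h1, Polynomial.eval₂_mul, Polynomial.eval₂_C, RingHom.id_apply, smul_eq_C_mul]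
    congr 1
    exact (ev0 σ a : AA F L →ₐ[F] MvPolynomial σ F).commutes c

theorem ev1_mo (a : L) (i : σ) (m : ℕ) (f : AA F L) :
    ev1 a i (mo m f) = ev0 σ a f * X i ^ m := by
  show (Polynomial.monomial m f).eval₂ _ _ = _
  rw [Polynomial.eval₂_monomial]
  rfl

theorem ev1_X_pow_mul (a : L) (i : σ) (m : ℕ) (u : VV F L) :
    ev1 a i (Polynomial.X ^ m * u) = X i ^ m * ev1 a i u := by
  show Polynomial.eval₂ _ _ _ = X i ^ m * Polynomial.eval₂ _ _ _
  rw [Polynomial.eval₂_mul, Polynomial.eval₂_X_pow]

theorem ev1_smul' (a : L) (i : σ) (p : AA F L) (u : VV F L) :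
    ev1 a i (p • u) = ev0 σ a p * ev1 a i u := by
  rw [Polynomial.smul_eq_C_mul]
  show Polynomial.eval₂ _ _ _ = _ * Polynomial.eval₂ _ _ _
  rw [Polynomial.eval₂_mul, Polynomial.eval₂_C]
  rfl

theorem pderiv_psum [DecidableEq σ] (i : σ) (k : ℕ) :
    X i * pderiv i (psum σ F k) = C (k : F) * X i ^ k := by
  rw [psum, map_sum, Finset.sum_eq_single i]
  · rw [pderiv_pow, pderiv_X_self, mul_one]
    cases k with
    | zero => simp
    | succ k =>
      rw [Nat.add_sub_cancel, pow_succ, map_natCast]
      ring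
  · intro j _ hj
    rw [pderiv_pow, pderiv_X_of_ne hj, mul_zero]
  · intro h
    exact absurd (Finset.mem_univ i) h

theorem ev1_Md (al : F) (a : L) (i : σ) (f : AA F L) :
    ev1 a i (Md al a f) = C al * (X i * pderiv i (ev0 σ a f)) := by
  classical
  induction f using MvPolynomial.induction_on with
  | C c =>
    have h1 : ev0 σ a (C c : AA F L) = C c := (ev0 σ a : AA F L →ₐ[F] MvPolynomial σ F).commutes c
    rw [derivation_C, map_zero, h1, pderiv_C, mul_zero, mul_zero]
  | add p q hp hq => rw [map_add, map_add, hp, hq, map_add, map_add, mul_add, mul_add]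
  | mul_X p v hp =>
    rw [Derivation.leibniz, map_add, ev1_smul', ev1_smul', hp, map_mul, pderiv_mul]
    have h1 : ev1 a i (Md al a (X v)) = C al * (X i * pderiv i (ev0 σ a (X v : AA F L))) := by
      rw [Md, mkDerivation_X, ev0, aeval_X]
      by_cases hv : v.1 = a
      · rw [if_pos hv, if_pos hv, ev1_mo, pderiv_psum]
        have h2 : ev0 σ a (C (al * (v.2 : F)) : AA F L) = C (al * (v.2 : F)) :=
          (ev0 σ a : AA F L →ₐ[F] MvPolynomial σ F).commutes _
        rw [h2, C_mul]
        ring
      · rw [if_neg hv, if_neg hv, map_zero, map_zero, mul_zero, mul_zero]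
    rw [h1]
    ring

/-- The divided difference of `ev1 a i`. -/
noncomputable def gj (a : L) (i j : σ) : VV F L →ₗ[F] MvPolynomial σ F :=
  Polynomial.lsum fun m => (LinearMap.mulRight F
    (∑ l ∈ Finset.range m, X i ^ (m - l) * X j ^ l : MvPolynomial σ F)).comp
    (ev0 σ a : AA F L →ₐ[F] MvPolynomial σ F).toLinearMap

theorem gj_mo (a : L) (i j : σ) (m : ℕ) (f : AA F L) :
    gj a i j (mo m f) = ev0 σ a f * ∑ l ∈ Finset.range m, X i ^ (m - l) * X j ^ l := by
  show (Polynomial.monomial m f).sum _ = _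
  rw [Polynomial.sum_monomial_index]
  · rfl
  · exact LinearMap.map_zero _

theorem gj_eq (a : L) (i j : σ) (u : VV F L) :
    (X i - X j) * gj a i j u = X i * (ev1 a i u - ev1 a j u) := by
  have : (LinearMap.mulLeft F (X i - X j : MvPolynomial σ F)) ∘ₗ gj a i j
      = (LinearMap.mulLeft F (X i : MvPolynomial σ F)) ∘ₗ (ev1 a i - ev1 a j) := by
    refine vext fun m f => ?_
    rw [LinearMap.comp_apply, LinearMap.comp_apply, LinearMap.sub_apply, LinearMap.mulLeft_apply,
      LinearMap.mulLeft_apply, gj_mo, ev1_mo, ev1_mo]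
    have h1 := dd_aux (X i : MvPolynomial σ F) (X j) (ev0 σ a f) (Nat.zero_le m)
    rw [Nat.sub_zero, pow_zero, pow_zero, mul_one, mul_one] at h1
    rw [← h1, Finset.mul_sum]
    congr 1
    refine Finset.sum_congr rfl fun l _ => ?_
    rw [zero_add]
    ring
  exact LinearMap.congr_fun this u

theorem rename_ev0 (a : L) (s : Equiv.Perm σ) (f : AA F L) :
    rename s (ev0 σ a f) = ev0 σ a f := by
  have : (rename s : MvPolynomial σ F →ₐ[F] MvPolynomial σ F).comp (ev0 σ a) = ev0 σ a := by
    refine algHom_ext fun v => ?_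
    rw [AlgHom.comp_apply, ev0, aeval_X]
    split_ifs
    · exact rename_psum σ F v.2 s
    · exact map_zero _
  exact AlgHom.congr_fun this f

theorem rename_ev1 [DecidableEq σ] (a : L) (i j : σ) (u : VV F L) :
    rename (Equiv.swap i j) (ev1 a i u) = ev1 a j u := by
  induction u using Polynomial.induction_on' with
  | add p q hp hq => rw [map_add, map_add, hp, hq, map_add]
  | monomial m f =>
    have h1 : rename (Equiv.swap i j) (ev1 a i (mo m f)) = ev1 a j (mo m f) := by
      rw [ev1_mo, ev1_mo, map_mul, map_pow, rename_X, Equiv.swap_apply_left, rename_ev0]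
    exact h1

theorem ev_LX [DecidableEq σ] (al : F) (a : L) (i : σ) (u : VV F L) :
    ev1 a i (LX al (al - 1) a u) = C al * (X i * pderiv i (ev1 a i u))
      + ∑ j ∈ Finset.univ.erase i, gj a i j u - (Fintype.card σ : F) • ev1 a i u
      + ∑ j, ev1 a j u := by
  have : ev1 a i ∘ₗ LX al (al - 1) a
      = (LinearMap.mulLeft F (C al * X i) ∘ₗ (pderiv i).toLinearMap) ∘ₗ ev1 a i
        + ∑ j ∈ Finset.univ.erase i, gj a i j - (Fintype.card σ : F) • ev1 a i
        + ∑ j, ev1 a j := by
    refine vext fun m f => ?_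
    rw [LinearMap.add_apply, LinearMap.sub_apply, LinearMap.add_apply, LinearMap.smul_apply,
      LinearMap.comp_apply, LinearMap.comp_apply, LinearMap.comp_apply, LinearMap.mulLeft_apply,
      LinearMap.sum_apply, LinearMap.sum_apply, LX_mo, map_add, map_add, map_smul, map_sum,
      ev1_X_pow_mul, ev1_Md, ev1_mo]
    simp only [ev1_mo, gj_mo, map_mul, ev0_X]
    have h1 : (pderiv i).toLinearMap (ev0 σ a f * X i ^ m : MvPolynomial σ F)
        = pderiv i (ev0 σ a f) * X i ^ m + ev0 σ a f * ((m : MvPolynomial σ F) * X i ^ (m - 1)) := by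
      show pderiv i (ev0 σ a f * X i ^ m : MvPolynomial σ F) = _
      rw [pderiv_mul, pderiv_pow, pderiv_X_self, mul_one]
    have h2 : (X i * ((m : MvPolynomial σ F) * X i ^ (m - 1)) : MvPolynomial σ F)
        = (m : MvPolynomial σ F) * X i ^ m := by
      cases m with
      | zero => simp
      | succ m =>
        rw [Nat.add_sub_cancel, pow_succ]
        ring
    have h3 : ∀ j : σ, ∑ k ∈ Finset.range m, (X j ^ (k + 1) * X i ^ (m - 1 - k) : MvPolynomial σ F)
        = ∑ l ∈ Finset.range m, X i ^ (m - l) * X j ^ l - X i ^ m + X j ^ m := by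
      intro j
      have h4 := Finset.sum_range_succ (fun l => (X i ^ (m - l) * X j ^ l : MvPolynomial σ F)) m
      rw [Finset.sum_range_succ', Nat.sub_self, pow_zero, pow_zero, one_mul, Nat.sub_zero,
        mul_one] at h4
      have h5 : ∑ k ∈ Finset.range m, (X j ^ (k + 1) * X i ^ (m - 1 - k) : MvPolynomial σ F)
          = ∑ k ∈ Finset.range m, X i ^ (m - (k + 1)) * X j ^ (k + 1) := by
        refine Finset.sum_congr rfl fun k _ => ?_
        rw [mul_comm, Nat.sub_sub, add_comm 1 k]
      rw [h5, eq_sub_of_add_eq h4]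
      ring
    have h6 : ∑ x ∈ Finset.range m, (psum σ F (x + 1) * ev0 σ a f * X i ^ (m - 1 - x))
        = ev0 σ a f * ∑ j : σ, ∑ k ∈ Finset.range m, X j ^ (k + 1) * X i ^ (m - 1 - k) := by
      rw [Finset.sum_comm, Finset.mul_sum]
      refine Finset.sum_congr rfl fun k _ => ?_
      rw [psum, Finset.mul_sum, Finset.sum_mul, Finset.sum_mul]
      refine Finset.sum_congr rfl fun j _ => ?_
      ring
    have h7 : ∑ j : σ, ∑ k ∈ Finset.range m, (X j ^ (k + 1) * X i ^ (m - 1 - k) : MvPolynomial σ F)
        = (m : MvPolynomial σ F) * X i ^ m + (∑ j ∈ Finset.univ.erase i,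
          ∑ l ∈ Finset.range m, X i ^ (m - l) * X j ^ l
          - ((Fintype.card σ : ℕ) : MvPolynomial σ F) * X i ^ m + ∑ j, X j ^ m) := by
      rw [Finset.sum_congr rfl fun j _ => h3 j]
      rw [Finset.sum_add_distrib, Finset.sum_sub_distrib, Finset.sum_const, Finset.card_univ,
        nsmul_eq_mul, ← Finset.add_sum_erase Finset.univ
          (fun j => ∑ l ∈ Finset.range m, (X i ^ (m - l) * X j ^ l : MvPolynomial σ F))
          (Finset.mem_univ i)]
      have h8 : ∑ l ∈ Finset.range m, (X i ^ (m - l) * X i ^ l : MvPolynomial σ F)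
          = (m : MvPolynomial σ F) * X i ^ m := by
        rw [Finset.sum_congr rfl (g := fun _ => (X i ^ m : MvPolynomial σ F)), Finset.sum_const,
          Finset.card_range, nsmul_eq_mul]
        intro l hl
        rw [Finset.mem_range] at hl
        rw [← pow_add, Nat.sub_add_cancel hl.le]
      rw [h8]
      ring
    have h9 : ((al - 1) * (m : F)) • (ev0 σ a f * X i ^ m : MvPolynomial σ F)
        = (C al - 1) * (m : MvPolynomial σ F) * (ev0 σ a f * X i ^ m) := by
      rw [smul_eq_C_mul, C_mul, C_sub, C_1, map_natCast C m]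
    have h10 : (Fintype.card σ : F) • (ev0 σ a f * X i ^ m : MvPolynomial σ F)
        = ((Fintype.card σ : ℕ) : MvPolynomial σ F) * (ev0 σ a f * X i ^ m) := by
      rw [smul_eq_C_mul, map_natCast C _]
    rw [h1, h9, h10, h6, h7, ← Finset.mul_sum, ← Finset.mul_sum]
    linear_combination (- C al * ev0 σ a f) * h2
  have h := LinearMap.congr_fun this u
  rw [LinearMap.add_apply, LinearMap.sub_apply, LinearMap.add_apply, LinearMap.smul_apply,
      LinearMap.comp_apply, LinearMap.comp_apply, LinearMap.comp_apply, LinearMap.mulLeft_apply,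
      LinearMap.sum_apply, LinearMap.sum_apply] at h
  rw [h, mul_assoc]
  rfl

theorem ev_co_LX (al b : F) (a : L) (u : VV F L) :
    ev0 σ a (co 0 (LX al b a u)) = ∑ j, ev1 a j u - (Fintype.card σ : F) • ev0 σ a (co 0 u) := by
  induction u using Polynomial.induction_on' with
  | add p q hp hq =>
    simp only [map_add, Finset.sum_add_distrib, smul_add] at hp hq ⊢
    rw [hp, hq]
    abel
  | monomial m f =>
    have key : ev0 σ a (co 0 (LX al b a (mo m f)))
        = ∑ j, ev1 a j (mo m f) - (Fintype.card σ : F) • ev0 σ a (co 0 (mo m f)) := by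
      rw [co_LX_mo, co_mo]
      simp only [ev1_mo]
      rw [← Finset.mul_sum]
      by_cases hm : m = 0
      · subst hm
        simp only [le_refl, if_true, Nat.sub_self, Nat.cast_zero, mul_zero, C_0, zero_mul,
          lt_irrefl, if_false, add_zero, map_zero, pow_zero, Finset.sum_const, Finset.card_univ]
        rw [smul_eq_C_mul, map_natCast C _, nsmul_eq_mul, mul_one]
        ring
      · have h1 : ¬ (m ≤ 0) := by omega
        have h2 : 0 < m := by omega
        rw [if_neg h1, if_neg hm, if_pos h2, if_neg hm, map_zero, smul_zero, sub_zero, zero_add,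
          zero_add, Nat.sub_zero, map_mul, ev0_X, psum, mul_comm]
    exact key

/-- The Lax operator preserves the bounds of exponents. -/
theorem Wm_LX [DecidableEq σ] {T : ℕ → ℕ} (al : F) (a : L) (i : σ) {u : VV F L}
    (h0 : ev0 σ a (co 0 u) ∈ Wm F σ T) (h1 : ev1 a i u ∈ Wm F σ T) :
    ev0 σ a (co 0 (LX al (al - 1) a u)) ∈ Wm F σ T ∧
      ev1 a i (LX al (al - 1) a u) ∈ Wm F σ T := by
  have h2 : ∀ j, ev1 a j u ∈ Wm F σ T := by
    intro j
    rw [← rename_ev1 a i j u]
    exact Wm_rename h1 _
  have h3 : ∑ j, ev1 a j u ∈ Wm F σ T := Submodule.sum_mem _ fun j _ => h2 j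
  constructor
  · rw [ev_co_LX]
    exact Submodule.sub_mem _ h3 (Submodule.smul_mem _ _ h0)
  · rw [ev_LX]
    refine Submodule.add_mem _ (Submodule.sub_mem _ (Submodule.add_mem _ ?_ ?_) ?_) h3
    · rw [← smul_eq_C_mul]
      exact Submodule.smul_mem _ _ (Wm_euler h1 i)
    · refine Submodule.sum_mem _ fun j hj => ?_
      have hij : i ≠ j := (Finset.ne_of_mem_erase hj).symm
      refine dd_mem h1 hij ?_
      rw [gj_eq, rename_ev1]
    · exact Submodule.smul_mem _ _ h1

theorem Wm_hk [DecidableEq σ] {T : ℕ → ℕ} (al : F) (a : L) (i : σ) {f : AA F L}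
    (hf : ev0 σ a f ∈ Wm F σ T) (k : ℕ) :
    ev0 σ a (hk al (al - 1) a k f) ∈ Wm F σ T := by
  have h1 : ∀ k : ℕ, ev0 σ a (co 0 ((LX al (al - 1) a ^ k : Module.End F (VV F L)) (mo 0 f)))
      ∈ Wm F σ T ∧ ev1 a i ((LX al (al - 1) a ^ k : Module.End F (VV F L)) (mo 0 f))
      ∈ Wm F σ T := by
    intro k
    induction k with
    | zero =>
      rw [pow_zero, Module.End.one_apply, co_mo, if_pos rfl, ev1_mo, pow_zero, mul_one]
      exact ⟨hf, hf⟩
    | succ k ih =>
      rw [pow_succ', Module.End.mul_apply]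
      exact Wm_LX al a i ih.1 ih.2
  exact (h1 k).1

end Ev

end Pool.Agent.JackB
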