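import Pool.Agent.Lib.JackB.Intg

/-!
Fine integrality of the logarithm of the series in three alphabets (problem MP_b52a9f_co).
-/

open MvPolynomial

namespace Pool.Agent.JackB

/-- The parameters: `1` for `i = 1`, the variables of the alphabet `2` for `2 ≤ i ≤ N`. -/
noncomputable def rp (N : ℕ) : ℕ → AA K (Fin 3) := fun i =>
  if i = 1 then 1 else if 2 ≤ i ∧ i ≤ N then X (2, i) else 0

theorem rp_zero (N : ℕ) : rp N 0 = 0 := by
  rw [rp, if_neg (by omega), if_neg (by omega)]

theorem rp_one (N : ℕ) : rp N 1 = 1 := if_pos rfl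

theorem rp_large {N : ℕ} (hN : 1 ≤ N) (i : ℕ) (hi : N < i) : rp N i = 0 := by
  rw [rp, if_neg (by omega), if_neg (by omega)]

theorem rp_cases (N i : ℕ) (P : AA K (Fin 3) → Prop) (h0 : P 0) (h1 : P 1) (h2 : P (X (2, i))) :
    P (rp N i) := by
  rw [rp]
  split_ifs
  · exact h1
  · exact h2
  · exact h0

theorem Md_rp (al' : K) (N i : ℕ) : Md al' (0 : Fin 3) (rp N i) = 0 := by
  refine rp_cases N i (fun f => Md al' (0 : Fin 3) f = 0) (map_zero _)
    (Derivation.map_one_eq_zero _) ?_
  have h2 : (2 : Fin 3) ≠ 0 := by decide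
  exact Md_X_par al' (fun h => absurd h h2)

theorem pderiv_rp (N i j : ℕ) : pderiv ((1 : Fin 3), i) (rp N j) = 0 := by
  refine rp_cases N j (fun f => pderiv ((1 : Fin 3), i) f = 0) (map_zero _)
    (Derivation.map_one_eq_zero _) ?_
  rw [pderiv_X, Pi.single_eq_of_ne]
  intro h
  have h2 : (2 : Fin 3) ≠ 1 := by decide
  exact h2 (Prod.ext_iff.1 h).1

/-- The classes of bad exponents. -/
def b3 (N : ℕ) : Fin 3 → Set (ℕ → ℕ) := fun c => if c = 2 then notCl {m | rk m < N} else ∅

theorem b3_up (N : ℕ) : UpCl (b3 N) := by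
  intro a x y hx hxy
  unfold b3 at hx ⊢
  split_ifs at hx ⊢ with h
  · exact notCl_up _ x y hx hxy
  · exact hx

theorem mem_gb3 {N : ℕ} {d : Fin 3 × ℕ →₀ ℕ} :
    d ∈ gb (b3 N) ↔ ∃ t : Multiset ℕ, N ≤ rk t ∧ ∀ i, t.count i ≤ d (2, i) := by
  constructor
  · rintro ⟨c, hc⟩
    unfold b3 at hc
    split_ifs at hc with h
    · obtain ⟨t, ht, ht2⟩ := hc
      subst h
      exact ⟨t, not_lt.1 ht, ht2⟩
    · exact absurd hc (Set.notMem_empty _)
  · rintro ⟨t, ht, ht2⟩
    refine ⟨2, ?_⟩
    unfold b3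
    rw [if_pos rfl]
    exact ⟨t, not_lt.2 ht, ht2⟩

theorem Ga_b3 (N : ℕ) : Ga (gb (b3 N)) (0 : Fin 3) := by
  intro d hd i h
  apply hd
  rw [mem_gb3] at h ⊢
  obtain ⟨t, ht, ht2⟩ := h
  refine ⟨t, ht, fun j => ?_⟩
  have h1 := ht2 j
  rw [Finsupp.add_apply, Finsupp.single_apply, if_neg, add_zero] at h1
  · exact h1
  · intro h2
    have h3 : (0 : Fin 3) ≠ 2 := by decide
    exact h3 (Prod.ext_iff.1 h2).1

theorem coeff_rr_rp (N : ℕ) (nu : Multiset ℕ) :
    ∀ (f : AA K (Fin 3)) (d : Fin 3 × ℕ →₀ ℕ), (rr (rp N) nu * f).coeff d ≠ 0 →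
      ∃ t : Multiset ℕ, rk t = rk nu ∧ ∀ i, t.count i ≤ d (2, i) := by
  classical
  induction nu using Multiset.induction_on with
  | empty =>
    intro f d _
    exact ⟨0, rfl, fun i => by simp⟩
  | cons j nu ih =>
    intro f d hd
    rw [rr_cons, mul_assoc] at hd
    by_cases h1 : j = 1
    · rw [h1, rp_one, one_mul] at hd
      obtain ⟨t, ht, ht2⟩ := ih f d hd
      refine ⟨t, ?_, ht2⟩
      rw [h1, rk_cons, ht]
      omega
    · by_cases h2 : 2 ≤ j ∧ j ≤ N
      · rw [rp, if_neg h1, if_pos h2, coeff_X_mul'] at hd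
        split_ifs at hd with h3
        · obtain ⟨t, ht, ht2⟩ := ih f _ hd
          refine ⟨j ::ₘ t, by rw [rk_cons, rk_cons, ht], fun i => ?_⟩
          have h4 := ht2 i
          rw [Finsupp.tsub_apply, Finsupp.single_apply] at h4
          rw [Finsupp.mem_support_iff] at h3
          rw [Multiset.count_cons]
          by_cases hij : i = j
          · subst hij
            rw [if_pos rfl] at h4 ⊢
            omega
          · rw [if_neg hij]
            have h5 : ¬ ((2 : Fin 3), j) = (2, i) := fun h => hij (Prod.ext_iff.1 h).2.symm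
            rw [if_neg h5] at h4
            omega
        · exact absurd rfl hd
      · rw [rp, if_neg h1, if_neg h2, zero_mul, coeff_zero] at hd
        exact absurd rfl hd

theorem hgr3 (N : ℕ) (nu : Multiset ℕ) (hnu : N ≤ rk nu) (f : AA K (Fin 3))
    (d : Fin 3 × ℕ →₀ ℕ) (hd : d ∉ gb (b3 N)) : (rr (rp N) nu * f).coeff d = 0 := by
  by_contra h
  obtain ⟨t, ht, ht2⟩ := coeff_rr_rp N nu f d h
  exact hd (mem_gb3.2 ⟨t, by omega, ht2⟩)

/-- The exchange of the first two alphabets. -/
def e01 : Fin 3 ≃ Fin 3 := Equiv.swap 0 1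

theorem rename_rp (N i : ℕ) : rename (pf e01) (rp N i) = rp N i := by
  rw [rp]
  split_ifs
  · rw [map_one]
  · rw [rename_X]
    rfl
  · rw [map_zero]

theorem rename_rr (N : ℕ) (nu : Multiset ℕ) :
    rename (pf e01) (rr (rp N) nu) = rr (rp N) nu := by
  induction nu using Multiset.induction_on with
  | empty => rw [rr, Multiset.map_zero, Multiset.prod_zero, map_one]
  | cons i nu ih => rw [rr_cons, map_mul, ih, rename_rp]

theorem rename_ta (J : Fam) (N n : ℕ) :
    rename (pf e01) (ta J (0 : Fin 3) 1 (rp N) n) = ta J 0 1 (rp N) n := by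
  rw [ta, map_sum]
  refine Finset.sum_congr rfl fun th _ => ?_
  have h1 : rename (pf e01) (Jr J th (rp N)) = Jr J th (rp N) := by
    rw [Jr, map_sum]
    refine Finset.sum_congr rfl fun l _ => ?_
    rw [map_mul, rename_C, rename_rr]
  have h2 : e01 0 = 1 := rfl
  have h3 : e01 1 = 0 := rfl
  rw [map_mul, rename_C, map_mul, map_mul, h1, rename_Jp, rename_Jp, h2, h3]
  ring

/-- The integrality induction. -/
theorem int3 {J : Fam} (hJ : JOK J) (hE : Eig J (0 : Fin 3)) {S : Subring K} (halS : al ∈ S)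
    {N : ℕ} (hN : 1 ≤ N) {H : PowerSeries (AA K (Fin 3))}
    (hL : IsLog (C al) (PowerSeries.mk (ta J (0 : Fin 3) 1 (rp N))) H) (n i : ℕ) :
    C (i : K) * pderiv ((0 : Fin 3), i) (PowerSeries.coeff n H)
      ∈ SS S.toSubsemiring (gb (b3 N)) (gb_add (b3_up N)) := by
  have hren : ∀ n, rename (pf e01) (PowerSeries.coeff n H) = PowerSeries.coeff n H := by
    intro n
    have h1 := isLog_rename (J := J) (ι' := Fin 3) e01 hL
    have h2 : PowerSeries.map (rename (pf e01) : AA K (Fin 3) →ₐ[K] _).toRingHom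
        (PowerSeries.mk (ta J (0 : Fin 3) 1 (rp N))) = PowerSeries.mk (ta J (0 : Fin 3) 1 (rp N)) := by
      ext1 n
      rw [PowerSeries.coeff_map, PowerSeries.coeff_mk]
      exact rename_ta J N n
    rw [h2] at h1
    have h3 := hL.unique h1
    have h4 := congrArg (PowerSeries.coeff n) h3
    rw [PowerSeries.coeff_map] at h4
    exact h4.symm
  induction n using Nat.strong_induction_on generalizing i with
  | _ n ih =>
    have h1 := step_q (q := (1 : Fin 3)) hJ hE (by decide) halS (Md_rp al N) (rp_zero N)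
      (rp_one N) (rp_large hN) hN (pderiv_rp N) (fun j => rp_cases N j
        (fun f => f ∈ SS S.toSubsemiring (gb (b3 N)) (gb_add (b3_up N)))
        (Subsemiring.zero_mem _) (Subsemiring.one_mem _) (X_mem _))
      (Ga_b3 N) (hgr3 N) hL (fun m hm j => ih m hm j) i
    have h2 := rename_mem (S := S.toSubsemiring) e01.injective (b3_up N) (b3_up N)
      (fun c => by fin_cases c <;> exact subset_rfl) h1
    have h3 : rename (pf e01) (C (i : K) * pderiv ((1 : Fin 3), i) (PowerSeries.coeff n H))
        = C (i : K) * pderiv ((0 : Fin 3), i) (PowerSeries.coeff n H) := by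
      rw [map_mul, rename_C]
      have h4 := pderiv_rename (pf_inj e01.injective) (x := ((1 : Fin 3), i))
        (PowerSeries.coeff n H)
      rw [hren] at h4
      rw [← h4]
      rfl
    rw [h3] at h2
    exact h2

/-- The substitution of the parameters. -/
noncomputable def subN (N : ℕ) : AA K (Fin 3) →ₐ[K] AA K (Fin 3) :=
  aeval fun v : Fin 3 × ℕ => if v.1 = 2 then rp N v.2 else X v

theorem subN_X (N : ℕ) (v : Fin 3 × ℕ) :
    subN N (X v) = if v.1 = 2 then rp N v.2 else X v := by
  rw [subN, aeval_X]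

theorem subN_Jp (J : Fam) (N : ℕ) {n : ℕ} (th : n.Partition) (c : Fin 3) :
    subN N (Jp J th c) = if c = 2 then Jr J th (rp N) else Jp J th c := by
  have h1 : ∀ nu : Multiset ℕ, subN N (pm K c nu) = if c = 2 then rr (rp N) nu else pm K c nu := by
    intro nu
    induction nu using Multiset.induction_on with
    | empty => simp [rr]
    | cons i nu ih =>
      rw [pm_cons, map_mul, ih, subN_X]
      split_ifs
      · rw [rr_cons]
      · rfl
  rw [Jp_eq, map_sum]
  split_ifs with h
  · rw [Jr]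
    refine Finset.sum_congr rfl fun l _ => ?_
    rw [map_mul, h1, if_pos h, ← algebraMap_eq, AlgHom.commutes]
  · refine Finset.sum_congr rfl fun l _ => ?_
    rw [map_mul, h1, if_neg h, ← algebraMap_eq, AlgHom.commutes]

theorem map_subN (J : Fam) (N : ℕ) :
    PowerSeries.map (subN N).toRingHom (tau J (Fin 3))
      = PowerSeries.mk (ta J (0 : Fin 3) 1 (rp N)) := by
  ext1 n
  rw [PowerSeries.coeff_map, coeff_tau, PowerSeries.coeff_mk, ta]
  show subN N (∑ th : n.Partition, C (jn J th)⁻¹ * ∏ a : Fin 3, Jp J th a) = _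
  rw [map_sum]
  refine Finset.sum_congr rfl fun th _ => ?_
  have h0 : ¬ (0 : Fin 3) = 2 := by decide
  have h1 : ¬ (1 : Fin 3) = 2 := by decide
  rw [map_mul, map_prod, Fin.prod_univ_three, subN_Jp, subN_Jp, subN_Jp, if_neg h0, if_neg h1,
    if_pos rfl, ← algebraMap_eq, AlgHom.commutes]
  ring

/-- The exponents in use. -/
def Us (n : ℕ) (e : Fin 3 × ℕ →₀ ℕ) : Prop :=
  (∀ i, e (2, i) ≠ 0 → 1 ≤ i ∧ i ≤ n)

theorem subN_monomial {n N : ℕ} (hN : n ≤ N) {e : Fin 3 × ℕ →₀ ℕ} (he : Us n e) (c : K) :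
    subN N (monomial e c) = monomial (e.erase (2, 1)) c := by
  classical
  rw [subN, aeval_monomial, algebraMap_eq, MvPolynomial.monomial_eq]
  refine congrArg _ ?_
  set G : Fin 3 × ℕ → ℕ → AA K (Fin 3) := fun v k =>
    (if v.1 = 2 then rp N v.2 else X v) ^ k with hG
  have h1 : e.prod G = (e.erase (2, 1)).prod G := by
    have h2 : G (2, 1) (e (2, 1)) = 1 := by
      rw [hG]
      simp only [if_true]
      rw [rp_one, one_pow]
    have h3 : (Finsupp.single ((2 : Fin 3), 1) (e (2, 1))).prod G = 1 := by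
      have h5 : G ((2 : Fin 3), 1) 0 = 1 := pow_zero _
      rw [Finsupp.prod_single_index h5, h2]
    have h4 : (e.erase (2, 1) + Finsupp.single (2, 1) (e (2, 1))).prod G
        = (e.erase (2, 1)).prod G * (Finsupp.single ((2 : Fin 3), 1) (e (2, 1))).prod G :=
      Finsupp.prod_add_index' (fun v => pow_zero _) (fun v k l => pow_add _ _ _)
    rw [Finsupp.erase_add_single, h3, mul_one] at h4
    exact h4
  rw [h1]
  refine Finsupp.prod_congr fun v hv => ?_
  rw [Finsupp.support_erase, Finset.mem_erase, Finsupp.mem_support_iff] at hv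
  rw [hG]
  show (if v.1 = 2 then rp N v.2 else X v) ^ _ = X v ^ _
  by_cases h : v.1 = 2
  · have hv' : v = (2, v.2) := Prod.ext h rfl
    rw [hv'] at hv
    have h3 := he v.2 hv.2
    have h4 : v.2 ≠ 1 := fun h5 => hv.1 (by rw [h5])
    rw [if_pos h, rp, if_neg h4, if_pos (by omega), ← hv']
  · rw [if_neg h]

theorem us_mon {n : ℕ} (m : Fin 3 → n.Partition) : Us n (mon m) := by
  intro i hi
  rw [mon_apply] at hi
  have h1 : i ∈ (m 2).parts := by
    by_contra h
    exact hi (Multiset.count_eq_zero.2 h)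
  refine ⟨(m 2).parts_pos h1, ?_⟩
  have h2 := Multiset.single_le_sum (fun _ _ => Nat.zero_le _) _ h1
  rwa [(m 2).parts_sum] at h2

theorem count_one {n : ℕ} (l : n.Partition) :
    l.parts.count 1 + (l.parts.filter (fun i => ¬ i = 1)).sum = n := by
  have h1 : l.parts.filter (fun i => i = 1) + l.parts.filter (fun i => ¬ i = 1) = l.parts :=
    Multiset.filter_add_not _ _
  have h2 := congrArg Multiset.sum h1
  rw [Multiset.sum_add, l.parts_sum, Multiset.filter_eq', Multiset.sum_replicate, smul_eq_mul,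
    mul_one] at h2
  exact h2

theorem erase_inj {n : ℕ} (m m' : Fin 3 → n.Partition)
    (h : (mon m).erase (2, 1) = (mon m').erase (2, 1)) : mon m = mon m' := by
  have h1 : ∀ v, v ≠ ((2 : Fin 3), 1) → mon m v = mon m' v := by
    intro v hv
    have h2 := DFunLike.congr_fun h v
    rwa [Finsupp.erase_ne hv, Finsupp.erase_ne hv] at h2
  have h2 : (m 2).parts.filter (fun i => ¬ i = 1) = (m' 2).parts.filter (fun i => ¬ i = 1) := by
    ext i
    rw [Multiset.count_filter, Multiset.count_filter]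
    by_cases hi : i = 1
    · rw [if_neg (not_not.2 hi), if_neg (not_not.2 hi)]
    · have h3 := h1 (2, i) (fun h0 => hi (Prod.ext_iff.1 h0).2)
      rw [mon_apply, mon_apply] at h3
      rw [if_pos hi, if_pos hi, h3]
  have h3 := count_one (m 2)
  have h4 := count_one (m' 2)
  rw [h2] at h3
  ext v
  by_cases hv : v = ((2 : Fin 3), 1)
  · rw [hv, mon_apply, mon_apply]
    omega
  · exact h1 v hv

theorem coeff_subN {n N : ℕ} (hN : n ≤ N) {P : AA K (Fin 3)} (hP : Hom n P)
    (m : Fin 3 → n.Partition) :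
    (subN N P).coeff ((mon m).erase (2, 1)) = P.coeff (mon m) := by
  classical
  conv_lhs => rw [P.as_sum]
  rw [map_sum, coeff_sum]
  have h1 : ∀ e ∈ P.support, (subN N (monomial e (P.coeff e))).coeff ((mon m).erase (2, 1))
      = if e = mon m then P.coeff e else 0 := by
    intro e he
    rw [mem_support_iff] at he
    obtain ⟨m', rfl⟩ := hP e he
    rw [subN_monomial hN (us_mon m'), coeff_monomial]
    by_cases h : mon m' = mon m
    · rw [if_pos h, if_pos (by rw [h])]
    · rw [if_neg h, if_neg fun h0 => h (erase_inj m' m h0)]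
  rw [Finset.sum_congr rfl h1, Finset.sum_ite_eq']
  split_ifs with h
  · rfl
  · rw [notMem_support_iff] at h
    exact h.symm

theorem rk_mono {s t : Multiset ℕ} (h : s ≤ t) : rk s ≤ rk t := by
  obtain ⟨u, rfl⟩ := Multiset.le_iff_exists_add.1 h
  rw [rk, rk, Multiset.map_add, Multiset.sum_add]
  exact Nat.le_add_right _ _

theorem rk_parts {n : ℕ} (l : n.Partition) : rk l.parts + l.parts.card = n := by
  have h1 : ∀ s : Multiset ℕ, (∀ i ∈ s, 1 ≤ i) → rk s + s.card = s.sum := by
    intro s
    induction s using Multiset.induction_on with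
    | empty => intro _; rfl
    | cons i s ih =>
      intro hs
      have h2 := ih fun j hj => hs j (Multiset.mem_cons_of_mem hj)
      have h3 := hs i (Multiset.mem_cons_self i s)
      rw [rk_cons, Multiset.card_cons, Multiset.sum_cons]
      omega
  have h2 := h1 l.parts (fun i hi => l.parts_pos hi)
  rw [l.parts_sum] at h2
  exact h2

/-- Fine integrality in three alphabets. -/
theorem fine3 {J : Fam} (hJ : JOK J) (h0 : Unital J) (hE : Eig J (0 : Fin 3)) {S : Subring K}
    (halS : al ∈ S) : Fine J S.toSubsemiring (Fin 3) (fun _ => ∅) 0 := by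
  intro W hW i n d _
  by_cases hc : (C (i : K) * pderiv ((0 : Fin 3), i) (PowerSeries.coeff n W)).coeff d = 0
  · rw [hc]
    exact S.zero_mem
  have hc' := hc
  rw [coeff_C_mul, coeff_pderiv] at hc'
  have hne : (PowerSeries.coeff n W).coeff (d + Finsupp.single (0, i) 1) ≠ 0 := by
    intro h
    rw [h, zero_mul, mul_zero] at hc'
    exact hc' rfl
  obtain ⟨m, hm⟩ := hom_log h0 hW n _ hne
  rcases Nat.eq_zero_or_pos n with rfl | hn
  · rw [hW.zero, coeff_zero] at hne
    exact absurd rfl hne
  set H := PowerSeries.map (subN n).toRingHom W with hH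
  have hL : IsLog (C al) (PowerSeries.mk (ta J (0 : Fin 3) 1 (rp n))) H := by
    have h1 := hW.map (subN n).toRingHom
    have h2 : (subN n).toRingHom (C al) = C al := by
      show subN n (C al) = C al
      rw [← algebraMap_eq, AlgHom.commutes]
    rw [map_subN, h2] at h1
    exact h1
  have h1 := int3 hJ hE halS hn hL n i
  have hd : d.erase (2, 1) ∉ gb (b3 n) := by
    intro h
    rw [mem_gb3] at h
    obtain ⟨t, ht, ht2⟩ := h
    have h2 : t ≤ (m 2).parts := by
      rw [Multiset.le_iff_count]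
      intro j
      have h3 := ht2 j
      have h4 : (mon m) (2, j) = (m 2).parts.count j := mon_apply m 2 j
      rw [hm, Finsupp.add_apply, Finsupp.single_apply, if_neg, add_zero] at h4
      · rw [← h4]
        refine h3.trans ?_
        by_cases hj : ((2 : Fin 3), j) = (2, 1)
        · rw [hj, Finsupp.erase_same]
          exact Nat.zero_le _
        · rw [Finsupp.erase_ne hj]
      · intro h5
        have h6 : (0 : Fin 3) ≠ 2 := by decide
        exact h6 (Prod.ext_iff.1 h5).1
    have h3 := rk_mono h2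
    have h4 := rk_parts (m 2)
    have h5 : (m 2).parts.card ≠ 0 := by
      intro h6
      have h7 := (m 2).parts_sum
      rw [Multiset.card_eq_zero.1 h6, Multiset.sum_zero] at h7
      omega
    omega
  have h2 := h1 _ hd
  have hv : ((0 : Fin 3), i) ≠ (2, 1) := by
    intro h5
    have h6 : (0 : Fin 3) ≠ 2 := by decide
    exact h6 (Prod.ext_iff.1 h5).1
  have h3 : d.erase (2, 1) + Finsupp.single (0, i) 1 = (mon m).erase (2, 1) := by
    rw [hm, Finsupp.erase_add, Finsupp.erase_single_ne hv.symm]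
  have h4 : PowerSeries.coeff n H = subN n (PowerSeries.coeff n W) := by
    rw [hH, PowerSeries.coeff_map]
    rfl
  rw [coeff_C_mul, coeff_pderiv, h3, h4, coeff_subN le_rfl (hom_log h0 hW n) m,
    Finsupp.erase_ne hv, hm] at h2
  rw [coeff_C_mul, coeff_pderiv]
  exact h2

end Pool.Agent.JackB
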