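import Pool.Agent.Lib.JackB.Prof8

/-!
Gluing of positivity statements for the logarithm along an alphabet
(problem MP_b52a9f_co).
-/

open MvPolynomial

namespace Pool.Agent.JackB

section Core2

variable {F : Type*} [Field F] {L : Type*} [DecidableEq L] {s : L → L} {al : F}
  {T : MvPolynomial (L × ℕ) F →ₗ[F] MvPolynomial (L × ℕ) F}

/-- The fixed point equation for the derivative in the variable of the series. -/
theorem UU_zd (hT : IsWick s al T)
    {F0 W0 W : PowerSeries (MvPolynomial (L × ℕ) F)} (hW0 : IsLog (C al) F0 W0)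
    (hW : IsLog (C al) (tt T.toAddMonoidHom F0) W) : zd W = UU T F0 (zd W0) := by
  have h1 : tt T.toAddMonoidHom (F0 * zd W0)
      = PowerSeries.C (C al) * tt T.toAddMonoidHom (zd F0) := by
    rw [← hW0.eq]
    ext1 n
    rw [PowerSeries.coeff_C_mul, coeff_tt, coeff_tt, PowerSeries.coeff_C_mul]
    exact hT.C_mul al _
  have h2 : tt T.toAddMonoidHom (zd F0) = zd (tt T.toAddMonoidHom F0) := by
    ext1 n
    rw [coeff_tt, coeff_zd, coeff_zd, coeff_tt]
    have h3 : T (C (n : F) * PowerSeries.coeff n F0) = C (n : F) * T (PowerSeries.coeff n F0) :=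
      hT.C_mul _ _
    rw [map_natCast] at h3
    exact h3
  rw [UU, h1, h2, hW.eq]
  linear_combination (-(zd W)) * inv_mul hT hW0.one

end Core2

section Cls

/-- The coefficients of the logarithm at partitions in the classes `Cl` lie in `S`. -/
def PosC (J : Fam) (S : Subsemiring K) (ι : Type*) [Fintype ι] [DecidableEq ι]
    (Cl : ι → Set (Multiset ℕ)) : Prop :=
  ∀ W, IsLog (C al) (tau J ι) W → ∀ (n : ℕ) (m : ι → n.Partition),
    (∀ a, (m a).parts ∈ Cl a) → (PowerSeries.coeff n W).coeff (mon m) ∈ S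

variable {ι ι' κ : Type*} [Fintype ι] [DecidableEq ι] [Fintype ι'] [DecidableEq ι']
  [Fintype κ] [DecidableEq κ] {J : Fam} {S : Subsemiring K}

theorem PosC.mono {Cl Cl' : ι → Set (Multiset ℕ)} (h : PosC J S ι Cl')
    (hc : ∀ a, Cl a ⊆ Cl' a) : PosC J S ι Cl :=
  fun W hW n m hm => h W hW n m fun a => hc a (hm a)

theorem PosC.ss (h0 : Unital J) {Cl : ι → Set (Multiset ℕ)} (h : PosC J S ι Cl)
    {bad : ι → Set (ℕ → ℕ)} (hb : UpCl bad)
    (hc : ∀ a (s : Multiset ℕ), (fun i => s.count i) ∉ bad a → s ∈ Cl a)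
    {W : PowerSeries (MvPolynomial (ι × ℕ) K)} (hW : IsLog (C al) (tau J ι) W) (n : ℕ) :
    PowerSeries.coeff n W ∈ SS S (gb bad) (gb_add hb) := by
  intro d hd
  by_cases h1 : (PowerSeries.coeff n W).coeff d = 0
  · rw [h1]
    exact S.zero_mem
  · obtain ⟨m, rfl⟩ := hom_log h0 hW n d h1
    exact h W hW n m fun a => hc a _ (good_iff.2 hd a)

theorem PosC.reindex {Cl : ι → Set (Multiset ℕ)} {Cl' : ι' → Set (Multiset ℕ)}
    (h : PosC J S ι' Cl') (e : ι ≃ ι') (hc : ∀ a, Cl a ⊆ Cl' (e a)) : PosC J S ι Cl := by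
  intro W hW n m hm
  have h1 := isLog_rename (J := J) (ι' := ι') e hW
  rw [map_tau] at h1
  have h2 := h _ h1 n (fun a => m (e.symm a)) fun a => by
    have h3 := hc (e.symm a) (hm (e.symm a))
    rw [e.apply_symm_apply] at h3
    exact h3
  rw [PowerSeries.coeff_map] at h2
  have h4 : mon (fun a => m (e.symm a)) = (mon m).mapDomain (pf e) := by
    refine Finsupp.ext fun v => ?_
    obtain ⟨c, i⟩ := v
    have h5 : ((c, i) : ι' × ℕ) = pf e (e.symm c, i) := by
      rw [pf]
      simp
    rw [mon_apply]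
    rw [h5, Finsupp.mapDomain_apply (pf_inj e.injective), mon_apply]
  rw [h4] at h2
  have h6 : (rename (pf e) (PowerSeries.coeff n W)).coeff ((mon m).mapDomain (pf e)) ∈ S := h2
  rw [coeff_rename_mapDomain _ (pf_inj e.injective)] at h6
  exact h6

end Cls

section Glue

variable {ι κ : Type*} [Fintype ι] [Fintype κ] [DecidableEq ι] [DecidableEq κ]

/-- All multisets on the first leg. -/
def clL (Cl : ι ⊕ κ → Set (Multiset ℕ)) : Option ι → Set (Multiset ℕ)
  | none => Set.univ
  | some a => Cl (Sum.inl a)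

/-- All multisets on the second leg. -/
def clR (Cl : ι ⊕ κ → Set (Multiset ℕ)) : Option κ → Set (Multiset ℕ)
  | none => Set.univ
  | some a => Cl (Sum.inr a)

/-- The gluing. -/
theorem glue_pos {J : Fam} (hJ : Orth J) (h0 : Unital J) {S : Subsemiring K} (halS : al ∈ S)
    (hinv : ∀ n : ℕ, ((n : K))⁻¹ ∈ S) {Cl : ι ⊕ κ → Set (Multiset ℕ)}
    (hD : ∀ a s t, s ≤ t → t ∈ Cl a → s ∈ Cl a)
    (hf : PosC J S (Option ι) (clL Cl)) (hg : PosC J S (Option κ) (clR Cl)) :
    PosC J S (ι ⊕ κ) Cl := by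
  intro W3 hW3 n m hm
  rcases Nat.eq_zero_or_pos n with rfl | hn
  · rw [hW3.zero, coeff_zero]
    exact S.zero_mem
  set bad : ι ⊕ κ → Set (ℕ → ℕ) := fun a => notCl (Cl a) with hbad
  have hb : UpCl bad := fun a x y hx hxy => notCl_up (Cl a) x y hx hxy
  obtain ⟨T, hT⟩ := exists_wick (F := K) (L := Option ι ⊕ Option κ) sw_sw al
  obtain ⟨W1, hW1⟩ := IsLog.exists_log al (tau_zero h0 (Option ι))
  obtain ⟨W2, hW2⟩ := IsLog.exists_log al (tau_zero h0 (Option κ))
  set r1 : MvPolynomial (Option ι × ℕ) K →ₐ[K] MvPolynomial ((Option ι ⊕ Option κ) × ℕ) K :=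
    rename (pf Sum.inl) with hr1
  set r2 : MvPolynomial (Option κ × ℕ) K →ₐ[K] MvPolynomial ((Option ι ⊕ Option κ) × ℕ) K :=
    rename (pf Sum.inr) with hr2
  have hL1 := isLog_rename (J := J) (ι' := Option ι ⊕ Option κ) Sum.inl hW1
  have hL2 := isLog_rename (J := J) (ι' := Option ι ⊕ Option κ) Sum.inr hW2
  have hW0 := hL1.mul hL2
  have hone : PowerSeries.coeff 0 (tt T.toAddMonoidHom (glue J ι κ)) = 1 := by
    rw [coeff_tt]
    have h1 : PowerSeries.coeff 0 (glue J ι κ) = 1 := hW0.one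
    rw [h1]
    exact hT.one
  obtain ⟨W, hW⟩ := IsLog.exists_log al hone
  have hE := hW.map (eps K ι κ).toRingHom
  rw [eps_glue hT hJ] at hE
  have hC : (eps K ι κ).toRingHom (C al) = C al := eps_C al
  rw [hC] at hE
  have huniq := (hW3.expand 2 two_ne_zero).unique hE
  have hcoef : PowerSeries.coeff n W3 = eps K ι κ (PowerSeries.coeff (2 * n) W) := by
    have h1 := congrArg (PowerSeries.coeff (2 * n)) huniq
    rw [PowerSeries.coeff_expand_mul, PowerSeries.coeff_map] at h1
    exact h1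
  have hW0c : ∀ j, PowerSeries.coeff j
      (PowerSeries.map r1.toRingHom W1 + PowerSeries.map r2.toRingHom W2)
      = r1 (PowerSeries.coeff j W1) + r2 (PowerSeries.coeff j W2) := by
    intro j
    rw [map_add, PowerSeries.coeff_map, PowerSeries.coeff_map]
    rfl
  have hmem : ∀ j, PowerSeries.coeff j
      (PowerSeries.map r1.toRingHom W1 + PowerSeries.map r2.toRingHom W2) ∈
        SS S (gb (lift bad)) (gb_add (lift_up hb)) := by
    intro j
    rw [hW0c]
    refine Subsemiring.add_mem _ ?_ ?_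
    · refine rename_mem Sum.inl_injective (badL_up hb) (lift_up hb) ?_
        (hf.ss h0 (badL_up hb) ?_ hW1 j)
      · intro c
        rcases c with _ | c
        · exact Set.Subset.rfl
        · exact Set.Subset.rfl
      · intro c s hs
        rcases c with _ | c
        · exact Set.mem_univ _
        · exact (notCl_iff (hD _) s).1 hs
    · refine rename_mem Sum.inr_injective (badR_up hb) (lift_up hb) ?_
        (hg.ss h0 (badR_up hb) ?_ hW2 j)
      · intro c
        rcases c with _ | c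
        · exact Set.Subset.rfl
        · exact Set.Subset.rfl
      · intro c s hs
        rcases c with _ | c
        · exact Set.mem_univ _
        · exact (notCl_iff (hD _) s).1 hs
  have hl : ∀ d ∈ gb (lift bad), d.filter (fun v => sw v.1 = v.1) ∈ gb (lift bad) := by
    refine gb_filter ?_
    intro b hb'
    rcases b with (_ | b) | (_ | b)
    · rfl
    · exact absurd rfl hb'
    · rfl
    · exact absurd rfl hb'
  have hnat : ∀ (j : ℕ) (P : MvPolynomial ((Option ι ⊕ Option κ) × ℕ) K),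
      P ∈ SS S (gb (lift bad)) (gb_add (lift_up hb)) →
      C (j : K) * P ∈ SS S (gb (lift bad)) (gb_add (lift_up hb)) :=
    fun j P hP => Subsemiring.mul_mem _ (C_mem (natCast_mem S j)) hP
  have h5 := coeff_UU_mem hT sw_sw al_ne_zero halS hl hW0 hW
    (fun v hv j => hnat v.2 _ (pderiv_mem hl hv (hmem j))) (2 * n)
    (zd (PowerSeries.map r1.toRingHom W1 + PowerSeries.map r2.toRingHom W2)) (fun j => by
      have h6 := hnat j _ (hmem j)
      rw [map_natCast] at h6
      rw [coeff_zd]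
      exact h6)
  have h7 : zd W = _ := UU_zd hT hW0 hW
  rw [← h7, coeff_zd] at h5
  have h8 : PowerSeries.coeff (2 * n) W ∈ SS S (gb (lift bad)) (gb_add (lift_up hb)) := by
    have h9 := Subsemiring.mul_mem _ (C_mem (hg := gb_add (lift_up hb)) (hinv (2 * n))) h5
    have h10 : ((2 * n : ℕ) : K) ≠ 0 := Nat.cast_ne_zero.2 (by omega)
    rw [← mul_assoc, ← map_natCast (C : K →+* MvPolynomial ((Option ι ⊕ Option κ) × ℕ) K),
      ← C_mul, inv_mul_cancel₀ h10, C_1, one_mul] at h9
    exact h9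
  rw [hcoef]
  refine eps_mem hb h8 (mon m) ?_
  rw [← good_iff]
  intro a
  exact (notCl_iff (hD a) _).2 (hm a)

end Glue

end Pool.Agent.JackB
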