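import Pool.Agent.Lib.JackB.Hook8

/-!
The coefficients of the logarithm at two hooks (problem MP_b52a9f_co).
-/

open MvPolynomial

namespace Pool.Agent.JackB

/-- At most one part is different from one. -/
def IsHook {n : ℕ} (l : n.Partition) : Prop := (l.parts.filter fun i => i ≠ 1).card ≤ 1

section Ext

variable {L : Type*}

theorem rr_sp (c : L) (m : Multiset ℕ) (hm : ∀ i ∈ m, 1 ≤ i) :
    rr (sp (X (c, 0)) (X (c, 1)) : ℕ → AA K L) m
      = (X (c, 1) + X (c, 0)) ^ (m.count 1) * X (c, 0) ^ ((m.filter fun i => i ≠ 1).card) := by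
  induction m using Multiset.induction_on with
  | empty => simp [rr]
  | cons i m ih =>
    rw [rr_cons, ih fun j hj => hm j (Multiset.mem_cons_of_mem hj)]
    by_cases hi : i = 1
    · subst hi
      have h1 : (1 ::ₘ m).filter (fun i => i ≠ 1) = m.filter fun i => i ≠ 1 := by simp
      rw [Multiset.count_cons_self, h1, sp_one]
      ring
    · have h1 : i ≠ 0 := by
        have := hm i (Multiset.mem_cons_self i m)
        omega
      have h2 : (i ::ₘ m).filter (fun i => i ≠ 1) = i ::ₘ m.filter fun i => i ≠ 1 := by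
        simp [hi]
      rw [Multiset.count_cons_of_ne (Ne.symm hi), h2, Multiset.card_cons, sp, if_neg h1,
        if_neg hi]
      ring

theorem rr_sp' (c : L) (m : Multiset ℕ) (hm : ∀ i ∈ m, 1 ≤ i) :
    rr (sp (X (c, 0)) (X (c, 1)) : ℕ → AA K L) m
      = ∑ k ∈ Finset.range (m.count 1 + 1), monomial (Finsupp.single (c, 1) k +
        Finsupp.single (c, 0) (m.count 1 - k + (m.filter fun i => i ≠ 1).card))
          (((m.count 1).choose k : ℕ) : K) := by
  rw [rr_sp c m hm, add_pow, Finset.sum_mul]
  refine Finset.sum_congr rfl fun k _ => ?_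
  rw [← map_natCast (C : K →+* AA K L), X_pow_eq_monomial, X_pow_eq_monomial, X_pow_eq_monomial,
    C_apply, monomial_mul, monomial_mul, monomial_mul, Finsupp.single_add]
  congr 1
  · rw [add_zero, add_assoc]
  · ring

end Ext

section Hk

variable {n : ℕ}

theorem card_split (m : Multiset ℕ) :
    m.count 1 + (m.filter fun i => i ≠ 1).card = m.card := by
  have h1 := congrArg Multiset.card (Multiset.filter_add_not (fun i => i = 1) m)
  rw [Multiset.card_add] at h1
  rw [← h1, Multiset.filter_eq', Multiset.card_replicate]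

theorem parts_split (m : Multiset ℕ) :
    m = Multiset.replicate (m.count 1) 1 + m.filter fun i => i ≠ 1 := by
  conv_lhs => rw [← Multiset.filter_add_not (fun i => i = 1) m]
  rw [Multiset.filter_eq']

/-- A partition with the number of parts of a hook, and enough parts one, is the hook. -/
theorem eq_of_hook {l l' : n.Partition} (hl : IsHook l) {k : ℕ}
    (hk : k ≤ l'.parts.count 1) (h1 : k = l.parts.count 1)
    (h2 : l'.parts.count 1 - k + (l'.parts.filter fun i => i ≠ 1).card
      = (l.parts.filter fun i => i ≠ 1).card) :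
    l' = l ∧ l'.parts.count 1 = k := by
  have e1 := parts_split l.parts
  have e2 := parts_split l'.parts
  have s1 := l.parts_sum
  have s2 := l'.parts_sum
  have hge : ∀ l : n.Partition, ∀ x ∈ l.parts.filter fun i => i ≠ 1, 2 ≤ x := by
    intro l x hx
    rw [Multiset.mem_filter] at hx
    have := l.parts_pos hx.1
    have := hx.2
    omega
  unfold IsHook at hl
  -- the remaining parts of `l`
  rcases Nat.lt_or_ge 0 (l'.parts.count 1 - k) with hc | hc
  · exfalso
    -- `l'` has only parts one
    have h3 : (l'.parts.filter fun i => i ≠ 1) = 0 := by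
      rw [← Multiset.card_eq_zero]
      omega
    have h4 : (l.parts.filter fun i => i ≠ 1).card = 1 := by omega
    obtain ⟨x, hx⟩ := Multiset.card_eq_one.1 h4
    have hx2 : 2 ≤ x := hge l x (by rw [hx]; exact Multiset.mem_singleton_self x)
    rw [e2, h3, Multiset.sum_add, Multiset.sum_replicate, Multiset.sum_zero, smul_eq_mul] at s2
    rw [e1, hx, Multiset.sum_add, Multiset.sum_replicate, Multiset.sum_singleton,
      smul_eq_mul] at s1
    have h5 : (Multiset.replicate (l'.parts.count 1) 1 + (0 : Multiset ℕ)).count 1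
        = l'.parts.count 1 := by
      rw [add_zero, Multiset.count_replicate_self]
    omega
  · have h3 : l'.parts.count 1 = k := by omega
    refine ⟨?_, h3⟩
    have h4 : (l'.parts.filter fun i => i ≠ 1).card = (l.parts.filter fun i => i ≠ 1).card := by
      omega
    have h5 : (l'.parts.filter fun i => i ≠ 1).sum = (l.parts.filter fun i => i ≠ 1).sum := by
      have s1' := congrArg Multiset.sum e1
      have s2' := congrArg Multiset.sum e2
      rw [Multiset.sum_add, Multiset.sum_replicate, smul_eq_mul, mul_one, s1] at s1'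
      rw [Multiset.sum_add, Multiset.sum_replicate, smul_eq_mul, mul_one, s2] at s2'
      omega
    have h6 : (l'.parts.filter fun i => i ≠ 1) = (l.parts.filter fun i => i ≠ 1) := by
      rcases Nat.eq_zero_or_pos (l.parts.filter fun i => i ≠ 1).card with h0 | h0
      · rw [h0] at h4
        rw [Multiset.card_eq_zero.1 h0, Multiset.card_eq_zero.1 h4]
      · have h7 : (l.parts.filter fun i => i ≠ 1).card = 1 := by omega
        rw [h7] at h4
        obtain ⟨x, hx⟩ := Multiset.card_eq_one.1 h7
        obtain ⟨y, hy⟩ := Multiset.card_eq_one.1 h4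
        rw [hx, hy, Multiset.sum_singleton, Multiset.sum_singleton] at h5
        rw [hx, hy, h5]
    refine Nat.Partition.ext ?_
    rw [e1, e2, h6, h3, h1]

end Hk

section Three

variable {J : Fam}

/-- The parameters in two alphabets. -/
noncomputable def kp (p q : Fin 3) : AA K (Fin 3) →ₐ[K] AA K (Fin 3) :=
  aeval fun v => if v.1 = p ∨ v.1 = q then sp (X (v.1, 0)) (X (v.1, 1)) v.2 else X v

theorem univ_three {a p q : Fin 3} (hpa : p ≠ a) (hqa : q ≠ a) (hpq : p ≠ q) :
    (Finset.univ : Finset (Fin 3)) = {a, p, q} := by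
  symm
  apply Finset.eq_univ_of_card
  rw [Finset.card_eq_three.2 ⟨a, p, q, hpa.symm, hqa.symm, hpq, rfl⟩]
  rfl

theorem prod_three {A : Type*} [CommMonoid A] {a p q : Fin 3} (hpa : p ≠ a) (hqa : q ≠ a)
    (hpq : p ≠ q) (F : Fin 3 → A) : ∏ c, F c = F a * (F p * F q) := by
  rw [univ_three hpa hqa hpq, Finset.prod_insert, Finset.prod_pair hpq]
  simp only [Finset.mem_insert, Finset.mem_singleton]
  rintro (h | h)
  · exact hpa h.symm
  · exact hqa h.symm

theorem kp_pm (p q c : Fin 3) (m : Multiset ℕ) : kp p q (pm K c m)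
    = if c = p ∨ c = q then rr (sp (X (c, 0)) (X (c, 1))) m else pm K c m := by
  induction m using Multiset.induction_on with
  | empty => simp [rr]
  | cons i m ih =>
    rw [pm_cons, map_mul, ih, kp, aeval_X]
    by_cases h : c = p ∨ c = q
    · rw [if_pos h, if_pos h, if_pos h, rr_cons]
    · rw [if_neg h, if_neg h, if_neg h]

theorem kp_tau {a p q : Fin 3} (hpa : p ≠ a) (hqa : q ≠ a) (hpq : p ≠ q) :
    PowerSeries.map (kp p q : AA K (Fin 3) →+* AA K (Fin 3)) (tau J (Fin 3))
      = PowerSeries.mk (tq J a (sp (X (p, 0)) (X (p, 1))) (sp (X (q, 0)) (X (q, 1)))) := by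
  ext1 n
  rw [PowerSeries.coeff_map, PowerSeries.coeff_mk, coeff_tau]
  show kp p q _ = _
  rw [tq, map_sum]
  refine Finset.sum_congr rfl fun th _ => ?_
  rw [map_mul, algHom_C, algebraMap_eq, prod_three hpa hqa hpq, map_mul, map_mul]
  have h1 : ∀ c, kp p q (Jp J th c) = if c = p ∨ c = q then
      Jr J th (sp (X (c, 0)) (X (c, 1))) else Jp J th c := by
    intro c
    rw [Jp_eq, map_sum]
    by_cases h : c = p ∨ c = q
    · rw [if_pos h, Jr]
      refine Finset.sum_congr rfl fun l _ => ?_
      rw [map_mul, algHom_C, algebraMap_eq, kp_pm, if_pos h]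
    · rw [if_neg h]
      refine Finset.sum_congr rfl fun l _ => ?_
      rw [map_mul, algHom_C, algebraMap_eq, kp_pm, if_neg h]
  rw [h1, h1, h1, if_neg, if_pos (Or.inl rfl), if_pos (Or.inr rfl)]
  · ring
  · rintro (h | h)
    · exact hpa h.symm
    · exact hqa h.symm

/-- The exponent carrying the coefficient at two hooks. -/
noncomputable def eh (a p q : Fin 3) {n : ℕ} (m : Fin 3 → n.Partition) : Fin 3 × ℕ →₀ ℕ :=
  ex a (m a).parts +
    ((Finsupp.single (p, 1) ((m p).parts.count 1) +
      Finsupp.single (p, 0) ((m p).parts.filter fun i => i ≠ 1).card) +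
    (Finsupp.single (q, 1) ((m q).parts.count 1) +
      Finsupp.single (q, 0) ((m q).parts.filter fun i => i ≠ 1).card))

theorem coeff_kp_mon {a p q : Fin 3} (hpa : p ≠ a) (hqa : q ≠ a) (hpq : p ≠ q) {n : ℕ}
    (m m' : Fin 3 → n.Partition) (hp : IsHook (m p)) (hq : IsHook (m q)) :
    (kp p q (monomial (mon m') 1)).coeff (eh a p q m) = if m' = m then 1 else 0 := by
  classical
  have h0 : (monomial (mon m') (1 : K)) = pm K a (m' a).parts * (pm K p (m' p).parts *
      pm K q (m' q).parts) := by
    rw [mon_eq, monomial_sum_one, prod_three hpa hqa hpq, pm_eq_monomial, pm_eq_monomial,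
      pm_eq_monomial]
  have ha : ¬ (a = p ∨ a = q) := by
    rintro (h | h)
    · exact hpa h.symm
    · exact hqa h.symm
  rw [h0, map_mul, map_mul, kp_pm, kp_pm, kp_pm, if_neg ha, if_pos (Or.inl rfl),
    if_pos (Or.inr rfl), rr_sp' p _ fun i hi => (m' p).parts_pos hi,
    rr_sp' q _ fun i hi => (m' q).parts_pos hi, pm_eq_monomial, Finset.sum_mul_sum,
    Finset.mul_sum, coeff_sum]
  have h1 : ∀ k ∈ Finset.range ((m' p).parts.count 1 + 1),
      ∀ k' ∈ Finset.range ((m' q).parts.count 1 + 1),
      coeff (eh a p q m) (monomial (ex a (m' a).parts) (1 : K) *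
        (monomial (Finsupp.single (p, 1) k + Finsupp.single (p, 0) ((m' p).parts.count 1 - k +
          ((m' p).parts.filter fun i => i ≠ 1).card)) ((((m' p).parts.count 1).choose k : ℕ) : K) *
        monomial (Finsupp.single (q, 1) k' + Finsupp.single (q, 0) ((m' q).parts.count 1 - k' +
          ((m' q).parts.filter fun i => i ≠ 1).card)) ((((m' q).parts.count 1).choose k' : ℕ) : K)))
      = if m' = m ∧ k = (m p).parts.count 1 ∧ k' = (m q).parts.count 1 then 1 else 0 := by
    intro k hk k' hk'
    rw [Finset.mem_range] at hk hk'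
    rw [monomial_mul, monomial_mul, one_mul, coeff_monomial]
    by_cases h : m' = m ∧ k = (m p).parts.count 1 ∧ k' = (m q).parts.count 1
    · obtain ⟨rfl, rfl, rfl⟩ := h
      rw [if_pos, if_pos ⟨rfl, rfl, rfl⟩, Nat.choose_self, Nat.choose_self, Nat.cast_one, mul_one]
      rw [eh, Nat.sub_self, zero_add, Nat.sub_self, zero_add]
    · rw [if_neg h, if_neg]
      intro he
      apply h
      have ev : ∀ v : Fin 3 × ℕ, _ = _ := fun v => DFunLike.congr_fun he v
      have n1 : ¬ a = p := hpa.symm
      have n2 : ¬ a = q := hqa.symm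
      have n3 : ¬ q = p := hpq.symm
      have n4 : ¬ p = q := hpq
      have n5 : ¬ p = a := hpa
      have n6 : ¬ q = a := hqa
      have n7 : ¬ (1 : ℕ) = 0 := one_ne_zero
      have n8 : ¬ (0 : ℕ) = 1 := zero_ne_one
      have p1 := ev (p, 1)
      have p0 := ev (p, 0)
      have q1 := ev (q, 1)
      have q0 := ev (q, 0)
      simp only [eh, Finsupp.add_apply, ex_apply, Finsupp.single_apply, Prod.mk.injEq, n1, n2, n3,
        n4, n7, n8, if_false, if_true, and_true, and_false, zero_add, add_zero, and_self]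
        at p1 p0 q1 q0
      obtain ⟨e1, _⟩ := eq_of_hook hp (k := k) (by omega) p1 p0
      obtain ⟨e2, _⟩ := eq_of_hook hq (k := k') (by omega) q1 q0
      have e3 : m' a = m a := by
        refine Nat.Partition.ext (Multiset.ext.2 fun i => ?_)
        have a1 := ev (a, i)
        simp only [eh, Finsupp.add_apply, ex_apply, Finsupp.single_apply, Prod.mk.injEq, n5, n6,
          if_false, if_true, false_and, add_zero] at a1
        exact a1
      refine ⟨?_, p1, q1⟩
      funext c
      have hc : c ∈ ({a, p, q} : Finset (Fin 3)) := by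
        rw [← univ_three hpa hqa hpq]
        exact Finset.mem_univ c
      simp only [Finset.mem_insert, Finset.mem_singleton] at hc
      rcases hc with rfl | rfl | rfl
      · exact e3
      · exact e1
      · exact e2
  have h2 : ∀ k ∈ Finset.range ((m' p).parts.count 1 + 1),
      coeff (eh a p q m) (monomial (ex a (m' a).parts) (1 : K) *
        ∑ k' ∈ Finset.range ((m' q).parts.count 1 + 1),
        (monomial (Finsupp.single (p, 1) k + Finsupp.single (p, 0) ((m' p).parts.count 1 - k +
          ((m' p).parts.filter fun i => i ≠ 1).card)) ((((m' p).parts.count 1).choose k : ℕ) : K) *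
        monomial (Finsupp.single (q, 1) k' + Finsupp.single (q, 0) ((m' q).parts.count 1 - k' +
          ((m' q).parts.filter fun i => i ≠ 1).card)) ((((m' q).parts.count 1).choose k' : ℕ) : K)))
      = if m' = m ∧ k = (m p).parts.count 1 then 1 else 0 := by
    intro k hk
    rw [Finset.mul_sum, coeff_sum, Finset.sum_congr rfl fun k' hk' => h1 k hk k' hk']
    by_cases h : m' = m ∧ k = (m p).parts.count 1
    · rw [if_pos h, Finset.sum_eq_single ((m q).parts.count 1)]
      · rw [if_pos ⟨h.1, h.2, rfl⟩]
      · intro k' _ hk'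
        rw [if_neg fun h' => hk' h'.2.2]
      · intro h'
        rw [h.1] at h'
        exact absurd (Finset.mem_range.2 (Nat.lt_succ_self _)) h'
    · rw [if_neg h]
      refine Finset.sum_eq_zero fun k' _ => ?_
      rw [if_neg fun h' => h ⟨h'.1, h'.2.1⟩]
  rw [Finset.sum_congr rfl h2]
  by_cases h : m' = m
  · rw [if_pos h, Finset.sum_eq_single ((m p).parts.count 1)]
    · rw [if_pos ⟨h, rfl⟩]
    · intro k _ hk
      rw [if_neg fun h' => hk h'.2]
    · intro h'
      rw [h] at h'
      exact absurd (Finset.mem_range.2 (Nat.lt_succ_self _)) h'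
  · rw [if_neg h]
    refine Finset.sum_eq_zero fun k _ => ?_
    rw [if_neg fun h' => h h'.1]

/-- The coefficient at two hooks. -/
theorem coeff_kp {a p q : Fin 3} (hpa : p ≠ a) (hqa : q ≠ a) (hpq : p ≠ q) {n : ℕ}
    (m : Fin 3 → n.Partition) (hp : IsHook (m p)) (hq : IsHook (m q))
    {P : AA K (Fin 3)} (hP : Hom n P) :
    (kp p q P).coeff (eh a p q m) = P.coeff (mon m) := by
  classical
  have h1 : kp p q P = ∑ d ∈ P.support, kp p q (monomial d (coeff d P)) := by
    conv_lhs => rw [P.as_sum]
    rw [map_sum]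
  rw [h1, coeff_sum]
  have h2 : ∀ d ∈ P.support, (kp p q (monomial d (coeff d P))).coeff (eh a p q m)
      = if d = mon m then P.coeff (mon m) else 0 := by
    intro d hd
    obtain ⟨m', rfl⟩ := hP d (mem_support_iff.1 hd)
    have h3 : (monomial (mon m') (coeff (mon m') P) : AA K (Fin 3))
        = C (coeff (mon m') P) * monomial (mon m') 1 := by
      rw [C_mul_monomial, mul_one]
    rw [h3, map_mul, algHom_C, algebraMap_eq, coeff_C_mul,
      coeff_kp_mon hpa hqa hpq m m' hp hq]
    by_cases h : m' = m
    · rw [if_pos h, h, if_pos rfl, mul_one]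
    · rw [if_neg h, mul_zero, if_neg]
      intro h4
      apply h
      funext c
      refine Nat.Partition.ext (Multiset.ext.2 fun i => ?_)
      rw [← mon_apply m' c i, h4, mon_apply]
  rw [Finset.sum_congr rfl h2, Finset.sum_ite_eq']
  split_ifs with h
  · rfl
  · exact (notMem_support_iff.1 h).symm

/-- Positivity of the logarithm at two hooks. -/
theorem log_hook (hJ : JOK J) (h0 : Unital J) {a p q : Fin 3} (hE : Eig J a)
    (hpa : p ≠ a) (hqa : q ≠ a) (hpq : p ≠ q)
    {S : Subsemiring K} (hal : al ∈ S) (hb : al - 1 ∈ S) (hinv : ∀ n : ℕ, ((n : K))⁻¹ ∈ S)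
    {W : PowerSeries (AA K (Fin 3))} (hW : IsLog (C al) (tau J (Fin 3)) W) {n : ℕ}
    (m : Fin 3 → n.Partition) (hp : IsHook (m p)) (hq : IsHook (m q)) :
    (PowerSeries.coeff n W).coeff (mon m) ∈ S := by
  have h1 := hW.map (kp p q : AA K (Fin 3) →+* AA K (Fin 3))
  have h2 : (kp p q : AA K (Fin 3) →+* AA K (Fin 3)) (C al) = C al := by
    show kp p q (C al) = _
    rw [algHom_C, algebraMap_eq]
  rw [h2, kp_tau hpa hqa hpq] at h1
  have h3 := W_pos hJ hE hal hb hinv hpa hqa hpq h1 n
  rw [PowerSeries.coeff_map] at h3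
  have h4 := h3 (eh a p q m) (Set.notMem_empty _)
  have h5 : (kp p q (PowerSeries.coeff n W)).coeff (eh a p q m) ∈ S := h4
  rw [coeff_kp hpa hqa hpq m hp hq (hom_log h0 hW n)] at h5
  exact h5

end Three

end Pool.Agent.JackB
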