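import Pool.Agent.Lib.JackB.Prof1

/-!
Positivity for the profiles `(n)` and `(n, 1)` (problem MP_b52a9f_co).
-/

open MvPolynomial

namespace Pool.Agent.JackB

section Kz

variable {L : Type*}

/-- The algebra map killing the variables in `Z`. -/
noncomputable def kz (Z : Set (L × ℕ)) : AA K L →ₐ[K] AA K L := by
  classical exact aeval fun v => if v ∈ Z then 0 else X v

theorem kz_mem {Z : Set (L × ℕ)} {v : L × ℕ} (h : v ∈ Z) : kz Z (X v) = 0 := by
  rw [kz, aeval_X, if_pos h]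

theorem kz_notMem {Z : Set (L × ℕ)} {v : L × ℕ} (h : v ∉ Z) : kz Z (X v) = X v := by
  rw [kz, aeval_X, if_neg h]

theorem kz_C (Z : Set (L × ℕ)) (x : K) : kz Z (C x) = C x := by
  rw [algHom_C, algebraMap_eq]

/-- The coefficients away from `Z`. -/
theorem coeff_kz (Z : Set (L × ℕ)) {d : L × ℕ →₀ ℕ} (hd : ∀ v ∈ Z, d v = 0) (f : AA K L) :
    (kz Z f).coeff d = f.coeff d := by
  classical
  induction f using MvPolynomial.induction_on generalizing d with
  | C x => rw [kz_C]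
  | add p q hp hq => rw [map_add, coeff_add, coeff_add, hp hd, hq hd]
  | mul_X p v hp =>
    rw [map_mul]
    by_cases hv : v ∈ Z
    · rw [kz_mem hv, mul_zero, coeff_zero, coeff_mul_X', if_neg]
      rw [Finsupp.mem_support_iff, not_not]
      exact hd v hv
    · rw [kz_notMem hv, coeff_mul_X', coeff_mul_X']
      split_ifs with h
      · refine hp fun w hw => ?_
        rw [Finsupp.tsub_apply, hd w hw, Nat.zero_sub]
      · rfl

theorem pd_comm (u v : L × ℕ) (f : AA K L) : pderiv u (pderiv v f) = pderiv v (pderiv u f) := by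
  classical
  have h : ⁅(pderiv u : Derivation K (AA K L) (AA K L)),
      (pderiv v : Derivation K (AA K L) (AA K L))⁆ = 0 := by
    refine MvPolynomial.derivation_ext fun i => ?_
    rw [Derivation.commutator_apply, pderiv_X, pderiv_X, Derivation.zero_apply]
    have h1 : ∀ (w u : L × ℕ), pderiv (R := K) w (Pi.single (M := fun _ => AA K L) u 1 i) = 0 := by
      intro w u
      by_cases hi : i = u
      · rw [hi, Pi.single_eq_same, pderiv_one]
      · rw [Pi.single_eq_of_ne hi, map_zero]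
    rw [h1, h1, sub_zero]
  have h2 := DFunLike.congr_fun h f
  rw [Derivation.commutator_apply, Derivation.zero_apply] at h2
  exact sub_eq_zero.1 h2

theorem kz_pderiv {Z : Set (L × ℕ)} {v : L × ℕ} (hv : v ∉ Z) (f : AA K L) :
    kz Z (pderiv v f) = pderiv v (kz Z f) := by
  classical
  induction f using MvPolynomial.induction_on with
  | C x => rw [kz_C, pderiv_C, map_zero]
  | add p q hp hq => rw [map_add, map_add, map_add, map_add, hp, hq]
  | mul_X p w hp =>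
    have h1 : kz Z (pderiv v (X w)) = pderiv v (kz Z (X w)) := by
      by_cases hw : w ∈ Z
      · have h2 : w ≠ v := fun h => hv (h ▸ hw)
        rw [kz_mem hw, map_zero, pderiv_X_of_ne h2, map_zero]
      · rw [kz_notMem hw, pderiv_X]
        by_cases h2 : w = v
        · rw [h2, Pi.single_eq_same, map_one]
        · rw [Pi.single_eq_of_ne h2, map_zero]
    rw [pderiv_mul, map_add, map_mul, map_mul, map_mul, pderiv_mul, hp, h1]

end Kz

section Ev

variable {L : Type*} [DecidableEq L] {a c ρ : L}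

/-- The coefficient of the first power of the variable `(ρ, 0)`. -/
noncomputable def Fi (ρ : L) : AA K L →ₗ[K] AA K L :=
  (kz {((ρ, 0) : L × ℕ)}).toLinearMap ∘ₗ (pderiv (R := K) (ρ, 0)).toLinearMap

omit [DecidableEq L] in
theorem Fi_apply (f : AA K L) : Fi ρ f = kz {(ρ, 0)} (pderiv (ρ, 0) f) := rfl

/-- The value at zero of the variable `(ρ, 0)`. -/
noncomputable def Ev (ρ : L) : AA K L →ₗ[K] AA K L := (kz {((ρ, 0) : L × ℕ)}).toLinearMap

omit [DecidableEq L] in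
theorem Ev_apply (f : AA K L) : Ev ρ f = kz {(ρ, 0)} f := rfl

omit [DecidableEq L] in
theorem ne_Z (h : ρ ≠ a) (i : ℕ) : ((a, i) : L × ℕ) ∉ ({(ρ, 0)} : Set (L × ℕ)) := by
  rw [Set.mem_singleton_iff]
  intro h1
  exact h (Prod.ext_iff.1 h1).1.symm

omit [DecidableEq L] in
theorem Fi_mul (f g : AA K L) : Fi ρ (f * g) = Fi ρ f * Ev ρ g + Ev ρ f * Fi ρ g := by
  rw [Fi_apply, pderiv_mul, map_add, map_mul, map_mul]
  rfl

omit [DecidableEq L] in
theorem Ev_mul (f g : AA K L) : Ev ρ (f * g) = Ev ρ f * Ev ρ g := by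
  rw [Ev_apply, map_mul]
  rfl

omit [DecidableEq L] in
theorem Ev_X (h : ρ ≠ a) (i : ℕ) : Ev ρ (X (a, i)) = X (a, i) := kz_notMem (ne_Z h i)

omit [DecidableEq L] in
theorem Fi_X (h : ρ ≠ a) (i : ℕ) : Fi ρ (X (a, i)) = 0 := by
  rw [Fi_apply, pderiv_X_of_ne, map_zero]
  intro h1
  exact h (Prod.ext_iff.1 h1).1.symm

omit [DecidableEq L] in
theorem Ev_e : Ev ρ (X (ρ, 0)) = 0 := kz_mem (Set.mem_singleton _)

omit [DecidableEq L] in
theorem Fi_e : Fi ρ (X (ρ, 0)) = 1 := by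
  rw [Fi_apply, pderiv_X_self, map_one]

omit [DecidableEq L] in
theorem Fi_one : Fi ρ (1 : AA K L) = 0 := by
  rw [Fi_apply, pderiv_one, map_zero]

omit [DecidableEq L] in
theorem Ev_one : Ev ρ (1 : AA K L) = 1 := by
  rw [Ev_apply, map_one]

omit [DecidableEq L] in
theorem ok_Ev (h : ρ ≠ a) : Ok a (Ev ρ) where
  pd := fun i f => kz_pderiv (ne_Z h i) f
  mx := fun i f => by rw [Ev_mul, Ev_X h]

omit [DecidableEq L] in
theorem ok_Fi (h : ρ ≠ a) : Ok a (Fi ρ) where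
  pd := fun i f => by rw [Fi_apply, Fi_apply, pd_comm, kz_pderiv (ne_Z h i)]
  mx := fun i f => by rw [Fi_mul, Ev_X h, Fi_X h, zero_mul, zero_add]

omit [DecidableEq L] in
theorem cw_Fi_e (u : VV K L) : cw (Fi ρ) (Polynomial.C (X (ρ, 0)) * u) = cw (Ev ρ) u := by
  have : cw (Fi ρ) ∘ₗ LinearMap.mulLeft K (Polynomial.C (X (ρ, 0))) = cw (Ev ρ) := by
    refine vext fun m f => ?_
    rw [LinearMap.comp_apply, LinearMap.mulLeft_apply, C_mul_mo, cw_mo, cw_mo, Fi_mul, Fi_e, Ev_e,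
      one_mul, zero_mul, add_zero]
  exact LinearMap.congr_fun this u

omit [DecidableEq L] in
theorem cw_Ev_e (u : VV K L) : cw (Ev ρ) (Polynomial.C (X (ρ, 0)) * u) = 0 := by
  have : cw (Ev ρ) ∘ₗ LinearMap.mulLeft K (Polynomial.C (X (ρ, 0))) = 0 := by
    refine vext fun m f => ?_
    rw [LinearMap.comp_apply, LinearMap.mulLeft_apply, C_mul_mo, cw_mo, Ev_mul, Ev_e, zero_mul,
      map_zero, LinearMap.zero_apply]
  exact LinearMap.congr_fun this u

omit [DecidableEq L] in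
theorem cw_Fi_C (h : ρ ≠ c) (i : ℕ) (u : VV K L) :
    cw (Fi ρ) (Polynomial.C (X (c, i)) * u) = Polynomial.C (X (c, i)) * cw (Fi ρ) u := by
  have : cw (Fi ρ) ∘ₗ LinearMap.mulLeft K (Polynomial.C (X (c, i)))
      = LinearMap.mulLeft K (Polynomial.C (X (c, i))) ∘ₗ cw (Fi ρ) := by
    refine vext fun m f => ?_
    rw [LinearMap.comp_apply, LinearMap.comp_apply, LinearMap.mulLeft_apply,
      LinearMap.mulLeft_apply, C_mul_mo, cw_mo, cw_mo, (ok_Fi h).mx, C_mul_mo]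
  exact LinearMap.congr_fun this u

end Ev

section Top

variable {J : Fam} {L : Type*} [DecidableEq L] {a c ρ : L} {P0 Q0 : AA K L →ₗ[K] AA K L}
  {P Q : VV K L →ₗ[K] VV K L}

omit [DecidableEq L] in
theorem rr_sp_zero (e : AA K L) (m : Multiset ℕ) (hm : ∀ i ∈ m, 1 ≤ i) :
    rr (sp e 0) m = e ^ m.card := by
  have h1 : rr (sp e 0) m = (m.map fun _ => e).prod := by
    rw [rr]
    refine congrArg Multiset.prod (Multiset.map_congr rfl fun i hi => ?_)
    have h2 := hm i hi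
    rw [sp, if_neg (by omega)]
    split_ifs <;> rw [add_zero]
  rw [h1, Multiset.map_const', Multiset.prod_replicate]

omit [DecidableEq L] in
theorem Ev_pow (k : ℕ) : Ev ρ ((X (ρ, 0) : AA K L) ^ (k + 1)) = 0 := by
  rw [pow_succ, Ev_mul, Ev_e, mul_zero]

omit [DecidableEq L] in
theorem Fi_pow (k : ℕ) : Fi ρ ((X (ρ, 0) : AA K L) ^ k) = if k = 1 then 1 else 0 := by
  rcases k with _ | _ | k
  · rw [pow_zero, Fi_one, if_neg (by omega)]
  · rw [zero_add, pow_one, Fi_e, if_pos rfl]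
  · rw [pow_succ, Fi_mul, Ev_e, mul_zero, Ev_pow, zero_mul, add_zero, if_neg (by omega)]

omit [DecidableEq L] in
theorem Fi_C_mul (x : K) (f : AA K L) : Fi ρ (C x * f) = C x * Fi ρ f := by
  rw [← smul_eq_C_mul, map_smul, smul_eq_C_mul]

omit [DecidableEq L] in
theorem Ev_C_mul (x : K) (f : AA K L) : Ev ρ (C x * f) = C x * Ev ρ f := by
  rw [← smul_eq_C_mul, map_smul, smul_eq_C_mul]

omit [DecidableEq L] in
theorem Fi_pm (h : ρ ≠ a) (m : Multiset ℕ) (f : AA K L) :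
    Fi ρ (pm K a m * f) = pm K a m * Fi ρ f := by
  induction m using Multiset.induction_on with
  | empty => rw [pm_zero, one_mul, one_mul]
  | cons i m ih => rw [pm_cons, mul_assoc, (ok_Fi h).mx, ih, mul_assoc]

omit [DecidableEq L] in
/-- The linear term of the exponential vectors. -/
theorem Fi_vv (h : ρ ≠ a) {n : ℕ} (hn : 1 ≤ n) :
    Fi ρ (vv al a (sp (X (ρ, 0)) 0) n) = C (al * (n : K))⁻¹ * X (a, n) := by
  have hn0 : n ≠ 0 := by omega
  have h1 : ∀ l : n.Partition, Fi ρ (C ((zz l.parts : K) * al ^ l.parts.card)⁻¹ *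
      (pm K a l.parts * rr (sp (X (ρ, 0)) 0) l.parts))
      = C ((zz l.parts : K) * al ^ l.parts.card)⁻¹ *
        (pm K a l.parts * if l.parts.card = 1 then 1 else 0) := by
    intro l
    rw [Fi_C_mul, Fi_pm h, rr_sp_zero _ _ fun i hi => l.parts_pos hi, Fi_pow]
  rw [vv, map_sum, Finset.sum_congr rfl fun l _ => h1 l,
    Finset.sum_eq_single (Nat.Partition.indiscrete n)]
  · rw [Nat.Partition.indiscrete_parts hn0, Multiset.card_singleton, if_pos rfl, mul_one, pow_one]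
    have h2 : zz ({n} : Multiset ℕ) = n := by
      have h3 := zz_cons n 0
      rw [Multiset.cons_zero] at h3
      rw [h3]
      simp [zz]
    have h4 : pm K a ({n} : Multiset ℕ) = X (a, n) := by
      have h3 := pm_cons (F := K) a n 0
      rw [Multiset.cons_zero, pm_zero, mul_one] at h3
      exact h3
    rw [h2, h4, mul_comm al]
  · intro l _ hl
    rw [if_neg, mul_zero, mul_zero]
    intro h2
    apply hl
    obtain ⟨x, hx⟩ := Multiset.card_eq_one.1 h2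
    refine Nat.Partition.ext ?_
    rw [Nat.Partition.indiscrete_parts hn0]
    have h3 := l.parts_sum
    rw [hx, Multiset.sum_singleton] at h3
    rw [hx, h3]
  · intro h2
    exact absurd (Finset.mem_univ _) h2

theorem Fi_Q0 (hJ : JOK J) (hca : c ≠ a) (hra : ρ ≠ a) (hrc : ρ ≠ c) (hQ : IsP J a (qq c) Q0 Q)
    (f : AA K L) : Q0 (Fi ρ f) = Fi ρ (Q0 f) := by
  have h1 : ∀ j, pderiv (ρ, 0) (qq c j : AA K L) = 0 := by
    intro j
    unfold qq
    split_ifs
    · exact map_zero _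
    · refine pderiv_X_of_ne fun h => hrc (Prod.ext_iff.1 h).1.symm
  have h2 := P0_pderiv hJ hra h1 hQ.P1 hQ.P2 f
  rw [Fi_apply, Fi_apply, ← h2]
  refine P0_hom hJ hQ.P1 hQ.P2 _ (fun i _ => kz_notMem (ne_Z hra i)) (fun v hv => ?_)
    (fun i => ?_) _
  · by_cases h3 : v ∈ ({(ρ, 0)} : Set (L × ℕ))
    · rw [kz_mem h3]
      exact (Gp K a).zero_mem
    · rw [kz_notMem h3]
      exact Gp_X hv
  · unfold qq
    split_ifs
    · exact map_zero _
    · exact kz_notMem (ne_Z hrc i)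

/-- The vectors `P (vv Y ^ m)`. -/
noncomputable def wv (a c : L) (P : VV K L →ₗ[K] VV K L) (m j : ℕ) : VV K L :=
  P (mo m (vv al a (qq c) j))

omit [DecidableEq L] in
theorem e_Gp (hra : ρ ≠ a) : (X (ρ, 0) : AA K L) ∈ Gp K a := Gp_X fun h => absurd h hra

theorem wv_succ (hJ : JOK J) (hE : Eig J a) (hra : ρ ≠ a)
    (hP : IsP J a (sp (X (ρ, 0)) 0) P0 P) (m j : ℕ) :
    wv a c P (m + 1) j = Yp (LX al (al - 1) a (wv a c P m j) +
      Polynomial.C (X (ρ, 0)) * wv a c P m j) := by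
  rw [wv, ← Yp_mo, hP.lift.Yp, nat_Pe hJ hE (e_Gp hra) hP]
  rfl

theorem wv_zero (hJ : JOK J) (hca : c ≠ a) (hP : IsP J a (sp (X (ρ, 0)) 0) P0 P) (j : ℕ) :
    wv a c P 0 j = mo 0 (tq J a (sp (X (ρ, 0)) 0) (qq c) j) := by
  rw [wv, hP.lift.mo, hP.tq hJ (qq_Gp hca)]

/-- The derivatives of the series with respect to the second alphabet. -/
theorem pderiv_tq (hJ : JOK J) (hE : Eig J a) (hca : c ≠ a) (hra : ρ ≠ a) (hrc : ρ ≠ c)
    (hP : IsP J a (sp (X (ρ, 0)) 0) P0 P) (m n : ℕ) :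
    C (al * ((m + 1 : ℕ) : K)) * pderiv (c, m + 1) (tq J a (sp (X (ρ, 0)) 0) (qq c) n)
      = if m + 1 ≤ n then Th1 a (LX al (al - 1) a (wv a c P m (n - (m + 1))) +
        Polynomial.C (X (ρ, 0)) * wv a c P m (n - (m + 1))) else 0 := by
  have hr : ∀ j, pderiv (c, m + 1) (sp (X (ρ, 0)) 0 j : AA K L) = 0 := by
    intro j
    have h1 : pderiv (c, m + 1) (X (ρ, 0) : AA K L) = 0 :=
      pderiv_X_of_ne fun h => hrc (Prod.ext_iff.1 h).1
    unfold sp
    split_ifs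
    · exact map_zero _
    · rw [map_add, h1, map_zero, add_zero]
    · rw [map_add, h1, map_zero, add_zero]
  have h2 : ∀ j, pderiv (c, m + 1) (X (a, j) : AA K L) = 0 := by
    intro j
    exact pderiv_X_of_ne fun h => hca (Prod.ext_iff.1 h).1.symm
  have h3 := pderiv_vv al_ne_zero (Nat.succ_le_succ (Nat.zero_le m)) h2 n
  rw [← hP.tq hJ (qq_Gp hca), vv_qq, vv_symm, ← P0_pderiv hJ hca hr hP.P1 hP.P2, ← smul_eq_C_mul,
    ← map_smul, smul_eq_C_mul, h3]
  split_ifs with h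
  · rw [← vv_symm, ← vv_qq]
    have h4 : (X (a, m + 1) * vv al a (qq c) (n - (m + 1)) : AA K L)
        = Th1 a (mo m (vv al a (qq c) (n - (m + 1)))) := by
      rw [Th1_mo]
    rw [h4, ← nat_Th1 hP.lift, nat_Pe hJ hE (e_Gp hra) hP]
    rfl
  · exact map_zero _

theorem Ev_tq (hJ : JOK J) (hca : c ≠ a) (hra : ρ ≠ a) (hP : IsP J a (sp (X (ρ, 0)) 0) P0 P)
    (n : ℕ) : Ev ρ (tq J a (sp (X (ρ, 0)) 0) (qq c) n) = if n = 0 then 1 else 0 := by
  rcases Nat.eq_zero_or_pos n with rfl | hn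
  · have h1 := P0_e hJ hP.P1 0
    rw [vv_zero, vv_zero] at h1
    rw [← hP.tq hJ (qq_Gp hca), vv_zero, h1, Ev_one, if_pos rfl]
  · rw [if_neg (by omega), tq, map_sum]
    refine Finset.sum_eq_zero fun th _ => ?_
    have h1 : Ev ρ (Jr J th (sp (X (ρ, 0)) 0)) = 0 := by
      rw [Ev_apply, hom_Jr, Jr]
      refine Finset.sum_eq_zero fun l _ => ?_
      have h2 : ∀ i, kz {((ρ, 0) : L × ℕ)} (sp (X (ρ, 0)) 0 i) = 0 := by
        intro i
        unfold sp
        split_ifs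
        · exact map_zero _
        · rw [map_add, kz_mem (Set.mem_singleton _), map_zero, add_zero]
        · rw [map_add, kz_mem (Set.mem_singleton _), map_zero, add_zero]
      have h3 : rr (fun i => kz {((ρ, 0) : L × ℕ)} (sp (X (ρ, 0)) 0 i)) l.parts = 0 := by
        rw [rr]
        have h4 : l.parts ≠ 0 := by
          intro h5
          have h6 := l.parts_sum
          rw [h5, Multiset.sum_zero] at h6
          omega
        obtain ⟨x, hx⟩ := Multiset.exists_mem_of_ne_zero h4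
        rw [← Multiset.cons_erase hx, Multiset.map_cons, Multiset.prod_cons, h2, zero_mul]
      rw [h3, mul_zero]
    rw [Ev_C_mul, Ev_mul, h1, zero_mul, mul_zero]

/-- The values at zero and the linear terms of the vectors `wv`. -/
theorem A_zero (hJ : JOK J) (hca : c ≠ a) (hra : ρ ≠ a) (hP : IsP J a (sp (X (ρ, 0)) 0) P0 P)
    (j : ℕ) : cw (Ev ρ) (wv a c P 0 j) = mo 0 (if j = 0 then 1 else 0) := by
  rw [wv_zero hJ hca hP, cw_mo, Ev_tq hJ hca hra hP]

theorem A_succ (hJ : JOK J) (hE : Eig J a) (hca : c ≠ a) (hra : ρ ≠ a)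
    (hP : IsP J a (sp (X (ρ, 0)) 0) P0 P) (m j : ℕ) :
    cw (Ev ρ) (wv a c P (m + 1) j) = 0 := by
  have h1 : ∀ m, cw (Ev ρ) (wv a c P (m + 1) j)
      = Yp (LX al (al - 1) a (cw (Ev ρ) (wv a c P m j))) := by
    intro m
    rw [wv_succ hJ hE hra hP, cw_Yp, map_add, cw_Ev_e, add_zero, cw_LX (ok_Ev hra)]
  induction m with
  | zero =>
    rw [h1, A_zero hJ hca hra hP, LX_zero]
    split_ifs
    · rw [Derivation.map_one_eq_zero, map_zero]
    · rw [map_zero, map_zero]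
  | succ m ih => rw [h1, ih, map_zero, map_zero]

theorem B_succ (hJ : JOK J) (hE : Eig J a) (hra : ρ ≠ a)
    (hP : IsP J a (sp (X (ρ, 0)) 0) P0 P) (m j : ℕ) :
    cw (Fi ρ) (wv a c P (m + 1) j) = Yp (LX al (al - 1) a (cw (Fi ρ) (wv a c P m j)) +
      cw (Ev ρ) (wv a c P m j)) := by
  rw [wv_succ hJ hE hra hP, cw_Yp, map_add, cw_Fi_e, cw_LX (ok_Fi hra)]

variable {S : Subsemiring K}

omit [DecidableEq L] in
theorem Yp_PV {u : VV K L} (hu : u ∈ PV S L) : Yp u ∈ PV S L := by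
  rw [Yp_apply]
  refine (PV S L).mul_mem ?_ hu
  have h1 : (Polynomial.X : VV K L) = mo 1 1 := by
    rw [mo_apply, Polynomial.monomial_one_one_eq_X]
  rw [h1]
  exact mo_PV (PS S L).one_mem 1

theorem A_PV (hJ : JOK J) (hE : Eig J a) (hca : c ≠ a) (hra : ρ ≠ a)
    (hP : IsP J a (sp (X (ρ, 0)) 0) P0 P) (m j : ℕ) : cw (Ev ρ) (wv a c P m j) ∈ PV S L := by
  cases m with
  | zero =>
    rw [A_zero hJ hca hra hP]
    refine mo_PV ?_ 0
    split_ifs
    · exact (PS S L).one_mem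
    · exact (PS S L).zero_mem
  | succ m =>
    rw [A_succ hJ hE hca hra hP]
    exact (PV S L).zero_mem

/-- The linear term of the series. -/
noncomputable def Tn (J : Fam) (a c ρ : L) (n : ℕ) : AA K L :=
  Fi ρ (tq J a (sp (X (ρ, 0)) 0) (qq c) n)

theorem LB_PV (hJ : JOK J) (hE : Eig J a) (hca : c ≠ a) (hra : ρ ≠ a)
    (hP : IsP J a (sp (X (ρ, 0)) 0) P0 P) (hal : al ∈ S) (hb : al - 1 ∈ S) {j : ℕ}
    (h : C al * Tn J a c ρ j ∈ PS S L) (m : ℕ) :
    LX al (al - 1) a (cw (Fi ρ) (wv a c P m j)) ∈ PV S L := by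
  induction m with
  | zero =>
    rw [wv_zero hJ hca hP, cw_mo, LX_zero, Md_al]
    have h1 : (Polynomial.C (C al) * Md (1 : K) a (Fi ρ (tq J a (sp (X (ρ, 0)) 0) (qq c) j)) :
        VV K L) = Md (1 : K) a (C al * Tn J a c ρ j) := by
      rw [← smul_eq_C_mul (Tn J a c ρ j), Derivation.map_smul, Tn, ← algebraMap_smul (AA K L) al,
        Polynomial.smul_eq_C_mul]
      rfl
    rw [h1]
    exact Md_PV S.one_mem h
  | succ m ih =>
    rw [B_succ hJ hE hra hP]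
    exact LX_PV hal hb (Yp_PV ((PV S L).add_mem ih (A_PV hJ hE hca hra hP m j)))

theorem B_PV (hJ : JOK J) (hE : Eig J a) (hca : c ≠ a) (hra : ρ ≠ a)
    (hP : IsP J a (sp (X (ρ, 0)) 0) P0 P) (hal : al ∈ S) (hb : al - 1 ∈ S) {j : ℕ}
    (h : C al * Tn J a c ρ j ∈ PS S L) (m : ℕ) :
    cw (Fi ρ) (wv a c P (m + 1) j) ∈ PV S L := by
  rw [B_succ hJ hE hra hP]
  exact Yp_PV ((PV S L).add_mem (LB_PV hJ hE hca hra hP hal hb h m) (A_PV hJ hE hca hra hP m j))

theorem Tn_eq (hJ : JOK J) (hca : c ≠ a) (hra : ρ ≠ a) (hrc : ρ ≠ c)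
    (hQ : IsP J a (qq c) Q0 Q) {n : ℕ} (hn : 1 ≤ n) :
    Tn J a c ρ n = C (al * (n : K))⁻¹ * Q0 (X (a, n)) := by
  have h1 := hQ.tq hJ (fun i => sp_Gp (e_Gp hra) (Gp K a).zero_mem i) n
  rw [Tn, tq_symm, ← h1, ← Fi_Q0 hJ hca hra hrc hQ, Fi_vv hra hn, ← smul_eq_C_mul, map_smul,
    smul_eq_C_mul]

/-- The monomials of the series contain variables of the second alphabet. -/
theorem kz_Q0 (hJ : JOK J) (hca : c ≠ a) (hQ : IsP J a (qq c) Q0 Q) {n : ℕ} (hn : 1 ≤ n) :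
    kz {v : L × ℕ | v.1 = c ∧ 1 ≤ v.2} (Q0 (X (a, n))) = 0 := by
  have hn0 : n ≠ 0 := by omega
  have h1 : (X (a, n) : AA K L) = pm K a (Nat.Partition.indiscrete n).parts := by
    rw [Nat.Partition.indiscrete_parts hn0]
    have h3 := pm_cons (F := K) a n 0
    rw [Multiset.cons_zero, pm_zero, mul_one] at h3
    exact h3.symm
  rw [h1, pm_eq_J hJ, map_sum, map_sum]
  refine Finset.sum_eq_zero fun th _ => ?_
  have h2 : kz {v : L × ℕ | v.1 = c ∧ 1 ≤ v.2} (Jr J th (qq c)) = 0 := by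
    rw [Jr, map_sum]
    refine Finset.sum_eq_zero fun l _ => ?_
    have h4 : l.parts ≠ 0 := by
      intro h5
      have h6 := l.parts_sum
      rw [h5, Multiset.sum_zero] at h6
      omega
    obtain ⟨x, hx⟩ := Multiset.exists_mem_of_ne_zero h4
    have hx1 : 1 ≤ x := l.parts_pos hx
    rw [← Multiset.cons_erase hx, rr_cons, qq_pos c hx1, map_mul, map_mul,
      kz_mem (show ((c, x) : L × ℕ) ∈ {v : L × ℕ | v.1 = c ∧ 1 ≤ v.2} from ⟨rfl, hx1⟩), zero_mul,
      mul_zero]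
  rw [← smul_eq_C_mul, map_smul, hQ.P1, smul_eq_C_mul, map_mul (kz _), map_mul (kz _), h2,
    zero_mul, mul_zero]

/-- Positivity for one part. -/
theorem Tn_pos (hJ : JOK J) (hE : Eig J a) (hca : c ≠ a) (hra : ρ ≠ a) (hrc : ρ ≠ c)
    (hP : IsP J a (sp (X (ρ, 0)) 0) P0 P) (hQ : IsP J a (qq c) Q0 Q)
    (hal : al ∈ S) (hb : al - 1 ∈ S) (hinv : ∀ n : ℕ, ((n : K))⁻¹ ∈ S) (n : ℕ) :
    C al * Tn J a c ρ n ∈ PS S L := by
  induction n using Nat.strong_induction_on with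
  | _ n ih =>
    rcases Nat.eq_zero_or_pos n with rfl | hn
    · have h1 := P0_e hJ hP.P1 0
      rw [vv_zero, vv_zero] at h1
      rw [Tn, ← hP.tq hJ (qq_Gp hca), vv_zero, h1, Fi_one, mul_zero]
      exact (PS S L).zero_mem
    · -- the derivatives
      have hder : ∀ m : ℕ, C ((m + 1 : ℕ) : K) * pderiv (c, m + 1) (C al * Tn J a c ρ n)
          ∈ PS S L := by
        intro m
        have h1 := congrArg (Fi ρ) (pderiv_tq hJ hE hca hra hrc hP m n)
        rw [Fi_C_mul, (ok_Fi hrc).pd] at h1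
        have h2 : C ((m + 1 : ℕ) : K) * pderiv (c, m + 1) (C al * Tn J a c ρ n)
            = C (al * ((m + 1 : ℕ) : K)) * pderiv (c, m + 1)
              (Fi ρ (tq J a (sp (X (ρ, 0)) 0) (qq c) n)) := by
          rw [pderiv_C_mul, C_mul, Tn]
          ring
        rw [h2, h1]
        split_ifs with h
        · rw [← cw_Th1 (ok_Fi hra).mx, map_add, cw_Fi_e, cw_LX (ok_Fi hra)]
          exact Th1_PV ((PV S L).add_mem (LB_PV hJ hE hca hra hP hal hb (ih _ (by omega)) m)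
            (A_PV hJ hE hca hra hP m _))
        · rw [map_zero]
          exact (PS S L).zero_mem
      intro d _
      by_cases hd : ∀ v ∈ {v : L × ℕ | v.1 = c ∧ 1 ≤ v.2}, d v = 0
      · rw [← coeff_kz _ hd, Tn_eq hJ hca hra hrc hQ hn, map_mul, map_mul, kz_Q0 hJ hca hQ hn,
          mul_zero, mul_zero, coeff_zero]
        exact S.zero_mem
      · push Not at hd
        obtain ⟨⟨c', m⟩, ⟨hv1, hv2⟩, hv3⟩ := hd
        have hc' : c' = c := hv1
        have hm1 : 1 ≤ m := hv2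
        subst hc'
        obtain ⟨m, rfl⟩ := Nat.exists_eq_add_of_le' hm1
        have h1 := hder m (d - Finsupp.single (c', m + 1) 1) (Set.notMem_empty _)
        have h2 : d - Finsupp.single (c', m + 1) 1 + Finsupp.single (c', m + 1) 1 = d := by
          refine tsub_add_cancel_of_le ?_
          rw [Finsupp.single_le_iff]
          omega
        rw [coeff_C_mul, coeff_pderiv, h2] at h1
        have h3 : (((d - Finsupp.single (c', m + 1) 1 : L × ℕ →₀ ℕ) (c', m + 1) : ℕ) : K) + 1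
            = ((d (c', m + 1) : ℕ) : K) := by
          rw [Finsupp.tsub_apply, Finsupp.single_eq_same, Nat.cast_sub (by omega), Nat.cast_one]
          ring
        rw [h3] at h1
        have h4 := S.mul_mem h1 (S.mul_mem (hinv (m + 1)) (hinv (d (c', m + 1))))
        have h5 : (((m + 1 : ℕ) : K)) ≠ 0 := Nat.cast_ne_zero.2 (Nat.succ_ne_zero m)
        have h6 : ((d (c', m + 1) : ℕ) : K) ≠ 0 := Nat.cast_ne_zero.2 hv3
        have h7 : ∀ x : K, ((m + 1 : ℕ) : K) * (x * ((d (c', m + 1) : ℕ) : K)) *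
            ((((m + 1 : ℕ) : K))⁻¹ * (((d (c', m + 1) : ℕ) : K))⁻¹) = x := by
          intro x
          field_simp
        rw [h7] at h4
        exact h4

/-- The formula for the profile `(n, 1)`. -/
theorem two_eq (hJ : JOK J) (hE : Eig J a) (hca : c ≠ a) (hra : ρ ≠ a) (hrc : ρ ≠ c)
    (hP : IsP J a (sp (X (ρ, 0)) 0) P0 P) (hQ : IsP J a (qq c) Q0 Q) {n : ℕ} (hn : 1 ≤ n) :
    C (al * (n : K))⁻¹ * Q0 (X (a, 1) * X (a, n))
      = ∑ p ∈ Finset.HasAntidiagonal.antidiagonal n,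
        X (c, p.2 + 1) * Th1 a (cw (Fi ρ) (wv a c P p.2 p.1)) := by
  have hr : ∀ i, (sp (X (ρ, 0)) 0 i : AA K L) ∈ Gp K a :=
    fun i => sp_Gp (e_Gp hra) (Gp K a).zero_mem i
  have h1 := nat_Q_vv hJ hE hr (qq_Gp hca) (qq_zero c) hP hQ n
  have h2 : Fi ρ (Th1 a (nat Q (mo 0 (vv al a (sp (X (ρ, 0)) 0) n))))
      = Fi ρ (Th1 a (P (PowerSeries.coeff n (ve al a (qq c) * Gr (qq c))))) := by rw [h1]
  rw [nat_Th1 hQ.lift, Th1_mo, zero_add, ← Fi_Q0 hJ hca hra hrc hQ, (ok_Fi hra).mx, Fi_vv hra hn]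
    at h2
  have h3 : (X (a, 1) * (C (al * (n : K))⁻¹ * X (a, n)) : AA K L)
      = (al * (n : K))⁻¹ • (X (a, 1) * X (a, n)) := by
    rw [smul_eq_C_mul]
    ring
  rw [h3, map_smul, smul_eq_C_mul] at h2
  rw [h2, PowerSeries.coeff_mul, map_sum, map_sum, map_sum]
  refine Finset.sum_congr rfl fun p _ => ?_
  have hpar : ∀ g ∈ Gp K a, ∀ u, P (Polynomial.C g * u) = Polynomial.C g * P u :=
    fun g hg u => hP.lift.par al_ne_zero (Md_Gp hg) (lin_Gp hP.P2 hg) u
  have h4 : PowerSeries.coeff p.1 (ve al a (qq c)) * PowerSeries.coeff p.2 (Gr (qq c))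
      = Polynomial.C (X (c, p.2 + 1)) * mo p.2 (vv al a (qq c) p.1) := by
    rw [coeff_ve, Gr, PowerSeries.coeff_mk, qq_succ, mo_zero_eq, C_mul_mo, C_mul_mo, mul_comm]
  have hX : (X (c, p.2 + 1) : AA K L) ∈ Gp K a := Gp_X fun h => absurd h hca
  rw [h4, hpar _ hX, ← cw_Th1 (ok_Fi hra).mx, cw_Fi_C hrc, Th1_C_mul]
  rfl

/-- Positivity for the profile `(n, 1)`. -/
theorem two_pos (hJ : JOK J) (hE : Eig J a) (hca : c ≠ a) (hra : ρ ≠ a) (hrc : ρ ≠ c)
    (hP : IsP J a (sp (X (ρ, 0)) 0) P0 P) (hQ : IsP J a (qq c) Q0 Q)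
    (hal : al ∈ S) (hb : al - 1 ∈ S) (hinv : ∀ n : ℕ, ((n : K))⁻¹ ∈ S) {n : ℕ} (hn : 1 ≤ n) :
    C (al * (n : K))⁻¹ * (Q0 (X (a, 1) * X (a, n)) - X (c, 1) * X (a, 1) * Q0 (X (a, n)))
      ∈ PS S L := by
  have h1 := two_eq hJ hE hca hra hrc hP hQ hn
  obtain ⟨n, rfl⟩ := Nat.exists_eq_add_of_le' hn
  rw [Finset.Nat.sum_antidiagonal_succ', wv_zero hJ hca hP, cw_mo, Th1_mo, zero_add] at h1
  have h2 : Fi ρ (tq J a (sp (X (ρ, 0)) 0) (qq c) (n + 1)) = _ := Tn_eq hJ hca hra hrc hQ hn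
  rw [h2] at h1
  have h3 : C (al * ((n + 1 : ℕ) : K))⁻¹ * (Q0 (X (a, 1) * X (a, n + 1)) -
      X (c, 1) * X (a, 1) * Q0 (X (a, n + 1)))
      = ∑ p ∈ Finset.HasAntidiagonal.antidiagonal n,
        X (c, p.2 + 1 + 1) * Th1 a (cw (Fi ρ) (wv a c P (p.2 + 1) p.1)) := by
    rw [mul_sub, h1]
    ring
  rw [h3]
  refine (PS S L).sum_mem fun p _ => (PS S L).mul_mem (X_PS _) (Th1_PV ?_)
  exact B_PV hJ hE hca hra hP hal hb (Tn_pos hJ hE hca hra hrc hP hQ hal hb hinv _) _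

theorem one_pos (hJ : JOK J) (hE : Eig J a) (hca : c ≠ a) (hra : ρ ≠ a) (hrc : ρ ≠ c)
    (hP : IsP J a (sp (X (ρ, 0)) 0) P0 P) (hQ : IsP J a (qq c) Q0 Q)
    (hal : al ∈ S) (hb : al - 1 ∈ S) (hinv : ∀ n : ℕ, ((n : K))⁻¹ ∈ S) {n : ℕ} (hn : 1 ≤ n) :
    Q0 (X (a, n)) ∈ PS S L := by
  have h1 := Tn_pos hJ hE hca hra hrc hP hQ hal hb hinv n
  rw [Tn_eq hJ hca hra hrc hQ hn] at h1
  have h2 := (PS S L).mul_mem (C_PS (natCast_mem S n)) h1
  have h3 : C (n : K) * (C al * (C (al * (n : K))⁻¹ * Q0 (X (a, n)))) = Q0 (X (a, n)) := by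
    rw [← mul_assoc, ← mul_assoc, ← C_mul, ← C_mul]
    have h4 : (n : K) ≠ 0 := Nat.cast_ne_zero.2 (by omega)
    have h5 := al_ne_zero
    have h6 : (n : K) * al * (al * (n : K))⁻¹ = 1 := by field_simp
    rw [h6, C_1, one_mul]
  rw [h3] at h2
  exact h2

end Top

end Pool.Agent.JackB
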