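import Pool.Agent.Lib.JackB.Inv5
import Pool.Agent.Lib.JackB.Prof2
import Pool.Agent.Lib.JackB.Hook9

/-!
Positivity of the logarithm at a hook and a partition with parts at most two, and at two
partitions with parts at most two (problem MP_b52a9f_co).
-/

open MvPolynomial

namespace Pool.Agent.JackB

section Pos

variable {L : Type*} [DecidableEq L] {a : L} {S : Subsemiring K}

/-- Positivity of the initial value. -/
theorem w_pos2 (hal : al ∈ S) (hb : al - 1 ∈ S) (hinv : ∀ n : ℕ, ((n : K))⁻¹ ∈ S)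
    {e u v : AA K L} (he : e ∈ PS S L) (hu : u ∈ PS S L) (hv : v ∈ PS S L)
    {W : PowerSeries (AA K L)} {A B : PowerSeries (VV K L)}
    (hA : A = tl (Md (1 : K) a).toLinearMap W + PowerSeries.C (Polynomial.C e))
    (hB : B = PowerSeries.C (Polynomial.C u) +
        PowerSeries.X * (PowerSeries.C (Polynomial.C v * Polynomial.X) * A))
    (hz : zd W = PowerSeries.X * tl (Th1 a) (tl (LX al (al - 1) a) B +
        tl (Md (1 : K) a).toLinearMap W * B + PowerSeries.C (Polynomial.C e) * B))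
    (h0 : PowerSeries.coeff 0 W = 0) (n : ℕ) : PowerSeries.coeff n W ∈ PS S L := by
  induction n using Nat.strong_induction_on with
  | _ n ih =>
    cases n with
    | zero =>
      rw [h0]
      exact (PS S L).zero_mem
    | succ n =>
      have hCV : ∀ {g : AA K L}, g ∈ PS S L → (Polynomial.C g : VV K L) ∈ PV S L := by
        intro g hg
        rw [← mo_zero_eq]
        exact mo_PV hg 0
      have hXV : (Polynomial.X : VV K L) ∈ PV S L := by
        have h1 : (Polynomial.X : VV K L) = mo 1 1 := by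
          rw [mo_apply, Polynomial.monomial_one_one_eq_X]
        rw [h1]
        exact mo_PV (PS S L).one_mem 1
      have hCc : ∀ {g : AA K L}, g ∈ PS S L → ∀ n,
          PowerSeries.coeff n (PowerSeries.C (Polynomial.C g : VV K L)) ∈ PV S L := by
        intro g hg n
        rw [PowerSeries.coeff_C]
        split_ifs
        · exact hCV hg
        · exact (PV S L).zero_mem
      have hMW : ∀ k ≤ n, PowerSeries.coeff k (tl (Md (1 : K) a).toLinearMap W) ∈ PV S L := by
        intro k hk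
        rw [tlM_coeff]
        exact Md_PV S.one_mem (ih k (by omega))
      have hAk : ∀ k ≤ n, PowerSeries.coeff k A ∈ PV S L := by
        intro k hk
        rw [hA, map_add]
        exact (PV S L).add_mem (hMW k hk) (hCc he k)
      have hBk : ∀ k ≤ n, PowerSeries.coeff k B ∈ PV S L := by
        intro k hk
        rw [hB, map_add]
        refine (PV S L).add_mem (hCc hu k) ?_
        cases k with
        | zero =>
          rw [PowerSeries.coeff_zero_X_mul]
          exact (PV S L).zero_mem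
        | succ k =>
          rw [PowerSeries.coeff_succ_X_mul, PowerSeries.coeff_C_mul]
          exact (PV S L).mul_mem ((PV S L).mul_mem (hCV hv) hXV) (hAk k (by omega))
      have h1 := congrArg (PowerSeries.coeff (n + 1)) hz
      rw [coeff_zd, PowerSeries.coeff_succ_X_mul, coeff_tl, map_add (PowerSeries.coeff n),
        map_add (PowerSeries.coeff n), coeff_tl, PowerSeries.coeff_mul,
        PowerSeries.coeff_C_mul] at h1
      have hn : ((n + 1 : ℕ) : K) ≠ 0 := Nat.cast_ne_zero.2 (Nat.succ_ne_zero n)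
      have h2 : PowerSeries.coeff (n + 1) W = C (((n + 1 : ℕ) : K)⁻¹) *
          (((n + 1 : ℕ) : AA K L) * PowerSeries.coeff (n + 1) W) := by
        rw [← mul_assoc, ← map_natCast (C : K →+* AA K L), ← C_mul, inv_mul_cancel₀ hn, C_1,
          one_mul]
      rw [h2, h1]
      refine (PS S L).mul_mem (C_PS (hinv _)) (Th1_PV ?_)
      refine (PV S L).add_mem ((PV S L).add_mem (LX_PV hal hb (hBk n le_rfl)) ?_) ?_
      · refine (PV S L).sum_mem fun p hp => ?_
        rw [Finset.HasAntidiagonal.mem_antidiagonal] at hp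
        exact (PV S L).mul_mem (hMW _ (by omega)) (hBk _ (by omega))
      · exact (PV S L).mul_mem (hCV he) (hBk n le_rfl)

omit [DecidableEq L] in
theorem gc_PS {w : AA K L} (hw : w ∈ PS S L) (n : ℕ) : gc w n ∈ PS S L := by
  have h : ∀ n, gc w n ∈ PS S L ∧ gc w (n + 1) ∈ PS S L := by
    intro n
    induction n with
    | zero => exact ⟨(PS S L).one_mem, (PS S L).zero_mem⟩
    | succ n ih => exact ⟨ih.2, (PS S L).mul_mem hw ih.1⟩
  exact (h n).1

omit [DecidableEq L] in
theorem gs2_PP {w : AA K L} (hw : w ∈ PS S L) : gs2 w ∈ PP S L := by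
  intro n
  rw [gs2, PowerSeries.coeff_mk]
  exact gc_PS hw n

theorem Pz2_PP {w : AA K L} (hw : w ∈ PS S L) {f : AA K L}
    (hf : f ∈ PS S L) : Pz2 a w f ∈ PP S L := by
  rw [Pz2, aeval_def, eval₂_eq]
  refine (PP S L).sum_mem fun d _ => (PP S L).mul_mem ?_ ?_
  · rw [PowerSeries.algebraMap_apply]
    exact C_PP (C_PS (hf d (Set.notMem_empty _)))
  · refine (PP S L).prod_mem fun v _ => (PP S L).pow_mem ?_ _
    split_ifs
    · intro n
      rw [coeff_Xs]
      have h1 : gs2 w ^ v.2 ∈ PP S L := (PP S L).pow_mem (gs2_PP hw) _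
      exact (PS S L).mul_mem (h1 n) (X_PS _)
    · exact C_PP (X_PS v)

/-- Positivity of the logarithm. -/
theorem W_pos2 {J : Fam} (hJ : JOK J) (hE : Eig J a) (hal : al ∈ S) (hb : al - 1 ∈ S)
    (hinv : ∀ n : ℕ, ((n : K))⁻¹ ∈ S) {p q : L} (hpa : p ≠ a) (hqa : q ≠ a) (hpq : p ≠ q)
    {W : PowerSeries (AA K L)}
    (hW : IsLog (C al) (PowerSeries.mk (tq J a (sp (X (p, 0)) (X (p, 1)))
      (iw (X (q, 1)) (X (q, 2))))) W) (n : ℕ) : PowerSeries.coeff n W ∈ PS S L := by
  have h1 := log_zero2 hpa hpq hW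
  have gp : ∀ c i, c ≠ a → (X (c, i) : AA K L) ∈ Gp K a := fun c i hc =>
    Gp_X fun h => absurd h hc
  obtain ⟨A, B, hA, hB, _, hz⟩ := sys2 hJ hE (gp p 0 hpa) (Gp K a).zero_mem (gp q 1 hqa)
    (gp q 2 hqa) h1
  have hA' : A = tl (Md (1 : K) a).toLinearMap (PowerSeries.map (k0 p p : AA K L →+* AA K L) W) +
      PowerSeries.C (Polynomial.C (X (p, 0))) := by
    conv_lhs => rw [hA]
    rw [add_zero, Polynomial.C_0, zero_mul, map_zero, zero_mul, mul_zero, sub_zero]
  have h2 : ∀ m, k0 p p (PowerSeries.coeff m W) ∈ PS S L := by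
    intro m
    have h3 := w_pos2 hal hb hinv (X_PS _) (X_PS _) (X_PS _) hA' hB (hz rfl) h1.zero m
    rw [PowerSeries.coeff_map] at h3
    exact h3
  rw [W_eq2 hJ hE hpa hqa hpq hW]
  have hw : (X (p, 1) * X (q, 2) : AA K L) ∈ PS S L := (PS S L).mul_mem (X_PS _) (X_PS _)
  have hnat : ∀ n : ℕ, ((n : ℕ) : K) ∈ S := fun n => natCast_mem S n
  have h4 : Wx2 a p q (fun m => k0 p p (PowerSeries.coeff m W)) ∈ PP S L := by
    unfold Wx2
    refine (PP S L).add_mem ((PP S L).add_mem ((PP S L).add_mem ?_ ?_) ?_) ?_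
    · exact (PP S L).mul_mem X_PP (C_PP ((PS S L).mul_mem ((PS S L).mul_mem (X_PS _) (X_PS _))
        (X_PS _)))
    · rw [Uu]
      refine (PP S L).mul_mem X_PP ((PP S L).mul_mem X_PP (C_PP ((PS S L).mul_mem
        ((PS S L).mul_mem (C_PS ?_) ((PS S L).mul_mem ((PS S L).pow_mem (X_PS _) 2) (X_PS _)))
        (X_PS _))))
      have h5 := hinv 2
      push_cast at h5
      exact h5
    · refine (PP S L).mul_mem (C_PP (X_PS _)) fun n => ?_
      rw [Lg2, PowerSeries.coeff_mk]
      refine (PS S L).mul_mem (C_PS (S.mul_mem ?_ (hinv n))) ((PS S L).mul_mem (gc_PS hw n)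
        (X_PS _))
      have h5 := hnat 2
      push_cast at h5
      exact h5
    · intro k
      rw [coeff_cmb]
      exact (PS S L).sum_mem fun x _ => Pz2_PP hw (h2 _) _
  exact h4 n

omit [DecidableEq L] in
/-- A coefficient from a derivative. -/
theorem mem_of_pderiv (hinv : ∀ n : ℕ, ((n : K))⁻¹ ∈ S) {v : L × ℕ} {f : AA K L}
    (h : pderiv v f ∈ PS S L) {d : L × ℕ →₀ ℕ} (hd : d v ≠ 0) : f.coeff d ∈ S := by
  classical
  have h1 := h (d - Finsupp.single v 1) (Set.notMem_empty _)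
  have h2 : d - Finsupp.single v 1 + Finsupp.single v 1 = d := by
    refine tsub_add_cancel_of_le ?_
    rw [Finsupp.single_le_iff]
    omega
  rw [coeff_pderiv, h2] at h1
  have h3 : (((d - Finsupp.single v 1 : L × ℕ →₀ ℕ) v : ℕ) : K) + 1 = ((d v : ℕ) : K) := by
    rw [Finsupp.tsub_apply, Finsupp.single_eq_same, Nat.cast_sub (by omega), Nat.cast_one]
    ring
  rw [h3] at h1
  have h4 := S.mul_mem h1 (hinv (d v))
  have h5 : ((d v : ℕ) : K) ≠ 0 := Nat.cast_ne_zero.2 hd
  rw [mul_assoc, mul_inv_cancel₀ h5, mul_one] at h4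
  exact h4

end Pos

section Hom

variable {J : Fam}

/-- Algebra maps on the series in three alphabets. -/
theorem hom_tau3 {a p q : Fin 3} (hpa : p ≠ a) (hqa : q ≠ a) (hpq : p ≠ q)
    (φ : AA K (Fin 3) →ₐ[K] AA K (Fin 3)) (ha : ∀ i, φ (X (a, i)) = X (a, i)) :
    PowerSeries.map (φ : AA K (Fin 3) →+* AA K (Fin 3)) (tau J (Fin 3))
      = PowerSeries.mk (tq J a (fun i => φ (X (p, i))) fun i => φ (X (q, i))) := by
  ext1 n
  rw [PowerSeries.coeff_map, PowerSeries.coeff_mk, coeff_tau]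
  show φ _ = _
  rw [tq, map_sum]
  refine Finset.sum_congr rfl fun th _ => ?_
  have h1 : ∀ c, φ (Jp J th c) = Jr J th fun i => φ (X (c, i)) := by
    intro c
    rw [Jp_eq_Jr, hom_Jr]
  have h2 : (fun i => φ (X (a, i))) = fun i => X (a, i) := by
    funext i
    rw [ha i]
  rw [map_mul, algHom_C, algebraMap_eq, prod_three hpa hqa hpq, map_mul, map_mul, h1, h1, h1, h2,
    ← Jp_eq_Jr]
  ring

/-- The parameters in one alphabet. -/
noncomputable def kp1 (p : Fin 3) : AA K (Fin 3) →ₐ[K] AA K (Fin 3) :=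
  aeval fun v => if v.1 = p then sp (X (p, 0)) (X (p, 1)) v.2 else X v

theorem kp1_X (p : Fin 3) (i : ℕ) : kp1 p (X (p, i)) = sp (X (p, 0)) (X (p, 1)) i := by
  rw [kp1, aeval_X, if_pos rfl]

theorem kp1_X' {p c : Fin 3} (h : c ≠ p) (i : ℕ) : kp1 p (X (c, i)) = X (c, i) := by
  rw [kp1, aeval_X, if_neg h]

theorem kp1_pm (p : Fin 3) (m : Multiset ℕ) : kp1 p (pm K p m)
    = rr (sp (X (p, 0)) (X (p, 1))) m := by
  induction m using Multiset.induction_on with
  | empty => simp [rr]
  | cons i m ih => rw [pm_cons, map_mul, ih, kp1_X, rr_cons]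

theorem kp1_pm' {p c : Fin 3} (h : c ≠ p) (m : Multiset ℕ) : kp1 p (pm K c m) = pm K c m := by
  induction m using Multiset.induction_on with
  | empty => simp
  | cons i m ih => rw [pm_cons, map_mul, ih, kp1_X' h]

/-- The exponent carrying the coefficient at one hook. -/
noncomputable def eh1 (a p q : Fin 3) {n : ℕ} (m : Fin 3 → n.Partition) : Fin 3 × ℕ →₀ ℕ :=
  ex a (m a).parts +
    ((Finsupp.single (p, 1) ((m p).parts.count 1) +
      Finsupp.single (p, 0) ((m p).parts.filter fun i => i ≠ 1).card) + ex q (m q).parts)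

theorem coeff_kp1_mon {a p q : Fin 3} (hpa : p ≠ a) (hqa : q ≠ a) (hpq : p ≠ q) {n : ℕ}
    (m m' : Fin 3 → n.Partition) (hp : IsHook (m p)) :
    (kp1 p (monomial (mon m') 1)).coeff (eh1 a p q m) = if m' = m then 1 else 0 := by
  classical
  have h0 : (monomial (mon m') (1 : K)) = pm K a (m' a).parts * (pm K p (m' p).parts *
      pm K q (m' q).parts) := by
    rw [mon_eq, monomial_sum_one, prod_three hpa hqa hpq, pm_eq_monomial, pm_eq_monomial,
      pm_eq_monomial]
  rw [h0, map_mul, map_mul, kp1_pm' hpa.symm, kp1_pm, kp1_pm' hpq.symm,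
    rr_sp' p _ fun i hi => (m' p).parts_pos hi, pm_eq_monomial, pm_eq_monomial, Finset.sum_mul,
    Finset.mul_sum, coeff_sum]
  have h1 : ∀ k ∈ Finset.range ((m' p).parts.count 1 + 1),
      coeff (eh1 a p q m) (monomial (ex a (m' a).parts) (1 : K) *
        (monomial (Finsupp.single (p, 1) k + Finsupp.single (p, 0) ((m' p).parts.count 1 - k +
          ((m' p).parts.filter fun i => i ≠ 1).card)) ((((m' p).parts.count 1).choose k : ℕ) : K) *
        monomial (ex q (m' q).parts) (1 : K)))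
      = if m' = m ∧ k = (m p).parts.count 1 then 1 else 0 := by
    intro k hk
    rw [Finset.mem_range] at hk
    rw [monomial_mul, monomial_mul, one_mul, mul_one, coeff_monomial]
    by_cases h : m' = m ∧ k = (m p).parts.count 1
    · obtain ⟨rfl, rfl⟩ := h
      rw [if_pos, if_pos ⟨rfl, rfl⟩, Nat.choose_self, Nat.cast_one]
      rw [eh1, Nat.sub_self, zero_add]
    · rw [if_neg h, if_neg]
      intro he
      apply h
      have ev : ∀ v : Fin 3 × ℕ, _ = _ := fun v => DFunLike.congr_fun he v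
      have n1 : ¬ a = p := hpa.symm
      have n2 : ¬ a = q := hqa.symm
      have n3 : ¬ q = p := hpq.symm
      have n4 : ¬ p = q := hpq
      have n5 : ¬ p = a := hpa
      have n6 : ¬ q = a := hqa
      have n7 : ¬ (1 : ℕ) = 0 := one_ne_zero
      have n8 : ¬ (0 : ℕ) = 1 := zero_ne_one
      have p1 := ev (p, 1)
      have p0 := ev (p, 0)
      simp only [eh1, Finsupp.add_apply, ex_apply, Finsupp.single_apply, Prod.mk.injEq, n1, n2, n3,
        n4, n7, n8, if_false, if_true, and_true, and_false, zero_add, add_zero, and_self]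
        at p1 p0
      obtain ⟨e1, _⟩ := eq_of_hook hp (k := k) (by omega) p1 p0
      have e3 : m' a = m a := by
        refine Nat.Partition.ext (Multiset.ext.2 fun i => ?_)
        have a1 := ev (a, i)
        simp only [eh1, Finsupp.add_apply, ex_apply, Finsupp.single_apply, Prod.mk.injEq, n1, n2,
          n5, n6, if_false, if_true, false_and, add_zero] at a1
        exact a1
      have e2 : m' q = m q := by
        refine Nat.Partition.ext (Multiset.ext.2 fun i => ?_)
        have a1 := ev (q, i)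
        simp only [eh1, Finsupp.add_apply, ex_apply, Finsupp.single_apply, Prod.mk.injEq, n2, n3,
          n4, n6, if_false, if_true, false_and, add_zero, zero_add] at a1
        exact a1
      refine ⟨?_, p1⟩
      funext c
      have hc : c ∈ ({a, p, q} : Finset (Fin 3)) := by
        rw [← univ_three hpa hqa hpq]
        exact Finset.mem_univ c
      simp only [Finset.mem_insert, Finset.mem_singleton] at hc
      rcases hc with rfl | rfl | rfl
      · exact e3
      · exact e1
      · exact e2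
  rw [Finset.sum_congr rfl h1]
  by_cases h : m' = m
  · rw [if_pos h, Finset.sum_eq_single ((m p).parts.count 1)]
    · rw [if_pos ⟨h, rfl⟩]
    · intro k _ hk
      rw [if_neg fun h' => hk h'.2]
    · intro h'
      rw [h] at h'
      exact absurd (Finset.mem_range.2 (Nat.lt_succ_self _)) h'
  · rw [if_neg h]
    refine Finset.sum_eq_zero fun k _ => ?_
    rw [if_neg fun h' => h h'.1]

/-- The coefficient at one hook. -/
theorem coeff_kp1 {a p q : Fin 3} (hpa : p ≠ a) (hqa : q ≠ a) (hpq : p ≠ q) {n : ℕ}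
    (m : Fin 3 → n.Partition) (hp : IsHook (m p)) {P : AA K (Fin 3)} (hP : Hom n P) :
    (kp1 p P).coeff (eh1 a p q m) = P.coeff (mon m) := by
  classical
  have h1 : kp1 p P = ∑ d ∈ P.support, kp1 p (monomial d (coeff d P)) := by
    conv_lhs => rw [P.as_sum]
    rw [map_sum]
  rw [h1, coeff_sum]
  have h2 : ∀ d ∈ P.support, (kp1 p (monomial d (coeff d P))).coeff (eh1 a p q m)
      = if d = mon m then P.coeff (mon m) else 0 := by
    intro d hd
    obtain ⟨m', rfl⟩ := hP d (mem_support_iff.1 hd)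
    have h3 : (monomial (mon m') (coeff (mon m') P) : AA K (Fin 3))
        = C (coeff (mon m') P) * monomial (mon m') 1 := by
      rw [C_mul_monomial, mul_one]
    rw [h3, map_mul, algHom_C, algebraMap_eq, coeff_C_mul,
      coeff_kp1_mon hpa hqa hpq m m' hp]
    by_cases h : m' = m
    · rw [if_pos h, h, if_pos rfl, mul_one]
    · rw [if_neg h, mul_zero, if_neg]
      intro h4
      apply h
      funext c
      refine Nat.Partition.ext (Multiset.ext.2 fun i => ?_)
      rw [← mon_apply m' c i, h4, mon_apply]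
  rw [Finset.sum_congr rfl h2, Finset.sum_ite_eq']
  split_ifs with h
  · rfl
  · exact (notMem_support_iff.1 h).symm

/-- All parts are at most two. -/
def IsInv {n : ℕ} (l : n.Partition) : Prop := ∀ i ∈ l.parts, i ≤ 2

theorem kz_iw {c : Fin 3} {Z : Set (Fin 3 × ℕ)} (h0 : (c, 0) ∈ Z) (h1 : (c, 1) ∉ Z)
    (h2 : (c, 2) ∉ Z) (h3 : ∀ i, 3 ≤ i → (c, i) ∈ Z) :
    (fun i => kz Z (X (c, i))) = (iw (X (c, 1)) (X (c, 2)) : ℕ → AA K (Fin 3)) := by
  funext i
  rcases i with _ | _ | _ | i
  · rw [kz_mem h0, iw_zero]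
  · rw [kz_notMem h1, zero_add, iw_one]
  · rw [kz_notMem h2]
    exact (iw_two _ _).symm
  · rw [kz_mem (h3 _ (by omega))]
    exact (iw_big _ _ i).symm

theorem kz_iw0 {c : Fin 3} {Z : Set (Fin 3 × ℕ)} (h0 : (c, 0) ∈ Z) (h1 : (c, 1) ∈ Z)
    (h2 : (c, 2) ∉ Z) (h3 : ∀ i, 3 ≤ i → (c, i) ∈ Z) :
    (fun i => kz Z (X (c, i))) = (iw 0 (X (c, 2)) : ℕ → AA K (Fin 3)) := by
  funext i
  rcases i with _ | _ | _ | i
  · rw [kz_mem h0, iw_zero]
  · rw [kz_mem h1, zero_add, iw_one]
  · rw [kz_notMem h2]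
    exact (iw_two _ _).symm
  · rw [kz_mem (h3 _ (by omega))]
    exact (iw_big _ _ i).symm

/-- Positivity of the logarithm at a hook and a partition with parts at most two. -/
theorem log_hook_inv (hJ : JOK J) (h0 : Unital J) {a p q : Fin 3} (hE : Eig J a)
    (hpa : p ≠ a) (hqa : q ≠ a) (hpq : p ≠ q)
    {S : Subsemiring K} (hal : al ∈ S) (hb : al - 1 ∈ S) (hinv : ∀ n : ℕ, ((n : K))⁻¹ ∈ S)
    {W : PowerSeries (AA K (Fin 3))} (hW : IsLog (C al) (tau J (Fin 3)) W) {n : ℕ}
    (m : Fin 3 → n.Partition) (hp : IsHook (m p)) (hq : IsInv (m q)) :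
    (PowerSeries.coeff n W).coeff (mon m) ∈ S := by
  set Z : Set (Fin 3 × ℕ) := {v | v.1 = q ∧ v.2 ≠ 1 ∧ v.2 ≠ 2} with hZ
  have hZn : ∀ c i, c ≠ q → ((c, i) : Fin 3 × ℕ) ∉ Z := fun c i hc h => hc h.1
  set φ : AA K (Fin 3) →ₐ[K] AA K (Fin 3) := (kz Z).comp (kp1 p) with hφ
  have hφa : ∀ i, φ (X (a, i)) = X (a, i) := by
    intro i
    show kz Z (kp1 p (X (a, i))) = _
    rw [kp1_X' hpa.symm, kz_notMem (hZn a i hqa.symm)]
  have hφp : (fun i => φ (X (p, i))) = sp (X (p, 0)) (X (p, 1)) := by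
    funext i
    show kz Z (kp1 p (X (p, i))) = _
    have e1 := kz_notMem (hZn p 0 hpq)
    have e2 := kz_notMem (hZn p 1 hpq)
    rw [kp1_X]
    unfold sp
    split_ifs
    · exact map_zero _
    · rw [map_add, e1, e2]
    · rw [map_add, e1, map_zero]
  have hφq : (fun i => φ (X (q, i))) = iw (X (q, 1)) (X (q, 2)) := by
    have e1 : (fun i => φ (X (q, i))) = fun i => kz Z (X (q, i)) := by
      funext i
      show kz Z (kp1 p (X (q, i))) = _
      rw [kp1_X' hpq.symm]
    rw [e1]
    refine kz_iw ⟨rfl, by simp, by simp⟩ (fun h => h.2.1 rfl) (fun h => h.2.2 rfl)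
      fun i hi => ⟨rfl, ?_, ?_⟩
    · show i ≠ 1
      omega
    · show i ≠ 2
      omega
  have h1 := hW.map (φ : AA K (Fin 3) →+* AA K (Fin 3))
  have h2 : (φ : AA K (Fin 3) →+* AA K (Fin 3)) (C al) = C al := by
    show φ (C al) = _
    rw [algHom_C, algebraMap_eq]
  rw [h2, hom_tau3 hpa hqa hpq φ hφa, hφp, hφq] at h1
  have h3 := W_pos2 hJ hE hal hb hinv hpa hqa hpq h1 n
  rw [PowerSeries.coeff_map] at h3
  have h4 := h3 (eh1 a p q m) (Set.notMem_empty _)
  have h5 : (kz Z (kp1 p (PowerSeries.coeff n W))).coeff (eh1 a p q m) ∈ S := h4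
  rw [coeff_kz, coeff_kp1 hpa hqa hpq m hp (hom_log h0 hW n)] at h5
  · exact h5
  · rintro ⟨c, i⟩ ⟨hc, hi1, hi2⟩
    have hc' : c = q := hc
    subst hc'
    have hi1' : i ≠ 1 := hi1
    have hi2' : i ≠ 2 := hi2
    have n3 : ¬ c = p := hpq.symm
    have n2 : ¬ c = a := hqa
    simp only [eh1, Finsupp.add_apply, ex_apply, Finsupp.single_apply, Prod.mk.injEq, n2, n3,
      hpq, hqa.symm, if_false, if_true, false_and, add_zero, zero_add]
    rw [Multiset.count_eq_zero]
    intro h
    have h6 := hq i h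
    have h7 := (m c).parts_pos h
    omega

/-- Positivity of the logarithm at two partitions with parts at most two. -/
theorem log_inv_inv (hJ : JOK J) {a p q : Fin 3} (hE : Eig J a)
    (hpa : p ≠ a) (hqa : q ≠ a) (hpq : p ≠ q)
    {S : Subsemiring K} (hb : al - 1 ∈ S) (hinv : ∀ n : ℕ, ((n : K))⁻¹ ∈ S)
    {W : PowerSeries (AA K (Fin 3))} (hW : IsLog (C al) (tau J (Fin 3)) W) {n : ℕ}
    (m : Fin 3 → n.Partition) (hp : IsInv (m p)) (hq : IsInv (m q)) :
    (PowerSeries.coeff n W).coeff (mon m) ∈ S := by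
  rcases Nat.eq_zero_or_pos n with rfl | hn
  · rw [hW.zero, coeff_zero]
    exact S.zero_mem
  have gp : ∀ c i, c ≠ a → (X (c, i) : AA K (Fin 3)) ∈ Gp K a := fun c i hc =>
    Gp_X fun h => absurd h hc
  have hcount : ∀ (c : Fin 3) (i : ℕ), IsInv (m c) → i ≠ 1 → i ≠ 2 → mon m (c, i) = 0 := by
    intro c i hc h1 h2
    rw [mon_apply, Multiset.count_eq_zero]
    intro h
    have h6 := hc i h
    have h7 := (m c).parts_pos h
    omega
  have hC : ∀ φ : AA K (Fin 3) →ₐ[K] AA K (Fin 3),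
      (φ : AA K (Fin 3) →+* AA K (Fin 3)) (C al) = C al := by
    intro φ
    show φ (C al) = _
    rw [algHom_C, algebraMap_eq]
  by_cases h1 : mon m (p, 1) = 0 ∧ mon m (q, 1) = 0
  · set Z : Set (Fin 3 × ℕ) := {v | (v.1 = p ∨ v.1 = q) ∧ v.2 ≠ 2} with hZ
    have hZa : ∀ i, kz Z (X (a, i) : AA K (Fin 3)) = X (a, i) := by
      intro i
      refine kz_notMem fun h => ?_
      rcases h.1 with h | h
      · exact hpa h.symm
      · exact hqa h.symm
    have hL := hW.map (kz Z : AA K (Fin 3) →+* AA K (Fin 3))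
    have hmem : ∀ c i, c = p ∨ c = q → i ≠ 2 → ((c, i) : Fin 3 × ℕ) ∈ Z := fun c i h1 h2 => ⟨h1, h2⟩
    have hnm : ∀ c, ((c, 2) : Fin 3 × ℕ) ∉ Z := fun c h => h.2 rfl
    have ez : ∀ c, c = p ∨ c = q → (fun i => kz Z (X (c, i) : AA K (Fin 3)))
        = iw 0 (X (c, 2)) := fun c hc =>
      kz_iw0 (hmem c 0 hc (by omega)) (hmem c 1 hc (by omega)) (hnm c)
        fun i hi => hmem c i hc (by omega)
    rw [hC, hom_tau3 hpa hqa hpq (kz Z) hZa, ez p (Or.inl rfl), ez q (Or.inr rfl)] at hL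
    have h2 : ∃ j, mon m (a, j + 1) ≠ 0 := by
      have h3 : (m a).parts ≠ 0 := by
        intro h4
        have h5 := (m a).parts_sum
        rw [h4, Multiset.sum_zero] at h5
        omega
      obtain ⟨x, hx⟩ := Multiset.exists_mem_of_ne_zero h3
      obtain ⟨j, rfl⟩ := Nat.exists_eq_add_of_le' (Nat.succ_le_of_lt ((m a).parts_pos hx))
      refine ⟨j, ?_⟩
      rw [mon_apply]
      exact Multiset.count_ne_zero.2 hx
    obtain ⟨j, hj⟩ := h2
    have h3 := inv_log_zero hJ hE (gp p 2 hpa) (gp q 2 hqa) hb (X_PS _) (X_PS _) hL j n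
    rw [← pderiv_C_mul] at h3
    have h4 := mem_of_pderiv hinv h3 hj
    rw [coeff_C_mul, PowerSeries.coeff_map] at h4
    have h5 : ((j + 1 : ℕ) : K) * (kz Z (PowerSeries.coeff n W)).coeff (mon m) ∈ S := h4
    rw [coeff_kz] at h5
    · have h6 := S.mul_mem (hinv (j + 1)) h5
      have h7 : ((j + 1 : ℕ) : K) ≠ 0 := Nat.cast_ne_zero.2 (Nat.succ_ne_zero j)
      rw [← mul_assoc, inv_mul_cancel₀ h7, one_mul] at h6
      exact h6
    · rintro ⟨c, i⟩ ⟨hc, hi⟩
      have hi' : i ≠ 2 := hi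
      rcases hc with hc | hc
      · have hc' : c = p := hc
        subst hc'
        by_cases h : i = 1
        · rw [h]
          exact h1.1
        · exact hcount c i hp h hi'
      · have hc' : c = q := hc
        subst hc'
        by_cases h : i = 1
        · rw [h]
          exact h1.2
        · exact hcount c i hq h hi'
  · set Z : Set (Fin 3 × ℕ) := {v | (v.1 = p ∨ v.1 = q) ∧ v.2 ≠ 1 ∧ v.2 ≠ 2} with hZ
    have hZa : ∀ i, kz Z (X (a, i) : AA K (Fin 3)) = X (a, i) := by
      intro i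
      refine kz_notMem fun h => ?_
      rcases h.1 with h | h
      · exact hpa h.symm
      · exact hqa h.symm
    have hL := hW.map (kz Z : AA K (Fin 3) →+* AA K (Fin 3))
    have hmem : ∀ c i, c = p ∨ c = q → i ≠ 1 → i ≠ 2 → ((c, i) : Fin 3 × ℕ) ∈ Z :=
      fun c i h1 h2 h3 => ⟨h1, h2, h3⟩
    have hn1 : ∀ c, ((c, 1) : Fin 3 × ℕ) ∉ Z := fun c h => h.2.1 rfl
    have hn2 : ∀ c, ((c, 2) : Fin 3 × ℕ) ∉ Z := fun c h => h.2.2 rfl
    have ez : ∀ c, c = p ∨ c = q → (fun i => kz Z (X (c, i) : AA K (Fin 3)))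
        = iw (X (c, 1)) (X (c, 2)) := fun c hc =>
      kz_iw (hmem c 0 hc (by omega) (by omega)) (hn1 c) (hn2 c)
        fun i hi => hmem c i hc (by omega) (by omega)
    rw [hC, hom_tau3 hpa hqa hpq (kz Z) hZa, ez p (Or.inl rfl), ez q (Or.inr rfl)] at hL
    have hco : (kz Z (PowerSeries.coeff n W)).coeff (mon m)
        = (PowerSeries.coeff n W).coeff (mon m) := by
      refine coeff_kz _ ?_ _
      rintro ⟨c, i⟩ ⟨hc, hi1, hi2⟩
      rcases hc with hc | hc
      · have hc' : c = p := hc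
        subst hc'
        exact hcount c i hp hi1 hi2
      · have hc' : c = q := hc
        subst hc'
        exact hcount c i hq hi1 hi2
    have hder : ∀ c d : Fin 3, c ≠ d → (∀ i, pderiv (c, 1)
        (iw (X (c, 1)) (X (c, 2)) i : AA K (Fin 3)) = if i = 1 then 1 else 0) ∧
        ∀ i, pderiv (c, 1) (iw (X (d, 1)) (X (d, 2)) i : AA K (Fin 3)) = 0 := by
      intro c d hcd
      constructor
      · intro i
        unfold iw
        split_ifs with h2 h3
        · exact pderiv_X_self _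
        · rw [pderiv_X, Pi.single_eq_of_ne]
          intro h
          simp at h
        · exact map_zero _
      · intro i
        unfold iw
        split_ifs
        · rw [pderiv_X, Pi.single_eq_of_ne]
          intro h
          exact hcd (Prod.ext_iff.1 h).1.symm
        · rw [pderiv_X, Pi.single_eq_of_ne]
          intro h
          exact hcd (Prod.ext_iff.1 h).1.symm
        · exact map_zero _
    rw [← hco]
    by_cases h2 : mon m (p, 1) = 0
    · have h3 : mon m (q, 1) ≠ 0 := fun h => h1 ⟨h2, h⟩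
      have hsym : PowerSeries.mk (tq J a (iw (X (p, 1)) (X (p, 2))) (iw (X (q, 1)) (X (q, 2))))
          = PowerSeries.mk (tq J a (iw (X (q, 1)) (X (q, 2))) (iw (X (p, 1)) (X (p, 2)))) := by
        ext1 k
        rw [PowerSeries.coeff_mk, PowerSeries.coeff_mk, tq_symm]
      rw [hsym] at hL
      have h4 := inv_der hJ hE hqa (gp q 1 hqa) (gp q 2 hqa) (gp p 1 hpa) (gp p 2 hpa)
        (S := S) (X_PS _) (X_PS _) (X_PS _) (X_PS _) (hder q p hpq.symm).1 (hder q p hpq.symm).2
        hL n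
      rw [PowerSeries.coeff_map] at h4
      exact mem_of_pderiv hinv h4 h3
    · have h4 := inv_der hJ hE hpa (gp p 1 hpa) (gp p 2 hpa) (gp q 1 hqa) (gp q 2 hqa)
        (S := S) (X_PS _) (X_PS _) (X_PS _) (X_PS _) (hder p q hpq).1 (hder p q hpq).2
        hL n
      rw [PowerSeries.coeff_map] at h4
      exact mem_of_pderiv hinv h4 h2

end Hom

end Pool.Agent.JackB
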