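import Pool.Agent.Lib.JackB.Glue1
import Pool.Agent.Lib.JackB.Inv6

/-!
Chains of extreme partitions with an end glued to each side (problem MP_b52a9f_co).
-/

open MvPolynomial

namespace Pool.Agent.JackB

section Chain

variable {X A B : Type*} [Fintype X] [DecidableEq X] [Fintype A] [DecidableEq A]
  [Fintype B] [DecidableEq B] {J : Fam}

/-- Everything at `none`, the classes `D` elsewhere. -/
def clO (D : A → Set (Multiset ℕ)) : Option A → Set (Multiset ℕ)
  | none => Set.univ
  | some a => D a

/-- The classes of a chain with one end. -/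
def clC (D : A → Set (Multiset ℕ)) : Option X ⊕ A → Set (Multiset ℕ)
  | Sum.inl none => Set.univ
  | Sum.inl (some _) => Cl2
  | Sum.inr a => D a

/-- The classes of a chain with two ends. -/
def clD (D : A → Set (Multiset ℕ)) (D' : B → Set (Multiset ℕ)) :
    (X ⊕ A) ⊕ B → Set (Multiset ℕ)
  | Sum.inl (Sum.inl _) => Cl2
  | Sum.inl (Sum.inr a) => D a
  | Sum.inr b => D' b

theorem univ_down : ∀ s t : Multiset ℕ, s ≤ t → t ∈ (Set.univ : Set (Multiset ℕ)) →
    s ∈ (Set.univ : Set (Multiset ℕ)) := fun _ _ _ _ => Set.mem_univ _

/-- The chain without ends. -/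
theorem chain_zero (hK : IsJack J) (hX : 1 ≤ Fintype.card X) :
    PosC J Qb (Option (Option X)) (clO (clO fun _ => Cl2)) := by
  have hcard : Fintype.card (Option (Option X)) = Fintype.card (Fin (Fintype.card X + 2)) := by
    rw [Fintype.card_option, Fintype.card_option, Fintype.card_fin]
  set e : Option (Option X) ≃ Fin (Fintype.card X + 2) := Fintype.equivOfCardEq hcard with he
  have h1 : PosC J Qb (Fin (Fintype.card X + 2))
      (fun a => {s | a ≠ e none → a ≠ e (some none) → s ∈ Cl2}) := by
    intro W hW n m hm
    refine W_all hK hX hW (p := e none) (q := e (some none)) ?_ m fun a h1 h2 => ?_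
    · intro h
      exact absurd (e.injective h) (by simp)
    · exact (extreme_iff _).2 (hm a h1 h2)
  refine h1.reindex e fun a => ?_
  rcases a with _ | _ | a
  · intro s _ h
    exact absurd rfl h
  · intro s _ _ h
    exact absurd rfl h
  · intro s hs _ _
    exact hs

/-- A chain with one end. -/
theorem chain_one (hK : IsJack J) {D : A → Set (Multiset ℕ)}
    (hD : ∀ a s t, s ≤ t → t ∈ D a → s ∈ D a) (hA : PosC J Qb (Option A) (clO D)) :
    PosC J Qb (Option X ⊕ A) (clC D) := by
  rcases Nat.eq_zero_or_pos (Fintype.card X) with hX | hX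
  · have hE : IsEmpty X := Fintype.card_eq_zero_iff.1 hX
    let e : Option X ⊕ A ≃ Option A :=
      { toFun := fun x => match x with
          | Sum.inl _ => none
          | Sum.inr a => some a
        invFun := fun x => match x with
          | none => Sum.inl none
          | some a => Sum.inr a
        left_inv := by
          rintro ((_ | x) | a)
          · rfl
          · exact hE.elim x
          · rfl
        right_inv := by
          rintro (_ | a) <;> rfl }
    refine hA.reindex e fun a => ?_
    rcases a with (_ | x) | a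
    · exact Set.Subset.rfl
    · exact hE.elim x
    · exact Set.Subset.rfl
  · refine glue_pos hK.orth hK.unital al_mem_Qb inv_mem_Qb ?_ ?_ ?_
    · rintro ((_ | x) | a) s t hst ht
      · exact Set.mem_univ _
      · exact Cl2_down s t hst ht
      · exact hD a s t hst ht
    · refine (chain_zero hK hX).mono fun a => ?_
      rcases a with _ | _ | a
      · exact Set.Subset.rfl
      · exact Set.Subset.rfl
      · exact Set.Subset.rfl
    · refine hA.mono fun a => ?_
      rcases a with _ | a
      · exact Set.Subset.rfl
      · exact Set.Subset.rfl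

/-- A chain with two ends. -/
theorem chain_two (hK : IsJack J) {D : A → Set (Multiset ℕ)} {D' : B → Set (Multiset ℕ)}
    (hD : ∀ a s t, s ≤ t → t ∈ D a → s ∈ D a) (hD' : ∀ a s t, s ≤ t → t ∈ D' a → s ∈ D' a)
    (hA : PosC J Qb (Option A) (clO D)) (hB : PosC J Qb (Option B) (clO D')) :
    PosC J Qb ((X ⊕ A) ⊕ B) (clD D D') := by
  have h1 := chain_one (X := X) hK hD hA
  let e : Option (X ⊕ A) ≃ Option X ⊕ A :=
    { toFun := fun x => match x with
        | none => Sum.inl none
        | some (Sum.inl x) => Sum.inl (some x)
        | some (Sum.inr a) => Sum.inr a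
      invFun := fun x => match x with
        | Sum.inl none => none
        | Sum.inl (some x) => some (Sum.inl x)
        | Sum.inr a => some (Sum.inr a)
      left_inv := by
        rintro (_ | x | a) <;> rfl
      right_inv := by
        rintro ((_ | x) | a) <;> rfl }
  have h2 : PosC J Qb (Option (X ⊕ A)) (clL (clD D D')) := by
    refine h1.reindex e fun a => ?_
    rcases a with _ | x | a
    · exact Set.Subset.rfl
    · exact Set.Subset.rfl
    · exact Set.Subset.rfl
  refine glue_pos hK.orth hK.unital al_mem_Qb inv_mem_Qb ?_ h2 ?_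
  · rintro ((x | a) | b) s t hst ht
    · exact Cl2_down s t hst ht
    · exact hD a s t hst ht
    · exact hD' b s t hst ht
  · refine hB.mono fun a => ?_
    rcases a with _ | a
    · exact Set.Subset.rfl
    · exact Set.Subset.rfl

/-- The multisets with at most one element different from one, or with all elements at most
two. -/
def Hk1 : Set (Multiset ℕ) := {s | (s.filter fun i => i ≠ 1).card ≤ 1 ∨ ∀ i ∈ s, i ≤ 2}

theorem Hk1_down : ∀ s t : Multiset ℕ, s ≤ t → t ∈ Hk1 → s ∈ Hk1 := by
  rintro s t hst (h | h)
  · exact Or.inl ((Multiset.card_le_card (Multiset.filter_le_filter _ hst)).trans h)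
  · exact Or.inr fun i hi => h i (Multiset.mem_of_le hst hi)

/-- Positivity of the logarithm at two partitions that are hooks or have parts at most two. -/
theorem log_two (hK : IsJack J) {a p q : Fin 3} (hpa : p ≠ a) (hqa : q ≠ a) (hpq : p ≠ q)
    {W : PowerSeries (AA K (Fin 3))} (hW : IsLog (C al) (tau J (Fin 3)) W) {n : ℕ}
    (m : Fin 3 → n.Partition) (hp : IsHook (m p) ∨ IsInv (m p))
    (hq : IsHook (m q) ∨ IsInv (m q)) :
    (PowerSeries.coeff n W).coeff (mon m) ∈ Qb := by
  rcases hp with hp | hp
  · rcases hq with hq | hq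
    · exact log_hook hK.jok hK.unital (hK.eigL a) hpa hqa hpq al_mem_Qb b_mem_Qb inv_mem_Qb hW
        m hp hq
    · exact log_hook_inv hK.jok hK.unital (hK.eigL a) hpa hqa hpq al_mem_Qb b_mem_Qb inv_mem_Qb
        hW m hp hq
  · rcases hq with hq | hq
    · exact log_hook_inv hK.jok hK.unital (hK.eigL a) hqa hpa hpq.symm al_mem_Qb b_mem_Qb
        inv_mem_Qb hW m hq hp
    · exact log_inv_inv hK.jok (hK.eigL a) hpa hqa hpq b_mem_Qb inv_mem_Qb hW m hp hq

/-- The end with two partitions that are hooks or have parts at most two. -/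
theorem end_hook (hK : IsJack J) (hA : Fintype.card A = 2) :
    PosC J Qb (Option A) (clO fun _ => Hk1) := by
  have hcard : Fintype.card (Option A) = Fintype.card (Fin 3) := by
    rw [Fintype.card_option, Fintype.card_fin, hA]
  set e : Option A ≃ Fin 3 := Fintype.equivOfCardEq hcard with he
  have h1 : PosC J Qb (Fin 3) (fun a => {s | a ≠ e none → s ∈ Hk1}) := by
    intro W hW n m hm
    have hex : ∀ a : Fin 3, ∃ p q : Fin 3, p ≠ a ∧ q ≠ a ∧ p ≠ q := by decide
    obtain ⟨p, q, hp, hq, hpq⟩ := hex (e none)
    exact log_two hK hp hq hpq hW m (hm p hp) (hm q hq)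
  refine h1.reindex e fun a => ?_
  rcases a with _ | a
  · intro s _ h
    exact absurd rfl h
  · intro s hs _
    exact hs

end Chain

end Pool.Agent.JackB
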