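import Pool.Agent.Lib.JackB.Glue2
import Pool.Agent.Lib.JackB.Dual3
import Pool.Agent.Lib.JackTab.C9

/-!
The coefficients `h` and `c` when the partitions that are not extreme form two groups, each of
them a single partition, two partitions that are hooks or have parts at most two, or of total rank
at most eight (problem MP_b52a9f_co).
-/

open MvPolynomial

namespace Pool.Agent.JackB

section Small

variable {J : Fam}

/-- All `k`, and `n` at most nine. -/
theorem all_small (hK : IsJack J) {k : ℕ} (hk : 1 ≤ k) {n : ℕ} (hn : 1 ≤ n) (hn9 : n ≤ 9)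
    (m : Fin (k + 2) → n.Partition) : cJ J k m ∈ Nb ∧ hJ J k m ∈ Nb ∧
    ∀ i : ℕ, ((i : K) * ((m 0).parts.count i : K) / (n : K)) * hJ J k m ∈ Nb := by
  have hal : al ∈ Nb := by
    rw [← JackTab.io_al]
    exact JackTab.io_mem _
  refine reduction (Cl := {t | t.sum ≤ 9}) hK.orth hK.unital hal ?_ ?_ hk hn m ?_
  · intro s t hst ht
    obtain ⟨u, rfl⟩ := Multiset.le_iff_exists_add.1 hst
    have h1 : (s + u).sum ≤ 9 := ht
    rw [Multiset.sum_add] at h1
    exact (Nat.le_add_right _ _).trans h1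
  · intro n hn m hm i
    have h1 : (m 2).parts.sum ≤ 9 := hm 2 le_rfl
    rw [(m 2).parts_sum] at h1
    exact JackTab.fine_one JackTab.D9.cert hK n hn h1 m i
  · intro a _
    change (m a).parts.sum ≤ 9
    rw [(m a).parts_sum]
    exact hn9

/-- All partitions but one have total rank at most eight. -/
theorem small_rank (hK : IsJack J) {k : ℕ} (hk : 1 ≤ k)
    {W : PowerSeries (AA K (Fin (k + 2)))} (hW : IsLog (C al) (tau J (Fin (k + 2))) W)
    {n : ℕ} (m : Fin (k + 2) → n.Partition) (a0 : Fin (k + 2))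
    (h : ∑ a ∈ Finset.univ.erase a0, rk (m a).parts ≤ 8) :
    (PowerSeries.coeff n W).coeff (mon m) ∈ Qb := by
  rcases Nat.eq_zero_or_pos n with rfl | hn
  · rw [hW.zero, coeff_zero]
    exact Qb.zero_mem
  rcases Nat.lt_or_ge 9 n with h9 | h9
  · rw [log_vanish hK hk hW n m ?_]
    · exact Qb.zero_mem
    · rw [← Finset.sum_erase_add _ _ (Finset.mem_univ a0)]
      have h1 := rk_parts (m a0)
      have h2 : (m a0).parts.card ≠ 0 := by
        intro h3
        have h4 := (m a0).parts_sum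
        rw [Multiset.card_eq_zero.1 h3, Multiset.sum_zero] at h4
        omega
      omega
  · have h1 := Nb_le_Qb (all_small hK hk hn h9 m).2.1
    have h2 : hJ J k m = (n : K) * (PowerSeries.coeff n W).coeff (mon m) :=
      coeff_Psi hK.unital hW n (mon m)
    rw [h2] at h1
    have h3 := Qb.mul_mem (inv_mem_Qb n) h1
    have h4 : (n : K) ≠ 0 := Nat.cast_ne_zero.2 (by omega)
    rw [← mul_assoc, inv_mul_cancel₀ h4, one_mul] at h3
    exact h3

/-- The end with small total rank. -/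
theorem end_rank (hK : IsJack J) {A : Type*} [Fintype A] [DecidableEq A]
    (hA : 2 ≤ Fintype.card A) (ρ : A → ℕ) (hρ : ∑ a, ρ a ≤ 8) :
    PosC J Qb (Option A) (clO fun a => {s | rk s ≤ ρ a}) := by
  obtain ⟨k, hk⟩ := Nat.exists_eq_add_of_le' hA
  have hcard : Fintype.card (Option A) = Fintype.card (Fin (k + 1 + 2)) := by
    rw [Fintype.card_option, Fintype.card_fin, hk]
  set e : Option A ≃ Fin (k + 1 + 2) := Fintype.equivOfCardEq hcard with he
  have h1 : PosC J Qb (Fin (k + 1 + 2))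
      (fun c => {s | ∀ a, c = e (some a) → rk s ≤ ρ a}) := by
    intro W hW n m hm
    refine small_rank hK (Nat.succ_le_succ (Nat.zero_le k)) hW m (e none) ?_
    have h2 : ∑ c, rk (m c).parts = ∑ x : Option A, rk (m (e x)).parts :=
      (Equiv.sum_comp e fun c => rk (m c).parts).symm
    rw [← Finset.sum_erase_add _ _ (Finset.mem_univ (e none)), Fintype.sum_option,
      add_comm] at h2
    have h3 := Nat.add_left_cancel h2
    rw [h3]
    exact (Finset.sum_le_sum fun a _ => hm (e (some a)) a rfl).trans hρ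
  refine h1.reindex e fun a => ?_
  rcases a with _ | a
  · intro s _ a h
    exact absurd (e.injective h) (by simp)
  · intro s hs a' h
    have h2 := Option.some_injective _ (e.injective h)
    rw [← h2]
    exact hs

end Small

section Ends

/-- A group of partitions: at most one, or at most two that are hooks or have parts at most two,
or of total rank at most eight. -/
def EndOK {ι : Type*} {n : ℕ} (m : ι → n.Partition) (A : Finset ι) : Prop :=
  A.card ≤ 1 ∨ (A.card ≤ 2 ∧ ∀ a ∈ A, IsHook (m a) ∨ IsInv (m a)) ∨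
    ∑ a ∈ A, (n - (m a).parts.card) ≤ 8

theorem hk_sub {n n' : ℕ} {l : n.Partition} {l' : n'.Partition} (h : IsHook l ∨ IsInv l)
    (hl : l'.parts ≤ l.parts) : IsHook l' ∨ IsInv l' :=
  Hk1_down l'.parts l.parts hl h

theorem EndOK.anti {ι : Type*} {n : ℕ} {m : ι → n.Partition} {A B : Finset ι}
    (h : EndOK m A) (hB : B ⊆ A) : EndOK m B := by
  rcases h with h | ⟨h, h'⟩ | h
  · exact Or.inl ((Finset.card_le_card hB).trans h)
  · exact Or.inr (Or.inl ⟨(Finset.card_le_card hB).trans h, fun a ha => h' a (hB ha)⟩)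
  · exact Or.inr (Or.inr ((Finset.sum_le_sum_of_subset hB).trans h))

theorem EndOK.sub {ι : Type*} {n n' : ℕ} {m : ι → n.Partition} {m' : ι → n'.Partition}
    {A : Finset ι} (h : EndOK m A) (hm : ∀ a, (m' a).parts ≤ (m a).parts) : EndOK m' A := by
  rcases h with h | ⟨h, h'⟩ | h
  · exact Or.inl h
  · exact Or.inr (Or.inl ⟨h, fun a ha => hk_sub (h' a ha) (hm a)⟩)
  · refine Or.inr (Or.inr ((Finset.sum_le_sum fun a _ => ?_).trans h))
    have h1 := rk_parts (m a)
    have h2 := rk_parts (m' a)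
    have h3 := rk_mono (hm a)
    omega

variable {J : Fam}

theorem proper_end (hK : IsJack J) {k n : ℕ} (m : Fin (k + 2) → n.Partition)
    {A : Finset (Fin (k + 2))} (h2 : 2 ≤ A.card) (hA : EndOK m A) :
    ∃ D : {a // a ∈ A} → Set (Multiset ℕ), (∀ a s t, s ≤ t → t ∈ D a → s ∈ D a) ∧
      PosC J Qb (Option {a // a ∈ A}) (clO D) ∧ ∀ a : {a // a ∈ A}, (m a).parts ∈ D a := by
  have hc : Fintype.card {a // a ∈ A} = A.card := Fintype.card_coe A
  rcases hA with h | ⟨h, h'⟩ | h
  · omega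
  · exact ⟨fun _ => Hk1, fun _ => Hk1_down, end_hook hK (by omega), fun a => h' a a.2⟩
  · refine ⟨fun a => {s | rk s ≤ rk (m a).parts}, fun a s t hst ht => (rk_mono hst).trans ht,
      end_rank hK (by omega) _ ?_, fun a => le_refl (rk (m a).parts)⟩
    have h3 : ∑ a : {a // a ∈ A}, rk (m a).parts = ∑ a ∈ A, rk (m a).parts :=
      Finset.sum_coe_sort A fun a => rk (m a).parts
    rw [h3]
    refine (Finset.sum_le_sum fun a _ => ?_).trans h
    have h4 := rk_parts (m a)
    omega

/-- One proper end. -/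
theorem ends_one (hK : IsJack J) {k : ℕ}
    {W : PowerSeries (AA K (Fin (k + 2)))} (hW : IsLog (C al) (tau J (Fin (k + 2))) W)
    {n : ℕ} (m : Fin (k + 2) → n.Partition) (a0 : Fin (k + 2)) {B : Finset (Fin (k + 2))}
    (ha0 : a0 ∉ B) (hB2 : 2 ≤ B.card) (hB : EndOK m B)
    (hX : ∀ a, a ≠ a0 → a ∉ B → Extreme (m a)) :
    (PowerSeries.coeff n W).coeff (mon m) ∈ Qb := by
  classical
  obtain ⟨D, hD, hP, hm⟩ := proper_end hK m hB2 hB
  have h1 := chain_one (X := {a : Fin (k + 2) // a ≠ a0 ∧ a ∉ B}) hK hD hP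
  set f : Option {a : Fin (k + 2) // a ≠ a0 ∧ a ∉ B} ⊕ {a // a ∈ B} → Fin (k + 2) := fun y =>
    match y with
    | Sum.inl none => a0
    | Sum.inl (some x) => x.1
    | Sum.inr b => b.1 with hf
  have hinj : Function.Injective f := by
    rintro ((_ | x) | b) ((_ | x') | b') h
    · rfl
    · exact absurd (show a0 = x'.1 from h).symm x'.2.1
    · exact absurd (show a0 = b'.1 from h) fun h' => ha0 (h' ▸ b'.2)
    · exact absurd (show x.1 = a0 from h) x.2.1
    · rw [Subtype.ext (show x.1 = x'.1 from h)]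
    · exact absurd b'.2 ((show x.1 = b'.1 from h) ▸ x.2.2)
    · exact absurd (show b.1 = a0 from h) fun h' => ha0 (h' ▸ b.2)
    · exact absurd b.2 ((show b.1 = x'.1 from h) ▸ x'.2.2)
    · rw [Subtype.ext (show b.1 = b'.1 from h)]
  have hsur : Function.Surjective f := by
    intro a
    by_cases h2 : a ∈ B
    · exact ⟨Sum.inr ⟨a, h2⟩, rfl⟩
    · by_cases h3 : a = a0
      · exact ⟨Sum.inl none, h3.symm⟩
      · exact ⟨Sum.inl (some ⟨a, h3, h2⟩), rfl⟩
  set e := (Equiv.ofBijective f ⟨hinj, hsur⟩).symm with he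
  have h2 : PosC J Qb (Fin (k + 2)) (fun a => clC D (e a)) :=
    h1.reindex e fun a => Set.Subset.rfl
  refine h2 W hW n m fun a => ?_
  obtain ⟨y, rfl⟩ := hsur a
  have h3 : e (f y) = y := Equiv.ofBijective_symm_apply_apply f ⟨hinj, hsur⟩ y
  show (m (f y)).parts ∈ clC D (e (f y))
  rw [h3]
  rcases y with (_ | x) | b
  · exact Set.mem_univ _
  · exact (extreme_iff _).1 (hX x.1 x.2.1 x.2.2)
  · exact hm b

/-- Two proper ends. -/
theorem ends_two (hK : IsJack J) {k : ℕ}
    {W : PowerSeries (AA K (Fin (k + 2)))} (hW : IsLog (C al) (tau J (Fin (k + 2))) W)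
    {n : ℕ} (m : Fin (k + 2) → n.Partition) {A B : Finset (Fin (k + 2))}
    (hAB : Disjoint A B) (hA2 : 2 ≤ A.card) (hA : EndOK m A) (hB2 : 2 ≤ B.card)
    (hB : EndOK m B) (hX : ∀ a, a ∉ A → a ∉ B → Extreme (m a)) :
    (PowerSeries.coeff n W).coeff (mon m) ∈ Qb := by
  classical
  obtain ⟨D, hD, hP, hm⟩ := proper_end hK m hA2 hA
  obtain ⟨D', hD', hP', hm'⟩ := proper_end hK m hB2 hB
  have h1 := chain_two (X := {a : Fin (k + 2) // a ∉ A ∧ a ∉ B}) hK hD hD' hP hP'
  have hdis : ∀ a, a ∈ A → a ∉ B := fun a ha => Finset.disjoint_left.1 hAB ha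
  set f : ({a : Fin (k + 2) // a ∉ A ∧ a ∉ B} ⊕ {a // a ∈ A}) ⊕ {a // a ∈ B} → Fin (k + 2) :=
    fun y => match y with
    | Sum.inl (Sum.inl x) => x.1
    | Sum.inl (Sum.inr a) => a.1
    | Sum.inr b => b.1 with hf
  have hinj : Function.Injective f := by
    rintro ((x | a) | b) ((x' | a') | b') h
    · rw [Subtype.ext (show x.1 = x'.1 from h)]
    · exact absurd a'.2 ((show x.1 = a'.1 from h) ▸ x.2.1)
    · exact absurd b'.2 ((show x.1 = b'.1 from h) ▸ x.2.2)
    · exact absurd a.2 ((show a.1 = x'.1 from h) ▸ x'.2.1)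
    · rw [Subtype.ext (show a.1 = a'.1 from h)]
    · exact absurd b'.2 ((show a.1 = b'.1 from h) ▸ hdis _ a.2)
    · exact absurd b.2 ((show b.1 = x'.1 from h) ▸ x'.2.2)
    · exact absurd b.2 ((show b.1 = a'.1 from h) ▸ hdis _ a'.2)
    · rw [Subtype.ext (show b.1 = b'.1 from h)]
  have hsur : Function.Surjective f := by
    intro a
    by_cases h2 : a ∈ B
    · exact ⟨Sum.inr ⟨a, h2⟩, rfl⟩
    · by_cases h3 : a ∈ A
      · exact ⟨Sum.inl (Sum.inr ⟨a, h3⟩), rfl⟩
      · exact ⟨Sum.inl (Sum.inl ⟨a, h3, h2⟩), rfl⟩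
  set e := (Equiv.ofBijective f ⟨hinj, hsur⟩).symm with he
  have h2 : PosC J Qb (Fin (k + 2)) (fun a => clD D D' (e a)) :=
    h1.reindex e fun a => Set.Subset.rfl
  refine h2 W hW n m fun a => ?_
  obtain ⟨y, rfl⟩ := hsur a
  have h3 : e (f y) = y := Equiv.ofBijective_symm_apply_apply f ⟨hinj, hsur⟩ y
  show (m (f y)).parts ∈ clD D D' (e (f y))
  rw [h3]
  rcases y with (x | a) | b
  · exact (extreme_iff _).1 (hX x.1 x.2.1 x.2.2)
  · exact hm a
  · exact hm' b

/-- One end is a single partition. -/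
theorem ends_mixed (hK : IsJack J) {k : ℕ} (hk : 1 ≤ k)
    {W : PowerSeries (AA K (Fin (k + 2)))} (hW : IsLog (C al) (tau J (Fin (k + 2))) W)
    {n : ℕ} (m : Fin (k + 2) → n.Partition) {A B : Finset (Fin (k + 2))}
    (hAB : Disjoint A B) (hA1 : A.card ≤ 1) (hB2 : 2 ≤ B.card)
    (hB : EndOK m B) (hX : ∀ a, a ∉ A → a ∉ B → Extreme (m a)) :
    (PowerSeries.coeff n W).coeff (mon m) ∈ Qb := by
  classical
  by_cases hA : ∃ a0, a0 ∉ B ∧ A ⊆ {a0}
  · obtain ⟨a0, h1, h2⟩ := hA
    refine ends_one hK hW m a0 h1 hB2 hB fun a ha hb => hX a (fun h => ha ?_) hb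
    exact Finset.mem_singleton.1 (h2 h)
  · have hA0 : A = ∅ := by
      rw [← Finset.card_eq_zero]
      by_contra h0
      obtain ⟨a, ha⟩ := Finset.card_eq_one.1 (show A.card = 1 by omega)
      refine hA ⟨a, Finset.disjoint_left.1 hAB ?_, ha.subset⟩
      rw [ha]
      exact Finset.mem_singleton_self a
    have hBu : B = Finset.univ := by
      rw [Finset.eq_univ_iff_forall]
      intro a
      by_contra h
      exact hA ⟨a, h, by rw [hA0]; exact Finset.empty_subset _⟩
    subst hBu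
    have hcard : (Finset.univ : Finset (Fin (k + 2))).card = k + 2 := by
      rw [Finset.card_univ, Fintype.card_fin]
    rcases hB with h | ⟨h, _⟩ | h
    · omega
    · omega
    · refine small_rank hK hk hW m 0 ?_
      refine (Finset.sum_le_sum_of_subset (Finset.erase_subset _ _)).trans
        ((Finset.sum_le_sum fun a _ => ?_).trans h)
      have h4 := rk_parts (m a)
      omega

/-- The logarithm. -/
theorem log_ends (hK : IsJack J) {k : ℕ} (hk : 1 ≤ k)
    {W : PowerSeries (AA K (Fin (k + 2)))} (hW : IsLog (C al) (tau J (Fin (k + 2))) W)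
    {n : ℕ} (m : Fin (k + 2) → n.Partition) {A B : Finset (Fin (k + 2))}
    (hA : EndOK m A) (hB : EndOK m B) (hX : ∀ a, a ∉ A → a ∉ B → Extreme (m a)) :
    (PowerSeries.coeff n W).coeff (mon m) ∈ Qb := by
  classical
  have hB' : EndOK m (B \ A) := hB.anti Finset.sdiff_subset
  have hX' : ∀ a, a ∉ A → a ∉ B \ A → Extreme (m a) := fun a ha hb =>
    hX a ha fun h => hb (Finset.mem_sdiff.2 ⟨h, ha⟩)
  have hd : Disjoint A (B \ A) := Finset.disjoint_sdiff
  rcases Nat.lt_or_ge A.card 2 with h1 | h1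
  · rcases Nat.lt_or_ge (B \ A).card 2 with h2 | h2
    · have h3 : (A ∪ (B \ A)).card ≤ 2 := by
        rw [Finset.card_union_of_disjoint hd]
        omega
      obtain ⟨U, hU, hU2⟩ := Finset.exists_superset_card_eq h3 (by
        rw [Fintype.card_fin]
        omega)
      obtain ⟨p, q, hpq, rfl⟩ := Finset.card_eq_two.1 hU2
      refine W_all hK hk hW hpq m fun a hp hq => hX' a (fun h => ?_) fun h => ?_
      · have h4 := hU (Finset.mem_union_left _ h)
        rw [Finset.mem_insert, Finset.mem_singleton] at h4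
        exact h4.elim hp hq
      · have h4 := hU (Finset.mem_union_right _ h)
        rw [Finset.mem_insert, Finset.mem_singleton] at h4
        exact h4.elim hp hq
    · exact ends_mixed hK hk hW m hd (by omega) h2 hB' hX'
  · rcases Nat.lt_or_ge (B \ A).card 2 with h2 | h2
    · exact ends_mixed hK hk hW m hd.symm (by omega) h1 hA fun a ha hb => hX' a hb ha
    · exact ends_two hK hW m hd h1 hA h2 hB' hX'

/-- The main theorem. -/
theorem all_ends (hK : IsJack J) {k : ℕ} (hk : 1 ≤ k) {n : ℕ} (hn : 1 ≤ n)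
    (m : Fin (k + 2) → n.Partition) {A B : Finset (Fin (k + 2))}
    (hA : EndOK m A) (hB : EndOK m B) (hX : ∀ a, a ∉ A → a ∉ B → Extreme (m a)) :
    cJ J k m ∈ Nb ∧ hJ J k m ∈ Nb ∧
    ∀ i : ℕ, ((i : K) * ((m 0).parts.count i : K) / (n : K)) * hJ J k m ∈ Nb := by
  obtain ⟨W, hW⟩ := IsLog.exists_log al (tau_zero hK.unital (Fin (k + 2)))
  obtain ⟨hc, hh, hi⟩ := integral hK hk hn m
  have h1 : hJ J k m = (n : K) * (PowerSeries.coeff n W).coeff (mon m) :=
    coeff_Psi hK.unital hW n (mon m)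
  have h2 : hJ J k m ∈ Qb := by
    rw [h1]
    exact Qb.mul_mem (natCast_mem Qb n) (log_ends hK hk hW m hA hB hX)
  refine ⟨mem_Nb hc ?_, mem_Nb hh h2, fun i => mem_Nb (hi i) ?_⟩
  · exact c_of_sub hK.unital al_mem_Qb hW 0 fun n' m' hm' =>
      log_ends hK hk hW m' (hA.sub hm') (hB.sub hm') fun a ha hb => (hX a ha hb).sub (hm' a)
  · refine Qb.mul_mem ?_ h2
    have h4 := rat_mem_Qb ((i : ℚ) * ((m 0).parts.count i : ℚ) / (n : ℚ)) (by positivity)
    have h5 : (((i : ℚ) * ((m 0).parts.count i : ℚ) / (n : ℚ) : ℚ) : K)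
        = (i : K) * ((m 0).parts.count i : K) / (n : K) := by
      push_cast
      rfl
    rw [← h5]
    exact h4

end Ends

end Pool.Agent.JackB
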