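import Pool.Agent.Lib.JackB.Pde

/-!
The operators `P` and `nat Q` commute on the exponential vectors (problem MP_b52a9f_co).
-/

open MvPolynomial

namespace Pool.Agent.JackB

section Gpar

variable {F : Type*} [Field F] {L : Type*}

/-- The polynomials in the variables that are constants for the alphabet `a`. -/
noncomputable def Gp (F : Type*) [Field F] {L : Type*} (a : L) : Subalgebra F (AA F L) :=
  Algebra.adjoin F {f | ∃ v, Pv a v ∧ f = X v}

theorem Gp_X {a : L} {v : L × ℕ} (hv : Pv a v) : (X v : AA F L) ∈ Gp F a :=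
  Algebra.subset_adjoin ⟨v, hv, rfl⟩

theorem rr_Gp {a : L} {r : ℕ → AA F L} (hr : ∀ i, r i ∈ Gp F a) (nu : Multiset ℕ) :
    rr r nu ∈ Gp F a := by
  induction nu using Multiset.induction_on with
  | empty =>
    have h1 : rr r (0 : Multiset ℕ) = 1 := by simp [rr]
    rw [h1]
    exact (Gp F a).one_mem
  | cons j nu ih =>
    rw [rr_cons]
    exact (Gp F a).mul_mem (hr j) ih

variable [DecidableEq L] {al b : F} {a : L} {T : ℕ → VV F L →ₗ[F] VV F L}

theorem Md_Gp {g : AA F L} (hg : g ∈ Gp F a) : Md al a g = 0 := by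
  induction hg using Algebra.adjoin_induction with
  | mem x hx =>
    obtain ⟨v, hv, rfl⟩ := hx
    exact Md_X_par al hv
  | algebraMap c => exact Derivation.map_algebraMap _ _
  | add x y _ _ hx hy => rw [map_add, hx, hy, add_zero]
  | mul x y _ _ hx hy => rw [Derivation.leibniz, hx, hy, smul_zero, smul_zero, add_zero]

omit [DecidableEq L] in
theorem lin_Gp {P0 : AA F L →ₗ[F] AA F L} (hP2 : ∀ v, Pv a v → ∀ f, P0 (X v * f) = X v * P0 f)
    {g : AA F L} (hg : g ∈ Gp F a) (f : AA F L) : P0 (g * f) = g * P0 f := by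
  induction hg using Algebra.adjoin_induction generalizing f with
  | mem x hx =>
    obtain ⟨v, hv, rfl⟩ := hx
    exact hP2 v hv f
  | algebraMap c => rw [← Algebra.smul_def, map_smul, Algebra.smul_def]
  | add x y _ _ hx hy => rw [add_mul, map_add, hx, hy, add_mul]
  | mul x y _ _ hx hy => rw [mul_assoc, hx, hy, mul_assoc]

/-- The operators that are linear over the constants and commute with the Lax operator and with
the `T k`. -/
structure Cx (al b : F) (a : L) (T : ℕ → VV F L →ₗ[F] VV F L) (S : VV F L →ₗ[F] VV F L) :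
    Prop where
  lx : ∀ u, S (LX al b a u) = LX al b a (S u)
  tk : ∀ k u, S (T k u) = T k (S u)
  par : ∀ g ∈ Gp F a, ∀ u, S (Polynomial.C g * u) = Polynomial.C g * S u

theorem Cm.cx {S : VV F L →ₗ[F] VV F L} (h : Cm al b a T S) : Cx al b a T S where
  lx := h.lx
  tk := h.tk
  par := fun g hg u => h.par g (Md_Gp hg) u

theorem cx_lift [CharZero F] (hal : al ≠ 0) (hT : ∀ n, IsLift al b a (hk al b a n) (T n))
    {P0 : AA F L →ₗ[F] AA F L} {P : VV F L →ₗ[F] VV F L} (hP : IsLift al b a P0 P)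
    (hPk : ∀ k f, P0 (hk al b a k f) = hk al b a k (P0 f))
    (hP2 : ∀ v, Pv a v → ∀ f, P0 (X v * f) = X v * P0 f) : Cx al b a T P where
  lx := hP.lx
  tk := fun k u => hP.commute hal (hT k) (hPk k) u
  par := fun _ hg u => hP.par hal (Md_Gp hg) (lin_Gp hP2 hg) u

theorem cx_nat [CharZero F] (hal : al ≠ 0) (hT : ∀ n, IsLift al b a (hk al b a n) (T n))
    {P0 : AA F L →ₗ[F] AA F L} {P : VV F L →ₗ[F] VV F L} (hP : IsLift al b a P0 P)
    (hPk : ∀ k f, P0 (hk al b a k f) = hk al b a k (P0 f))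
    (hP2 : ∀ v, Pv a v → ∀ f, P0 (X v * f) = X v * P0 f) : Cx al b a T (nat P) where
  lx := nat_LX hP
  tk := nat_T_comm hal hT hP (fun k u => hP.commute hal (hT k) (hPk k) u)
  par := fun g hg u => by
    have h2 : (Yp (Polynomial.C g * u) : VV F L) = Polynomial.C g * Yp u := by
      rw [Yp_apply, Yp_apply, mul_left_comm]
    rw [nat_apply, nat_apply, h2, hP.par hal (Md_Gp hg) (lin_Gp hP2 hg), Ym_C_mul]

/-- The operators commuting with all the operators `Cx`, and belonging to them. -/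
structure Bc (al b : F) (a : L) (T : ℕ → VV F L →ₗ[F] VV F L) (O : VV F L →ₗ[F] VV F L) :
    Prop where
  cx : Cx al b a T O
  bc : ∀ S, Cx al b a T S → ∀ u, S (O u) = O (S u)

theorem Bc.add {O O' : VV F L →ₗ[F] VV F L} (h : Bc al b a T O) (h' : Bc al b a T O') :
    Bc al b a T (O + O') where
  cx := ⟨fun u => by
      rw [LinearMap.add_apply, LinearMap.add_apply, h.cx.lx, h'.cx.lx, map_add],
    fun k u => by
      rw [LinearMap.add_apply, LinearMap.add_apply, h.cx.tk, h'.cx.tk, map_add],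
    fun g hg u => by
      rw [LinearMap.add_apply, LinearMap.add_apply, h.cx.par g hg, h'.cx.par g hg, mul_add]⟩
  bc := fun S hS u => by
    rw [LinearMap.add_apply, LinearMap.add_apply, map_add, h.bc S hS, h'.bc S hS]

theorem Bc.comp {O O' : VV F L →ₗ[F] VV F L} (h : Bc al b a T O) (h' : Bc al b a T O') :
    Bc al b a T (O ∘ₗ O') where
  cx := ⟨fun u => by
      rw [LinearMap.comp_apply, LinearMap.comp_apply, h'.cx.lx, h.cx.lx],
    fun k u => by
      rw [LinearMap.comp_apply, LinearMap.comp_apply, h'.cx.tk, h.cx.tk],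
    fun g hg u => by
      rw [LinearMap.comp_apply, LinearMap.comp_apply, h'.cx.par g hg, h.cx.par g hg]⟩
  bc := fun S hS u => by
    rw [LinearMap.comp_apply, LinearMap.comp_apply, h.bc S hS, h'.bc S hS]

theorem bc_mul [CharZero F] (hal : al ≠ 0) (hT : ∀ n, IsLift al b a (hk al b a n) (T n))
    {g : AA F L} (hg : g ∈ Gp F a) : Bc al b a T (LinearMap.mulLeft F (Polynomial.C g)) where
  cx := (Cm_mul hal hT (Md_Gp hg)).cx
  bc := fun S hS u => by
    rw [LinearMap.mulLeft_apply, LinearMap.mulLeft_apply, hS.par g hg]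

omit [DecidableEq L] in
theorem r1_Gp (i : ℕ) : r1 F L i ∈ Gp F a := by
  by_cases h : i = 1
  · rw [h, r1_one]
    exact (Gp F a).one_mem
  · rw [r1_ne h]
    exact (Gp F a).zero_mem

theorem OI.bc [CharZero F] (hal : al ≠ 0) (hT : ∀ n, IsLift al b a (hk al b a n) (T n))
    (hc : ∀ k l f, hk al b a k (hk al b a l f) = hk al b a l (hk al b a k f))
    {R : Subring F} {O : VV F L →ₗ[F] VV F L} (h : OI al b a T R (r1 F L) O) : Bc al b a T O := by
  induction h with
  | lx => exact ⟨(Cm_lx hT).cx, fun S hS u => hS.lx u⟩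
  | tk k => exact ⟨(Cm_tk hal hT hc k).cx, fun S hS u => hS.tk k u⟩
  | sc s _ => exact bc_mul hal hT ((Gp F a).algebraMap_mem s)
  | pr i => exact bc_mul hal hT (r1_Gp i)
  | add O O' _ _ ih ih' => exact ih.add ih'
  | comp O O' _ _ ih ih' => exact ih.comp ih'

/-- The exponential vectors with parameters are in the orbit of the simple ones. -/
theorem orb [CharZero F] (hal : al ≠ 0) (hT : ∀ n, IsLift al b a (hk al b a n) (T n))
    (hc : ∀ k l f, hk al b a k (hk al b a l f) = hk al b a l (hk al b a k f))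
    {r : ℕ → AA F L} (hr : ∀ i, r i ∈ Gp F a) (m k : ℕ) :
    ∃ O, Bc al b a T O ∧ O (mo 0 (vv al a (r1 F L) (m + k))) = mo k (vv al a r m) := by
  have h1 : ∀ l : m.Partition, ∃ O, Bc al b a T O ∧ O (mo 0 (vv al a (r1 F L) (m + k)))
      = mo k (C ((zz l.parts : F) * al ^ l.parts.card)⁻¹ * (pm F a l.parts * rr r l.parts)) := by
    intro l
    obtain ⟨O, hO, h2⟩ := exists_OI hal hT hc k ((zz l.parts : F) * al ^ l.parts.card)⁻¹ l.parts
      (fun i hi => l.parts_pos hi)
    refine ⟨LinearMap.mulLeft F (Polynomial.C (rr r l.parts)) ∘ₗ O,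
      (bc_mul hal hT (rr_Gp hr _)).comp (hO.bc hal hT hc), ?_⟩
    rw [l.parts_sum] at h2
    rw [LinearMap.comp_apply, LinearMap.mulLeft_apply, h2, C_mul_mo]
    congr 1
    ring
  have h3 : ∀ s : Finset m.Partition, ∃ O, Bc al b a T O ∧
      O (mo 0 (vv al a (r1 F L) (m + k))) = mo k (∑ l ∈ s,
        C ((zz l.parts : F) * al ^ l.parts.card)⁻¹ * (pm F a l.parts * rr r l.parts)) := by
    intro s
    classical
    induction s using Finset.induction_on with
    | empty =>
      refine ⟨LinearMap.mulLeft F (Polynomial.C (C 0)), bc_mul hal hT ((Gp F a).algebraMap_mem 0), ?_⟩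
      rw [LinearMap.mulLeft_apply, C_0, Polynomial.C_0, zero_mul, Finset.sum_empty, map_zero]
    | insert l s hl ih =>
      obtain ⟨O, hO, h4⟩ := ih
      obtain ⟨O', hO', h5⟩ := h1 l
      refine ⟨O' + O, hO'.add hO, ?_⟩
      rw [Finset.sum_insert hl, map_add, LinearMap.add_apply, h4, h5]
  exact h3 Finset.univ

/-- Operators commuting with everything commute on vectors with images in the orbit. -/
theorem comm_of_orb {P S : VV F L →ₗ[F] VV F L} (hP : Cx al b a T P) (hS : Cx al b a T S)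
    {v : VV F L} (h1 : ∃ O, Bc al b a T O ∧ O v = P v) (h2 : ∃ O, Bc al b a T O ∧ O v = S v) :
    S (P v) = P (S v) := by
  obtain ⟨O, hO, h1⟩ := h1
  obtain ⟨O', hO', h2⟩ := h2
  rw [← h1, hO.bc S hS, ← h2, hO'.bc P hP, ← h1, hO'.bc O hO.cx]

/-- The image of the exponential vector under `nat Q` is in the orbit. -/
theorem orb_nat [CharZero F] (hal : al ≠ 0) (hT : ∀ n, IsLift al b a (hk al b a n) (T n))
    (hc : ∀ k l f, hk al b a k (hk al b a l f) = hk al b a l (hk al b a k f))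
    {q : ℕ → AA F L} (hq : ∀ i, q i ∈ Gp F a) (n : ℕ) :
    ∃ O, Bc al b a T O ∧ O (mo 0 (vv al a (r1 F L) n))
      = PowerSeries.coeff n (ve al a q * Gr q) := by
  have h1 : ∀ p ∈ Finset.HasAntidiagonal.antidiagonal n, ∃ O, Bc al b a T O ∧
      O (mo 0 (vv al a (r1 F L) n))
      = PowerSeries.coeff p.1 (ve al a q) * PowerSeries.coeff p.2 (Gr q) := by
    intro p hp
    rw [Finset.HasAntidiagonal.mem_antidiagonal] at hp
    obtain ⟨O, hO, h2⟩ := orb hal hT hc hq p.1 p.2
    refine ⟨LinearMap.mulLeft F (Polynomial.C (q (p.2 + 1))) ∘ₗ O,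
      (bc_mul hal hT (hq _)).comp hO, ?_⟩
    rw [hp] at h2
    rw [LinearMap.comp_apply, LinearMap.mulLeft_apply, h2, C_mul_mo, coeff_ve, Gr,
      PowerSeries.coeff_mk, mo_zero_eq, C_mul_mo, mul_comm]
  have h3 : ∀ s ⊆ Finset.HasAntidiagonal.antidiagonal n, ∃ O, Bc al b a T O ∧
      O (mo 0 (vv al a (r1 F L) n)) = ∑ p ∈ s,
        PowerSeries.coeff p.1 (ve al a q) * PowerSeries.coeff p.2 (Gr q) := by
    intro s
    induction s using Finset.induction_on with
    | empty =>
      intro _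
      refine ⟨LinearMap.mulLeft F (Polynomial.C (C 0)), bc_mul hal hT ((Gp F a).algebraMap_mem 0), ?_⟩
      rw [LinearMap.mulLeft_apply, C_0, Polynomial.C_0, zero_mul, Finset.sum_empty]
    | insert l s hl ih =>
      intro hs
      obtain ⟨O, hO, h4⟩ := ih ((Finset.subset_insert l s).trans hs)
      obtain ⟨O', hO', h5⟩ := h1 l (hs (Finset.mem_insert_self l s))
      refine ⟨O' + O, hO'.add hO, ?_⟩
      rw [Finset.sum_insert hl, LinearMap.add_apply, h4, h5]
  rw [PowerSeries.coeff_mul]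
  exact h3 _ subset_rfl

/-- The commutation. -/
theorem nat_Q_P [CharZero F] (hal : al ≠ 0) (hT : ∀ n, IsLift al b a (hk al b a n) (T n))
    (hc : ∀ k l f, hk al b a k (hk al b a l f) = hk al b a l (hk al b a k f))
    {r q : ℕ → AA F L} (hr : ∀ i, r i ∈ Gp F a) (hq : ∀ i, q i ∈ Gp F a) (hq0 : q 0 = 0)
    {P0 Q0 : AA F L →ₗ[F] AA F L} {P Q : VV F L →ₗ[F] VV F L}
    (hP : IsLift al b a P0 P) (hQ : IsLift al b a Q0 Q)
    (hPk : ∀ k f, P0 (hk al b a k f) = hk al b a k (P0 f))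
    (hQk : ∀ k f, Q0 (hk al b a k f) = hk al b a k (Q0 f))
    (hP2 : ∀ v, Pv a v → ∀ f, P0 (X v * f) = X v * P0 f)
    (hQ2 : ∀ v, Pv a v → ∀ f, Q0 (X v * f) = X v * Q0 f)
    (hPe : ∀ n, P0 (vv al a (r1 F L) n) = vv al a r n)
    (hQe : ∀ n, Q0 (vv al a (r1 F L) n) = vv al a q n) (n : ℕ) :
    nat Q (mo 0 (vv al a r n)) = P (PowerSeries.coeff n (ve al a q * Gr q)) := by
  have h1 := comm_of_orb (cx_lift hal hT hP hPk hP2) (cx_nat hal hT hQ hQk hQ2)
    (v := mo 0 (vv al a (r1 F L) n)) (by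
      obtain ⟨O, hO, h⟩ := orb hal hT hc hr n 0
      exact ⟨O, hO, by rw [hP.mo, hPe]; exact h⟩) (by
      obtain ⟨O, hO, h⟩ := orb_nat hal hT hc hq n
      exact ⟨O, hO, by
        rw [nat_P_e hal (fun i => Md_Gp (hq i)) hq0 hQ hQe]
        exact h⟩)
  rw [hP.mo, hPe, nat_P_e hal (fun i => Md_Gp (hq i)) hq0 hQ hQe] at h1
  exact h1

end Gpar

end Pool.Agent.JackB
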