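import Pool.Agent.Lib.JackB.Coef

/-!
The reduction of all `k` to `k = 1` (problem MP_b52a9f_co).
-/

open MvPolynomial

namespace Pool.Agent.JackB

theorem al_ne_zero : al ≠ 0 := by
  have h1 : al = algebraMap (Polynomial ℚ) K (1 + Polynomial.X) := by
    rw [map_add, map_one, RatFunc.algebraMap_X]
    rfl
  rw [h1, Ne, map_eq_zero_iff _ (RatFunc.algebraMap_injective ℚ)]
  intro h2
  have h3 := congrArg (fun p : Polynomial ℚ => p.coeff 1) h2
  simp [Polynomial.coeff_one] at h3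

/-- The classes of bad exponents: none for the first two alphabets, `B` for the others. -/
def bk (B : Set (ℕ → ℕ)) (k : ℕ) : Fin (k + 2) → Set (ℕ → ℕ) :=
  fun c => if c.val < 2 then ∅ else B

theorem bk_up {B : Set (ℕ → ℕ)} (hB : ∀ x y, x ∈ B → x ≤ y → y ∈ B) (k : ℕ) :
    UpCl (bk B k) := by
  intro a x y hx hxy
  unfold bk at hx ⊢
  split_ifs at hx ⊢ with h
  · exact hx
  · exact hB x y hx hxy

/-- The classes of bad exponents in the glued set of alphabets. -/
def bg (B : Set (ℕ → ℕ)) (k : ℕ) : Fin 2 ⊕ Fin (k + 1) → Set (ℕ → ℕ)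
  | Sum.inl a => if a = 0 then ∅ else B
  | Sum.inr b => if b = 0 then ∅ else B

theorem bg_up {B : Set (ℕ → ℕ)} (hB : ∀ x y, x ∈ B → x ≤ y → y ∈ B) (k : ℕ) :
    UpCl (bg B k) := by
  intro a x y hx hxy
  rcases a with a | a
  · show y ∈ (if a = 0 then (∅ : Set (ℕ → ℕ)) else B)
    have hx' : x ∈ (if a = 0 then (∅ : Set (ℕ → ℕ)) else B) := hx
    split_ifs at hx' ⊢ with h
    · exact hx'
    · exact hB x y hx' hxy
  · show y ∈ (if a = 0 then (∅ : Set (ℕ → ℕ)) else B)
    have hx' : x ∈ (if a = 0 then (∅ : Set (ℕ → ℕ)) else B) := hx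
    split_ifs at hx' ⊢ with h
    · exact hx'
    · exact hB x y hx' hxy

/-- The identification of the glued alphabets with `Fin (k + 3)`. -/
def eg (k : ℕ) : Fin 2 ⊕ Fin (k + 1) ≃ Fin (k + 1 + 2) :=
  (finSumFinEquiv.trans (finCongr (by omega))).trans (Equiv.swap 1 2)

theorem swap_val (k : ℕ) (x : Fin (k + 1 + 2)) :
    (Equiv.swap (1 : Fin (k + 1 + 2)) 2 x).val
      = if x.val = 1 then 2 else if x.val = 2 then 1 else x.val := by
  have hv1 : ((1 : Fin (k + 1 + 2)) : ℕ) = 1 := rfl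
  have hv2 : ((2 : Fin (k + 1 + 2)) : ℕ) = 2 := rfl
  rw [Equiv.swap_apply_def]
  by_cases h1 : x = 1
  · rw [if_pos h1, h1, if_pos hv1, hv2]
  · have h1' : x.val ≠ 1 := fun h => h1 (Fin.ext (h.trans hv1.symm))
    rw [if_neg h1, if_neg h1']
    by_cases h2 : x = 2
    · rw [if_pos h2, h2, if_pos hv2, hv1]
    · have h2' : x.val ≠ 2 := fun h => h2 (Fin.ext (h.trans hv2.symm))
      rw [if_neg h2, if_neg h2']

theorem eg_inl (k : ℕ) (a : Fin 2) : (eg k (Sum.inl a)).val = if a.val = 1 then 2 else a.val := by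
  rw [eg, Equiv.trans_apply, swap_val]
  have h1 : ((finSumFinEquiv.trans (finCongr (by omega : 2 + (k + 1) = k + 1 + 2)))
    (Sum.inl a : Fin 2 ⊕ Fin (k + 1))).val = a.val := by simp
  rw [h1]
  have h2 := a.isLt
  split_ifs <;> omega

theorem eg_inr (k : ℕ) (a : Fin (k + 1)) :
    (eg k (Sum.inr a)).val = if a.val = 0 then 1 else a.val + 2 := by
  rw [eg, Equiv.trans_apply, swap_val]
  have h1 : ((finSumFinEquiv.trans (finCongr (by omega : 2 + (k + 1) = k + 1 + 2)))
    (Sum.inr a : Fin 2 ⊕ Fin (k + 1))).val = 2 + a.val := by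
    simp [add_comm]
  rw [h1]
  split_ifs <;> omega

theorem eg_zero (k : ℕ) : eg k (Sum.inl 0) = 0 := by
  apply Fin.ext
  rw [eg_inl]
  rfl

theorem bk_eg (B : Set (ℕ → ℕ)) (k : ℕ) (a : Fin 2 ⊕ Fin (k + 1)) :
    bk B (k + 1) (eg k a) = bg B k a := by
  rcases a with a | a
  · show (if (eg k (Sum.inl a)).val < 2 then (∅ : Set (ℕ → ℕ)) else B) = if a = 0 then ∅ else B
    rw [eg_inl]
    have h2 := a.isLt
    by_cases h : a = 0
    · subst h
      simp
    · have h' : a.val ≠ 0 := fun h0 => h (Fin.ext h0)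
      have h'' : a.val = 1 := by omega
      rw [if_pos h'', if_neg (by omega), if_neg h]
  · show (if (eg k (Sum.inr a)).val < 2 then (∅ : Set (ℕ → ℕ)) else B) = if a = 0 then ∅ else B
    rw [eg_inr]
    by_cases h : a = 0
    · subst h
      simp
    · have h' : a.val ≠ 0 := fun h0 => h (Fin.ext h0)
      rw [if_neg h', if_neg (by omega), if_neg h]

/-- The induction over the number of alphabets. -/
theorem fine_all {J : Fam} (hJ : Orth J) (h0 : Unital J) {S : Subsemiring K} (halS : al ∈ S)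
    {B : Set (ℕ → ℕ)} (hB : ∀ x y, x ∈ B → x ≤ y → y ∈ B)
    (h : Fine J S (Fin 3) (bk B 1) 0) (k : ℕ) :
    Fine J S (Fin (k + 1 + 2)) (bk B (k + 1)) 0 := by
  induction k with
  | zero => exact h
  | succ k ih =>
    -- the series with three alphabets, leg = alphabet 1
    have hsw : Fine J S (Fin 3) (bk B 1) 1 := by
      have h1 := h.reindex h0 (bk_up hB 1) (bk_up hB 1) (Equiv.swap (0 : Fin 3) 1) (by
        intro a
        fin_cases a <;> rfl)
      exact h1
    have hup := bg_up hB (k + 1)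
    have e1 : ∀ a, badL (bg B (k + 1)) (finSuccEquiv' (1 : Fin 3) a) = bk B 1 a := by
      intro a
      fin_cases a <;> rfl
    have e2 : ∀ a, badR (bg B (k + 1)) (finSuccEquiv (k + 2) a) = bk B (k + 1) a := by
      intro a
      refine Fin.cases ?_ (fun b => ?_) a
      · rw [finSuccEquiv_zero]
        rfl
      · rw [finSuccEquiv_succ]
        show (if b = 0 then (∅ : Set (ℕ → ℕ)) else B) = if b.succ.val < 2 then ∅ else B
        by_cases hb : b = 0
        · subst hb
          simp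
        · have h' : b.val ≠ 0 := fun h0 => hb (Fin.ext h0)
          rw [if_neg hb, if_neg (by rw [Fin.val_succ]; omega)]
    have hf := hsw.reindex h0 (bk_up hB 1) (badL_up hup) (finSuccEquiv' (1 : Fin 3)) e1
    have ha := h.reindex h0 (bk_up hB 1) (badL_up hup) (finSuccEquiv' (1 : Fin 3)) e1
    have hg := ih.reindex h0 (bk_up hB (k + 1)) (badR_up hup) (finSuccEquiv (k + 2)) e2
    rw [finSuccEquiv_zero] at hg
    have hst := step hJ h0 halS al_ne_zero hup hf hg (0 : Fin 2) ha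
    have hfin := hst.reindex h0 hup (bk_up hB (k + 1 + 1)) (eg (k + 1)) (bk_eg B (k + 1))
    rw [eg_zero] at hfin
    exact hfin

/-- The exponents of multisets that are not in a class `Cl` closed downwards. -/
def notCl (Cl : Set (Multiset ℕ)) : Set (ℕ → ℕ) :=
  {x | ∃ t : Multiset ℕ, t ∉ Cl ∧ ∀ i, t.count i ≤ x i}

theorem notCl_up (Cl : Set (Multiset ℕ)) : ∀ x y, x ∈ notCl Cl → x ≤ y → y ∈ notCl Cl := by
  rintro x y ⟨t, ht, hx⟩ hxy
  exact ⟨t, ht, fun i => (hx i).trans (hxy i)⟩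

theorem notCl_iff {Cl : Set (Multiset ℕ)} (hCl : ∀ s t, s ≤ t → t ∈ Cl → s ∈ Cl)
    (s : Multiset ℕ) : (fun i => s.count i) ∉ notCl Cl ↔ s ∈ Cl := by
  constructor
  · intro h
    by_contra hs
    exact h ⟨s, hs, fun i => le_rfl⟩
  · rintro hs ⟨t, ht, hx⟩
    exact ht (hCl t s (Multiset.le_iff_count.2 hx) hs)

theorem good_bk {Cl : Set (Multiset ℕ)} (hCl : ∀ s t, s ≤ t → t ∈ Cl → s ∈ Cl) {k n : ℕ}
    (m : Fin (k + 2) → n.Partition) :
    Good (bk (notCl Cl) k) m ↔ ∀ a : Fin (k + 2), 2 ≤ a.val → (m a).parts ∈ Cl := by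
  constructor
  · intro h a ha
    have h1 := h a
    unfold bk at h1
    rw [if_neg (by omega), notCl_iff hCl] at h1
    exact h1
  · intro h a
    unfold bk
    split_ifs with ha
    · exact Set.notMem_empty _
    · rw [notCl_iff hCl]
      exact h a (by omega)

/-- The family with `J_∅ = 1` is orthogonal and normalised. -/
theorem IsJack.unital {J : Fam} (hJ : IsJack J) : Unital J := by
  intro th l
  obtain ⟨a, ha, _, h1⟩ := hJ.tri 0 th
  have hth : ∀ m : (0 : ℕ).Partition, m = ones 0 := fun m => Subsingleton.elim _ _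
  rw [Fintype.sum_unique, Fintype.sum_unique] at ha
  have hp : ∀ l : (0 : ℕ).Partition, l.parts = 0 := by
    intro l
    rw [Multiset.eq_zero_iff_forall_notMem]
    intro i hi
    have h1 := l.parts_pos hi
    have h2 := Multiset.single_le_sum (fun _ _ => Nat.zero_le _) _ hi
    rw [l.parts_sum] at h2
    omega
  have h2 : psumPart (Fin 0) K (default : (0 : ℕ).Partition) = 1 := by
    rw [psumPart, hp]
    simp
  have h3 : msymm (Fin 0) K (default : (0 : ℕ).Partition) = 1 := by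
    have : (default : (0 : ℕ).Partition) = Nat.Partition.indiscrete 0 := Subsingleton.elim _ _
    rw [this]
    exact msymm_zero _ _
  rw [h2, h3, mul_one, mul_one, C_inj] at ha
  rw [Subsingleton.elim l default, ha, hth default, h1]
  simp

/-- The reduction, for the coefficients. -/
theorem reduction {J : Fam} (hO : Orth J) (h0 : Unital J) {S : Subsemiring K} (halS : al ∈ S)
    {Cl : Set (Multiset ℕ)} (hCl : ∀ s t, s ≤ t → t ∈ Cl → s ∈ Cl)
    (h : ∀ n : ℕ, 1 ≤ n → ∀ m : Fin (1 + 2) → n.Partition,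
      (∀ a : Fin (1 + 2), 2 ≤ a.val → (m a).parts ∈ Cl) → ∀ i : ℕ,
      ((i : K) * ((m 0).parts.count i : K) / (n : K)) * hJ J 1 m ∈ S)
    {k : ℕ} (hk : 1 ≤ k) {n : ℕ} (hn : 1 ≤ n) (m : Fin (k + 2) → n.Partition)
    (hm : ∀ a : Fin (k + 2), 2 ≤ a.val → (m a).parts ∈ Cl) :
    cJ J k m ∈ S ∧ hJ J k m ∈ S ∧
      ∀ i : ℕ, ((i : K) * ((m 0).parts.count i : K) / (n : K)) * hJ J k m ∈ S := by
  obtain ⟨k, rfl⟩ := Nat.exists_eq_add_of_le' hk
  have hF1 : Fine J S (Fin 3) (bk (notCl Cl) 1) 0 := by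
    refine fine_of_coeff h0 al_ne_zero rfl fun n hn m hm i => ?_
    exact h n hn m ((good_bk hCl m).1 hm) i
  have hF := fine_all hO h0 halS (notCl_up Cl) hF1 k
  have hgood := (good_bk hCl m).2 hm
  have hup := bk_up (notCl_up Cl) (k + 1)
  refine ⟨?_, ?_, fun i => ?_⟩
  · exact c_of_fine h0 al_ne_zero halS hup rfl hF hgood
  · exact psi_of_fine h0 hup hF hn hgood
  · exact coeff_of_fine h0 hup hF hn hgood i

end Pool.Agent.JackB
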