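import Pool.Agent.Lib.JackB.Cyc
import Pool.Agent.Lib.JackB.Red

/-!
The operator multiplying the Jack function `J_θ` of one alphabet by the Jack function `J_θ` in
the parameters `r` (problem MP_b52a9f_co).
-/

open MvPolynomial

namespace Pool.Agent.JackB

section ParMap

variable {L : Type*}

theorem toMultiset_ex (a : L) (lam : Multiset ℕ) :
    (Finsupp.toMultiset (ex a lam)).map Prod.snd = lam := by
  induction lam using Multiset.induction_on with
  | empty => simp [ex]
  | cons i lam ih =>
    rw [ex_cons, map_add, Multiset.map_add, ih, Finsupp.toMultiset_single, one_smul,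
      Multiset.map_singleton, Multiset.singleton_add]

theorem exists_par_map (a : L) (φ : Multiset ℕ → AA K L) :
    ∃ T : AA K L →ₗ[K] AA K L,
      (∀ lam : Multiset ℕ, (∀ i ∈ lam, 1 ≤ i) → T (pm K a lam) = φ lam) ∧
      (∀ v, Pv a v → ∀ f, T (X v * f) = X v * T f) := by
  classical
  set T : AA K L →ₗ[K] AA K L := (basisMonomials (L × ℕ) K).constr K fun d =>
    monomial (d.filter (fun v => Pv a v)) 1 *
      φ ((Finsupp.toMultiset (d.filter (fun v => ¬ Pv a v))).map Prod.snd) with hT
  have key : ∀ d (c : K), T (monomial d c) = C c * (monomial (d.filter (fun v => Pv a v)) 1 *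
      φ ((Finsupp.toMultiset (d.filter (fun v => ¬ Pv a v))).map Prod.snd)) := by
    intro d c
    have h1 : (monomial d c : AA K L) = c • (basisMonomials (L × ℕ) K) d := by
      rw [coe_basisMonomials, smul_monomial, smul_eq_mul, mul_one]
    rw [h1, map_smul, hT, Module.Basis.constr_basis, smul_eq_C_mul]
  refine ⟨T, ?_, ?_⟩
  · intro lam hl
    have h1 : (ex a lam).filter (fun v => Pv a v) = 0 := by
      rw [Finsupp.filter_eq_zero_iff]
      rintro ⟨c, i⟩ hv
      rw [ex_apply]
      split_ifs with h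
      · have h2 : i = 0 := hv h.symm
        rw [h2, Multiset.count_eq_zero]
        intro h0
        have := hl 0 h0
        omega
      · rfl
    have h2 : (ex a lam).filter (fun v => ¬ Pv a v) = ex a lam := by
      have h3 := Finsupp.filter_add_filter_not (ex a lam) (fun v => Pv a v)
      rw [h1, zero_add] at h3
      exact h3
    rw [pm_eq_monomial, key, h1, h2, toMultiset_ex]
    simp
  · intro v hv f
    induction f using MvPolynomial.induction_on' with
    | monomial d c =>
      have h1 : (X v : AA K L) * monomial d c = monomial (Finsupp.single v 1 + d) c := by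
        rw [X, monomial_mul, one_mul]
      have h2 : (Finsupp.single v 1 + d).filter (fun v => Pv a v)
          = Finsupp.single v 1 + d.filter (fun v => Pv a v) := by
        rw [Finsupp.filter_add, Finsupp.filter_single_of_pos _ hv]
      have h3 : (Finsupp.single v 1 + d).filter (fun v => ¬ Pv a v)
          = d.filter (fun v => ¬ Pv a v) := by
        rw [Finsupp.filter_add, Finsupp.filter_single_of_neg (fun v => ¬ Pv a v) (not_not.2 hv),
          zero_add]
      have h4 : (monomial (Finsupp.single v 1 + d.filter (fun v => Pv a v)) 1 : AA K L)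
          = X v * monomial (d.filter (fun v => Pv a v)) 1 := by
        rw [X, monomial_mul, one_mul]
      rw [h1, key, key, h2, h3, h4]
      ring
    | add p q hp hq => rw [mul_add, map_add, hp, hq, map_add, mul_add]

end ParMap

section Jfam

/-- What is used about the Jack family: norms, completeness, normalisation. -/
structure JOK (J : Fam) : Prop where
  orth : Orth J
  jn0 : ∀ (n : ℕ) (th : n.Partition), jn J th ≠ 0
  compl : ∀ (n : ℕ) (l m : n.Partition),
    ∑ th : n.Partition, (jn J th)⁻¹ * J n th l * J n th m = if l = m then (zal l)⁻¹ else 0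
  one : ∀ (n : ℕ) (th : n.Partition), J n th (ones n) = 1

variable {L : Type*}

/-- The Jack function with the parameters `r` in place of the power sums. -/
noncomputable def Jr (J : Fam) {n : ℕ} (th : n.Partition) (r : ℕ → AA K L) : AA K L :=
  ∑ l : n.Partition, C (J n th l) * rr r l.parts

theorem Jp_eq_Jr (J : Fam) {n : ℕ} (th : n.Partition) (a : L) :
    Jp J th a = Jr J th (fun i => X (a, i)) := rfl

theorem zal_ne_zero {n : ℕ} (l : n.Partition) : zal l ≠ 0 := by
  rw [zal]
  refine mul_ne_zero (Nat.cast_ne_zero.2 ?_) (pow_ne_zero _ al_ne_zero)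
  rw [zee, Finset.prod_ne_zero_iff]
  intro i hi
  rw [Multiset.mem_toFinset] at hi
  exact mul_ne_zero (pow_ne_zero _ (l.parts_pos hi).ne') (Nat.factorial_ne_zero _)

variable {J : Fam}

theorem pm_eq_J (hJ : JOK J) (a : L) {n : ℕ} (l : n.Partition) :
    pm K a l.parts = ∑ th : n.Partition, C (zal l * ((jn J th)⁻¹ * J n th l)) * Jp J th a := by
  have h1 : ∀ th : n.Partition, C (zal l * ((jn J th)⁻¹ * J n th l)) * Jp J th a
      = ∑ m : n.Partition, C (zal l * ((jn J th)⁻¹ * J n th l * J n th m)) * pm K a m.parts := by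
    intro th
    rw [Jp_eq, Finset.mul_sum]
    refine Finset.sum_congr rfl fun m _ => ?_
    rw [← mul_assoc, ← C_mul]
    congr 2
    ring
  rw [Finset.sum_congr rfl fun th _ => h1 th, Finset.sum_comm]
  have h2 : ∀ m : n.Partition, ∑ th : n.Partition,
      C (zal l * ((jn J th)⁻¹ * J n th l * J n th m)) * pm K a m.parts
      = if l = m then pm K a m.parts else 0 := by
    intro m
    rw [← Finset.sum_mul, ← map_sum, ← Finset.mul_sum, hJ.compl]
    split_ifs with h
    · rw [mul_inv_cancel₀ (zal_ne_zero l), C_1, one_mul]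
    · rw [mul_zero, C_0, zero_mul]
  rw [Finset.sum_congr rfl fun m _ => h2 m, Finset.sum_ite_eq, if_pos (Finset.mem_univ l)]

theorem J_ind (hJ : JOK J) (a : L) (U : AddSubgroup (AA K L))
    (h1 : ∀ (c : K) (n : ℕ) (th : n.Partition), C c * Jp J th a ∈ U)
    (h2 : ∀ v, Pv a v → ∀ f ∈ U, X v * f ∈ U) (f : AA K L) : f ∈ U := by
  refine pm_ind U (fun c lam hl => ?_) h2 f
  have h3 := pm_eq_J hJ a (⟨lam, fun {i} hi => hl i hi, rfl⟩ : lam.sum.Partition)
  have h4 : pm K a lam = _ := h3
  rw [h4, Finset.mul_sum]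
  refine U.sum_mem fun th _ => ?_
  rw [← mul_assoc, ← C_mul]
  exact h1 _ _ _

theorem vv_eq_J (hJ : JOK J) (a : L) (r : ℕ → AA K L) (n : ℕ) :
    vv al a r n = ∑ th : n.Partition, C (jn J th)⁻¹ * (Jr J th r * Jp J th a) := by
  have h1 : ∀ th : n.Partition, C (jn J th)⁻¹ * (Jr J th r * Jp J th a)
      = ∑ l : n.Partition, ∑ m : n.Partition, C ((jn J th)⁻¹ * J n th l * J n th m) *
        (rr r l.parts * pm K a m.parts) := by
    intro th
    rw [Jp_eq, Jr, Finset.sum_mul_sum, Finset.mul_sum]
    refine Finset.sum_congr rfl fun l _ => ?_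
    rw [Finset.mul_sum]
    refine Finset.sum_congr rfl fun m _ => ?_
    rw [C_mul, C_mul]
    ring
  rw [Finset.sum_congr rfl fun th _ => h1 th, Finset.sum_comm]
  rw [vv]
  refine Finset.sum_congr rfl fun l _ => ?_
  rw [Finset.sum_comm]
  have h2 : ∀ m : n.Partition, ∑ th : n.Partition,
      C ((jn J th)⁻¹ * J n th l * J n th m) * (rr r l.parts * pm K a m.parts)
      = if l = m then C (zal l)⁻¹ * (rr r l.parts * pm K a m.parts) else 0 := by
    intro m
    rw [← Finset.sum_mul, ← map_sum, hJ.compl]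
    split_ifs with h
    · rfl
    · rw [C_0, zero_mul]
  rw [Finset.sum_congr rfl fun m _ => h2 m, Finset.sum_ite_eq, if_pos (Finset.mem_univ l),
    zal_eq, mul_comm (rr r l.parts)]

theorem rr_r1_parts {n : ℕ} (l : n.Partition) :
    rr (r1 K L) l.parts = if l = ones n then 1 else 0 := by
  split_ifs with h
  · rw [h]
    show rr (r1 K L) (Multiset.replicate n 1) = 1
    rw [rr, Multiset.map_replicate, Multiset.prod_replicate, r1_one, one_pow]
  · have h1 : ∃ i ∈ l.parts, i ≠ 1 := by
      by_contra hcon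
      push Not at hcon
      apply h
      refine Nat.Partition.ext ?_
      show l.parts = Multiset.replicate n 1
      rw [Multiset.eq_replicate]
      refine ⟨?_, hcon⟩
      have h2 := l.parts_sum
      rw [Multiset.eq_replicate_card.2 hcon, Multiset.sum_replicate, smul_eq_mul, mul_one] at h2
      exact h2
    obtain ⟨i, hi, hi1⟩ := h1
    rw [← Multiset.cons_erase hi, rr_cons, r1_ne hi1, zero_mul]

theorem Jr_r1 (hJ : JOK J) {n : ℕ} (th : n.Partition) : Jr J th (r1 K L) = 1 := by
  have h1 : ∀ l : n.Partition, C (J n th l) * rr (r1 K L) l.parts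
      = if l = ones n then C (J n th l) else 0 := by
    intro l
    rw [rr_r1_parts]
    split_ifs <;> simp
  rw [Jr, Finset.sum_congr rfl fun l _ => h1 l, Finset.sum_ite_eq', if_pos (Finset.mem_univ _),
    hJ.one, C_1]

/-- The operator multiplying `J_θ` in the alphabet `a` by `J_θ` in the parameters. -/
theorem exists_P0 (hJ : JOK J) (a : L) (r : ℕ → AA K L) :
    ∃ T : AA K L →ₗ[K] AA K L,
      (∀ (n : ℕ) (th : n.Partition), T (Jp J th a) = Jr J th r * Jp J th a) ∧
      (∀ v, Pv a v → ∀ f, T (X v * f) = X v * T f) := by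
  classical
  obtain ⟨T, hT1, hT2⟩ := exists_par_map (L := L) a (fun lam =>
    if h : ∀ i ∈ lam, 1 ≤ i then
      ∑ th : lam.sum.Partition, C (zal (⟨lam, fun {i} hi => h i hi, rfl⟩ : lam.sum.Partition) *
        ((jn J th)⁻¹ * J lam.sum th ⟨lam, fun {i} hi => h i hi, rfl⟩)) * (Jr J th r * Jp J th a)
    else 0)
  refine ⟨T, ?_, hT2⟩
  have h1 : ∀ (n : ℕ) (l : n.Partition), T (pm K a l.parts)
      = ∑ th : n.Partition, C (zal l * ((jn J th)⁻¹ * J n th l)) * (Jr J th r * Jp J th a) := by
    rintro n ⟨lam, hpos, rfl⟩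
    have hpos' : ∀ i ∈ lam, 1 ≤ i := fun i hi => hpos hi
    have h2 := hT1 lam hpos'
    rw [dif_pos hpos'] at h2
    exact h2
  intro n th
  have h2 : ∀ l : n.Partition, T (C (J n th l) * pm K a l.parts)
      = ∑ th' : n.Partition, C ((jn J th')⁻¹ * (J n th l * J n th' l * zal l)) *
        (Jr J th' r * Jp J th' a) := by
    intro l
    rw [← smul_eq_C_mul, map_smul, h1, smul_eq_C_mul, Finset.mul_sum]
    refine Finset.sum_congr rfl fun th' _ => ?_
    rw [← mul_assoc, ← C_mul]
    congr 2
    ring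
  rw [Jp_eq, map_sum, Finset.sum_congr rfl fun l _ => h2 l, Finset.sum_comm]
  have h3 : ∀ th' : n.Partition, ∑ l : n.Partition,
      C ((jn J th')⁻¹ * (J n th l * J n th' l * zal l)) * (Jr J th' r * Jp J th' a)
      = if th = th' then Jr J th' r * Jp J th' a else 0 := by
    intro th'
    rw [← Finset.sum_mul, ← map_sum, ← Finset.mul_sum]
    split_ifs with h
    · subst h
      have h4 : ∑ l : n.Partition, J n th l * J n th l * zal l = jn J th := rfl
      rw [h4, inv_mul_cancel₀ (hJ.jn0 n th), C_1, one_mul]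
    · rw [hJ.orth n th th' h, mul_zero, C_0, zero_mul]
  rw [Finset.sum_congr rfl fun th' _ => h3 th', Finset.sum_ite_eq, if_pos (Finset.mem_univ th),
    ← Jp_eq]

variable [DecidableEq L]

/-- The Jack functions are eigenvectors of the `hk`. -/
def Eig (J : Fam) (a : L) : Prop :=
  ∀ (k n : ℕ) (th : n.Partition), ∃ c : K, hk al (al - 1) a k (Jp J th a) = C c * Jp J th a

theorem hk_comm (hJ : JOK J) {a : L} (hE : Eig J a) (k l : ℕ) (f : AA K L) :
    hk al (al - 1) a k (hk al (al - 1) a l f) = hk al (al - 1) a l (hk al (al - 1) a k f) := by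
  set E : AA K L →ₗ[K] AA K L := hk al (al - 1) a k ∘ₗ hk al (al - 1) a l
    - hk al (al - 1) a l ∘ₗ hk al (al - 1) a k with hEd
  have h0 : f ∈ (LinearMap.ker E).toAddSubgroup := by
    refine J_ind hJ a _ ?_ ?_ f
    · intro c n th
      rw [Submodule.mem_toAddSubgroup, LinearMap.mem_ker]
      obtain ⟨c1, h1⟩ := hE k n th
      obtain ⟨c2, h2⟩ := hE l n th
      rw [hEd]
      simp only [LinearMap.sub_apply, LinearMap.comp_apply, ← smul_eq_C_mul, map_smul] at h1 h2 ⊢
      rw [h1, h2, map_smul, map_smul, h1, h2, smul_comm c2 c1, sub_self, smul_zero]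
    · intro v hv f hf
      rw [Submodule.mem_toAddSubgroup, LinearMap.mem_ker] at hf ⊢
      rw [hEd] at hf ⊢
      simp only [LinearMap.sub_apply, LinearMap.comp_apply] at hf ⊢
      rw [hk_par (Md_X_par al hv), hk_par (Md_X_par al hv), hk_par (Md_X_par al hv),
        hk_par (Md_X_par al hv), ← mul_sub, hf, mul_zero]
  rw [Submodule.mem_toAddSubgroup, LinearMap.mem_ker, hEd] at h0
  simp only [LinearMap.sub_apply, LinearMap.comp_apply] at h0
  exact sub_eq_zero.1 h0

theorem Md_Jr {al' : K} {a : L} {r : ℕ → AA K L} (hr : ∀ i, Md al' a (r i) = 0) {n : ℕ}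
    (th : n.Partition) : Md al' a (Jr J th r) = 0 := by
  rw [Jr, map_sum]
  refine Finset.sum_eq_zero fun l _ => ?_
  rw [← smul_eq_C_mul, Derivation.map_smul, Md_rr hr, smul_zero]

theorem P0_hk (hJ : JOK J) {a : L} (hE : Eig J a) {r : ℕ → AA K L}
    (hr : ∀ i, Md al a (r i) = 0) {T : AA K L →ₗ[K] AA K L}
    (hT1 : ∀ (n : ℕ) (th : n.Partition), T (Jp J th a) = Jr J th r * Jp J th a)
    (hT2 : ∀ v, Pv a v → ∀ f, T (X v * f) = X v * T f) (k : ℕ) (f : AA K L) :
    T (hk al (al - 1) a k f) = hk al (al - 1) a k (T f) := by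
  set E : AA K L →ₗ[K] AA K L := T ∘ₗ hk al (al - 1) a k - hk al (al - 1) a k ∘ₗ T with hEd
  have h0 : f ∈ (LinearMap.ker E).toAddSubgroup := by
    refine J_ind hJ a _ ?_ ?_ f
    · intro c n th
      rw [Submodule.mem_toAddSubgroup, LinearMap.mem_ker]
      obtain ⟨c1, h1⟩ := hE k n th
      rw [hEd]
      simp only [LinearMap.sub_apply, LinearMap.comp_apply, ← smul_eq_C_mul, map_smul] at h1 ⊢
      rw [h1, map_smul, hT1, hk_par (Md_Jr hr th), h1, mul_smul_comm, sub_self, smul_zero]
    · intro v hv f hf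
      rw [Submodule.mem_toAddSubgroup, LinearMap.mem_ker] at hf ⊢
      rw [hEd] at hf ⊢
      simp only [LinearMap.sub_apply, LinearMap.comp_apply] at hf ⊢
      rw [hk_par (Md_X_par al hv), hT2 v hv, hT2 v hv, hk_par (Md_X_par al hv), ← mul_sub, hf,
        mul_zero]
  rw [Submodule.mem_toAddSubgroup, LinearMap.mem_ker, hEd] at h0
  simp only [LinearMap.sub_apply, LinearMap.comp_apply] at h0
  exact sub_eq_zero.1 h0

theorem P0_pderiv (hJ : JOK J) {a c : L} (hac : c ≠ a) {r : ℕ → AA K L} {i : ℕ}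
    (hr : ∀ j, pderiv (c, i) (r j) = 0) {T : AA K L →ₗ[K] AA K L}
    (hT1 : ∀ (n : ℕ) (th : n.Partition), T (Jp J th a) = Jr J th r * Jp J th a)
    (hT2 : ∀ v, Pv a v → ∀ f, T (X v * f) = X v * T f) (f : AA K L) :
    T (pderiv (c, i) f) = pderiv (c, i) (T f) := by
  set E : AA K L →ₗ[K] AA K L := T ∘ₗ (pderiv (c, i)).toLinearMap
    - (pderiv (c, i)).toLinearMap ∘ₗ T with hEd
  have hEa : ∀ f, E f = T (pderiv (c, i) f) - pderiv (c, i) (T f) := fun f => rfl
  have h0 : f ∈ (LinearMap.ker E).toAddSubgroup := by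
    refine J_ind hJ a _ ?_ ?_ f
    · intro c' n th
      rw [Submodule.mem_toAddSubgroup, LinearMap.mem_ker, hEa]
      have h1 : pderiv (c, i) (Jp J th a) = 0 := by
        rw [Jp_eq, map_sum]
        refine Finset.sum_eq_zero fun l _ => ?_
        rw [pderiv_C_mul, pderiv_pm_of_ne hac, mul_zero]
      have h2 : pderiv (c, i) (Jr J th r) = 0 := by
        rw [Jr, map_sum]
        refine Finset.sum_eq_zero fun l _ => ?_
        rw [pderiv_C_mul, pderiv_rr hr, mul_zero]
      rw [pderiv_C_mul, h1, mul_zero, map_zero, ← smul_eq_C_mul, map_smul, hT1, smul_eq_C_mul,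
        pderiv_C_mul, pderiv_mul, h1, h2]
      ring
    · intro v hv f hf
      rw [Submodule.mem_toAddSubgroup, LinearMap.mem_ker, hEa] at hf ⊢
      rw [hT2 v hv, pderiv_mul, pderiv_mul, map_add, hT2 v hv, pderiv_X]
      by_cases h : v = (c, i)
      · rw [h, Pi.single_eq_same, one_mul, one_mul]
        rw [sub_eq_zero] at hf
        rw [hf, sub_self]
      · rw [Pi.single_eq_of_ne h, zero_mul, zero_mul, map_zero, zero_add, zero_add, ← mul_sub, hf,
          mul_zero]
  rw [Submodule.mem_toAddSubgroup, LinearMap.mem_ker, hEa] at h0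
  exact sub_eq_zero.1 h0

end Jfam

end Pool.Agent.JackB
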