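import Pool.Agent.Lib.JackTab.Link
import Pool.Agent.Lib.JackB.Jop

/-!
The family of Jack functions: norms, completeness, coefficient at `p_1 ^ n`.
-/

open MvPolynomial

namespace Pool.Agent.JackB

theorem exists_num {ι : Type*} [Fintype ι] (f : ι → K) :
    ∃ (d : Polynomial ℚ) (g : ι → Polynomial ℚ), d ≠ 0 ∧
      ∀ l, algebraMap (Polynomial ℚ) K (g l) = algebraMap (Polynomial ℚ) K d * f l := by
  obtain ⟨d, hd⟩ := IsLocalization.exist_integer_multiples (nonZeroDivisors (Polynomial ℚ))
    Finset.univ f
  choose g hg using fun l => hd l (Finset.mem_univ l)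
  refine ⟨d, g, nonZeroDivisors.coe_ne_zero d, fun l => ?_⟩
  rw [hg l, Algebra.smul_def]

/-- The form with weights `z α ^ k` is anisotropic. -/
theorem aniso {ι : Type*} [Fintype ι] (z k : ι → ℕ) (hz : ∀ l, 0 < z l) (f : ι → K)
    (h : ∑ l, f l * f l * ((z l : K) * al ^ k l) = 0) : ∀ l, f l = 0 := by
  obtain ⟨d, g, hd, hg⟩ := exists_num f
  have hd' : algebraMap (Polynomial ℚ) K d ≠ 0 := by
    intro h1
    exact hd (RatFunc.algebraMap_injective ℚ (h1.trans (map_zero _).symm))
  have hal : algebraMap (Polynomial ℚ) K (Polynomial.X + 1) = al := by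
    rw [map_add, map_one, RatFunc.algebraMap_X, al, add_comm]
  have h1 : algebraMap (Polynomial ℚ) K
      (∑ l, g l * g l * ((z l : Polynomial ℚ) * (Polynomial.X + 1) ^ k l)) = 0 := by
    rw [map_sum]
    have h2 : ∀ l, algebraMap (Polynomial ℚ) K (g l * g l * ((z l : Polynomial ℚ) * (Polynomial.X + 1) ^ k l))
        = algebraMap (Polynomial ℚ) K d * algebraMap (Polynomial ℚ) K d *
          (f l * f l * ((z l : K) * al ^ k l)) := by
      intro l
      rw [map_mul, map_mul, map_mul, map_pow, hal, hg, map_natCast]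
      ring
    rw [Finset.sum_congr rfl fun l _ => h2 l, ← Finset.mul_sum, h, mul_zero]
  have h3 : ∑ l, g l * g l * ((z l : Polynomial ℚ) * (Polynomial.X + 1) ^ k l) = 0 :=
    RatFunc.algebraMap_injective ℚ (h1.trans (map_zero _).symm)
  have h4 : ∀ (x : ℕ) (l : ι), (g l).eval (x : ℚ) = 0 := by
    intro x l
    have h5 := congrArg (Polynomial.eval (x : ℚ)) h3
    rw [Polynomial.eval_finsetSum, Polynomial.eval_zero] at h5
    simp only [Polynomial.eval_mul, Polynomial.eval_pow, Polynomial.eval_add, Polynomial.eval_X,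
      Polynomial.eval_one, Polynomial.eval_natCast] at h5
    have h6 : ∀ l ∈ Finset.univ, 0 ≤ (g l).eval (x : ℚ) * (g l).eval (x : ℚ) *
        ((z l : ℚ) * ((x : ℚ) + 1) ^ k l) := by
      intro l _
      have : (0 : ℚ) ≤ (z l : ℚ) * ((x : ℚ) + 1) ^ k l := by positivity
      exact mul_nonneg (mul_self_nonneg _) this
    have h7 := (Finset.sum_eq_zero_iff_of_nonneg h6).1 h5 l (Finset.mem_univ l)
    have h8 : (0 : ℚ) < (z l : ℚ) * ((x : ℚ) + 1) ^ k l := by
      have := hz l
      positivity
    rcases mul_eq_zero.1 h7 with h9 | h9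
    · exact mul_self_eq_zero.1 h9
    · exact absurd h9 h8.ne'
  intro l
  have h10 : g l = 0 := by
    apply Polynomial.eq_zero_of_infinite_isRoot
    refine Set.Infinite.mono (s := Set.range (fun x : ℕ => (x : ℚ))) ?_
      (Set.infinite_range_of_injective Nat.cast_injective)
    rintro _ ⟨x, rfl⟩
    exact h4 x l
  have h11 := hg l
  rw [h10, map_zero] at h11
  rcases mul_eq_zero.1 h11.symm with h12 | h12
  · exact absurd h12 hd'
  · exact h12

theorem zee_pos {n : ℕ} (l : n.Partition) : 0 < zee l := by
  rw [zee]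
  apply Finset.prod_pos
  intro i hi
  rw [Multiset.mem_toFinset] at hi
  exact Nat.mul_pos (Nat.pow_pos (l.parts_pos hi)) (Nat.factorial_pos _)

/-! The coefficient of `x_1 ⋯ x_n`. -/

/-- The exponent vector of a set of variables. -/
noncomputable def ind {σ : Type*} [DecidableEq σ] (s : Finset σ) : σ →₀ ℕ :=
  ∑ i ∈ s, Finsupp.single i 1

theorem ind_apply {σ : Type*} [DecidableEq σ] (s : Finset σ) (i : σ) :
    ind s i = if i ∈ s then 1 else 0 := by
  rw [ind, Finsupp.finsetSum_apply]
  simp only [Finsupp.single_apply]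
  simp

theorem coeff_psum_mul {σ : Type*} [DecidableEq σ] [Fintype σ] (k : ℕ) (F : MvPolynomial σ K)
    (d : σ →₀ ℕ) : coeff d (psum σ K k * F) =
      ∑ i : σ, if k ≤ d i then coeff (d - Finsupp.single i k) F else 0 := by
  rw [psum, Finset.sum_mul, coeff_sum]
  refine Finset.sum_congr rfl fun i _ => ?_
  rw [X_pow_eq_monomial, coeff_monomial_mul']
  simp only [Finsupp.single_le_iff, one_mul]

theorem coeff_one_pow {σ : Type*} [DecidableEq σ] [Fintype σ] (m : ℕ) : ∀ s : Finset σ, s.card = m →
    coeff (ind s) (psum σ K 1 ^ m) = (m.factorial : K) := by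
  induction m with
  | zero =>
    intro s hs
    rw [Finset.card_eq_zero] at hs
    subst hs
    rw [pow_zero, ind, Finset.sum_empty]
    simp
  | succ m ih =>
    intro s hs
    rw [pow_succ', coeff_psum_mul]
    have h1 : ∀ i : σ, (if 1 ≤ ind s i then coeff (ind s - Finsupp.single i 1) (psum σ K 1 ^ m) else 0) =
        if i ∈ s then (m.factorial : K) else 0 := by
      intro i
      by_cases hi : i ∈ s
      · have h2 : ind s - Finsupp.single i 1 = ind (s.erase i) := by
          ext j
          rw [Finsupp.tsub_apply, ind_apply, ind_apply, Finsupp.single_apply]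
          by_cases hj : i = j
          · subst hj
            simp [hi]
          · by_cases hjs : j ∈ s
            · simp [hjs, hj, Ne.symm hj]
            · simp [hjs]
        rw [if_pos (by rw [ind_apply, if_pos hi]), if_pos hi, h2, ih]
        rw [Finset.card_erase_of_mem hi, hs]
        rfl
      · rw [if_neg (by rw [ind_apply, if_neg hi]; omega), if_neg hi]
    rw [Finset.sum_congr rfl fun i _ => h1 i, Finset.sum_ite_mem, Finset.univ_inter,
      Finset.sum_const, hs, nsmul_eq_mul, Nat.factorial_succ]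
    push_cast
    ring

theorem coeff_one_psumPart {n : ℕ} (l : n.Partition) :
    coeff (ind (Finset.univ : Finset (Fin n))) (psumPart (Fin n) K l) =
      if l = ones n then (n.factorial : K) else 0 := by
  by_cases h : l = ones n
  · rw [if_pos h, h, psumPart]
    change coeff _ ((Multiset.replicate n 1).map (psum (Fin n) K)).prod = _
    rw [Multiset.map_replicate, Multiset.prod_replicate]
    exact coeff_one_pow n _ (by simp)
  · rw [if_neg h]
    have h1 : ∃ k ∈ l.parts, k ≠ 1 := by
      by_contra hcon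
      push Not at hcon
      apply h
      apply Nat.Partition.ext
      change l.parts = Multiset.replicate n 1
      have h2 := Multiset.eq_replicate_card.2 hcon
      have h3 := l.parts_sum
      rw [h2, Multiset.sum_replicate, smul_eq_mul, mul_one] at h3
      rw [h2, h3]
    obtain ⟨k, hk, hk1⟩ := h1
    have hk2 : 2 ≤ k := by
      have := l.parts_pos hk
      omega
    obtain ⟨t, ht⟩ := Multiset.exists_cons_of_mem hk
    rw [psumPart, ht, Multiset.map_cons, Multiset.prod_cons, coeff_psum_mul]
    refine Finset.sum_eq_zero fun i _ => ?_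
    rw [if_neg]
    rw [ind_apply, if_pos (Finset.mem_univ i)]
    omega

theorem coeff_one_msymm {n : ℕ} (m : n.Partition) :
    coeff (ind (Finset.univ : Finset (Fin n))) (msymm (Fin n) K m) = if m = ones n then 1 else 0 := by
  obtain ⟨i, hi⟩ := (JackTab.pe n).surjective (ones n)
  have h1 : (JackTab.pt n i : Multiset ℕ) = Multiset.replicate n 1 := by
    rw [← JackTab.pe_parts, hi]
    rfl
  have h2 : JackTab.pt n i = List.replicate n 1 := by
    rw [← Multiset.coe_replicate, Multiset.coe_eq_coe] at h1
    exact List.perm_replicate.1 h1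
  have h3 : ind (Finset.univ : Finset (Fin n)) = JackTab.dvec n (JackTab.pt n i) := by
    ext j
    rw [ind_apply, if_pos (Finset.mem_univ j), JackTab.dvec_apply, h2,
      List.getD_eq_getElem _ _ (by simp), List.getElem_replicate]
  rw [h3, JackTab.coeff_msymm, hi]

/-- The coefficient of a Jack function at `p_1 ^ n`. -/
theorem jack_one {J : Fam} (hJ : IsJack J) (n : ℕ) (th : n.Partition) : J n th (ones n) = 1 := by
  obtain ⟨a, h1, _, h3⟩ := hJ.tri n th
  have h4 := congrArg (coeff (ind (Finset.univ : Finset (Fin n)))) h1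
  rw [coeff_sum, coeff_sum] at h4
  simp only [coeff_C_mul, coeff_one_psumPart, coeff_one_msymm, mul_ite, mul_zero, mul_one,
    Finset.sum_ite_eq', Finset.mem_univ, if_true] at h4
  rw [h3] at h4
  have h6 : (n.factorial : K) ≠ 0 := Nat.cast_ne_zero.2 (Nat.factorial_ne_zero n)
  exact mul_right_cancel₀ h6 (by rw [h4, one_mul])

theorem jack_jn {J : Fam} (hJ : IsJack J) (n : ℕ) (th : n.Partition) : jn J th ≠ 0 := by
  intro h
  have h1 := aniso (fun l : n.Partition => zee l) (fun l => l.parts.card) zee_pos
    (fun l => J n th l) h (ones n)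
  rw [jack_one hJ] at h1
  exact one_ne_zero h1

theorem zal_ne {n : ℕ} (l : n.Partition) : zal l ≠ 0 :=
  mul_ne_zero (Nat.cast_ne_zero.2 (zee_pos l).ne') (pow_ne_zero _ al_ne_zero)

theorem jack_compl {J : Fam} (hJ : IsJack J) (n : ℕ) (l m : n.Partition) :
    ∑ th : n.Partition, (jn J th)⁻¹ * J n th l * J n th m = if l = m then (zal l)⁻¹ else 0 := by
  obtain ⟨l, rfl⟩ := (JackTab.pe n).surjective l
  obtain ⟨m, rfl⟩ := (JackTab.pe n).surjective m
  have hjn : ∀ th : Fin (JackTab.pn n), jn J (JackTab.pe n th) =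
      ∑ l : Fin (JackTab.pn n), J n (JackTab.pe n th) (JackTab.pe n l) *
        J n (JackTab.pe n th) (JackTab.pe n l) * zal (JackTab.pe n l) := by
    intro th
    rw [jn, JackTab.sum_pe]
  have h := JackTab.complete (fun l : Fin (JackTab.pn n) => zal (JackTab.pe n l))
    (fun th l => J n (JackTab.pe n th) (JackTab.pe n l)) (by
      intro th nu h
      have h1 := hJ.orth n (JackTab.pe n th) (JackTab.pe n nu)
        (fun h2 => h ((JackTab.pe n).injective h2))
      rw [JackTab.sum_pe] at h1
      exact h1) (by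
      intro th
      rw [← hjn]
      exact jack_jn hJ n _) l m
  simp only [← hjn] at h
  rw [JackTab.sum_pe]
  rw [← Finset.sum_mul] at h
  have h2 : ∑ i : Fin (JackTab.pn n), (jn J (JackTab.pe n i))⁻¹ * J n (JackTab.pe n i) (JackTab.pe n l) *
      J n (JackTab.pe n i) (JackTab.pe n m) = (if l = m then 1 else 0) * (zal (JackTab.pe n m))⁻¹ := by
    rw [← h, mul_assoc, mul_inv_cancel₀ (zal_ne _), mul_one]
  rw [h2]
  by_cases h3 : l = m
  · subst h3
    simp
  · rw [if_neg h3, if_neg (fun h4 => h3 ((JackTab.pe n).injective h4)), zero_mul]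

theorem IsJack.jok {J : Fam} (hJ : IsJack J) : JOK J where
  orth := hJ.orth
  jn0 := jack_jn hJ
  compl := jack_compl hJ
  one := jack_one hJ

end Pool.Agent.JackB
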