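import Pool.Agent.Lib.JackB.Fine3
import Pool.Agent.Lib.JackB.Jok35
import Pool.Agent.Lib.JackB.Eig32

/-!
All coefficients `c` and `h` are polynomials in `b` with integer coefficients
(problem MP_b52a9f_co).
-/

namespace Pool.Agent.JackB

/-- The polynomials in `b` with integer coefficients. -/
noncomputable def Zb : Subring K :=
  ((algebraMap (Polynomial ℚ) K).comp (Polynomial.mapRingHom (Int.castRingHom ℚ))).range

/-- The polynomials in `b` with non-negative rational coefficients. -/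
noncomputable def Qb : Subsemiring K :=
  ((algebraMap (Polynomial ℚ) K).comp (Polynomial.mapRingHom (NNRat.castHom ℚ))).rangeS

theorem al_mem_Zb : al ∈ Zb := by
  refine ⟨1 + Polynomial.X, ?_⟩
  rw [RingHom.comp_apply, map_add, map_one, Polynomial.coe_mapRingHom, Polynomial.map_X, map_add,
    map_one, RatFunc.algebraMap_X]
  rfl

theorem al_mem_Qb : al ∈ Qb := by
  refine ⟨1 + Polynomial.X, ?_⟩
  rw [RingHom.comp_apply, map_add, map_one, Polynomial.coe_mapRingHom, Polynomial.map_X, map_add,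
    map_one, RatFunc.algebraMap_X]
  rfl

theorem rat_mem_Qb (q : ℚ) (hq : 0 ≤ q) : (q : K) ∈ Qb := by
  refine ⟨Polynomial.C (Rat.toNNRat q), ?_⟩
  rw [RingHom.comp_apply, Polynomial.coe_mapRingHom, Polynomial.map_C, NNRat.coe_castHom,
    Rat.coe_toNNRat q hq]
  have h := RingHom.ext_rat ((algebraMap (Polynomial ℚ) K).comp Polynomial.C) (Rat.castHom K)
  exact DFunLike.congr_fun h q

theorem mem_Nb {x : K} (h1 : x ∈ Zb) (h2 : x ∈ Qb) : x ∈ Nb := by
  obtain ⟨P, hP⟩ := h1
  obtain ⟨Q, hQ⟩ := h2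
  rw [RingHom.comp_apply] at hP hQ
  have h3 : Polynomial.mapRingHom (Int.castRingHom ℚ) P
      = Polynomial.mapRingHom (NNRat.castHom ℚ) Q :=
    RatFunc.algebraMap_injective ℚ (hP.trans hQ.symm)
  have h4 : ∀ i, 0 ≤ P.coeff i := by
    intro i
    have h5 := congrArg (fun p : Polynomial ℚ => p.coeff i) h3
    simp only [Polynomial.coe_mapRingHom, Polynomial.coeff_map, eq_intCast,
      NNRat.coe_castHom] at h5
    have h6 : (0 : ℚ) ≤ ((P.coeff i : ℤ) : ℚ) := by
      rw [h5]
      exact NNRat.cast_nonneg _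
    exact_mod_cast h6
  refine ⟨∑ i ∈ Finset.range (P.natDegree + 1), Polynomial.monomial i (P.coeff i).toNat, ?_⟩
  rw [RingHom.comp_apply, ← hP]
  refine congrArg _ ?_
  ext i
  simp only [Polynomial.coe_mapRingHom, Polynomial.coeff_map, Polynomial.finsetSum_coeff,
    Polynomial.coeff_monomial, Finset.sum_ite_eq', Finset.mem_range, eq_intCast]
  by_cases h : i < P.natDegree + 1
  · rw [if_pos h]
    have h5 := Int.toNat_of_nonneg (h4 i)
    have h6 : (((P.coeff i).toNat : ℤ) : ℚ) = ((P.coeff i : ℤ) : ℚ) := by rw [h5]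
    rw [← h6]
    rfl
  · rw [if_neg h, Polynomial.coeff_eq_zero_of_natDegree_lt (by omega)]
    simp

theorem Nb_le_Qb {x : K} (h : x ∈ Nb) : x ∈ Qb := by
  obtain ⟨P, rfl⟩ := h
  refine ⟨P.map (Nat.castRingHom _), ?_⟩
  rw [RingHom.comp_apply, RingHom.comp_apply]
  refine congrArg _ ?_
  ext i
  simp only [Polynomial.coe_mapRingHom, Polynomial.coeff_map]
  simp

/-- All `c`, `h` and `(i m_i(λ) / n) h` are polynomials in `b` with integer coefficients. -/
theorem integral {J : Fam} (hJack : IsJack J) {k : ℕ} (hk : 1 ≤ k) {n : ℕ} (hn : 1 ≤ n)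
    (m : Fin (k + 2) → n.Partition) :
    cJ J k m ∈ Zb ∧ hJ J k m ∈ Zb ∧
      ∀ i : ℕ, ((i : K) * ((m 0).parts.count i : K) / (n : K)) * hJ J k m ∈ Zb := by
  have h3 := fine3 hJack.jok hJack.unital hJack.eig al_mem_Zb
  have h := reduction (S := Zb.toSubsemiring) (Cl := Set.univ) hJack.orth hJack.unital
    al_mem_Zb (fun _ _ _ _ => Set.mem_univ _) (fun n hn m _ i => ?_) hk hn m
    (fun _ _ => Set.mem_univ _)
  · exact h
  · have hgood : Good (fun _ => ∅ : Fin (1 + 2) → Set (ℕ → ℕ)) m := fun a => Set.notMem_empty _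
    exact coeff_of_fine hJack.unital (fun a x y hx _ => absurd hx (Set.notMem_empty _)) h3 hn
      hgood i

end Pool.Agent.JackB
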