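import Pool.Agent.Lib.JackB.Hook9
import Pool.Agent.Lib.JackB.IntZ

/-!
The coefficients `c` from the coefficients of the logarithm at smaller partitions
(problem MP_b52a9f_co).
-/

open MvPolynomial

namespace Pool.Agent.JackB

section Cc

variable {ι : Type*} [Fintype ι] [DecidableEq ι]

/-- The exponents that are not bounded by the given ones. -/
def nb (a : ι) (M : ι → Multiset ℕ) (l : Multiset ℕ) : ι → Set (ℕ → ℕ) :=
  fun c => {x | ¬ ∀ i, x i ≤ (if c = a then l else M c).count i}

omit [Fintype ι] in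
theorem nb_up (a : ι) (M : ι → Multiset ℕ) (l : Multiset ℕ) : UpCl (nb a M l) := by
  intro c x y hx hxy hy
  exact hx fun i => (hxy i).trans (hy i)

omit [Fintype ι] in
theorem nb_iff {a : ι} {M : ι → Multiset ℕ} {l : Multiset ℕ} {d : ι × ℕ →₀ ℕ} :
    d ∉ gb (nb a M l) ↔ ∀ c i, d (c, i) ≤ (if c = a then l else M c).count i := by
  constructor
  · intro h c
    by_contra hc
    exact h ⟨c, hc⟩
  · rintro h ⟨c, hc⟩
    exact hc (h c)

omit [Fintype ι] in
theorem nb_cons {a : ι} {M : ι → Multiset ℕ} {l : Multiset ℕ} {i : ℕ} {d : ι × ℕ →₀ ℕ}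
    (h : d ∉ gb (nb a M l)) : d + Finsupp.single (a, i) 1 ∉ gb (nb a M (i ::ₘ l)) := by
  rw [nb_iff] at h ⊢
  intro c j
  have h1 := h c j
  rw [Finsupp.add_apply, Finsupp.single_apply]
  by_cases hc : c = a
  · subst hc
    rw [if_pos rfl] at h1 ⊢
    by_cases hj : i = j
    · subst hj
      rw [if_pos rfl, Multiset.count_cons_self]
      omega
    · rw [if_neg fun h2 => hj (Prod.ext_iff.1 h2).2, Multiset.count_cons_of_ne (Ne.symm hj)]
      omega
  · rw [if_neg hc] at h1 ⊢
    rw [if_neg fun h2 => hc (Prod.ext_iff.1 h2).1.symm]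
    omega

omit [Fintype ι] in
theorem nb_mono {a : ι} {M : ι → Multiset ℕ} {l : Multiset ℕ} {i : ℕ} {d : ι × ℕ →₀ ℕ}
    (h : d ∉ gb (nb a M l)) : d ∉ gb (nb a M (i ::ₘ l)) := by
  rw [nb_iff] at h ⊢
  intro c j
  have h1 := h c j
  by_cases hc : c = a
  · rw [if_pos hc] at h1 ⊢
    exact h1.trans (Multiset.count_le_count_cons _ _ _)
  · rw [if_neg hc] at h1 ⊢
    exact h1

theorem Dl_sub {J : Fam} {S : Subsemiring K} (halS : al ∈ S) {a : ι} {M : ι → Multiset ℕ}
    {W : PowerSeries (MvPolynomial (ι × ℕ) K)} (hW : IsLog (C al) (tau J ι) W)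
    (h : ∀ n d, d ∉ gb (nb a M (M a)) → (PowerSeries.coeff n W).coeff d ∈ S) (l : List ℕ) :
    (l : Multiset ℕ) ≤ M a → ∀ G : PowerSeries (MvPolynomial (ι × ℕ) K),
      (∀ n, PowerSeries.coeff n G ∈ SS S (gb (nb a M l)) (gb_add (nb_up a M l))) →
      ∃ G' : PowerSeries (MvPolynomial (ι × ℕ) K),
        (∀ n, PowerSeries.coeff n G' ∈ SS S (gb (nb a M 0)) (gb_add (nb_up a M 0))) ∧
        ∀ n, Dl a l (PowerSeries.coeff n (tau J ι * G)) = PowerSeries.coeff n (tau J ι * G') := by
  induction l with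
  | nil =>
    intro _ G hG
    exact ⟨G, hG, fun n => rfl⟩
  | cons i l ih =>
    intro hl G hG
    rw [← Multiset.cons_coe] at hl
    have hGl : ∀ n, PowerSeries.coeff n G ∈ SS S (gb (nb a M l)) (gb_add (nb_up a M l)) :=
      fun n d hd => hG n d (nb_mono hd)
    have hpd : ∀ n, pderiv (a, i) (PowerSeries.coeff n G)
        ∈ SS S (gb (nb a M l)) (gb_add (nb_up a M l)) := by
      intro n d hd
      rw [coeff_pderiv]
      refine S.mul_mem (hG n _ (nb_cons hd)) ?_
      have : ((d (a, i) : K) + 1) = ((d (a, i) + 1 : ℕ) : K) := by push_cast; rfl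
      rw [this]
      exact natCast_mem S _
    have hWd : ∀ n, C (i : K) * pderiv (a, i) (PowerSeries.coeff n W)
        ∈ SS S (gb (nb a M l)) (gb_add (nb_up a M l)) := by
      intro n d hd
      rw [coeff_C_mul, coeff_pderiv]
      refine S.mul_mem (natCast_mem S i) (S.mul_mem (h n _ ?_) ?_)
      · have h1 := nb_iff.1 (nb_cons (i := i) hd)
        rw [nb_iff]
        intro c j
        have h2 := h1 c j
        by_cases hc : c = a
        · subst hc
          rw [if_pos rfl] at h2 ⊢
          exact h2.trans (Multiset.le_iff_count.1 hl j)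
        · rw [if_neg hc] at h2 ⊢
          exact h2
      · have : ((d (a, i) : K) + 1) = ((d (a, i) + 1 : ℕ) : K) := by push_cast; rfl
        rw [this]
        exact natCast_mem S _
    set G1 := PowerSeries.C (C (i : K)) * dd (pderiv (R := K) (a, i)) W * G
      + PowerSeries.C (C (al * (i : K))) * dd (pderiv (R := K) (a, i)) G with hG1
    have hG1m : ∀ n, PowerSeries.coeff n G1 ∈ SS S (gb (nb a M l)) (gb_add (nb_up a M l)) := by
      intro n
      rw [hG1, map_add, PowerSeries.coeff_mul, PowerSeries.coeff_C_mul, coeff_dd]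
      refine Subsemiring.add_mem _ (Subsemiring.sum_mem _ fun p _ => ?_) ?_
      · refine Subsemiring.mul_mem _ ?_ (hGl _)
        rw [PowerSeries.coeff_C_mul, coeff_dd]
        exact hWd p.1
      · exact Subsemiring.mul_mem _ (C_mem (S.mul_mem halS (natCast_mem S i))) (hpd n)
    obtain ⟨G', hG', hG'2⟩ := ih ((Multiset.le_cons_self _ _).trans hl) G1 hG1m
    refine ⟨G', hG', fun n => ?_⟩
    rw [← hG'2 n, Dl]
    congr 1
    have hC : (C al : MvPolynomial (ι × ℕ) K) ≠ 0 := by
      rw [Ne, C_eq_zero]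
      exact al_ne_zero
    have h2 := hW.dd_eq (pderiv (R := K) (a, i)) hC pderiv_C
    have h3 : PowerSeries.C (C (al * (i : K))) * dd (pderiv (R := K) (a, i)) (tau J ι * G)
        = tau J ι * G1 := by
      rw [dd_mul, hG1, C_mul, map_mul (PowerSeries.C (R := MvPolynomial (ι × ℕ) K))]
      linear_combination (PowerSeries.C (C (i : K)) * G) * h2
    rw [← h3, PowerSeries.coeff_C_mul, coeff_dd]

/-- The coefficient `c` at `m` lies in `S` when the coefficients of the logarithm at the smaller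
partitions lie in `S`. -/
theorem c_of_sub {J : Fam} (h0 : Unital J) {S : Subsemiring K} (halS : al ∈ S)
    {W : PowerSeries (MvPolynomial (ι × ℕ) K)} (hW : IsLog (C al) (tau J ι) W) (a : ι)
    {n : ℕ} {m : ι → n.Partition}
    (h : ∀ (n' : ℕ) (m' : ι → n'.Partition), (∀ c, (m' c).parts ≤ (m c).parts) →
      (PowerSeries.coeff n' W).coeff (mon m') ∈ S) :
    zal (m a) * (PowerSeries.coeff n (tau J ι)).coeff (mon m) ∈ S := by
  classical
  obtain ⟨l, hl⟩ := Quot.exists_rep (m a).parts
  have hl' : ((l : List ℕ) : Multiset ℕ) = (m a).parts := hl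
  set M : ι → Multiset ℕ := fun c => (m c).parts with hM
  have hh : ∀ n d, d ∉ gb (nb a M (M a)) → (PowerSeries.coeff n W).coeff d ∈ S := by
    intro n' d hd
    by_cases h1 : (PowerSeries.coeff n' W).coeff d = 0
    · rw [h1]
      exact S.zero_mem
    · obtain ⟨m', rfl⟩ := hom_log h0 hW n' d h1
      refine h n' m' fun c => ?_
      rw [Multiset.le_iff_count]
      intro i
      have h2 := nb_iff.1 hd c i
      rw [mon_apply] at h2
      by_cases hc : c = a
      · subst hc
        rw [if_pos rfl] at h2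
        exact h2
      · rw [if_neg hc] at h2
        exact h2
  obtain ⟨G, hG, hG2⟩ := Dl_sub halS hW hh l (by rw [hl']) 1 (fun n => by
    rw [PowerSeries.coeff_one]
    split_ifs
    · exact Subsemiring.one_mem _
    · exact Subsemiring.zero_mem _)
  -- the exponent without the alphabet `a`
  set d0 : (ι × ℕ) →₀ ℕ := ∑ b ∈ Finset.univ.erase a, ex b (m b).parts with hd0
  have hsplit : mon m = d0 + ex a (m a).parts := by
    rw [mon_eq, hd0, Finset.sum_erase_add _ _ (Finset.mem_univ a)]
  have hd0a : ∀ i, d0 (a, i) = 0 := by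
    intro i
    have h1 := congrArg (fun e : (ι × ℕ) →₀ ℕ => e (a, i)) hsplit
    simp only [Finsupp.add_apply] at h1
    rw [mon_apply, ex_apply, if_pos rfl] at h1
    omega
  have hd0g : d0 ∉ gb (nb a M 0) := by
    rw [nb_iff]
    intro c i
    by_cases hc : c = a
    · subst hc
      rw [hd0a]
      exact Nat.zero_le _
    · rw [if_neg hc]
      have h1 := congrArg (fun e : (ι × ℕ) →₀ ℕ => e (c, i)) hsplit
      simp only [Finsupp.add_apply] at h1
      rw [mon_apply, ex_apply, if_neg (Ne.symm hc)] at h1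
      show d0 (c, i) ≤ (m c).parts.count i
      omega
  have h1 := congrArg (coeff d0) (hG2 n)
  rw [coeff_Dl a l _ d0 hd0a, mul_one, hl', ← hsplit] at h1
  have h2 : zal (m a) = (zz (m a).parts : K) * al ^ l.length := by
    rw [zal_eq, ← hl', Multiset.coe_card]
  rw [h2, h1, PowerSeries.coeff_mul]
  have h3 : (∑ p ∈ Finset.HasAntidiagonal.antidiagonal n,
      PowerSeries.coeff p.1 (tau J ι) * PowerSeries.coeff p.2 G).coeff d0
      = (PowerSeries.coeff n G).coeff d0 := by
    rw [coeff_sum, Finset.sum_eq_single (0, n)]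
    · rw [tau_zero h0, one_mul]
    · intro p hp hpn
      rw [coeff_mul]
      refine Finset.sum_eq_zero fun q hq => ?_
      rw [Finset.HasAntidiagonal.mem_antidiagonal] at hq hp
      by_cases h4 : (PowerSeries.coeff p.1 (tau J ι)).coeff q.1 = 0
      · rw [h4, zero_mul]
      · exfalso
        obtain ⟨m', hm'⟩ := hom_tau J p.1 _ h4
        have h5 : ∀ i, (m' a).parts.count i = 0 := by
          intro i
          have h6 := congrArg (fun e : (ι × ℕ) →₀ ℕ => e (a, i)) hq
          simp only [Finsupp.add_apply] at h6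
          rw [hd0a, ← hm', mon_apply] at h6
          omega
        have h7 : (m' a).parts = 0 := by
          rw [Multiset.eq_zero_iff_forall_notMem]
          intro i hi
          exact absurd (h5 i) (Multiset.count_ne_zero.2 hi)
        have h8 : p.1 = 0 := by
          rw [← (m' a).parts_sum, h7, Multiset.sum_zero]
        apply hpn
        refine Prod.ext h8 ?_
        show p.2 = n
        omega
    · intro h4
      exact absurd (Finset.HasAntidiagonal.mem_antidiagonal.2 (zero_add n)) h4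
  rw [h3]
  exact hG n d0 hd0g

end Cc

section Final

variable {J : Fam}

theorem b_mem_Qb : al - 1 ∈ Qb := by
  refine ⟨Polynomial.X, ?_⟩
  rw [RingHom.comp_apply, Polynomial.coe_mapRingHom, Polynomial.map_X, RatFunc.algebraMap_X, al]
  ring

theorem inv_mem_Qb (n : ℕ) : ((n : K))⁻¹ ∈ Qb := by
  have h1 := rat_mem_Qb ((n : ℚ)⁻¹) (by positivity)
  rw [Rat.cast_inv, Rat.cast_natCast] at h1
  exact h1

theorem IsHook.sub {n n' : ℕ} {l : n.Partition} {l' : n'.Partition} (h : IsHook l)
    (hl : l'.parts ≤ l.parts) : IsHook l' :=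
  (Multiset.card_le_card (Multiset.filter_le_filter _ hl)).trans h

/-- Two hooks, the third partition arbitrary. -/
theorem two_hooks (hK : IsJack J) {n : ℕ} (hn : 1 ≤ n) (m : Fin 3 → n.Partition) {p q : Fin 3}
    (hpq : p ≠ q) (hp : IsHook (m p)) (hq : IsHook (m q)) :
    cJ J 1 m ∈ Nb ∧ hJ J 1 m ∈ Nb := by
  obtain ⟨W, hW⟩ := IsLog.exists_log al (tau_zero hK.unital (Fin 3))
  have hex : ∀ p q : Fin 3, ∃ a : Fin 3, p ≠ a ∧ q ≠ a := by decide
  obtain ⟨a, hpa, hqa⟩ := hex p q
  have key : ∀ (n' : ℕ) (m' : Fin 3 → n'.Partition), IsHook (m' p) → IsHook (m' q) →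
      (PowerSeries.coeff n' W).coeff (mon m') ∈ Qb := fun n' m' h1 h2 =>
    log_hook hK.jok hK.unital (hK.eigL a) hpa hqa hpq al_mem_Qb b_mem_Qb inv_mem_Qb hW m' h1 h2
  obtain ⟨hc, hh, _⟩ := integral hK (k := 1) le_rfl hn m
  refine ⟨mem_Nb hc ?_, mem_Nb hh ?_⟩
  · exact c_of_sub hK.unital al_mem_Qb hW 0 fun n' m' hm' =>
      key n' m' (hp.sub (hm' p)) (hq.sub (hm' q))
  · have h1 : hJ J 1 m = (n : K) * (PowerSeries.coeff n W).coeff (mon m) :=
      coeff_Psi hK.unital hW n (mon m)
    rw [h1]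
    exact Qb.mul_mem (natCast_mem Qb n) (key n m hp hq)

end Final

end Pool.Agent.JackB
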