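import Pool.Agent.Lib.JackB.Hook1

/-!
The system for the parameters `e + s, e, e, …` (problem MP_b52a9f_co).
-/

open MvPolynomial

namespace Pool.Agent.JackB

section Sp

variable {L : Type*}

/-- The parameters `e + s, e, e, …`. -/
noncomputable def sp (e s : AA K L) : ℕ → AA K L :=
  fun i => if i = 0 then 0 else e + if i = 1 then s else 0

theorem sp_zero (e s : AA K L) : sp e s 0 = 0 := if_pos rfl

theorem sp_one (e s : AA K L) : sp e s 1 = e + s := by simp [sp]

theorem sp_two (e s : AA K L) (n : ℕ) : sp e s (n + 2) = e := by simp [sp]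

theorem sp_Gp {a : L} {e s : AA K L} (he : e ∈ Gp K a) (hs : s ∈ Gp K a) (i : ℕ) :
    sp e s i ∈ Gp K a := by
  unfold sp
  split_ifs
  · exact (Gp K a).zero_mem
  · exact (Gp K a).add_mem he hs
  · exact (Gp K a).add_mem he (Gp K a).zero_mem

theorem Gr_sp (e s : AA K L) : Gr (sp e s) = YY (sp e s) + PowerSeries.C (Polynomial.C (e + s))
    - PowerSeries.X * PowerSeries.C (Polynomial.C s * Polynomial.X) := by
  ext1 n
  rw [Gr, YY, map_sub, map_add, PowerSeries.coeff_mk, PowerSeries.coeff_mk]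
  rcases n with _ | _ | n
  · rw [PowerSeries.coeff_zero_X_mul, sp_zero, sp_one, map_zero, zero_add, sub_zero,
      PowerSeries.coeff_zero_C, mo_zero_eq]
  · rw [PowerSeries.coeff_succ_X_mul, PowerSeries.coeff_zero_C, sp_two, sp_one,
      PowerSeries.coeff_C, if_neg (by omega), add_zero, map_add, mo_apply _ s,
      ← Polynomial.C_mul_X_pow_eq_monomial]
    ring
  · rw [PowerSeries.coeff_succ_X_mul, PowerSeries.coeff_C, PowerSeries.coeff_C,
      if_neg (by omega), if_neg (by omega), add_zero, sub_zero, sp_two]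
    exact congrArg _ (sp_two e s n).symm

variable [DecidableEq L]

theorem ve_Gr (a : L) {e s : AA K L} (he : e ∈ Gp K a) (hs : s ∈ Gp K a) :
    ve al a (sp e s) * Gr (sp e s)
      = tl (Md al a).toLinearMap (PowerSeries.mk (vv al a (sp e s)))
        + PowerSeries.C (Polynomial.C (e + s)) * ve al a (sp e s)
        - PowerSeries.X * (PowerSeries.C (Polynomial.C s * Polynomial.X) * ve al a (sp e s)) := by
  rw [Md_vv al_ne_zero (fun j => Md_Gp (sp_Gp he hs j)) (sp_zero e s), Gr_sp]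
  show _ = YY (sp e s) * ve al a (sp e s) + _ - _
  ring

end Sp

section Ops

variable {J : Fam} {L : Type*} [DecidableEq L] {a : L}

/-- The operator multiplying `J_θ` by `J_θ(r)`, with its extension to `V`. -/
structure IsP (J : Fam) (a : L) (r : ℕ → AA K L) (P0 : AA K L →ₗ[K] AA K L)
    (P : VV K L →ₗ[K] VV K L) : Prop where
  P1 : ∀ (n : ℕ) (th : n.Partition), P0 (Jp J th a) = Jr J th r * Jp J th a
  P2 : ∀ v, Pv a v → ∀ f, P0 (X v * f) = X v * P0 f
  lift : IsLift al (al - 1) a P0 P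
  Pk : ∀ k f, P0 (hk al (al - 1) a k f) = hk al (al - 1) a k (P0 f)
  Pe : ∀ n, P0 (vv al a (r1 K L) n) = vv al a r n

theorem exists_isP (hJ : JOK J) (hE : Eig J a) {r : ℕ → AA K L} (hr : ∀ i, r i ∈ Gp K a) :
    ∃ P0 P, IsP J a r P0 P := by
  obtain ⟨P0, hP1, hP2⟩ := exists_P0 hJ a r
  have hPk := P0_hk hJ hE (fun i => Md_Gp (hr i)) hP1 hP2
  obtain ⟨P, hP⟩ := exists_lift al_ne_zero (al - 1) a hPk
  exact ⟨P0, P, hP1, hP2, hP, hPk, P0_e hJ hP1⟩

/-- The coefficients of the series `τ` with parameters in two alphabets. -/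
noncomputable def tq (J : Fam) (a : L) (r q : ℕ → AA K L) (n : ℕ) : AA K L :=
  ∑ th : n.Partition, C (jn J th)⁻¹ * (Jr J th r * (Jr J th q * Jp J th a))

omit [DecidableEq L] in
theorem tq_symm (r q : ℕ → AA K L) (n : ℕ) : tq J a r q n = tq J a q r n := by
  refine Finset.sum_congr rfl fun th _ => ?_
  ring

omit [DecidableEq L] in
theorem Jr_Gp {r : ℕ → AA K L} (hr : ∀ i, r i ∈ Gp K a) {n : ℕ} (th : n.Partition) :
    Jr J th r ∈ Gp K a := by
  unfold Jr
  refine (Gp K a).sum_mem fun l _ => (Gp K a).mul_mem ((Gp K a).algebraMap_mem _) ?_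
  exact rr_Gp hr _

theorem IsP.tq (hJ : JOK J) {r q : ℕ → AA K L} {P0 : AA K L →ₗ[K] AA K L}
    {P : VV K L →ₗ[K] VV K L} (hP : IsP J a r P0 P) (hq : ∀ i, q i ∈ Gp K a) (n : ℕ) :
    P0 (vv al a q n) = tq J a r q n := by
  rw [vv_eq_J hJ, map_sum]
  refine Finset.sum_congr rfl fun th _ => ?_
  rw [← smul_eq_C_mul, map_smul, lin_Gp hP.P2 (Jr_Gp hq th), hP.P1, smul_eq_C_mul]
  ring

variable {T : ℕ → VV K L →ₗ[K] VV K L}

theorem IsP.cx (hT : ∀ n, IsLift al (al - 1) a (hk al (al - 1) a n) (T n)) {r : ℕ → AA K L}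
    {P0 : AA K L →ₗ[K] AA K L} {P : VV K L →ₗ[K] VV K L} (hP : IsP J a r P0 P) :
    Cx al (al - 1) a T P := cx_lift al_ne_zero hT hP.lift hP.Pk hP.P2

/-- The value of `nat Q` on the exponential vectors. -/
theorem nat_Q_vv (hJ : JOK J) (hE : Eig J a) {r q : ℕ → AA K L}
    {P0 Q0 : AA K L →ₗ[K] AA K L} {P Q : VV K L →ₗ[K] VV K L}
    (hr : ∀ i, r i ∈ Gp K a) (hq : ∀ i, q i ∈ Gp K a) (hq0 : q 0 = 0)
    (hP : IsP J a r P0 P) (hQ : IsP J a q Q0 Q) (n : ℕ) :
    nat Q (mo 0 (vv al a r n)) = P (PowerSeries.coeff n (ve al a q * Gr q)) := by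
  have hT : ∀ n, ∃ T, IsLift al (al - 1) a (hk al (al - 1) a n) T :=
    fun n => exists_lift al_ne_zero (al - 1) a (fun k f => hk_comm hJ hE n k f)
  choose T hT using hT
  exact nat_Q_P al_ne_zero hT (hk_comm hJ hE) hr hq hq0 hP.lift hQ.lift hP.Pk hQ.Pk hP.P2 hQ.P2
    hP.Pe hQ.Pe n

/-- The series of the `nat Q` of exponential vectors. -/
noncomputable def An (a : L) (r : ℕ → AA K L) (Q : VV K L →ₗ[K] VV K L) :
    PowerSeries (VV K L) := PowerSeries.mk fun n => nat Q (mo 0 (vv al a r n))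

/-- The first equation. -/
theorem eq_one (hJ : JOK J) (hE : Eig J a) {r : ℕ → AA K L} {e s : AA K L}
    {P0 Q0 : AA K L →ₗ[K] AA K L} {P Q : VV K L →ₗ[K] VV K L}
    (hr : ∀ i, r i ∈ Gp K a) (he : e ∈ Gp K a) (hs : s ∈ Gp K a)
    (hP : IsP J a r P0 P) (hQ : IsP J a (sp e s) Q0 Q) :
    An a r Q = tl (Md al a).toLinearMap (PowerSeries.mk (tq J a r (sp e s)))
      + PowerSeries.C (Polynomial.C (e + s)) * tl (mo 0) (PowerSeries.mk (tq J a r (sp e s)))
      - PowerSeries.X * (PowerSeries.C (Polynomial.C s * Polynomial.X) * An a (sp e s) P) := by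
  have hq := sp_Gp he hs
  have hpar : ∀ g ∈ Gp K a, ∀ u, P (Polynomial.C g * u) = Polynomial.C g * P u :=
    fun g hg u => hP.lift.par al_ne_zero (Md_Gp hg) (lin_Gp hP.P2 hg) u
  have hMd : ∀ f, P (Md al a f) = Md al a (P0 f) := by
    intro f
    rw [← LX_zero al (al - 1) a f, hP.lift.lx, hP.lift.mo, LX_zero]
  ext1 n
  have h1 : P (PowerSeries.coeff n (tl (Md al a).toLinearMap
      (PowerSeries.mk (vv al a (sp e s)))))
      = PowerSeries.coeff n (tl (Md al a).toLinearMap (PowerSeries.mk (tq J a r (sp e s)))) := by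
    rw [coeff_tl, coeff_tl, PowerSeries.coeff_mk, PowerSeries.coeff_mk, ← hP.tq hJ hq]
    exact hMd _
  have h2 : P (PowerSeries.coeff n (PowerSeries.C (Polynomial.C (e + s)) * ve al a (sp e s)))
      = PowerSeries.coeff n (PowerSeries.C (Polynomial.C (e + s)) *
        tl (mo 0) (PowerSeries.mk (tq J a r (sp e s)))) := by
    rw [PowerSeries.coeff_C_mul, PowerSeries.coeff_C_mul, hpar _ ((Gp K a).add_mem he hs),
      coeff_ve, coeff_tl, PowerSeries.coeff_mk, hP.lift.mo, hP.tq hJ hq]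
  have h3 : P (PowerSeries.coeff n (PowerSeries.X *
      (PowerSeries.C (Polynomial.C s * Polynomial.X) * ve al a (sp e s))))
      = PowerSeries.coeff n (PowerSeries.X *
        (PowerSeries.C (Polynomial.C s * Polynomial.X) * An a (sp e s) P)) := by
    cases n with
    | zero =>
      rw [PowerSeries.coeff_zero_X_mul, PowerSeries.coeff_zero_X_mul, map_zero]
    | succ n =>
      rw [PowerSeries.coeff_succ_X_mul, PowerSeries.coeff_succ_X_mul, PowerSeries.coeff_C_mul,
        PowerSeries.coeff_C_mul, coeff_ve, mul_assoc, mul_assoc, hpar s hs, ← Yp_apply,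
        hP.lift.Yp, Yp_apply, An, PowerSeries.coeff_mk]
  rw [map_sub (PowerSeries.coeff n), map_add (PowerSeries.coeff n), ← h1, ← h2, ← h3,
    ← map_add P, ← map_sub P, ← map_add (PowerSeries.coeff n), ← map_sub (PowerSeries.coeff n),
    ← ve_Gr a he hs]
  rw [An, PowerSeries.coeff_mk]
  exact nat_Q_vv hJ hE hr hq (sp_zero e s) hP hQ n

/-- The derivative of the exponential vectors with respect to a parameter. -/
theorem pderiv_vv_sp {c : L} (hca : c ≠ a) {r : ℕ → AA K L}
    (hr : ∀ i, pderiv (c, 1) (r i) = if i = 1 then 1 else 0) (n : ℕ) :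
    C al * pderiv (c, 1) (vv al a r (n + 1)) = X (a, 1) * vv al a r n := by
  set φ : AA K L →ₐ[K] AA K L := aeval fun v => if v.1 = c then r v.2 else X v with hφ
  have hφX : ∀ v, φ (X v) = if v.1 = c then r v.2 else X v := fun v => by rw [hφ, aeval_X]
  have hD : ∀ f, pderiv (c, 1) (φ f) = φ (pderiv (c, 1) f) := by
    intro f
    induction f using MvPolynomial.induction_on with
    | C x => rw [algHom_C, algebraMap_eq, pderiv_C, map_zero]
    | add p q hp hq => rw [map_add, map_add, map_add, map_add, hp, hq]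
    | mul_X p v hp =>
      have h1 : pderiv (c, 1) (φ (X v)) = φ (pderiv (c, 1) (X v)) := by
        rw [hφX, pderiv_X]
        by_cases hv : v.1 = c
        · rw [if_pos hv, hr]
          by_cases h2 : v.2 = 1
          · have h3 : v = (c, 1) := Prod.ext hv h2
            rw [if_pos h2, h3, Pi.single_eq_same, map_one]
          · have h3 : v ≠ (c, 1) := fun h => h2 (by rw [h])
            rw [if_neg h2, Pi.single_eq_of_ne h3, map_zero]
        · have h3 : v ≠ (c, 1) := fun h => hv (by rw [h])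
          rw [if_neg hv, pderiv_X, Pi.single_eq_of_ne h3, map_zero]
      rw [map_mul, pderiv_mul, pderiv_mul, map_add, map_mul, map_mul, hp, h1]
  have hv : ∀ n, φ (vv al c (fun i => X (a, i)) n) = vv al a r n := by
    intro n
    have h1 : ∀ m : Multiset ℕ, φ (pm K c m) = rr r m := by
      intro m
      induction m using Multiset.induction_on with
      | empty => simp [rr]
      | cons i m ih => rw [pm_cons, map_mul, ih, hφX, if_pos rfl, rr_cons]
    have h2 : ∀ m : Multiset ℕ, φ (pm K a m) = pm K a m := by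
      intro m
      induction m using Multiset.induction_on with
      | empty => simp
      | cons i m ih => rw [pm_cons, map_mul, ih, hφX, if_neg (fun h => hca h.symm)]
    rw [← vv_symm al a c, vv, vv, map_sum]
    refine Finset.sum_congr rfl fun l _ => ?_
    rw [map_mul, map_mul, algHom_C, algebraMap_eq, h2, ← h1]
    rfl
  have h3 : ∀ j, pderiv (c, 1) (X (a, j) : AA K L) = 0 := by
    intro j
    rw [pderiv_X, Pi.single_eq_of_ne]
    intro h
    exact hca (Prod.ext_iff.1 h).1.symm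
  have h4 := pderiv_vv al_ne_zero le_rfl h3 (n + 1)
  rw [if_pos (by omega), Nat.add_sub_cancel, Nat.cast_one, mul_one] at h4
  have h5 := congrArg φ h4
  rw [map_mul, map_mul, algHom_C, algebraMap_eq, ← hD, hv, hv, hφX, if_neg (fun h => hca h.symm)]
    at h5
  exact h5

end Ops

end Pool.Agent.JackB
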