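import Pool.Agent.Lib.JackB.Hook2

/-!
The derivatives of the series with parameters (problem MP_b52a9f_co).
-/

open MvPolynomial

namespace Pool.Agent.JackB

section Der

variable {J : Fam} {L : Type*} [DecidableEq L] {a : L}

/-- The derivative of the series with respect to a parameter. -/
theorem eq_der (hJ : JOK J) {c : L} (hca : c ≠ a) {r q : ℕ → AA K L}
    {Q0 : AA K L →ₗ[K] AA K L} {Q : VV K L →ₗ[K] VV K L}
    (hr : ∀ i, r i ∈ Gp K a) (hQ : IsP J a q Q0 Q)
    (hrc : ∀ i, pderiv (c, 1) (r i) = if i = 1 then 1 else 0)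
    (hqc : ∀ i, pderiv (c, 1) (q i) = 0) :
    PowerSeries.C (C al) * dd (pderiv (R := K) (c, 1)) (PowerSeries.mk (tq J a r q))
      = PowerSeries.X * tl (Th1 a) (An a r Q) := by
  have hcomm : ∀ f, Q0 (pderiv (c, 1) f) = pderiv (c, 1) (Q0 f) :=
    P0_pderiv hJ hca hqc hQ.P1 hQ.P2
  have ht : ∀ n, tq J a r q n = Q0 (vv al a r n) := by
    intro n
    rw [hQ.tq hJ hr, tq_symm]
  ext1 n
  rw [PowerSeries.coeff_C_mul, coeff_dd, PowerSeries.coeff_mk]
  cases n with
  | zero =>
    rw [PowerSeries.coeff_zero_X_mul, ht, vv_zero, ← hcomm, pderiv_one, map_zero, mul_zero]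
  | succ n =>
    rw [PowerSeries.coeff_succ_X_mul, coeff_tl, An, PowerSeries.coeff_mk, ht, ← hcomm,
      ← smul_eq_C_mul, ← map_smul, smul_eq_C_mul, pderiv_vv_sp hca hrc, nat_Th1 hQ.lift, Th1_mo,
      zero_add]

theorem zz_replicate (n : ℕ) : zz (Multiset.replicate n 1) = n.factorial := by
  induction n with
  | zero => simp [zz]
  | succ n ih =>
    rw [Multiset.replicate_succ, zz_cons, ih, Multiset.count_replicate_self, Nat.factorial_succ,
      one_mul]

omit [DecidableEq L] in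
theorem vv_r1 (n : ℕ) : vv al a (r1 K L) n
    = C (((n.factorial : ℕ) : K) * al ^ n)⁻¹ * X (a, 1) ^ n := by
  rw [vv, Finset.sum_eq_single (ones n)]
  · rw [rr_r1_parts, if_pos rfl, mul_one]
    have h1 : (ones n).parts = Multiset.replicate n 1 := rfl
    rw [h1, zz_replicate, Multiset.card_replicate, pm, Multiset.map_replicate,
      Multiset.prod_replicate]
  · intro l _ hl
    rw [rr_r1_parts, if_neg hl, mul_zero, mul_zero]
  · intro h
    exact absurd (Finset.mem_univ _) h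

omit [DecidableEq L] in
theorem X_vv_r1 (n : ℕ) : X (a, 1) * vv al a (r1 K L) n
    = C (al * ((n + 1 : ℕ) : K)) * vv al a (r1 K L) (n + 1) := by
  rw [vv_r1, vv_r1, ← mul_assoc (C (al * ((n + 1 : ℕ) : K))), ← C_mul]
  have h1 : al * ((n + 1 : ℕ) : K) * ((((n + 1).factorial : ℕ) : K) * al ^ (n + 1))⁻¹
      = (((n.factorial : ℕ) : K) * al ^ n)⁻¹ := by
    have h2 : ((n + 1 : ℕ) : K) ≠ 0 := Nat.cast_ne_zero.2 (Nat.succ_ne_zero n)
    have h3 : ((n.factorial : ℕ) : K) ≠ 0 := Nat.cast_ne_zero.2 (Nat.factorial_ne_zero n)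
    have h4 := al_ne_zero
    rw [Nat.factorial_succ, Nat.cast_mul, pow_succ]
    field_simp
  rw [h1, pow_succ]
  ring

/-- The Lax operator plus a constant on series. -/
noncomputable def Lxe (a : L) (e : AA K L) (G : PowerSeries (VV K L)) : PowerSeries (VV K L) :=
  tl (LX al (al - 1) a) G + PowerSeries.C (Polynomial.C e) * G

/-- The equation in the variable of the series. -/
theorem eq_zd (hJ : JOK J) {q : ℕ → AA K L} {e : AA K L}
    {P0 Q0 : AA K L →ₗ[K] AA K L} {P Q : VV K L →ₗ[K] VV K L}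
    (he : e ∈ Gp K a) (hP : IsP J a (sp e 0) P0 P) (hQ : IsP J a q Q0 Q) :
    PowerSeries.C (C al) * zd (PowerSeries.mk (tq J a (sp e 0) q))
      = PowerSeries.X * tl (Th1 a) (Lxe a e (An a (sp e 0) Q)) := by
  have hr := sp_Gp he (Gp K a).zero_mem
  have ht : ∀ n, tq J a (sp e 0) q n = Q0 (vv al a (sp e 0) n) := by
    intro n
    rw [hQ.tq hJ hr, tq_symm]
  ext1 n
  rw [PowerSeries.coeff_C_mul, coeff_zd, PowerSeries.coeff_mk]
  cases n with
  | zero =>
    rw [PowerSeries.coeff_zero_X_mul, Nat.cast_zero, zero_mul, mul_zero]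
  | succ n =>
    have h1 : nat P (mo 0 (vv al a (r1 K L) n))
        = Md al a (vv al a (sp e 0) n) + Polynomial.C e * mo 0 (vv al a (sp e 0) n) := by
      rw [nat_P_e al_ne_zero (fun i => Md_Gp (hr i)) (sp_zero e 0) hP.lift hP.Pe,
        ve_Gr a he (Gp K a).zero_mem, map_sub (PowerSeries.coeff n),
        map_add (PowerSeries.coeff n), coeff_tl, PowerSeries.coeff_mk, PowerSeries.coeff_C_mul,
        coeff_ve, Polynomial.C_0, zero_mul, map_zero, zero_mul, mul_zero,
        map_zero (PowerSeries.coeff n), sub_zero, add_zero]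
      rfl
    have h2 : C (al * ((n + 1 : ℕ) : K)) * vv al a (sp e 0) (n + 1)
        = Th1 a (nat P (mo 0 (vv al a (r1 K L) n))) := by
      rw [nat_Th1 hP.lift, Th1_mo, zero_add, X_vv_r1, ← smul_eq_C_mul, ← smul_eq_C_mul,
        map_smul, hP.Pe]
    have h3 : C (al * ((n + 1 : ℕ) : K)) * Q0 (vv al a (sp e 0) (n + 1))
        = Th1 a (nat Q (nat P (mo 0 (vv al a (r1 K L) n)))) := by
      rw [nat_Th1 hQ.lift, ← h2, ← smul_eq_C_mul, ← smul_eq_C_mul, map_smul]
    have h4 : nat Q (Polynomial.C e * mo 0 (vv al a (sp e 0) n))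
        = Polynomial.C e * nat Q (mo 0 (vv al a (sp e 0) n)) := by
      have h5 : (Yp (Polynomial.C e * mo 0 (vv al a (sp e 0) n)) : VV K L)
          = Polynomial.C e * Yp (mo 0 (vv al a (sp e 0) n)) := by
        rw [Yp_apply, Yp_apply, mul_left_comm]
      rw [nat_apply, nat_apply, h5, hQ.lift.par al_ne_zero (Md_Gp he) (lin_Gp hQ.P2 he), Ym_C_mul]
    rw [h1, map_add, h4, ← LX_zero al (al - 1) a, nat_LX hQ.lift] at h3
    rw [PowerSeries.coeff_succ_X_mul, coeff_tl, Lxe, map_add (PowerSeries.coeff n), coeff_tl,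
      PowerSeries.coeff_C_mul, An, PowerSeries.coeff_mk, ← h3, ht, C_mul,
      ← map_natCast (C : K →+* AA K L), mul_assoc]

end Der

end Pool.Agent.JackB
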