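import Pool.Agent.Lib.JackB.Hook3

/-!
The linear system satisfied by the logarithm of the series with parameters (problem
MP_b52a9f_co).
-/

open MvPolynomial

namespace Pool.Agent.JackB

section Gen

variable {L : Type*} [DecidableEq L] {a : L}

theorem Md_al (f : AA K L) : Md al a f = Polynomial.C (C al) * Md (1 : K) a f := by
  refine co_ext fun i => ?_
  rw [coeff_Md, co_apply, Polynomial.coeff_C_mul, ← co_apply, coeff_Md, one_mul, C_mul, mul_assoc]

theorem tl_Md_log {τ W : PowerSeries (AA K L)} (h : IsLog (C al) τ W) :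
    tl (Md al a).toLinearMap τ = tl (mo 0) τ * tl (Md (1 : K) a).toLinearMap W := by
  ext1 n
  refine co_ext fun i => ?_
  have hC : (C al : AA K L) ≠ 0 := by
    rw [Ne, C_eq_zero]
    exact al_ne_zero
  have h2 := congrArg (PowerSeries.coeff n) (h.dd_eq (pderiv (R := K) (a, i)) hC pderiv_C)
  rw [PowerSeries.coeff_C_mul, coeff_dd, PowerSeries.coeff_mul] at h2
  have h3 : ∀ p ∈ Finset.HasAntidiagonal.antidiagonal n,
      co i (PowerSeries.coeff p.1 (tl (mo 0) τ) *
        PowerSeries.coeff p.2 (tl (Md (1 : K) a).toLinearMap W))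
      = C (i : K) * (PowerSeries.coeff p.1 τ *
        PowerSeries.coeff p.2 (dd (pderiv (R := K) (a, i)) W)) := by
    intro p _
    have h4 : PowerSeries.coeff p.2 (tl (Md (1 : K) a).toLinearMap W)
        = Md (1 : K) a (PowerSeries.coeff p.2 W) := coeff_tl _ _ _
    rw [coeff_tl, h4, mo_zero_eq, co_apply, Polynomial.coeff_C_mul, ← co_apply, coeff_Md, one_mul,
      coeff_dd, mul_left_comm]
  rw [PowerSeries.coeff_mul, map_sum, Finset.sum_congr rfl h3, ← Finset.mul_sum, ← h2]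
  have h5 : PowerSeries.coeff n (tl (Md al a).toLinearMap τ)
      = Md al a (PowerSeries.coeff n τ) := coeff_tl _ _ _
  rw [h5, coeff_Md, C_mul]
  ring

omit [DecidableEq L] in
theorem tl_Th1_mul (g : PowerSeries (AA K L)) (G : PowerSeries (VV K L)) :
    tl (Th1 a) (tl (mo 0) g * G) = g * tl (Th1 a) G := by
  ext1 n
  rw [coeff_tl, PowerSeries.coeff_mul, PowerSeries.coeff_mul, map_sum]
  refine Finset.sum_congr rfl fun p _ => ?_
  rw [coeff_tl, coeff_tl, mo_zero_eq, Th1_C_mul]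

omit [DecidableEq L] in
theorem exists_inv {τ : PowerSeries (AA K L)} (h : PowerSeries.coeff 0 τ = 1) :
    ∃ U : PowerSeries (VV K L), tl (mo 0) τ * U = 1 := by
  have hu : PowerSeries.constantCoeff τ = ((1 : (AA K L)ˣ) : AA K L) := by
    rw [Units.val_one, ← PowerSeries.coeff_zero_eq_constantCoeff_apply, h]
  refine ⟨tl (mo 0) (PowerSeries.invOfUnit τ 1), ?_⟩
  rw [tl_mo_mul, PowerSeries.mul_invOfUnit τ 1 hu]
  ext1 n
  rw [coeff_tl, PowerSeries.coeff_one, PowerSeries.coeff_one]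
  split_ifs
  · rw [mo_zero_eq, Polynomial.C_1]
  · exact map_zero _

omit [DecidableEq L] in
theorem ne_zero_of_one {τ : PowerSeries (AA K L)} (h : PowerSeries.coeff 0 τ = 1) : τ ≠ 0 := by
  intro h0
  rw [h0, map_zero] at h
  exact zero_ne_one h

end Gen

section Sys

variable {J : Fam} {L : Type*} [DecidableEq L] {a : L}

/-- The linear system. -/
theorem sys (hJ : JOK J) (hE : Eig J a) {e s f t : AA K L}
    (he : e ∈ Gp K a) (hs : s ∈ Gp K a) (hf : f ∈ Gp K a) (ht : t ∈ Gp K a)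
    {W : PowerSeries (AA K L)}
    (hW : IsLog (C al) (PowerSeries.mk (tq J a (sp e s) (sp f t))) W) :
    ∃ A B : PowerSeries (VV K L),
      A = tl (Md (1 : K) a).toLinearMap W + PowerSeries.C (Polynomial.C (f + t))
        - PowerSeries.X * (PowerSeries.C (Polynomial.C t * Polynomial.X) * B) ∧
      B = tl (Md (1 : K) a).toLinearMap W + PowerSeries.C (Polynomial.C (e + s))
        - PowerSeries.X * (PowerSeries.C (Polynomial.C s * Polynomial.X) * A) ∧
      (∀ c, c ≠ a → (∀ i, pderiv (c, 1) (sp e s i) = if i = 1 then 1 else 0) →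
        (∀ i, pderiv (c, 1) (sp f t i) = 0) →
        dd (pderiv (R := K) (c, 1)) W = PowerSeries.X * tl (Th1 a) A) ∧
      (∀ c, c ≠ a → (∀ i, pderiv (c, 1) (sp f t i) = if i = 1 then 1 else 0) →
        (∀ i, pderiv (c, 1) (sp e s i) = 0) →
        dd (pderiv (R := K) (c, 1)) W = PowerSeries.X * tl (Th1 a) B) := by
  have hr := sp_Gp he hs
  have hq := sp_Gp hf ht
  obtain ⟨P0, P, hP⟩ := exists_isP hJ hE hr
  obtain ⟨Q0, Q, hQ⟩ := exists_isP hJ hE hq
  have hsym : PowerSeries.mk (tq J a (sp f t) (sp e s))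
      = PowerSeries.mk (tq J a (sp e s) (sp f t)) := by
    ext1 n
    rw [PowerSeries.coeff_mk, PowerSeries.coeff_mk, tq_symm]
  have h1 := eq_one hJ hE hr hf ht hP hQ
  have h2 := eq_one hJ hE hq he hs hQ hP
  rw [hsym] at h2
  set τ := PowerSeries.mk (tq J a (sp e s) (sp f t)) with hτ
  obtain ⟨U, hU⟩ := exists_inv hW.one
  rw [tl_Md_log hW] at h1 h2
  have hC : (C al : AA K L) ≠ 0 := by
    rw [Ne, C_eq_zero]
    exact al_ne_zero
  have hτ0 := ne_zero_of_one hW.one
  have hA : An a (sp e s) Q = tl (mo 0) τ * (U * An a (sp e s) Q) := by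
    rw [← mul_assoc, hU, one_mul]
  have hB : An a (sp f t) P = tl (mo 0) τ * (U * An a (sp f t) P) := by
    rw [← mul_assoc, hU, one_mul]
  refine ⟨U * An a (sp e s) Q, U * An a (sp f t) P, ?_, ?_, ?_, ?_⟩
  · linear_combination U * h1 + (tl (Md (1 : K) a).toLinearMap W +
      PowerSeries.C (Polynomial.C (f + t))) * hU
  · linear_combination U * h2 + (tl (Md (1 : K) a).toLinearMap W +
      PowerSeries.C (Polynomial.C (e + s))) * hU
  · intro c hca hrc hqc
    have h3 := eq_der hJ hca hr hQ hrc hqc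
    rw [← hτ, hW.dd_eq (pderiv (R := K) (c, 1)) hC pderiv_C, hA, tl_Th1_mul, mul_left_comm] at h3
    exact mul_left_cancel₀ hτ0 h3
  · intro c hca hqc hrc
    have h3 := eq_der hJ hca hq hP hqc hrc
    rw [hsym, hW.dd_eq (pderiv (R := K) (c, 1)) hC pderiv_C, hB, tl_Th1_mul, mul_left_comm] at h3
    exact mul_left_cancel₀ hτ0 h3

/-- The equation without the parameters `s`, `t`. -/
theorem sys_zero (hJ : JOK J) (hE : Eig J a) {e f : AA K L} (he : e ∈ Gp K a) (hf : f ∈ Gp K a)
    {W : PowerSeries (AA K L)}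
    (hW : IsLog (C al) (PowerSeries.mk (tq J a (sp e 0) (sp f 0))) W) :
    ∃ G : PowerSeries (VV K L),
      G = tl (Md (1 : K) a).toLinearMap W + PowerSeries.C (Polynomial.C f) ∧
      zd W = PowerSeries.X * tl (Th1 a) (tl (LX al (al - 1) a) G +
        tl (Md (1 : K) a).toLinearMap W * G + PowerSeries.C (Polynomial.C e) * G) := by
  have h0 := (Gp K a).zero_mem
  have hr := sp_Gp he h0
  have hq := sp_Gp hf h0
  obtain ⟨P0, P, hP⟩ := exists_isP hJ hE hr
  obtain ⟨Q0, Q, hQ⟩ := exists_isP hJ hE hq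
  have h1 := eq_one hJ hE hr hf h0 hP hQ
  have h2 := eq_zd hJ he hP hQ
  set τ := PowerSeries.mk (tq J a (sp e 0) (sp f 0)) with hτ
  have hτ0 := ne_zero_of_one hW.one
  refine ⟨_, rfl, ?_⟩
  set G := tl (Md (1 : K) a).toLinearMap W + PowerSeries.C (Polynomial.C f) with hG
  have h3 : An a (sp e 0) Q = tl (mo 0) τ * G := by
    rw [h1, tl_Md_log hW, add_zero, Polynomial.C_0, zero_mul, map_zero, zero_mul, mul_zero,
      sub_zero, hG]
    ring
  have h4 : Lxe a e (tl (mo 0) τ * G) = tl (mo 0) τ * (tl (LX al (al - 1) a) G +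
      tl (Md (1 : K) a).toLinearMap W * G + PowerSeries.C (Polynomial.C e) * G) := by
    rw [Lxe, tl_LX_mul, tl_Md_log hW]
    ring
  rw [h3, h4, tl_Th1_mul, hW.eq, mul_left_comm] at h2
  exact mul_left_cancel₀ hτ0 h2

end Sys

end Pool.Agent.JackB
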