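import Pool.Agent.Lib.JackB.Hook4

/-!
The explicit solution of the linear system (problem MP_b52a9f_co).
-/

open MvPolynomial

namespace Pool.Agent.JackB

section Geo

variable {L : Type*}

/-- The geometric series. -/
noncomputable def gs (s : AA K L) : PowerSeries (AA K L) := PowerSeries.mk fun n => s ^ n

theorem gs_eq (s : AA K L) : gs s = 1 + PowerSeries.X * (PowerSeries.C s * gs s) := by
  ext1 n
  rw [gs, map_add, PowerSeries.coeff_mk, PowerSeries.coeff_one]
  cases n with
  | zero => rw [if_pos rfl, PowerSeries.coeff_zero_X_mul, pow_zero, add_zero]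
  | succ n =>
    rw [if_neg (Nat.succ_ne_zero n), PowerSeries.coeff_succ_X_mul, PowerSeries.coeff_C_mul,
      PowerSeries.coeff_mk, zero_add, pow_succ']

theorem gs_inv (s : AA K L) : (1 - PowerSeries.X * PowerSeries.C s) * gs s = 1 := by
  linear_combination gs_eq s

theorem zd_one : zd (1 : PowerSeries (AA K L)) = 0 := by
  ext1 n
  rw [coeff_zd, PowerSeries.coeff_one, map_zero]
  split_ifs with h
  · rw [h, Nat.cast_zero, zero_mul]
  · rw [mul_zero]

theorem zd_X_mul (G : PowerSeries (AA K L)) :
    zd (PowerSeries.X * G) = PowerSeries.X * G + PowerSeries.X * zd G := by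
  ext1 n
  rw [coeff_zd, map_add]
  cases n with
  | zero => simp
  | succ n =>
    rw [PowerSeries.coeff_succ_X_mul, PowerSeries.coeff_succ_X_mul, coeff_zd]
    push_cast
    ring

theorem zd_gs (s : AA K L) :
    zd (gs s) = PowerSeries.X * (PowerSeries.C s * (gs s * gs s)) := by
  have h1 := congrArg zd (gs_eq s)
  rw [zd_add, zd_one, zd_X_mul, zd_C_mul, zero_add] at h1
  have h2 := gs_inv s
  linear_combination gs s * h1 - zd (gs s) * h2

theorem dd_one {R : Type*} [CommRing R] [Algebra R (AA K L)] (d : Derivation R (AA K L) (AA K L)) :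
    dd d (1 : PowerSeries (AA K L)) = 0 := by
  ext1 n
  rw [coeff_dd, PowerSeries.coeff_one, map_zero]
  split_ifs
  · exact Derivation.map_one_eq_zero d
  · exact map_zero d

theorem dd_X_mul {R : Type*} [CommRing R] [Algebra R (AA K L)]
    (d : Derivation R (AA K L) (AA K L)) (G : PowerSeries (AA K L)) :
    dd d (PowerSeries.X * G) = PowerSeries.X * dd d G := by
  ext1 n
  rw [coeff_dd]
  cases n with
  | zero => simp
  | succ n => rw [PowerSeries.coeff_succ_X_mul, PowerSeries.coeff_succ_X_mul, coeff_dd]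

theorem dd_gs {R : Type*} [CommRing R] [Algebra R (AA K L)]
    (d : Derivation R (AA K L) (AA K L)) (s : AA K L) :
    dd d (gs s) = PowerSeries.X * (PowerSeries.C (d s) * (gs s * gs s)) := by
  have h0 : dd d (PowerSeries.C s) = PowerSeries.C (d s) := by
    ext1 n
    rw [coeff_dd, PowerSeries.coeff_C, PowerSeries.coeff_C]
    split_ifs
    · rfl
    · exact map_zero d
  have hadd : ∀ F G : PowerSeries (AA K L), dd d (F + G) = dd d F + dd d G := by
    intro F G
    ext1 n
    rw [coeff_dd, map_add, map_add, map_add, coeff_dd, coeff_dd]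
  have h1 := congrArg (dd d) (gs_eq s)
  rw [hadd, dd_one, dd_X_mul, dd_mul, h0, zero_add] at h1
  have h2 := gs_inv s
  linear_combination gs s * h1 - dd d (gs s) * h2

/-- The powers of the product of two geometric series. -/
noncomputable def rho (s t : AA K L) (j : ℕ) : PowerSeries (AA K L) := (gs s * gs t) ^ j

theorem zd_rho (s t : AA K L) (j : ℕ) : zd (rho s t j)
    = PowerSeries.C (j : AA K L) * (rho s t j * (PowerSeries.X * (PowerSeries.C s * gs s) +
      PowerSeries.X * (PowerSeries.C t * gs t))) := by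
  induction j with
  | zero => rw [rho, pow_zero, zd_one, Nat.cast_zero, map_zero, zero_mul]
  | succ j ih =>
    have h1 : rho s t (j + 1) = rho s t j * (gs s * gs t) := pow_succ _ _
    rw [h1, zd_mul, ih, zd_mul, zd_gs, zd_gs, Nat.cast_succ, map_add, map_one]
    ring

theorem dd_rho {R : Type*} [CommRing R] [Algebra R (AA K L)]
    (d : Derivation R (AA K L) (AA K L)) (s t : AA K L) (j : ℕ) : dd d (rho s t j)
    = PowerSeries.C (j : AA K L) * (rho s t j * (PowerSeries.X * (PowerSeries.C (d s) * gs s) +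
      PowerSeries.X * (PowerSeries.C (d t) * gs t))) := by
  induction j with
  | zero => rw [rho, pow_zero, dd_one, Nat.cast_zero, map_zero, zero_mul]
  | succ j ih =>
    have h1 : rho s t (j + 1) = rho s t j * (gs s * gs t) := pow_succ _ _
    rw [h1, dd_mul, ih, dd_mul, dd_gs, dd_gs, Nat.cast_succ, map_add, map_one]
    ring

end Geo

section XY

variable {L : Type*} [DecidableEq L] {a : L}

/-- The coefficient of degree `n` times `X (a, j + n)`. -/
noncomputable def Xs (a : L) (j : ℕ) (G : PowerSeries (AA K L)) : PowerSeries (AA K L) :=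
  PowerSeries.mk fun n => PowerSeries.coeff n G * X (a, j + n)

/-- The coefficient of degree `n` times `Y ^ (j + n)`. -/
noncomputable def Ys (j : ℕ) (G : PowerSeries (AA K L)) : PowerSeries (VV K L) :=
  PowerSeries.mk fun n => mo (j + n) (PowerSeries.coeff n G)

omit [DecidableEq L] in
theorem coeff_Xs (j n : ℕ) (G : PowerSeries (AA K L)) :
    PowerSeries.coeff n (Xs a j G) = PowerSeries.coeff n G * X (a, j + n) :=
  PowerSeries.coeff_mk _ _

omit [DecidableEq L] in
theorem coeff_Ys (j n : ℕ) (G : PowerSeries (AA K L)) :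
    PowerSeries.coeff n (Ys j G) = mo (j + n) (PowerSeries.coeff n G) :=
  PowerSeries.coeff_mk _ _

omit [DecidableEq L] in
theorem Ys_add (j : ℕ) (G H : PowerSeries (AA K L)) : Ys j (G + H) = Ys j G + Ys j H := by
  ext1 n
  rw [map_add, coeff_Ys, coeff_Ys, coeff_Ys, map_add, map_add]

omit [DecidableEq L] in
theorem Th1_Ys (j : ℕ) (G : PowerSeries (AA K L)) :
    PowerSeries.X * tl (Th1 a) (Ys j G) = Xs a j (PowerSeries.X * G) := by
  ext1 n
  rw [coeff_Xs]
  cases n with
  | zero => simp
  | succ n =>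
    rw [PowerSeries.coeff_succ_X_mul, PowerSeries.coeff_succ_X_mul, coeff_tl, coeff_Ys, Th1_mo,
      mul_comm, add_assoc]

omit [DecidableEq L] in
theorem XY_Ys (j : ℕ) (t : AA K L) (G : PowerSeries (AA K L)) :
    PowerSeries.X * (PowerSeries.C (Polynomial.C t * Polynomial.X) * Ys j G)
      = Ys j (PowerSeries.X * (PowerSeries.C t * G)) := by
  ext1 n
  rw [coeff_Ys]
  cases n with
  | zero => simp
  | succ n =>
    rw [PowerSeries.coeff_succ_X_mul, PowerSeries.coeff_succ_X_mul, PowerSeries.coeff_C_mul,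
      PowerSeries.coeff_C_mul, coeff_Ys, mul_assoc, ← Yp_apply, Yp_mo, C_mul_mo, add_assoc]

/-- The series has coefficients that are constants for the alphabet `a`. -/
def Cs (a : L) (G : PowerSeries (AA K L)) : Prop := ∀ n, PowerSeries.coeff n G ∈ Gp K a

theorem M_Xs (j : ℕ) {G : PowerSeries (AA K L)} (hG : Cs a G) :
    tl (Md (1 : K) a).toLinearMap (Xs a j G)
      = Ys j (PowerSeries.C (j : AA K L) * G + zd G) := by
  ext1 n
  have h1 : PowerSeries.coeff n (tl (Md (1 : K) a).toLinearMap (Xs a j G))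
      = Md (1 : K) a (PowerSeries.coeff n (Xs a j G)) := coeff_tl _ _ _
  rw [h1, coeff_Xs, coeff_Ys, Derivation.leibniz, Md_Gp (hG n), smul_zero, add_zero, Md, mkDerivation_X,
    if_pos rfl, map_add (PowerSeries.coeff n), PowerSeries.coeff_C_mul, coeff_zd,
    Polynomial.smul_eq_C_mul, C_mul_mo]
  congr 1
  rw [one_mul, Nat.cast_add, map_add, map_natCast, map_natCast]
  ring

theorem dd_Xs {c : L} (hca : c ≠ a) (j : ℕ) (G : PowerSeries (AA K L)) :
    dd (pderiv (R := K) (c, 1)) (Xs a j G) = Xs a j (dd (pderiv (R := K) (c, 1)) G) := by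
  ext1 n
  rw [coeff_dd, coeff_Xs, coeff_Xs, coeff_dd, pderiv_mul, pderiv_X, Pi.single_eq_of_ne, mul_zero,
    add_zero]
  intro h
  exact hca (Prod.ext_iff.1 h).1.symm

omit [DecidableEq L] in
theorem Cs_mul {G H : PowerSeries (AA K L)} (hG : Cs a G) (hH : Cs a H) : Cs a (G * H) := by
  intro n
  rw [PowerSeries.coeff_mul]
  exact (Gp K a).sum_mem fun p _ => (Gp K a).mul_mem (hG _) (hH _)

omit [DecidableEq L] in
theorem Cs_gs {s : AA K L} (hs : s ∈ Gp K a) : Cs a (gs s) := by
  intro n
  rw [gs, PowerSeries.coeff_mk]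
  exact (Gp K a).pow_mem hs n

omit [DecidableEq L] in
theorem Cs_rho {s t : AA K L} (hs : s ∈ Gp K a) (ht : t ∈ Gp K a) (j : ℕ) :
    Cs a (rho s t j) := by
  induction j with
  | zero =>
    intro n
    rw [rho, pow_zero, PowerSeries.coeff_one]
    split_ifs
    · exact (Gp K a).one_mem
    · exact (Gp K a).zero_mem
  | succ j ih =>
    have h1 : rho s t (j + 1) = rho s t j * (gs s * gs t) := pow_succ _ _
    rw [h1]
    exact Cs_mul ih (Cs_mul (Cs_gs hs) (Cs_gs ht))

/-- The substitution. -/
noncomputable def Ph (a : L) (s t : AA K L) : AA K L →ₐ[K] PowerSeries (AA K L) :=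
  aeval fun v => if v.1 = a then Xs a v.2 (rho s t v.2) else PowerSeries.C (X v)

theorem Ph_X (s t : AA K L) (j : ℕ) : Ph a s t (X (a, j)) = Xs a j (rho s t j) := by
  rw [Ph, aeval_X, if_pos rfl]

theorem Ph_X' (s t : AA K L) {v : L × ℕ} (hv : v.1 ≠ a) :
    Ph a s t (X v) = PowerSeries.C (X v) := by
  rw [Ph, aeval_X, if_neg hv]

theorem Ph_C (s t : AA K L) (x : K) : Ph a s t (C x) = PowerSeries.C (C x) := by
  rw [Ph, algHom_C, PowerSeries.algebraMap_apply, algebraMap_eq]

/-- The companion of the substitution on `V`. -/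
noncomputable def Lam (a : L) (s t : AA K L) (g : PowerSeries (AA K L)) (u : VV K L) :
    PowerSeries (VV K L) :=
  u.sum fun j x => tl (mo 0) (Ph a s t x) * Ys j (rho s t j * g)

theorem Lam_add (s t : AA K L) (g : PowerSeries (AA K L)) (u v : VV K L) :
    Lam a s t g (u + v) = Lam a s t g u + Lam a s t g v := by
  unfold Lam
  refine Polynomial.sum_add_index _ _ _ (fun j => ?_) fun j x y => ?_
  · rw [map_zero, map_zero, zero_mul]
  · rw [map_add, map_add, add_mul]

theorem Lam_mo (s t : AA K L) (g : PowerSeries (AA K L)) (j : ℕ) (x : AA K L) :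
    Lam a s t g (mo j x) = tl (mo 0) (Ph a s t x) * Ys j (rho s t j * g) := by
  unfold Lam
  rw [mo_apply, Polynomial.sum_monomial_index]
  rw [map_zero, map_zero, zero_mul]

theorem Lam_zero (s t : AA K L) (g : PowerSeries (AA K L)) : Lam a s t g 0 = 0 := by
  have h := Lam_mo (a := a) s t g 0 0
  rw [map_zero, map_zero, map_zero, zero_mul] at h
  exact h

theorem Lam_C_mul (s t : AA K L) (g : PowerSeries (AA K L)) (x : AA K L) (u : VV K L) :
    Lam a s t g (Polynomial.C x * u) = tl (mo 0) (Ph a s t x) * Lam a s t g u := by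
  induction u using Polynomial.induction_on' with
  | add p q hp hq => rw [mul_add, Lam_add, hp, hq, Lam_add, mul_add]
  | monomial m f =>
    have h1 := Lam_mo (a := a) s t g m f
    have h2 := Lam_mo (a := a) s t g m (x * f)
    rw [← C_mul_mo, map_mul, ← tl_mo_mul] at h2
    rw [mo_apply] at h1 h2
    rw [h1, h2, mul_assoc]

theorem tl_Md_mul (F G : PowerSeries (AA K L)) :
    tl (Md (1 : K) a).toLinearMap (F * G)
      = tl (mo 0) F * tl (Md (1 : K) a).toLinearMap G +
        tl (mo 0) G * tl (Md (1 : K) a).toLinearMap F := by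
  ext1 n
  have h1 : ∀ H : PowerSeries (AA K L), ∀ n, PowerSeries.coeff n
      (tl (Md (1 : K) a).toLinearMap H) = Md (1 : K) a (PowerSeries.coeff n H) :=
    fun H n => coeff_tl _ _ _
  rw [h1, map_add (PowerSeries.coeff n), mul_comm (tl (mo 0) G), PowerSeries.coeff_mul,
    PowerSeries.coeff_mul, PowerSeries.coeff_mul, map_sum, ← Finset.sum_add_distrib]
  refine Finset.sum_congr rfl fun p _ => ?_
  rw [h1, h1, coeff_tl, coeff_tl, mo_zero_eq, mo_zero_eq, Derivation.leibniz,
    Polynomial.smul_eq_C_mul, Polynomial.smul_eq_C_mul, mul_comm (Polynomial.C _) (Md (1 : K) a _)]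
  ring

/-- The first identity. -/
theorem M_Ph {s t : AA K L} (hs : s ∈ Gp K a) (ht : t ∈ Gp K a) (x : AA K L) :
    tl (Md (1 : K) a).toLinearMap (Ph a s t x)
      = Lam a s t (gs s) (Md (1 : K) a x) +
        PowerSeries.X * (PowerSeries.C (Polynomial.C t * Polynomial.X) *
          Lam a s t (gs t) (Md (1 : K) a x)) := by
  have hC : ∀ y : AA K L, Md (1 : K) a y = 0 →
      tl (Md (1 : K) a).toLinearMap (PowerSeries.C y) = 0 := by
    intro y hy
    ext1 n
    have h1 : PowerSeries.coeff n (tl (Md (1 : K) a).toLinearMap (PowerSeries.C y))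
      = Md (1 : K) a (PowerSeries.coeff n (PowerSeries.C y)) := coeff_tl _ _ _
    rw [h1, PowerSeries.coeff_C, map_zero (PowerSeries.coeff n)]
    split_ifs
    · exact hy
    · exact map_zero _
  induction x using MvPolynomial.induction_on with
  | C c =>
    rw [Ph_C, derivation_C, Lam_zero, Lam_zero, mul_zero, mul_zero, add_zero,
      hC _ (derivation_C _ _)]
  | add p q hp hq =>
    rw [map_add, map_add, map_add, hp, hq, Lam_add, Lam_add]
    ring
  | mul_X p v hp =>
    have h1 : tl (Md (1 : K) a).toLinearMap (Ph a s t (X v))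
      = Lam a s t (gs s) (Md (1 : K) a (X v)) +
        PowerSeries.X * (PowerSeries.C (Polynomial.C t * Polynomial.X) *
          Lam a s t (gs t) (Md (1 : K) a (X v))) := by
      by_cases hv : v.1 = a
      · obtain ⟨c, j⟩ := v
        obtain rfl : c = a := hv
        have h2 : Ph c s t (C (1 * (j : K))) = PowerSeries.C (j : AA K L) := by
          rw [Ph_C, one_mul, map_natCast]
        have h3 : tl (mo 0) (PowerSeries.C (j : AA K L))
            = PowerSeries.C (Polynomial.C (j : AA K L)) := by
          ext1 n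
          rw [coeff_tl, PowerSeries.coeff_C, PowerSeries.coeff_C]
          split_ifs
          · exact mo_zero_eq _
          · exact map_zero _
        have h4 : ∀ G : PowerSeries (AA K L), PowerSeries.C (Polynomial.C (j : AA K L)) * Ys j G
            = Ys j (PowerSeries.C (j : AA K L) * G) := by
          intro G
          ext1 n
          rw [PowerSeries.coeff_C_mul, coeff_Ys, coeff_Ys, PowerSeries.coeff_C_mul, C_mul_mo]
        rw [Ph_X, M_Xs _ (Cs_rho hs ht j), Md, mkDerivation_X, if_pos rfl, Lam_mo, Lam_mo, h2, h3,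
          h4, h4, XY_Ys, ← Ys_add, zd_rho]
        congr 1
        have h5 := gs_eq s
        linear_combination (-(PowerSeries.C (j : AA K L) * rho s t j)) * h5
      · rw [Ph_X' s t hv, Md_X_par (1 : K) (fun h => absurd h hv), Lam_zero, Lam_zero, mul_zero,
          mul_zero, add_zero, hC _ (Md_X_par (1 : K) (fun h => absurd h hv))]
    rw [map_mul, tl_Md_mul, h1, hp, Derivation.leibniz, Polynomial.smul_eq_C_mul,
      Polynomial.smul_eq_C_mul, Lam_add, Lam_add, Lam_C_mul, Lam_C_mul, Lam_C_mul, Lam_C_mul]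
    ring

omit [DecidableEq L] in
theorem gr_comm (s t : AA K L) (j : ℕ) : rho s t j = rho t s j := by
  rw [rho, rho, mul_comm (gs s)]

theorem Ph_comm (s t : AA K L) : Ph a s t = Ph a t s := by
  refine MvPolynomial.algHom_ext fun v => ?_
  by_cases hv : v.1 = a
  · obtain ⟨c, j⟩ := v
    obtain rfl : c = a := hv
    rw [Ph_X, Ph_X, gr_comm]
  · rw [Ph_X' s t hv, Ph_X' t s hv]

theorem Lam_comm (s t : AA K L) (g : PowerSeries (AA K L)) (u : VV K L) :
    Lam a s t g u = Lam a t s g u := by
  unfold Lam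
  rw [Ph_comm]
  simp only [gr_comm s t]

/-- The derivative of the substitution with respect to the first parameter. -/
theorem dd_Ph {c : L} (hca : c ≠ a) {s t : AA K L} (hs : pderiv (c, 1) s = 1)
    (ht : pderiv (c, 1) t = 0) (x : AA K L) :
    dd (pderiv (R := K) (c, 1)) (Ph a s t x)
      = PowerSeries.X * tl (Th1 a) (Lam a s t (gs s) (Md (1 : K) a x)) +
        Ph a s t (pderiv (c, 1) x) := by
  have hC : ∀ y : AA K L, dd (pderiv (R := K) (c, 1)) (PowerSeries.C y)
      = PowerSeries.C (pderiv (c, 1) y) := by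
    intro y
    ext1 n
    rw [coeff_dd, PowerSeries.coeff_C, PowerSeries.coeff_C]
    split_ifs
    · rfl
    · exact map_zero _
  induction x using MvPolynomial.induction_on with
  | C c' =>
    rw [Ph_C, derivation_C, Lam_zero, map_zero, mul_zero, pderiv_C, map_zero, add_zero, hC,
      pderiv_C, map_zero]
  | add p q hp hq =>
    have hadd : ∀ F G : PowerSeries (AA K L), dd (pderiv (R := K) (c, 1)) (F + G)
        = dd (pderiv (R := K) (c, 1)) F + dd (pderiv (R := K) (c, 1)) G := by
      intro F G
      ext1 n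
      rw [coeff_dd, map_add, map_add, map_add, coeff_dd, coeff_dd]
    rw [map_add, hadd, map_add, hp, hq, Lam_add, map_add, map_add, map_add]
    ring
  | mul_X p v hp =>
    have h1 : dd (pderiv (R := K) (c, 1)) (Ph a s t (X v))
      = PowerSeries.X * tl (Th1 a) (Lam a s t (gs s) (Md (1 : K) a (X v))) +
        Ph a s t (pderiv (c, 1) (X v)) := by
      by_cases hv : v.1 = a
      · obtain ⟨a', j⟩ := v
        obtain rfl : a' = a := hv
        have h2 : Ph a' s t (C (1 * (j : K))) = PowerSeries.C (j : AA K L) := by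
          rw [Ph_C, one_mul, map_natCast]
        have h6 : pderiv (c, 1) (X (a', j) : AA K L) = 0 := by
          rw [pderiv_X, Pi.single_eq_of_ne]
          intro h
          exact hca (Prod.ext_iff.1 h).1.symm
        have h7 : ∀ G : PowerSeries (AA K L), PowerSeries.C (j : AA K L) * Xs a' j G
            = Xs a' j (PowerSeries.C (j : AA K L) * G) := by
          intro G
          ext1 n
          rw [PowerSeries.coeff_C_mul, coeff_Xs, coeff_Xs, PowerSeries.coeff_C_mul, mul_assoc]
        rw [Ph_X, dd_Xs hca, Md, mkDerivation_X, if_pos rfl, Lam_mo, h2, h6, map_zero, add_zero,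
          tl_Th1_mul, mul_left_comm, Th1_Ys, h7, dd_rho, hs, ht]
        congr 1
        rw [map_one, map_zero]
        ring
      · rw [Ph_X' s t hv, Md_X_par (1 : K) (fun h => absurd h hv), Lam_zero, map_zero, mul_zero,
          zero_add, hC]
        by_cases hv2 : v = (c, 1)
        · rw [hv2, pderiv_X_self, map_one, map_one]
        · rw [pderiv_X, Pi.single_eq_of_ne hv2, map_zero, map_zero]
    rw [map_mul, dd_mul, h1, hp, Derivation.leibniz, Polynomial.smul_eq_C_mul,
      Polynomial.smul_eq_C_mul, Lam_add, Lam_C_mul, Lam_C_mul, map_add, tl_Th1_mul, tl_Th1_mul,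
      pderiv_mul, map_add, map_mul, map_mul]
    ring

/-- The derivative of the substitution with respect to the second parameter. -/
theorem dd_Ph' {c : L} (hca : c ≠ a) {s t : AA K L} (hs : pderiv (c, 1) s = 0)
    (ht : pderiv (c, 1) t = 1) (x : AA K L) :
    dd (pderiv (R := K) (c, 1)) (Ph a s t x)
      = PowerSeries.X * tl (Th1 a) (Lam a s t (gs t) (Md (1 : K) a x)) +
        Ph a s t (pderiv (c, 1) x) := by
  rw [Ph_comm, Lam_comm]
  exact dd_Ph hca ht hs x

theorem M_Ph' {s t : AA K L} (hs : s ∈ Gp K a) (ht : t ∈ Gp K a) (x : AA K L) :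
    tl (Md (1 : K) a).toLinearMap (Ph a s t x)
      = Lam a s t (gs t) (Md (1 : K) a x) +
        PowerSeries.X * (PowerSeries.C (Polynomial.C s * Polynomial.X) *
          Lam a s t (gs s) (Md (1 : K) a x)) := by
  rw [Ph_comm, Lam_comm, Lam_comm s t]
  exact M_Ph ht hs x

end XY

end Pool.Agent.JackB
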