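import Pool.Agent.Lib.JackB.Hook5

/-!
The logarithm is the explicit solution of the linear system (problem MP_b52a9f_co).
-/

open MvPolynomial

namespace Pool.Agent.JackB

section Cmb

variable {B : Type*} [CommRing B]

/-- The sum of the `t ^ m G m`. -/
noncomputable def cmb (G : ℕ → PowerSeries B) : PowerSeries B :=
  PowerSeries.mk fun n => ∑ p ∈ Finset.HasAntidiagonal.antidiagonal n,
    PowerSeries.coeff p.2 (G p.1)

theorem coeff_cmb (G : ℕ → PowerSeries B) (n : ℕ) : PowerSeries.coeff n (cmb G)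
    = ∑ p ∈ Finset.HasAntidiagonal.antidiagonal n, PowerSeries.coeff p.2 (G p.1) :=
  PowerSeries.coeff_mk _ _

theorem cmb_add (G H : ℕ → PowerSeries B) : cmb (fun m => G m + H m) = cmb G + cmb H := by
  ext1 n
  rw [map_add, coeff_cmb, coeff_cmb, coeff_cmb, ← Finset.sum_add_distrib]
  exact Finset.sum_congr rfl fun p _ => map_add _ _ _

theorem cmb_X_mul (G : ℕ → PowerSeries B) :
    cmb (fun m => PowerSeries.X * G m) = PowerSeries.X * cmb G := by
  ext1 n
  rw [coeff_cmb]
  cases n with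
  | zero =>
    rw [PowerSeries.coeff_zero_X_mul, Finset.Nat.antidiagonal_zero, Finset.sum_singleton,
      PowerSeries.coeff_zero_X_mul]
  | succ n =>
    rw [PowerSeries.coeff_succ_X_mul, coeff_cmb, Finset.Nat.sum_antidiagonal_succ',
      PowerSeries.coeff_zero_X_mul, zero_add]
    exact Finset.sum_congr rfl fun p _ => PowerSeries.coeff_succ_X_mul _ _

theorem cmb_C_mul (c : B) (G : ℕ → PowerSeries B) :
    cmb (fun m => PowerSeries.C c * G m) = PowerSeries.C c * cmb G := by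
  ext1 n
  rw [PowerSeries.coeff_C_mul, coeff_cmb, coeff_cmb, Finset.mul_sum]
  exact Finset.sum_congr rfl fun p _ => PowerSeries.coeff_C_mul _ _ _

theorem dd_cmb {R : Type*} [CommRing R] [Algebra R B] (d : Derivation R B B)
    (G : ℕ → PowerSeries B) : dd d (cmb G) = cmb fun m => dd d (G m) := by
  ext1 n
  rw [coeff_dd, coeff_cmb, coeff_cmb, map_sum]
  exact Finset.sum_congr rfl fun p _ => (coeff_dd _ _ _).symm

theorem dd_add {R : Type*} [CommRing R] [Algebra R B] (d : Derivation R B B)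
    (F G : PowerSeries B) : dd d (F + G) = dd d F + dd d G := by
  ext1 n
  rw [coeff_dd, map_add, map_add, map_add, coeff_dd, coeff_dd]

theorem tl_cmb {F D : Type*} [Field F] [CommRing D] [Algebra F B] [Algebra F D]
    (T : B →ₗ[F] D) (G : ℕ → PowerSeries B) : tl T (cmb G) = cmb fun m => tl T (G m) := by
  ext1 n
  rw [coeff_tl, coeff_cmb, coeff_cmb, map_sum]
  exact Finset.sum_congr rfl fun p _ => (coeff_tl _ _ _).symm

end Cmb

section Solve

variable {L : Type*} [DecidableEq L] {a : L}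

theorem tlM_coeff (n : ℕ) (G : PowerSeries (AA K L)) :
    PowerSeries.coeff n (tl (Md (1 : K) a).toLinearMap G)
      = Md (1 : K) a (PowerSeries.coeff n G) := coeff_tl _ _ _

theorem tlM_C_mul {g : AA K L} (hg : g ∈ Gp K a) (G : PowerSeries (AA K L)) :
    tl (Md (1 : K) a).toLinearMap (PowerSeries.C g * G)
      = PowerSeries.C (Polynomial.C g) * tl (Md (1 : K) a).toLinearMap G := by
  ext1 n
  rw [tlM_coeff, PowerSeries.coeff_C_mul, PowerSeries.coeff_C_mul, tlM_coeff, Derivation.leibniz,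
    Md_Gp hg, smul_zero, add_zero, Polynomial.smul_eq_C_mul]

/-- The logarithmic series. -/
noncomputable def Lg (a : L) (s : AA K L) : PowerSeries (AA K L) :=
  PowerSeries.mk fun n => C ((n : K)⁻¹) * (s ^ n * X (a, n))

theorem tlM_Lg {s : AA K L} (hs : s ∈ Gp K a) :
    tl (Md (1 : K) a).toLinearMap (Lg a s) = Ys 0 (gs s) - 1 := by
  ext1 n
  rw [tlM_coeff, map_sub, coeff_Ys, gs, PowerSeries.coeff_mk, Lg, PowerSeries.coeff_mk,
    PowerSeries.coeff_one, zero_add]
  rcases Nat.eq_zero_or_pos n with rfl | hn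
  · rw [Nat.cast_zero, inv_zero, C_0, zero_mul, map_zero, if_pos rfl, pow_zero, mo_zero_eq,
      Polynomial.C_1, sub_self]
  · have hn' : (n : K) ≠ 0 := Nat.cast_ne_zero.2 hn.ne'
    rw [if_neg hn.ne', sub_zero, Derivation.leibniz, derivation_C, smul_zero, add_zero,
      Derivation.leibniz, Derivation.leibniz_pow, Md_Gp hs, smul_zero, smul_zero, smul_zero,
      add_zero, Md, mkDerivation_X, if_pos rfl, Polynomial.smul_eq_C_mul, Polynomial.smul_eq_C_mul,
      C_mul_mo, C_mul_mo]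
    congr 1
    rw [one_mul, mul_left_comm, ← C_mul, inv_mul_cancel₀ hn', C_1, mul_one]

theorem dd_Lg {c : L} (hca : c ≠ a) (s : AA K L) (hs : pderiv (c, 1) s = 1) :
    dd (pderiv (R := K) (c, 1)) (Lg a s) = PowerSeries.X * tl (Th1 a) (Ys 0 (gs s)) := by
  ext1 n
  have h6 : pderiv (c, 1) (X (a, n) : AA K L) = 0 := by
    rw [pderiv_X, Pi.single_eq_of_ne]
    intro h
    exact hca (Prod.ext_iff.1 h).1.symm
  rw [Th1_Ys, coeff_Xs, coeff_dd, Lg, PowerSeries.coeff_mk, pderiv_C_mul, pderiv_mul, h6,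
    mul_zero, add_zero, Derivation.leibniz_pow, hs, zero_add]
  cases n with
  | zero =>
    rw [PowerSeries.coeff_zero_X_mul, Nat.cast_zero, inv_zero, C_0, zero_mul, zero_mul]
  | succ n =>
    have hn' : ((n + 1 : ℕ) : K) ≠ 0 := Nat.cast_ne_zero.2 (Nat.succ_ne_zero n)
    rw [PowerSeries.coeff_succ_X_mul, gs, PowerSeries.coeff_mk, Nat.add_sub_cancel, smul_eq_mul,
      mul_one, nsmul_eq_mul, ← map_natCast (C : K →+* AA K L), mul_assoc, ← mul_assoc (C _) (C _),
      ← C_mul, inv_mul_cancel₀ hn', C_1, one_mul]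

theorem dd_Lg' {c : L} (hca : c ≠ a) (s : AA K L) (hs : pderiv (c, 1) s = 0) :
    dd (pderiv (R := K) (c, 1)) (Lg a s) = 0 := by
  ext1 n
  have h6 : pderiv (c, 1) (X (a, n) : AA K L) = 0 := by
    rw [pderiv_X, Pi.single_eq_of_ne]
    intro h
    exact hca (Prod.ext_iff.1 h).1.symm
  rw [coeff_dd, Lg, PowerSeries.coeff_mk, pderiv_C_mul, pderiv_mul, h6,
    mul_zero, add_zero, Derivation.leibniz_pow, hs, smul_zero, smul_zero, zero_mul, mul_zero,
    map_zero]

omit [DecidableEq L] in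
theorem dd_C_mul' {c : L} {g : AA K L} (hg : pderiv (c, 1) g = 0) (G : PowerSeries (AA K L)) :
    dd (pderiv (R := K) (c, 1)) (PowerSeries.C g * G)
      = PowerSeries.C g * dd (pderiv (R := K) (c, 1)) G := dd_C_mul _ _ hg _

/-- The linear system. -/
structure Sy (a p q : L) (W : PowerSeries (AA K L)) (A B : PowerSeries (VV K L)) : Prop where
  s1 : A = tl (Md (1 : K) a).toLinearMap W +
    PowerSeries.C (Polynomial.C (X (q, 0) + X (q, 1)))
      - PowerSeries.X * (PowerSeries.C (Polynomial.C (X (q, 1)) * Polynomial.X) * B)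
  s2 : B = tl (Md (1 : K) a).toLinearMap W +
    PowerSeries.C (Polynomial.C (X (p, 0) + X (p, 1)))
      - PowerSeries.X * (PowerSeries.C (Polynomial.C (X (p, 1)) * Polynomial.X) * A)
  s3 : dd (pderiv (R := K) (p, 1)) W = PowerSeries.X * tl (Th1 a) A
  s4 : dd (pderiv (R := K) (q, 1)) W = PowerSeries.X * tl (Th1 a) B

/-- The explicit solution. -/
noncomputable def Wx (a p q : L) (w : ℕ → AA K L) : PowerSeries (AA K L) :=
  PowerSeries.X * PowerSeries.C (X (p, 1) * X (q, 1) * X (a, 1)) +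
    PowerSeries.C (X (q, 0)) * Lg a (X (p, 1)) + PowerSeries.C (X (p, 0)) * Lg a (X (q, 1)) +
    cmb fun m => Ph a (X (p, 1)) (X (q, 1)) (w m)

theorem sol {p q : L} (hpa : p ≠ a) (hqa : q ≠ a) (hpq : p ≠ q) {w : ℕ → AA K L}
    (h1 : ∀ m, pderiv (p, 1) (w m) = 0) (h2 : ∀ m, pderiv (q, 1) (w m) = 0) :
    ∃ A B, Sy a p q (Wx a p q w) A B := by
  have gp : ∀ c i, c ≠ a → (X (c, i) : AA K L) ∈ Gp K a := fun c i hc =>
    Gp_X fun h => absurd h hc
  have hs := gp p 1 hpa
  have ht := gp q 1 hqa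
  have he := gp p 0 hpa
  have hf := gp q 0 hqa
  have pd : ∀ (c : L) (v : L × ℕ), v ≠ (c, 1) → pderiv (c, 1) (X v : AA K L) = 0 := by
    intro c v hv
    rw [pderiv_X, Pi.single_eq_of_ne hv]
  have hps : pderiv (p, 1) (X (p, 1) : AA K L) = 1 := pderiv_X_self _
  have hqt : pderiv (q, 1) (X (q, 1) : AA K L) = 1 := pderiv_X_self _
  have hpt : pderiv (p, 1) (X (q, 1) : AA K L) = 0 :=
    pd _ _ fun h => hpq (Prod.ext_iff.1 h).1.symm
  have hqs : pderiv (q, 1) (X (p, 1) : AA K L) = 0 := pd _ _ fun h => hpq (Prod.ext_iff.1 h).1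
  have hpe : pderiv (p, 1) (X (p, 0) : AA K L) = 0 := pd _ _ fun h => by simp at h
  have hpf : pderiv (p, 1) (X (q, 0) : AA K L) = 0 := pd _ _ fun h => by simp at h
  have hqe : pderiv (q, 1) (X (p, 0) : AA K L) = 0 := pd _ _ fun h => by simp at h
  have hqf : pderiv (q, 1) (X (q, 0) : AA K L) = 0 := pd _ _ fun h => by simp at h
  have hpr : pderiv (p, 1) (X (a, 1) : AA K L) = 0 := pd _ _ fun h => hpa (Prod.ext_iff.1 h).1.symm
  have hqr : pderiv (q, 1) (X (a, 1) : AA K L) = 0 := pd _ _ fun h => hqa (Prod.ext_iff.1 h).1.symm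
  have hM1 : tl (Md (1 : K) a).toLinearMap
      (PowerSeries.X * PowerSeries.C (X (p, 1) * X (q, 1) * X (a, 1)))
      = PowerSeries.X * PowerSeries.C (Polynomial.C (X (p, 1)) * (Polynomial.C (X (q, 1)) *
        Polynomial.X)) := by
    ext1 n
    rw [tlM_coeff]
    cases n with
    | zero => simp
    | succ n =>
      rw [PowerSeries.coeff_succ_X_mul, PowerSeries.coeff_succ_X_mul, PowerSeries.coeff_C,
        PowerSeries.coeff_C]
      split_ifs
      · rw [Derivation.leibniz, Md_Gp ((Gp K a).mul_mem hs ht), smul_zero, add_zero, Md_X,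
          Nat.cast_one, mul_one, one_smul, pow_one, Polynomial.smul_eq_C_mul, Polynomial.C_mul,
          mul_assoc]
      · exact map_zero _
  have hMW : tl (Md (1 : K) a).toLinearMap (Wx a p q w)
      = PowerSeries.X * PowerSeries.C (Polynomial.C (X (p, 1)) * (Polynomial.C (X (q, 1)) *
        Polynomial.X)) + PowerSeries.C (Polynomial.C (X (q, 0))) * (Ys 0 (gs (X (p, 1))) - 1) +
        PowerSeries.C (Polynomial.C (X (p, 0))) * (Ys 0 (gs (X (q, 1))) - 1) +
        cmb fun m => tl (Md (1 : K) a).toLinearMap (Ph a (X (p, 1)) (X (q, 1)) (w m)) := by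
    rw [Wx, map_add, map_add, map_add, hM1, tlM_C_mul hf, tlM_C_mul he, tlM_Lg hs, tlM_Lg ht,
      tl_cmb]
  have hgY : ∀ s : AA K L, Ys 0 (gs s) = 1 +
      PowerSeries.X * (PowerSeries.C (Polynomial.C s * Polynomial.X) * Ys 0 (gs s)) := by
    intro s
    rw [XY_Ys]
    have h3 : Ys 0 (gs s) = Ys 0 (1 + PowerSeries.X * (PowerSeries.C s * gs s)) :=
      congrArg _ (gs_eq s)
    rw [h3, Ys_add]
    congr 1
    ext1 n
    rw [coeff_Ys, PowerSeries.coeff_one, PowerSeries.coeff_one]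
    split_ifs with h
    · rw [h, zero_add, mo_zero_eq, Polynomial.C_1]
    · exact map_zero _
  have hdW : ∀ c : L, c ≠ a → pderiv (c, 1) (X (p, 0) : AA K L) = 0 →
      pderiv (c, 1) (X (q, 0) : AA K L) = 0 →
      dd (pderiv (R := K) (c, 1)) (Wx a p q w)
      = PowerSeries.X * PowerSeries.C (pderiv (c, 1) (X (p, 1) * X (q, 1) * X (a, 1))) +
        PowerSeries.C (X (q, 0)) * dd (pderiv (R := K) (c, 1)) (Lg a (X (p, 1))) +
        PowerSeries.C (X (p, 0)) * dd (pderiv (R := K) (c, 1)) (Lg a (X (q, 1))) +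
        cmb fun m => dd (pderiv (R := K) (c, 1)) (Ph a (X (p, 1)) (X (q, 1)) (w m)) := by
    intro c _ hc1 hc2
    have hC : ∀ y : AA K L, dd (pderiv (R := K) (c, 1)) (PowerSeries.C y)
        = PowerSeries.C (pderiv (c, 1) y) := by
      intro y
      ext1 n
      rw [coeff_dd, PowerSeries.coeff_C, PowerSeries.coeff_C]
      split_ifs
      · rfl
      · exact map_zero _
    rw [Wx, dd_add, dd_add, dd_add, dd_X_mul, hC, dd_C_mul' hc2, dd_C_mul' hc1, dd_cmb]
  refine ⟨PowerSeries.C (Polynomial.C (X (q, 1))) +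
      PowerSeries.C (Polynomial.C (X (q, 0))) * Ys 0 (gs (X (p, 1))) +
      cmb (fun m => Lam a (X (p, 1)) (X (q, 1)) (gs (X (p, 1))) (Md (1 : K) a (w m))),
    PowerSeries.C (Polynomial.C (X (p, 1))) +
      PowerSeries.C (Polynomial.C (X (p, 0))) * Ys 0 (gs (X (q, 1))) +
      cmb (fun m => Lam a (X (p, 1)) (X (q, 1)) (gs (X (q, 1))) (Md (1 : K) a (w m))), ?_, ?_, ?_, ?_⟩
  · have h3 : (fun m => tl (Md (1 : K) a).toLinearMap (Ph a (X (p, 1)) (X (q, 1)) (w m)))
        = fun m => Lam a (X (p, 1)) (X (q, 1)) (gs (X (p, 1))) (Md (1 : K) a (w m)) +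
          PowerSeries.X * (PowerSeries.C (Polynomial.C (X (q, 1)) * Polynomial.X) *
          Lam a (X (p, 1)) (X (q, 1)) (gs (X (q, 1))) (Md (1 : K) a (w m))) := by
      funext m
      exact M_Ph hs ht _
    rw [hMW, h3, cmb_add, cmb_X_mul, cmb_C_mul]
    have h4 := hgY (X (q, 1))
    simp only [map_add, map_mul]
    simp only [map_mul] at h4
    linear_combination (-(PowerSeries.C (Polynomial.C (X (p, 0))))) * h4
  · have h3 : (fun m => tl (Md (1 : K) a).toLinearMap (Ph a (X (p, 1)) (X (q, 1)) (w m)))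
        = fun m => Lam a (X (p, 1)) (X (q, 1)) (gs (X (q, 1))) (Md (1 : K) a (w m)) +
          PowerSeries.X * (PowerSeries.C (Polynomial.C (X (p, 1)) * Polynomial.X) *
          Lam a (X (p, 1)) (X (q, 1)) (gs (X (p, 1))) (Md (1 : K) a (w m))) := by
      funext m
      exact M_Ph' hs ht _
    rw [hMW, h3, cmb_add, cmb_X_mul, cmb_C_mul]
    have h4 := hgY (X (p, 1))
    simp only [map_add, map_mul]
    simp only [map_mul] at h4
    linear_combination (-(PowerSeries.C (Polynomial.C (X (q, 0))))) * h4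
  · have h3 : (fun m => dd (pderiv (R := K) (p, 1)) (Ph a (X (p, 1)) (X (q, 1)) (w m)))
        = fun m => PowerSeries.X * tl (Th1 a)
          (Lam a (X (p, 1)) (X (q, 1)) (gs (X (p, 1))) (Md (1 : K) a (w m))) := by
      funext m
      rw [dd_Ph hpa hps hpt, h1, map_zero, add_zero]
    have h5 : pderiv (p, 1) (X (p, 1) * X (q, 1) * X (a, 1) : AA K L) = X (q, 1) * X (a, 1) := by
      rw [pderiv_mul, pderiv_mul, hps, hpt, hpr]
      ring
    have h6 : ∀ (g : AA K L) (G : PowerSeries (VV K L)),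
        tl (Th1 a) (PowerSeries.C (Polynomial.C g) * G) = PowerSeries.C g * tl (Th1 a) G := by
      intro g G
      ext1 n
      rw [coeff_tl, PowerSeries.coeff_C_mul, PowerSeries.coeff_C_mul, coeff_tl, Th1_C_mul]
    have h7 : tl (Th1 a) (PowerSeries.C (Polynomial.C (X (q, 1) : AA K L)))
        = PowerSeries.C (X (q, 1) * X (a, 1)) := by
      ext1 n
      rw [coeff_tl, PowerSeries.coeff_C, PowerSeries.coeff_C]
      split_ifs
      · rw [← mo_zero_eq, Th1_mo, zero_add, mul_comm]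
      · exact map_zero _
    rw [hdW p hpa hpe hpf, h3, cmb_X_mul, h5, dd_Lg hpa _ hps, dd_Lg' hpa _ hpt, map_add, map_add,
      h6, h7, tl_cmb]
    ring
  · have h3 : (fun m => dd (pderiv (R := K) (q, 1)) (Ph a (X (p, 1)) (X (q, 1)) (w m)))
        = fun m => PowerSeries.X * tl (Th1 a)
          (Lam a (X (p, 1)) (X (q, 1)) (gs (X (q, 1))) (Md (1 : K) a (w m))) := by
      funext m
      rw [dd_Ph' hqa hqs hqt, h2, map_zero, add_zero]
    have h5 : pderiv (q, 1) (X (p, 1) * X (q, 1) * X (a, 1) : AA K L) = X (p, 1) * X (a, 1) := by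
      rw [pderiv_mul, pderiv_mul, hqs, hqt, hqr]
      ring
    have h6 : ∀ (g : AA K L) (G : PowerSeries (VV K L)),
        tl (Th1 a) (PowerSeries.C (Polynomial.C g) * G) = PowerSeries.C g * tl (Th1 a) G := by
      intro g G
      ext1 n
      rw [coeff_tl, PowerSeries.coeff_C_mul, PowerSeries.coeff_C_mul, coeff_tl, Th1_C_mul]
    have h7 : tl (Th1 a) (PowerSeries.C (Polynomial.C (X (p, 1) : AA K L)))
        = PowerSeries.C (X (p, 1) * X (a, 1)) := by
      ext1 n
      rw [coeff_tl, PowerSeries.coeff_C, PowerSeries.coeff_C]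
      split_ifs
      · rw [← mo_zero_eq, Th1_mo, zero_add, mul_comm]
      · exact map_zero _
    rw [hdW q hqa hqe hqf, h3, cmb_X_mul, h5, dd_Lg hqa _ hqt, dd_Lg' hqa _ hqs, map_add, map_add,
      h6, h7, tl_cmb]
    ring

end Solve

end Pool.Agent.JackB
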