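import Pool.Agent.Lib.JackB.Hook6

/-!
Uniqueness of the solution of the linear system (problem MP_b52a9f_co).
-/

open MvPolynomial

namespace Pool.Agent.JackB

section Uniq

variable {L : Type*} [DecidableEq L] {a p q : L}

/-- The variables `(p, 1)` and `(q, 1)` are set to zero. -/
noncomputable def k0 (p q : L) : AA K L →ₐ[K] AA K L :=
  aeval fun v => if v = (p, 1) ∨ v = (q, 1) then 0 else X v

theorem k0_X (v : L × ℕ) : k0 p q (X v) = if v = (p, 1) ∨ v = (q, 1) then 0 else X v := by
  rw [k0, aeval_X]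

theorem k0_C (x : K) : k0 p q (C x) = C x := by
  rw [algHom_C, algebraMap_eq]

omit [DecidableEq L] in
theorem coeff_of_pderiv {v : L × ℕ} {f : AA K L} (h : pderiv v f = 0) {d : L × ℕ →₀ ℕ}
    (hd : d v ≠ 0) : f.coeff d = 0 := by
  have hle : Finsupp.single v 1 ≤ d := by
    rw [Finsupp.single_le_iff]
    omega
  obtain ⟨e, he⟩ := exists_add_of_le hle
  rw [add_comm] at he
  have h1 := congrArg (coeff e) h
  rw [coeff_pderiv, coeff_zero, ← he] at h1
  rcases mul_eq_zero.1 h1 with h2 | h2
  · exact h2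
  · exfalso
    have h3 : ((e v : K) + 1) = ((e v + 1 : ℕ) : K) := by push_cast; rfl
    rw [h3] at h2
    exact Nat.cast_ne_zero.2 (Nat.succ_ne_zero _) h2

theorem k0_id {f : AA K L} (h1 : pderiv (p, 1) f = 0) (h2 : pderiv (q, 1) f = 0) :
    k0 p q f = f := by
  have h3 : k0 p q f = ∑ d ∈ f.support, k0 p q (monomial d (coeff d f)) := by
    conv_lhs => rw [f.as_sum]
    rw [map_sum]
  rw [h3]
  conv_rhs => rw [f.as_sum]
  refine Finset.sum_congr rfl fun d hd => ?_
  rw [k0, aeval_monomial, algebraMap_eq, MvPolynomial.monomial_eq]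
  congr 1
  refine Finsupp.prod_congr fun v hv => ?_
  rw [if_neg]
  rintro (rfl | rfl)
  · exact (mem_support_iff.1 hd) (coeff_of_pderiv h1 (Finsupp.mem_support_iff.1 hv))
  · exact (mem_support_iff.1 hd) (coeff_of_pderiv h2 (Finsupp.mem_support_iff.1 hv))

theorem pderiv_k0_left (f : AA K L) : pderiv (p, 1) (k0 p q f) = 0 := by
  induction f using MvPolynomial.induction_on with
  | C x => rw [k0_C, pderiv_C]
  | add f g hf hg => rw [map_add, map_add, hf, hg, add_zero]
  | mul_X f v hf =>
    rw [map_mul, pderiv_mul, hf, k0_X]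
    split_ifs with h
    · rw [map_zero, mul_zero, mul_zero, add_zero]
    · push Not at h
      rw [pderiv_X, Pi.single_eq_of_ne h.1, zero_mul, mul_zero, add_zero]

theorem pderiv_k0_right (f : AA K L) : pderiv (q, 1) (k0 p q f) = 0 := by
  induction f using MvPolynomial.induction_on with
  | C x => rw [k0_C, pderiv_C]
  | add f g hf hg => rw [map_add, map_add, hf, hg, add_zero]
  | mul_X f v hf =>
    rw [map_mul, pderiv_mul, hf, k0_X]
    split_ifs with h
    · rw [map_zero, mul_zero, mul_zero, add_zero]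
    · push Not at h
      rw [pderiv_X, Pi.single_eq_of_ne h.2, zero_mul, mul_zero, add_zero]

theorem k0_k0 (f : AA K L) : k0 p q (k0 p q f) = k0 p q f :=
  k0_id (pderiv_k0_left f) (pderiv_k0_right f)

theorem sy_unique {W W' : PowerSeries (AA K L)} {A A' B B' : PowerSeries (VV K L)}
    (h : Sy a p q W A B) (h' : Sy a p q W' A' B')
    (h0 : PowerSeries.coeff 0 W = PowerSeries.coeff 0 W')
    (hk : ∀ n, k0 p q (PowerSeries.coeff n W) = k0 p q (PowerSeries.coeff n W')) : W = W' := by
  have hA0 : ∀ {W : PowerSeries (AA K L)} {A B : PowerSeries (VV K L)}, Sy a p q W A B →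
      PowerSeries.coeff 0 A = Md (1 : K) a (PowerSeries.coeff 0 W) +
        PowerSeries.coeff 0 (PowerSeries.C (Polynomial.C (X (q, 0) + X (q, 1) : AA K L))) := by
    intro W A B h
    rw [h.s1, map_sub (PowerSeries.coeff 0), map_add (PowerSeries.coeff 0), tlM_coeff,
      PowerSeries.coeff_zero_X_mul, sub_zero]
  have hB0 : ∀ {W : PowerSeries (AA K L)} {A B : PowerSeries (VV K L)}, Sy a p q W A B →
      PowerSeries.coeff 0 B = Md (1 : K) a (PowerSeries.coeff 0 W) +
        PowerSeries.coeff 0 (PowerSeries.C (Polynomial.C (X (p, 0) + X (p, 1) : AA K L))) := by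
    intro W A B h
    rw [h.s2, map_sub (PowerSeries.coeff 0), map_add (PowerSeries.coeff 0), tlM_coeff,
      PowerSeries.coeff_zero_X_mul, sub_zero]
  have hA1 : ∀ {W : PowerSeries (AA K L)} {A B : PowerSeries (VV K L)}, Sy a p q W A B →
      ∀ n, PowerSeries.coeff (n + 1) A = Md (1 : K) a (PowerSeries.coeff (n + 1) W) +
        PowerSeries.coeff (n + 1) (PowerSeries.C (Polynomial.C (X (q, 0) + X (q, 1) : AA K L))) -
        Polynomial.C (X (q, 1)) * Polynomial.X * PowerSeries.coeff n B := by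
    intro W A B h n
    rw [h.s1, map_sub (PowerSeries.coeff (n + 1)), map_add (PowerSeries.coeff (n + 1)), tlM_coeff,
      PowerSeries.coeff_succ_X_mul, PowerSeries.coeff_C_mul]
  have hB1 : ∀ {W : PowerSeries (AA K L)} {A B : PowerSeries (VV K L)}, Sy a p q W A B →
      ∀ n, PowerSeries.coeff (n + 1) B = Md (1 : K) a (PowerSeries.coeff (n + 1) W) +
        PowerSeries.coeff (n + 1) (PowerSeries.C (Polynomial.C (X (p, 0) + X (p, 1) : AA K L))) -
        Polynomial.C (X (p, 1)) * Polynomial.X * PowerSeries.coeff n A := by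
    intro W A B h n
    rw [h.s2, map_sub (PowerSeries.coeff (n + 1)), map_add (PowerSeries.coeff (n + 1)), tlM_coeff,
      PowerSeries.coeff_succ_X_mul, PowerSeries.coeff_C_mul]
  have hp : ∀ {W : PowerSeries (AA K L)} {A B : PowerSeries (VV K L)}, Sy a p q W A B →
      ∀ n, pderiv (p, 1) (PowerSeries.coeff (n + 1) W) = Th1 a (PowerSeries.coeff n A) := by
    intro W A B h n
    have h1 := congrArg (PowerSeries.coeff (n + 1)) h.s3
    rw [coeff_dd, PowerSeries.coeff_succ_X_mul, coeff_tl] at h1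
    exact h1
  have hq : ∀ {W : PowerSeries (AA K L)} {A B : PowerSeries (VV K L)}, Sy a p q W A B →
      ∀ n, pderiv (q, 1) (PowerSeries.coeff (n + 1) W) = Th1 a (PowerSeries.coeff n B) := by
    intro W A B h n
    have h1 := congrArg (PowerSeries.coeff (n + 1)) h.s4
    rw [coeff_dd, PowerSeries.coeff_succ_X_mul, coeff_tl] at h1
    exact h1
  have key : ∀ n, PowerSeries.coeff n W = PowerSeries.coeff n W' ∧
      PowerSeries.coeff n A = PowerSeries.coeff n A' ∧
      PowerSeries.coeff n B = PowerSeries.coeff n B' := by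
    intro n
    induction n with
    | zero => exact ⟨h0, by rw [hA0 h, hA0 h', h0], by rw [hB0 h, hB0 h', h0]⟩
    | succ n ih =>
      obtain ⟨_, ihA, ihB⟩ := ih
      have h1 : PowerSeries.coeff (n + 1) W = PowerSeries.coeff (n + 1) W' := by
        have e1 : pderiv (p, 1) (PowerSeries.coeff (n + 1) W - PowerSeries.coeff (n + 1) W') = 0 := by
          rw [map_sub, hp h, hp h', ihA, sub_self]
        have e2 : pderiv (q, 1) (PowerSeries.coeff (n + 1) W - PowerSeries.coeff (n + 1) W') = 0 := by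
          rw [map_sub, hq h, hq h', ihB, sub_self]
        have e3 := k0_id e1 e2
        rw [map_sub, hk, sub_self] at e3
        exact sub_eq_zero.1 e3.symm
      exact ⟨h1, by rw [hA1 h, hA1 h', h1, ihB], by rw [hB1 h, hB1 h', h1, ihA]⟩
  ext1 n
  exact (key n).1

theorem k0_gs_left : PowerSeries.map (k0 p q : AA K L →+* AA K L) (gs (X (p, 1))) = 1 := by
  ext1 n
  rw [PowerSeries.coeff_map, gs, PowerSeries.coeff_mk, PowerSeries.coeff_one]
  show k0 p q (X (p, 1) ^ n) = _
  rw [map_pow, k0_X, if_pos (Or.inl rfl)]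
  split_ifs with h
  · rw [h, pow_zero]
  · exact zero_pow h

theorem k0_gs_right : PowerSeries.map (k0 p q : AA K L →+* AA K L) (gs (X (q, 1))) = 1 := by
  ext1 n
  rw [PowerSeries.coeff_map, gs, PowerSeries.coeff_mk, PowerSeries.coeff_one]
  show k0 p q (X (q, 1) ^ n) = _
  rw [map_pow, k0_X, if_pos (Or.inr rfl)]
  split_ifs with h
  · rw [h, pow_zero]
  · exact zero_pow h

theorem k0_Ph (hpa : p ≠ a) (hqa : q ≠ a) (f : AA K L) :
    PowerSeries.map (k0 p q : AA K L →+* AA K L) (Ph a (X (p, 1)) (X (q, 1)) f)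
      = PowerSeries.C (k0 p q f) := by
  induction f using MvPolynomial.induction_on with
  | C x =>
    rw [Ph_C, PowerSeries.map_C, k0_C]
    congr 1
    exact k0_C x
  | add f g hf hg => rw [map_add, map_add, hf, hg, map_add, map_add]
  | mul_X f v hf =>
    rw [map_mul, map_mul, hf, map_mul, map_mul]
    congr 1
    by_cases hv : v.1 = a
    · obtain ⟨c, j⟩ := v
      obtain rfl : c = a := hv
      have hk : ∀ n, k0 p q (X (c, n) : AA K L) = X (c, n) := by
        intro n
        rw [k0_X, if_neg]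
        rintro (h | h)
        · exact hpa (Prod.ext_iff.1 h).1.symm
        · exact hqa (Prod.ext_iff.1 h).1.symm
      have h1 : PowerSeries.map (k0 p q : AA K L →+* AA K L) (rho (X (p, 1)) (X (q, 1)) j) = 1 := by
        rw [rho, map_pow, map_mul, k0_gs_left, k0_gs_right, one_mul, one_pow]
      rw [Ph_X]
      ext1 n
      rw [PowerSeries.coeff_map, coeff_Xs, PowerSeries.coeff_C]
      have h2 := congrArg (PowerSeries.coeff n) h1
      rw [PowerSeries.coeff_map, PowerSeries.coeff_one] at h2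
      show k0 p q _ = _
      have h3 : k0 p q (PowerSeries.coeff n (rho (X (p, 1)) (X (q, 1)) j))
          = if n = 0 then 1 else 0 := h2
      rw [map_mul, h3, hk, hk]
      split_ifs with h
      · rw [h, one_mul, add_zero]
      · rw [zero_mul]
    · rw [Ph_X' _ _ hv, PowerSeries.map_C]
      rfl

omit [DecidableEq L] in
theorem hom_Jr {J : Fam} (φ : AA K L →ₐ[K] AA K L) (r : ℕ → AA K L) {n : ℕ}
    (th : n.Partition) : φ (Jr J th r) = Jr J th fun i => φ (r i) := by
  rw [Jr, map_sum, Jr]
  refine Finset.sum_congr rfl fun l _ => ?_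
  rw [map_mul, algHom_C, algebraMap_eq]
  congr 1
  rw [rr, rr, map_multiset_prod, Multiset.map_map]
  rfl

/-- The main formula. -/
theorem W_eq {J : Fam} (hJ : JOK J) (hE : Eig J a) (hpa : p ≠ a) (hqa : q ≠ a) (hpq : p ≠ q)
    {W : PowerSeries (AA K L)}
    (hW : IsLog (C al) (PowerSeries.mk (tq J a (sp (X (p, 0)) (X (p, 1)))
      (sp (X (q, 0)) (X (q, 1))))) W) :
    W = Wx a p q fun m => k0 p q (PowerSeries.coeff m W) := by
  have gp : ∀ c i, c ≠ a → (X (c, i) : AA K L) ∈ Gp K a := fun c i hc =>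
    Gp_X fun h => absurd h hc
  have pd : ∀ (c : L) (v : L × ℕ), v ≠ (c, 1) → pderiv (c, 1) (X v : AA K L) = 0 := by
    intro c v hv
    rw [pderiv_X, Pi.single_eq_of_ne hv]
  have hsp1 : ∀ (c : L) (i : ℕ), pderiv (c, 1) (sp (X (c, 0)) (X (c, 1)) i : AA K L)
      = if i = 1 then 1 else 0 := by
    intro c i
    have h1 : pderiv (c, 1) (X (c, 0) : AA K L) = 0 := pd _ _ fun h => by simp at h
    unfold sp
    split_ifs with h2 h3 h4
    · omega
    · exact map_zero _
    · rw [map_add, h1, pderiv_X_self, zero_add]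
    · rw [map_add, h1, map_zero, zero_add]
  have hsp2 : ∀ (c d : L), c ≠ d → ∀ i : ℕ,
      pderiv (c, 1) (sp (X (d, 0)) (X (d, 1)) i : AA K L) = 0 := by
    intro c d hcd i
    have h1 : pderiv (c, 1) (X (d, 0) : AA K L) = 0 := pd _ _ fun h => by simp at h
    have h2 : pderiv (c, 1) (X (d, 1) : AA K L) = 0 :=
      pd _ _ fun h => hcd (Prod.ext_iff.1 h).1.symm
    unfold sp
    split_ifs
    · exact map_zero _
    · rw [map_add, h1, h2, zero_add]
    · rw [map_add, h1, map_zero, zero_add]
  obtain ⟨A, B, h1, h2, h3, h4⟩ := sys hJ hE (gp p 0 hpa) (gp p 1 hpa) (gp q 0 hqa) (gp q 1 hqa) hW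
  obtain ⟨A', B', h'⟩ := sol (w := fun m => k0 p q (PowerSeries.coeff m W)) hpa hqa hpq
    (fun m => pderiv_k0_left _) (fun m => pderiv_k0_right _)
  refine sy_unique ⟨h1, h2, h3 p hpa (hsp1 p) (hsp2 p q hpq), h4 q hqa (hsp1 q)
    (hsp2 q p hpq.symm)⟩ h' ?_ ?_
  · rw [hW.zero, Wx, map_add, map_add, map_add, PowerSeries.coeff_zero_X_mul,
      PowerSeries.coeff_C_mul, PowerSeries.coeff_C_mul, coeff_cmb, Finset.Nat.antidiagonal_zero,
      Finset.sum_singleton, Lg, Lg, PowerSeries.coeff_mk, PowerSeries.coeff_mk]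
    have h5 : k0 p q (PowerSeries.coeff 0 W) = 0 := by rw [hW.zero, map_zero]
    show (0 : AA K L) = _
    simp only [Nat.cast_zero, inv_zero, C_0, zero_mul, mul_zero, add_zero, zero_add]
    rw [h5, map_zero, map_zero]
  · intro n
    rw [Wx, map_add (PowerSeries.coeff n), map_add (PowerSeries.coeff n),
      map_add (PowerSeries.coeff n), map_add, map_add, map_add, PowerSeries.coeff_C_mul,
      PowerSeries.coeff_C_mul, coeff_cmb, Lg, Lg, PowerSeries.coeff_mk, PowerSeries.coeff_mk,
      map_sum]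
    have e1 : k0 p q (PowerSeries.coeff n (PowerSeries.X *
        PowerSeries.C (X (p, 1) * X (q, 1) * X (a, 1)))) = 0 := by
      cases n with
      | zero => rw [PowerSeries.coeff_zero_X_mul, map_zero]
      | succ n =>
        rw [PowerSeries.coeff_succ_X_mul, PowerSeries.coeff_C]
        split_ifs
        · rw [map_mul, map_mul, k0_X, if_pos (Or.inl rfl), zero_mul, zero_mul]
        · exact map_zero _
    have e2 : k0 p q (X (q, 0) * (C ((n : K)⁻¹) * (X (p, 1) ^ n * X (a, n)))) = 0 := by
      rcases Nat.eq_zero_or_pos n with rfl | hn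
      · rw [Nat.cast_zero, inv_zero, C_0, zero_mul, mul_zero, map_zero]
      · rw [map_mul, map_mul, map_mul, map_pow, k0_X (p, 1), if_pos (Or.inl rfl),
          zero_pow hn.ne', zero_mul, mul_zero, mul_zero]
    have e3 : k0 p q (X (p, 0) * (C ((n : K)⁻¹) * (X (q, 1) ^ n * X (a, n)))) = 0 := by
      rcases Nat.eq_zero_or_pos n with rfl | hn
      · rw [Nat.cast_zero, inv_zero, C_0, zero_mul, mul_zero, map_zero]
      · rw [map_mul, map_mul, map_mul, map_pow, k0_X (q, 1), if_pos (Or.inr rfl),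
          zero_pow hn.ne', zero_mul, mul_zero, mul_zero]
    have e4 : ∑ x ∈ Finset.HasAntidiagonal.antidiagonal n, k0 p q (PowerSeries.coeff x.2
        (Ph a (X (p, 1)) (X (q, 1)) (k0 p q (PowerSeries.coeff x.1 W))))
        = k0 p q (PowerSeries.coeff n W) := by
      have e5 : ∀ x ∈ Finset.HasAntidiagonal.antidiagonal n, k0 p q (PowerSeries.coeff x.2
          (Ph a (X (p, 1)) (X (q, 1)) (k0 p q (PowerSeries.coeff x.1 W))))
          = if x = (n, 0) then k0 p q (PowerSeries.coeff n W) else 0 := by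
        intro x hx
        rw [Finset.HasAntidiagonal.mem_antidiagonal] at hx
        have h6 := congrArg (PowerSeries.coeff x.2)
          (k0_Ph hpa hqa (k0 p q (PowerSeries.coeff x.1 W)))
        rw [PowerSeries.coeff_map, PowerSeries.coeff_C, k0_k0] at h6
        have h7 : k0 p q (PowerSeries.coeff x.2
          (Ph a (X (p, 1)) (X (q, 1)) (k0 p q (PowerSeries.coeff x.1 W))))
          = if x.2 = 0 then k0 p q (PowerSeries.coeff x.1 W) else 0 := h6
        rw [h7]
        by_cases h8 : x.2 = 0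
        · have h9 : x = (n, 0) := Prod.ext (by show x.1 = n; omega) h8
          rw [if_pos h8, if_pos h9, h9]
        · rw [if_neg h8, if_neg]
          intro h9
          rw [h9] at h8
          exact h8 rfl
      rw [Finset.sum_congr rfl e5, Finset.sum_ite_eq', if_pos]
      rw [Finset.HasAntidiagonal.mem_antidiagonal]
      exact add_zero n
    rw [e1, e2, e3, e4, zero_add, zero_add, zero_add]

/-- The logarithm at `s = t = 0`. -/
theorem log_zero {J : Fam} (hpa : p ≠ a) (hqa : q ≠ a)
    {W : PowerSeries (AA K L)}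
    (hW : IsLog (C al) (PowerSeries.mk (tq J a (sp (X (p, 0)) (X (p, 1)))
      (sp (X (q, 0)) (X (q, 1))))) W) :
    IsLog (C al) (PowerSeries.mk (tq J a (sp (X (p, 0)) 0) (sp (X (q, 0)) 0)))
      (PowerSeries.map (k0 p q : AA K L →+* AA K L) W) := by
  have h1 := hW.map (k0 p q : AA K L →+* AA K L)
  have h2 : (k0 p q : AA K L →+* AA K L) (C al) = C al := k0_C al
  have h3 : PowerSeries.map (k0 p q : AA K L →+* AA K L)
      (PowerSeries.mk (tq J a (sp (X (p, 0)) (X (p, 1))) (sp (X (q, 0)) (X (q, 1)))))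
      = PowerSeries.mk (tq J a (sp (X (p, 0)) 0) (sp (X (q, 0)) 0)) := by
    ext1 n
    rw [PowerSeries.coeff_map, PowerSeries.coeff_mk, PowerSeries.coeff_mk]
    show k0 p q _ = _
    rw [tq, map_sum]
    refine Finset.sum_congr rfl fun th _ => ?_
    rw [map_mul, map_mul, map_mul, k0_C, hom_Jr, hom_Jr, Jp_eq_Jr, hom_Jr]
    have e1 : (fun i => k0 p q (X (a, i) : AA K L)) = fun i => X (a, i) := by
      funext i
      rw [k0_X, if_neg]
      rintro (h | h)
      · exact hpa (Prod.ext_iff.1 h).1.symm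
      · exact hqa (Prod.ext_iff.1 h).1.symm
    have e2 : ∀ c : L, c = p ∨ c = q → (fun i => k0 p q (sp (X (c, 0)) (X (c, 1)) i : AA K L))
        = sp (X (c, 0)) 0 := by
      intro c hc
      have h4 : k0 p q (X (c, 0) : AA K L) = X (c, 0) := by
        rw [k0_X, if_neg]
        rintro (h | h) <;> simp at h
      have h5 : k0 p q (X (c, 1) : AA K L) = 0 := by
        rw [k0_X, if_pos]
        rcases hc with h | h
        · exact Or.inl (by rw [h])
        · exact Or.inr (by rw [h])
      funext i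
      unfold sp
      split_ifs
      · exact map_zero _
      · rw [map_add, h4, h5]
      · rw [map_add, h4, map_zero]
    rw [e1, e2 p (Or.inl rfl), e2 q (Or.inr rfl)]
  rw [h2, h3] at h1
  exact h1

end Uniq

end Pool.Agent.JackB
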