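import Pool.Agent.Lib.JackB.Hook7

/-!
Positivity of the logarithm of the series with parameters (problem MP_b52a9f_co).
-/

open MvPolynomial

namespace Pool.Agent.JackB

section Pos

variable {L : Type*}

/-- The polynomials with all coefficients in `S`. -/
noncomputable def PS (S : Subsemiring K) (L : Type*) : Subsemiring (AA K L) :=
  SS S ∅ fun _ _ h => absurd h (Set.notMem_empty _)

/-- The elements of `V` with all coefficients in `PS S`. -/
noncomputable def PV (S : Subsemiring K) (L : Type*) : Subsemiring (VV K L) where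
  carrier := {u | ∀ j, u.coeff j ∈ PS S L}
  zero_mem' := fun j => by
    rw [Polynomial.coeff_zero]
    exact (PS S L).zero_mem
  one_mem' := fun j => by
    rw [Polynomial.coeff_one]
    split_ifs
    · exact (PS S L).one_mem
    · exact (PS S L).zero_mem
  add_mem' := fun {u v} hu hv j => by
    rw [Polynomial.coeff_add]
    exact (PS S L).add_mem (hu j) (hv j)
  mul_mem' := fun {u v} hu hv j => by
    rw [Polynomial.coeff_mul]
    exact (PS S L).sum_mem fun p _ => (PS S L).mul_mem (hu _) (hv _)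

/-- The power series with all coefficients in `PS S`. -/
noncomputable def PP (S : Subsemiring K) (L : Type*) : Subsemiring (PowerSeries (AA K L)) where
  carrier := {u | ∀ j, PowerSeries.coeff j u ∈ PS S L}
  zero_mem' := fun j => by
    rw [map_zero]
    exact (PS S L).zero_mem
  one_mem' := fun j => by
    rw [PowerSeries.coeff_one]
    split_ifs
    · exact (PS S L).one_mem
    · exact (PS S L).zero_mem
  add_mem' := fun {u v} hu hv j => by
    rw [map_add]
    exact (PS S L).add_mem (hu j) (hv j)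
  mul_mem' := fun {u v} hu hv j => by
    rw [PowerSeries.coeff_mul]
    exact (PS S L).sum_mem fun p _ => (PS S L).mul_mem (hu _) (hv _)

variable {S : Subsemiring K}

theorem C_PS {c : K} (h : c ∈ S) : (C c : AA K L) ∈ PS S L := C_mem h

theorem X_PS (v : L × ℕ) : (X v : AA K L) ∈ PS S L := X_mem v

theorem C_PP {f : AA K L} (h : f ∈ PS S L) : PowerSeries.C f ∈ PP S L := by
  intro j
  rw [PowerSeries.coeff_C]
  split_ifs
  · exact h
  · exact (PS S L).zero_mem

theorem X_PP : (PowerSeries.X : PowerSeries (AA K L)) ∈ PP S L := by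
  intro j
  rw [PowerSeries.coeff_X]
  split_ifs
  · exact (PS S L).one_mem
  · exact (PS S L).zero_mem

theorem mo_PV {f : AA K L} (h : f ∈ PS S L) (m : ℕ) : mo m f ∈ PV S L := by
  intro j
  rw [mo_apply, Polynomial.coeff_monomial]
  split_ifs
  · exact h
  · exact (PS S L).zero_mem

theorem natCast_mem_S (n : ℕ) : (n : K) ∈ S := natCast_mem S n

theorem pderiv_PS {f : AA K L} (h : f ∈ PS S L) (v : L × ℕ) : pderiv v f ∈ PS S L := by
  intro d hd
  rw [coeff_pderiv]
  refine S.mul_mem (h _ (Set.notMem_empty _)) ?_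
  have h1 : ((d v : K) + 1) = ((d v + 1 : ℕ) : K) := by push_cast; rfl
  rw [h1]
  exact natCast_mem S _

variable [DecidableEq L] {a : L}

theorem Md_PV {c : K} (hc : c ∈ S) {f : AA K L} (h : f ∈ PS S L) : Md c a f ∈ PV S L := by
  intro j
  have h1 := coeff_Md c a f j
  rw [co_apply] at h1
  rw [h1]
  exact (PS S L).mul_mem (C_PS (S.mul_mem hc (natCast_mem S j))) (pderiv_PS h _)

omit [DecidableEq L] in
theorem PV_ind (T : VV K L →ₗ[K] VV K L)
    (hT : ∀ m f, f ∈ PS S L → T (mo m f) ∈ PV S L) {u : VV K L} (hu : u ∈ PV S L) :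
    T u ∈ PV S L := by
  rw [Polynomial.as_sum_support u, map_sum]
  exact (PV S L).sum_mem fun j _ => hT j _ (hu j)

omit [DecidableEq L] in
theorem Th1_PV {u : VV K L} (hu : u ∈ PV S L) : Th1 a u ∈ PS S L := by
  rw [Polynomial.as_sum_support u, map_sum]
  refine (PS S L).sum_mem fun j _ => ?_
  have h1 := Th1_mo a j (u.coeff j)
  rw [mo_apply] at h1
  rw [h1]
  exact (PS S L).mul_mem (X_PS _) (hu j)

theorem LX_PV (hal : al ∈ S) (hb : al - 1 ∈ S) {u : VV K L} (hu : u ∈ PV S L) :
    LX al (al - 1) a u ∈ PV S L := by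
  refine PV_ind _ (fun m f hf => ?_) hu
  rw [LX_mo]
  refine (PV S L).add_mem ((PV S L).add_mem ?_ ?_) ?_
  · refine (PV S L).mul_mem ?_ (Md_PV hal hf)
    have h1 : (Polynomial.X ^ m : VV K L) = mo m 1 := by
      rw [mo_apply, Polynomial.monomial_one_right_eq_X_pow]
    rw [h1]
    exact mo_PV (PS S L).one_mem m
  · rw [← map_smul, smul_eq_C_mul]
    exact mo_PV ((PS S L).mul_mem (C_PS (S.mul_mem hb (natCast_mem S m))) hf) m
  · exact (PV S L).sum_mem fun j _ => mo_PV ((PS S L).mul_mem (X_PS _) hf) _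

/-- Positivity of the initial value. -/
theorem w_pos (hal : al ∈ S) (hb : al - 1 ∈ S) (hinv : ∀ n : ℕ, ((n : K))⁻¹ ∈ S)
    {e f : AA K L} (he : e ∈ PS S L) (hf : f ∈ PS S L) {W : PowerSeries (AA K L)}
    {G : PowerSeries (VV K L)}
    (hG : G = tl (Md (1 : K) a).toLinearMap W + PowerSeries.C (Polynomial.C f))
    (hz : zd W = PowerSeries.X * tl (Th1 a) (tl (LX al (al - 1) a) G +
        tl (Md (1 : K) a).toLinearMap W * G + PowerSeries.C (Polynomial.C e) * G))
    (h0 : PowerSeries.coeff 0 W = 0) (n : ℕ) : PowerSeries.coeff n W ∈ PS S L := by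
  induction n using Nat.strong_induction_on with
  | _ n ih =>
    cases n with
    | zero =>
      rw [h0]
      exact (PS S L).zero_mem
    | succ n =>
      have hCV : ∀ {g : AA K L}, g ∈ PS S L → (Polynomial.C g : VV K L) ∈ PV S L := by
        intro g hg
        rw [← mo_zero_eq]
        exact mo_PV hg 0
      have hMW : ∀ k ≤ n, PowerSeries.coeff k (tl (Md (1 : K) a).toLinearMap W) ∈ PV S L := by
        intro k hk
        rw [tlM_coeff]
        exact Md_PV S.one_mem (ih k (by omega))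
      have hGk : ∀ k ≤ n, PowerSeries.coeff k G ∈ PV S L := by
        intro k hk
        rw [hG, map_add]
        refine (PV S L).add_mem (hMW k hk) ?_
        rw [PowerSeries.coeff_C]
        split_ifs
        · exact hCV hf
        · exact (PV S L).zero_mem
      have h1 := congrArg (PowerSeries.coeff (n + 1)) hz
      rw [coeff_zd, PowerSeries.coeff_succ_X_mul, coeff_tl, map_add (PowerSeries.coeff n),
        map_add (PowerSeries.coeff n), coeff_tl, PowerSeries.coeff_mul,
        PowerSeries.coeff_C_mul] at h1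
      have hn : ((n + 1 : ℕ) : K) ≠ 0 := Nat.cast_ne_zero.2 (Nat.succ_ne_zero n)
      have h2 : PowerSeries.coeff (n + 1) W = C (((n + 1 : ℕ) : K)⁻¹) *
          (((n + 1 : ℕ) : AA K L) * PowerSeries.coeff (n + 1) W) := by
        rw [← mul_assoc, ← map_natCast (C : K →+* AA K L), ← C_mul, inv_mul_cancel₀ hn, C_1,
          one_mul]
      rw [h2, h1]
      refine (PS S L).mul_mem (C_PS (hinv _)) (Th1_PV ?_)
      refine (PV S L).add_mem ((PV S L).add_mem (LX_PV hal hb (hGk n le_rfl)) ?_) ?_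
      · refine (PV S L).sum_mem fun p hp => ?_
        rw [Finset.HasAntidiagonal.mem_antidiagonal] at hp
        exact (PV S L).mul_mem (hMW _ (by omega)) (hGk _ (by omega))
      · exact (PV S L).mul_mem (hCV he) (hGk n le_rfl)

omit [DecidableEq L] in
theorem gs_PP {s : AA K L} (hs : s ∈ PS S L) : gs s ∈ PP S L := by
  intro n
  rw [gs, PowerSeries.coeff_mk]
  exact (PS S L).pow_mem hs n

theorem Ph_PP {s t : AA K L} (hs : s ∈ PS S L) (ht : t ∈ PS S L) {f : AA K L}
    (hf : f ∈ PS S L) : Ph a s t f ∈ PP S L := by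
  rw [Ph, aeval_def, eval₂_eq]
  refine (PP S L).sum_mem fun d _ => (PP S L).mul_mem ?_ ?_
  · rw [PowerSeries.algebraMap_apply]
    exact C_PP (C_PS (hf d (Set.notMem_empty _)))
  · refine (PP S L).prod_mem fun v _ => (PP S L).pow_mem ?_ _
    split_ifs
    · intro n
      rw [coeff_Xs]
      have h1 : rho s t v.2 ∈ PP S L := (PP S L).pow_mem ((PP S L).mul_mem (gs_PP hs) (gs_PP ht)) _
      exact (PS S L).mul_mem (h1 n) (X_PS _)
    · exact C_PP (X_PS v)

omit [DecidableEq L] in
theorem Lg_PP (hinv : ∀ n : ℕ, ((n : K))⁻¹ ∈ S) {s : AA K L} (hs : s ∈ PS S L) :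
    Lg a s ∈ PP S L := by
  intro n
  rw [Lg, PowerSeries.coeff_mk]
  exact (PS S L).mul_mem (C_PS (hinv n)) ((PS S L).mul_mem ((PS S L).pow_mem hs n) (X_PS _))

/-- Positivity of the logarithm. -/
theorem W_pos {J : Fam} (hJ : JOK J) (hE : Eig J a) (hal : al ∈ S) (hb : al - 1 ∈ S)
    (hinv : ∀ n : ℕ, ((n : K))⁻¹ ∈ S) {p q : L} (hpa : p ≠ a) (hqa : q ≠ a) (hpq : p ≠ q)
    {W : PowerSeries (AA K L)}
    (hW : IsLog (C al) (PowerSeries.mk (tq J a (sp (X (p, 0)) (X (p, 1)))
      (sp (X (q, 0)) (X (q, 1))))) W) (n : ℕ) : PowerSeries.coeff n W ∈ PS S L := by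
  have h1 := log_zero hpa hqa hW
  have gp : ∀ c i, c ≠ a → (X (c, i) : AA K L) ∈ Gp K a := fun c i hc =>
    Gp_X fun h => absurd h hc
  obtain ⟨G, hG, hz⟩ := sys_zero hJ hE (gp p 0 hpa) (gp q 0 hqa) h1
  have h2 : ∀ m, k0 p q (PowerSeries.coeff m W) ∈ PS S L := by
    intro m
    have h3 := w_pos hal hb hinv (X_PS _) (X_PS _) hG hz h1.zero m
    rw [PowerSeries.coeff_map] at h3
    exact h3
  rw [W_eq hJ hE hpa hqa hpq hW]
  have h4 : Wx a p q (fun m => k0 p q (PowerSeries.coeff m W)) ∈ PP S L := by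
    unfold Wx
    refine (PP S L).add_mem ((PP S L).add_mem ((PP S L).add_mem ?_ ?_) ?_) ?_
    · exact (PP S L).mul_mem X_PP (C_PP ((PS S L).mul_mem ((PS S L).mul_mem (X_PS _) (X_PS _))
        (X_PS _)))
    · exact (PP S L).mul_mem (C_PP (X_PS _)) (Lg_PP hinv (X_PS _))
    · exact (PP S L).mul_mem (C_PP (X_PS _)) (Lg_PP hinv (X_PS _))
    · intro k
      rw [coeff_cmb]
      exact (PS S L).sum_mem fun x _ => Ph_PP (X_PS _) (X_PS _) (h2 _) _
  exact h4 n

end Pos

end Pool.Agent.JackB
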