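import Pool.Agent.Lib.JackB.Pde

/-!
Operators preserving integrality after conjugation by a series (problem MP_b52a9f_co).
-/

open MvPolynomial

namespace Pool.Agent.JackB

section InV

variable {F : Type*} [Field F] {L : Type*} {S : Subring F} {g : Set (L × ℕ →₀ ℕ)}
  {hg : ∀ d e, d ∈ g → d + e ∈ g}

/-- Integral elements of `V`. -/
def InV (S : Subring F) (g : Set (L × ℕ →₀ ℕ)) (hg : ∀ d e, d ∈ g → d + e ∈ g) (u : VV F L) :
    Prop := ∀ m, co m u ∈ SS S.toSubsemiring g hg

theorem InV.zero : InV S g hg 0 := fun m => by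
  rw [map_zero]
  exact Subsemiring.zero_mem _

theorem InV.add {u w : VV F L} (hu : InV S g hg u) (hw : InV S g hg w) : InV S g hg (u + w) :=
  fun m => by
    rw [map_add]
    exact Subsemiring.add_mem _ (hu m) (hw m)

theorem InV.sum {ι : Type*} (t : Finset ι) (f : ι → VV F L) (h : ∀ i ∈ t, InV S g hg (f i)) :
    InV S g hg (∑ i ∈ t, f i) := fun m => by
  rw [map_sum]
  exact Subsemiring.sum_mem _ fun i hi => h i hi m

theorem InV.mul {u w : VV F L} (hu : InV S g hg u) (hw : InV S g hg w) : InV S g hg (u * w) :=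
  fun m => by
    rw [co_apply, Polynomial.coeff_mul]
    exact Subsemiring.sum_mem _ fun p _ => Subsemiring.mul_mem _ (hu p.1) (hw p.2)

theorem InV.mono (m : ℕ) {f : AA F L} (hf : f ∈ SS S.toSubsemiring g hg) :
    InV S g hg (mo m f) := fun k => by
  rw [co_mo]
  split_ifs
  · exact hf
  · exact Subsemiring.zero_mem _

theorem InV.Xpow (m : ℕ) {u : VV F L} (hu : InV S g hg u) :
    InV S g hg (Polynomial.X ^ m * u) := by
  have h1 : (Polynomial.X ^ m : VV F L) = mo m 1 := by
    rw [mo_apply, Polynomial.X_pow_eq_monomial]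
  rw [h1]
  exact (InV.mono m (Subsemiring.one_mem _)).mul hu

theorem InV.yp {u : VV F L} (hu : InV S g hg u) : InV S g hg (Yp u) := by
  have h1 := hu.Xpow 1
  rwa [pow_one, ← Yp_apply] at h1

theorem eq_sum_mo (u : VV F L) : u = ∑ m ∈ u.support, mo m (co m u) := by
  conv_lhs => rw [Polynomial.as_sum_support u]
  rfl

variable [DecidableEq L] {al b : F} {a : L}

/-- The derivatives with respect to the alphabet `a` preserve the complement of `g`. -/
def Ga (g : Set (L × ℕ →₀ ℕ)) (a : L) : Prop :=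
  ∀ d, d ∉ g → ∀ i, d + Finsupp.single (a, i) 1 ∉ g

omit [DecidableEq L] in
theorem pderiv_SS (ha : Ga g a) (i : ℕ) {f : AA F L} (hf : f ∈ SS S.toSubsemiring g hg) :
    pderiv (a, i) f ∈ SS S.toSubsemiring g hg := by
  intro d hd
  rw [coeff_pderiv]
  refine Subsemiring.mul_mem _ (hf _ (ha d hd i)) ?_
  have : ((d (a, i) : F) + 1) = ((d (a, i) + 1 : ℕ) : F) := by push_cast; rfl
  rw [this]
  exact natCast_mem S _

theorem InV.lax (ha : Ga g a) (hal : al ∈ S) (hb : b ∈ S) {u : VV F L} (hu : InV S g hg u) :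
    InV S g hg (LX al b a u) := by
  rw [eq_sum_mo u, map_sum]
  refine InV.sum _ _ fun m _ => ?_
  have hf := hu m
  rw [LX_mo]
  refine InV.add (InV.add (InV.Xpow m fun i => ?_) ?_) (InV.sum _ _ fun j _ => ?_)
  · rw [coeff_Md]
    exact Subsemiring.mul_mem _ (C_mem (S.mul_mem hal (natCast_mem S i))) (pderiv_SS ha i hf)
  · rw [← map_smul, smul_eq_C_mul]
    exact InV.mono m (Subsemiring.mul_mem _ (C_mem (S.mul_mem hb (natCast_mem S m))) hf)
  · exact InV.mono _ (Subsemiring.mul_mem _ (X_mem _) hf)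

end InV

section Conj

variable {F : Type*} [Field F] {L : Type*} {S : Subring F} {g : Set (L × ℕ →₀ ℕ)}
  {hg : ∀ d e, d ∈ g → d + e ∈ g}

/-- The operator `T` conjugated by the series `τ`. -/
noncomputable def Cj (τ σ : PowerSeries (AA F L)) (T : VV F L →ₗ[F] VV F L)
    (G : PowerSeries (VV F L)) : PowerSeries (VV F L) :=
  tl (mo 0) σ * tl T (tl (mo 0) τ * G)

/-- The coefficients up to `n` are integral. -/
def InS (S : Subring F) (g : Set (L × ℕ →₀ ℕ)) (hg : ∀ d e, d ∈ g → d + e ∈ g) (n : ℕ)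
    (G : PowerSeries (VV F L)) : Prop := ∀ m, m ≤ n → InV S g hg (PowerSeries.coeff m G)

/-- The conjugated operator preserves integrality up to `n`. -/
def Pres (S : Subring F) (g : Set (L × ℕ →₀ ℕ)) (hg : ∀ d e, d ∈ g → d + e ∈ g)
    (τ σ : PowerSeries (AA F L)) (n : ℕ) (T : VV F L →ₗ[F] VV F L) : Prop :=
  ∀ G, InS S g hg n G → InS S g hg n (Cj τ σ T G)

variable {τ σ : PowerSeries (AA F L)} {n : ℕ}

theorem InS.add {G H : PowerSeries (VV F L)} (hG : InS S g hg n G) (hH : InS S g hg n H) :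
    InS S g hg n (G + H) := fun m hm => by
  rw [map_add]
  exact (hG m hm).add (hH m hm)

theorem InS.mul {G H : PowerSeries (VV F L)} (hG : InS S g hg n G) (hH : InS S g hg n H) :
    InS S g hg n (G * H) := fun m hm => by
  rw [PowerSeries.coeff_mul]
  refine InV.sum _ _ fun p hp => ?_
  rw [Finset.HasAntidiagonal.mem_antidiagonal] at hp
  exact (hG p.1 (by omega)).mul (hH p.2 (by omega))

theorem te_se (h : σ * τ = 1) :
    (tl (mo 0) σ * tl (mo 0) τ : PowerSeries (VV F L)) = 1 := by
  rw [tl_mo_mul, h]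
  ext1 n
  rw [coeff_tl, PowerSeries.coeff_one, PowerSeries.coeff_one]
  split_ifs
  · rw [mo_zero_eq, Polynomial.C_1]
  · rw [map_zero]

theorem Cj_comp (h : σ * τ = 1) (T T' : VV F L →ₗ[F] VV F L) (G : PowerSeries (VV F L)) :
    Cj τ σ (T ∘ₗ T') G = Cj τ σ T (Cj τ σ T' G) := by
  have h2 : (tl (mo 0) τ * tl (mo 0) σ : PowerSeries (VV F L)) = 1 := by
    rw [mul_comm]
    exact te_se h
  rw [Cj, Cj, Cj, ← mul_assoc (tl (mo 0) τ), h2, one_mul, tl_tl]

theorem Cj_add (T T' : VV F L →ₗ[F] VV F L) (G : PowerSeries (VV F L)) :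
    Cj τ σ (T + T') G = Cj τ σ T G + Cj τ σ T' G := by
  have h1 : ∀ G : PowerSeries (VV F L), tl (T + T') G = tl T G + tl T' G := by
    intro G
    ext1 n
    rw [map_add, coeff_tl, coeff_tl, coeff_tl, LinearMap.add_apply]
  rw [Cj, Cj, Cj, h1, mul_add]

theorem Cj_add_right (T : VV F L →ₗ[F] VV F L) (G H : PowerSeries (VV F L)) :
    Cj τ σ T (G + H) = Cj τ σ T G + Cj τ σ T H := by
  rw [Cj, Cj, Cj, mul_add, map_add, mul_add]

theorem Pres.comp (h : σ * τ = 1) {T T' : VV F L →ₗ[F] VV F L} (hT : Pres S g hg τ σ n T)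
    (hT' : Pres S g hg τ σ n T') : Pres S g hg τ σ n (T ∘ₗ T') := fun G hG => by
  rw [Cj_comp h]
  exact hT _ (hT' G hG)

theorem Pres.add {T T' : VV F L →ₗ[F] VV F L} (hT : Pres S g hg τ σ n T)
    (hT' : Pres S g hg τ σ n T') : Pres S g hg τ σ n (T + T') := fun G hG => by
  rw [Cj_add]
  exact (hT G hG).add (hT' G hG)

theorem Cj_zero (G : PowerSeries (VV F L)) : Cj τ σ 0 G = 0 := by
  have h1 : ∀ G : PowerSeries (VV F L), tl (0 : VV F L →ₗ[F] VV F L) G = 0 := by
    intro G
    ext1 n
    rw [coeff_tl, map_zero, LinearMap.zero_apply]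
  rw [Cj, h1, mul_zero]

theorem Pres.zero : Pres S g hg τ σ n 0 := fun G _ => by
  rw [Cj_zero]
  intro m _
  rw [map_zero]
  exact InV.zero

theorem Pres.sum {ι : Type*} (t : Finset ι) (T : ι → VV F L →ₗ[F] VV F L)
    (h : ∀ i ∈ t, Pres S g hg τ σ n (T i)) : Pres S g hg τ σ n (∑ i ∈ t, T i) := by
  classical
  induction t using Finset.induction_on with
  | empty =>
    rw [Finset.sum_empty]
    exact Pres.zero
  | insert i t hi ih =>
    rw [Finset.sum_insert hi]
    exact (h i (Finset.mem_insert_self i t)).add (ih fun j hj => h j (Finset.mem_insert_of_mem hj))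

theorem Pres.mulC (h : σ * τ = 1) {f : AA F L} (hf : f ∈ SS S.toSubsemiring g hg) :
    Pres S g hg τ σ n (LinearMap.mulLeft F (Polynomial.C f)) := fun G hG => by
  have h1 : ∀ G : PowerSeries (VV F L), tl (LinearMap.mulLeft F (Polynomial.C f)) G
      = PowerSeries.C (Polynomial.C f) * G := by
    intro G
    ext1 n
    rw [coeff_tl, PowerSeries.coeff_C_mul, LinearMap.mulLeft_apply]
  rw [Cj, h1, mul_left_comm, ← mul_assoc (tl (mo 0) σ), te_se h, one_mul]
  intro m hm
  rw [PowerSeries.coeff_C_mul, ← mo_zero_eq]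
  exact (InV.mono 0 hf).mul (hG m hm)

theorem Pres.id (h : σ * τ = 1) : Pres S g hg τ σ n LinearMap.id := fun G hG => by
  have h1 : ∀ G : PowerSeries (VV F L), tl (LinearMap.id : VV F L →ₗ[F] VV F L) G = G := by
    intro G
    ext1 n
    rw [coeff_tl, LinearMap.id_apply]
  rw [Cj, h1, ← mul_assoc, te_se h, one_mul]
  exact hG

theorem Pres.pow (h : σ * τ = 1) {T : VV F L →ₗ[F] VV F L} (hT : Pres S g hg τ σ n T) (k : ℕ) :
    Pres S g hg τ σ n (T ^ k : Module.End F (VV F L)) := by
  induction k with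
  | zero => exact Pres.id h
  | succ k ih =>
    rw [pow_succ]
    exact ih.comp h hT

theorem Pres.smul (h : σ * τ = 1) {T : VV F L →ₗ[F] VV F L} (hT : Pres S g hg τ σ n T) {s : F}
    (hs : s ∈ S) : Pres S g hg τ σ n (s • T) := by
  have h1 : s • T = LinearMap.mulLeft F (Polynomial.C (C s)) ∘ₗ T := by
    refine LinearMap.ext fun u => ?_
    rw [LinearMap.smul_apply, LinearMap.comp_apply, LinearMap.mulLeft_apply,
      ← Polynomial.smul_eq_C_mul, ← algebraMap_eq, algebraMap_smul]
  rw [h1]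
  exact (Pres.mulC h (C_mem hs)).comp h hT

theorem tl_Yp (G : PowerSeries (VV F L)) : tl Yp G = PowerSeries.C Polynomial.X * G := by
  ext1 n
  rw [coeff_tl, PowerSeries.coeff_C_mul, Yp_apply]

theorem Cj_Yp (h : σ * τ = 1) (G : PowerSeries (VV F L)) : Cj τ σ Yp G = tl Yp G := by
  rw [Cj, tl_Yp, tl_Yp, mul_left_comm, ← mul_assoc (tl (mo 0) σ), te_se h, one_mul]

theorem InS.yp {G : PowerSeries (VV F L)} (hG : InS S g hg n G) : InS S g hg n (tl Yp G) :=
  fun m hm => by
    rw [coeff_tl]
    exact (hG m hm).yp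

theorem Pres.yp (h : σ * τ = 1) : Pres S g hg τ σ n (Yp : VV F L →ₗ[F] VV F L) := fun G hG => by
  rw [Cj_Yp h]
  exact hG.yp

theorem tl_X_mul (T : VV F L →ₗ[F] VV F L) (G : PowerSeries (VV F L)) :
    tl T (PowerSeries.X * G) = PowerSeries.X * tl T G := by
  ext1 n
  cases n with
  | zero => rw [coeff_tl, PowerSeries.coeff_zero_X_mul, PowerSeries.coeff_zero_X_mul, map_zero]
  | succ n => rw [coeff_tl, PowerSeries.coeff_succ_X_mul, PowerSeries.coeff_succ_X_mul, coeff_tl]

theorem Cj_X_mul (T : VV F L →ₗ[F] VV F L) (G : PowerSeries (VV F L)) :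
    Cj τ σ T (PowerSeries.X * G) = PowerSeries.X * Cj τ σ T G := by
  rw [Cj, Cj, mul_left_comm, tl_X_mul, mul_left_comm]

/-- It is enough to look at constant series. -/
theorem Pres.of_const {T : VV F L →ₗ[F] VV F L}
    (h : ∀ u, InV S g hg u → InS S g hg n (Cj τ σ T (PowerSeries.C u))) :
    Pres S g hg τ σ n T := by
  have key : ∀ m, m ≤ n → ∀ G, (∀ l, l ≤ m → InV S g hg (PowerSeries.coeff l G)) →
      InV S g hg (PowerSeries.coeff m (Cj τ σ T G)) := by
    intro m
    induction m with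
    | zero =>
      intro _ G hG
      have h1 : G = PowerSeries.C (PowerSeries.coeff 0 G) +
          PowerSeries.X * PowerSeries.mk (fun l => PowerSeries.coeff (l + 1) G) := by
        ext1 l
        cases l with
        | zero => simp
        | succ l => simp [PowerSeries.coeff_succ_X_mul]
      rw [h1, Cj_add_right, Cj_X_mul, map_add, PowerSeries.coeff_zero_X_mul, add_zero]
      exact h _ (hG 0 le_rfl) 0 (Nat.zero_le n)
    | succ m ih =>
      intro hm G hG
      have h1 : G = PowerSeries.C (PowerSeries.coeff 0 G) +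
          PowerSeries.X * PowerSeries.mk (fun l => PowerSeries.coeff (l + 1) G) := by
        ext1 l
        cases l with
        | zero => simp
        | succ l => simp [PowerSeries.coeff_succ_X_mul]
      rw [h1, Cj_add_right, Cj_X_mul, map_add, PowerSeries.coeff_succ_X_mul]
      refine InV.add (h _ (hG 0 (Nat.zero_le _)) (m + 1) hm) (ih (by omega) _ fun l hl => ?_)
      rw [PowerSeries.coeff_mk]
      exact hG (l + 1) (by omega)
  exact fun G hG m hm => key m hm G fun l hl => hG l (hl.trans hm)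

end Conj

section Pres2

variable {F : Type*} [Field F] [CharZero F] {L : Type*} [DecidableEq L] {S : Subring F}
  {g : Set (L × ℕ →₀ ℕ)} {hg : ∀ d e, d ∈ g → d + e ∈ g} {al b : F} {a : L}
  {τ σ H : PowerSeries (AA F L)} {n : ℕ}

/-- The derivation of `τ`. -/
theorem Md_tau (hal : al ≠ 0) (hL : IsLog (C al) τ H) :
    tl (Md al a).toLinearMap τ = tl (mo 0) τ * tl (al⁻¹ • (Md al a).toLinearMap) H := by
  have hC : (C al : AA F L) ≠ 0 := by
    rw [Ne, C_eq_zero]
    exact hal
  ext1 n
  refine co_ext fun i => ?_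
  have h1 := congrArg (PowerSeries.coeff n) (hL.dd_eq (pderiv (R := F) (a, i)) hC pderiv_C)
  rw [PowerSeries.coeff_C_mul, coeff_dd, PowerSeries.coeff_mul] at h1
  rw [coeff_tl, PowerSeries.coeff_mul, map_sum]
  show co i (Md al a (PowerSeries.coeff n τ)) = _
  have h2 : C (al * (i : F)) * pderiv (a, i) (PowerSeries.coeff n τ)
      = C (i : F) * (C al * pderiv (a, i) (PowerSeries.coeff n τ)) := by
    rw [C_mul]
    ring
  rw [coeff_Md, h2, h1, Finset.mul_sum]
  refine Finset.sum_congr rfl fun p _ => ?_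
  rw [coeff_tl, coeff_tl, coeff_dd, mo_zero_eq, LinearMap.smul_apply]
  show _ = co i (Polynomial.C (PowerSeries.coeff p.1 τ) *
    (al⁻¹ • Md al a (PowerSeries.coeff p.2 H)))
  have h3 : (C al⁻¹ : AA F L) * C (al * (i : F)) = C (i : F) := by
    rw [← C_mul, ← mul_assoc, inv_mul_cancel₀ hal, one_mul]
  rw [co_apply, Polynomial.coeff_C_mul, ← co_apply, map_smul, coeff_Md, smul_eq_C_mul]
  linear_combination (-(PowerSeries.coeff p.1 τ *
    pderiv (a, i) (PowerSeries.coeff p.2 H))) * h3

theorem Cj_LX (hal : al ≠ 0) (h : σ * τ = 1) (hL : IsLog (C al) τ H) (G : PowerSeries (VV F L)) :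
    Cj τ σ (LX al b a) G = tl (LX al b a) G + tl (al⁻¹ • (Md al a).toLinearMap) H * G := by
  rw [Cj, tl_LX_mul, Md_tau hal hL, mul_assoc, ← mul_add, ← mul_assoc, te_se h, one_mul]

theorem Pres.lax (ha : Ga g a) (hal : al ≠ 0) (halS : al ∈ S) (hbS : b ∈ S) (h : σ * τ = 1)
    (hL : IsLog (C al) τ H)
    (hH : ∀ m, m ≤ n → ∀ i : ℕ, C (i : F) * pderiv (a, i) (PowerSeries.coeff m H)
      ∈ SS S.toSubsemiring g hg) : Pres S g hg τ σ n (LX al b a) := fun G hG => by
  rw [Cj_LX hal h hL]
  refine InS.add (fun m hm => ?_) (InS.mul (fun m hm i => ?_) hG)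
  · rw [coeff_tl]
    exact (hG m hm).lax ha halS hbS
  · rw [coeff_tl, LinearMap.smul_apply]
    have h1 : co i (al⁻¹ • Md al a (PowerSeries.coeff m H))
        = C (i : F) * pderiv (a, i) (PowerSeries.coeff m H) := by
      rw [map_smul, coeff_Md, smul_eq_C_mul, ← mul_assoc, ← C_mul, ← mul_assoc,
        inv_mul_cancel₀ hal, one_mul]
    show co i (al⁻¹ • Md al a (PowerSeries.coeff m H)) ∈ _
    rw [h1]
    exact hH m hm i

variable {T : ℕ → VV F L →ₗ[F] VV F L}

/-- The extensions of the `hk` preserve integrality. -/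
theorem Pres.tk (hal : al ≠ 0) (halS : al ∈ S) (hbS : b ∈ S) (h : σ * τ = 1)
    (hT : ∀ n, IsLift al b a (hk al b a n) (T n))
    (hX : Pres S g hg τ σ n (LX al b a)) (k : ℕ) :
    Pres S g hg τ σ n (T k) ∧ Pres S g hg τ σ n (nat (T k)) := by
  induction k using Nat.strong_induction_on with
  | _ k ih =>
    have hnat : nat (T k) = T k + al • rhs al b a T k := by
      refine LinearMap.ext fun u => ?_
      rw [nat_hk hal hT, LinearMap.add_apply, LinearMap.smul_apply]
    have hrhs : Pres S g hg τ σ n (al • rhs al b a T k) := by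
      refine Pres.smul h ?_ halS
      rw [rhs]
      refine Pres.sum _ _ fun j hj => Pres.sum _ _ fun s hs => ?_
      rw [Finset.mem_range] at hj hs
      refine (ih s (by omega)).2.comp h (Pres.comp h (Pres.pow h ?_ _) (Pres.pow h hX _))
      exact hX.add ((Pres.id h).smul h hbS)
    have hT' : Pres S g hg τ σ n (T k) := by
      refine Pres.of_const fun u hu => ?_
      have key : ∀ (j : ℕ) (f : AA F L), f ∈ SS S.toSubsemiring g hg →
          InS S g hg n (Cj τ σ (T k) (PowerSeries.C (mo j f))) := by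
        intro j
        induction j with
        | zero =>
          intro f hf
          have h1 : Cj τ σ (T k) (PowerSeries.C (mo 0 f)) = tl (mo 0) (tl (co 0)
              (Cj τ σ (LX al b a ^ k : Module.End F (VV F L)) (PowerSeries.C (mo 0 f)))) := by
            have h2 : (tl (mo 0) τ * PowerSeries.C (mo 0 f) : PowerSeries (VV F L))
                = tl (mo 0) (τ * PowerSeries.C f) := by
              ext1 m
              rw [PowerSeries.coeff_mul_C, coeff_tl, coeff_tl, PowerSeries.coeff_mul_C, mo_zero_eq,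
                C_mul_mo]
            rw [Cj, Cj, h2, tl_co_mul, ← tl_mo_mul σ]
            refine congrArg _ ?_
            ext1 m
            rw [coeff_tl, coeff_tl, coeff_tl, coeff_tl, coeff_tl, coeff_tl, (hT k).mo, hk_apply]
          rw [h1]
          intro m hm
          rw [coeff_tl, coeff_tl]
          refine InV.mono 0 (Pres.pow h hX k _ (fun l _ => ?_) m hm 0)
          rw [PowerSeries.coeff_C]
          split_ifs
          · exact InV.mono 0 hf
          · exact InV.zero
        | succ j ihj =>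
          intro f hf
          have h1 : Cj τ σ (T k) (PowerSeries.C (mo (j + 1) f))
              = tl Yp (Cj τ σ (nat (T k)) (PowerSeries.C (mo j f))) := by
            have h2 : ∀ G : PowerSeries (VV F L), tl (T k) (tl Yp G) = tl Yp (tl (nat (T k)) G) := by
              intro G
              ext1 m
              rw [coeff_tl, coeff_tl, coeff_tl, coeff_tl, (hT k).Yp]
            have h3 : (PowerSeries.C (mo (j + 1) f) : PowerSeries (VV F L))
                = PowerSeries.C Polynomial.X * PowerSeries.C (mo j f) := by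
              rw [← map_mul, ← Yp_apply, Yp_mo]
            rw [Cj, Cj, h3, mul_left_comm, ← tl_Yp, h2, tl_Yp, tl_Yp, mul_left_comm]
          rw [h1, hnat, Cj_add]
          refine InS.yp ((ihj f hf).add (hrhs _ fun l _ => ?_))
          rw [PowerSeries.coeff_C]
          split_ifs
          · exact InV.mono j hf
          · exact InV.zero
      have h4 : PowerSeries.C u = ∑ m ∈ u.support, PowerSeries.C (mo m (co m u)) := by
        rw [← map_sum, ← eq_sum_mo]
      have h5 : ∀ t : Finset ℕ, InS S g hg n (Cj τ σ (T k)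
          (∑ m ∈ t, PowerSeries.C (mo m (co m u)))) := by
        intro t
        induction t using Finset.induction_on with
        | empty =>
          rw [Finset.sum_empty, Cj, mul_zero, map_zero, mul_zero]
          intro m _
          rw [map_zero]
          exact InV.zero
        | insert i t hi iht =>
          rw [Finset.sum_insert hi, Cj_add_right]
          exact (key i _ (hu i)).add iht
      rw [h4]
      exact h5 _
    refine ⟨hT', ?_⟩
    rw [hnat]
    exact hT'.add hrhs

/-- All operators in `OI` preserve integrality. -/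
theorem OI.pres (hal : al ≠ 0) (halS : al ∈ S) (hbS : b ∈ S) (h : σ * τ = 1)
    (hT : ∀ n, IsLift al b a (hk al b a n) (T n)) {r : ℕ → AA F L}
    (hr : ∀ i, r i ∈ SS S.toSubsemiring g hg)
    (hX : Pres S g hg τ σ n (LX al b a)) {O : VV F L →ₗ[F] VV F L} (hO : OI al b a T S r O) :
    Pres S g hg τ σ n O := by
  induction hO with
  | lx => exact hX
  | tk k => exact (Pres.tk hal halS hbS h hT hX k).1
  | sc s hs => exact Pres.mulC h (C_mem hs)
  | pr i => exact Pres.mulC h (hr i)
  | add O O' _ _ ih ih' => exact ih.add ih'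
  | comp O O' _ _ ih ih' => exact ih.comp h ih'

end Pres2

section StepQ

variable {J : Fam} {L : Type*} [DecidableEq L] {a q : L} {r : ℕ → AA K L} {N : ℕ}
  {S : Subring K} {g : Set (L × ℕ →₀ ℕ)} {hg : ∀ d e, d ∈ g → d + e ∈ g}

omit [DecidableEq L] in
theorem Gb_coeff (hgr : ∀ nu, N ≤ rk nu → ∀ f : AA K L, ∀ d, d ∉ g → (rr r nu * f).coeff d = 0)
    {x : VV K L} (hx : x ∈ Gb r N) (m : ℕ) (d : L × ℕ →₀ ℕ) (hd : d ∉ g) :
    (co m x).coeff d = 0 := by
  have h1 : (co m x).coeff d ∈ (⊥ : AddSubgroup K) := by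
    refine mem_of_closure (fun x => (co m x).coeff d) (fun x y => by rw [map_add, coeff_add]) ?_ hx
    rintro x ⟨nu, hnu, u, rfl⟩
    show (co m (Polynomial.C (rr r nu) * u)).coeff d ∈ (⊥ : AddSubgroup K)
    rw [co_apply, Polynomial.coeff_C_mul, hgr nu hnu _ d hd]
    exact AddSubgroup.zero_mem _
  exact AddSubgroup.mem_bot.1 h1

/-- The inductive step: from the first alphabet to the second. -/
theorem step_q (hJ : JOK J) (hE : Eig J a) (hqa : q ≠ a)
    (halS : al ∈ S) (hr : ∀ i, Md al a (r i) = 0) (h0 : r 0 = 0) (h1 : r 1 = 1)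
    (hN : ∀ i, N < i → r i = 0) (hN1 : 1 ≤ N) (hrq : ∀ i j, pderiv (q, i) (r j) = 0)
    (hrS : ∀ i, r i ∈ SS S.toSubsemiring g hg) (ha : Ga g a)
    (hgr : ∀ nu, N ≤ rk nu → ∀ f : AA K L, ∀ d, d ∉ g → (rr r nu * f).coeff d = 0)
    {H : PowerSeries (AA K L)} (hL : IsLog (C al) (PowerSeries.mk (ta J a q r)) H) {n : ℕ}
    (hH : ∀ m, m < n → ∀ i : ℕ, C (i : K) * pderiv (a, i) (PowerSeries.coeff m H)
      ∈ SS S.toSubsemiring g hg) (i : ℕ) :
    C (i : K) * pderiv (q, i) (PowerSeries.coeff n H) ∈ SS S.toSubsemiring g hg := by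
  set τ : PowerSeries (AA K L) := PowerSeries.mk (ta J a q r) with hτ
  rcases Nat.eq_zero_or_pos i with rfl | hi
  · rw [Nat.cast_zero, C_0, zero_mul]
    exact Subsemiring.zero_mem _
  rcases Nat.eq_zero_or_pos n with rfl | hn
  · rw [hL.zero, map_zero, mul_zero]
    exact Subsemiring.zero_mem _
  have hbS : al - 1 ∈ S := S.sub_mem halS S.one_mem
  have hc := hk_comm hJ hE
  choose T hT using fun n => exists_lift al_ne_zero (al - 1) a (T0 := hk al (al - 1) a n)
    (fun k f => hc n k f)
  obtain ⟨ρ, hρ, hρ2⟩ := exists_rho al_ne_zero halS hbS hT hc hr h0 h1 hN hN1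
  have hρc := hρ.cm al_ne_zero hT hc hr
  -- the inverse series
  set σ : PowerSeries (AA K L) := PowerSeries.invOfUnit τ 1 with hσ
  have hu : PowerSeries.constantCoeff τ = ((1 : (AA K L)ˣ) : AA K L) := by
    rw [Units.val_one, ← PowerSeries.coeff_zero_eq_constantCoeff_apply, hL.one]
  have hστ : σ * τ = 1 := PowerSeries.invOfUnit_mul τ 1 hu
  have hX : Pres S g hg τ σ (n - 1) (LX al (al - 1) a) :=
    Pres.lax ha al_ne_zero halS hbS hστ hL fun m hm => hH m (by omega)
  have hρp : Pres S g hg τ σ (n - 1) ρ := OI.pres al_ne_zero halS hbS hστ hT hrS hX hρ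
  set W : VV K L →ₗ[K] VV K L := LX al (al - 1) a ∘ₗ ((Yp ∘ₗ ρ) ^ i : Module.End K (VV K L))
    with hW
  have hWp : Pres S g hg τ σ (n - 1) W := hX.comp hστ (Pres.pow hστ ((Pres.yp hστ).comp hστ hρp) i)
  -- the differential equation
  choose x hx hpde using fun n => pde hJ hE hqa hT hr h0 hrq hρc hρ2 i n hi
  have hC : (C al : AA K L) ≠ 0 := by
    rw [Ne, C_eq_zero]
    exact al_ne_zero
  have hdd := hL.dd_eq (pderiv (R := K) (q, i)) hC pderiv_C
  have h2 : τ * (PowerSeries.C (C (i : K)) * dd (pderiv (R := K) (q, i)) H)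
      = PowerSeries.X ^ i * tl (co 0) (tl W (tl (mo 0) τ * 1)) + tl (co 0) (PowerSeries.mk x) := by
    rw [mul_left_comm, ← hdd]
    ext1 m
    rw [PowerSeries.coeff_C_mul, PowerSeries.coeff_C_mul, coeff_dd, hτ, PowerSeries.coeff_mk,
      ← mul_assoc, ← C_mul, mul_comm (i : K) al, hpde m, map_add, PowerSeries.coeff_X_pow_mul',
      coeff_tl, mul_one]
    refine congrArg₂ _ ?_ ?_
    · split_ifs with h
      · rw [coeff_tl, coeff_tl, PowerSeries.coeff_mk]
        rfl
      · rfl
    · rw [coeff_tl, PowerSeries.coeff_mk]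
  have h3 : PowerSeries.C (C (i : K)) * dd (pderiv (R := K) (q, i)) H
      = PowerSeries.X ^ i * tl (co 0) (Cj τ σ W 1) + σ * tl (co 0) (PowerSeries.mk x) := by
    have h4 : σ * (τ * (PowerSeries.C (C (i : K)) * dd (pderiv (R := K) (q, i)) H))
        = σ * (PowerSeries.X ^ i * tl (co 0) (tl W (tl (mo 0) τ * 1)) +
          tl (co 0) (PowerSeries.mk x)) := by rw [h2]
    rw [← mul_assoc σ τ, hστ, one_mul, mul_add, mul_left_comm σ, ← tl_co_mul] at h4
    exact h4
  have h4 := congrArg (PowerSeries.coeff n) h3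
  rw [PowerSeries.coeff_C_mul, coeff_dd, map_add, PowerSeries.coeff_X_pow_mul'] at h4
  rw [h4]
  refine Subsemiring.add_mem _ ?_ ?_
  · split_ifs with h
    · rw [coeff_tl]
      refine hWp 1 (fun m _ => ?_) (n - i) (by omega) 0
      rw [PowerSeries.coeff_one]
      split_ifs
      · rw [← Polynomial.C_1, ← mo_zero_eq]
        exact InV.mono 0 (Subsemiring.one_mem _)
      · exact InV.zero
    · exact Subsemiring.zero_mem _
  · intro d hd
    have h5 : (PowerSeries.coeff n (σ * tl (co 0) (PowerSeries.mk x))).coeff d = 0 := by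
      rw [PowerSeries.coeff_mul, coeff_sum]
      refine Finset.sum_eq_zero fun p _ => ?_
      rw [coeff_mul]
      refine Finset.sum_eq_zero fun e he => ?_
      rw [Finset.HasAntidiagonal.mem_antidiagonal] at he
      have he2 : e.2 ∉ g := by
        intro h6
        apply hd
        rw [← he, add_comm]
        exact hg _ _ h6
      rw [coeff_tl, PowerSeries.coeff_mk, Gb_coeff hgr (hx p.2) 0 e.2 he2, mul_zero]
    rw [h5]
    exact S.zero_mem

end StepQ

end Pool.Agent.JackB
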