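import Pool.Agent.Lib.JackB.Hook8

/-!
The parameters `u, v, 0, 0, …` (problem MP_b52a9f_co).
-/

open MvPolynomial

namespace Pool.Agent.JackB

section Comm

variable {F : Type*} [Field F] [CharZero F] {L : Type*} [DecidableEq L] {al b : F} {a : L}
  {T : ℕ → VV F L →ₗ[F] VV F L}

/-- The operators commuting with `LX` and the `T k` commute with the `nat (T k)`. -/
theorem comm_nat_tk (hal : al ≠ 0) (hT : ∀ n, IsLift al b a (hk al b a n) (T n))
    {P : VV F L →ₗ[F] VV F L} (hL : ∀ u, P (LX al b a u) = LX al b a (P u))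
    (hP : ∀ k u, P (T k u) = T k (P u)) (k : ℕ) (u : VV F L) :
    P (nat (T k) u) = nat (T k) (P u) := by
  induction k using Nat.strong_induction_on generalizing u with
  | _ n ih =>
    set Lb : Module.End F (VV F L) := LX al b a + b • LinearMap.id with hLb
    have hPL : ∀ u, P (Lb u) = Lb (P u) := by
      intro u
      rw [hLb]
      show P (LX al b a u + b • u) = LX al b a (P u) + b • P u
      rw [map_add, map_smul, hL]
    rw [nat_hk hal hT, nat_hk hal hT, map_add, map_smul, hP, rhs_apply, rhs_apply, map_sum]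
    refine congrArg₂ _ rfl (congrArg (fun x => al • x) (Finset.sum_congr rfl fun j _ => ?_))
    rw [map_sum]
    refine Finset.sum_congr rfl fun s hs => ?_
    rw [Finset.mem_range] at hs
    rw [ih s (by omega), pow_comm_of hPL, pow_comm_of hL]

/-- The operators with `Ym L ^ j = R j Ym L` on constants. -/
noncomputable def Rj (al b : F) (a : L) (T : ℕ → VV F L →ₗ[F] VV F L) :
    ℕ → (VV F L →ₗ[F] VV F L)
  | 0 => 0
  | j + 1 => LX al b a ∘ₗ Rj al b a T j + b • Rj al b a T j + nat (T j)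

omit [CharZero F] in
theorem Rj_zero (u : VV F L) : Rj al b a T 0 u = 0 := rfl

omit [CharZero F] in
theorem Rj_succ (j : ℕ) (u : VV F L) : Rj al b a T (j + 1) u
    = LX al b a (Rj al b a T j u) + b • Rj al b a T j u + nat (T j) u := rfl

omit [CharZero F] in
theorem Rj_LX (hT : ∀ n, IsLift al b a (hk al b a n) (T n)) (j : ℕ) (u : VV F L) :
    Rj al b a T j (LX al b a u) = LX al b a (Rj al b a T j u) := by
  induction j with
  | zero => rw [Rj_zero, Rj_zero, map_zero]
  | succ j ih => rw [Rj_succ, Rj_succ, ih, nat_LX (hT j), map_add, map_add, map_smul]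

omit [CharZero F] in
theorem co_pow_Yp (hT : ∀ n, IsLift al b a (hk al b a n) (T n)) (j : ℕ) (u : VV F L) :
    co 0 ((LX al b a ^ j : Module.End F (VV F L)) (Yp u)) = Th1 a (Rj al b a T j u) := by
  induction j generalizing u with
  | zero => rw [pow_zero, Module.End.one_apply, co_zero_Yp, Rj_zero, map_zero]
  | succ j ih =>
    rw [pow_succ, Module.End.mul_apply, LX_Yp, map_add, map_add, ih, ← hk_apply, ← nat_Th1 (hT j),
      map_add (Rj al b a T j), map_smul (Rj al b a T j), Rj_LX hT, Rj_succ, ← map_add]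

omit [CharZero F] in
theorem Ym_Md_hk (hT : ∀ n, IsLift al b a (hk al b a n) (T n)) (j : ℕ) (f : AA F L) :
    Ym (Md al a (hk al b a j f)) = nat (T j) (Ym (Md al a f)) := by
  rw [nat_apply, Yp_Ym_Md, ← LX_zero al b a f, (hT j).lx, (hT j).mo, LX_zero]

omit [CharZero F] in
theorem Ym_pow (hT : ∀ n, IsLift al b a (hk al b a n) (T n)) (j : ℕ) (f : AA F L) :
    Ym ((LX al b a ^ j : Module.End F (VV F L)) (mo 0 f)) = Rj al b a T j (Ym (Md al a f)) := by
  induction j with
  | zero => rw [pow_zero, Module.End.one_apply, Ym_mo_zero, Rj_zero]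
  | succ j ih =>
    rw [pow_succ', Module.End.mul_apply, Ym_LX, ih, ← hk_apply, Ym_Md_hk hT, Rj_succ]

theorem comm_Rj (hal : al ≠ 0) (hT : ∀ n, IsLift al b a (hk al b a n) (T n))
    {P : VV F L →ₗ[F] VV F L} (hL : ∀ u, P (LX al b a u) = LX al b a (P u))
    (hP : ∀ k u, P (T k u) = T k (P u)) (j : ℕ) (u : VV F L) :
    P (Rj al b a T j u) = Rj al b a T j (P u) := by
  induction j with
  | zero => rw [Rj_zero, Rj_zero, map_zero]
  | succ j ih =>
    rw [Rj_succ, Rj_succ, map_add, map_add, map_smul, hL, ih, comm_nat_tk hal hT hL hP]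

omit [CharZero F] in
theorem Ym_T (hT : ∀ n, IsLift al b a (hk al b a n) (T n)) (k : ℕ) (w : VV F L) :
    Ym (T k w) = nat (T k) (Ym w) := by
  conv_lhs => rw [← Yp_Ym w]
  rw [map_add, (hT k).mo, map_add, Ym_mo_zero, add_zero]
  rfl

theorem Ym_Md_r1 (hal : al ≠ 0) (n : ℕ) :
    Ym (Md al a (vv al a (r1 F L) (n + 1))) = mo 0 (vv al a (r1 F L) n) := by
  have h2 := congrArg (PowerSeries.coeff (n + 1)) (Md_vv hal (Md_r1 al a) (r1_ne (by omega)))
  rw [coeff_tl, PowerSeries.coeff_mk, PowerSeries.coeff_mul, Finset.sum_eq_single (1, n)] at h2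
  · rw [coeff_tl, PowerSeries.coeff_mk, YY, PowerSeries.coeff_mk, r1_one, mo_zero_eq, mul_comm,
      C_mul_mo, mul_one] at h2
    have h3 : Md al a (vv al a (r1 F L) (n + 1)) = mo 1 (vv al a (r1 F L) n) := h2
    rw [h3, Ym_mo_succ]
  · intro p hp hpn
    rw [Finset.HasAntidiagonal.mem_antidiagonal] at hp
    rw [YY, PowerSeries.coeff_mk, r1_ne, map_zero, zero_mul]
    intro h
    exact hpn (Prod.ext h (by show p.2 = n; omega))
  · intro h
    exact absurd (Finset.HasAntidiagonal.mem_antidiagonal.2 (add_comm 1 n)) h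

end Comm

section Iw

variable {L : Type*}

/-- The parameters `u, v, 0, 0, …`. -/
noncomputable def iw (u v : AA K L) : ℕ → AA K L :=
  fun i => if i = 1 then u else if i = 2 then v else 0

theorem iw_zero (u v : AA K L) : iw u v 0 = 0 := by simp [iw]

theorem iw_one (u v : AA K L) : iw u v 1 = u := by simp [iw]

theorem iw_two (u v : AA K L) : iw u v 2 = v := by simp [iw]

theorem iw_big (u v : AA K L) (n : ℕ) : iw u v (n + 3) = 0 := by
  rw [iw, if_neg (by omega), if_neg (by omega)]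

theorem iw_Gp {a : L} {u v : AA K L} (hu : u ∈ Gp K a) (hv : v ∈ Gp K a) (i : ℕ) :
    iw u v i ∈ Gp K a := by
  unfold iw
  split_ifs
  · exact hu
  · exact hv
  · exact (Gp K a).zero_mem

theorem Gr_iw (u v : AA K L) : Gr (iw u v) = PowerSeries.C (Polynomial.C u)
    + PowerSeries.X * PowerSeries.C (Polynomial.C v * Polynomial.X) := by
  ext1 n
  rw [Gr, map_add, PowerSeries.coeff_mk]
  rcases n with _ | _ | n
  · rw [PowerSeries.coeff_zero_X_mul, iw_one, add_zero, PowerSeries.coeff_zero_C, mo_zero_eq]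
  · rw [PowerSeries.coeff_succ_X_mul, PowerSeries.coeff_zero_C, iw_two,
      PowerSeries.coeff_C, if_neg (by omega), zero_add, mo_apply,
      ← Polynomial.C_mul_X_pow_eq_monomial, zero_add, pow_one]
  · rw [PowerSeries.coeff_succ_X_mul, PowerSeries.coeff_C, PowerSeries.coeff_C,
      if_neg (by omega), if_neg (by omega), add_zero]
    have h1 : iw u v (n + 1 + 1 + 1) = 0 := iw_big u v n
    rw [h1, map_zero]

variable [DecidableEq L] {a : L}

omit [DecidableEq L] in
theorem coeff_ve_iw (r : ℕ → AA K L) (u v : AA K L) (n : ℕ) :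
    PowerSeries.coeff (n + 1) (ve al a r * Gr (iw u v))
      = Polynomial.C u * mo 0 (vv al a r (n + 1)) +
        Polynomial.C v * Yp (mo 0 (vv al a r n)) := by
  rw [Gr_iw, mul_comm, add_mul, map_add, mul_assoc, PowerSeries.coeff_succ_X_mul,
    PowerSeries.coeff_C_mul, PowerSeries.coeff_C_mul, coeff_ve, coeff_ve, mul_assoc, ← Yp_apply]

omit [DecidableEq L] in
theorem coeff_ve_iw_zero (r : ℕ → AA K L) (u v : AA K L) :
    PowerSeries.coeff 0 (ve al a r * Gr (iw u v)) = Polynomial.C u * mo 0 1 := by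
  rw [Gr_iw, mul_comm, add_mul, map_add, mul_assoc, PowerSeries.coeff_zero_X_mul,
    PowerSeries.coeff_C_mul, coeff_ve, vv_zero, add_zero]

variable {J : Fam} {P0 Q0 : AA K L →ₗ[K] AA K L} {P Q : VV K L →ₗ[K] VV K L}

/-- The equation for the parameters `u, v, 0, 0, …`. -/
theorem eq_iw (hJ : JOK J) (hE : Eig J a) {r : ℕ → AA K L} {u v : AA K L}
    (hr : ∀ i, r i ∈ Gp K a) (hu : u ∈ Gp K a) (hv : v ∈ Gp K a)
    (hP : IsP J a r P0 P) (hQ : IsP J a (iw u v) Q0 Q) :
    An a r Q = PowerSeries.C (Polynomial.C u) * tl (mo 0) (PowerSeries.mk (tq J a r (iw u v)))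
      + PowerSeries.X * (PowerSeries.C (Polynomial.C v * Polynomial.X) * An a (iw u v) P) := by
  have hq := iw_Gp hu hv
  have hpar : ∀ g ∈ Gp K a, ∀ u, P (Polynomial.C g * u) = Polynomial.C g * P u :=
    fun g hg u => hP.lift.par al_ne_zero (Md_Gp hg) (lin_Gp hP.P2 hg) u
  ext1 n
  have h1 := nat_Q_vv hJ hE hr hq (iw_zero u v) hP hQ n
  rw [An, PowerSeries.coeff_mk, h1, map_add, PowerSeries.coeff_C_mul, coeff_tl,
    PowerSeries.coeff_mk]
  cases n with
  | zero =>
    rw [coeff_ve_iw_zero, hpar u hu, hP.lift.mo, PowerSeries.coeff_zero_X_mul, add_zero,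
      ← hP.tq hJ hq, vv_zero]
  | succ n =>
    rw [coeff_ve_iw, map_add, hpar u hu, hpar v hv, hP.lift.mo, hP.tq hJ hq, hP.lift.Yp,
      PowerSeries.coeff_succ_X_mul, PowerSeries.coeff_C_mul, An, PowerSeries.coeff_mk, mul_assoc,
      ← Yp_apply]

/-- The adjoint formula. -/
theorem adj (hJ : JOK J) (hE : Eig J a) {u v : AA K L} (hu : u ∈ Gp K a) (hv : v ∈ Gp K a)
    (hP : IsP J a (iw u v) P0 P) (w : VV K L) :
    co 0 (nat P w) = u * P0 (co 0 w) + v * Th1 a (P (Ym w)) := by
  have hT : ∀ n, ∃ T, IsLift al (al - 1) a (hk al (al - 1) a n) T :=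
    fun n => exists_lift al_ne_zero (al - 1) a (fun k f => hk_comm hJ hE n k f)
  choose T hT using hT
  have hc := hk_comm hJ hE
  have hr := iw_Gp hu hv
  have hCP := hP.cx hT
  have hCN : Cx al (al - 1) a T (nat P) := cx_nat al_ne_zero hT hP.lift hP.Pk hP.P2
  have hco : ∀ (g : AA K L) (w : VV K L), co 0 (Polynomial.C g * w) = g * co 0 w := by
    intro g w
    rw [co_apply, co_apply, Polynomial.coeff_C_mul]
  set D : VV K L →ₗ[K] AA K L := co 0 ∘ₗ nat P - (LinearMap.mulLeft K u ∘ₗ P0 ∘ₗ co 0 +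
    LinearMap.mulLeft K v ∘ₗ Th1 a ∘ₗ P ∘ₗ Ym) with hDd
  have hDa : ∀ w, D w = co 0 (nat P w) - (u * P0 (co 0 w) + v * Th1 a (P (Ym w))) := fun w => rfl
  have hDT : ∀ k w, D (T k w) = hk al (al - 1) a k (D w) := by
    intro k w
    rw [hDa, hDa, hCN.tk, (hT k).co, (hT k).co, hP.Pk, Ym_T hT,
      comm_nat_tk al_ne_zero hT hCP.lx hCP.tk, nat_Th1 (hT k), map_sub, map_add,
      hk_par (Md_Gp hu), hk_par (Md_Gp hv)]
  have hDC : ∀ g ∈ Gp K a, ∀ w, D (Polynomial.C g * w) = g * D w := by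
    intro g hg w
    rw [hDa, hDa, hCN.par g hg, hco, hco, lin_Gp hP.P2 hg, Ym_C_mul, hCP.par g hg, Th1_C_mul]
    ring
  have hcoC : ∀ (j : ℕ) (g : AA K L), g ∈ Gp K a → ∀ w : VV K L,
      (LX al (al - 1) a ^ j : Module.End K (VV K L)) (Polynomial.C g * w)
      = Polynomial.C g * (LX al (al - 1) a ^ j : Module.End K (VV K L)) w := by
    intro j g hg w
    have h1 : ∀ u, LinearMap.mulLeft K (Polynomial.C g) (LX al (al - 1) a u)
        = LX al (al - 1) a (LinearMap.mulLeft K (Polynomial.C g) u) := by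
      intro u
      rw [LinearMap.mulLeft_apply, LinearMap.mulLeft_apply, LX_C_mul, Md_Gp hg, zero_mul, add_zero]
    exact (pow_comm_of h1 j w).symm
  have hDe : ∀ n j, D ((LX al (al - 1) a ^ j : Module.End K (VV K L))
      (mo 0 (vv al a (r1 K L) n))) = 0 := by
    intro n j
    have e1 := nat_P_e al_ne_zero (fun i => Md_Gp (hr i)) (iw_zero u v) hP.lift hP.Pe n
    rw [hDa, pow_comm_of hCN.lx, e1, ← hk_apply, Ym_pow hT, hP.Pk, hP.Pe,
      comm_Rj al_ne_zero hT hCP.lx hCP.tk]
    cases n with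
    | zero =>
      rw [coeff_ve_iw_zero, vv_zero, vv_zero, Derivation.map_one_eq_zero, map_zero, map_zero,
        map_zero, map_zero, mul_zero, add_zero, hcoC j u hu, hco, ← hk_apply, sub_self]
    | succ n =>
      rw [coeff_ve_iw, map_add, hcoC j u hu, hcoC j v hv, map_add, hco, hco, ← hk_apply,
        co_pow_Yp hT, Ym_Md_r1 al_ne_zero, hP.lift.mo, hP.Pe, sub_self]
  have hZ : ∀ O, OI al (al - 1) a T ⊤ (r1 K L) O → ∀ w,
      (∀ j, D ((LX al (al - 1) a ^ j : Module.End K (VV K L)) w) = 0) →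
      ∀ j, D ((LX al (al - 1) a ^ j : Module.End K (VV K L)) (O w)) = 0 := by
    intro O hO
    induction hO with
    | lx =>
      intro w hw j
      have h1 := hw (j + 1)
      rw [pow_succ, Module.End.mul_apply] at h1
      exact h1
    | tk k =>
      intro w hw j
      rw [← pow_comm_of (hT k).lx, hDT, hw, map_zero]
    | sc s _ =>
      intro w hw j
      have hs : (C s : AA K L) ∈ Gp K a := (Gp K a).algebraMap_mem s
      rw [LinearMap.mulLeft_apply, hcoC j _ hs, hDC _ hs, hw, mul_zero]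
    | pr i =>
      intro w hw j
      rw [LinearMap.mulLeft_apply, hcoC j _ (r1_Gp i), hDC _ (r1_Gp i), hw, mul_zero]
    | add O O' _ _ ih ih' =>
      intro w hw j
      rw [LinearMap.add_apply, map_add, map_add, ih w hw, ih' w hw, add_zero]
    | comp O O' _ _ ih ih' =>
      intro w hw j
      rw [LinearMap.comp_apply]
      exact ih _ (ih' w hw) j
  have key : ∀ (k : ℕ) (f : AA K L), D (mo k f) = 0 := by
    intro k f
    refine (LinearMap.mem_ker (f := D ∘ₗ mo k)).1
      (pm_ind (a := a) (LinearMap.ker (D ∘ₗ mo k)).toAddSubgroup ?_ ?_ f)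
    · intro c lam hl
      rw [Submodule.mem_toAddSubgroup, LinearMap.mem_ker, LinearMap.comp_apply]
      obtain ⟨O, hO, h2⟩ := exists_OI al_ne_zero hT hc k c lam hl
      have h3 := hZ O hO _ (hDe (lam.sum + k)) 0
      rw [pow_zero, Module.End.one_apply, h2] at h3
      exact h3
    · intro v hv f hf
      rw [Submodule.mem_toAddSubgroup, LinearMap.mem_ker, LinearMap.comp_apply] at hf ⊢
      rw [← C_mul_mo, hDC _ (Gp_X hv), hf, mul_zero]
  have h3 : D w = 0 := by
    induction w using Polynomial.induction_on' with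
    | add p q hp hq => rw [map_add, hp, hq, add_zero]
    | monomial m f => exact key m f
  rw [hDa, sub_eq_zero] at h3
  exact h3

end Iw

end Pool.Agent.JackB
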