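import Pool.Agent.Lib.JackB.Inv1

/-!
The series for the parameters `0, v, 0, 0, …` and `0, w, 0, 0, …` (problem MP_b52a9f_co).
-/

open MvPolynomial

namespace Pool.Agent.JackB

section Ders

variable {L : Type*} [DecidableEq L]

/-- The derivation `∑ p_(i+1) α i ∂_i`. -/
noncomputable def Dp (a : L) : Derivation K (AA K L) (AA K L) :=
  Derivation.mk' (Th1 a ∘ₗ (Md al a).toLinearMap) fun f g => by
    show Th1 a (Md al a (f * g)) = f • Th1 a (Md al a g) + g • Th1 a (Md al a f)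
    rw [Derivation.leibniz, map_add, Polynomial.smul_eq_C_mul, Polynomial.smul_eq_C_mul,
      Th1_C_mul, Th1_C_mul]
    rfl

/-- The derivation `∑ p_(i-1) α i ∂_i`. -/
noncomputable def Em (a : L) : Derivation K (AA K L) (AA K L) :=
  Derivation.mk' (Th1 a ∘ₗ Ym ∘ₗ Ym ∘ₗ (Md al a).toLinearMap) fun f g => by
    show Th1 a (Ym (Ym (Md al a (f * g))))
      = f • Th1 a (Ym (Ym (Md al a g))) + g • Th1 a (Ym (Ym (Md al a f)))
    rw [Derivation.leibniz, map_add, map_add, map_add, Polynomial.smul_eq_C_mul,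
      Polynomial.smul_eq_C_mul, Ym_C_mul, Ym_C_mul, Ym_C_mul, Ym_C_mul, Th1_C_mul, Th1_C_mul]
    rfl

/-- The derivation `α j ∂_j`. -/
noncomputable def dj (a : L) (j : ℕ) : Derivation K (AA K L) (AA K L) :=
  (al * (j : K)) • pderiv (a, j)

theorem Dp_apply (a : L) (f : AA K L) : Dp a f = Th1 a (Md al a f) := rfl

theorem Em_apply (a : L) (f : AA K L) : Em a f = Th1 a (Ym (Ym (Md al a f))) := rfl

theorem dj_apply (a : L) (j : ℕ) (f : AA K L) : dj a j f = co j (Md al a f) := by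
  rw [coeff_Md, dj, Derivation.smul_apply, smul_eq_C_mul]

omit [DecidableEq L] in
theorem dj_zero (a : L) : dj a 0 = 0 := by
  rw [dj, Nat.cast_zero, mul_zero, zero_smul]

theorem Md_X' (a : L) (k : ℕ) : Md al a (X (a, k)) = (al * (k : K)) • (mo k 1 : VV K L) := by
  rw [Md_X, mo_apply, Polynomial.monomial_one_right_eq_X_pow]

theorem Dp_X (a : L) (k : ℕ) : Dp a (X (a, k)) = (al * (k : K)) • X (a, k + 1) := by
  rw [Dp_apply, Md_X', map_smul, Th1_mo, mul_one]

theorem Em_X (a : L) (k : ℕ) :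
    Em a (X (a, k + 2)) = (al * ((k + 2 : ℕ) : K)) • X (a, k + 1) := by
  rw [Em_apply, Md_X', map_smul, map_smul, map_smul, Ym_mo_succ, Ym_mo_succ, Th1_mo, mul_one]

theorem Em_X_one (a : L) : Em a (X (a, 1)) = 0 := by
  rw [Em_apply, Md_X', map_smul, map_smul, map_smul, Ym_mo_succ, Ym_mo_zero, map_zero, smul_zero]

theorem Em_X_zero (a : L) : Em a (X (a, 0)) = 0 := by
  rw [Em_apply, Md_X', Nat.cast_zero, mul_zero, zero_smul, map_zero, map_zero, map_zero]

theorem Dp_Gp {a : L} {g : AA K L} (hg : g ∈ Gp K a) : Dp a g = 0 := by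
  rw [Dp_apply, Md_Gp hg, map_zero]

theorem Em_Gp {a : L} {g : AA K L} (hg : g ∈ Gp K a) : Em a g = 0 := by
  rw [Em_apply, Md_Gp hg, map_zero, map_zero, map_zero]

theorem dj_Gp {a : L} (j : ℕ) {g : AA K L} (hg : g ∈ Gp K a) : dj a j g = 0 := by
  rw [dj_apply, Md_Gp hg, map_zero]

theorem dj_X (a : L) (j i : ℕ) :
    dj a j (X (a, i)) = if i = j then C (al * (j : K)) else 0 := by
  rw [dj_apply, Md_X', map_smul, co_mo]
  split_ifs with h
  · rw [h, smul_eq_C_mul, mul_one]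
  · rw [smul_zero]

theorem der_ext_a {a : L} {D D' : Derivation K (AA K L) (AA K L)}
    (h : ∀ i, D (X (a, i)) = D' (X (a, i))) (h' : ∀ v : L × ℕ, v.1 ≠ a → D (X v) = D' (X v)) :
    D = D' := by
  refine MvPolynomial.derivation_ext fun v => ?_
  by_cases hv : v.1 = a
  · obtain ⟨c, i⟩ := v
    obtain rfl : c = a := hv
    exact h i
  · exact h' v hv

omit [DecidableEq L] in
theorem X_Gp' {a : L} {v : L × ℕ} (hv : v.1 ≠ a) : (X v : AA K L) ∈ Gp K a :=
  Gp_X fun h => absurd h hv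

theorem comm_Em (a : L) (j : ℕ) (hj : 1 ≤ j) (f : AA K L) :
    dj a j (Em a f) - Em a (dj a j f) = C (al * (j : K)) * dj a (j + 1) f := by
  have h : ⁅dj a j, Em a⁆ = (al * (j : K)) • dj a (j + 1) := by
    refine der_ext_a (a := a) (fun i => ?_) fun v hv => ?_
    · rw [Derivation.commutator_apply, Derivation.smul_apply, dj_X, dj_X]
      have e1 : Em a (if i = j then C (al * (j : K)) else 0 : AA K L) = 0 := by
        split_ifs
        · exact derivation_C _ _
        · exact map_zero _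
      rw [e1, sub_zero]
      rcases i with _ | _ | i
      · rw [Em_X_zero, map_zero, if_neg (by omega), smul_zero]
      · rw [Em_X_one, map_zero, if_neg (by omega), smul_zero]
      · rw [Em_X, Derivation.map_smul, dj_X]
        by_cases h1 : i + 1 = j
        · rw [if_pos h1, if_pos (by omega), ← h1, smul_eq_C_mul, smul_eq_C_mul, mul_comm]
        · rw [if_neg h1, if_neg (by omega), smul_zero, smul_zero]
    · rw [Derivation.commutator_apply, Derivation.smul_apply, Em_Gp (X_Gp' hv),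
        dj_Gp _ (X_Gp' hv), dj_Gp _ (X_Gp' hv), map_zero, map_zero, sub_zero, smul_zero]
  have h2 := DFunLike.congr_fun h f
  rw [Derivation.commutator_apply, Derivation.smul_apply, smul_eq_C_mul] at h2
  exact h2

theorem comm_Dp (a : L) (j : ℕ) (f : AA K L) :
    dj a (j + 1) (Dp a f) - Dp a (dj a (j + 1) f)
      = C (al * ((j + 1 : ℕ) : K)) * dj a j f := by
  have h : ⁅dj a (j + 1), Dp a⁆ = (al * ((j + 1 : ℕ) : K)) • dj a j := by
    refine der_ext_a (a := a) (fun i => ?_) fun v hv => ?_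
    · rw [Derivation.commutator_apply, Derivation.smul_apply, dj_X, dj_X]
      have e1 : Dp a (if i = j + 1 then C (al * ((j + 1 : ℕ) : K)) else 0 : AA K L) = 0 := by
        split_ifs
        · exact derivation_C _ _
        · exact map_zero _
      rw [e1, sub_zero, Dp_X, Derivation.map_smul, dj_X]
      by_cases h1 : i = j
      · rw [if_pos (by omega), if_pos h1, h1, smul_eq_C_mul, smul_eq_C_mul, mul_comm]
      · rw [if_neg (by omega), if_neg h1, smul_zero, smul_zero]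
    · rw [Derivation.commutator_apply, Derivation.smul_apply, Dp_Gp (X_Gp' hv),
        dj_Gp _ (X_Gp' hv), dj_Gp _ (X_Gp' hv), map_zero, map_zero, sub_zero, smul_zero]
  have h2 := DFunLike.congr_fun h f
  rw [Derivation.commutator_apply, Derivation.smul_apply, smul_eq_C_mul] at h2
  exact h2

end Ders

section Eqs

variable {J : Fam} {L : Type*} [DecidableEq L] {a : L}
  {P0 : AA K L →ₗ[K] AA K L} {P : VV K L →ₗ[K] VV K L}

theorem Md_iw {w : AA K L} (hw : w ∈ Gp K a) (n : ℕ) :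
    Md al a (vv al a (iw 0 w) (n + 2)) = mo 2 (w * vv al a (iw 0 w) n) := by
  have hr := iw_Gp (Gp K a).zero_mem hw
  have h2 := congrArg (PowerSeries.coeff (n + 2)) (Md_vv al_ne_zero (fun i => Md_Gp (hr i))
    (iw_zero 0 w))
  rw [coeff_tl, PowerSeries.coeff_mk, PowerSeries.coeff_mul, Finset.sum_eq_single (2, n)] at h2
  · rw [coeff_tl, PowerSeries.coeff_mk, YY, PowerSeries.coeff_mk, iw_two, mo_zero_eq, mul_comm,
      C_mul_mo, mul_comm] at h2
    exact h2
  · intro p hp hpn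
    rw [Finset.HasAntidiagonal.mem_antidiagonal] at hp
    have h3 : iw (0 : AA K L) w p.1 = 0 := by
      unfold iw
      split_ifs with h4 h5
      · rfl
      · exact absurd (Prod.ext h5 (by show p.2 = n; omega)) hpn
      · rfl
    rw [YY, PowerSeries.coeff_mk, h3, map_zero, zero_mul]
  · intro h
    exact absurd (Finset.HasAntidiagonal.mem_antidiagonal.2 (add_comm 2 n)) h

theorem Md_iw_small {w : AA K L} (hw : w ∈ Gp K a) {n : ℕ} (hn : n < 2) :
    Md al a (vv al a (iw 0 w) n) = 0 := by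
  have hr := iw_Gp (Gp K a).zero_mem hw
  have h2 := congrArg (PowerSeries.coeff n) (Md_vv al_ne_zero (fun i => Md_Gp (hr i))
    (iw_zero 0 w))
  rw [coeff_tl, PowerSeries.coeff_mk, PowerSeries.coeff_mul, Finset.sum_eq_zero] at h2
  · exact h2
  · intro p hp
    rw [Finset.HasAntidiagonal.mem_antidiagonal] at hp
    have h3 : iw (0 : AA K L) w p.1 = 0 := by
      unfold iw
      split_ifs with h4 h5
      · rfl
      · omega
      · rfl
    rw [YY, PowerSeries.coeff_mk, h3, map_zero, zero_mul]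

variable {v w : AA K L}

theorem Md_P0 (hP : IsP J a (iw 0 v) P0 P) (f : AA K L) : Md al a (P0 f) = P (Md al a f) := by
  rw [← LX_zero al (al - 1) a f, hP.lift.lx, hP.lift.mo, LX_zero]

theorem T_small (hJ : JOK J) (hw : w ∈ Gp K a)
    (hP : IsP J a (iw 0 v) P0 P) {n : ℕ} (hn : n < 2) :
    Md al a (tq J a (iw 0 v) (iw 0 w) n) = 0 := by
  rw [← hP.tq hJ (iw_Gp (Gp K a).zero_mem hw), Md_P0 hP, Md_iw_small hw hn, map_zero]

theorem T_succ (hJ : JOK J) (hw : w ∈ Gp K a)
    (hP : IsP J a (iw 0 v) P0 P) (n : ℕ) :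
    Ym (Md al a (tq J a (iw 0 v) (iw 0 w) (n + 2)))
      = Polynomial.C w * nat P (Yp (mo 0 (vv al a (iw 0 w) n))) := by
  have hpar : ∀ g ∈ Gp K a, ∀ u, P (Polynomial.C g * u) = Polynomial.C g * P u :=
    fun g hg u => hP.lift.par al_ne_zero (Md_Gp hg) (lin_Gp hP.P2 hg) u
  rw [← hP.tq hJ (iw_Gp (Gp K a).zero_mem hw), Md_P0 hP, Md_iw hw, ← C_mul_mo, hpar w hw,
    Ym_C_mul, nat_apply, Yp_mo, Yp_mo]

/-- The first equation. -/
theorem eq_one_iw (hJ : JOK J) (hE : Eig J a) (hv : v ∈ Gp K a) (hw : w ∈ Gp K a)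
    (hP : IsP J a (iw 0 v) P0 P) (n : ℕ) :
    dj a 1 (tq J a (iw 0 v) (iw 0 w) (n + 2))
      = v * w * X (a, 1) * tq J a (iw 0 v) (iw 0 w) n := by
  have h0 : ∀ u : VV K L, co 1 u = co 0 (Ym u) := fun u => by
    show _ = (Polynomial.divX u).coeff 0
    rw [Polynomial.coeff_divX]
    rfl
  have hco : ∀ (g : AA K L) (w : VV K L), co 0 (Polynomial.C g * w) = g * co 0 w := by
    intro g w
    rw [co_apply, co_apply, Polynomial.coeff_C_mul]
  rw [dj_apply, h0, T_succ hJ hw hP, hco, adj hJ hE (Gp K a).zero_mem hv hP, zero_mul, zero_add,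
    Ym_Yp, hP.lift.mo, hP.tq hJ (iw_Gp (Gp K a).zero_mem hw), Th1_mo]
  ring

/-- The second equation. -/
theorem eq_two_iw (hJ : JOK J) (hE : Eig J a) (hv : v ∈ Gp K a) (hw : w ∈ Gp K a)
    (hP : IsP J a (iw 0 v) P0 P) (n : ℕ) :
    Em a (tq J a (iw 0 v) (iw 0 w) (n + 2))
      = v * w * (Dp a (tq J a (iw 0 v) (iw 0 w) n) +
        C (al - 1) * X (a, 1) * tq J a (iw 0 v) (iw 0 w) n) := by
  rw [Em_apply, T_succ hJ hw hP, Ym_C_mul, Th1_C_mul, ← co_zero_LX al (al - 1) a,
    ← nat_LX hP.lift, LX_Yp, adj hJ hE (Gp K a).zero_mem hv hP, zero_mul, zero_add, map_add,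
    Ym_Yp, Ym_mo_zero, add_zero, map_add, map_smul, hP.lift.lx, hP.lift.mo,
    hP.tq hJ (iw_Gp (Gp K a).zero_mem hw), LX_zero, map_add, map_smul, Th1_mo, Dp_apply,
    smul_eq_C_mul]
  ring

end Eqs

end Pool.Agent.JackB
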