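import Pool.Agent.Lib.JackB.Inv2

/-!
The logarithm for the parameters `u, v, 0, 0, …` in two alphabets (problem MP_b52a9f_co).
-/

open MvPolynomial

namespace Pool.Agent.JackB

section Aux

variable {L : Type*}

theorem dd_Cc (d : Derivation K (AA K L) (AA K L)) (y : AA K L) :
    dd d (PowerSeries.C y) = PowerSeries.C (d y) := by
  ext1 n
  rw [coeff_dd, PowerSeries.coeff_C, PowerSeries.coeff_C]
  split_ifs
  · rfl
  · exact map_zero _

/-- The series variable squared times a constant. -/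
noncomputable def Uu (g : AA K L) : PowerSeries (AA K L) :=
  PowerSeries.X * (PowerSeries.X * PowerSeries.C g)

theorem coeff_Uu_succ (g : AA K L) (F : PowerSeries (AA K L)) (n : ℕ) :
    PowerSeries.coeff (n + 2) (Uu g * F) = g * PowerSeries.coeff n F := by
  rw [Uu, mul_assoc, mul_assoc, PowerSeries.coeff_succ_X_mul, PowerSeries.coeff_succ_X_mul,
    PowerSeries.coeff_C_mul]

theorem coeff_Uu_small (g : AA K L) (F : PowerSeries (AA K L)) {n : ℕ} (hn : n < 2) :
    PowerSeries.coeff n (Uu g * F) = 0 := by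
  rw [Uu, mul_assoc, mul_assoc]
  rcases n with _ | _ | n
  · rw [PowerSeries.coeff_zero_X_mul]
  · rw [PowerSeries.coeff_succ_X_mul, PowerSeries.coeff_zero_X_mul]
  · omega

theorem dd_Uu {d : Derivation K (AA K L) (AA K L)} {g : AA K L} (hd : d g = 0)
    (F : PowerSeries (AA K L)) : dd d (Uu g * F) = Uu g * dd d F := by
  rw [Uu, mul_assoc, mul_assoc, dd_X_mul, dd_X_mul, dd_C_mul d g hd]
  ring

theorem dd_Uu_pow {d : Derivation K (AA K L) (AA K L)} {g : AA K L} (hd : d g = 0) (j : ℕ)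
    (F : PowerSeries (AA K L)) : dd d (Uu g ^ j * F) = Uu g ^ j * dd d F := by
  induction j with
  | zero => rw [pow_zero, one_mul, one_mul]
  | succ j ih => rw [pow_succ', mul_assoc, mul_assoc, dd_Uu hd, ih]

/-- The part of the derivatives without power sums. -/
noncomputable def bt (g : AA K L) : ℕ → PowerSeries (AA K L)
  | 0 => PowerSeries.C (C (al - 1))
  | 1 => 0
  | j + 2 => Uu g * bt g j

theorem dd_bt {d : Derivation K (AA K L) (AA K L)} {g : AA K L} (hd : d g = 0) (j : ℕ) :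
    dd d (bt g j) = 0 := by
  have h : ∀ j, dd d (bt g j) = 0 ∧ dd d (bt g (j + 1)) = 0 := by
    intro j
    induction j with
    | zero =>
      constructor
      · rw [bt, dd_Cc, derivation_C, map_zero]
      · rw [bt]
        ext1 n
        rw [coeff_dd, map_zero, map_zero]
    | succ j ih => exact ⟨ih.2, by rw [bt, dd_Uu hd, ih.1, mul_zero]⟩
  exact (h j).1

variable [DecidableEq L] {a : L}

theorem dd_comm_Em (j : ℕ) (hj : 1 ≤ j) (F : PowerSeries (AA K L)) :
    dd (dj a j) (dd (Em a) F) - dd (Em a) (dd (dj a j) F)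
      = PowerSeries.C (C (al * (j : K))) * dd (dj a (j + 1)) F := by
  ext1 n
  rw [map_sub, PowerSeries.coeff_C_mul, coeff_dd, coeff_dd, coeff_dd, coeff_dd, coeff_dd,
    comm_Em a j hj]

theorem dd_comm_Dp (j : ℕ) (F : PowerSeries (AA K L)) :
    dd (dj a (j + 1)) (dd (Dp a) F) - dd (Dp a) (dd (dj a (j + 1)) F)
      = PowerSeries.C (C (al * ((j + 1 : ℕ) : K))) * dd (dj a j) F := by
  ext1 n
  rw [map_sub, PowerSeries.coeff_C_mul, coeff_dd, coeff_dd, coeff_dd, coeff_dd, coeff_dd,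
    comm_Dp a j]

end Aux

section Ser

variable {J : Fam} {L : Type*} [DecidableEq L] {a : L} {v w : AA K L}

theorem ser_one (hJ : JOK J) (hE : Eig J a) (hv : v ∈ Gp K a) (hw : w ∈ Gp K a) :
    dd (dj a 1) (PowerSeries.mk (tq J a (iw 0 v) (iw 0 w)))
      = Uu (v * w) * (PowerSeries.C (X (a, 1)) *
        PowerSeries.mk (tq J a (iw 0 v) (iw 0 w))) := by
  obtain ⟨P0, P, hP⟩ := exists_isP hJ hE (iw_Gp (Gp K a).zero_mem hv)
  ext1 n
  rcases Nat.lt_or_ge n 2 with hn | hn
  · rw [coeff_Uu_small _ _ hn, coeff_dd, PowerSeries.coeff_mk, dj_apply, T_small hJ hw hP hn,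
      map_zero]
  · obtain ⟨n, rfl⟩ := Nat.exists_eq_add_of_le' hn
    rw [coeff_Uu_succ, coeff_dd, PowerSeries.coeff_mk, eq_one_iw hJ hE hv hw hP,
      PowerSeries.coeff_C_mul, PowerSeries.coeff_mk]
    ring

theorem ser_two (hJ : JOK J) (hE : Eig J a) (hv : v ∈ Gp K a) (hw : w ∈ Gp K a) :
    dd (Em a) (PowerSeries.mk (tq J a (iw 0 v) (iw 0 w)))
      = Uu (v * w) * (dd (Dp a) (PowerSeries.mk (tq J a (iw 0 v) (iw 0 w))) +
        PowerSeries.C (C (al - 1) * X (a, 1)) *
          PowerSeries.mk (tq J a (iw 0 v) (iw 0 w))) := by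
  obtain ⟨P0, P, hP⟩ := exists_isP hJ hE (iw_Gp (Gp K a).zero_mem hv)
  ext1 n
  rcases Nat.lt_or_ge n 2 with hn | hn
  · rw [coeff_Uu_small _ _ hn, coeff_dd, PowerSeries.coeff_mk, Em_apply, T_small hJ hw hP hn,
      map_zero, map_zero, map_zero]
  · obtain ⟨n, rfl⟩ := Nat.exists_eq_add_of_le' hn
    rw [coeff_Uu_succ, coeff_dd, PowerSeries.coeff_mk, eq_two_iw hJ hE hv hw hP, map_add,
      coeff_dd, PowerSeries.coeff_C_mul, PowerSeries.coeff_mk]

/-- The derivatives of the series. -/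
theorem ser_all (hJ : JOK J) (hE : Eig J a) (hv : v ∈ Gp K a) (hw : w ∈ Gp K a) (j : ℕ) :
    dd (dj a (j + 1)) (PowerSeries.mk (tq J a (iw 0 v) (iw 0 w)))
      = (Uu (v * w) ^ (j + 1) * PowerSeries.C (X (a, j + 1)) + bt (v * w) (j + 1)) *
        PowerSeries.mk (tq J a (iw 0 v) (iw 0 w)) := by
  have h1 := ser_one hJ hE hv hw
  have h2 := ser_two hJ hE hv hw
  set T := PowerSeries.mk (tq J a (iw 0 v) (iw 0 w)) with hT
  have hg : v * w ∈ Gp K a := (Gp K a).mul_mem hv hw
  have hne : ∀ j : ℕ, (PowerSeries.C (C (al * ((j + 1 : ℕ) : K))) : PowerSeries (AA K L)) ≠ 0 := by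
    intro j h
    have h3 := congrArg (PowerSeries.coeff 0) h
    rw [PowerSeries.coeff_zero_C, map_zero, C_eq_zero] at h3
    exact mul_ne_zero al_ne_zero (Nat.cast_ne_zero.2 (Nat.succ_ne_zero j)) h3
  have hdX : ∀ j i : ℕ, dd (dj a j) (PowerSeries.C (X (a, i)))
      = PowerSeries.C (if i = j then C (al * (j : K)) else 0) := by
    intro j i
    rw [dd_Cc, dj_X]
  -- the derivative of the second equation
  have key : ∀ j, PowerSeries.C (C (al * ((j + 1 : ℕ) : K))) * dd (dj a (j + 2)) T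
      = Uu (v * w) * (dd (Dp a) (dd (dj a (j + 1)) T) +
        PowerSeries.C (C (al * ((j + 1 : ℕ) : K))) * dd (dj a j) T +
        (PowerSeries.C (C (al - 1) * if 1 = j + 1 then C (al * ((j + 1 : ℕ) : K)) else 0) * T +
        PowerSeries.C (C (al - 1) * X (a, 1)) * dd (dj a (j + 1)) T)) -
        dd (Em a) (dd (dj a (j + 1)) T) := by
    intro j
    have e1 := dd_comm_Em (a := a) (j + 1) (by omega) T
    have e2 := dd_comm_Dp (a := a) j T
    have e3 : dd (dj a (j + 1)) (PowerSeries.C (C (al - 1) * X (a, 1)) : PowerSeries (AA K L))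
        = PowerSeries.C (C (al - 1) * if 1 = j + 1 then C (al * ((j + 1 : ℕ) : K)) else 0) := by
      rw [dd_Cc, Derivation.leibniz, derivation_C, smul_zero, add_zero, dj_X, smul_eq_mul]
    rw [h2, dd_Uu (dj_Gp _ hg), dd_add, dd_mul, e3] at e1
    linear_combination (-1 : PowerSeries (AA K L)) * e1 + Uu (v * w) * e2
  have hS : ∀ j, dd (dj a (j + 1)) T
      = (Uu (v * w) ^ (j + 1) * PowerSeries.C (X (a, j + 1)) + bt (v * w) (j + 1)) * T ∧
      dd (dj a (j + 2)) T
      = (Uu (v * w) ^ (j + 2) * PowerSeries.C (X (a, j + 2)) + bt (v * w) (j + 2)) * T := by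
    intro j
    have hDG : ∀ j : ℕ, dd (Dp a) (Uu (v * w) ^ (j + 1) * PowerSeries.C (X (a, j + 1)) +
        bt (v * w) (j + 1)) = Uu (v * w) ^ (j + 1) * (PowerSeries.C (C (al * ((j + 1 : ℕ) : K))) *
          PowerSeries.C (X (a, j + 2))) := by
      intro j
      rw [dd_add, dd_bt (Dp_Gp hg), add_zero, dd_Uu_pow (Dp_Gp hg), dd_Cc, Dp_X, smul_eq_C_mul,
        map_mul]
    induction j with
    | zero =>
      have e0 : dd (dj a 1) T
          = (Uu (v * w) ^ 1 * PowerSeries.C (X (a, 1)) + bt (v * w) 1) * T := by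
        rw [h1, bt, add_zero, pow_one, mul_assoc]
      refine ⟨e0, ?_⟩
      have e1 := key 0
      have hEG : dd (Em a) (Uu (v * w) ^ 1 * PowerSeries.C (X (a, 1)) + bt (v * w) 1) = 0 := by
        rw [dd_add, dd_bt (Em_Gp hg), add_zero, dd_Uu_pow (Em_Gp hg), dd_Cc, Em_X_one, map_zero,
          mul_zero]
      have hz : dd (dj a 0) T = 0 := by
        ext1 n
        rw [coeff_dd, dj_zero, Derivation.zero_apply, map_zero]
      rw [e0, dd_mul, dd_mul, hEG, hDG 0, hz, h2, if_pos rfl] at e1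
      refine mul_left_cancel₀ (hne 0) ?_
      have e4 : bt (v * w) (0 + 2) = Uu (v * w) * PowerSeries.C (C (al - 1)) := rfl
      have e5 : bt (v * w) 1 = 0 := rfl
      rw [e5] at e1
      rw [zero_add] at e1 e4 ⊢
      rw [e1, e4]
      simp only [map_mul]
      ring
    | succ j ih =>
      refine ⟨ih.2, ?_⟩
      have e1 := key (j + 1)
      have hEG : dd (Em a) (Uu (v * w) ^ (j + 2) * PowerSeries.C (X (a, j + 2)) +
          bt (v * w) (j + 2)) = Uu (v * w) ^ (j + 2) * (PowerSeries.C (C (al * ((j + 2 : ℕ) : K))) *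
            PowerSeries.C (X (a, j + 1))) := by
        rw [dd_add, dd_bt (Em_Gp hg), add_zero, dd_Uu_pow (Em_Gp hg), dd_Cc, Em_X, smul_eq_C_mul,
          map_mul]
      have e2 : dd (dj a (j + 1 + 1)) T = _ := ih.2
      have hDG2 := hDG (j + 1)
      rw [e2, dd_mul, dd_mul, hEG, hDG2, ih.1, h2, if_neg (by omega)] at e1
      refine mul_left_cancel₀ (hne (j + 1)) ?_
      rw [e1]
      have e3 : bt (v * w) (j + 1 + 2) = Uu (v * w) * bt (v * w) (j + 1) := rfl
      rw [e3]
      simp only [mul_zero, map_zero, zero_mul, zero_add]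
      ring
  exact (hS j).1

end Ser

section Pos

variable {J : Fam} {L : Type*} [DecidableEq L] {a : L} {v w : AA K L} {S : Subsemiring K}

omit [DecidableEq L] in
theorem bt_PP (hb : al - 1 ∈ S) {g : AA K L} (hg : g ∈ PS S L) (j : ℕ) : bt g j ∈ PP S L := by
  have hU : Uu g ∈ PP S L := (PP S L).mul_mem X_PP ((PP S L).mul_mem X_PP (C_PP hg))
  have h : ∀ j, bt g j ∈ PP S L ∧ bt g (j + 1) ∈ PP S L := by
    intro j
    induction j with
    | zero => exact ⟨C_PP (C_PS hb), (PP S L).zero_mem⟩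
    | succ j ih => exact ⟨ih.2, (PP S L).mul_mem hU ih.1⟩
  exact (h j).1

/-- Positivity of the derivatives of the logarithm. -/
theorem inv_log_zero (hJ : JOK J) (hE : Eig J a) (hv : v ∈ Gp K a) (hw : w ∈ Gp K a)
    (hb : al - 1 ∈ S) (hvS : v ∈ PS S L) (hwS : w ∈ PS S L) {W : PowerSeries (AA K L)}
    (hW : IsLog (C al) (PowerSeries.mk (tq J a (iw 0 v) (iw 0 w))) W) (j n : ℕ) :
    C ((j + 1 : ℕ) : K) * pderiv (a, j + 1) (PowerSeries.coeff n W) ∈ PS S L := by
  have h1 := ser_all hJ hE hv hw j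
  set T := PowerSeries.mk (tq J a (iw 0 v) (iw 0 w)) with hT
  have hC : (C al : AA K L) ≠ 0 := by
    rw [Ne, C_eq_zero]
    exact al_ne_zero
  have h2 := hW.dd_eq (pderiv (R := K) (a, j + 1)) hC pderiv_C
  have h3 : dd (dj a (j + 1)) T = PowerSeries.C (C ((j + 1 : ℕ) : K)) *
      (PowerSeries.C (C al) * dd (pderiv (R := K) (a, j + 1)) T) := by
    ext1 m
    rw [coeff_dd, PowerSeries.coeff_C_mul, PowerSeries.coeff_C_mul, coeff_dd, dj,
      Derivation.smul_apply, smul_eq_C_mul, ← mul_assoc, ← C_mul, mul_comm al]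
  rw [h2, h1, mul_comm, mul_left_comm] at h3
  have h4 := mul_left_cancel₀ (ne_zero_of_one hW.one) h3
  have h5 := congrArg (PowerSeries.coeff n) h4
  rw [PowerSeries.coeff_C_mul, coeff_dd] at h5
  rw [← h5]
  have hg : v * w ∈ PS S L := (PS S L).mul_mem hvS hwS
  have hU : Uu (v * w) ∈ PP S L := (PP S L).mul_mem X_PP ((PP S L).mul_mem X_PP (C_PP hg))
  exact (PP S L).add_mem ((PP S L).mul_mem ((PP S L).pow_mem hU _) (C_PP (X_PS _)))
    (bt_PP hb hg _) n

/-- Positivity of the derivatives with respect to the parameters. -/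
theorem inv_der (hJ : JOK J) (hE : Eig J a) {p : L} (hpa : p ≠ a) {u v u' v' : AA K L}
    (hu : u ∈ Gp K a) (hv : v ∈ Gp K a) (hu' : u' ∈ Gp K a) (hv' : v' ∈ Gp K a)
    (huS : u ∈ PS S L) (hvS : v ∈ PS S L) (huS' : u' ∈ PS S L) (hvS' : v' ∈ PS S L)
    (h1 : ∀ i, pderiv (p, 1) (iw u v i) = if i = 1 then 1 else 0)
    (h2 : ∀ i, pderiv (p, 1) (iw u' v' i) = 0) {W : PowerSeries (AA K L)}
    (hW : IsLog (C al) (PowerSeries.mk (tq J a (iw u v) (iw u' v'))) W) (n : ℕ) :
    pderiv (p, 1) (PowerSeries.coeff n W) ∈ PS S L := by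
  have hr := iw_Gp hu hv
  have hq := iw_Gp hu' hv'
  obtain ⟨P0, P, hP⟩ := exists_isP hJ hE hr
  obtain ⟨Q0, Q, hQ⟩ := exists_isP hJ hE hq
  have hsym : PowerSeries.mk (tq J a (iw u' v') (iw u v))
      = PowerSeries.mk (tq J a (iw u v) (iw u' v')) := by
    ext1 n
    rw [PowerSeries.coeff_mk, PowerSeries.coeff_mk, tq_symm]
  have e1 := eq_iw hJ hE hr hu' hv' hP hQ
  have e2 := eq_iw hJ hE hq hu hv hQ hP
  rw [hsym] at e2
  have e3 := eq_der hJ hpa hr hQ h1 h2
  set τ := PowerSeries.mk (tq J a (iw u v) (iw u' v')) with hτ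
  obtain ⟨U, hU⟩ := exists_inv hW.one
  have hC : (C al : AA K L) ≠ 0 := by
    rw [Ne, C_eq_zero]
    exact al_ne_zero
  have hτ0 := ne_zero_of_one hW.one
  have hA : An a (iw u v) Q = tl (mo 0) τ * (U * An a (iw u v) Q) := by
    rw [← mul_assoc, hU, one_mul]
  rw [hW.dd_eq (pderiv (R := K) (p, 1)) hC pderiv_C, hA, tl_Th1_mul, mul_left_comm] at e3
  have e4 := mul_left_cancel₀ hτ0 e3
  set A := U * An a (iw u v) Q with hAd
  set B := U * An a (iw u' v') P with hBd
  have f1 : A = PowerSeries.C (Polynomial.C u') +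
      PowerSeries.X * (PowerSeries.C (Polynomial.C v' * Polynomial.X) * B) := by
    linear_combination U * e1 + PowerSeries.C (Polynomial.C u') * hU
  have f2 : B = PowerSeries.C (Polynomial.C u) +
      PowerSeries.X * (PowerSeries.C (Polynomial.C v * Polynomial.X) * A) := by
    linear_combination U * e2 + PowerSeries.C (Polynomial.C u) * hU
  have hCV : ∀ {g : AA K L}, g ∈ PS S L → (Polynomial.C g : VV K L) ∈ PV S L := by
    intro g hg
    rw [← mo_zero_eq]
    exact mo_PV hg 0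
  have hXV : (Polynomial.X : VV K L) ∈ PV S L := by
    have h1 : (Polynomial.X : VV K L) = mo 1 1 := by
      rw [mo_apply, Polynomial.monomial_one_one_eq_X]
    rw [h1]
    exact mo_PV (PS S L).one_mem 1
  have hCc : ∀ {g : AA K L}, g ∈ PS S L → ∀ n,
      PowerSeries.coeff n (PowerSeries.C (Polynomial.C g : VV K L)) ∈ PV S L := by
    intro g hg n
    rw [PowerSeries.coeff_C]
    split_ifs
    · exact hCV hg
    · exact (PV S L).zero_mem
  have k0 : ∀ {g h : AA K L} {G H : PowerSeries (VV K L)}, g ∈ PS S L →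
      G = PowerSeries.C (Polynomial.C g) +
        PowerSeries.X * (PowerSeries.C (Polynomial.C h * Polynomial.X) * H) →
      PowerSeries.coeff 0 G ∈ PV S L := by
    intro g h G H hg hG
    rw [hG, map_add, PowerSeries.coeff_zero_X_mul, add_zero]
    exact hCc hg 0
  have k1 : ∀ {g h : AA K L} {G H : PowerSeries (VV K L)}, g ∈ PS S L → h ∈ PS S L →
      G = PowerSeries.C (Polynomial.C g) +
        PowerSeries.X * (PowerSeries.C (Polynomial.C h * Polynomial.X) * H) → ∀ n,
      PowerSeries.coeff n H ∈ PV S L → PowerSeries.coeff (n + 1) G ∈ PV S L := by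
    intro g h G H hg hh hG n hH
    rw [hG, map_add, PowerSeries.coeff_succ_X_mul, PowerSeries.coeff_C_mul]
    exact (PV S L).add_mem (hCc hg _) ((PV S L).mul_mem ((PV S L).mul_mem (hCV hh) hXV) hH)
  have key : ∀ n, PowerSeries.coeff n A ∈ PV S L ∧ PowerSeries.coeff n B ∈ PV S L := by
    intro n
    induction n with
    | zero => exact ⟨k0 huS' f1, k0 huS f2⟩
    | succ n ih => exact ⟨k1 huS' hvS' f1 n ih.2, k1 huS hvS f2 n ih.1⟩
  have e5 := congrArg (PowerSeries.coeff n) e4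
  rw [coeff_dd] at e5
  rw [e5]
  cases n with
  | zero =>
    rw [PowerSeries.coeff_zero_X_mul]
    exact (PS S L).zero_mem
  | succ n =>
    rw [PowerSeries.coeff_succ_X_mul, coeff_tl]
    exact Th1_PV (key n).1

end Pos

end Pool.Agent.JackB
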