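import Pool.Agent.Lib.JackB.Inv3

/-!
The substitution for the parameters `e + s, e, e, …` and `u, v, 0, 0, …`
(problem MP_b52a9f_co).
-/

open MvPolynomial

namespace Pool.Agent.JackB

section Geo

variable {L : Type*}

/-- The coefficients of the geometric series in the square of the variable. -/
noncomputable def gc (w : AA K L) : ℕ → AA K L
  | 0 => 1
  | 1 => 0
  | n + 2 => w * gc w n

/-- The geometric series in the square of the variable. -/
noncomputable def gs2 (w : AA K L) : PowerSeries (AA K L) := PowerSeries.mk (gc w)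

theorem gs2_eq (w : AA K L) : gs2 w = 1 + Uu w * gs2 w := by
  ext1 n
  rw [map_add, PowerSeries.coeff_one, gs2, PowerSeries.coeff_mk]
  rcases n with _ | _ | n
  · rw [if_pos rfl, coeff_Uu_small _ _ (by omega), add_zero]
    rfl
  · rw [if_neg (by omega), coeff_Uu_small _ _ (by omega), add_zero]
    rfl
  · rw [if_neg (by omega), coeff_Uu_succ, zero_add, PowerSeries.coeff_mk]
    rfl

theorem gs2_inv (w : AA K L) : (1 - Uu w) * gs2 w = 1 := by
  linear_combination gs2_eq w

theorem zd_Uu (w : AA K L) (G : PowerSeries (AA K L)) :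
    zd (Uu w * G) = 2 * (Uu w * G) + Uu w * zd G := by
  rw [Uu, mul_assoc, mul_assoc, zd_X_mul, zd_X_mul, zd_C_mul]
  ring

theorem zd_gs2 (w : AA K L) : zd (gs2 w) = 2 * (Uu w * (gs2 w * gs2 w)) := by
  have h1 := congrArg zd (gs2_eq w)
  rw [zd_add, zd_one, zd_Uu, zero_add] at h1
  have h2 := gs2_inv w
  linear_combination gs2 w * h1 - zd (gs2 w) * h2

theorem dd_Uu' (d : Derivation K (AA K L) (AA K L)) (w : AA K L) (G : PowerSeries (AA K L)) :
    dd d (Uu w * G) = Uu (d w) * G + Uu w * dd d G := by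
  rw [Uu, Uu, mul_assoc, mul_assoc, dd_X_mul, dd_X_mul, dd_mul, dd_Cc]
  ring

theorem dd_gs2 (d : Derivation K (AA K L) (AA K L)) (w : AA K L) :
    dd d (gs2 w) = Uu (d w) * (gs2 w * gs2 w) := by
  have h1 := congrArg (dd d) (gs2_eq w)
  rw [dd_add, dd_one, dd_Uu', zero_add] at h1
  have h2 := gs2_inv w
  linear_combination gs2 w * h1 - dd d (gs2 w) * h2

theorem zd_rho2 (w : AA K L) (j : ℕ) : zd (gs2 w ^ j)
    = PowerSeries.C (j : AA K L) * (gs2 w ^ j * (2 * (Uu w * gs2 w))) := by
  induction j with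
  | zero => rw [pow_zero, zd_one, Nat.cast_zero, map_zero, zero_mul]
  | succ j ih =>
    rw [pow_succ, zd_mul, ih, zd_gs2, Nat.cast_succ, map_add, map_one]
    ring

theorem dd_rho2 (d : Derivation K (AA K L) (AA K L)) (w : AA K L) (j : ℕ) : dd d (gs2 w ^ j)
    = PowerSeries.C (j : AA K L) * (gs2 w ^ j * (Uu (d w) * gs2 w)) := by
  induction j with
  | zero => rw [pow_zero, dd_one, Nat.cast_zero, map_zero, zero_mul]
  | succ j ih =>
    rw [pow_succ, dd_mul, ih, dd_gs2, Nat.cast_succ, map_add, map_one]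
    ring

theorem gc_Gp {a : L} {w : AA K L} (hw : w ∈ Gp K a) (n : ℕ) : gc w n ∈ Gp K a := by
  have h : ∀ n, gc w n ∈ Gp K a ∧ gc w (n + 1) ∈ Gp K a := by
    intro n
    induction n with
    | zero => exact ⟨(Gp K a).one_mem, (Gp K a).zero_mem⟩
    | succ n ih => exact ⟨ih.2, (Gp K a).mul_mem hw ih.1⟩
  exact (h n).1

theorem Cs_rho2 {a : L} {w : AA K L} (hw : w ∈ Gp K a) (j : ℕ) : Cs a (gs2 w ^ j) := by
  induction j with
  | zero =>
    intro n
    rw [pow_zero, PowerSeries.coeff_one]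
    split_ifs
    · exact (Gp K a).one_mem
    · exact (Gp K a).zero_mem
  | succ j ih =>
    rw [pow_succ]
    refine Cs_mul ih fun n => ?_
    rw [gs2, PowerSeries.coeff_mk]
    exact gc_Gp hw n

/-- The derivative of the coefficients. -/
theorem der_gc (d : Derivation K (AA K L) (AA K L)) (w : AA K L) (n : ℕ) :
    2 * d (gc w (n + 2)) = ((n + 2 : ℕ) : AA K L) * (d w * gc w n) := by
  have h0 : d (gc w 0) = 0 := by
    show d (1 : AA K L) = 0
    exact d.map_one_eq_zero
  have h1 : d (gc w 1) = 0 := by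
    show d (0 : AA K L) = 0
    exact map_zero d
  have hd : ∀ n, d (gc w (n + 2)) = w * d (gc w n) + gc w n * d w := by
    intro n
    show d (w * gc w n) = _
    rw [Derivation.leibniz, smul_eq_mul, smul_eq_mul]
  have h : ∀ n, 2 * d (gc w (n + 2)) = ((n + 2 : ℕ) : AA K L) * (d w * gc w n) ∧
      2 * d (gc w (n + 3)) = ((n + 3 : ℕ) : AA K L) * (d w * gc w (n + 1)) := by
    intro n
    induction n with
    | zero =>
      constructor
      · rw [hd, h0]
        push_cast
        ring
      · rw [hd, h1]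
        have e1 : gc w 1 = 0 := rfl
        rw [zero_add, e1]
        ring
    | succ n ih =>
      refine ⟨ih.2, ?_⟩
      rw [hd]
      have e1 : gc w (n + 1 + 1) = w * gc w n := rfl
      have e2 := ih.1
      have e3 : d (gc w (n + 1 + 1)) = d (gc w (n + 2)) := rfl
      rw [e3, mul_add, ← mul_assoc, mul_comm 2 w, mul_assoc, e2, e1]
      push_cast
      ring
  exact (h n).1

end Geo

section XY

attribute [local irreducible] Xs Ys

variable {L : Type*} [DecidableEq L] {a : L}

omit [DecidableEq L] in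
theorem XY_Ys2 (j : ℕ) (s t : AA K L) (G : PowerSeries (AA K L)) :
    PowerSeries.X * (PowerSeries.C (Polynomial.C s * Polynomial.X) *
      (PowerSeries.X * (PowerSeries.C (Polynomial.C t * Polynomial.X) * Ys j G)))
      = Ys j (Uu (s * t) * G) := by
  have h1 := XY_Ys j t G
  have h2 := XY_Ys j s (PowerSeries.X * (PowerSeries.C t * G))
  have h3 : PowerSeries.X * (PowerSeries.C s * (PowerSeries.X * (PowerSeries.C t * G)))
      = Uu (s * t) * G := by
    rw [Uu, map_mul]
    ring
  rw [h1, h2, h3]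

omit [DecidableEq L] in
theorem C_Ys (j : ℕ) (g : AA K L) (G : PowerSeries (AA K L)) :
    PowerSeries.C (Polynomial.C g) * Ys j G = Ys j (PowerSeries.C g * G) := by
  ext1 n
  rw [PowerSeries.coeff_C_mul, coeff_Ys, coeff_Ys, PowerSeries.coeff_C_mul, C_mul_mo]

omit [DecidableEq L] in
theorem tl_mo_C (g : AA K L) :
    tl (mo 0) (PowerSeries.C g) = PowerSeries.C (Polynomial.C g) := by
  ext1 n
  rw [coeff_tl, PowerSeries.coeff_C, PowerSeries.coeff_C]
  split_ifs
  · exact mo_zero_eq _
  · exact map_zero _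

/-- The substitution. -/
noncomputable def Pz2 (a : L) (w : AA K L) : AA K L →ₐ[K] PowerSeries (AA K L) :=
  aeval fun v => if v.1 = a then Xs a v.2 (gs2 w ^ v.2) else PowerSeries.C (X v)

theorem Pz2_X (w : AA K L) (j : ℕ) : Pz2 a w (X (a, j)) = Xs a j (gs2 w ^ j) := by
  rw [Pz2, aeval_X, if_pos rfl]

theorem Pz2_X' (w : AA K L) {v : L × ℕ} (hv : v.1 ≠ a) :
    Pz2 a w (X v) = PowerSeries.C (X v) := by
  rw [Pz2, aeval_X, if_neg hv]

theorem Pz2_C (w : AA K L) (x : K) : Pz2 a w (C x) = PowerSeries.C (C x) := by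
  rw [Pz2, algHom_C, PowerSeries.algebraMap_apply, algebraMap_eq]

/-- The companion of the substitution on `V`. -/
noncomputable def Lam2 (a : L) (w : AA K L) (u : VV K L) : PowerSeries (VV K L) :=
  u.sum fun j x => tl (mo 0) (Pz2 a w x) * Ys j (gs2 w ^ j * gs2 w)

theorem Lam2_add (w : AA K L) (u v : VV K L) :
    Lam2 a w (u + v) = Lam2 a w u + Lam2 a w v := by
  unfold Lam2
  refine Polynomial.sum_add_index _ _ _ (fun j => ?_) fun j x y => ?_
  · rw [map_zero, map_zero, zero_mul]
  · rw [map_add, map_add, add_mul]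

theorem Lam2_mo (w : AA K L) (j : ℕ) (x : AA K L) :
    Lam2 a w (mo j x) = tl (mo 0) (Pz2 a w x) * Ys j (gs2 w ^ j * gs2 w) := by
  unfold Lam2
  rw [mo_apply, Polynomial.sum_monomial_index]
  rw [map_zero, map_zero, zero_mul]

theorem Lam2_zero (w : AA K L) : Lam2 a w 0 = 0 := by
  have h := Lam2_mo (a := a) w 0 0
  rw [map_zero, map_zero, map_zero, zero_mul] at h
  exact h

theorem Lam2_C_mul (w : AA K L) (x : AA K L) (u : VV K L) :
    Lam2 a w (Polynomial.C x * u) = tl (mo 0) (Pz2 a w x) * Lam2 a w u := by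
  induction u using Polynomial.induction_on' with
  | add p q hp hq => rw [mul_add, Lam2_add, hp, hq, Lam2_add, mul_add]
  | monomial m f =>
    have h1 := Lam2_mo (a := a) w m f
    have h2 := Lam2_mo (a := a) w m (x * f)
    rw [← C_mul_mo, map_mul, ← tl_mo_mul] at h2
    rw [mo_apply] at h1 h2
    rw [h1, h2, mul_assoc]

theorem tlM_C {y : AA K L} (hy : Md (1 : K) a y = 0) :
    tl (Md (1 : K) a).toLinearMap (PowerSeries.C y) = 0 := by
  ext1 n
  have h1 : PowerSeries.coeff n (tl (Md (1 : K) a).toLinearMap (PowerSeries.C y))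
    = Md (1 : K) a (PowerSeries.coeff n (PowerSeries.C y)) := coeff_tl _ _ _
  rw [h1, PowerSeries.coeff_C, map_zero (PowerSeries.coeff n)]
  split_ifs
  · exact hy
  · exact map_zero _

theorem Lam2_MX (w : AA K L) (j : ℕ) : Lam2 a w (Md (1 : K) a (X (a, j)))
    = Ys j (PowerSeries.C (j : AA K L) * (gs2 w ^ j * gs2 w)) := by
  have h2 : Pz2 a w (C (1 * (j : K))) = PowerSeries.C (j : AA K L) := by
    rw [Pz2_C, one_mul, map_natCast]
  rw [Md, mkDerivation_X, if_pos rfl, Lam2_mo, h2, tl_mo_C, C_Ys]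

/-- The first identity. -/
theorem M_Pz2 {s t : AA K L} (hs : s ∈ Gp K a) (ht : t ∈ Gp K a) (x : AA K L) :
    tl (Md (1 : K) a).toLinearMap (Pz2 a (s * t) x)
      = Lam2 a (s * t) (Md (1 : K) a x) +
        PowerSeries.X * (PowerSeries.C (Polynomial.C s * Polynomial.X) *
          (PowerSeries.X * (PowerSeries.C (Polynomial.C t * Polynomial.X) *
          Lam2 a (s * t) (Md (1 : K) a x)))) := by
  have hst : s * t ∈ Gp K a := (Gp K a).mul_mem hs ht
  induction x using MvPolynomial.induction_on with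
  | C c =>
    rw [Pz2_C, derivation_C, Lam2_zero, mul_zero, mul_zero, mul_zero, mul_zero, add_zero,
      tlM_C (derivation_C _ _)]
  | add p q hp hq =>
    rw [map_add, map_add, map_add, hp, hq, Lam2_add]
    ring
  | mul_X p v hp =>
    have h1 : tl (Md (1 : K) a).toLinearMap (Pz2 a (s * t) (X v))
      = Lam2 a (s * t) (Md (1 : K) a (X v)) +
        PowerSeries.X * (PowerSeries.C (Polynomial.C s * Polynomial.X) *
          (PowerSeries.X * (PowerSeries.C (Polynomial.C t * Polynomial.X) *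
          Lam2 a (s * t) (Md (1 : K) a (X v))))) := by
      by_cases hv : v.1 = a
      · obtain ⟨c, j⟩ := v
        obtain rfl : c = a := hv
        rw [Pz2_X, M_Xs _ (Cs_rho2 hst j), Lam2_MX, XY_Ys2, ← Ys_add, zd_rho2]
        refine congrArg (Ys j) ?_
        have h5 := gs2_eq (s * t)
        linear_combination (-(PowerSeries.C (j : AA K L) * gs2 (s * t) ^ j)) * h5
      · rw [Pz2_X' _ hv, Md_X_par (1 : K) (fun h => absurd h hv), Lam2_zero, mul_zero, mul_zero,
          mul_zero, mul_zero, add_zero, tlM_C (Md_X_par (1 : K) (fun h => absurd h hv))]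
    rw [map_mul, tl_Md_mul, h1, hp, Derivation.leibniz, Polynomial.smul_eq_C_mul,
      Polynomial.smul_eq_C_mul, Lam2_add, Lam2_C_mul, Lam2_C_mul]
    ring

/-- The derivative of the substitution with respect to the first parameter. -/
theorem dd_Pz2 {c : L} (hca : c ≠ a) {s t : AA K L} (hs : pderiv (c, 1) s = 1)
    (ht : pderiv (c, 1) t = 0) (x : AA K L) :
    dd (pderiv (R := K) (c, 1)) (Pz2 a (s * t) x)
      = PowerSeries.X * tl (Th1 a) (PowerSeries.X * (PowerSeries.C (Polynomial.C t *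
          Polynomial.X) * Lam2 a (s * t) (Md (1 : K) a x))) +
        Pz2 a (s * t) (pderiv (c, 1) x) := by
  have hst : pderiv (c, 1) (s * t) = t := by
    rw [pderiv_mul, hs, ht, one_mul, mul_zero, add_zero]
  induction x using MvPolynomial.induction_on with
  | C c' =>
    rw [Pz2_C, derivation_C, Lam2_zero, mul_zero, mul_zero, map_zero, mul_zero, pderiv_C,
      map_zero, add_zero, dd_Cc, pderiv_C, map_zero]
  | add p q hp hq =>
    rw [map_add, dd_add, map_add, hp, hq, Lam2_add, mul_add, mul_add, map_add, map_add, map_add]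
    ring
  | mul_X p v hp =>
    have h1 : dd (pderiv (R := K) (c, 1)) (Pz2 a (s * t) (X v))
      = PowerSeries.X * tl (Th1 a) (PowerSeries.X * (PowerSeries.C (Polynomial.C t *
          Polynomial.X) * Lam2 a (s * t) (Md (1 : K) a (X v)))) +
        Pz2 a (s * t) (pderiv (c, 1) (X v)) := by
      by_cases hv : v.1 = a
      · obtain ⟨a', j⟩ := v
        obtain rfl : a' = a := hv
        have h6 : pderiv (c, 1) (X (a', j) : AA K L) = 0 := by
          rw [pderiv_X, Pi.single_eq_of_ne]
          intro h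
          exact hca (Prod.ext_iff.1 h).1.symm
        rw [Pz2_X, dd_Xs hca, Lam2_MX, XY_Ys, Th1_Ys, h6, map_zero, add_zero, dd_rho2, hst]
        refine congrArg (Xs a' j) ?_
        rw [Uu]
        ring
      · rw [Pz2_X' _ hv, Md_X_par (1 : K) (fun h => absurd h hv), Lam2_zero, mul_zero, mul_zero,
          map_zero, mul_zero, zero_add, dd_Cc]
        by_cases hv2 : v = (c, 1)
        · rw [hv2, pderiv_X_self, map_one, map_one]
        · rw [pderiv_X, Pi.single_eq_of_ne hv2, map_zero, map_zero]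
    have h8 : ∀ (x : PowerSeries (AA K L)) (G : PowerSeries (VV K L)),
        PowerSeries.X * tl (Th1 a) (PowerSeries.X * (PowerSeries.C (Polynomial.C t *
          Polynomial.X) * (tl (mo 0) x * G)))
        = x * (PowerSeries.X * tl (Th1 a) (PowerSeries.X * (PowerSeries.C (Polynomial.C t *
          Polynomial.X) * G))) := by
      intro x G
      have h9 : PowerSeries.X * (PowerSeries.C (Polynomial.C t * Polynomial.X) *
          (tl (mo 0) x * G)) = tl (mo 0) x * (PowerSeries.X * (PowerSeries.C (Polynomial.C t *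
          Polynomial.X) * G)) := by ring
      rw [h9, tl_Th1_mul]
      ring
    have h9 : ∀ G H : PowerSeries (VV K L),
        PowerSeries.X * tl (Th1 a) (PowerSeries.X * (PowerSeries.C (Polynomial.C t *
          Polynomial.X) * (G + H)))
        = PowerSeries.X * tl (Th1 a) (PowerSeries.X * (PowerSeries.C (Polynomial.C t *
          Polynomial.X) * G)) + PowerSeries.X * tl (Th1 a) (PowerSeries.X *
          (PowerSeries.C (Polynomial.C t * Polynomial.X) * H)) := by
      intro G H
      have h10 : PowerSeries.X * (PowerSeries.C (Polynomial.C t * Polynomial.X) * (G + H))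
          = PowerSeries.X * (PowerSeries.C (Polynomial.C t * Polynomial.X) * G) +
            PowerSeries.X * (PowerSeries.C (Polynomial.C t * Polynomial.X) * H) := by ring
      rw [h10, map_add, mul_add]
    have h11 : Lam2 a (s * t) (Md (1 : K) a (p * X v))
        = tl (mo 0) (Pz2 a (s * t) p) * Lam2 a (s * t) (Md (1 : K) a (X v)) +
          tl (mo 0) (Pz2 a (s * t) (X v)) * Lam2 a (s * t) (Md (1 : K) a p) := by
      rw [Derivation.leibniz, Polynomial.smul_eq_C_mul, Polynomial.smul_eq_C_mul, Lam2_add,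
        Lam2_C_mul, Lam2_C_mul]
    have h12 : Pz2 a (s * t) (pderiv (c, 1) (p * X v))
        = Pz2 a (s * t) (pderiv (c, 1) p) * Pz2 a (s * t) (X v) +
          Pz2 a (s * t) p * Pz2 a (s * t) (pderiv (c, 1) (X v)) := by
      rw [pderiv_mul, map_add, map_mul, map_mul]
    rw [map_mul (Pz2 a (s * t)), dd_mul, h1, hp, h11, h9, h8, h8, h12]
    ring

/-- The logarithmic series. -/
noncomputable def Lg2 (a : L) (w : AA K L) : PowerSeries (AA K L) :=
  PowerSeries.mk fun n => C (2 * (n : K)⁻¹) * (gc w n * X (a, n))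

theorem tlM_Lg2 {w : AA K L} (hw : w ∈ Gp K a) :
    tl (Md (1 : K) a).toLinearMap (Lg2 a w) = (Ys 0 (gs2 w) - 1) + (Ys 0 (gs2 w) - 1) := by
  ext1 n
  rw [tlM_coeff, map_add, map_sub, coeff_Ys, gs2, PowerSeries.coeff_mk, Lg2, PowerSeries.coeff_mk,
    PowerSeries.coeff_one, zero_add]
  rcases Nat.eq_zero_or_pos n with rfl | hn
  · have e1 : gc w 0 = 1 := rfl
    rw [Nat.cast_zero, inv_zero, mul_zero, C_0, zero_mul, map_zero, if_pos rfl, e1, mo_zero_eq,
      Polynomial.C_1, sub_self, add_zero]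
  · have hn' : (n : K) ≠ 0 := Nat.cast_ne_zero.2 hn.ne'
    rw [if_neg hn.ne', sub_zero, Derivation.leibniz, derivation_C, smul_zero, add_zero,
      Derivation.leibniz, Md_Gp (gc_Gp hw n), smul_zero,
      add_zero, Md, mkDerivation_X, if_pos rfl, Polynomial.smul_eq_C_mul, Polynomial.smul_eq_C_mul,
      C_mul_mo, C_mul_mo, ← map_add]
    congr 1
    rw [one_mul, mul_left_comm, ← C_mul, mul_assoc, inv_mul_cancel₀ hn', mul_one]
    have h2 : (C (2 : K) : AA K L) = 2 := map_ofNat C 2
    rw [h2]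
    ring

theorem dd_Lg2 {c : L} (hca : c ≠ a) {s t : AA K L} (hs : pderiv (c, 1) s = 1)
    (ht : pderiv (c, 1) t = 0) :
    dd (pderiv (R := K) (c, 1)) (Lg2 a (s * t))
      = PowerSeries.X * tl (Th1 a) (PowerSeries.X * (PowerSeries.C (Polynomial.C t *
          Polynomial.X) * Ys 0 (gs2 (s * t)))) := by
  have hst : pderiv (c, 1) (s * t) = t := by
    rw [pderiv_mul, hs, ht, one_mul, mul_zero, add_zero]
  rw [XY_Ys, Th1_Ys]
  ext1 n
  have h6 : pderiv (c, 1) (X (a, n) : AA K L) = 0 := by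
    rw [pderiv_X, Pi.single_eq_of_ne]
    intro h
    exact hca (Prod.ext_iff.1 h).1.symm
  rw [coeff_Xs, coeff_dd, Lg2, PowerSeries.coeff_mk, pderiv_C_mul, pderiv_mul, h6,
    mul_zero, add_zero, zero_add, ← mul_assoc]
  congr 1
  rcases n with _ | _ | n
  · rw [PowerSeries.coeff_zero_X_mul, Nat.cast_zero, inv_zero, mul_zero, C_0, zero_mul]
  · have e1 : gc (s * t) 1 = 0 := rfl
    rw [PowerSeries.coeff_succ_X_mul, PowerSeries.coeff_zero_X_mul, zero_add, e1, map_zero,
      mul_zero]
  · have hn' : ((n + 2 : ℕ) : K) ≠ 0 := Nat.cast_ne_zero.2 (by omega)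
    have e1 := der_gc (pderiv (R := K) (c, 1)) (s * t) n
    rw [hst] at e1
    have h2 : (C (2 : K) : AA K L) = 2 := map_ofNat C 2
    have e2 : (C (2 * ((n + 1 + 1 : ℕ) : K)⁻¹) * pderiv (c, 1) (gc (s * t) (n + 1 + 1)) :
        AA K L) = C ((n + 2 : ℕ) : K)⁻¹ * (2 * pderiv (c, 1) (gc (s * t) (n + 2))) := by
      rw [← h2, ← mul_assoc, ← C_mul, mul_comm (2 : K)]
    rw [e2, e1, ← map_natCast (C : K →+* AA K L), ← mul_assoc, ← C_mul, inv_mul_cancel₀ hn', C_1,
      one_mul, PowerSeries.coeff_succ_X_mul, PowerSeries.coeff_succ_X_mul, PowerSeries.coeff_C_mul,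
      gs2, PowerSeries.coeff_mk]

end XY

end Pool.Agent.JackB
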