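import Pool.Agent.Lib.JackB.Inv4

/-!
The logarithm for the parameters `e + s, e, e, …` and `u, v, 0, 0, …` (problem MP_b52a9f_co).
-/

open MvPolynomial

namespace Pool.Agent.JackB

section Solve

attribute [local irreducible] Xs Ys

variable {L : Type*} [DecidableEq L] {a : L}

theorem tlM_X_mul (F : PowerSeries (AA K L)) : tl (Md (1 : K) a).toLinearMap (PowerSeries.X * F)
    = PowerSeries.X * tl (Md (1 : K) a).toLinearMap F := by
  ext1 n
  rw [tlM_coeff]
  cases n with
  | zero => rw [PowerSeries.coeff_zero_X_mul, PowerSeries.coeff_zero_X_mul, map_zero]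
  | succ n =>
    rw [PowerSeries.coeff_succ_X_mul, PowerSeries.coeff_succ_X_mul, tlM_coeff]

theorem tlM_Cc (y : AA K L) : tl (Md (1 : K) a).toLinearMap (PowerSeries.C y)
    = PowerSeries.C (Md (1 : K) a y) := by
  ext1 n
  rw [tlM_coeff, PowerSeries.coeff_C, PowerSeries.coeff_C]
  split_ifs
  · rfl
  · exact map_zero _

/-- The linear system. -/
structure Sy2 (a p q : L) (W : PowerSeries (AA K L)) (A B : PowerSeries (VV K L)) : Prop where
  s1 : A = tl (Md (1 : K) a).toLinearMap W +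
    PowerSeries.C (Polynomial.C (X (p, 0) + X (p, 1)))
      - PowerSeries.X * (PowerSeries.C (Polynomial.C (X (p, 1)) * Polynomial.X) * B)
  s2 : B = PowerSeries.C (Polynomial.C (X (q, 1))) +
    PowerSeries.X * (PowerSeries.C (Polynomial.C (X (q, 2)) * Polynomial.X) * A)
  s3 : dd (pderiv (R := K) (p, 1)) W = PowerSeries.X * tl (Th1 a) B

/-- The explicit solution. -/
noncomputable def Wx2 (a p q : L) (w : ℕ → AA K L) : PowerSeries (AA K L) :=
  PowerSeries.X * PowerSeries.C (X (p, 1) * X (q, 1) * X (a, 1)) +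
    Uu (C (2⁻¹ : K) * (X (p, 1) ^ 2 * X (q, 2)) * X (a, 2)) +
    PowerSeries.C (X (p, 0)) * Lg2 a (X (p, 1) * X (q, 2)) +
    cmb fun m => Pz2 a (X (p, 1) * X (q, 2)) (w m)

omit [DecidableEq L] in
theorem Gam_eq (s t : AA K L) : Ys 0 (gs2 (s * t)) = 1 +
    PowerSeries.X * (PowerSeries.C (Polynomial.C s * Polynomial.X) *
      (PowerSeries.X * (PowerSeries.C (Polynomial.C t * Polynomial.X) *
        Ys 0 (gs2 (s * t))))) := by
  rw [XY_Ys2]
  have h3 : Ys 0 (gs2 (s * t)) = Ys 0 (1 + Uu (s * t) * gs2 (s * t)) :=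
    congrArg _ (gs2_eq (s * t))
  rw [h3, Ys_add]
  congr 1
  ext1 n
  rw [coeff_Ys, PowerSeries.coeff_one, PowerSeries.coeff_one]
  split_ifs with h
  · rw [h, zero_add, mo_zero_eq, Polynomial.C_1]
  · exact map_zero _

theorem Md_last {s t : AA K L} (hs : s ∈ Gp K a) (ht : t ∈ Gp K a) :
    Md (1 : K) a (C (2⁻¹ : K) * (s ^ 2 * t) * X (a, 2))
      = Polynomial.C s * Polynomial.X * (Polynomial.C t * Polynomial.X * Polynomial.C s) := by
  have hg : C (2⁻¹ : K) * (s ^ 2 * t) ∈ Gp K a :=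
    (Gp K a).mul_mem ((Gp K a).algebraMap_mem _) ((Gp K a).mul_mem ((Gp K a).pow_mem hs 2) ht)
  have e : (C (2⁻¹ : K) * C ((1 : K) * ((2 : ℕ) : K)) : AA K L) = 1 := by
    rw [← C_mul]
    norm_num
  have e1 : ((1 : K) * ((2 : ℕ) : K)) • (Polynomial.X ^ 2 : VV K L)
      = Polynomial.C (C ((1 : K) * ((2 : ℕ) : K))) * Polynomial.X ^ 2 := by
    rw [← Polynomial.smul_eq_C_mul, ← algebraMap_eq, algebraMap_smul]
  have e2 := congrArg (Polynomial.C : AA K L → VV K L) e
  rw [Derivation.leibniz, Md_Gp hg, smul_zero, add_zero, Md_X, e1, Polynomial.smul_eq_C_mul]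
  rw [Polynomial.C_mul, Polynomial.C_1] at e2
  rw [Polynomial.C_mul, Polynomial.C_mul, Polynomial.C_pow]
  linear_combination (Polynomial.C s ^ 2 * Polynomial.C t * Polynomial.X ^ 2) * e2

theorem Md_first {s t : AA K L} (hs : s ∈ Gp K a) (ht : t ∈ Gp K a) :
    Md (1 : K) a (s * t * X (a, 1))
      = Polynomial.C s * Polynomial.X * Polynomial.C t := by
  have hg : s * t ∈ Gp K a := (Gp K a).mul_mem hs ht
  rw [Derivation.leibniz, Md_Gp hg, smul_zero, add_zero, Md_X,
    Nat.cast_one, mul_one, one_smul, pow_one, Polynomial.smul_eq_C_mul, Polynomial.C_mul]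
  ring

/-- The operator of the second equation. -/
noncomputable def Fy (a : L) (t : AA K L) (G : PowerSeries (VV K L)) : PowerSeries (AA K L) :=
  PowerSeries.X * tl (Th1 a) (PowerSeries.X * (PowerSeries.C (Polynomial.C t *
    Polynomial.X) * G))

omit [DecidableEq L] in
theorem Fy_add (t : AA K L) (G H : PowerSeries (VV K L)) :
    Fy a t (G + H) = Fy a t G + Fy a t H := by
  have h10 : PowerSeries.X * (PowerSeries.C (Polynomial.C t * Polynomial.X) * (G + H))
      = PowerSeries.X * (PowerSeries.C (Polynomial.C t * Polynomial.X) * G) +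
        PowerSeries.X * (PowerSeries.C (Polynomial.C t * Polynomial.X) * H) := by ring
  rw [Fy, h10, map_add, mul_add]
  rfl

omit [DecidableEq L] in
theorem Fy_C_mul (t g : AA K L) (G : PowerSeries (VV K L)) :
    Fy a t (PowerSeries.C (Polynomial.C g) * G) = PowerSeries.C g * Fy a t G := by
  have h10 : PowerSeries.X * (PowerSeries.C (Polynomial.C t * Polynomial.X) *
      (PowerSeries.C (Polynomial.C g) * G))
      = tl (mo 0) (PowerSeries.C g) * (PowerSeries.X *
        (PowerSeries.C (Polynomial.C t * Polynomial.X) * G)) := by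
    rw [tl_mo_C]
    ring
  rw [Fy, h10, tl_Th1_mul, Fy]
  ring

omit [DecidableEq L] in
theorem Fy_C (t g : AA K L) :
    Fy a t (PowerSeries.C (Polynomial.C g)) = Uu (t * g * X (a, 2)) := by
  rw [Fy, Uu]
  congr 1
  ext1 n
  rw [coeff_tl]
  cases n with
  | zero => rw [PowerSeries.coeff_zero_X_mul, PowerSeries.coeff_zero_X_mul, map_zero]
  | succ n =>
    rw [PowerSeries.coeff_succ_X_mul, PowerSeries.coeff_succ_X_mul, ← map_mul,
      PowerSeries.coeff_C, PowerSeries.coeff_C]
    split_ifs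
    · have h1 : (Polynomial.C t * Polynomial.X * Polynomial.C g : VV K L) = mo 1 (t * g) := by
        rw [mo_apply, ← Polynomial.C_mul_X_pow_eq_monomial, pow_one, Polynomial.C_mul]
        ring
      rw [h1, Th1_mo, mul_comm]
    · exact map_zero _

omit [DecidableEq L] in
theorem Fy_cmb (t : AA K L) (G : ℕ → PowerSeries (VV K L)) :
    Fy a t (cmb G) = cmb fun m => Fy a t (G m) := by
  have h1 : (fun m => Fy a t (G m)) = fun m => PowerSeries.X * tl (Th1 a) (PowerSeries.X *
      (PowerSeries.C (Polynomial.C t * Polynomial.X) * G m)) := rfl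
  rw [h1, cmb_X_mul, ← tl_cmb, cmb_X_mul, cmb_C_mul]
  rfl

theorem sol2 {p q : L} (hpa : p ≠ a) (hqa : q ≠ a) (hpq : p ≠ q) {w : ℕ → AA K L}
    (h1 : ∀ m, pderiv (p, 1) (w m) = 0) :
    ∃ A B, Sy2 a p q (Wx2 a p q w) A B := by
  have gp : ∀ c i, c ≠ a → (X (c, i) : AA K L) ∈ Gp K a := fun c i hc =>
    Gp_X fun h => absurd h hc
  have hs := gp p 1 hpa
  have hu := gp q 1 hqa
  have ht := gp q 2 hqa
  have he := gp p 0 hpa
  have pd : ∀ (v : L × ℕ), v ≠ (p, 1) → pderiv (p, 1) (X v : AA K L) = 0 := by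
    intro v hv
    rw [pderiv_X, Pi.single_eq_of_ne hv]
  have hps : pderiv (p, 1) (X (p, 1) : AA K L) = 1 := pderiv_X_self _
  have hpu : pderiv (p, 1) (X (q, 1) : AA K L) = 0 :=
    pd _ fun h => hpq (Prod.ext_iff.1 h).1.symm
  have hpt : pderiv (p, 1) (X (q, 2) : AA K L) = 0 :=
    pd _ fun h => hpq (Prod.ext_iff.1 h).1.symm
  have hpe : pderiv (p, 1) (X (p, 0) : AA K L) = 0 := pd _ fun h => by simp at h
  have hpr : ∀ i, pderiv (p, 1) (X (a, i) : AA K L) = 0 := fun i =>
    pd _ fun h => hpa (Prod.ext_iff.1 h).1.symm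
  set Λ := cmb (fun m => Lam2 a (X (p, 1) * X (q, 2)) (Md (1 : K) a (w m))) with hΛ
  set Γ := Ys 0 (gs2 (X (p, 1) * X (q, 2) : AA K L)) with hΓ
  have hΓe : Γ = 1 + PowerSeries.X * (PowerSeries.C (Polynomial.C (X (p, 1)) * Polynomial.X) *
      (PowerSeries.X * (PowerSeries.C (Polynomial.C (X (q, 2)) * Polynomial.X) * Γ))) :=
    Gam_eq _ _
  have hMW : tl (Md (1 : K) a).toLinearMap (Wx2 a p q w)
      = PowerSeries.X * PowerSeries.C (Polynomial.C (X (p, 1)) * Polynomial.X *
          Polynomial.C (X (q, 1))) +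
        PowerSeries.X * (PowerSeries.X * PowerSeries.C (Polynomial.C (X (p, 1)) * Polynomial.X *
          (Polynomial.C (X (q, 2)) * Polynomial.X * Polynomial.C (X (p, 1))))) +
        PowerSeries.C (Polynomial.C (X (p, 0))) * ((Γ - 1) + (Γ - 1)) +
        (Λ + PowerSeries.X * (PowerSeries.C (Polynomial.C (X (p, 1)) * Polynomial.X) *
          (PowerSeries.X * (PowerSeries.C (Polynomial.C (X (q, 2)) * Polynomial.X) * Λ)))) := by
    have h3 : (fun m => tl (Md (1 : K) a).toLinearMap (Pz2 a (X (p, 1) * X (q, 2)) (w m)))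
        = fun m => Lam2 a (X (p, 1) * X (q, 2)) (Md (1 : K) a (w m)) +
          PowerSeries.X * (PowerSeries.C (Polynomial.C (X (p, 1)) * Polynomial.X) *
          (PowerSeries.X * (PowerSeries.C (Polynomial.C (X (q, 2)) * Polynomial.X) *
          Lam2 a (X (p, 1) * X (q, 2)) (Md (1 : K) a (w m))))) := by
      funext m
      exact M_Pz2 hs ht _
    rw [Wx2, map_add, map_add, map_add, tlM_X_mul, tlM_Cc, Md_first hs hu, Uu, tlM_X_mul,
      tlM_X_mul, tlM_Cc, Md_last hs ht, tlM_C_mul he, tlM_Lg2 ((Gp K a).mul_mem hs ht), tl_cmb,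
      h3, cmb_add, cmb_X_mul, cmb_C_mul, cmb_X_mul, cmb_C_mul]
  refine ⟨PowerSeries.C (Polynomial.C (X (p, 1))) + PowerSeries.C (Polynomial.C (X (p, 0))) * Γ +
      Λ, PowerSeries.C (Polynomial.C (X (q, 1))) + PowerSeries.X *
      (PowerSeries.C (Polynomial.C (X (q, 2)) * Polynomial.X) *
      (PowerSeries.C (Polynomial.C (X (p, 1))) + PowerSeries.C (Polynomial.C (X (p, 0))) * Γ +
      Λ)), ?_, rfl, ?_⟩
  · rw [hMW]
    simp only [map_add, map_mul] at hΓe ⊢
    linear_combination (-(PowerSeries.C (Polynomial.C (X (p, 0))))) * hΓe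
  · have h3 : (fun m => dd (pderiv (R := K) (p, 1)) (Pz2 a (X (p, 1) * X (q, 2)) (w m)))
        = fun m => Fy a (X (q, 2)) (Lam2 a (X (p, 1) * X (q, 2)) (Md (1 : K) a (w m))) := by
      funext m
      rw [dd_Pz2 hpa hps hpt, h1, map_zero, add_zero]
      rfl
    have h5 : pderiv (p, 1) (X (p, 1) * X (q, 1) * X (a, 1) : AA K L) = X (q, 1) * X (a, 1) := by
      rw [pderiv_mul, pderiv_mul, hps, hpu, hpr]
      ring
    have h6 : pderiv (p, 1) (C (2⁻¹ : K) * (X (p, 1) ^ 2 * X (q, 2)) * X (a, 2) : AA K L)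
        = X (q, 2) * X (p, 1) * X (a, 2) := by
      have e : (C (2⁻¹ : K) * 2 : AA K L) = 1 := by
        have h2 : (C (2 : K) : AA K L) = 2 := map_ofNat C 2
        rw [← h2, ← C_mul]
        norm_num
      rw [pderiv_mul, pderiv_C_mul, pderiv_mul, Derivation.leibniz_pow, hps, hpt, hpr,
        smul_eq_mul, mul_one, nsmul_eq_mul]
      push_cast
      linear_combination (X (q, 2) * X (p, 1) * X (a, 2)) * e
    have h7 : tl (Th1 a) (PowerSeries.C (Polynomial.C (X (q, 1) : AA K L)))
        = PowerSeries.C (X (q, 1) * X (a, 1)) := by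
      ext1 n
      rw [coeff_tl, PowerSeries.coeff_C, PowerSeries.coeff_C]
      split_ifs
      · rw [← mo_zero_eq, Th1_mo, zero_add, mul_comm]
      · exact map_zero _
    have h8 : PowerSeries.X * tl (Th1 a) (PowerSeries.C (Polynomial.C (X (q, 1))) +
        PowerSeries.X * (PowerSeries.C (Polynomial.C (X (q, 2)) * Polynomial.X) *
        (PowerSeries.C (Polynomial.C (X (p, 1))) + PowerSeries.C (Polynomial.C (X (p, 0))) * Γ +
        Λ))) = PowerSeries.X * PowerSeries.C (X (q, 1) * X (a, 1)) + Fy a (X (q, 2))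
        (PowerSeries.C (Polynomial.C (X (p, 1))) + PowerSeries.C (Polynomial.C (X (p, 0))) * Γ +
        Λ) := by
      rw [map_add, h7, mul_add]
      rfl
    have h9 : dd (pderiv (R := K) (p, 1)) (Uu (C (2⁻¹ : K) * (X (p, 1) ^ 2 * X (q, 2)) *
        X (a, 2) : AA K L)) = Uu (X (q, 2) * X (p, 1) * X (a, 2)) := by
      rw [Uu, dd_X_mul, dd_X_mul, dd_Cc, h6, Uu]
    rw [h8, Fy_add, Fy_add, Fy_C, Fy_C_mul, hΛ, Fy_cmb, ← h3, ← dd_cmb, Wx2, dd_add, dd_add,
      dd_add, dd_X_mul, dd_Cc, h5, h9, dd_C_mul' hpe, dd_Lg2 hpa hps hpt]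
    have h10 : Fy a (X (q, 2)) Γ = PowerSeries.X * tl (Th1 a) (PowerSeries.X *
        (PowerSeries.C (Polynomial.C (X (q, 2)) * Polynomial.X) *
          Ys 0 (gs2 (X (p, 1) * X (q, 2))))) := rfl
    rw [h10]
    ring

theorem sy2_unique {p q : L} {W W' : PowerSeries (AA K L)} {A A' B B' : PowerSeries (VV K L)}
    (h : Sy2 a p q W A B) (h' : Sy2 a p q W' A' B')
    (h0 : PowerSeries.coeff 0 W = PowerSeries.coeff 0 W')
    (hk : ∀ n, k0 p p (PowerSeries.coeff n W) = k0 p p (PowerSeries.coeff n W')) : W = W' := by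
  have hA0 : ∀ {W : PowerSeries (AA K L)} {A B : PowerSeries (VV K L)}, Sy2 a p q W A B →
      PowerSeries.coeff 0 A = Md (1 : K) a (PowerSeries.coeff 0 W) +
        PowerSeries.coeff 0 (PowerSeries.C (Polynomial.C (X (p, 0) + X (p, 1) : AA K L))) := by
    intro W A B h
    rw [h.s1, map_sub (PowerSeries.coeff 0), map_add (PowerSeries.coeff 0), tlM_coeff,
      PowerSeries.coeff_zero_X_mul, sub_zero]
  have hB0 : ∀ {W : PowerSeries (AA K L)} {A B : PowerSeries (VV K L)}, Sy2 a p q W A B →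
      PowerSeries.coeff 0 B =
        PowerSeries.coeff 0 (PowerSeries.C (Polynomial.C (X (q, 1) : AA K L))) := by
    intro W A B h
    rw [h.s2, map_add (PowerSeries.coeff 0), PowerSeries.coeff_zero_X_mul, add_zero]
  have hA1 : ∀ {W : PowerSeries (AA K L)} {A B : PowerSeries (VV K L)}, Sy2 a p q W A B →
      ∀ n, PowerSeries.coeff (n + 1) A = Md (1 : K) a (PowerSeries.coeff (n + 1) W) +
        PowerSeries.coeff (n + 1) (PowerSeries.C (Polynomial.C (X (p, 0) + X (p, 1) : AA K L))) -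
        Polynomial.C (X (p, 1)) * Polynomial.X * PowerSeries.coeff n B := by
    intro W A B h n
    rw [h.s1, map_sub (PowerSeries.coeff (n + 1)), map_add (PowerSeries.coeff (n + 1)), tlM_coeff,
      PowerSeries.coeff_succ_X_mul, PowerSeries.coeff_C_mul]
  have hB1 : ∀ {W : PowerSeries (AA K L)} {A B : PowerSeries (VV K L)}, Sy2 a p q W A B →
      ∀ n, PowerSeries.coeff (n + 1) B =
        PowerSeries.coeff (n + 1) (PowerSeries.C (Polynomial.C (X (q, 1) : AA K L))) +
        Polynomial.C (X (q, 2)) * Polynomial.X * PowerSeries.coeff n A := by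
    intro W A B h n
    rw [h.s2, map_add (PowerSeries.coeff (n + 1)), PowerSeries.coeff_succ_X_mul,
      PowerSeries.coeff_C_mul]
  have hp : ∀ {W : PowerSeries (AA K L)} {A B : PowerSeries (VV K L)}, Sy2 a p q W A B →
      ∀ n, pderiv (p, 1) (PowerSeries.coeff (n + 1) W) = Th1 a (PowerSeries.coeff n B) := by
    intro W A B h n
    have h1 := congrArg (PowerSeries.coeff (n + 1)) h.s3
    rw [coeff_dd, PowerSeries.coeff_succ_X_mul, coeff_tl] at h1
    exact h1
  have key : ∀ n, PowerSeries.coeff n W = PowerSeries.coeff n W' ∧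
      PowerSeries.coeff n A = PowerSeries.coeff n A' ∧
      PowerSeries.coeff n B = PowerSeries.coeff n B' := by
    intro n
    induction n with
    | zero => exact ⟨h0, by rw [hA0 h, hA0 h', h0], by rw [hB0 h, hB0 h']⟩
    | succ n ih =>
      obtain ⟨_, ihA, ihB⟩ := ih
      have h1 : PowerSeries.coeff (n + 1) W = PowerSeries.coeff (n + 1) W' := by
        have e1 : pderiv (p, 1) (PowerSeries.coeff (n + 1) W - PowerSeries.coeff (n + 1) W') = 0 := by
          rw [map_sub, hp h, hp h', ihB, sub_self]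
        have e3 := k0_id e1 e1
        rw [map_sub, hk, sub_self] at e3
        exact sub_eq_zero.1 e3.symm
      exact ⟨h1, by rw [hA1 h, hA1 h', h1, ihB], by rw [hB1 h, hB1 h', ihA]⟩
  ext1 n
  exact (key n).1

theorem k0_gc {p q : L} (n : ℕ) :
    k0 p p (gc (X (p, 1) * X (q, 2) : AA K L) n) = if n = 0 then 1 else 0 := by
  rcases n with _ | _ | n
  · rw [if_pos rfl]
    exact map_one _
  · rw [if_neg (by omega)]
    exact map_zero _
  · rw [if_neg (by omega)]
    show k0 p p (X (p, 1) * X (q, 2) * gc (X (p, 1) * X (q, 2)) n) = 0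
    rw [map_mul, map_mul, k0_X, if_pos (Or.inl rfl), zero_mul, zero_mul]

theorem k0_Pz2 {p q : L} (hpa : p ≠ a) (f : AA K L) :
    PowerSeries.map (k0 p p : AA K L →+* AA K L) (Pz2 a (X (p, 1) * X (q, 2)) f)
      = PowerSeries.C (k0 p p f) := by
  induction f using MvPolynomial.induction_on with
  | C x =>
    rw [Pz2_C, PowerSeries.map_C, k0_C]
    congr 1
    exact k0_C x
  | add f g hf hg => rw [map_add, map_add, hf, hg, map_add, map_add]
  | mul_X f v hf =>
    rw [map_mul, map_mul, hf, map_mul, map_mul]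
    congr 1
    by_cases hv : v.1 = a
    · obtain ⟨c, j⟩ := v
      obtain rfl : c = a := hv
      have hk : ∀ n, k0 p p (X (c, n) : AA K L) = X (c, n) := by
        intro n
        rw [k0_X, if_neg]
        rintro (h | h)
        · exact hpa (Prod.ext_iff.1 h).1.symm
        · exact hpa (Prod.ext_iff.1 h).1.symm
      have h0 : PowerSeries.map (k0 p p : AA K L →+* AA K L)
          (gs2 (X (p, 1) * X (q, 2) : AA K L)) = 1 := by
        ext1 n
        rw [PowerSeries.coeff_map, gs2, PowerSeries.coeff_mk, PowerSeries.coeff_one]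
        exact k0_gc n
      have h1 : PowerSeries.map (k0 p p : AA K L →+* AA K L)
          (gs2 (X (p, 1) * X (q, 2) : AA K L) ^ j) = 1 := by
        rw [map_pow, h0, one_pow]
      rw [Pz2_X]
      ext1 n
      rw [PowerSeries.coeff_map, coeff_Xs, PowerSeries.coeff_C]
      have h2 := congrArg (PowerSeries.coeff n) h1
      rw [PowerSeries.coeff_map, PowerSeries.coeff_one] at h2
      show k0 p p _ = _
      have h3 : k0 p p (PowerSeries.coeff n (gs2 (X (p, 1) * X (q, 2) : AA K L) ^ j))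
          = if n = 0 then 1 else 0 := h2
      rw [map_mul, h3, hk, hk]
      split_ifs with h
      · rw [h, one_mul, add_zero]
      · rw [zero_mul]
    · rw [Pz2_X' _ hv, PowerSeries.map_C]
      rfl

/-- The linear system for the logarithm. -/
theorem sys2 {J : Fam} (hJ : JOK J) (hE : Eig J a) {e s u v : AA K L}
    (he : e ∈ Gp K a) (hs : s ∈ Gp K a) (hu : u ∈ Gp K a) (hv : v ∈ Gp K a)
    {W : PowerSeries (AA K L)}
    (hW : IsLog (C al) (PowerSeries.mk (tq J a (sp e s) (iw u v))) W) :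
    ∃ A B : PowerSeries (VV K L),
      A = tl (Md (1 : K) a).toLinearMap W + PowerSeries.C (Polynomial.C (e + s))
        - PowerSeries.X * (PowerSeries.C (Polynomial.C s * Polynomial.X) * B) ∧
      B = PowerSeries.C (Polynomial.C u) +
        PowerSeries.X * (PowerSeries.C (Polynomial.C v * Polynomial.X) * A) ∧
      (∀ c, c ≠ a → (∀ i, pderiv (c, 1) (sp e s i) = if i = 1 then 1 else 0) →
        (∀ i, pderiv (c, 1) (iw u v i) = 0) →
        dd (pderiv (R := K) (c, 1)) W = PowerSeries.X * tl (Th1 a) B) ∧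
      (s = 0 → zd W = PowerSeries.X * tl (Th1 a) (tl (LX al (al - 1) a) B +
        tl (Md (1 : K) a).toLinearMap W * B + PowerSeries.C (Polynomial.C e) * B)) := by
  have hr := sp_Gp he hs
  have hq := iw_Gp hu hv
  obtain ⟨P0, P, hP⟩ := exists_isP hJ hE hr
  obtain ⟨Q0, Q, hQ⟩ := exists_isP hJ hE hq
  have hsym : PowerSeries.mk (tq J a (iw u v) (sp e s))
      = PowerSeries.mk (tq J a (sp e s) (iw u v)) := by
    ext1 n
    rw [PowerSeries.coeff_mk, PowerSeries.coeff_mk, tq_symm]
  have h1 := eq_one hJ hE hq he hs hQ hP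
  have h2 := eq_iw hJ hE hr hu hv hP hQ
  rw [hsym] at h1
  set τ := PowerSeries.mk (tq J a (sp e s) (iw u v)) with hτ
  obtain ⟨U, hU⟩ := exists_inv hW.one
  rw [tl_Md_log hW] at h1
  have hC : (C al : AA K L) ≠ 0 := by
    rw [Ne, C_eq_zero]
    exact al_ne_zero
  have hτ0 := ne_zero_of_one hW.one
  have hA : An a (iw u v) P = tl (mo 0) τ * (U * An a (iw u v) P) := by
    rw [← mul_assoc, hU, one_mul]
  have hB : An a (sp e s) Q = tl (mo 0) τ * (U * An a (sp e s) Q) := by
    rw [← mul_assoc, hU, one_mul]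
  refine ⟨U * An a (iw u v) P, U * An a (sp e s) Q, ?_, ?_, ?_, ?_⟩
  · linear_combination U * h1 + (tl (Md (1 : K) a).toLinearMap W +
      PowerSeries.C (Polynomial.C (e + s))) * hU
  · linear_combination U * h2 + PowerSeries.C (Polynomial.C u) * hU
  · intro c hca hrc hqc
    have h3 := eq_der hJ hca hr hQ hrc hqc
    rw [← hτ, hW.dd_eq (pderiv (R := K) (c, 1)) hC pderiv_C, hB, tl_Th1_mul, mul_left_comm] at h3
    exact mul_left_cancel₀ hτ0 h3
  · intro hs0
    subst hs0
    have h3 := eq_zd hJ he hP hQ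
    have h4 : ∀ B : PowerSeries (VV K L), Lxe a e (tl (mo 0) τ * B)
        = tl (mo 0) τ * (tl (LX al (al - 1) a) B +
        tl (Md (1 : K) a).toLinearMap W * B + PowerSeries.C (Polynomial.C e) * B) := by
      intro B
      rw [Lxe, tl_LX_mul, tl_Md_log hW]
      ring
    rw [← hτ, hB, h4, tl_Th1_mul, hW.eq, mul_left_comm] at h3
    exact mul_left_cancel₀ hτ0 h3

/-- The main formula. -/
theorem W_eq2 {J : Fam} (hJ : JOK J) (hE : Eig J a) {p q : L} (hpa : p ≠ a) (hqa : q ≠ a)
    (hpq : p ≠ q) {W : PowerSeries (AA K L)}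
    (hW : IsLog (C al) (PowerSeries.mk (tq J a (sp (X (p, 0)) (X (p, 1)))
      (iw (X (q, 1)) (X (q, 2))))) W) :
    W = Wx2 a p q fun m => k0 p p (PowerSeries.coeff m W) := by
  have gp : ∀ c i, c ≠ a → (X (c, i) : AA K L) ∈ Gp K a := fun c i hc =>
    Gp_X fun h => absurd h hc
  have pd : ∀ (v : L × ℕ), v ≠ (p, 1) → pderiv (p, 1) (X v : AA K L) = 0 := by
    intro v hv
    rw [pderiv_X, Pi.single_eq_of_ne hv]
  have hsp1 : ∀ i : ℕ, pderiv (p, 1) (sp (X (p, 0)) (X (p, 1)) i : AA K L)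
      = if i = 1 then 1 else 0 := by
    intro i
    have h1 : pderiv (p, 1) (X (p, 0) : AA K L) = 0 := pd _ fun h => by simp at h
    unfold sp
    split_ifs with h2 h3 h4
    · omega
    · exact map_zero _
    · rw [map_add, h1, pderiv_X_self, zero_add]
    · rw [map_add, h1, map_zero, zero_add]
  have hsp2 : ∀ i : ℕ, pderiv (p, 1) (iw (X (q, 1)) (X (q, 2)) i : AA K L) = 0 := by
    intro i
    unfold iw
    split_ifs
    · exact pd _ fun h => hpq (Prod.ext_iff.1 h).1.symm
    · exact pd _ fun h => hpq (Prod.ext_iff.1 h).1.symm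
    · exact map_zero _
  obtain ⟨A, B, h1, h2, h3, _⟩ := sys2 hJ hE (gp p 0 hpa) (gp p 1 hpa) (gp q 1 hqa)
    (gp q 2 hqa) hW
  obtain ⟨A', B', h'⟩ := sol2 (w := fun m => k0 p p (PowerSeries.coeff m W)) hpa hqa hpq
    (fun m => pderiv_k0_left _)
  refine sy2_unique ⟨h1, h2, h3 p hpa hsp1 hsp2⟩ h' ?_ ?_
  · have h5 : k0 p p (PowerSeries.coeff 0 W) = 0 := by rw [hW.zero, map_zero]
    rw [hW.zero, Wx2, map_add, map_add, map_add, PowerSeries.coeff_zero_X_mul, Uu,
      PowerSeries.coeff_zero_X_mul, PowerSeries.coeff_C_mul, coeff_cmb,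
      Finset.Nat.antidiagonal_zero, Finset.sum_singleton, Lg2, PowerSeries.coeff_mk]
    show (0 : AA K L) = _
    simp only [Nat.cast_zero, inv_zero, C_0, zero_mul, mul_zero, add_zero, zero_add]
    rw [h5, map_zero, map_zero]
  · intro n
    rw [Wx2, map_add (PowerSeries.coeff n), map_add (PowerSeries.coeff n),
      map_add (PowerSeries.coeff n), map_add, map_add, map_add, PowerSeries.coeff_C_mul,
      coeff_cmb, Lg2, PowerSeries.coeff_mk, map_sum]
    have hs0 : k0 p p (X (p, 1) : AA K L) = 0 := by rw [k0_X, if_pos (Or.inl rfl)]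
    have e1 : k0 p p (PowerSeries.coeff n (PowerSeries.X *
        PowerSeries.C (X (p, 1) * X (q, 1) * X (a, 1) : AA K L))) = 0 := by
      cases n with
      | zero => rw [PowerSeries.coeff_zero_X_mul, map_zero]
      | succ n =>
        rw [PowerSeries.coeff_succ_X_mul, PowerSeries.coeff_C]
        split_ifs
        · rw [map_mul, map_mul, hs0, zero_mul, zero_mul]
        · exact map_zero _
    have e1' : k0 p p (PowerSeries.coeff n (Uu (C (2⁻¹ : K) * (X (p, 1) ^ 2 * X (q, 2)) *
        X (a, 2) : AA K L))) = 0 := by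
      rw [Uu]
      rcases n with _ | _ | n
      · rw [PowerSeries.coeff_zero_X_mul, map_zero]
      · rw [PowerSeries.coeff_succ_X_mul, PowerSeries.coeff_zero_X_mul, map_zero]
      · rw [PowerSeries.coeff_succ_X_mul, PowerSeries.coeff_succ_X_mul, PowerSeries.coeff_C]
        split_ifs
        · rw [map_mul, map_mul, map_mul, map_pow, hs0]
          ring
        · exact map_zero _
    have e2 : k0 p p (X (p, 0) * (C (2 * (n : K)⁻¹) * (gc (X (p, 1) * X (q, 2)) n *
        X (a, n))) : AA K L) = 0 := by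
      rcases Nat.eq_zero_or_pos n with rfl | hn
      · rw [Nat.cast_zero, inv_zero, mul_zero, C_0, zero_mul, mul_zero, map_zero]
      · have e6 : k0 p p (gc (X (p, 1) * X (q, 2)) n * X (a, n) : AA K L) = 0 := by
          rw [map_mul, k0_gc, if_neg hn.ne', zero_mul]
        rw [map_mul (k0 p p), map_mul (k0 p p) (C _), e6, mul_zero, mul_zero]
    have e4 : ∑ x ∈ Finset.HasAntidiagonal.antidiagonal n, k0 p p (PowerSeries.coeff x.2
        (Pz2 a (X (p, 1) * X (q, 2)) (k0 p p (PowerSeries.coeff x.1 W))))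
        = k0 p p (PowerSeries.coeff n W) := by
      have e5 : ∀ x ∈ Finset.HasAntidiagonal.antidiagonal n, k0 p p (PowerSeries.coeff x.2
          (Pz2 a (X (p, 1) * X (q, 2)) (k0 p p (PowerSeries.coeff x.1 W))))
          = if x = (n, 0) then k0 p p (PowerSeries.coeff n W) else 0 := by
        intro x hx
        rw [Finset.HasAntidiagonal.mem_antidiagonal] at hx
        have h6 := congrArg (PowerSeries.coeff x.2)
          (k0_Pz2 (q := q) hpa (k0 p p (PowerSeries.coeff x.1 W)))
        rw [PowerSeries.coeff_map, PowerSeries.coeff_C, k0_k0] at h6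
        have h7 : k0 p p (PowerSeries.coeff x.2
          (Pz2 a (X (p, 1) * X (q, 2)) (k0 p p (PowerSeries.coeff x.1 W))))
          = if x.2 = 0 then k0 p p (PowerSeries.coeff x.1 W) else 0 := h6
        rw [h7]
        by_cases h8 : x.2 = 0
        · have h9 : x = (n, 0) := Prod.ext (by show x.1 = n; omega) h8
          rw [if_pos h8, if_pos h9, h9]
        · rw [if_neg h8, if_neg]
          intro h9
          rw [h9] at h8
          exact h8 rfl
      rw [Finset.sum_congr rfl e5, Finset.sum_ite_eq', if_pos]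
      rw [Finset.HasAntidiagonal.mem_antidiagonal]
      exact add_zero n
    rw [e1, e1', e2, e4, zero_add, zero_add, zero_add]

/-- The logarithm at `s = 0`. -/
theorem log_zero2 {J : Fam} {p q : L} (hpa : p ≠ a) (hpq : p ≠ q)
    {W : PowerSeries (AA K L)}
    (hW : IsLog (C al) (PowerSeries.mk (tq J a (sp (X (p, 0)) (X (p, 1)))
      (iw (X (q, 1)) (X (q, 2))))) W) :
    IsLog (C al) (PowerSeries.mk (tq J a (sp (X (p, 0)) 0) (iw (X (q, 1)) (X (q, 2)))))
      (PowerSeries.map (k0 p p : AA K L →+* AA K L) W) := by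
  have h1 := hW.map (k0 p p : AA K L →+* AA K L)
  have h2 : (k0 p p : AA K L →+* AA K L) (C al) = C al := k0_C al
  have h3 : PowerSeries.map (k0 p p : AA K L →+* AA K L)
      (PowerSeries.mk (tq J a (sp (X (p, 0)) (X (p, 1))) (iw (X (q, 1)) (X (q, 2)))))
      = PowerSeries.mk (tq J a (sp (X (p, 0)) 0) (iw (X (q, 1)) (X (q, 2)))) := by
    ext1 n
    rw [PowerSeries.coeff_map, PowerSeries.coeff_mk, PowerSeries.coeff_mk]
    show k0 p p _ = _
    rw [tq, map_sum]
    refine Finset.sum_congr rfl fun th _ => ?_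
    rw [map_mul, map_mul, map_mul, k0_C, hom_Jr, hom_Jr, Jp_eq_Jr, hom_Jr]
    have e0 : ∀ (c : L) (i : ℕ), c ≠ p → k0 p p (X (c, i) : AA K L) = X (c, i) := by
      intro c i hc
      rw [k0_X, if_neg]
      rintro (h | h)
      · exact hc (Prod.ext_iff.1 h).1
      · exact hc (Prod.ext_iff.1 h).1
    have e1 : (fun i => k0 p p (X (a, i) : AA K L)) = fun i => X (a, i) := by
      funext i
      rw [e0 a i hpa.symm]
    have e2 : (fun i => k0 p p (sp (X (p, 0)) (X (p, 1)) i : AA K L)) = sp (X (p, 0)) 0 := by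
      have h4 : k0 p p (X (p, 0) : AA K L) = X (p, 0) := by
        rw [k0_X, if_neg]
        rintro (h | h) <;> simp at h
      have h5 : k0 p p (X (p, 1) : AA K L) = 0 := by
        rw [k0_X, if_pos (Or.inl rfl)]
      funext i
      unfold sp
      split_ifs
      · exact map_zero _
      · rw [map_add, h4, h5]
      · rw [map_add, h4, map_zero]
    have e3 : (fun i => k0 p p (iw (X (q, 1)) (X (q, 2)) i : AA K L))
        = iw (X (q, 1)) (X (q, 2)) := by
      funext i
      unfold iw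
      split_ifs
      · exact e0 q 1 hpq.symm
      · exact e0 q 2 hpq.symm
      · exact map_zero _
    rw [e1, e2, e3]
  rw [h2, h3] at h1
  exact h1

end Solve

end Pool.Agent.JackB
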