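import Mathlib

/-!
The Lax operator of the Jack polynomials in power sum variables: `LX` acts on polynomials in
one more variable `Y`; `hk k` is the part of degree zero in `Y` of `LX ^ k`
(problem MP_b52a9f_co).
-/

open MvPolynomial

namespace Pool.Agent.JackB

/-- Polynomials in the variables `(a, i)`. -/
abbrev AA (F L : Type*) [Field F] : Type _ := MvPolynomial (L × ℕ) F

/-- Polynomials in one more variable. -/
abbrev VV (F L : Type*) [Field F] : Type _ := Polynomial (MvPolynomial (L × ℕ) F)

section Lax

variable {F : Type*} [Field F] {L : Type*} [DecidableEq L]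

/-- `f ↦ f Y ^ m`. -/
noncomputable def mo (m : ℕ) : AA F L →ₗ[F] VV F L :=
  (Polynomial.monomial m).restrictScalars F

omit [DecidableEq L] in
theorem mo_apply (m : ℕ) (f : AA F L) : mo m f = Polynomial.monomial m f := rfl

/-- The coefficient of `Y ^ m`. -/
noncomputable def co (m : ℕ) : VV F L →ₗ[F] AA F L :=
  (Polynomial.lcoeff (AA F L) m).restrictScalars F

omit [DecidableEq L] in
theorem co_apply (m : ℕ) (u : VV F L) : co m u = u.coeff m := rfl

omit [DecidableEq L] in
theorem co_mo (m k : ℕ) (f : AA F L) : co m (mo k f) = if k = m then f else 0 := by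
  rw [co_apply, mo_apply, Polynomial.coeff_monomial]

omit [DecidableEq L] in
/-- Linear maps agreeing on the `f Y ^ m` are equal. -/
theorem vext {W : Type*} [AddCommMonoid W] [Module F W] {S T : VV F L →ₗ[F] W}
    (h : ∀ m f, S (mo m f) = T (mo m f)) : S = T := by
  refine LinearMap.ext fun u => ?_
  induction u using Polynomial.induction_on' with
  | add p q hp hq => rw [map_add, map_add, hp, hq]
  | monomial m f => exact h m f

/-- Multiplication by `Y`. -/
noncomputable def Yp : VV F L →ₗ[F] VV F L := LinearMap.mulLeft F Polynomial.X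

omit [DecidableEq L] in
theorem Yp_mo (m : ℕ) (f : AA F L) : Yp (mo m f) = mo (m + 1) f := by
  rw [Yp, LinearMap.mulLeft_apply, mo_apply, mo_apply, Polynomial.X_mul_monomial]

/-- The operator lowering the exponent of `Y`. -/
noncomputable def Ym : VV F L →ₗ[F] VV F L where
  toFun u := Polynomial.divX u
  map_add' u v := Polynomial.divX_add
  map_smul' c u := by
    ext1 n
    rw [Polynomial.coeff_divX, RingHom.id_apply, Polynomial.coeff_smul, Polynomial.coeff_smul,
      Polynomial.coeff_divX]

omit [DecidableEq L] in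
theorem Ym_mo_succ (m : ℕ) (f : AA F L) : Ym (mo (m + 1) f) = mo m f := by
  show Polynomial.divX (mo (m + 1) f) = mo m f
  ext1 n
  rw [Polynomial.coeff_divX, mo_apply, mo_apply, Polynomial.coeff_monomial,
    Polynomial.coeff_monomial]
  simp

omit [DecidableEq L] in
theorem Ym_mo_zero (f : AA F L) : Ym (mo 0 f) = 0 := by
  show Polynomial.divX (mo 0 f) = 0
  ext1 n
  rw [Polynomial.coeff_divX, mo_apply, Polynomial.coeff_monomial, Polynomial.coeff_zero]
  simp

omit [DecidableEq L] in
theorem Ym_Yp (u : VV F L) : Ym (Yp u) = u := by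
  have : (Ym : VV F L →ₗ[F] VV F L) ∘ₗ Yp = LinearMap.id := by
    refine vext fun m f => ?_
    rw [LinearMap.comp_apply, Yp_mo, Ym_mo_succ, LinearMap.id_apply]
  exact LinearMap.congr_fun this u

omit [DecidableEq L] in
theorem Yp_Ym (u : VV F L) : Yp (Ym u) + mo 0 (co 0 u) = u := by
  have : (Yp : VV F L →ₗ[F] VV F L) ∘ₗ Ym + mo 0 ∘ₗ co 0 = LinearMap.id := by
    refine vext fun m f => ?_
    rw [LinearMap.add_apply, LinearMap.comp_apply, LinearMap.comp_apply, LinearMap.id_apply]
    cases m with
    | zero => rw [Ym_mo_zero, map_zero, zero_add, co_mo, if_pos rfl]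
    | succ m =>
      rw [Ym_mo_succ, Yp_mo, co_mo, if_neg (Nat.succ_ne_zero m), map_zero, add_zero]
  exact LinearMap.congr_fun this u

/-- The derivation sending the variable `(a, i)` to `α i Y ^ i`, the others to zero. -/
noncomputable def Md (al : F) (a : L) : Derivation F (AA F L) (VV F L) :=
  mkDerivation F fun v => if v.1 = a then mo v.2 (C (al * (v.2 : F))) else 0

theorem coeff_Md (al : F) (a : L) (f : AA F L) (i : ℕ) :
    co i (Md al a f) = C (al * (i : F)) * pderiv (a, i) f := by
  induction f using MvPolynomial.induction_on with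
  | C c => rw [pderiv_C, derivation_C, map_zero, mul_zero]
  | add p q hp hq => rw [map_add, map_add, hp, hq, map_add, mul_add]
  | mul_X p v hp =>
    rw [Derivation.leibniz, pderiv_mul, map_add]
    have h1 : co i (p • Md al a (X v)) = p * co i (Md al a (X v)) := by
      rw [co_apply, co_apply, Polynomial.coeff_smul, smul_eq_mul]
    have h2 : co i ((X v : AA F L) • Md al a p) = X v * co i (Md al a p) := by
      rw [co_apply, co_apply, Polynomial.coeff_smul, smul_eq_mul]
    have h3 : co i (Md al a (X v)) = C (al * (i : F)) * pderiv (a, i) (X v) := by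
      rw [Md, mkDerivation_X, pderiv_X]
      by_cases hv : v = (a, i)
      · rw [hv, Pi.single_eq_same, if_pos rfl, co_mo, if_pos rfl, mul_one]
      · rw [Pi.single_eq_of_ne hv, mul_zero]
        by_cases h4 : v.1 = a
        · rw [if_pos h4, co_mo, if_neg]
          intro h5
          exact hv (Prod.ext h4 h5)
        · rw [if_neg h4, map_zero]
    rw [h1, h2, h3, hp]
    ring

/-- The Lax operator. -/
noncomputable def LX (al b : F) (a : L) : VV F L →ₗ[F] VV F L :=
  Polynomial.lsum fun m =>
    (LinearMap.mulLeft F (Polynomial.X ^ m)).comp (Md al a).toLinearMap +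
      (b * (m : F)) • mo m +
      ∑ j ∈ Finset.range m, (mo (m - 1 - j)).comp (LinearMap.mulLeft F (X (a, j + 1)))

theorem LX_mo (al b : F) (a : L) (m : ℕ) (f : AA F L) :
    LX al b a (mo m f) = Polynomial.X ^ m * Md al a f + (b * (m : F)) • mo m f +
      ∑ j ∈ Finset.range m, mo (m - 1 - j) (X (a, j + 1) * f) := by
  have h1 : LX al b a (mo m f) = ((LinearMap.mulLeft F (Polynomial.X ^ m)).comp
      (Md al a).toLinearMap + (b * (m : F)) • mo m +
      ∑ j ∈ Finset.range m, (mo (m - 1 - j)).comp (LinearMap.mulLeft F (X (a, j + 1))) :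
        AA F L →ₗ[F] VV F L) f := by
    show (Polynomial.monomial m f).sum _ = _
    rw [Polynomial.sum_monomial_index]
    exact LinearMap.map_zero _
  rw [h1, LinearMap.add_apply, LinearMap.add_apply, LinearMap.sum_apply]
  rfl

/-- `f Y ^ m ↦ p_(m+1) f`. -/
noncomputable def Th1 (a : L) : VV F L →ₗ[F] AA F L :=
  Polynomial.lsum fun m => LinearMap.mulLeft F (X (a, m + 1))

omit [DecidableEq L] in
theorem Th1_mo (a : L) (m : ℕ) (f : AA F L) : Th1 a (mo m f) = X (a, m + 1) * f := by
  show (Polynomial.monomial m f).sum _ = _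
  rw [Polynomial.sum_monomial_index]
  · rfl
  · exact LinearMap.map_zero _

omit [DecidableEq L] in
theorem C_mul_mo (g : AA F L) (m : ℕ) (f : AA F L) :
    Polynomial.C g * mo m f = mo m (g * f) := by
  rw [mo_apply, mo_apply, Polynomial.C_mul_monomial]

omit [DecidableEq L] in
theorem Th1_C_mul (a : L) (g : AA F L) (u : VV F L) :
    Th1 a (Polynomial.C g * u) = g * Th1 a u := by
  have : (Th1 a : VV F L →ₗ[F] AA F L) ∘ₗ LinearMap.mulLeft F (Polynomial.C g)
      = LinearMap.mulLeft F g ∘ₗ Th1 a := by
    refine vext fun m f => ?_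
    rw [LinearMap.comp_apply, LinearMap.comp_apply, LinearMap.mulLeft_apply,
      LinearMap.mulLeft_apply, C_mul_mo, Th1_mo, Th1_mo]
    ring
  exact LinearMap.congr_fun this u

/-- The self-similarity of the Lax operator. -/
theorem LX_Yp (al b : F) (a : L) (u : VV F L) :
    LX al b a (Yp u) = Yp (LX al b a u + b • u) + mo 0 (Th1 a u) := by
  have : LX al b a ∘ₗ Yp = Yp ∘ₗ (LX al b a + b • LinearMap.id) + mo 0 ∘ₗ Th1 a := by
    refine vext fun m f => ?_
    rw [LinearMap.comp_apply, LinearMap.add_apply, LinearMap.comp_apply, LinearMap.comp_apply,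
      LinearMap.add_apply, LinearMap.smul_apply, LinearMap.id_apply, Yp_mo, LX_mo, LX_mo, Th1_mo,
      map_add, map_add, map_add, map_smul, map_smul, Yp_mo, map_sum, Finset.sum_range_succ]
    have h1 : ∑ j ∈ Finset.range m, (mo (m + 1 - 1 - j) (X (a, j + 1) * f) : VV F L)
        = ∑ j ∈ Finset.range m, Yp (mo (m - 1 - j) (X (a, j + 1) * f)) := by
      refine Finset.sum_congr rfl fun j hj => ?_
      rw [Finset.mem_range] at hj
      rw [Yp_mo]
      congr 2
      omega
    have h2 : (Yp (Polynomial.X ^ m * Md al a f) : VV F L) = Polynomial.X ^ (m + 1) * Md al a f := by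
      rw [Yp, LinearMap.mulLeft_apply]
      ring
    have h3 : m + 1 - 1 - m = 0 := by omega
    rw [h1, h2, h3]
    have h4 : ((b * ((m + 1 : ℕ) : F)) • mo (m + 1) f : VV F L)
        = (b * (m : F)) • mo (m + 1) f + b • mo (m + 1) f := by
      rw [← add_smul]
      congr 1
      push_cast
      ring
    rw [h4]
    abel
  exact LinearMap.congr_fun this u

/-- Leibniz rule of the Lax operator. -/
theorem LX_C_mul (al b : F) (a : L) (g : AA F L) (u : VV F L) :
    LX al b a (Polynomial.C g * u) = Polynomial.C g * LX al b a u + Md al a g * u := by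
  have : LX al b a ∘ₗ LinearMap.mulLeft F (Polynomial.C g)
      = LinearMap.mulLeft F (Polynomial.C g) ∘ₗ LX al b a + LinearMap.mulLeft F (Md al a g) := by
    refine vext fun m f => ?_
    rw [LinearMap.comp_apply, LinearMap.add_apply, LinearMap.comp_apply, LinearMap.mulLeft_apply,
      LinearMap.mulLeft_apply, LinearMap.mulLeft_apply, C_mul_mo, LX_mo, LX_mo,
      Derivation.leibniz, mul_add, mul_add, mul_add, Finset.mul_sum]
    have h1 : ∀ j ∈ Finset.range m, (Polynomial.C g * mo (m - 1 - j) (X (a, j + 1) * f) : VV F L)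
        = mo (m - 1 - j) (X (a, j + 1) * (g * f)) := by
      intro j _
      rw [C_mul_mo]
      congr 1
      ring
    rw [Finset.sum_congr rfl h1]
    have h2 : (Polynomial.C g * (b * (m : F)) • mo m f : VV F L) = (b * (m : F)) • mo m (g * f) := by
      rw [mul_smul_comm, C_mul_mo]
    rw [h2]
    have h3 : (f • Md al a g : VV F L) = Polynomial.C f * Md al a g := by
      rw [Polynomial.smul_eq_C_mul]
    have h4 : (g • Md al a f : VV F L) = Polynomial.C g * Md al a f := by
      rw [Polynomial.smul_eq_C_mul]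
    have h5 : (mo m f : VV F L) = Polynomial.C f * Polynomial.X ^ m := by
      rw [mo_apply, Polynomial.C_mul_X_pow_eq_monomial]
    rw [h3, h4, h5]
    ring
  exact LinearMap.congr_fun this u

theorem LX_zero (al b : F) (a : L) (f : AA F L) : LX al b a (mo 0 f) = Md al a f := by
  rw [LX_mo]
  simp

theorem co_zero_Md (al : F) (a : L) (f : AA F L) : co 0 (Md al a f) = 0 := by
  rw [coeff_Md]
  simp

/-- The operators `h_k`. -/
noncomputable def hk (al b : F) (a : L) (k : ℕ) : AA F L →ₗ[F] AA F L :=
  co 0 ∘ₗ (LX al b a ^ k : Module.End F (VV F L)) ∘ₗ mo 0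

theorem hk_apply (al b : F) (a : L) (k : ℕ) (f : AA F L) :
    hk al b a k f = co 0 ((LX al b a ^ k : Module.End F (VV F L)) (mo 0 f)) := rfl

end Lax

section Form

variable {F : Type*} [Field F] {L : Type*} [DecidableEq L]

/-- The squared norm of a monomial in the power sums of the alphabet `a`; all other variables
are orthonormal. -/
noncomputable def wm (al : F) (a : L) (d : L × ℕ →₀ ℕ) : F :=
  d.prod fun v k => if v.1 = a ∧ v.2 ≠ 0 then (al * (v.2 : F)) ^ k * (k.factorial : F) else 1

theorem wm_add_single (al : F) (a : L) (d : L × ℕ →₀ ℕ) (i : ℕ) (hi : i ≠ 0) :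
    wm al a (d + Finsupp.single (a, i) 1) = wm al a d * (al * (i : F) * ((d (a, i) : F) + 1)) := by
  set g : L × ℕ → ℕ → F := fun v k =>
    if v.1 = a ∧ v.2 ≠ 0 then (al * (v.2 : F)) ^ k * (k.factorial : F) else 1 with hg
  have hg0 : ∀ v, g v 0 = 1 := by
    intro v
    rw [hg]
    by_cases h : v.1 = a ∧ v.2 ≠ 0
    · simp [h]
    · simp [h]
  have h1 : ∀ e : L × ℕ →₀ ℕ, ∀ t : Finset (L × ℕ), e.support ⊆ t → wm al a e
      = ∏ v ∈ t, g v (e v) := fun e t ht => Finsupp.prod_of_support_subset e ht _
      (fun v _ => hg0 v)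
  have ht1 : d.support ⊆ insert (a, i) d.support := Finset.subset_insert _ _
  have ht2 : (d + Finsupp.single (a, i) 1).support ⊆ insert (a, i) d.support := by
    intro v hv
    rw [Finset.mem_insert]
    by_cases h : v = (a, i)
    · exact Or.inl h
    · right
      rw [Finsupp.mem_support_iff] at hv ⊢
      rw [Finsupp.add_apply, Finsupp.single_apply, if_neg (Ne.symm h), add_zero] at hv
      exact hv
  have hmem : (a, i) ∈ insert (a, i) d.support := Finset.mem_insert_self _ _
  rw [h1 _ _ ht2, h1 _ _ ht1, ← Finset.mul_prod_erase _ _ hmem, ← Finset.mul_prod_erase _ _ hmem]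
  have h2 : ∏ v ∈ (insert (a, i) d.support).erase (a, i),
      g v ((d + Finsupp.single (a, i) 1 : L × ℕ →₀ ℕ) v)
      = ∏ v ∈ (insert (a, i) d.support).erase (a, i), g v (d v) := by
    refine Finset.prod_congr rfl fun v hv => ?_
    rw [Finsupp.add_apply, Finsupp.single_apply, if_neg (Finset.ne_of_mem_erase hv).symm, add_zero]
  rw [h2, Finsupp.add_apply, Finsupp.single_eq_same]
  have h3 : ∀ k, g (a, i) k = (al * (i : F)) ^ k * (k.factorial : F) := by
    intro k
    rw [hg]
    simp [hi]
  rw [h3, h3, Nat.factorial_succ, pow_succ]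
  push_cast
  ring

/-- The bilinear form on polynomials. -/
noncomputable def B0 (al : F) (a : L) : AA F L →ₗ[F] AA F L →ₗ[F] F :=
  (basisMonomials (L × ℕ) F).constr F fun d => wm al a d • (lcoeff F d)

theorem B0_monomial (al : F) (a : L) (d : L × ℕ →₀ ℕ) (c : F) (g : AA F L) :
    B0 al a (monomial d c) g = c * (wm al a d * g.coeff d) := by
  have h1 : (monomial d c : AA F L) = c • (basisMonomials (L × ℕ) F) d := by
    rw [coe_basisMonomials, smul_monomial, smul_eq_mul, mul_one]
  rw [h1, map_smul, B0, Module.Basis.constr_basis]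
  rfl

theorem B0_symm (al : F) (a : L) (f g : AA F L) : B0 al a f g = B0 al a g f := by
  induction f using MvPolynomial.induction_on' with
  | monomial d c =>
    induction g using MvPolynomial.induction_on' with
    | monomial e c' =>
      rw [B0_monomial, B0_monomial, coeff_monomial, coeff_monomial]
      by_cases h : e = d
      · rw [if_pos h, if_pos h.symm, h]
        ring
      · rw [if_neg h, if_neg (Ne.symm h)]
        ring
    | add p q hp hq => rw [map_add, hp, hq, map_add, LinearMap.add_apply]
  | add p q hp hq => rw [map_add, LinearMap.add_apply, hp, hq, map_add]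

theorem B0_X_mul (al : F) (a : L) (i : ℕ) (hi : i ≠ 0) (f g : AA F L) :
    B0 al a (X (a, i) * f) g = B0 al a f (C (al * (i : F)) * pderiv (a, i) g) := by
  induction f using MvPolynomial.induction_on' with
  | monomial d c =>
    rw [X, monomial_mul, one_mul, B0_monomial, B0_monomial, coeff_C_mul, coeff_pderiv,
      add_comm (Finsupp.single (a, i) 1), wm_add_single al a d i hi]
    ring
  | add p q hp hq => rw [mul_add, map_add, LinearMap.add_apply, hp, hq, map_add,
      LinearMap.add_apply]

theorem wm_ne_zero [CharZero F] {al : F} (hal : al ≠ 0) (a : L) (d : L × ℕ →₀ ℕ) :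
    wm al a d ≠ 0 := by
  rw [wm, Finsupp.prod, Finset.prod_ne_zero_iff]
  intro v _
  split_ifs with h
  · refine mul_ne_zero (pow_ne_zero _ (mul_ne_zero hal (Nat.cast_ne_zero.2 h.2))) ?_
    exact Nat.cast_ne_zero.2 (Nat.factorial_ne_zero _)
  · exact one_ne_zero

/-- The bilinear form on `V`. -/
noncomputable def B1 (al : F) (a : L) : VV F L →ₗ[F] VV F L →ₗ[F] F :=
  Polynomial.lsum fun m => (B0 al a).compl₂ (co m)

theorem B1_mo_left (al : F) (a : L) (m : ℕ) (f : AA F L) (w : VV F L) :
    B1 al a (mo m f) w = B0 al a f (co m w) := by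
  have h1 : B1 al a (mo m f) = (B0 al a).compl₂ (co m) f := by
    show (Polynomial.monomial m f).sum _ = _
    rw [Polynomial.sum_monomial_index]
    exact LinearMap.map_zero _
  rw [h1]
  rfl

theorem B1_mo_right (al : F) (a : L) (m : ℕ) (u : VV F L) (g : AA F L) :
    B1 al a u (mo m g) = B0 al a (co m u) g := by
  have : (B1 al a).flip (mo m g) = (B0 al a).flip g ∘ₗ co m := by
    refine vext fun k f => ?_
    rw [LinearMap.flip_apply, B1_mo_left, LinearMap.comp_apply, LinearMap.flip_apply, co_mo, co_mo]
    by_cases h : m = k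
    · rw [if_pos h, if_pos h.symm]
    · rw [if_neg h, if_neg (Ne.symm h), map_zero, map_zero, LinearMap.zero_apply]
  exact LinearMap.congr_fun this u

theorem co_LX_mo (al b : F) (a : L) (m k : ℕ) (f : AA F L) :
    co k (LX al b a (mo m f)) =
      (if m ≤ k then C (al * ((k - m : ℕ) : F)) * pderiv (a, k - m) f else 0) +
      (if m = k then C (b * (m : F)) * f else 0) +
      (if k < m then X (a, m - k) * f else 0) := by
  rw [LX_mo, map_add, map_add, map_sum, map_smul, co_mo]
  congr 1
  · congr 1
    · rw [co_apply, Polynomial.coeff_X_pow_mul', ← co_apply, coeff_Md]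
    · split_ifs
      · rw [smul_eq_C_mul]
      · rw [smul_zero]
  · have h1 : ∀ j ∈ Finset.range m, (co k (mo (m - 1 - j) (X (a, j + 1) * f) : VV F L))
        = if j = m - 1 - k ∧ k < m then X (a, m - k) * f else 0 := by
      intro j hj
      rw [Finset.mem_range] at hj
      rw [co_mo]
      by_cases h : m - 1 - j = k
      · have h2 : j = m - 1 - k ∧ k < m := by omega
        have h3 : j + 1 = m - k := by omega
        rw [if_pos h, if_pos h2, h3]
      · rw [if_neg h, if_neg (by omega)]
    rw [Finset.sum_congr rfl h1]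
    by_cases hk : k < m
    · rw [if_pos hk, Finset.sum_eq_single (m - 1 - k)]
      · rw [if_pos ⟨rfl, hk⟩]
      · intro j _ hj
        rw [if_neg fun h => hj h.1]
      · intro h
        exact absurd (Finset.mem_range.2 (by omega)) h
    · rw [if_neg hk]
      refine Finset.sum_eq_zero fun j _ => ?_
      rw [if_neg fun h => hk h.2]

theorem LX_adj (al b : F) (a : L) (u w : VV F L) :
    B1 al a (LX al b a u) w = B1 al a u (LX al b a w) := by
  have key : ∀ (m k : ℕ) (f g : AA F L),
      B1 al a (LX al b a (mo m f)) (mo k g) = B1 al a (mo m f) (LX al b a (mo k g)) := by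
    intro m k f g
    rw [B1_mo_right, B1_mo_left, co_LX_mo, co_LX_mo]
    rcases lt_trichotomy m k with h | h | h
    · have h0 : k - m ≠ 0 := by omega
      rw [if_pos h.le, if_neg h.ne, if_neg (by omega), if_neg (by omega), if_neg h.ne', if_pos h,
        add_zero, add_zero, zero_add, zero_add, B0_symm, ← B0_X_mul al a (k - m) h0, B0_symm]
    · subst h
      rw [if_pos le_rfl, if_pos rfl, if_neg (lt_irrefl m), add_zero, Nat.sub_self, Nat.cast_zero,
        mul_zero, C_0, zero_mul, zero_add, if_pos le_rfl, if_pos rfl, if_neg (lt_irrefl m),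
        add_zero, C_mul']
      rw [map_smul, LinearMap.smul_apply, zero_mul, zero_add, C_mul', map_smul]
    · have h0 : m - k ≠ 0 := by omega
      rw [if_neg (by omega), if_neg h.ne', if_pos h, if_pos h.le, if_neg h.ne, if_neg (by omega),
        add_zero, add_zero, add_zero, zero_add, B0_X_mul al a (m - k) h0]
  have h1 : ∀ (m : ℕ) (f : AA F L), B1 al a (LX al b a (mo m f)) = B1 al a (mo m f) ∘ₗ LX al b a :=
    fun m f => vext fun k g => key m k f g
  have h2 : (B1 al a).flip w ∘ₗ LX al b a = (B1 al a).flip (LX al b a w) := by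
    refine vext fun m f => ?_
    rw [LinearMap.comp_apply, LinearMap.flip_apply, LinearMap.flip_apply, h1]
    rfl
  exact LinearMap.congr_fun h2 u

theorem LX_pow_adj (al b : F) (a : L) (k : ℕ) (u w : VV F L) :
    B1 al a ((LX al b a ^ k : Module.End F (VV F L)) u) w
      = B1 al a u ((LX al b a ^ k : Module.End F (VV F L)) w) := by
  induction k generalizing u w with
  | zero => rfl
  | succ k ih =>
    rw [pow_succ, Module.End.mul_apply, ih, LX_adj]
    congr 1
    rw [← pow_succ, pow_succ', Module.End.mul_apply]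

theorem hk_adj (al b : F) (a : L) (k : ℕ) (f g : AA F L) :
    B0 al a (hk al b a k f) g = B0 al a f (hk al b a k g) := by
  rw [hk_apply, hk_apply, ← B1_mo_right, LX_pow_adj, B1_mo_left]

theorem B1_nondeg [CharZero F] {al : F} (hal : al ≠ 0) (a : L) {w : VV F L}
    (h : ∀ u, B1 al a u w = 0) : w = 0 := by
  ext1 m
  ext1 d
  have h1 := h (mo m (monomial d 1))
  rw [B1_mo_left, B0_monomial, one_mul] at h1
  rcases mul_eq_zero.1 h1 with h2 | h2
  · exact absurd h2 (wm_ne_zero hal a d)
  · rw [Polynomial.coeff_zero, coeff_zero]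
    exact h2

end Form

end Pool.Agent.JackB
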