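import Pool.Agent.Lib.JackB.Lax

/-!
The Lax operator commutes with the extension `D2t` of the Laplace-Beltrami operator `D2`
(problem MP_b52a9f_co).
-/

open MvPolynomial

namespace Pool.Agent.JackB

section Lax2

variable {F : Type*} [Field F] {L : Type*} [DecidableEq L]

omit [DecidableEq L] in
theorem co_zero_Yp (u : VV F L) : co 0 (Yp u) = 0 := by
  rw [co_apply, Yp, LinearMap.mulLeft_apply, Polynomial.mul_coeff_zero, Polynomial.coeff_X_zero,
    zero_mul]

theorem Ym_LX (al b : F) (a : L) (u : VV F L) :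
    Ym (LX al b a u) = LX al b a (Ym u) + b • Ym u + Ym (Md al a (co 0 u)) := by
  have h1 := Yp_Ym u
  have h2 : LX al b a u = LX al b a (Yp (Ym u)) + LX al b a (mo 0 (co 0 u)) := by
    rw [← map_add, h1]
  rw [h2, LX_Yp, LX_zero, map_add, map_add, Ym_Yp, Ym_mo_zero, add_zero]

theorem co_zero_LX (al b : F) (a : L) (u : VV F L) :
    co 0 (LX al b a u) = Th1 a (Ym u) := by
  have h1 := Yp_Ym u
  have h2 : LX al b a u = LX al b a (Yp (Ym u)) + LX al b a (mo 0 (co 0 u)) := by
    rw [← map_add, h1]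
  rw [h2, LX_Yp, LX_zero, map_add, map_add, co_zero_Yp, co_mo, if_pos rfl, co_zero_Md, zero_add,
    add_zero]

theorem Yp_adj (al : F) (a : L) (u w : VV F L) : B1 al a (Yp u) w = B1 al a u (Ym w) := by
  have h1 : (B1 al a).flip w ∘ₗ Yp = (B1 al a).flip (Ym w) := by
    refine vext fun m f => ?_
    rw [LinearMap.comp_apply, LinearMap.flip_apply, LinearMap.flip_apply, Yp_mo, B1_mo_left,
      B1_mo_left]
    congr 1
    show w.coeff (m + 1) = (Polynomial.divX w).coeff m
    rw [Polynomial.coeff_divX]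
  exact LinearMap.congr_fun h1 u

theorem B1_symm (al : F) (a : L) (u w : VV F L) : B1 al a u w = B1 al a w u := by
  have h1 : (B1 al a).flip w = B1 al a w := by
    refine vext fun m f => ?_
    rw [LinearMap.flip_apply, B1_mo_left, B1_mo_right, B0_symm]
  exact LinearMap.congr_fun h1 u

theorem Th1_adj (al : F) (a : L) (f : AA F L) (u : VV F L) :
    B1 al a (Ym (Md al a f)) u = B0 al a f (Th1 a u) := by
  have h1 : B1 al a (Ym (Md al a f)) = B0 al a f ∘ₗ Th1 a := by
    refine vext fun m g => ?_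
    rw [LinearMap.comp_apply, B1_mo_right, Th1_mo]
    have h2 : co m (Ym (Md al a f)) = co (m + 1) (Md al a f) := by
      show (Polynomial.divX (Md al a f)).coeff m = _
      rw [Polynomial.coeff_divX]
      rfl
    rw [h2, coeff_Md, B0_symm, ← B0_X_mul al a (m + 1) (Nat.succ_ne_zero m), B0_symm]
  exact LinearMap.congr_fun h1 u

/-- The Laplace-Beltrami operator. -/
noncomputable def D2 (al b : F) (a : L) : AA F L →ₗ[F] AA F L :=
  (2 * al)⁻¹ • (Th1 a ∘ₗ LX al b a ∘ₗ Ym ∘ₗ (Md al a).toLinearMap)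

theorem D2_apply (al b : F) (a : L) (f : AA F L) :
    D2 al b a f = (2 * al)⁻¹ • Th1 a (LX al b a (Ym (Md al a f))) := rfl

theorem D2_adj (al b : F) (a : L) (f g : AA F L) :
    B0 al a (D2 al b a f) g = B0 al a f (D2 al b a g) := by
  rw [D2_apply, D2_apply, map_smul, map_smul, LinearMap.smul_apply, ← Th1_adj, B0_symm,
    ← Th1_adj, B1_symm, LX_adj]

omit [DecidableEq L] in
theorem lsum_mo {W : Type*} [AddCommMonoid W] [Module F W] (g : ℕ → AA F L →ₗ[F] W) (m : ℕ)
    (f : AA F L) : (Polynomial.lsum g : VV F L →ₗ[F] W) (mo m f) = g m f := by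
  show (Polynomial.monomial m f).sum (fun n x => g n x) = _
  rw [Polynomial.sum_monomial_index]
  exact LinearMap.map_zero _

omit [DecidableEq L] in
theorem Yp_apply (u : VV F L) : Yp u = Polynomial.X * u := by
  rw [Yp, LinearMap.mulLeft_apply]

omit [DecidableEq L] in
theorem X_pow_mul_mo (j m : ℕ) (f : AA F L) :
    (Polynomial.X ^ j * mo m f : VV F L) = mo (j + m) f := by
  rw [mo_apply, mo_apply, Polynomial.X_pow_mul_monomial, add_comm]

/-- The extension of `D2` to `V`. -/
noncomputable def D2t (al b : F) (a : L) : VV F L →ₗ[F] VV F L :=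
  Polynomial.lsum fun m => mo m ∘ₗ D2 al b a +
    ∑ j ∈ Finset.range m, LinearMap.mulLeft F (Polynomial.X ^ (j + 1)) ∘ₗ LX al b a ∘ₗ
      mo (m - 1 - j)

theorem D2t_mo (al b : F) (a : L) (m : ℕ) (f : AA F L) :
    D2t al b a (mo m f) = mo m (D2 al b a f) +
      ∑ j ∈ Finset.range m, Polynomial.X ^ (j + 1) * (LX al b a (mo (m - 1 - j) f)) := by
  rw [D2t, lsum_mo, LinearMap.add_apply, LinearMap.sum_apply, LinearMap.comp_apply]
  refine congrArg _ (Finset.sum_congr rfl fun j _ => ?_)
  rw [LinearMap.comp_apply, LinearMap.comp_apply, LinearMap.mulLeft_apply]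

theorem D2t_zero (al b : F) (a : L) (f : AA F L) :
    D2t al b a (mo 0 f) = mo 0 (D2 al b a f) := by
  rw [D2t_mo, Finset.sum_range_zero, add_zero]

theorem D2t_Yp (al b : F) (a : L) (u : VV F L) :
    D2t al b a (Yp u) = Yp (D2t al b a u + LX al b a u) := by
  have : D2t al b a ∘ₗ Yp = Yp ∘ₗ (D2t al b a + LX al b a) := by
    refine vext fun m f => ?_
    rw [LinearMap.comp_apply, LinearMap.comp_apply, LinearMap.add_apply, Yp_mo, D2t_mo, D2t_mo,
      Finset.sum_range_succ', map_add, map_add, map_sum, Yp_mo, Yp_apply (LX al b a _), zero_add,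
      pow_one, Nat.sub_zero, Nat.add_sub_cancel, add_assoc]
    refine congrArg _ ?_
    refine congrArg₂ _ (Finset.sum_congr rfl fun j _ => ?_) rfl
    have h1 : m - (j + 1) = m - 1 - j := by omega
    rw [Yp_apply, ← mul_assoc, ← pow_succ', h1]
  exact LinearMap.congr_fun this u

theorem co_zero_D2t (al b : F) (a : L) (u : VV F L) :
    co 0 (D2t al b a u) = D2 al b a (co 0 u) := by
  have h1 := Yp_Ym u
  have h2 : D2t al b a u = D2t al b a (Yp (Ym u)) + D2t al b a (mo 0 (co 0 u)) := by
    rw [← map_add, h1]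
  rw [h2, D2t_Yp, D2t_zero, map_add, co_zero_Yp, zero_add, co_mo, if_pos rfl]

theorem D2t_adj (al b : F) (a : L) (u w : VV F L) :
    B1 al a (D2t al b a u) w = B1 al a u (D2t al b a w) := by
  have key : ∀ (m : ℕ) (f : AA F L) (w : VV F L),
      B1 al a (D2t al b a (mo m f)) w = B1 al a (mo m f) (D2t al b a w) := by
    intro m
    induction m with
    | zero =>
      intro f w
      rw [D2t_zero, B1_mo_left, B1_mo_left, co_zero_D2t, D2_adj]
    | succ m ih =>
      intro f w
      have h1 := Yp_Ym w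
      have h2 : D2t al b a w = D2t al b a (Yp (Ym w)) + D2t al b a (mo 0 (co 0 w)) := by
        rw [← map_add, h1]
      rw [← Yp_mo, D2t_Yp, Yp_adj, Yp_adj, h2, D2t_Yp, D2t_zero,
        map_add, map_add, LinearMap.add_apply, ih, LX_adj, Ym_Yp, Ym_mo_zero, add_zero,
        map_add]
  have h2 : (B1 al a).flip w ∘ₗ D2t al b a = (B1 al a).flip (D2t al b a w) := by
    refine vext fun m f => ?_
    rw [LinearMap.comp_apply, LinearMap.flip_apply, LinearMap.flip_apply, key]
  exact LinearMap.congr_fun h2 u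

/-- `Y ^ k` times a polynomial, under `Th1`. -/
theorem Th1_X_pow_LX (al b : F) (a : L) (j m : ℕ) (f : AA F L) :
    Th1 a (Polynomial.X ^ j * (LX al b a (mo m f)))
      = Th1 a (Polynomial.X ^ (j + m) * (Md al a f)) +
        (b * (m : F)) • (X (a, j + m + 1) * f) +
        ∑ l ∈ Finset.range m, X (a, l + 1) * (X (a, j + m - l) * f) := by
  rw [LX_mo, mul_add, mul_add, map_add, map_add, mul_smul_comm, map_smul, Finset.mul_sum, map_sum,
    X_pow_mul_mo, Th1_mo, ← mul_assoc, ← pow_add]
  refine congrArg _ (Finset.sum_congr rfl fun l hl => ?_)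
  rw [Finset.mem_range] at hl
  rw [X_pow_mul_mo, Th1_mo]
  have : j + (m - 1 - l) + 1 = j + m - l := by omega
  rw [this]
  ring

omit [DecidableEq L] in
theorem sum_symm_aux (a : L) (k : ℕ) (f : AA F L) :
    (2 : F) • ∑ j ∈ Finset.range (k + 1), ∑ l ∈ Finset.range (k - j),
        (X (a, l + 1) * (X (a, k - l) * f) : AA F L)
      = ((k + 1 : ℕ) : F) • ∑ l ∈ Finset.range k, (X (a, l + 1) * (X (a, k - l) * f) : AA F L) := by
  set g : ℕ → AA F L := fun l => X (a, l + 1) * (X (a, k - l) * f) with hg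
  have h1 : ∑ j ∈ Finset.range (k + 1), ∑ l ∈ Finset.range (k - j), g l
      = ∑ l ∈ Finset.range k, ((k - l : ℕ) : F) • g l := by
    have h2 : ∀ n ≤ k, ∑ j ∈ Finset.range (k + 1), ∑ l ∈ Finset.range (k - j), g l
        = ∑ j ∈ Finset.range (k + 1), ∑ l ∈ Finset.range k, if l < k - j then g l else 0 := by
      intro n _
      refine Finset.sum_congr rfl fun j _ => ?_
      rw [← Finset.sum_filter]
      congr 1
      ext l
      rw [Finset.mem_filter, Finset.mem_range, Finset.mem_range]
      omega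
    rw [h2 k le_rfl, Finset.sum_comm]
    refine Finset.sum_congr rfl fun l hl => ?_
    rw [Finset.mem_range] at hl
    rw [← Finset.sum_filter, Finset.sum_const]
    have h3 : ((Finset.range (k + 1)).filter fun j => l < k - j) = Finset.range (k - l) := by
      ext j
      rw [Finset.mem_filter, Finset.mem_range, Finset.mem_range]
      omega
    rw [h3, Finset.card_range, Nat.cast_smul_eq_nsmul]
  have h4 : ∑ l ∈ Finset.range k, ((k - l : ℕ) : F) • g l
      = ∑ l ∈ Finset.range k, ((l + 1 : ℕ) : F) • g l := by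
    rw [← Finset.sum_range_reflect]
    refine Finset.sum_congr rfl fun l hl => ?_
    rw [Finset.mem_range] at hl
    have h5 : k - (k - 1 - l) = l + 1 := by omega
    have h6 : g (k - 1 - l) = g l := by
      rw [hg]
      have h7 : k - 1 - l + 1 = k - l := by omega
      have h8 : k - (k - 1 - l) = l + 1 := by omega
      simp only [h7, h8]
      ring
    rw [h5, h6]
  show (2 : F) • ∑ j ∈ Finset.range (k + 1), ∑ l ∈ Finset.range (k - j), g l
    = ((k + 1 : ℕ) : F) • ∑ l ∈ Finset.range k, g l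
  rw [two_smul]
  nth_rewrite 1 [h1]
  rw [h1, h4, ← Finset.sum_add_distrib, Finset.smul_sum]
  have h9 : ∀ l ∈ Finset.range k, ((l + 1 : ℕ) : F) • g l + ((l + 1 : ℕ) : F) • g l
      = ((l + 1 : ℕ) : F) • g l + ((l + 1 : ℕ) : F) • g l := fun _ _ => rfl
  rw [Finset.sum_add_distrib]
  nth_rewrite 1 [← h4]
  rw [← Finset.sum_add_distrib]
  refine Finset.sum_congr rfl fun l hl => ?_
  rw [Finset.mem_range] at hl
  rw [← add_smul]
  congr 1
  rw [← Nat.cast_add]
  congr 1
  omega

omit [DecidableEq L] in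
theorem Ym_C_mul (g : AA F L) (u : VV F L) :
    Ym (Polynomial.C g * u) = Polynomial.C g * Ym u := by
  ext1 n
  show (Polynomial.divX (Polynomial.C g * u)).coeff n
    = (Polynomial.C g * Polynomial.divX u).coeff n
  rw [Polynomial.coeff_divX, Polynomial.coeff_C_mul, Polynomial.coeff_C_mul, Polynomial.coeff_divX]

theorem Md_X (al : F) (a : L) (k : ℕ) :
    Md al a (X (a, k)) = (al * (k : F)) • (Polynomial.X ^ k : VV F L) := by
  rw [Md, mkDerivation_X, if_pos rfl, mo_apply, ← Polynomial.C_mul_X_pow_eq_monomial,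
    ← Polynomial.smul_eq_C_mul, ← algebraMap_eq, algebraMap_smul]

theorem Yp_Ym_Md (al : F) (a : L) (f : AA F L) : Yp (Ym (Md al a f)) = Md al a f := by
  have h1 := Yp_Ym (Md al a f)
  rw [co_zero_Md, map_zero, add_zero] at h1
  exact h1

/-- `D2` on a product with a power sum. -/
theorem D2_X_mul {al : F} (hal : al ≠ 0) (b : F) (a : L) (m : ℕ) (f : AA F L) :
    D2 al b a (X (a, m + 1) * f) = X (a, m + 1) * D2 al b a f +
      (2⁻¹ * ((m + 1 : ℕ) : F)) • (Th1 a (Polynomial.X ^ m * Md al a f) +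
        Th1 a (LX al b a (mo m f))) := by
  have h1 : Md al a (X (a, m + 1) * f) = Polynomial.C (X (a, m + 1)) * Md al a f +
      (al * ((m + 1 : ℕ) : F)) • mo (m + 1) f := by
    rw [Derivation.leibniz, Md_X, Polynomial.smul_eq_C_mul, smul_comm, Polynomial.smul_eq_C_mul,
      Polynomial.C_mul_X_pow_eq_monomial, mo_apply]
  have h2 : (Polynomial.X ^ (m + 1) * Ym (Md al a f) : VV F L) = Polynomial.X ^ m * Md al a f := by
    rw [pow_succ, mul_assoc, ← Yp_apply, Yp_Ym_Md]
  rw [D2_apply, D2_apply, h1, map_add, map_smul, Ym_mo_succ, Ym_C_mul, map_add, LX_C_mul, map_smul,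
    map_add, map_add, map_smul, Th1_C_mul, Md_X, smul_mul_assoc, map_smul, h2, mul_smul_comm,
    smul_add, smul_add, smul_smul, smul_smul, smul_add, add_assoc]
  have h3 : (2 * al)⁻¹ * (al * ((m + 1 : ℕ) : F)) = 2⁻¹ * ((m + 1 : ℕ) : F) := by
    rw [mul_inv]
    field_simp
  rw [h3]

/-- The self-similarity of `D2`. -/
theorem D2_Th1 [CharZero F] {al : F} (hal : al ≠ 0) (b : F) (a : L) (u : VV F L) :
    D2 al b a (Th1 a u) = Th1 a (D2t al b a u + LX al b a u) := by
  have : D2 al b a ∘ₗ Th1 a = Th1 a ∘ₗ (D2t al b a + LX al b a) := by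
    refine vext fun m f => ?_
    rw [LinearMap.comp_apply, LinearMap.comp_apply, LinearMap.add_apply, Th1_mo, D2_X_mul hal,
      map_add, D2t_mo, map_add, Th1_mo, map_sum, add_assoc]
    refine congrArg _ ?_
    have h1 : ∑ j ∈ Finset.range m, Th1 a (Polynomial.X ^ (j + 1) * (LX al b a (mo (m - 1 - j) f)))
        + Th1 a (LX al b a (mo m f))
        = ∑ j ∈ Finset.range (m + 1), Th1 a (Polynomial.X ^ j * (LX al b a (mo (m - j) f))) := by
      rw [Finset.sum_range_succ', pow_zero, one_mul, Nat.sub_zero]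
      refine congrArg₂ _ (Finset.sum_congr rfl fun j _ => ?_) rfl
      have h2 : m - (j + 1) = m - 1 - j := by omega
      rw [h2]
    have h3 : ∀ j ∈ Finset.range (m + 1),
        Th1 a (Polynomial.X ^ j * (LX al b a (mo (m - j) f)))
        = Th1 a (Polynomial.X ^ m * (Md al a f)) + (b * ((m - j : ℕ) : F)) • (X (a, m + 1) * f) +
        ∑ l ∈ Finset.range (m - j), X (a, l + 1) * (X (a, m - l) * f) := by
      intro j hj
      rw [Finset.mem_range] at hj
      rw [Th1_X_pow_LX]
      have h4 : j + (m - j) = m := by omega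
      rw [h4]
    have h5 := Th1_X_pow_LX al b a 0 m f
    rw [pow_zero, one_mul, zero_add] at h5
    rw [h1, Finset.sum_congr rfl h3, Finset.sum_add_distrib, Finset.sum_add_distrib,
      Finset.sum_const, Finset.card_range, h5]
    set S : AA F L := ∑ l ∈ Finset.range m, X (a, l + 1) * (X (a, m - l) * f) with hS
    set D : AA F L := ∑ j ∈ Finset.range (m + 1), ∑ l ∈ Finset.range (m - j),
      X (a, l + 1) * (X (a, m - l) * f) with hD
    have h6 : (2 : F) • D = ((m + 1 : ℕ) : F) • S := sum_symm_aux a m f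
    have h7 : D = (2⁻¹ * ((m + 1 : ℕ) : F)) • S := by
      rw [← smul_smul, ← h6, smul_smul, inv_mul_cancel₀ (two_ne_zero), one_smul]
    have h8 : ∑ j ∈ Finset.range (m + 1), (b * ((m - j : ℕ) : F)) • (X (a, m + 1) * f : AA F L)
        = (2⁻¹ * ((m + 1 : ℕ) : F)) • ((b * (m : F)) • (X (a, m + 1) * f : AA F L)) := by
      rw [← Finset.sum_smul, smul_smul, ← Finset.mul_sum]
      congr 1
      have h9 : ∑ j ∈ Finset.range (m + 1), ((m - j : ℕ) : F) = 2⁻¹ * ((m + 1 : ℕ) : F) * (m : F) := by
        rw [← Nat.cast_sum]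
        have h10 := Finset.sum_range_reflect (fun j => j) (m + 1)
        have h11 : ∑ j ∈ Finset.range (m + 1), (m - j) = ∑ j ∈ Finset.range (m + 1), j := by
          rw [← h10]
          refine Finset.sum_congr rfl fun j _ => ?_
          omega
        have h12 := Finset.sum_range_id_mul_two (m + 1)
        rw [h11]
        have h13 : ((∑ j ∈ Finset.range (m + 1), j : ℕ) : F) * 2 = ((m + 1 : ℕ) : F) * (m : F) := by
          have h14 := congrArg (Nat.cast : ℕ → F) h12
          rw [Nat.add_sub_cancel, Nat.cast_mul, Nat.cast_mul, Nat.cast_ofNat] at h14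
          exact h14
        field_simp
        linear_combination h13
      rw [h9]
      ring
    rw [h7, h8, ← Nat.cast_smul_eq_nsmul F]
    have h14 : ((m + 1 : ℕ) : F) = 2⁻¹ * ((m + 1 : ℕ) : F) + 2⁻¹ * ((m + 1 : ℕ) : F) := by
      have : (2 : F) ≠ 0 := two_ne_zero
      field_simp
      ring
    nth_rewrite 2 [h14]
    rw [add_smul, smul_add, smul_add, smul_add]
    abel
  exact LinearMap.congr_fun this u

/-- `D2t` commutes with the Lax operator. -/
theorem D2t_LX [CharZero F] {al : F} (hal : al ≠ 0) (b : F) (a : L) (u : VV F L) :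
    D2t al b a (LX al b a u) = LX al b a (D2t al b a u) := by
  have hZ : ∀ u : VV F L, D2t al b a (LX al b a (Yp u)) - LX al b a (D2t al b a (Yp u))
      = Yp (D2t al b a (LX al b a u) - LX al b a (D2t al b a u)) := by
    intro u
    have h1 := D2_Th1 hal b a u
    rw [D2t_Yp, LX_Yp, LX_Yp, map_add, D2t_Yp, D2t_zero, h1]
    simp only [map_add, map_sub, map_smul, smul_add]
    abel
  have h0 : ∀ f : AA F L, D2t al b a (LX al b a (mo 0 f)) - LX al b a (D2t al b a (mo 0 f))
      = 0 := by
    intro f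
    refine B1_nondeg hal a fun u => ?_
    rw [map_sub, ← D2t_adj, ← LX_adj, ← LX_adj, ← D2t_adj]
    have h1 : ∀ v w : VV F L, B1 al a v w - B1 al a w v = 0 := fun v w => by
      rw [B1_symm, sub_self]
    rw [← LinearMap.sub_apply, ← map_sub, B1_mo_right]
    have h3 : co 0 (LX al b a (D2t al b a u) - D2t al b a (LX al b a u)) = 0 := by
      rw [← Yp_Ym u, map_add (D2t al b a), map_add (LX al b a), map_add (LX al b a),
        map_add (D2t al b a), add_sub_add_comm]
      have h4 := hZ (Ym u)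
      have h5 : LX al b a (D2t al b a (Yp (Ym u))) - D2t al b a (LX al b a (Yp (Ym u)))
        = - Yp (D2t al b a (LX al b a (Ym u)) - LX al b a (D2t al b a (Ym u))) := by
        rw [← h4]
        abel
      rw [map_add, h5, map_neg, co_zero_Yp, neg_zero, zero_add, map_sub, D2t_zero, LX_zero,
        co_zero_Md, co_zero_D2t, LX_zero, co_zero_Md, map_zero, sub_zero]
    rw [h3, map_zero, LinearMap.zero_apply]
  have h1 : ∀ (m : ℕ) (f : AA F L),
      D2t al b a (LX al b a (mo m f)) - LX al b a (D2t al b a (mo m f)) = 0 := by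
    intro m
    induction m with
    | zero => exact h0
    | succ m ih =>
      intro f
      rw [← Yp_mo, hZ, ih, map_zero]
  have h2 : D2t al b a ∘ₗ LX al b a = LX al b a ∘ₗ D2t al b a :=
    vext fun m f => sub_eq_zero.1 (h1 m f)
  exact LinearMap.congr_fun h2 u

end Lax2

end Pool.Agent.JackB
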