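import Pool.Agent.Lib.JackB.Tri

/-!
The exponential series `∑ t ^ n vv n`, the span of the vectors `LX ^ j f`, and the extension of
operators commuting with the `hk` (problem MP_b52a9f_co).
-/

open MvPolynomial

namespace Pool.Agent.JackB

section Exp

variable {F : Type*} [Field F] {L : Type*}

omit [Field F] in
/-- Adding the part `i` to a partition. -/
def pcons {n : ℕ} (i : ℕ) (hi : 1 ≤ i) (hn : i ≤ n) (l : (n - i).Partition) : n.Partition where
  parts := i ::ₘ l.parts
  parts_pos := by
    intro j hj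
    rcases Multiset.mem_cons.1 hj with h | h
    · rw [h]
      exact hi
    · exact l.parts_pos h
  parts_sum := by
    rw [Multiset.sum_cons, l.parts_sum]
    omega

theorem pcons_inj {n : ℕ} (i : ℕ) (hi : 1 ≤ i) (hn : i ≤ n) :
    Function.Injective (pcons i hi hn) := by
  intro l m h
  have h1 := congrArg Nat.Partition.parts h
  exact Nat.Partition.ext ((Multiset.cons_inj_right i).1 h1)

theorem mem_range_pcons {n : ℕ} (i : ℕ) (hi : 1 ≤ i) (hn : i ≤ n) (l : n.Partition)
    (h : i ∈ l.parts) : l ∈ Set.range (pcons i hi hn) := by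
  refine ⟨⟨l.parts.erase i, fun hj => l.parts_pos (Multiset.mem_of_mem_erase hj), ?_⟩, ?_⟩
  · have h1 := l.parts_sum
    rw [← Multiset.cons_erase h, Multiset.sum_cons] at h1
    omega
  · exact Nat.Partition.ext (Multiset.cons_erase h)

/-- The coefficients of the exponential of `∑ t ^ i p_i r_i / (i α)`. -/
noncomputable def vv (al : F) (a : L) (r : ℕ → AA F L) (n : ℕ) : AA F L :=
  ∑ l : n.Partition, C ((zz l.parts : F) * al ^ l.parts.card)⁻¹ * (pm F a l.parts * rr r l.parts)

variable [DecidableEq L]

omit [DecidableEq L] in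
theorem pderiv_rr {a : L} {i : ℕ} {r : ℕ → AA F L} (hr : ∀ j, pderiv (a, i) (r j) = 0)
    (nu : Multiset ℕ) : pderiv (a, i) (rr r nu) = 0 := by
  induction nu using Multiset.induction_on with
  | empty => simp [rr]
  | cons j nu ih => rw [rr_cons, pderiv_mul, ih, hr, mul_zero, zero_mul, add_zero]

theorem pderiv_vv [CharZero F] {al : F} (hal : al ≠ 0) {a : L} {i : ℕ} (hi : 1 ≤ i)
    {r : ℕ → AA F L} (hr : ∀ j, pderiv (a, i) (r j) = 0) (n : ℕ) :
    C (al * (i : F)) * pderiv (a, i) (vv al a r n)
      = if i ≤ n then r i * vv al a r (n - i) else 0 := by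
  have hi' : (i : F) ≠ 0 := Nat.cast_ne_zero.2 (by omega)
  have hterm : ∀ l : n.Partition, C (al * (i : F)) * pderiv (a, i)
      (C ((zz l.parts : F) * al ^ l.parts.card)⁻¹ * (pm F a l.parts * rr r l.parts))
      = C (al * (i : F)) * (C ((zz l.parts : F) * al ^ l.parts.card)⁻¹ *
        (C (l.parts.count i : F) * pm F a (l.parts.erase i) * rr r l.parts)) := by
    intro l
    rw [pderiv_C_mul, pderiv_mul, pderiv_rr hr, mul_zero, add_zero, pderiv_pm]
  rw [vv, map_sum, Finset.mul_sum, Finset.sum_congr rfl fun l _ => hterm l]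
  split_ifs with hn
  · rw [vv, Finset.mul_sum]
    symm
    refine Fintype.sum_of_injective (pcons i hi hn) (pcons_inj i hi hn) _ _ ?_ ?_
    · intro l hl
      have h1 : l.parts.count i = 0 := by
        rw [Multiset.count_eq_zero]
        exact fun h => hl (mem_range_pcons i hi hn l h)
      rw [h1]
      simp
    · intro l
      show r i * _ = C (al * (i : F)) * (C ((zz (i ::ₘ l.parts) : F) *
        al ^ (i ::ₘ l.parts).card)⁻¹ * (C ((i ::ₘ l.parts).count i : F) *
        pm F a ((i ::ₘ l.parts).erase i) * rr r (i ::ₘ l.parts)))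
      rw [zz_cons, Multiset.card_cons, Multiset.count_cons_self, Multiset.erase_cons_head, rr_cons]
      have h2 : al * (i : F) * (((i * (l.parts.count i + 1) * zz l.parts : ℕ) : F) *
          al ^ (l.parts.card + 1))⁻¹ * ((l.parts.count i + 1 : ℕ) : F)
          = ((zz l.parts : F) * al ^ l.parts.card)⁻¹ := by
        have h3 : ((l.parts.count i + 1 : ℕ) : F) ≠ 0 := Nat.cast_ne_zero.2 (Nat.succ_ne_zero _)
        rw [Nat.cast_mul, Nat.cast_mul, pow_succ]
        by_cases hz : (zz l.parts : F) = 0
        · rw [hz]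
          simp
        · field_simp
      rw [← h2, C_mul, C_mul]
      ring
  · refine Finset.sum_eq_zero fun l _ => ?_
    have h1 : l.parts.count i = 0 := by
      rw [Multiset.count_eq_zero]
      intro h
      have h2 := Multiset.single_le_sum (fun _ _ => Nat.zero_le _) _ h
      rw [l.parts_sum] at h2
      omega
    rw [h1]
    simp

theorem pderiv_of_Md [CharZero F] {al : F} (hal : al ≠ 0) {a : L} {f : AA F L}
    (h : Md al a f = 0) {i : ℕ} (hi : 1 ≤ i) : pderiv (a, i) f = 0 := by
  have h1 := coeff_Md al a f i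
  rw [h, map_zero] at h1
  rcases mul_eq_zero.1 h1.symm with h2 | h2
  · rw [C_eq_zero] at h2
    exact absurd h2 (mul_ne_zero hal (Nat.cast_ne_zero.2 (by omega)))
  · exact h2

omit [DecidableEq L] in
theorem mo_zero_eq (f : AA F L) : (mo 0 f : VV F L) = Polynomial.C f := by
  rw [mo_apply, Polynomial.monomial_zero_left]

omit [DecidableEq L] in
theorem co_ext {u w : VV F L} (h : ∀ i, co i u = co i w) : u = w := Polynomial.ext h

theorem Md_vv [CharZero F] {al : F} (hal : al ≠ 0) {a : L} {r : ℕ → AA F L}
    (hr : ∀ j, Md al a (r j) = 0) (h0 : r 0 = 0) :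
    tl (Md al a).toLinearMap (PowerSeries.mk (vv al a r))
      = YY r * tl (mo 0) (PowerSeries.mk (vv al a r)) := by
  ext1 n
  rw [coeff_tl, PowerSeries.coeff_mk, PowerSeries.coeff_mul]
  refine co_ext fun i => ?_
  show co i (Md al a (vv al a r n)) = _
  have hL : co i (Md al a (vv al a r n)) = if i ≤ n then r i * vv al a r (n - i) else 0 := by
    rw [coeff_Md]
    rcases Nat.eq_zero_or_pos i with rfl | hi
    · rw [Nat.cast_zero, mul_zero, C_0, zero_mul, h0, zero_mul, if_pos (Nat.zero_le n)]
    · exact pderiv_vv hal hi (fun j => pderiv_of_Md hal (hr j) hi) n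
  have hR : ∀ p ∈ Finset.HasAntidiagonal.antidiagonal n,
      co i (PowerSeries.coeff p.1 (YY r) *
        PowerSeries.coeff p.2 (tl (mo 0) (PowerSeries.mk (vv al a r))))
      = if p.1 = i then r i * vv al a r p.2 else 0 := by
    intro p _
    rw [coeff_tl, PowerSeries.coeff_mk, YY, PowerSeries.coeff_mk, mo_zero_eq, mul_comm,
      C_mul_mo, co_mo]
    split_ifs with h
    · rw [h, mul_comm]
    · rfl
  rw [hL, map_sum, Finset.sum_congr rfl hR]
  split_ifs with hin
  · rw [Finset.sum_eq_single (i, n - i)]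
    · rw [if_pos rfl]
    · intro p hp hpn
      rw [Finset.HasAntidiagonal.mem_antidiagonal] at hp
      rw [if_neg]
      intro h
      exact hpn (Prod.ext h (by show p.2 = n - i; omega))
    · intro h
      exact absurd (Finset.HasAntidiagonal.mem_antidiagonal.2 (by omega)) h
  · symm
    refine Finset.sum_eq_zero fun p hp => ?_
    rw [Finset.HasAntidiagonal.mem_antidiagonal] at hp
    rw [if_neg (by omega)]

theorem tl_LX_mul (al b : F) (a : L) (g : PowerSeries (AA F L)) (G : PowerSeries (VV F L)) :
    tl (LX al b a) (tl (mo 0) g * G)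
      = tl (mo 0) g * tl (LX al b a) G + tl (Md al a).toLinearMap g * G := by
  ext1 n
  rw [coeff_tl, map_add, PowerSeries.coeff_mul, PowerSeries.coeff_mul, PowerSeries.coeff_mul,
    map_sum, ← Finset.sum_add_distrib]
  refine Finset.sum_congr rfl fun p _ => ?_
  rw [coeff_tl, coeff_tl, coeff_tl, mo_zero_eq, LX_C_mul]
  rfl

/-- The exponential series in `V`. -/
noncomputable def ve (al : F) (a : L) (r : ℕ → AA F L) : PowerSeries (VV F L) :=
  tl (mo 0) (PowerSeries.mk (vv al a r))

theorem LX_ve [CharZero F] {al : F} (hal : al ≠ 0) (b : F) {a : L} {r : ℕ → AA F L}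
    (hr : ∀ j, Md al a (r j) = 0) (h0 : r 0 = 0) (G : PowerSeries (VV F L)) :
    tl (LX al b a) (ve al a r * G) = ve al a r * LXs al b a r G := by
  rw [ve, tl_LX_mul, Md_vv hal hr h0, LXs_apply]
  ring

omit [DecidableEq L] in
theorem coeff_ve (al : F) (a : L) (r : ℕ → AA F L) (n : ℕ) :
    PowerSeries.coeff n (ve al a r) = mo 0 (vv al a r n) := by
  rw [ve, coeff_tl, PowerSeries.coeff_mk]

omit [DecidableEq L] in
theorem vv_zero (al : F) (a : L) (r : ℕ → AA F L) : vv al a r 0 = 1 := by
  rw [vv, Fintype.sum_unique]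
  have hp : (default : (0 : ℕ).Partition).parts = 0 := by
    rw [Multiset.eq_zero_iff_forall_notMem]
    intro i hi
    have h1 := (default : (0 : ℕ).Partition).parts_pos hi
    have h2 := Multiset.single_le_sum (fun _ _ => Nat.zero_le _) _ hi
    rw [Nat.Partition.parts_sum] at h2
    omega
  rw [hp]
  simp [zz, rr]

end Exp

section Span

variable {F : Type*} [Field F] {L : Type*}

omit [Field F] in
/-- The variables that are constants for the alphabet `a`. -/
def Pv (a : L) (v : L × ℕ) : Prop := v.1 = a → v.2 = 0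

theorem pm_ind {a : L} (U : AddSubgroup (AA F L))
    (h1 : ∀ c : F, ∀ lam : Multiset ℕ, (∀ i ∈ lam, 1 ≤ i) → C c * pm F a lam ∈ U)
    (h2 : ∀ v, Pv a v → ∀ f ∈ U, X v * f ∈ U) (f : AA F L) : f ∈ U := by
  have key : ∀ f : AA F L, ∀ lam : Multiset ℕ, (∀ i ∈ lam, 1 ≤ i) → f * pm F a lam ∈ U := by
    intro f
    induction f using MvPolynomial.induction_on with
    | C c => exact fun lam hl => h1 c lam hl
    | add p q hp hq =>
      intro lam hl
      rw [add_mul]
      exact U.add_mem (hp lam hl) (hq lam hl)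
    | mul_X p v hp =>
      intro lam hl
      by_cases hv : Pv a v
      · have h3 : p * X v * pm F a lam = X v * (p * pm F a lam) := by ring
        rw [h3]
        exact h2 v hv _ (hp lam hl)
      · unfold Pv at hv
        push Not at hv
        have h3 : p * X v * pm F a lam = p * pm F a (v.2 ::ₘ lam) := by
          rw [pm_cons, ← hv.1, mul_assoc]
        rw [h3]
        refine hp _ fun i hi => ?_
        rcases Multiset.mem_cons.1 hi with h | h
        · rw [h]
          exact Nat.pos_of_ne_zero hv.2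
        · exact hl i h
  have := key f 0 (fun i hi => absurd hi (Multiset.notMem_zero i))
  rwa [pm_zero, mul_one] at this

variable [DecidableEq L]

theorem Md_X_par (al : F) {a : L} {v : L × ℕ} (hv : Pv a v) : Md al a (X v) = 0 := by
  rw [Md, mkDerivation_X]
  split_ifs with h
  · rw [hv h, Nat.cast_zero, mul_zero, C_0, map_zero]
  · rfl

theorem pm_ind' (al : F) {a : L} (U : AddSubgroup (AA F L))
    (h1 : ∀ g, Md al a g = 0 → ∀ lam : Multiset ℕ, (∀ i ∈ lam, 1 ≤ i) → g * pm F a lam ∈ U)
    (f : AA F L) : f ∈ U := by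
  have key : ∀ f g : AA F L, Md al a g = 0 → ∀ lam : Multiset ℕ, (∀ i ∈ lam, 1 ≤ i) →
      f * (g * pm F a lam) ∈ U := by
    intro f
    induction f using MvPolynomial.induction_on with
    | C c =>
      intro g hg lam hl
      rw [← mul_assoc]
      refine h1 _ ?_ lam hl
      rw [← smul_eq_C_mul, Derivation.map_smul, hg, smul_zero]
    | add p q hp hq =>
      intro g hg lam hl
      rw [add_mul]
      exact U.add_mem (hp g hg lam hl) (hq g hg lam hl)
    | mul_X p v hp =>
      intro g hg lam hl
      by_cases hv : Pv a v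
      · have h3 : p * X v * (g * pm F a lam) = p * ((X v * g) * pm F a lam) := by ring
        rw [h3]
        refine hp _ ?_ lam hl
        rw [Derivation.leibniz, hg, Md_X_par al hv, smul_zero, smul_zero, add_zero]
      · unfold Pv at hv
        push Not at hv
        have h3 : p * X v * (g * pm F a lam) = p * (g * pm F a (v.2 ::ₘ lam)) := by
          rw [pm_cons, ← hv.1]
          ring
        rw [h3]
        refine hp g hg _ fun i hi => ?_
        rcases Multiset.mem_cons.1 hi with h | h
        · rw [h]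
          exact Nat.pos_of_ne_zero hv.2
        · exact hl i h
  have := key f 1 (Derivation.map_one_eq_zero _) 0 (fun i hi => absurd hi (Multiset.notMem_zero i))
  rwa [pm_zero, mul_one, mul_one] at this

/-- The parameters `1, 0, 0, …`. -/
noncomputable def r1 (F L : Type*) [Field F] : ℕ → AA F L := fun i => if i = 1 then 1 else 0

omit [DecidableEq L] in
theorem r1_one : r1 F L 1 = 1 := if_pos rfl

omit [DecidableEq L] in
theorem r1_ne {i : ℕ} (h : i ≠ 1) : r1 F L i = 0 := if_neg h

theorem Md_r1 (al : F) (a : L) (i : ℕ) : Md al a (r1 F L i) = 0 := by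
  by_cases h : i = 1
  · rw [h, r1_one, Derivation.map_one_eq_zero]
  · rw [r1_ne h, map_zero]

omit [DecidableEq L] in
theorem rr_r1 {nu : Multiset ℕ} (h : 1 ≤ rk nu) : rr (r1 F L) nu = 0 := by
  have h1 : ∃ i ∈ nu, i ≠ 1 := by
    by_contra hcon
    push Not at hcon
    have : rk nu = 0 := by
      rw [rk, Multiset.sum_eq_zero]
      intro x hx
      rw [Multiset.mem_map] at hx
      obtain ⟨i, hi, rfl⟩ := hx
      rw [hcon i hi, Nat.sub_self]
    omega
  obtain ⟨i, hi, hi1⟩ := h1
  rw [← Multiset.cons_erase hi, rr_cons, r1_ne hi1, zero_mul]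

omit [DecidableEq L] in
theorem tl_mo_mul (g h : PowerSeries (AA F L)) : (tl (mo 0) g * tl (mo 0) h : PowerSeries (VV F L))
    = tl (mo 0) (g * h) := by
  ext1 n
  rw [PowerSeries.coeff_mul, coeff_tl, PowerSeries.coeff_mul, map_sum]
  refine Finset.sum_congr rfl fun p _ => ?_
  rw [coeff_tl, coeff_tl, mo_zero_eq, C_mul_mo]

/-- `V` is spanned by the `LX ^ j f`. -/
theorem lx_span [CharZero F] {al : F} (hal : al ≠ 0) (b : F) (a : L) (U : AddSubgroup (VV F L))
    (h0 : ∀ f, mo 0 f ∈ U) (h1 : ∀ u ∈ U, LX al b a u ∈ U) (u : VV F L) : u ∈ U := by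
  set P : AddSubgroup (PowerSeries (VV F L)) :=
    { carrier := {G | ∀ g, Md al a g = 0 → ∀ n,
        Polynomial.C g * PowerSeries.coeff n (ve al a (r1 F L) * G) ∈ U}
      zero_mem' := fun g _ n => by
        rw [mul_zero, map_zero, mul_zero]
        exact U.zero_mem
      add_mem' := fun {G H} hG hH g hg n => by
        rw [mul_add, map_add, mul_add]
        exact U.add_mem (hG g hg n) (hH g hg n)
      neg_mem' := fun {G} hG g hg n => by
        have h3 : Polynomial.C g * PowerSeries.coeff n (ve al a (r1 F L) * (-G)) +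
            Polynomial.C g * PowerSeries.coeff n (ve al a (r1 F L) * G) = 0 := by
          have h4 : -G + G = 0 := by ring
          rw [← mul_add, ← map_add, ← mul_add, h4, mul_zero, map_zero, mul_zero]
        have h5 := U.neg_mem (hG g hg n)
        rw [← eq_neg_of_add_eq_zero_left h3] at h5
        exact h5 } with hP
  have hmem : ∀ w, FV (⊤ : Subring F) a (r1 F L) 1 w ≤ P := by
    intro w
    refine triV (al := al) (b := b) (Subring.mem_top _) (Subring.mem_top _) (Md_r1 al a)
      (r1_ne (by omega)) r1_one (fun i hi => r1_ne (by omega)) le_rfl P ?_ ?_ ?_ w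
    · intro w G _ g _ n
      rw [ve, tl_mo_mul, coeff_tl, C_mul_mo]
      exact h0 _
    · intro G hG g hg n
      rw [← LX_ve hal b (Md_r1 al a) (r1_ne (by omega)), coeff_tl]
      have h2 := LX_C_mul al b a g (PowerSeries.coeff n (ve al a (r1 F L) * G))
      rw [hg, zero_mul, add_zero] at h2
      rw [← h2]
      exact h1 _ (hG g hg n)
    · intro nu D u hnu _ g _ n
      rw [rr_r1 hnu, map_zero, zero_mul, map_zero, mul_zero, map_zero, mul_zero]
      exact U.zero_mem
  have h2 : ∀ k : ℕ, ∀ f : AA F L, mo k f ∈ U := by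
    intro k
    refine fun f => pm_ind' al (a := a) (U.comap (mo k : AA F L →ₗ[F] VV F L).toAddMonoidHom) ?_ f
    intro g hg lam hl
    show mo k (g * pm F a lam) ∈ U
    have h3 : PowerSeries.monomial (lam.sum + k) (Polynomial.C (rr (r1 F L) 0) *
        mo k (C 1 * pm F a lam)) ∈ P :=
      hmem (lam.sum + k + 2) (FV_gen (by omega) (HV_gen rfl
        (HA_gen (Subring.mem_top (1 : F)) hl rfl)))
    have h4 := h3 g hg (lam.sum + k)
    rw [mul_comm (ve al a (r1 F L)), coeff_monomial_mul, if_pos le_rfl, Nat.sub_self, coeff_ve,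
      vv_zero, C_1, one_mul] at h4
    have h5 : rr (r1 F L) 0 = 1 := by simp [rr]
    rw [h5, Polynomial.C_1, one_mul, mo_zero_eq, Polynomial.C_1, mul_one, C_mul_mo] at h4
    exact h4
  induction u using Polynomial.induction_on' with
  | add p q hp hq => exact U.add_mem hp hq
  | monomial m f => exact h2 m f

/-- A linear map commuting with the Lax operator and vanishing in degree zero is zero. -/
theorem eq_zero_of_LX [CharZero F] {al : F} (hal : al ≠ 0) (b : F) (a : L)
    {E : VV F L →ₗ[F] VV F L} (h1 : ∀ u, E (LX al b a u) = LX al b a (E u))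
    (h0 : ∀ f, E (mo 0 f) = 0) (u : VV F L) : E u = 0 := by
  have := lx_span hal b a (LinearMap.ker E).toAddSubgroup
    (fun f => (LinearMap.mem_ker).2 (h0 f)) (fun u hu => by
      have hu' : E u = 0 := LinearMap.mem_ker.1 hu
      refine (LinearMap.mem_ker).2 ?_
      rw [h1, hu', map_zero]) u
  exact LinearMap.mem_ker.1 this

end Span

section Lift

variable {F : Type*} [Field F] {L : Type*} [DecidableEq L]

/-- The map `∑ f_j T ^ j ↦ ∑ LX ^ j f_j`. -/
noncomputable def SX (al b : F) (a : L) : (ℕ →₀ AA F L) →ₗ[F] VV F L :=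
  Finsupp.lsum F fun j => (LX al b a ^ j : Module.End F (VV F L)) ∘ₗ mo 0

theorem SX_single (al b : F) (a : L) (j : ℕ) (f : AA F L) :
    SX al b a (Finsupp.single j f) = (LX al b a ^ j : Module.End F (VV F L)) (mo 0 f) := by
  rw [SX, Finsupp.lsum_single]
  rfl

theorem SX_surj [CharZero F] {al : F} (hal : al ≠ 0) (b : F) (a : L) (u : VV F L) :
    ∃ g, SX al b a g = u := by
  have := lx_span hal b a (LinearMap.range (SX al b a)).toAddSubgroup
    (fun f => ⟨Finsupp.single 0 f, by rw [SX_single, pow_zero, Module.End.one_apply]⟩)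
    (fun u hu => by
      obtain ⟨g, hg⟩ := hu
      refine (LinearMap.mem_range (f := SX al b a)).2 ?_
      rw [← hg]
      induction g using Finsupp.induction_linear generalizing u with
      | zero => exact ⟨0, by rw [map_zero, map_zero]⟩
      | add g h ig ih =>
        obtain ⟨g', hg'⟩ := ig _ rfl
        obtain ⟨h', hh'⟩ := ih _ rfl
        exact ⟨g' + h', by rw [map_add, map_add, map_add, hg', hh']⟩
      | single j f =>
        refine ⟨Finsupp.single (j + 1) f, ?_⟩
        rw [SX_single, SX_single, pow_succ', Module.End.mul_apply]) u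
  exact this

/-- `T` extends the operator `T0` to `V`. -/
structure IsLift (al b : F) (a : L) (T0 : AA F L →ₗ[F] AA F L) (T : VV F L →ₗ[F] VV F L) :
    Prop where
  mo : ∀ f, T (mo 0 f) = mo 0 (T0 f)
  lx : ∀ u, T (LX al b a u) = LX al b a (T u)
  co : ∀ u, co 0 (T u) = T0 (co 0 u)

theorem co_SX (al b : F) (a : L) {T0 : AA F L →ₗ[F] AA F L}
    (hT : ∀ k f, T0 (hk al b a k f) = hk al b a k (T0 f)) (j : ℕ) (g : ℕ →₀ AA F L) :
    co 0 ((LX al b a ^ j : Module.End F (VV F L)) (SX al b a (Finsupp.mapRange.linearMap T0 g)))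
      = T0 (co 0 ((LX al b a ^ j : Module.End F (VV F L)) (SX al b a g))) := by
  induction g using Finsupp.induction_linear with
  | zero => simp only [map_zero]
  | add g h ig ih => simp only [map_add, ig, ih]
  | single i f =>
    rw [Finsupp.mapRange.linearMap_apply, Finsupp.mapRange_single, SX_single, SX_single,
      ← Module.End.mul_apply, ← Module.End.mul_apply, ← pow_add]
    exact (hT (j + i) f).symm

theorem SX_ker [CharZero F] {al : F} (hal : al ≠ 0) (b : F) (a : L)
    {T0 : AA F L →ₗ[F] AA F L} (hT : ∀ k f, T0 (hk al b a k f) = hk al b a k (T0 f))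
    {g : ℕ →₀ AA F L} (hg : SX al b a g = 0) :
    SX al b a (Finsupp.mapRange.linearMap T0 g) = 0 := by
  refine B1_nondeg hal a fun u => ?_
  obtain ⟨h, rfl⟩ := SX_surj hal b a u
  induction h using Finsupp.induction_linear with
  | zero => rw [map_zero, map_zero, LinearMap.zero_apply]
  | add h h' ih ih' => rw [map_add, map_add, LinearMap.add_apply, ih, ih', add_zero]
  | single i f =>
    rw [SX_single, LX_pow_adj, B1_mo_left, co_SX al b a hT, hg, map_zero, map_zero, map_zero,
      map_zero]

theorem exists_lift [CharZero F] {al : F} (hal : al ≠ 0) (b : F) (a : L)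
    {T0 : AA F L →ₗ[F] AA F L} (hT : ∀ k f, T0 (hk al b a k f) = hk al b a k (T0 f)) :
    ∃ T, IsLift al b a T0 T := by
  obtain ⟨σ, hσ⟩ := LinearMap.exists_rightInverse_of_surjective (SX al b a)
    (LinearMap.range_eq_top.2 fun u => SX_surj hal b a u)
  set T : VV F L →ₗ[F] VV F L := SX al b a ∘ₗ Finsupp.mapRange.linearMap T0 ∘ₗ σ with hTd
  have hσ' : ∀ u, SX al b a (σ u) = u := fun u => LinearMap.congr_fun hσ u
  have key : ∀ g, T (SX al b a g) = SX al b a (Finsupp.mapRange.linearMap T0 g) := by
    intro g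
    have h1 : SX al b a (σ (SX al b a g) - g) = 0 := by
      rw [map_sub, hσ', sub_self]
    have h2 := SX_ker hal b a hT h1
    rw [map_sub, map_sub, sub_eq_zero] at h2
    rw [← h2]
    rfl
  refine ⟨T, ⟨fun f => ?_, fun u => ?_, fun u => ?_⟩⟩
  · have h1 := key (Finsupp.single 0 f)
    rw [Finsupp.mapRange.linearMap_apply, Finsupp.mapRange_single, SX_single, SX_single] at h1
    exact h1
  · obtain ⟨g, rfl⟩ := SX_surj hal b a u
    induction g using Finsupp.induction_linear with
    | zero => simp only [map_zero]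
    | add g h ig ih => simp only [map_add, ig, ih]
    | single i f =>
      have h1 := key (Finsupp.single i f)
      have h2 := key (Finsupp.single (i + 1) f)
      rw [Finsupp.mapRange.linearMap_apply, Finsupp.mapRange_single, SX_single, SX_single] at h1 h2
      rw [SX_single, h1]
      rw [pow_succ', Module.End.mul_apply, Module.End.mul_apply] at h2
      exact h2
  · obtain ⟨g, rfl⟩ := SX_surj hal b a u
    rw [key]
    exact co_SX al b a hT 0 g

end Lift

end Pool.Agent.JackB
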