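import Pool.Agent.Lib.JackB.Lax3

/-!
The operators `Ym T Yp` for extensions `T` of operators commuting with the `hk`
(problem MP_b52a9f_co).
-/

open MvPolynomial

namespace Pool.Agent.JackB

section Nat1

variable {F : Type*} [Field F] {L : Type*} [DecidableEq L] {al b : F} {a : L}

/-- `Ym T Yp`. -/
noncomputable def nat (T : VV F L →ₗ[F] VV F L) : VV F L →ₗ[F] VV F L := Ym ∘ₗ T ∘ₗ Yp

omit [DecidableEq L] in
theorem nat_apply (T : VV F L →ₗ[F] VV F L) (u : VV F L) : nat T u = Ym (T (Yp u)) := rfl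

theorem IsLift.Yp {T0 : AA F L →ₗ[F] AA F L} {T : VV F L →ₗ[F] VV F L}
    (h : IsLift al b a T0 T) (u : VV F L) : T (Yp u) = Yp (nat T u) := by
  have h1 := Yp_Ym (T (JackB.Yp u))
  rw [h.co, co_zero_Yp, map_zero, map_zero, add_zero] at h1
  exact h1.symm

theorem IsLift.commute [CharZero F] (hal : al ≠ 0) {S0 T0 : AA F L →ₗ[F] AA F L}
    {S T : VV F L →ₗ[F] VV F L} (hS : IsLift al b a S0 S) (hT : IsLift al b a T0 T)
    (h : ∀ f, S0 (T0 f) = T0 (S0 f)) (u : VV F L) : S (T u) = T (S u) := by
  have h1 := eq_zero_of_LX hal b a (E := S ∘ₗ T - T ∘ₗ S) (fun u => by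
    rw [LinearMap.sub_apply, LinearMap.sub_apply, LinearMap.comp_apply, LinearMap.comp_apply,
      LinearMap.comp_apply, LinearMap.comp_apply, hT.lx, hS.lx, hS.lx, hT.lx, map_sub]) (fun f => by
    rw [LinearMap.sub_apply, LinearMap.comp_apply, LinearMap.comp_apply, hT.mo, hS.mo, hS.mo,
      hT.mo, h, sub_self]) u
  rw [LinearMap.sub_apply, sub_eq_zero] at h1
  exact h1

theorem IsLift.par [CharZero F] (hal : al ≠ 0) {T0 : AA F L →ₗ[F] AA F L}
    {T : VV F L →ₗ[F] VV F L} (hT : IsLift al b a T0 T) {g : AA F L} (hg : Md al a g = 0)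
    (h : ∀ f, T0 (g * f) = g * T0 f) (u : VV F L) :
    T (Polynomial.C g * u) = Polynomial.C g * T u := by
  have hc : ∀ u, LX al b a (Polynomial.C g * u) = Polynomial.C g * LX al b a u := by
    intro u
    rw [LX_C_mul, hg, zero_mul, add_zero]
  have h1 := eq_zero_of_LX hal b a
    (E := T ∘ₗ LinearMap.mulLeft F (Polynomial.C g) - LinearMap.mulLeft F (Polynomial.C g) ∘ₗ T)
    (fun u => by
      simp only [LinearMap.sub_apply, LinearMap.comp_apply, LinearMap.mulLeft_apply]
      rw [← hc, hT.lx, hT.lx, map_sub, hc]) (fun f => by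
      simp only [LinearMap.sub_apply, LinearMap.comp_apply, LinearMap.mulLeft_apply]
      rw [C_mul_mo, hT.mo, hT.mo, h, C_mul_mo, sub_self]) u
  simp only [LinearMap.sub_apply, LinearMap.comp_apply, LinearMap.mulLeft_apply] at h1
  exact sub_eq_zero.1 h1

theorem isLift_D2t [CharZero F] (hal : al ≠ 0) : IsLift al b a (D2 al b a) (D2t al b a) :=
  ⟨fun f => D2t_zero al b a f, fun u => D2t_LX hal b a u, fun u => co_zero_D2t al b a u⟩

theorem D2t_LX_pow [CharZero F] (hal : al ≠ 0) (k : ℕ) (u : VV F L) :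
    D2t al b a ((LX al b a ^ k : Module.End F (VV F L)) u)
      = (LX al b a ^ k : Module.End F (VV F L)) (D2t al b a u) := by
  induction k generalizing u with
  | zero => rfl
  | succ k ih => rw [pow_succ, Module.End.mul_apply, Module.End.mul_apply, ih, D2t_LX hal]

theorem D2_hk [CharZero F] (hal : al ≠ 0) (k : ℕ) (f : AA F L) :
    D2 al b a (hk al b a k f) = hk al b a k (D2 al b a f) := by
  rw [hk_apply, hk_apply, ← co_zero_D2t, D2t_LX_pow hal, D2t_zero]

theorem nat_LX {T0 : AA F L →ₗ[F] AA F L} {T : VV F L →ₗ[F] VV F L} (h : IsLift al b a T0 T)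
    (u : VV F L) : nat T (LX al b a u) = LX al b a (nat T u) := by
  have h1 := Ym_LX al b a (T (Yp u))
  have h2 : LX al b a (T (Yp u)) = Yp (nat T (LX al b a u) + b • nat T u) + mo 0 (T0 (Th1 a u)) := by
    rw [← h.lx, LX_Yp, map_add, h.mo, h.Yp, map_add, map_smul]
  rw [h2, h.Yp, co_zero_Yp, map_zero, map_zero, add_zero, map_add, Ym_Yp, Ym_mo_zero, add_zero,
    Ym_Yp] at h1
  exact add_right_cancel h1

theorem nat_Th1 {T0 : AA F L →ₗ[F] AA F L} {T : VV F L →ₗ[F] VV F L} (h : IsLift al b a T0 T)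
    (u : VV F L) : Th1 a (nat T u) = T0 (Th1 a u) := by
  have h1 : Th1 a (nat T u) = co 0 (LX al b a (Yp (nat T u))) := by
    rw [co_zero_LX, Ym_Yp]
  rw [h1, ← h.Yp, ← h.lx, h.co, co_zero_LX, Ym_Yp]

theorem nat_commute {S0 T0 : AA F L →ₗ[F] AA F L} {S T : VV F L →ₗ[F] VV F L}
    (hS : IsLift al b a S0 S) (hT : IsLift al b a T0 T) (h : ∀ u, S (T u) = T (S u))
    (u : VV F L) : nat S (nat T u) = nat T (nat S u) := by
  rw [nat_apply S, nat_apply T (nat S u), ← hT.Yp, ← hS.Yp, h]

theorem nat_D2t [CharZero F] (hal : al ≠ 0) {T0 : AA F L →ₗ[F] AA F L} {T : VV F L →ₗ[F] VV F L}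
    (h : IsLift al b a T0 T) (h0 : ∀ f, T0 (D2 al b a f) = D2 al b a (T0 f)) (u : VV F L) :
    nat T (D2t al b a u) = D2t al b a (nat T u) := by
  have hc := h.commute hal (isLift_D2t hal) h0
  have h1 : Yp (nat T (D2t al b a u) + nat T (LX al b a u))
      = Yp (D2t al b a (nat T u) + LX al b a (nat T u)) := by
    rw [← map_add, ← h.Yp, ← D2t_Yp, hc, h.Yp, D2t_Yp]
  have h2 := congrArg Ym h1
  rw [Ym_Yp, Ym_Yp, nat_LX h] at h2
  exact add_right_cancel h2

/-- A vector whose iterated Lax images have no constant term is zero. -/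
theorem eq_zero_of_co [CharZero F] (hal : al ≠ 0) {u : VV F L}
    (h : ∀ j, co 0 ((LX al b a ^ j : Module.End F (VV F L)) u) = 0) : u = 0 := by
  refine B1_nondeg hal a fun w => ?_
  obtain ⟨g, rfl⟩ := SX_surj hal b a w
  induction g using Finsupp.induction_linear with
  | zero => rw [map_zero, map_zero, LinearMap.zero_apply]
  | add g g' ih ih' => rw [map_add, map_add, LinearMap.add_apply, ih, ih', add_zero]
  | single i f => rw [SX_single, LX_pow_adj, B1_mo_left, h, map_zero]

theorem eq_zero_of_Th1 [CharZero F] (hal : al ≠ 0) {u : VV F L}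
    (h : ∀ j, Th1 a ((LX al b a ^ j : Module.End F (VV F L)) u) = 0) : u = 0 := by
  have key : ∀ (j : ℕ) (u : VV F L),
      (∀ i, Th1 a ((LX al b a ^ i : Module.End F (VV F L)) u) = 0) →
      co 0 ((LX al b a ^ j : Module.End F (VV F L)) (Yp u)) = 0 := by
    intro j
    induction j with
    | zero =>
      intro u _
      rw [pow_zero, Module.End.one_apply, co_zero_Yp]
    | succ j ih =>
      intro u hu
      have h0 := hu 0
      rw [pow_zero, Module.End.one_apply] at h0
      rw [pow_succ, Module.End.mul_apply, LX_Yp, h0, map_zero, add_zero]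
      refine ih _ fun i => ?_
      have h1 := hu (i + 1)
      rw [pow_succ, Module.End.mul_apply] at h1
      rw [map_add, map_add, h1, map_smul, map_smul, hu i, smul_zero, add_zero]
  have h1 : Yp u = 0 := eq_zero_of_co (b := b) hal fun j => key j u h
  rw [← Ym_Yp u, h1, map_zero]

/-- The commutator of the Lax operator with `Yp`. -/
theorem co_LX_pow_Yp (i : ℕ) (u : VV F L) :
    co 0 ((LX al b a ^ i : Module.End F (VV F L)) (Yp u))
      = ∑ s ∈ Finset.range i, hk al b a s (Th1 a
        (((LX al b a + b • LinearMap.id) ^ (i - 1 - s) : Module.End F (VV F L)) u)) := by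
  induction i generalizing u with
  | zero => rw [pow_zero, Module.End.one_apply, co_zero_Yp, Finset.sum_range_zero]
  | succ i ih =>
    have h1 : LX al b a u + b • u = (LX al b a + b • LinearMap.id : Module.End F (VV F L)) u := rfl
    rw [pow_succ, Module.End.mul_apply, LX_Yp, map_add, map_add, h1, ih, Finset.sum_range_succ,
      Nat.add_sub_cancel, Nat.sub_self, pow_zero, Module.End.one_apply, ← hk_apply]
    congr 1
    refine Finset.sum_congr rfl fun s hs => ?_
    rw [Finset.mem_range] at hs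
    have h2 : i - s = i - 1 - s + 1 := by omega
    rw [h2, pow_succ, Module.End.mul_apply]

theorem LX_pow_p1 (n : ℕ) (u : VV F L) :
    (LX al b a ^ n : Module.End F (VV F L)) (Polynomial.C (X (a, 1)) * u)
      = Polynomial.C (X (a, 1)) * (LX al b a ^ n : Module.End F (VV F L)) u +
        al • ∑ j ∈ Finset.range n, (LX al b a ^ (n - 1 - j) : Module.End F (VV F L))
          (Yp ((LX al b a ^ j : Module.End F (VV F L)) u)) := by
  have h0 : ∀ u : VV F L, LX al b a (Polynomial.C (X (a, 1)) * u)
      = Polynomial.C (X (a, 1)) * LX al b a u + al • Yp u := by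
    intro u
    rw [LX_C_mul, Md_X, Nat.cast_one, mul_one, pow_one, smul_mul_assoc, ← Yp_apply]
  induction n with
  | zero => rw [pow_zero, Module.End.one_apply, Module.End.one_apply, Finset.sum_range_zero,
      smul_zero, add_zero]
  | succ n ih =>
    rw [pow_succ', Module.End.mul_apply, ih, map_add, h0, Module.End.mul_apply, map_smul, map_sum,
      Finset.sum_range_succ, smul_add, Nat.add_sub_cancel, Nat.sub_self, pow_zero,
      Module.End.one_apply]
    have h1 : ∑ j ∈ Finset.range n, LX al b a ((LX al b a ^ (n - 1 - j) : Module.End F (VV F L))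
          (Yp ((LX al b a ^ j : Module.End F (VV F L)) u)))
        = ∑ j ∈ Finset.range n, (LX al b a ^ (n - j) : Module.End F (VV F L))
          (Yp ((LX al b a ^ j : Module.End F (VV F L)) u)) := by
      refine Finset.sum_congr rfl fun j hj => ?_
      rw [Finset.mem_range] at hj
      have h2 : n - j = n - 1 - j + 1 := by omega
      rw [h2, pow_succ', Module.End.mul_apply]
    rw [h1]
    abel

/-- The commutator of `hk n` with `p_1`. -/
theorem hk_p1 (n : ℕ) (f : AA F L) :
    hk al b a n (X (a, 1) * f) = X (a, 1) * hk al b a n f +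
      al • ∑ j ∈ Finset.range n, ∑ s ∈ Finset.range (n - 1 - j), hk al b a s (Th1 a
        (((LX al b a + b • LinearMap.id) ^ (n - 1 - j - 1 - s) : Module.End F (VV F L))
          ((LX al b a ^ j : Module.End F (VV F L)) (mo 0 f)))) := by
  have h1 : ∀ u : VV F L, co 0 (Polynomial.C (X (a, 1)) * u) = X (a, 1) * co 0 u := by
    intro u
    rw [co_apply, co_apply, Polynomial.coeff_C_mul]
  rw [hk_apply, hk_apply, ← C_mul_mo, LX_pow_p1, map_add, map_smul, map_sum, h1]
  refine congrArg₂ _ rfl (congrArg (fun x => al • x) (Finset.sum_congr rfl fun j _ => ?_))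
  rw [co_LX_pow_Yp]

/-- The operators on the right side of `nat_hk`. -/
noncomputable def rhs (al b : F) (a : L) (T : ℕ → VV F L →ₗ[F] VV F L) (n : ℕ) :
    VV F L →ₗ[F] VV F L :=
  ∑ j ∈ Finset.range n, ∑ s ∈ Finset.range (n - 1 - j), nat (T s) ∘ₗ
    ((LX al b a + b • LinearMap.id) ^ (n - 1 - j - 1 - s) : Module.End F (VV F L)) ∘ₗ
      (LX al b a ^ j : Module.End F (VV F L))

theorem rhs_apply (T : ℕ → VV F L →ₗ[F] VV F L) (n : ℕ) (u : VV F L) :
    rhs al b a T n u = ∑ j ∈ Finset.range n, ∑ s ∈ Finset.range (n - 1 - j), nat (T s)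
      (((LX al b a + b • LinearMap.id) ^ (n - 1 - j - 1 - s) : Module.End F (VV F L))
        ((LX al b a ^ j : Module.End F (VV F L)) u)) := by
  rw [rhs, LinearMap.sum_apply]
  refine Finset.sum_congr rfl fun j _ => ?_
  rw [LinearMap.sum_apply]
  rfl

omit [DecidableEq L] in
/-- Powers commute. -/
theorem pow_comm_of {T E : VV F L →ₗ[F] VV F L} (h : ∀ u, T (E u) = E (T u)) (k : ℕ) (u : VV F L) :
    T ((E ^ k : Module.End F (VV F L)) u) = (E ^ k : Module.End F (VV F L)) (T u) := by
  induction k generalizing u with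
  | zero => rfl
  | succ k ih => rw [pow_succ, Module.End.mul_apply, Module.End.mul_apply, ih, h]

/-- The recursion for `nat` of the extensions of the `hk`. -/
theorem nat_hk [CharZero F] (hal : al ≠ 0) {T : ℕ → VV F L →ₗ[F] VV F L}
    (hT : ∀ n, IsLift al b a (hk al b a n) (T n)) (n : ℕ) (u : VV F L) :
    nat (T n) u = T n u + al • rhs al b a T n u := by
  set Lb : Module.End F (VV F L) := LX al b a + b • LinearMap.id with hLb
  have hLbLX : ∀ u, LX al b a (Lb u) = Lb (LX al b a u) := by
    intro u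
    rw [hLb]
    show LX al b a (LX al b a u + b • u) = LX al b a (LX al b a u) + b • LX al b a u
    rw [map_add, map_smul]
  have hLbD : ∀ u, D2t al b a (Lb u) = Lb (D2t al b a u) := by
    intro u
    rw [hLb]
    show D2t al b a (LX al b a u + b • u) = LX al b a (D2t al b a u) + b • D2t al b a u
    rw [map_add, map_smul, D2t_LX hal]
  have hD : ∀ s f, hk al b a s (D2 al b a f) = D2 al b a (hk al b a s f) :=
    fun s f => (D2_hk hal s f).symm
  set Q : VV F L →ₗ[F] VV F L := nat (T n) - (T n + al • rhs al b a T n) with hQ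
  have hQLX : ∀ u, Q (LX al b a u) = LX al b a (Q u) := by
    intro u
    rw [hQ]
    simp only [LinearMap.sub_apply, LinearMap.add_apply, LinearMap.smul_apply, rhs_apply, map_sub,
      map_add, map_smul, map_sum]
    rw [nat_LX (hT n), (hT n).lx]
    congr 3
    refine Finset.sum_congr rfl fun j _ => Finset.sum_congr rfl fun s _ => ?_
    rw [← nat_LX (hT s), pow_comm_of hLbLX, pow_comm_of (fun u => rfl)]
  have hQD : ∀ u, Q (D2t al b a u) = D2t al b a (Q u) := by
    intro u
    rw [hQ]
    simp only [LinearMap.sub_apply, LinearMap.add_apply, LinearMap.smul_apply, rhs_apply, map_sub,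
      map_add, map_smul, map_sum]
    rw [nat_D2t hal (hT n) (hD n), (hT n).commute hal (isLift_D2t hal) (hD n)]
    congr 3
    refine Finset.sum_congr rfl fun j _ => Finset.sum_congr rfl fun s _ => ?_
    rw [← nat_D2t hal (hT s) (hD s), pow_comm_of hLbD, pow_comm_of (fun u => D2t_LX hal b a u)]
  have h0 : ∀ f, Th1 a (Q (mo 0 f)) = 0 := by
    intro f
    rw [hQ]
    simp only [LinearMap.sub_apply, LinearMap.add_apply, LinearMap.smul_apply, rhs_apply, map_sub,
      map_add, map_smul, map_sum]
    rw [nat_Th1 (hT n), (hT n).mo, Th1_mo, Th1_mo, zero_add, hk_p1, sub_eq_zero]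
    refine congrArg₂ _ rfl (congrArg (fun x => al • x) (Finset.sum_congr rfl fun j _ =>
      Finset.sum_congr rfl fun s _ => ?_))
    rw [nat_Th1 (hT s)]
  have h1 : ∀ (j : ℕ) (f : AA F L),
      Th1 a (Q ((LX al b a ^ j : Module.End F (VV F L)) (mo 0 f))) = 0 := by
    intro j
    induction j with
    | zero => exact h0
    | succ j ih =>
      intro f
      have h2 := D2_Th1 hal b a (Q ((LX al b a ^ j : Module.End F (VV F L)) (mo 0 f)))
      rw [ih, map_zero, map_add, ← hQD, D2t_LX_pow hal, D2t_zero, ih, zero_add] at h2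
      rw [pow_succ', Module.End.mul_apply, hQLX, ← h2]
  have h2 : ∀ u, Th1 a (Q u) = 0 := by
    intro u
    obtain ⟨g, rfl⟩ := SX_surj hal b a u
    induction g using Finsupp.induction_linear with
    | zero => simp only [map_zero]
    | add g h ig ih => simp only [map_add, ig, ih, add_zero]
    | single i f => rw [SX_single, h1]
  have h3 : Q u = 0 := by
    refine eq_zero_of_Th1 (b := b) (a := a) hal fun j => ?_
    rw [← pow_comm_of hQLX, h2]
  rw [hQ, LinearMap.sub_apply, sub_eq_zero] at h3
  exact h3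

end Nat1

end Pool.Agent.JackB
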