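import Pool.Agent.Lib.JackB.Core

/-!
Contraction of two alphabets of power sums: the pairing of monomials under the Wick operator,
restriction to the remaining alphabets (problem MP_b52a9f_co).
-/

open MvPolynomial

namespace Pool.Agent.JackB

section Multi

variable {F : Type*} [Field F] {L : Type*}

/-- The product of the variables `(a, i)`, `i` in the multiset `m`. -/
noncomputable def pm (F : Type*) [Field F] {L : Type*} (a : L) (m : Multiset ℕ) :
    MvPolynomial (L × ℕ) F := (m.map fun i => X (a, i)).prod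

@[simp] theorem pm_zero (a : L) : pm F a 0 = 1 := by simp [pm]

theorem pm_cons (a : L) (i : ℕ) (m : Multiset ℕ) : pm F a (i ::ₘ m) = X (a, i) * pm F a m := by
  simp [pm]

/-- The number `∏ i ^ m_i m_i !` of a multiset. -/
def zz (m : Multiset ℕ) : ℕ := ∏ i ∈ m.toFinset, i ^ m.count i * (m.count i).factorial

theorem zz_eq (m : Multiset ℕ) (t : Finset ℕ) (ht : m.toFinset ⊆ t) :
    zz m = ∏ i ∈ t, i ^ m.count i * (m.count i).factorial := by
  refine Finset.prod_subset ht fun i _ hi => ?_
  rw [Multiset.mem_toFinset, ← Multiset.count_eq_zero] at hi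
  rw [hi]
  simp

theorem zz_cons (i : ℕ) (m : Multiset ℕ) : zz (i ::ₘ m) = i * (m.count i + 1) * zz m := by
  have h1 : m.toFinset ⊆ insert i m.toFinset := Finset.subset_insert _ _
  have h2 : (i ::ₘ m).toFinset ⊆ insert i m.toFinset := by rw [Multiset.toFinset_cons]
  have hi : i ∈ insert i m.toFinset := Finset.mem_insert_self _ _
  rw [zz_eq m _ h1, zz_eq (i ::ₘ m) _ h2, ← Finset.mul_prod_erase _ _ hi,
    ← Finset.mul_prod_erase _ _ hi, Multiset.count_cons_self, Nat.factorial_succ, pow_succ]
  have h3 : ∏ x ∈ (insert i m.toFinset).erase i,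
      x ^ Multiset.count x (i ::ₘ m) * (Multiset.count x (i ::ₘ m)).factorial
      = ∏ x ∈ (insert i m.toFinset).erase i,
      x ^ Multiset.count x m * (Multiset.count x m).factorial := by
    refine Finset.prod_congr rfl fun x hx => ?_
    rw [Multiset.count_cons_of_ne (Finset.ne_of_mem_erase hx)]
  rw [h3]
  ring

variable [DecidableEq L]

theorem pderiv_pm (a : L) (i : ℕ) (m : Multiset ℕ) :
    pderiv (a, i) (pm F a m) = C (m.count i : F) * pm F a (m.erase i) := by
  induction m using Multiset.induction_on with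
  | empty => simp
  | cons j m ih =>
    rw [pm_cons, pderiv_mul, ih, pderiv_X]
    by_cases h : i = j
    · rw [h, Pi.single_eq_same, Multiset.erase_cons_head, Multiset.count_cons_self]
      by_cases hj : j ∈ m
      · have h1 : pm F a m = X (a, j) * pm F a (m.erase j) := by
          rw [← pm_cons, Multiset.cons_erase hj]
        rw [h1, Nat.cast_add, Nat.cast_one, C_add, C_1]
        ring
      · rw [Multiset.count_eq_zero.2 hj]
        simp
    · have h2 : ((a, j) : L × ℕ) ≠ (a, i) := fun h0 => h (Prod.ext_iff.1 h0).2.symm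
      rw [Pi.single_eq_of_ne h2, zero_mul, zero_add, Multiset.erase_cons_tail _ (Ne.symm h),
        pm_cons, Multiset.count_cons_of_ne h]
      ring

theorem pderiv_pm_of_ne {a b : L} (hab : a ≠ b) (i : ℕ) (m : Multiset ℕ) :
    pderiv (a, i) (pm F b m) = 0 := by
  induction m using Multiset.induction_on with
  | empty => simp
  | cons j m ih =>
    have h2 : ((b, j) : L × ℕ) ≠ (a, i) := fun h0 => hab (Prod.ext_iff.1 h0).1.symm
    rw [pm_cons, pderiv_mul, ih, pderiv_X, Pi.single_eq_of_ne h2]
    ring

end Multi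

section Garb

variable {F : Type*} [Field F] {L L' : Type*}

/-- The monomials whose restriction to some alphabet `a` is in `bad a`. -/
def gb (bad : L → Set (ℕ → ℕ)) : Set (L × ℕ →₀ ℕ) := {d | ∃ a, (fun i => d (a, i)) ∈ bad a}

/-- Closed upwards. -/
def UpCl (bad : L → Set (ℕ → ℕ)) : Prop := ∀ a x y, x ∈ bad a → x ≤ y → y ∈ bad a

theorem gb_add {bad : L → Set (ℕ → ℕ)} (hb : UpCl bad) :
    ∀ d e, d ∈ gb bad → d + e ∈ gb bad := by
  rintro d e ⟨a, ha⟩
  exact ⟨a, hb a _ _ ha fun i => Nat.le_add_right _ _⟩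

theorem gb_filter {bad : L → Set (ℕ → ℕ)} {s : L → L} [DecidableEq L]
    (hb : ∀ a, s a ≠ a → bad a = ∅) :
    ∀ d ∈ gb bad, d.filter (fun v => s v.1 = v.1) ∈ gb bad := by
  rintro d ⟨a, ha⟩
  refine ⟨a, ?_⟩
  have hsa : s a = a := by
    by_contra h
    rw [hb a h] at ha
    exact ha
  have h1 : (fun i => (d.filter (fun v => s v.1 = v.1)) (a, i)) = fun i => d (a, i) := by
    funext i
    rw [Finsupp.filter_apply_pos]
    exact hsa
  rw [h1]
  exact ha

/-- The map of variables induced by a map of alphabets. -/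
def pf (f : L → L') : L × ℕ → L' × ℕ := Prod.map f id

theorem pf_inj {f : L → L'} (hf : Function.Injective f) : Function.Injective (pf f) :=
  Function.Injective.prodMap hf Function.injective_id

theorem mapDomain_pf {f : L → L'} (hf : Function.Injective f) (e : L × ℕ →₀ ℕ) (a : L) (i : ℕ) :
    (e.mapDomain (pf f)) (f a, i) = e (a, i) :=
  Finsupp.mapDomain_apply (pf_inj hf) e (a, i)

theorem rename_mem {S : Subsemiring F} {f : L → L'} (hf : Function.Injective f)
    {bad : L → Set (ℕ → ℕ)} {bad' : L' → Set (ℕ → ℕ)} (hb : UpCl bad) (hb' : UpCl bad')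
    (hbb : ∀ a, bad a ⊆ bad' (f a)) {P : MvPolynomial (L × ℕ) F}
    (hP : P ∈ SS S (gb bad) (gb_add hb)) :
    rename (pf f) P ∈ SS S (gb bad') (gb_add hb') := by
  intro d hd
  by_cases h : ∃ e : L × ℕ →₀ ℕ, e.mapDomain (pf f) = d
  · obtain ⟨e, rfl⟩ := h
    rw [coeff_rename_mapDomain _ (pf_inj hf)]
    refine hP e fun he => hd ?_
    obtain ⟨a, ha⟩ := he
    refine ⟨f a, ?_⟩
    have h1 : (fun i => (e.mapDomain (pf f)) (f a, i)) = fun i => e (a, i) := by
      funext i
      exact mapDomain_pf hf e a i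
    rw [h1]
    exact hbb a ha
  · rw [coeff_rename_eq_zero]
    · exact S.zero_mem
    · intro u hu
      exact absurd ⟨u, hu⟩ h

end Garb

section Legs

variable {F : Type*} [Field F] {ι κ : Type*}

/-- The involution exchanging the two legs. -/
def sw : Option ι ⊕ Option κ → Option ι ⊕ Option κ
  | Sum.inl none => Sum.inr none
  | Sum.inr none => Sum.inl none
  | Sum.inl (some a) => Sum.inl (some a)
  | Sum.inr (some a) => Sum.inr (some a)

theorem sw_sw (a : Option ι ⊕ Option κ) : sw (sw a) = a := by
  rcases a with (_ | a) | (_ | a) <;> rfl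

/-- The inclusion of the remaining alphabets. -/
def em : ι ⊕ κ → Option ι ⊕ Option κ := Sum.map some some

theorem em_inj : Function.Injective (em : ι ⊕ κ → Option ι ⊕ Option κ) :=
  Function.Injective.sumMap (Option.some_injective _) (Option.some_injective _)

theorem em_or (a : Option ι ⊕ Option κ) :
    (∃ b, a = em b) ∨ a = Sum.inl none ∨ a = Sum.inr none := by
  rcases a with (_ | a) | (_ | a)
  · exact Or.inr (Or.inl rfl)
  · exact Or.inl ⟨Sum.inl a, rfl⟩
  · exact Or.inr (Or.inr rfl)
  · exact Or.inl ⟨Sum.inr a, rfl⟩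

theorem sw_em (b : ι ⊕ κ) : sw (em b) = em b := by
  rcases b with a | a <;> rfl

/-- Value of a variable after the legs are put to zero. -/
noncomputable def ev (F : Type*) [Field F] {ι κ : Type*} :
    (Option ι ⊕ Option κ) × ℕ → MvPolynomial ((ι ⊕ κ) × ℕ) F
  | (Sum.inl none, _) => 0
  | (Sum.inr none, _) => 0
  | (Sum.inl (some a), i) => X (Sum.inl a, i)
  | (Sum.inr (some a), i) => X (Sum.inr a, i)

/-- Restriction: the legs are put to zero. -/
noncomputable def eps (F : Type*) [Field F] (ι κ : Type*) :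
    MvPolynomial ((Option ι ⊕ Option κ) × ℕ) F →ₐ[F] MvPolynomial ((ι ⊕ κ) × ℕ) F :=
  aeval (ev F)

theorem eps_X_em (b : ι ⊕ κ) (i : ℕ) : eps F ι κ (X (em b, i)) = X (b, i) := by
  rw [eps, aeval_X]
  rcases b with a | a <;> rfl

theorem eps_X_leg (v : (Option ι ⊕ Option κ) × ℕ) (hv : sw v.1 ≠ v.1) :
    eps F ι κ (X v) = 0 := by
  rw [eps, aeval_X]
  obtain ⟨a, i⟩ := v
  rcases a with (_ | a) | (_ | a)
  · rfl
  · exact absurd rfl hv
  · rfl
  · exact absurd rfl hv

theorem eps_C (c : F) : eps F ι κ (C c) = C c := by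
  rw [eps, aeval_C]
  rfl

theorem eps_rename (P : MvPolynomial ((ι ⊕ κ) × ℕ) F) : eps F ι κ (rename (pf em) P) = P := by
  induction P using MvPolynomial.induction_on with
  | C c => rw [rename_C, eps_C]
  | add p q hp hq => rw [map_add, map_add, hp, hq]
  | mul_X p v hp =>
    rw [map_mul, map_mul, hp, rename_X]
    congr 1
    exact eps_X_em v.1 v.2

variable [DecidableEq ι] [DecidableEq κ]

theorem pderiv_eps (b : ι ⊕ κ) (i : ℕ) (P : MvPolynomial ((Option ι ⊕ Option κ) × ℕ) F) :
    pderiv (b, i) (eps F ι κ P) = eps F ι κ (pderiv (em b, i) P) := by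
  induction P using MvPolynomial.induction_on with
  | C c => rw [eps_C, pderiv_C, pderiv_C, map_zero]
  | add p q hp hq => rw [map_add, map_add, map_add, map_add, hp, hq]
  | mul_X p v hp =>
    rw [map_mul, pderiv_mul, pderiv_mul, map_add, map_mul, map_mul, hp]
    congr 2
    obtain ⟨a, j⟩ := v
    rcases em_or a with ⟨c, rfl⟩ | h | h
    · rw [eps_X_em, pderiv_X, pderiv_X]
      by_cases h : (c, j) = (b, i)
      · have h1 : (em c, j) = (em b, i) := by
          rw [Prod.ext_iff] at h ⊢
          exact ⟨congrArg em h.1, h.2⟩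
        rw [h, h1, Pi.single_eq_same, Pi.single_eq_same, map_one]
      · have h1 : (em c, j) ≠ (em b, i) := by
          intro h0
          rw [Prod.ext_iff] at h0
          exact h (Prod.ext_iff.2 ⟨em_inj h0.1, h0.2⟩)
        rw [Pi.single_eq_of_ne h, Pi.single_eq_of_ne h1, map_zero]
    · subst h
      rw [eps_X_leg _ (by intro h0; exact absurd h0 (by simp [sw])), map_zero, pderiv_X,
        Pi.single_eq_of_ne, map_zero]
      intro h0
      rw [Prod.ext_iff] at h0
      rcases b with b | b <;> simp [em] at h0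
    · subst h
      rw [eps_X_leg _ (by intro h0; exact absurd h0 (by simp [sw])), map_zero, pderiv_X,
        Pi.single_eq_of_ne, map_zero]
      intro h0
      rw [Prod.ext_iff] at h0
      rcases b with b | b <;> simp [em] at h0

/-- The classes of bad exponents with nothing on the legs. -/
def lift (bad : ι ⊕ κ → Set (ℕ → ℕ)) : Option ι ⊕ Option κ → Set (ℕ → ℕ)
  | Sum.inl none => ∅
  | Sum.inr none => ∅
  | Sum.inl (some a) => bad (Sum.inl a)
  | Sum.inr (some a) => bad (Sum.inr a)

omit [DecidableEq ι] [DecidableEq κ] in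
theorem lift_up {bad : ι ⊕ κ → Set (ℕ → ℕ)} (hb : UpCl bad) : UpCl (lift bad) := by
  intro a x y hx hxy
  rcases a with (_ | a) | (_ | a)
  · exact hx
  · exact hb _ x y hx hxy
  · exact hx
  · exact hb _ x y hx hxy

theorem eps_mem {S : Subsemiring F} {bad : ι ⊕ κ → Set (ℕ → ℕ)} (hb : UpCl bad)
    {P : MvPolynomial ((Option ι ⊕ Option κ) × ℕ) F}
    (hP : P ∈ SS S (gb (lift bad)) (gb_add (lift_up hb))) :
    eps F ι κ P ∈ SS S (gb bad) (gb_add hb) := by
  rw [P.as_sum, map_sum]
  refine Subsemiring.sum_mem _ fun d _ => ?_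
  by_cases h : ∃ v ∈ d.support, sw v.1 ≠ v.1
  · obtain ⟨v, hv, hvs⟩ := h
    have hle : Finsupp.single v 1 ≤ d := by
      rw [Finsupp.single_le_iff]
      exact Nat.one_le_iff_ne_zero.2 (Finsupp.mem_support_iff.1 hv)
    obtain ⟨e, he⟩ := exists_add_of_le hle
    have hmon : (monomial d (P.coeff d) : MvPolynomial ((Option ι ⊕ Option κ) × ℕ) F)
        = X v * monomial e (P.coeff d) := by
      rw [X, monomial_mul, one_mul, ← he]
    rw [hmon, map_mul, eps_X_leg v hvs, zero_mul]
    exact Subsemiring.zero_mem _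
  · replace h : ∀ v ∈ d.support, sw v.1 = v.1 := fun v hv => by_contra fun h1 => h ⟨v, hv, h1⟩
    have hr : ∀ v ∈ d.support, v ∈ Set.range (pf (em : ι ⊕ κ → Option ι ⊕ Option κ)) := by
      intro v hv
      have h1 := h v hv
      obtain ⟨a, i⟩ := v
      rcases em_or a with ⟨c, rfl⟩ | h2 | h2
      · exact ⟨(c, i), rfl⟩
      · subst h2
        exact absurd h1 (by simp [sw])
      · subst h2
        exact absurd h1 (by simp [sw])
    set e := d.comapDomain (pf (em : ι ⊕ κ → Option ι ⊕ Option κ)) (pf_inj em_inj).injOn with he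
    have hd : e.mapDomain (pf em) = d := by
      rw [he]
      exact Finsupp.mapDomain_comapDomain _ (pf_inj em_inj) d hr
    have hmon : (monomial d (P.coeff d) : MvPolynomial ((Option ι ⊕ Option κ) × ℕ) F)
        = rename (pf em) (monomial e (P.coeff d)) := by
      rw [rename_monomial, hd]
    rw [hmon, eps_rename]
    refine monomial_mem ?_
    by_cases hg : d ∈ gb (lift bad)
    · right
      obtain ⟨a, ha⟩ := hg
      rcases em_or a with ⟨c, rfl⟩ | h2 | h2
      · refine ⟨c, ?_⟩
        have h1 : (fun i => e (c, i)) = fun i => d (em c, i) := by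
          funext i
          rw [← hd]
          exact (mapDomain_pf em_inj e c i).symm
        rw [h1]
        rcases c with c | c <;> exact ha
      · subst h2
        exact absurd ha (by simp [lift])
      · subst h2
        exact absurd ha (by simp [lift])
    · exact Or.inl (hP d hg)

variable {al : F}
  {T : MvPolynomial ((Option ι ⊕ Option κ) × ℕ) F →ₗ[F]
    MvPolynomial ((Option ι ⊕ Option κ) × ℕ) F}

theorem phi_leg (hT : IsWick sw al T) (v : (Option ι ⊕ Option κ) × ℕ) (hv : sw v.1 ≠ v.1)
    (P : MvPolynomial ((Option ι ⊕ Option κ) × ℕ) F) :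
    eps F ι κ (T (X v * P)) = C (al * (v.2 : F)) * eps F ι κ (T (pderiv (sw v.1, v.2) P)) := by
  rw [hT.X_mul, map_add, map_mul, eps_X_leg v hv, zero_mul, zero_add, map_mul, eps_C,
    hT.pderiv_comm, wt, if_neg hv]
  rfl

theorem phi_pair (hT : IsWick sw al T) (m m' : Multiset ℕ) :
    eps F ι κ (T (pm F (Sum.inl none) m * pm F (Sum.inr none) m'))
      = if m = m' then C ((zz m : F) * al ^ m.card) else 0 := by
  have hx : (sw (Sum.inl none) : Option ι ⊕ Option κ) ≠ Sum.inl none := by simp [sw]
  have hy : (sw (Sum.inr none) : Option ι ⊕ Option κ) ≠ Sum.inr none := by simp [sw]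
  induction m using Multiset.induction_on generalizing m' with
  | empty =>
    rw [pm_zero, one_mul]
    induction m' using Multiset.induction_on with
    | empty =>
      rw [if_pos rfl, pm_zero, hT.one, map_one]
      simp [zz]
    | cons j m' _ =>
      rw [if_neg (Multiset.cons_ne_zero (a := j) (m := m')).symm, pm_cons, phi_leg hT _ hy]
      have : pderiv ((sw (Sum.inr none) : Option ι ⊕ Option κ), j)
          (pm F (Sum.inr none : Option ι ⊕ Option κ) m') = 0 :=
        pderiv_pm_of_ne hy j m'
      rw [this, map_zero, map_zero, mul_zero]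
  | cons i m ih =>
    rw [pm_cons, mul_assoc, phi_leg hT _ hx, pderiv_mul]
    have h1 : pderiv ((sw (Sum.inl none) : Option ι ⊕ Option κ), i)
        (pm F (Sum.inl none : Option ι ⊕ Option κ) m) = 0 := pderiv_pm_of_ne hx i m
    have h2 : pderiv ((sw (Sum.inl none) : Option ι ⊕ Option κ), i)
        (pm F (Sum.inr none : Option ι ⊕ Option κ) m')
        = C (m'.count i : F) * pm F (Sum.inr none) (m'.erase i) :=
      pderiv_pm (Sum.inr none : Option ι ⊕ Option κ) i m'
    rw [h1, h2, zero_mul, zero_add, mul_left_comm, hT.C_mul, map_mul (eps F ι κ), eps_C,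
      ih (m'.erase i)]
    by_cases hi : i ∈ m'
    · have hcons : i ::ₘ m'.erase i = m' := Multiset.cons_erase hi
      by_cases h3 : m = m'.erase i
      · have h4 : i ::ₘ m = m' := by rw [h3, hcons]
        have h5 : m'.count i = m.count i + 1 := by rw [← h4, Multiset.count_cons_self]
        rw [if_pos h3, if_pos h4, h5, zz_cons, Multiset.card_cons, ← C_mul, ← C_mul]
        congr 1
        push_cast
        ring
      · have h4 : i ::ₘ m ≠ m' := by
          intro h0
          apply h3
          rw [← h0, Multiset.erase_cons_head]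
        rw [if_neg h3, if_neg h4, mul_zero, mul_zero]
    · have h4 : i ::ₘ m ≠ m' := by
        intro h0
        apply hi
        rw [← h0]
        exact Multiset.mem_cons_self i m
      rw [if_neg h4, Multiset.count_eq_zero.2 hi, Nat.cast_zero, C_0, zero_mul, mul_zero]

end Legs

end Pool.Agent.JackB
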