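import Pool.Agent.Lib.JackB.Jop

/-!
The differential equation of the series `τ` in the derivatives with respect to the second
alphabet (problem MP_b52a9f_co).
-/

open MvPolynomial

namespace Pool.Agent.JackB

section NatT

variable {F : Type*} [Field F] [CharZero F] {L : Type*} [DecidableEq L] {al b : F} {a : L}
  {T : ℕ → VV F L →ₗ[F] VV F L}

theorem nat_T_comm (hal : al ≠ 0) (hT : ∀ n, IsLift al b a (hk al b a n) (T n))
    {P0 : AA F L →ₗ[F] AA F L} {P : VV F L →ₗ[F] VV F L} (hP : IsLift al b a P0 P)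
    (h : ∀ k u, P (T k u) = T k (P u)) (k : ℕ) (u : VV F L) :
    nat P (T k u) = T k (nat P u) := by
  set Lb : Module.End F (VV F L) := LX al b a + b • LinearMap.id with hLb
  have hLbP : ∀ u, nat P (Lb u) = Lb (nat P u) := by
    intro u
    rw [hLb]
    show nat P (LX al b a u + b • u) = LX al b a (nat P u) + b • nat P u
    rw [map_add, map_smul, nat_LX hP]
  have h1 : ∀ u, T k u = nat (T k) u - al • rhs al b a T k u := by
    intro u
    rw [nat_hk hal hT]
    ring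
  rw [h1, h1, map_sub, map_smul, nat_commute hP (hT k) (h k), rhs_apply, rhs_apply, map_sum]
  refine congrArg₂ _ rfl (congrArg (fun x => al • x) (Finset.sum_congr rfl fun j _ => ?_))
  rw [map_sum]
  refine Finset.sum_congr rfl fun s _ => ?_
  rw [nat_commute hP (hT s) (h s), pow_comm_of hLbP, pow_comm_of (nat_LX hP)]

omit [CharZero F] [DecidableEq L] in
theorem Gb_r1 {x : VV F L} (hx : x ∈ Gb (r1 F L) 1) : x = 0 := by
  have h1 : Gb (r1 F L) 1 ≤ ⊥ := by
    refine (AddSubgroup.closure_le _).2 ?_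
    rintro x ⟨nu, hnu, u, rfl⟩
    show Polynomial.C (rr (r1 F L) nu) * u ∈ (⊥ : AddSubgroup (VV F L))
    rw [rr_r1 hnu, map_zero, zero_mul]
    exact AddSubgroup.zero_mem _
  exact AddSubgroup.mem_bot.1 (h1 hx)

/-- The basis vectors are images of the exponential vectors. -/
theorem exists_OI (hal : al ≠ 0) (hT : ∀ n, IsLift al b a (hk al b a n) (T n))
    (hc : ∀ k l f, hk al b a k (hk al b a l f) = hk al b a l (hk al b a k f)) (k : ℕ) (c : F)
    (lam : Multiset ℕ) (hl : ∀ i ∈ lam, 1 ≤ i) :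
    ∃ O, OI al b a T ⊤ (r1 F L) O ∧
      O (mo 0 (vv al a (r1 F L) (lam.sum + k))) = mo k (C c * pm F a lam) := by
  have hG : PowerSeries.monomial (lam.sum + k) (Polynomial.C (rr (r1 F L) 0) *
      mo k (C c * pm F a lam)) ∈ FV (⊤ : Subring F) a (r1 F L) 1 (lam.sum + k + 2) :=
    FV_gen (by omega) (HV_gen rfl (HA_gen (Subring.mem_top _) hl rfl))
  obtain ⟨O, hO, h1⟩ := tri_OI hal (Subring.mem_top _) (Subring.mem_top _) hT hc (Md_r1 al a)
    (r1_ne (by omega)) r1_one (fun i hi => r1_ne (by omega)) le_rfl _ hG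
  refine ⟨O, hO, ?_⟩
  obtain ⟨x, hx, h2⟩ := h1 (lam.sum + k)
  rw [Gb_r1 hx, add_zero, coeff_tl, coeff_ve, mul_comm (ve al a (r1 F L)), coeff_monomial_mul,
    if_pos le_rfl, Nat.sub_self, coeff_ve, vv_zero] at h2
  rw [h2, rr, Multiset.map_zero, Multiset.prod_zero, Polynomial.C_1, one_mul, mo_zero_eq,
    Polynomial.C_1, mul_one]

end NatT

section Rho

variable {F : Type*} [Field F] [CharZero F] {L : Type*} [DecidableEq L] {al b : F} {a : L}
  {T : ℕ → VV F L →ₗ[F] VV F L} {S : Subring F} {r : ℕ → AA F L} {N : ℕ}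

/-- The series `∑ t ^ m r_(m+1) Y ^ m`. -/
noncomputable def Gr (r : ℕ → AA F L) : PowerSeries (VV F L) :=
  PowerSeries.mk fun m => mo m (r (m + 1))

theorem exists_rho (hal : al ≠ 0) (halS : al ∈ S) (hbS : b ∈ S)
    (hT : ∀ n, IsLift al b a (hk al b a n) (T n))
    (hc : ∀ k l f, hk al b a k (hk al b a l f) = hk al b a l (hk al b a k f))
    (hr : ∀ i, Md al a (r i) = 0) (h0 : r 0 = 0)
    (h1 : r 1 = 1) (hN : ∀ i, N < i → r i = 0) (hN1 : 1 ≤ N) :
    ∃ O, OI al b a T S r O ∧ Cg r N (tl O (ve al a r)) (ve al a r * Gr r) := by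
  refine tri_OI hal halS hbS hT hc hr h0 h1 hN hN1 (3 * N) ?_
  have h2 : Gr r = ∑ m ∈ Finset.range N, PowerSeries.monomial m (mo m (r (m + 1))) := by
    ext1 n
    rw [Gr, PowerSeries.coeff_mk, map_sum]
    simp only [PowerSeries.coeff_monomial]
    rw [Finset.sum_ite_eq]
    split_ifs with h
    · rfl
    · rw [Finset.mem_range] at h
      rw [hN (n + 1) (by omega), map_zero]
  rw [h2]
  refine AddSubgroup.sum_mem _ fun m hm => ?_
  rw [Finset.mem_range] at hm
  have h3 : (mo m (r (m + 1)) : VV F L)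
      = Polynomial.C (rr r {m + 1}) * mo m (C 1 * pm F a 0) := by
    rw [C_mul_mo, pm_zero, C_1, mul_one, mul_one]
    simp [rr]
  rw [h3]
  have h4 : rk {m + 1} = m := by simp [rk]
  refine FV_gen (by omega) (HV_gen (by simp) (HA_gen S.one_mem (by simp) rfl))

/-- `nat P` on the exponential vectors. -/
theorem nat_P_e (hal : al ≠ 0) (hr : ∀ i, Md al a (r i) = 0) (h0 : r 0 = 0)
    {P0 : AA F L →ₗ[F] AA F L} {P : VV F L →ₗ[F] VV F L} (hP : IsLift al b a P0 P)
    (hPe : ∀ n, P0 (vv al a (r1 F L) n) = vv al a r n) (n : ℕ) :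
    nat P (mo 0 (vv al a (r1 F L) n)) = PowerSeries.coeff n (ve al a r * Gr r) := by
  have h1 : (Yp (mo 0 (vv al a (r1 F L) n)) : VV F L)
      = LX al b a (mo 0 (vv al a (r1 F L) (n + 1))) := by
    have h2 := congrArg (PowerSeries.coeff (n + 1)) (Md_vv hal (Md_r1 al a) (r1_ne (by omega)))
    rw [coeff_tl, PowerSeries.coeff_mk, PowerSeries.coeff_mul, Finset.sum_eq_single (1, n)] at h2
    · rw [LX_zero, Yp_mo]
      rw [coeff_tl, PowerSeries.coeff_mk, YY, PowerSeries.coeff_mk, r1_one, mo_zero_eq, mul_comm,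
        C_mul_mo, mul_one] at h2
      exact h2.symm
    · intro p hp hpn
      rw [Finset.HasAntidiagonal.mem_antidiagonal] at hp
      rw [YY, PowerSeries.coeff_mk, r1_ne, map_zero, zero_mul]
      intro h
      exact hpn (Prod.ext h (by show p.2 = n; omega))
    · intro h
      exact absurd (Finset.HasAntidiagonal.mem_antidiagonal.2 (add_comm 1 n)) h
  have h2 := congrArg (PowerSeries.coeff (n + 1)) (Md_vv hal hr h0)
  rw [coeff_tl, PowerSeries.coeff_mk] at h2
  have h3 : Md al a (vv al a r (n + 1)) = _ := h2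
  rw [nat_apply, h1, hP.lx, hP.mo, hPe, LX_zero, h3, PowerSeries.coeff_mul,
    Finset.Nat.sum_antidiagonal_succ, map_add, map_sum, mul_comm (ve al a r),
    PowerSeries.coeff_mul]
  have h4 : Ym (PowerSeries.coeff (0, n + 1).1 (YY r) *
      PowerSeries.coeff (0, n + 1).2 (tl (mo 0) (PowerSeries.mk (vv al a r)))) = 0 := by
    rw [YY, PowerSeries.coeff_mk]
    show Ym (mo 0 (r 0) * _) = 0
    rw [h0, map_zero, zero_mul, map_zero]
  rw [h4, zero_add]
  refine Finset.sum_congr rfl fun p _ => ?_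
  show Ym (PowerSeries.coeff (p.1 + 1) (YY r) *
      PowerSeries.coeff p.2 (tl (mo 0) (PowerSeries.mk (vv al a r)))) = _
  rw [YY, PowerSeries.coeff_mk, Gr, PowerSeries.coeff_mk, coeff_ve, coeff_tl, PowerSeries.coeff_mk,
    mo_zero_eq, mul_comm, C_mul_mo, Ym_mo_succ, mul_comm (mo p.1 (r (p.1 + 1))), C_mul_mo]

/-- `nat P` is `ρ P` modulo parameters of large rank. -/
theorem nat_P (hal : al ≠ 0)
    (hT : ∀ n, IsLift al b a (hk al b a n) (T n))
    (hc : ∀ k l f, hk al b a k (hk al b a l f) = hk al b a l (hk al b a k f))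
    (hr : ∀ i, Md al a (r i) = 0) (h0 : r 0 = 0)
    {P0 : AA F L →ₗ[F] AA F L} {P : VV F L →ₗ[F] VV F L} (hP : IsLift al b a P0 P)
    (hPe : ∀ n, P0 (vv al a (r1 F L) n) = vv al a r n)
    (hPk : ∀ k f, P0 (hk al b a k f) = hk al b a k (P0 f))
    (hPp : ∀ v, Pv a v → ∀ f, P0 (X v * f) = X v * P0 f)
    {ρ : VV F L →ₗ[F] VV F L} (hρ : Cm al b a T ρ)
    (hρ2 : Cg r N (tl ρ (ve al a r)) (ve al a r * Gr r)) (u : VV F L) :
    nat P u - ρ (P u) ∈ Gb r N := by
  set E : VV F L →ₗ[F] VV F L := nat P - ρ ∘ₗ P with hE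
  have hEa : ∀ u, E u = nat P u - ρ (P u) := fun u => rfl
  have hPT : ∀ k u, P (T k u) = T k (P u) := fun k u => hP.commute hal (hT k) (hPk k) u
  have hPX : ∀ v, Pv a v → ∀ u, P (Polynomial.C (X v) * u) = Polynomial.C (X v) * P u :=
    fun v hv u => hP.par hal (Md_X_par al hv) (hPp v hv) u
  have hEX : ∀ v, Pv a v → ∀ u, E (Polynomial.C (X v) * u) = Polynomial.C (X v) * E u := by
    intro v hv u
    have h2 : (Yp (Polynomial.C (X v) * u) : VV F L) = Polynomial.C (X v) * Yp u := by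
      rw [Yp_apply, Yp_apply, mul_left_comm]
    rw [hEa, hEa, nat_apply, nat_apply, hPX v hv, hρ.par _ (Md_X_par al hv), h2, hPX v hv,
      Ym_C_mul, mul_sub]
  have hEO : ∀ O, OI al b a T ⊤ (r1 F L) O → ∀ u, E (O u) = O (E u) := by
    intro O hO
    induction hO with
    | lx =>
      intro u
      rw [hEa, hEa, nat_LX hP, hP.lx, hρ.lx, map_sub]
    | tk k =>
      intro u
      rw [hEa, hEa, nat_T_comm hal hT hP hPT, hPT, hρ.tk, map_sub]
    | sc s _ =>
      intro u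
      have h2 : ∀ w : VV F L, Polynomial.C (C s) * w = s • w := by
        intro w
        rw [← Polynomial.smul_eq_C_mul, ← algebraMap_eq, algebraMap_smul]
      rw [LinearMap.mulLeft_apply, LinearMap.mulLeft_apply, h2, h2, map_smul]
    | pr i =>
      intro u
      rw [LinearMap.mulLeft_apply, LinearMap.mulLeft_apply]
      by_cases h : i = 1
      · rw [h, r1_one, Polynomial.C_1, one_mul, one_mul]
      · rw [r1_ne h, Polynomial.C_0, zero_mul, zero_mul, map_zero]
    | add O O' _ _ ih ih' =>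
      intro u
      rw [LinearMap.add_apply, LinearMap.add_apply, map_add, ih, ih']
    | comp O O' _ _ ih ih' =>
      intro u
      rw [LinearMap.comp_apply, LinearMap.comp_apply, ih, ih']
  have hEe : ∀ n, E (mo 0 (vv al a (r1 F L) n)) ∈ Gb r N := by
    intro n
    obtain ⟨x, hx, h2⟩ := hρ2 n
    rw [coeff_tl, coeff_ve] at h2
    rw [hEa, nat_P_e hal hr h0 hP hPe, hP.mo, hPe, h2, sub_add_cancel_left]
    exact (Gb r N).neg_mem hx
  have key : ∀ (k : ℕ) (f : AA F L), E (mo k f) ∈ Gb r N := by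
    intro k f
    refine pm_ind (a := a) ((Gb r N).comap (E ∘ₗ mo k).toAddMonoidHom) ?_ ?_ f
    · intro c lam hl
      show E (mo k (C c * pm F a lam)) ∈ Gb r N
      obtain ⟨O, hO, h2⟩ := exists_OI hal hT hc k c lam hl
      rw [← h2, hEO O hO]
      exact (hO.cm hal hT hc (Md_r1 al a)).gb hr (hEe _)
    · intro v hv f hf
      show E (mo k (X v * f)) ∈ Gb r N
      rw [← C_mul_mo, hEX v hv]
      exact Gb_mul _ hf
  have h3 : u ∈ (Gb r N).comap E.toAddMonoidHom := by
    induction u using Polynomial.induction_on' with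
    | add p q hp hq => exact AddSubgroup.add_mem _ hp hq
    | monomial m f => exact key m f
  exact h3

/-- `P` on powers of `Y`. -/
theorem P_mo (hal : al ≠ 0)
    (hT : ∀ n, IsLift al b a (hk al b a n) (T n))
    (hc : ∀ k l f, hk al b a k (hk al b a l f) = hk al b a l (hk al b a k f))
    (hr : ∀ i, Md al a (r i) = 0) (h0 : r 0 = 0)
    {P0 : AA F L →ₗ[F] AA F L} {P : VV F L →ₗ[F] VV F L} (hP : IsLift al b a P0 P)
    (hPe : ∀ n, P0 (vv al a (r1 F L) n) = vv al a r n)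
    (hPk : ∀ k f, P0 (hk al b a k f) = hk al b a k (P0 f))
    (hPp : ∀ v, Pv a v → ∀ f, P0 (X v * f) = X v * P0 f)
    {ρ : VV F L →ₗ[F] VV F L} (hρ : Cm al b a T ρ)
    (hρ2 : Cg r N (tl ρ (ve al a r)) (ve al a r * Gr r)) (i : ℕ) (f : AA F L) :
    ∃ x ∈ Gb r N, P (mo i f) = ((Yp ∘ₗ ρ) ^ i : Module.End F (VV F L)) (mo 0 (P0 f)) + x := by
  induction i with
  | zero => exact ⟨0, (Gb r N).zero_mem, by rw [hP.mo, pow_zero, Module.End.one_apply, add_zero]⟩
  | succ i ih =>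
    obtain ⟨x, hx, h1⟩ := ih
    have h2 := nat_P hal hT hc hr h0 hP hPe hPk hPp hρ hρ2 (mo i f)
    refine ⟨Yp (ρ x) + Yp (nat P (mo i f) - ρ (P (mo i f))), (Gb r N).add_mem ?_ ?_, ?_⟩
    · rw [Yp_apply]
      exact Gb_mul _ (hρ.gb hr hx)
    · rw [Yp_apply]
      exact Gb_mul _ h2
    · rw [← Yp_mo, hP.Yp, pow_succ', Module.End.mul_apply, LinearMap.comp_apply, ← map_add,
        ← map_add]
      have h3 : ρ (((Yp ∘ₗ ρ) ^ i : Module.End F (VV F L)) (mo 0 (P0 f))) + ρ x = ρ (P (mo i f)) := by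
        rw [h1, map_add]
      refine congrArg _ ?_
      rw [← add_assoc, h3]
      ring

end Rho

section Pde

variable {J : Fam} {L : Type*} [DecidableEq L] {a q : L}
  {T : ℕ → VV K L →ₗ[K] VV K L} {r : ℕ → AA K L} {N : ℕ}

/-- The coefficients of the series `τ` with the third alphabet replaced by the parameters. -/
noncomputable def ta (J : Fam) (a q : L) (r : ℕ → AA K L) (n : ℕ) : AA K L :=
  ∑ th : n.Partition, C (jn J th)⁻¹ * (Jp J th q * (Jr J th r * Jp J th a))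

omit [DecidableEq L] in
theorem vv_symm (al' : K) (a q : L) (n : ℕ) :
    vv al' a (fun i => X (q, i)) n = vv al' q (fun i => X (a, i)) n := by
  rw [vv, vv]
  refine Finset.sum_congr rfl fun l _ => ?_
  have h1 : rr (fun i => X (q, i)) l.parts = pm K q l.parts := rfl
  have h2 : rr (fun i => X (a, i)) l.parts = pm K a l.parts := rfl
  rw [h1, h2, mul_comm (pm K a l.parts)]

omit [DecidableEq L] in
theorem P0_tau (hJ : JOK J) (hqa : q ≠ a) {P0 : AA K L →ₗ[K] AA K L}
    (hP1 : ∀ (n : ℕ) (th : n.Partition), P0 (Jp J th a) = Jr J th r * Jp J th a)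
    (hP2 : ∀ v, Pv a v → ∀ f, P0 (X v * f) = X v * P0 f) (n : ℕ) :
    P0 (vv al a (fun i => X (q, i)) n) = ta J a q r n := by
  have h1 : ∀ (lam : Multiset ℕ) (f : AA K L), P0 (pm K q lam * f) = pm K q lam * P0 f := by
    intro lam
    induction lam using Multiset.induction_on with
    | empty =>
      intro f
      rw [pm_zero, one_mul, one_mul]
    | cons i lam ih =>
      intro f
      rw [pm_cons, mul_assoc, hP2 (q, i) (fun h => absurd h hqa), ih, mul_assoc]
  have h2 : ∀ (th : n.Partition) (f : AA K L), P0 (Jp J th q * f) = Jp J th q * P0 f := by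
    intro th f
    rw [Jp_eq, Finset.sum_mul, map_sum, Finset.sum_mul]
    refine Finset.sum_congr rfl fun l _ => ?_
    rw [mul_assoc, ← smul_eq_C_mul, map_smul, h1, smul_eq_C_mul, mul_assoc]
  rw [vv_eq_J hJ, map_sum, ta]
  refine Finset.sum_congr rfl fun th _ => ?_
  rw [← smul_eq_C_mul, map_smul, ← Jp_eq_Jr, h2, hP1, smul_eq_C_mul]

omit [DecidableEq L] in
theorem P0_e (hJ : JOK J) {P0 : AA K L →ₗ[K] AA K L}
    (hP1 : ∀ (n : ℕ) (th : n.Partition), P0 (Jp J th a) = Jr J th r * Jp J th a) (n : ℕ) :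
    P0 (vv al a (r1 K L) n) = vv al a r n := by
  rw [vv_eq_J hJ, vv_eq_J hJ, map_sum]
  refine Finset.sum_congr rfl fun th _ => ?_
  rw [← smul_eq_C_mul, map_smul, Jr_r1 hJ, one_mul, hP1, smul_eq_C_mul]

/-- The differential equation. -/
theorem pde (hJ : JOK J) (hE : Eig J a) (hqa : q ≠ a)
    (hT : ∀ n, IsLift al (al - 1) a (hk al (al - 1) a n) (T n))
    (hr : ∀ i, Md al a (r i) = 0) (h0 : r 0 = 0) (hrq : ∀ i j, pderiv (q, i) (r j) = 0)
    {ρ : VV K L →ₗ[K] VV K L} (hρ : Cm al (al - 1) a T ρ)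
    (hρ2 : Cg r N (tl ρ (ve al a r)) (ve al a r * Gr r)) (i n : ℕ) (hi : 1 ≤ i) :
    ∃ x ∈ Gb r N, C (al * (i : K)) * pderiv (q, i) (ta J a q r n)
      = (if i ≤ n then co 0 (LX al (al - 1) a (((Yp ∘ₗ ρ) ^ i : Module.End K (VV K L))
        (mo 0 (ta J a q r (n - i))))) else 0) + co 0 x := by
  obtain ⟨P0, hP1, hP2⟩ := exists_P0 hJ a r
  have hPk := P0_hk hJ hE hr hP1 hP2
  have hc := hk_comm hJ hE
  obtain ⟨P, hP⟩ := exists_lift al_ne_zero (al - 1) a hPk
  have hPe := P0_e hJ hP1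
  have h1 : C (al * (i : K)) * pderiv (q, i) (ta J a q r n)
      = P0 (if i ≤ n then X (a, i) * vv al a (fun i => X (q, i)) (n - i) else 0) := by
    have h2 : ∀ j, pderiv (q, i) (X (a, j) : AA K L) = 0 := by
      intro j
      rw [pderiv_X, Pi.single_eq_of_ne]
      intro h
      exact hqa (Prod.ext_iff.1 h).1.symm
    have h3 := pderiv_vv al_ne_zero hi h2 n
    rw [vv_symm al a q, ← h3, ← vv_symm al a q n, ← smul_eq_C_mul, ← smul_eq_C_mul, map_smul,
      P0_pderiv hJ hqa (hrq i) hP1 hP2, P0_tau hJ hqa hP1 hP2]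
  rw [h1]
  split_ifs with h
  · obtain ⟨x, hx, h2⟩ := P_mo al_ne_zero hT hc hr h0 hP hPe hPk hP2 hρ hρ2 i
      (vv al a (fun i => X (q, i)) (n - i))
    refine ⟨LX al (al - 1) a x, (Cm_lx hT).gb hr hx, ?_⟩
    have h3 : (X (a, i) * vv al a (fun i => X (q, i)) (n - i) : AA K L)
        = co 0 (LX al (al - 1) a (mo i (vv al a (fun i => X (q, i)) (n - i)))) := by
      obtain ⟨i, rfl⟩ := Nat.exists_eq_add_of_le' hi
      rw [co_zero_LX, Ym_mo_succ, Th1_mo]
    rw [h3, ← hP.co, hP.lx, h2, map_add, map_add, P0_tau hJ hqa hP1 hP2]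
  · exact ⟨0, (Gb r N).zero_mem, by rw [map_zero, map_zero, add_zero]⟩

end Pde

end Pool.Agent.JackB
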