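import Pool.Agent.Lib.JackB.Hook8

/-!
The operators `P` for the parameters `e, e, …` and for the power sums of a second alphabet
(problem MP_b52a9f_co).
-/

open MvPolynomial

namespace Pool.Agent.JackB

section Par

variable {L : Type*}

/-- The power sums of the alphabet `c` as parameters. -/
noncomputable def qq (c : L) : ℕ → AA K L := fun i => if i = 0 then 0 else X (c, i)

theorem qq_zero (c : L) : qq c 0 = (0 : AA K L) := if_pos rfl

theorem qq_succ (c : L) (i : ℕ) : qq c (i + 1) = (X (c, i + 1) : AA K L) := if_neg (by omega)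

theorem qq_pos (c : L) {i : ℕ} (hi : 1 ≤ i) : qq c i = (X (c, i) : AA K L) := if_neg (by omega)

theorem qq_Gp {a c : L} (h : c ≠ a) (i : ℕ) : (qq c i : AA K L) ∈ Gp K a := by
  unfold qq
  split_ifs
  · exact (Gp K a).zero_mem
  · exact Gp_X fun h' => absurd h' h

theorem rr_qq (c : L) (m : Multiset ℕ) (hm : ∀ i ∈ m, 1 ≤ i) :
    rr (qq c) m = pm K c m := by
  rw [rr, pm]
  refine congrArg Multiset.prod (Multiset.map_congr rfl fun i hi => ?_)
  exact qq_pos c (hm i hi)

theorem vv_qq (a c : L) (n : ℕ) : vv al a (qq c) n = vv al a (fun i => X (c, i)) n := by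
  rw [vv, vv]
  refine Finset.sum_congr rfl fun l _ => ?_
  rw [rr_qq c _ fun i hi => l.parts_pos hi]
  rfl

theorem Jr_qq (J : Fam) {n : ℕ} (th : n.Partition) (c : L) : Jr J th (qq c) = Jp J th c := by
  rw [Jr, Jp_eq]
  refine Finset.sum_congr rfl fun l _ => ?_
  rw [rr_qq c _ fun i hi => l.parts_pos hi]

/-- Algebra maps on the exponential vectors. -/
theorem hom_vv {a : L} (φ : AA K L →ₐ[K] AA K L) (hφ : ∀ i, 1 ≤ i → φ (X (a, i)) = X (a, i))
    (r : ℕ → AA K L) (n : ℕ) : φ (vv al a r n) = vv al a (fun i => φ (r i)) n := by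
  rw [vv, vv, map_sum]
  refine Finset.sum_congr rfl fun l _ => ?_
  rw [map_mul, algHom_C, algebraMap_eq, map_mul]
  congr 2
  · rw [pm, map_multiset_prod, Multiset.map_map]
    refine congrArg Multiset.prod (Multiset.map_congr rfl fun i hi => ?_)
    exact hφ i (l.parts_pos hi)
  · rw [rr, rr, map_multiset_prod, Multiset.map_map]
    rfl

end Par

section Nat

variable {J : Fam} {L : Type*} [DecidableEq L] {a : L}

/-- `nat P` for the parameters `e, e, …`. -/
theorem nat_Pe (hJ : JOK J) (hE : Eig J a) {e : AA K L} (he : e ∈ Gp K a)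
    {P0 : AA K L →ₗ[K] AA K L} {P : VV K L →ₗ[K] VV K L} (hP : IsP J a (sp e 0) P0 P)
    (u : VV K L) : nat P u = LX al (al - 1) a (P u) + Polynomial.C e * P u := by
  have hT : ∀ n, ∃ T, IsLift al (al - 1) a (hk al (al - 1) a n) T :=
    fun n => exists_lift al_ne_zero (al - 1) a (fun k f => hk_comm hJ hE n k f)
  choose T hT using hT
  have hc := hk_comm hJ hE
  have hr := sp_Gp he (Gp K a).zero_mem
  set E : VV K L →ₗ[K] VV K L := nat P - (LX al (al - 1) a ∘ₗ P +
    LinearMap.mulLeft K (Polynomial.C e) ∘ₗ P) with hEd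
  have hEa : ∀ u, E u = nat P u - (LX al (al - 1) a (P u) + Polynomial.C e * P u) := fun u => rfl
  have hCP := hP.cx hT
  have hCN : Cx al (al - 1) a T (nat P) := cx_nat al_ne_zero hT hP.lift hP.Pk hP.P2
  have hEX : ∀ g ∈ Gp K a, ∀ u, E (Polynomial.C g * u) = Polynomial.C g * E u := by
    intro g hg u
    have h1 := LX_C_mul al (al - 1) a g (P u)
    rw [Md_Gp hg, zero_mul, add_zero] at h1
    rw [hEa, hEa, hCN.par g hg, hCP.par g hg, h1]
    ring
  have hEO : ∀ O, Bc al (al - 1) a T O → ∀ u, E (O u) = O (E u) := by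
    intro O hO u
    rw [hEa, hEa, map_sub, map_add, hO.bc _ hCN, hO.bc _ hCP, hO.cx.lx, hO.cx.par e he]
  have hEe : ∀ n, E (mo 0 (vv al a (r1 K L) n)) = 0 := by
    intro n
    rw [hEa, nat_P_e al_ne_zero (fun i => Md_Gp (hr i)) (sp_zero e 0) hP.lift hP.Pe,
      ve_Gr a he (Gp K a).zero_mem, map_sub (PowerSeries.coeff n), map_add (PowerSeries.coeff n),
      coeff_tl, PowerSeries.coeff_mk, PowerSeries.coeff_C_mul, coeff_ve, Polynomial.C_0, zero_mul,
      map_zero, zero_mul, mul_zero, map_zero (PowerSeries.coeff n), sub_zero, add_zero,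
      hP.lift.mo, hP.Pe, LX_zero]
    exact sub_self _
  have key : ∀ (k : ℕ) (f : AA K L), E (mo k f) = 0 := by
    intro k f
    refine (LinearMap.mem_ker (f := E ∘ₗ mo k)).1
      (pm_ind (a := a) (LinearMap.ker (E ∘ₗ mo k)).toAddSubgroup ?_ ?_ f)
    · intro c lam hl
      rw [Submodule.mem_toAddSubgroup, LinearMap.mem_ker, LinearMap.comp_apply]
      obtain ⟨O, hO, h2⟩ := exists_OI al_ne_zero hT hc k c lam hl
      rw [← h2, hEO O (hO.bc al_ne_zero hT hc), hEe, map_zero]
    · intro v hv f hf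
      rw [Submodule.mem_toAddSubgroup, LinearMap.mem_ker, LinearMap.comp_apply] at hf ⊢
      rw [← C_mul_mo, hEX _ (Gp_X hv), hf, mul_zero]
  have h3 : E u = 0 := by
    induction u using Polynomial.induction_on' with
    | add p q hp hq => rw [map_add, hp, hq, add_zero]
    | monomial m f => exact key m f
  rw [hEa, sub_eq_zero] at h3
  exact h3

/-- The operators `P0` commute with algebra maps changing the constants. -/
theorem P0_hom (hJ : JOK J) {r : ℕ → AA K L} {P0 : AA K L →ₗ[K] AA K L}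
    (hP1 : ∀ (n : ℕ) (th : n.Partition), P0 (Jp J th a) = Jr J th r * Jp J th a)
    (hP2 : ∀ v, Pv a v → ∀ f, P0 (X v * f) = X v * P0 f) (φ : AA K L →ₐ[K] AA K L)
    (h1 : ∀ i, 1 ≤ i → φ (X (a, i)) = X (a, i)) (h2 : ∀ v, Pv a v → φ (X v) ∈ Gp K a)
    (h3 : ∀ i, φ (r i) = r i) (f : AA K L) : P0 (φ f) = φ (P0 f) := by
  set E : AA K L →ₗ[K] AA K L := P0 ∘ₗ φ.toLinearMap - φ.toLinearMap ∘ₗ P0 with hEd
  have hEa : ∀ f, E f = P0 (φ f) - φ (P0 f) := fun f => rfl
  have hJp : ∀ (n : ℕ) (th : n.Partition), φ (Jp J th a) = Jp J th a := by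
    intro n th
    rw [Jp_eq, map_sum]
    refine Finset.sum_congr rfl fun l _ => ?_
    rw [map_mul, algHom_C, algebraMap_eq, pm, map_multiset_prod, Multiset.map_map]
    congr 1
    refine congrArg Multiset.prod (Multiset.map_congr rfl fun i hi => ?_)
    exact h1 i (l.parts_pos hi)
  have h0 : f ∈ (LinearMap.ker E).toAddSubgroup := by
    refine J_ind hJ a _ ?_ ?_ f
    · intro c n th
      rw [Submodule.mem_toAddSubgroup, LinearMap.mem_ker, hEa]
      have h4 : φ (Jr J th r) = Jr J th r := by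
        rw [hom_Jr]
        congr 1
        funext i
        exact h3 i
      rw [map_mul, algHom_C, algebraMap_eq, hJp, ← smul_eq_C_mul, map_smul, hP1, map_smul,
        map_mul, h4, hJp, sub_self]
    · intro v hv f hf
      rw [Submodule.mem_toAddSubgroup, LinearMap.mem_ker, hEa] at hf ⊢
      rw [map_mul, lin_Gp hP2 (h2 v hv), hP2 v hv, map_mul, ← mul_sub, hf, mul_zero]
  rw [Submodule.mem_toAddSubgroup, LinearMap.mem_ker, hEa] at h0
  exact sub_eq_zero.1 h0

end Nat

section Cw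

variable {L : Type*}

/-- A linear map on the coefficients. -/
noncomputable def cw (φ : AA K L →ₗ[K] AA K L) : VV K L →ₗ[K] VV K L :=
  Polynomial.lsum fun m => mo m ∘ₗ φ

theorem cw_mo (φ : AA K L →ₗ[K] AA K L) (m : ℕ) (f : AA K L) : cw φ (mo m f) = mo m (φ f) := by
  rw [cw, lsum_mo, LinearMap.comp_apply]

theorem cw_Yp (φ : AA K L →ₗ[K] AA K L) (u : VV K L) : cw φ (Yp u) = Yp (cw φ u) := by
  have : cw φ ∘ₗ Yp = Yp ∘ₗ cw φ := by
    refine vext fun m f => ?_
    rw [LinearMap.comp_apply, LinearMap.comp_apply, Yp_mo, cw_mo, cw_mo, Yp_mo]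
  exact LinearMap.congr_fun this u

theorem co_cw (φ : AA K L →ₗ[K] AA K L) (m : ℕ) (u : VV K L) : co m (cw φ u) = φ (co m u) := by
  have : co m ∘ₗ cw φ = φ ∘ₗ co m := by
    refine vext fun k f => ?_
    rw [LinearMap.comp_apply, LinearMap.comp_apply, cw_mo, co_mo, co_mo]
    split_ifs
    · rfl
    · rw [map_zero]
  exact LinearMap.congr_fun this u

variable [DecidableEq L] {a : L}

/-- The linear maps commuting with the operators in the alphabet `a`. -/
structure Ok (a : L) (φ : AA K L →ₗ[K] AA K L) : Prop where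
  pd : ∀ i f, φ (pderiv (a, i) f) = pderiv (a, i) (φ f)
  mx : ∀ i f, φ (X (a, i) * f) = X (a, i) * φ f

theorem cw_Md {φ : AA K L →ₗ[K] AA K L} (h : Ok a φ) (f : AA K L) :
    cw φ (Md al a f) = Md al a (φ f) := by
  refine co_ext fun i => ?_
  rw [co_cw, coeff_Md, coeff_Md, ← smul_eq_C_mul, map_smul, smul_eq_C_mul, h.pd]

theorem cw_LX {φ : AA K L →ₗ[K] AA K L} (h : Ok a φ) (u : VV K L) :
    cw φ (LX al (al - 1) a u) = LX al (al - 1) a (cw φ u) := by
  have : cw φ ∘ₗ LX al (al - 1) a = LX al (al - 1) a ∘ₗ cw φ := by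
    refine vext fun m f => ?_
    rw [LinearMap.comp_apply, LinearMap.comp_apply, cw_mo, LX_mo, LX_mo, map_add, map_add,
      map_smul, cw_mo, map_sum]
    congr 1
    · congr 1
      refine co_ext fun i => ?_
      rw [co_cw, co_apply, co_apply, Polynomial.coeff_X_pow_mul', Polynomial.coeff_X_pow_mul']
      split_ifs
      · rw [← co_apply, ← co_apply, ← co_cw, cw_Md h]
      · rw [map_zero]
    · refine Finset.sum_congr rfl fun j _ => ?_
      rw [cw_mo, h.mx]
  exact LinearMap.congr_fun this u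

omit [DecidableEq L] in
theorem cw_Th1 {φ : AA K L →ₗ[K] AA K L} (h : ∀ i f, φ (X (a, i) * f) = X (a, i) * φ f)
    (u : VV K L) : Th1 a (cw φ u) = φ (Th1 a u) := by
  have : Th1 a ∘ₗ cw φ = φ ∘ₗ Th1 a := by
    refine vext fun m f => ?_
    rw [LinearMap.comp_apply, LinearMap.comp_apply, cw_mo, Th1_mo, Th1_mo, h]
  exact LinearMap.congr_fun this u

end Cw

end Pool.Agent.JackB
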