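import Pool.Agent.Lib.JackB.Prof2

/-!
The formulas for the profiles `(2, 1, …)`, `(3, 1, …)` and `(2, 2, 1, …)`
(problem MP_b52a9f_co).
-/

open MvPolynomial

namespace Pool.Agent.JackB

section Cmb2

variable {B : Type*} [CommRing B]

theorem cmb_mul (H : PowerSeries B) (F : ℕ → PowerSeries B) :
    cmb (fun m => H * F m) = H * cmb F := by
  ext1 n
  rw [coeff_cmb, PowerSeries.coeff_mul]
  have h1 : ∀ p ∈ Finset.HasAntidiagonal.antidiagonal n, PowerSeries.coeff p.2 (H * F p.1)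
      = ∑ q ∈ Finset.HasAntidiagonal.antidiagonal p.2,
        PowerSeries.coeff q.1 H * PowerSeries.coeff q.2 (F p.1) :=
    fun p _ => PowerSeries.coeff_mul _ _ _
  have h2 : ∀ p ∈ Finset.HasAntidiagonal.antidiagonal n,
      PowerSeries.coeff p.1 H * PowerSeries.coeff p.2 (cmb F)
      = ∑ q ∈ Finset.HasAntidiagonal.antidiagonal p.2,
        PowerSeries.coeff p.1 H * PowerSeries.coeff q.2 (F q.1) := by
    intro p _
    rw [coeff_cmb, Finset.mul_sum]
  rw [Finset.sum_congr rfl h1, Finset.sum_congr rfl h2, Finset.sum_sigma', Finset.sum_sigma']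
  refine Finset.sum_bij' (fun x _ => ⟨(x.2.1, x.1.1 + x.2.2), (x.1.1, x.2.2)⟩)
    (fun x _ => ⟨(x.2.1, x.1.1 + x.2.2), (x.1.1, x.2.2)⟩) ?_ ?_ ?_ ?_ ?_
  · rintro ⟨p, q⟩ h
    simp only [Finset.mem_sigma, Finset.HasAntidiagonal.mem_antidiagonal] at h ⊢
    refine ⟨?_, trivial⟩
    omega
  · rintro ⟨p, q⟩ h
    simp only [Finset.mem_sigma, Finset.HasAntidiagonal.mem_antidiagonal] at h ⊢
    refine ⟨?_, trivial⟩
    omega
  · rintro ⟨⟨p1, p2⟩, ⟨q1, q2⟩⟩ h
    simp only [Finset.mem_sigma, Finset.HasAntidiagonal.mem_antidiagonal] at h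
    obtain ⟨h3, h4⟩ := h
    have h5 : q1 + q2 = p2 := h4
    subst h5
    rfl
  · rintro ⟨⟨p1, p2⟩, ⟨q1, q2⟩⟩ h
    simp only [Finset.mem_sigma, Finset.HasAntidiagonal.mem_antidiagonal] at h
    obtain ⟨h3, h4⟩ := h
    have h5 : q1 + q2 = p2 := h4
    subst h5
    rfl
  · rintro ⟨p, q⟩ h
    rfl

theorem cmb_sub (G H : ℕ → PowerSeries B) : cmb (fun m => G m - H m) = cmb G - cmb H := by
  ext1 n
  rw [map_sub, coeff_cmb, coeff_cmb, coeff_cmb, ← Finset.sum_sub_distrib]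
  exact Finset.sum_congr rfl fun p _ => map_sub _ _ _

theorem zd_cmb (F : ℕ → PowerSeries B) :
    zd (cmb F) = cmb fun m => PowerSeries.C (m : B) * F m + zd (F m) := by
  ext1 n
  rw [coeff_zd, coeff_cmb, coeff_cmb, Finset.mul_sum]
  refine Finset.sum_congr rfl fun p hp => ?_
  rw [Finset.HasAntidiagonal.mem_antidiagonal] at hp
  rw [map_add, PowerSeries.coeff_C_mul, coeff_zd, ← hp, Nat.cast_add]
  ring

end Cmb2

section Euler

variable {L : Type*} [DecidableEq L] {a : L}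

theorem Md_X_mul (i : ℕ) (f : AA K L) : Md al a (X (a, i) * f)
    = Polynomial.C (X (a, i)) * Md al a f + (al * (i : K)) • mo i f := by
  rw [Derivation.leibniz, Md_X, Polynomial.smul_eq_C_mul, smul_comm, Polynomial.smul_eq_C_mul,
    Polynomial.C_mul_X_pow_eq_monomial, mo_apply]

theorem Md_Gp_mul {g : AA K L} (hg : g ∈ Gp K a) (f : AA K L) :
    Md al a (g * f) = Polynomial.C g * Md al a f := by
  rw [Derivation.leibniz, Md_Gp hg, smul_zero, add_zero, Polynomial.smul_eq_C_mul]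

theorem euler_pm (m : Multiset ℕ) (hm : ∀ i ∈ m, 1 ≤ i) :
    Th1 a (Ym (Md al a (pm K a m))) = C (al * (m.sum : K)) * pm K a m := by
  induction m using Multiset.induction_on with
  | empty =>
    rw [pm_zero, Derivation.map_one_eq_zero, map_zero, map_zero, Multiset.sum_zero, Nat.cast_zero,
      mul_zero, C_0, zero_mul]
  | cons i m ih =>
    obtain ⟨j, rfl⟩ := Nat.exists_eq_add_of_le' (hm i (Multiset.mem_cons_self i m))
    have h1 : ((j + 1 + m.sum : ℕ) : K) = ((j + 1 : ℕ) : K) + (m.sum : K) := Nat.cast_add _ _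
    rw [pm_cons, Md_X_mul, map_add, Ym_C_mul, map_smul, Ym_mo_succ, map_add, Th1_C_mul, map_smul,
      Th1_mo, ih fun k hk => hm k (Multiset.mem_cons_of_mem hk), smul_eq_C_mul,
      Multiset.sum_cons, h1, mul_add, map_add C]
    ring

theorem euler_vv {r : ℕ → AA K L} (hr : ∀ i, r i ∈ Gp K a) (n : ℕ) :
    Th1 a (Ym (Md al a (vv al a r n))) = C (al * (n : K)) * vv al a r n := by
  rw [vv, map_sum, map_sum, map_sum, Finset.mul_sum]
  refine Finset.sum_congr rfl fun l _ => ?_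
  have h1 : (C ((zz l.parts : K) * al ^ l.parts.card)⁻¹ * (pm K a l.parts * rr r l.parts) : AA K L)
      = (C ((zz l.parts : K) * al ^ l.parts.card)⁻¹ * rr r l.parts) * pm K a l.parts := by ring
  have h2 : (C ((zz l.parts : K) * al ^ l.parts.card)⁻¹ * rr r l.parts : AA K L) ∈ Gp K a :=
    (Gp K a).mul_mem ((Gp K a).algebraMap_mem _) (rr_Gp hr _)
  rw [h1, Md_Gp_mul h2, Ym_C_mul, Th1_C_mul, euler_pm _ fun i hi => l.parts_pos hi, l.parts_sum]
  ring

/-- The series `∑ p_k r_k t ^ k`. -/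
noncomputable def pq (a : L) (r : ℕ → AA K L) : PowerSeries (AA K L) :=
  PowerSeries.mk fun k => X (a, k) * r k

theorem zd_vv {r : ℕ → AA K L} (hr : ∀ i, r i ∈ Gp K a) (h0 : r 0 = 0) :
    PowerSeries.C (C al) * zd (PowerSeries.mk (vv al a r))
      = pq a r * PowerSeries.mk (vv al a r) := by
  ext1 n
  have h1 := congrArg (PowerSeries.coeff n) (Md_vv al_ne_zero (fun j => Md_Gp (hr j)) h0)
  rw [coeff_tl, PowerSeries.coeff_mk] at h1
  have h2 : Md al a (vv al a r n) = _ := h1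
  have h3 := euler_vv hr n
  rw [h2, PowerSeries.coeff_mul, map_sum, map_sum] at h3
  rw [PowerSeries.coeff_C_mul, coeff_zd, PowerSeries.coeff_mk, PowerSeries.coeff_mul]
  have h4 : (C al * ((n : AA K L) * vv al a r n) : AA K L) = C (al * (n : K)) * vv al a r n := by
    rw [C_mul, map_natCast (C : K →+* AA K L)]
    ring
  rw [h4, ← h3]
  refine Finset.sum_congr rfl fun p _ => ?_
  rw [YY, PowerSeries.coeff_mk, coeff_tl, PowerSeries.coeff_mk, pq,
    PowerSeries.coeff_mk, mo_zero_eq, mul_comm (mo p.1 (r p.1)), C_mul_mo]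
  rcases p with ⟨i, j⟩
  cases i with
  | zero =>
    show Th1 a (Ym (mo 0 _)) = X (a, 0) * r 0 * vv al a r j
    rw [Ym_mo_zero, map_zero, h0, mul_zero, zero_mul]
  | succ i =>
    show Th1 a (Ym (mo (i + 1) _)) = _
    rw [Ym_mo_succ, Th1_mo]
    ring

end Euler

section Vecs

variable {L : Type*} [DecidableEq L] {a : L}

/-- The exponential vectors of the parameters `1, 0, 0, …`. -/
noncomputable def v1 (a : L) (n : ℕ) : AA K L := vv al a (r1 K L) n

theorem Md_v1_zero : Md al a (v1 a 0) = 0 := by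
  rw [v1, vv_zero, Derivation.map_one_eq_zero]

theorem Md_v1_succ (n : ℕ) : Md al a (v1 a (n + 1)) = mo 1 (v1 a n) := by
  have h2 := congrArg (PowerSeries.coeff (n + 1)) (Md_vv al_ne_zero (Md_r1 al a)
    (r1_ne (by omega)))
  rw [coeff_tl, PowerSeries.coeff_mk, PowerSeries.coeff_mul, Finset.sum_eq_single (1, n)] at h2
  · rw [coeff_tl, PowerSeries.coeff_mk, YY, PowerSeries.coeff_mk, r1_one, mo_zero_eq, mul_comm,
      C_mul_mo, mul_one] at h2
    exact h2
  · intro p hp hpn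
    rw [Finset.HasAntidiagonal.mem_antidiagonal] at hp
    rw [YY, PowerSeries.coeff_mk, r1_ne, map_zero, zero_mul]
    intro h
    exact hpn (Prod.ext h (by show p.2 = n; omega))
  · intro h
    exact absurd (Finset.HasAntidiagonal.mem_antidiagonal.2 (add_comm 1 n)) h

omit [DecidableEq L] in
theorem X_v1 (n : ℕ) : X (a, 1) * v1 a n = (al * ((n + 1 : ℕ) : K)) • v1 a (n + 1) := by
  rw [v1, X_vv_r1, smul_eq_C_mul]
  rfl

theorem LX_mo_zero_v1 (n : ℕ) :
    LX al (al - 1) a (mo 0 (v1 a n)) = if n = 0 then 0 else mo 1 (v1 a (n - 1)) := by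
  cases n with
  | zero => rw [LX_zero, Md_v1_zero, if_pos rfl]
  | succ n => rw [LX_zero, Md_v1_succ, if_neg (Nat.succ_ne_zero n), Nat.add_sub_cancel]

/-- The vectors `Y ^ 2 v1` through the Lax operator. -/
theorem K_v1 (n : ℕ) : LX al (al - 1) a (LX al (al - 1) a (mo 0 (v1 a n))) -
    (al - 1) • LX al (al - 1) a (mo 0 (v1 a n)) - (al * (n : K)) • mo 0 (v1 a n)
      = if 2 ≤ n then mo 2 (v1 a (n - 2)) else 0 := by
  rcases n with _ | n
  · rw [LX_mo_zero_v1, if_pos rfl, map_zero, smul_zero, Nat.cast_zero, mul_zero, zero_smul,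
      sub_zero, sub_zero, if_neg (by omega)]
  · have h1 : LX al (al - 1) a (mo 1 (v1 a n))
        = Polynomial.X ^ 1 * Md al a (v1 a n) + (al - 1) • mo 1 (v1 a n) +
          (al * ((n + 1 : ℕ) : K)) • mo 0 (v1 a (n + 1)) := by
      rw [LX_mo, Finset.sum_range_one, Nat.sub_self, zero_add, X_v1, map_smul,
        Nat.cast_one, mul_one]
    rw [LX_mo_zero_v1, if_neg (Nat.succ_ne_zero n), Nat.add_sub_cancel, h1]
    rcases n with _ | n
    · rw [Md_v1_zero, if_neg (by omega), mul_zero]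
      abel
    · rw [Md_v1_succ, if_pos (by omega), X_pow_mul_mo]
      have h2 : n + 1 + 1 - 2 = n := by omega
      rw [h2]
      abel

theorem D2_v1 (n : ℕ) : D2 al (al - 1) a (v1 a n)
    = if 2 ≤ n then (2 * al)⁻¹ • (X (a, 2) * v1 a (n - 2)) else 0 := by
  rw [D2_apply]
  rcases n with _ | n
  · rw [Md_v1_zero, map_zero, map_zero, map_zero, smul_zero, if_neg (by omega)]
  · rw [Md_v1_succ, Ym_mo_succ, LX_zero]
    rcases n with _ | n
    · rw [Md_v1_zero, map_zero, smul_zero, if_neg (by omega)]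
    · rw [Md_v1_succ, Th1_mo, if_pos (by omega)]
      have h2 : n + 1 + 1 - 2 = n := by omega
      rw [h2]

theorem two_al_ne : (2 * al : K) ≠ 0 := mul_ne_zero two_ne_zero al_ne_zero

/-- The vectors `p_2 Y v1` through the Lax operator and `D2`. -/
theorem D_v1 (n : ℕ) : LX al (al - 1) a (mo 0 (D2 al (al - 1) a (v1 a n))) -
    (if 2 ≤ n then mo 2 (v1 a (n - 2)) else 0)
      = if 3 ≤ n then (2 * al)⁻¹ • mo 1 (X (a, 2) * v1 a (n - 3)) else 0 := by
  rw [D2_v1]
  by_cases h : 2 ≤ n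
  · obtain ⟨n, rfl⟩ := Nat.exists_eq_add_of_le' h
    rw [if_pos h, if_pos h, Nat.add_sub_cancel, map_smul, map_smul, LX_zero, Md_X_mul]
    have h3 : (2 * al)⁻¹ * (al * ((2 : ℕ) : K)) = 1 := by
      have := al_ne_zero
      push_cast
      field_simp
    rw [smul_add, smul_smul, h3, one_smul, add_sub_cancel_right]
    rcases n with _ | n
    · rw [Md_v1_zero, mul_zero, smul_zero, if_neg (by omega)]
    · have h4 : n + 1 + 2 - 3 = n := by omega
      rw [Md_v1_succ, if_pos (by omega), C_mul_mo, h4]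
  · rw [if_neg h, if_neg h, if_neg (by omega), map_zero, map_zero, sub_zero]

end Vecs

section Ser

variable {J : Fam} {L : Type*} [DecidableEq L] {a c : L} {Q0 : AA K L →ₗ[K] AA K L}
  {Q : VV K L →ₗ[K] VV K L}

/-- The exponential series of `∑ p_i q_i t ^ i / (i α)`. -/
noncomputable def Es (a c : L) : PowerSeries (AA K L) := PowerSeries.mk (vv al a (qq c))

/-- The Lax operator conjugated by the exponential series. -/
noncomputable abbrev Lc (a c : L) : PowerSeries (VV K L) →+ PowerSeries (VV K L) :=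
  LXs al (al - 1) a (qq c)

omit [DecidableEq L] in
theorem ve_eq : ve al a (qq c) = tl (mo 0) (Es a c) := rfl

theorem LX_Es (hca : c ≠ a) (G : PowerSeries (VV K L)) :
    tl (LX al (al - 1) a) (tl (mo 0) (Es a c) * G) = tl (mo 0) (Es a c) * Lc a c G :=
  LX_ve al_ne_zero (al - 1) (fun j => Md_Gp (qq_Gp hca j)) (qq_zero c) G

/-- Constants in the series. -/
noncomputable def kc (L : Type*) (x : K) : PowerSeries (VV K L) :=
  PowerSeries.C (Polynomial.C (C x))

omit [DecidableEq L] in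
theorem coeff_kc (x : K) (n : ℕ) (G : PowerSeries (VV K L)) :
    PowerSeries.coeff n (kc L x * G) = x • PowerSeries.coeff n G := by
  rw [kc, PowerSeries.coeff_C_mul, ← Polynomial.smul_eq_C_mul, ← algebraMap_eq, algebraMap_smul]

omit [DecidableEq L] in
theorem zd_mo (G : PowerSeries (AA K L)) : zd (tl (mo 0) G) = tl (mo 0) (zd G) := by
  ext1 n
  rw [coeff_zd, coeff_tl, coeff_tl, coeff_zd, mo_zero_eq, mo_zero_eq, map_mul, map_natCast]

omit [DecidableEq L] in
theorem kc_mo (x : K) (G : PowerSeries (AA K L)) :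
    kc L x * tl (mo 0) G = tl (mo 0) (PowerSeries.C (C x) * G) := by
  ext1 n
  rw [coeff_kc, coeff_tl, coeff_tl, PowerSeries.coeff_C_mul, ← map_smul, smul_eq_C_mul]

theorem zd_Es (hca : c ≠ a) : kc L al * zd (tl (mo 0) (Es a c))
    = tl (mo 0) (pq a (qq c)) * tl (mo 0) (Es a c) := by
  rw [zd_mo, kc_mo, tl_mo_mul, Es, zd_vv (qq_Gp hca) (qq_zero c)]

/-- The series for the profiles `(3, 1, …)`. -/
noncomputable def R3 (a c : L) (G : PowerSeries (VV K L)) : PowerSeries (VV K L) :=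
  Lc a c (Lc a c G) - kc L (al - 1) * Lc a c G - (tl (mo 0) (pq a (qq c)) * G + kc L al * zd G)

theorem nat_Q_v1 (hca : c ≠ a) (hQ : IsP J a (qq c) Q0 Q) (n : ℕ) :
    nat Q (mo 0 (v1 a n)) = PowerSeries.coeff n (tl (mo 0) (Es a c) * Gr (qq c)) :=
  nat_P_e al_ne_zero (fun i => Md_Gp (qq_Gp hca i)) (qq_zero c) hQ.lift hQ.Pe n

/-- The profiles `(2, 1, …)`. -/
theorem Q_two (hca : c ≠ a) (hQ : IsP J a (qq c) Q0 Q) (n : ℕ) :
    PowerSeries.coeff n (Es a c * tl (Th1 a) (Lc a c (Gr (qq c))))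
      = if 1 ≤ n then Q0 (X (a, 2) * v1 a (n - 1)) else 0 := by
  rw [← tl_Th1_mul, ← LX_Es hca, coeff_tl, coeff_tl, ← nat_Q_v1 hca hQ, ← nat_LX hQ.lift,
    LX_mo_zero_v1, nat_Th1 hQ.lift]
  by_cases h : n = 0
  · rw [if_pos h, if_neg (by omega), map_zero, map_zero]
  · rw [if_neg h, if_pos (by omega), Th1_mo]

theorem nat_K (hca : c ≠ a) (hQ : IsP J a (qq c) Q0 Q) (n : ℕ) :
    PowerSeries.coeff n (tl (mo 0) (Es a c) * R3 a c (Gr (qq c)))
      = nat Q (if 2 ≤ n then mo 2 (v1 a (n - 2)) else 0) := by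
  rw [← K_v1, map_sub (nat Q), map_sub (nat Q), map_smul, map_smul, nat_LX hQ.lift,
    nat_LX hQ.lift, nat_Q_v1 hca hQ]
  have h1 : tl (mo 0) (Es a c) * R3 a c (Gr (qq c))
      = tl (LX al (al - 1) a) (tl (LX al (al - 1) a) (tl (mo 0) (Es a c) * Gr (qq c))) -
        kc L (al - 1) * tl (LX al (al - 1) a) (tl (mo 0) (Es a c) * Gr (qq c)) -
        kc L al * zd (tl (mo 0) (Es a c) * Gr (qq c)) := by
    rw [LX_Es hca, LX_Es hca, zd_mul, R3]
    linear_combination (Gr (qq c) : PowerSeries (VV K L)) * zd_Es (a := a) hca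
  rw [h1, map_sub (PowerSeries.coeff n), map_sub (PowerSeries.coeff n), coeff_kc, coeff_kc,
    coeff_tl, coeff_tl, coeff_zd, ← nsmul_eq_mul, ← Nat.cast_smul_eq_nsmul K, smul_smul]

end Ser

end Pool.Agent.JackB
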