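import Pool.Agent.Lib.JackB.Prof3

/-!
The formulas for the profiles `(3, 1, …)` and `(2, 2, 1, …)` (problem MP_b52a9f_co).
-/

open MvPolynomial

namespace Pool.Agent.JackB

section Ker

variable {J : Fam} {L : Type*} [DecidableEq L] {a c : L} {Q0 : AA K L →ₗ[K] AA K L}
  {Q : VV K L →ₗ[K] VV K L}

theorem Q_three (hca : c ≠ a) (hQ : IsP J a (qq c) Q0 Q) (n : ℕ) :
    PowerSeries.coeff n (Es a c * tl (Th1 a) (R3 a c (Gr (qq c))))
      = if 2 ≤ n then Q0 (X (a, 3) * v1 a (n - 2)) else 0 := by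
  rw [← tl_Th1_mul, coeff_tl, nat_K hca hQ, nat_Th1 hQ.lift]
  split_ifs with h
  · rw [Th1_mo]
  · rw [map_zero, map_zero]

theorem D2_hk_eq (f : AA K L) : D2 al (al - 1) a f
    = (2 * al)⁻¹ • (hk al (al - 1) a 3 f - (al - 1) • hk al (al - 1) a 2 f) := by
  have h2 : hk al (al - 1) a 2 f = Th1 a (Ym (Md al a f)) := by
    rw [hk_apply, pow_two, Module.End.mul_apply, co_zero_LX, LX_zero]
  have h3 : hk al (al - 1) a 3 f = Th1 a (LX al (al - 1) a (Ym (Md al a f))) +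
      (al - 1) • Th1 a (Ym (Md al a f)) := by
    rw [hk_apply, pow_succ', pow_two, Module.End.mul_apply, Module.End.mul_apply, co_zero_LX,
      LX_zero, Ym_LX, co_zero_Md, map_zero, map_zero, add_zero, map_add, map_smul]
  rw [D2_apply, h2, h3, add_sub_cancel_right]

theorem Q0_D2 (hQ : IsP J a (qq c) Q0 Q) (f : AA K L) :
    Q0 (D2 al (al - 1) a f) = D2 al (al - 1) a (Q0 f) := by
  rw [D2_hk_eq, D2_hk_eq, map_smul, map_sub, map_smul, hQ.Pk, hQ.Pk]

/-- The series for the profiles `(2, 2, 1, …)`, before division. -/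
theorem nat_D (hca : c ≠ a) (hQ : IsP J a (qq c) Q0 Q) (n : ℕ) :
    PowerSeries.coeff n (tl (LX al (al - 1) a) (tl (D2t al (al - 1) a)
      (tl (mo 0) (Es a c) * Gr (qq c))) - tl (mo 0) (Es a c) * R3 a c (Gr (qq c)))
      = nat Q (if 3 ≤ n then (2 * al)⁻¹ • mo 1 (X (a, 2) * v1 a (n - 3)) else 0) := by
  rw [← D_v1, map_sub (nat Q), nat_LX hQ.lift, ← D2t_zero,
    nat_D2t al_ne_zero hQ.lift (Q0_D2 hQ), nat_Q_v1 hca hQ, map_sub (PowerSeries.coeff n),
    nat_K hca hQ, coeff_tl, coeff_tl]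

/-- The powers of `Y`. -/
noncomputable def yy (L : Type*) (m : ℕ) : PowerSeries (VV K L) := PowerSeries.C (mo m 1)

/-- The variable `Y`. -/
noncomputable def yX (L : Type*) : PowerSeries (VV K L) := PowerSeries.C Polynomial.X

omit [DecidableEq L] in
theorem yy_zero : yy L 0 = 1 := by
  rw [yy, mo_zero_eq, Polynomial.C_1, map_one]

omit [DecidableEq L] in
theorem yy_succ (m : ℕ) : yy L (m + 1) = yX L * yy L m := by
  rw [yy, yy, yX, ← map_mul, ← Yp_apply, Yp_mo]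

theorem tl_D2t_y (H : PowerSeries (VV K L)) : tl (D2t al (al - 1) a) (yX L * H)
    = yX L * (tl (D2t al (al - 1) a) H + tl (LX al (al - 1) a) H) := by
  ext1 n
  rw [coeff_tl, yX, PowerSeries.coeff_C_mul, PowerSeries.coeff_C_mul, map_add, coeff_tl, coeff_tl,
    ← Yp_apply, ← Yp_apply, D2t_Yp]

/-- The vectors `T m`. -/
noncomputable def Tm (a c : L) : ℕ → PowerSeries (VV K L)
  | 0 => 0
  | m + 1 => yX L * (Tm a c m + Lc a c (yy L m))

theorem D2t_Es (hca : c ≠ a) (m : ℕ) :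
    tl (D2t al (al - 1) a) (tl (mo 0) (Es a c) * yy L m)
      = tl (mo 0) (tl (D2 al (al - 1) a) (Es a c)) * yy L m + tl (mo 0) (Es a c) * Tm a c m := by
  induction m with
  | zero =>
    rw [yy_zero, mul_one, mul_one, Tm, mul_zero, add_zero]
    ext1 n
    rw [coeff_tl, coeff_tl, coeff_tl, coeff_tl, D2t_zero]
  | succ m ih =>
    have h1 : tl (mo 0) (Es a c) * yy L (m + 1) = yX L * (tl (mo 0) (Es a c) * yy L m) := by
      rw [yy_succ]
      ring
    rw [h1, tl_D2t_y, ih, LX_Es hca, Tm, yy_succ]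
    ring

omit [DecidableEq L] in
theorem Gr_eq : Gr (qq c) = cmb fun m => PowerSeries.C (Polynomial.C (X (c, m + 1))) * yy L m := by
  ext1 n
  rw [coeff_cmb, Gr, PowerSeries.coeff_mk, Finset.sum_eq_single (n, 0)]
  · rw [PowerSeries.coeff_C_mul, yy, PowerSeries.coeff_C, if_pos rfl, C_mul_mo, mul_one, qq_succ]
  · intro p hp hpn
    rw [Finset.HasAntidiagonal.mem_antidiagonal] at hp
    rw [PowerSeries.coeff_C_mul, yy, PowerSeries.coeff_C, if_neg, mul_zero]
    intro h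
    exact hpn (Prod.ext (by show p.1 = n; omega) h)
  · intro h
    exact absurd (Finset.HasAntidiagonal.mem_antidiagonal.2 (add_zero n)) h

theorem Lc_cmb (F : ℕ → PowerSeries (VV K L)) : Lc a c (cmb F) = cmb fun m => Lc a c (F m) := by
  rw [LXs_apply, tl_cmb, ← cmb_mul, ← cmb_add]
  rfl

theorem Lc_C_mul {g : AA K L} (hg : g ∈ Gp K a) (H : PowerSeries (VV K L)) :
    Lc a c (PowerSeries.C (Polynomial.C g) * H) = PowerSeries.C (Polynomial.C g) * Lc a c H := by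
  rw [LXs_apply, LXs_apply]
  have h1 : tl (LX al (al - 1) a) (PowerSeries.C (Polynomial.C g) * H)
      = PowerSeries.C (Polynomial.C g) * tl (LX al (al - 1) a) H := by
    ext1 n
    rw [coeff_tl, PowerSeries.coeff_C_mul, PowerSeries.coeff_C_mul, coeff_tl, LX_C_mul,
      Md_Gp hg, zero_mul, add_zero]
  rw [h1]
  ring

theorem Lc_mul (g : PowerSeries (AA K L)) (H : PowerSeries (VV K L)) :
    Lc a c (tl (mo 0) g * H) = tl (mo 0) g * Lc a c H + tl (Md al a).toLinearMap g * H := by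
  rw [LXs_apply, LXs_apply, tl_LX_mul]
  ring

omit [DecidableEq L] in
theorem Xc_Gp (hca : c ≠ a) (i : ℕ) : (X (c, i) : AA K L) ∈ Gp K a := Gp_X fun h => absurd h hca

/-- The constants `q_m`. -/
noncomputable def Cq (c : L) (m : ℕ) : PowerSeries (VV K L) :=
  PowerSeries.C (Polynomial.C (X (c, m + 1)))

theorem Lc_Gr (hca : c ≠ a) : Lc a c (Gr (qq c)) = cmb fun m => Cq c m * Lc a c (yy L m) := by
  rw [Gr_eq, Lc_cmb]
  congr 1
  funext m
  rw [Lc_C_mul (Xc_Gp hca _)]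
  rfl

/-- The series `U`. -/
noncomputable def Uss (a c : L) : PowerSeries (AA K L) :=
  PowerSeries.C (C (2 : K)⁻¹) * (PowerSeries.X * tl (Th1 a) (Lc a c (Gr (qq c))))

/-- The series `D2 E / E`. -/
noncomputable def hh (a c : L) : PowerSeries (AA K L) := PowerSeries.C (C al⁻¹) * Uss a c

theorem Es_U (hca : c ≠ a) (hQ : IsP J a (qq c) Q0 Q) :
    Es a c * Uss a c = PowerSeries.C (C al) * tl (D2 al (al - 1) a) (Es a c) := by
  have h1 : Es a c * Uss a c = PowerSeries.C (C (2 : K)⁻¹) * (PowerSeries.X *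
      (Es a c * tl (Th1 a) (Lc a c (Gr (qq c))))) := by
    rw [Uss]
    ring
  ext1 n
  rw [h1, PowerSeries.coeff_C_mul, PowerSeries.coeff_C_mul, coeff_tl, Es, PowerSeries.coeff_mk,
    ← Es, ← hQ.Pe n, ← Q0_D2 hQ]
  have h2 : D2 al (al - 1) a (vv al a (r1 K L) n) = _ := D2_v1 n
  rw [h2]
  cases n with
  | zero =>
    rw [PowerSeries.coeff_zero_X_mul, if_neg (by omega), map_zero, mul_zero, mul_zero]
  | succ n =>
    rw [PowerSeries.coeff_succ_X_mul, Q_two hca hQ]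
    by_cases h : 1 ≤ n
    · rw [if_pos h, if_pos (by omega), map_smul, ← smul_eq_C_mul, ← smul_eq_C_mul, smul_smul]
      have h3 : n + 1 - 2 = n - 1 := by omega
      have h4 : al * (2 * al)⁻¹ = (2 : K)⁻¹ := by
        have := al_ne_zero
        field_simp
      rw [h3, h4]
    · rw [if_neg h, if_neg (by omega), map_zero, mul_zero, mul_zero]

theorem Es_h2 (hca : c ≠ a) (hQ : IsP J a (qq c) Q0 Q) :
    Es a c * hh a c = tl (D2 al (al - 1) a) (Es a c) := by
  have h1 : Es a c * hh a c = PowerSeries.C (C al⁻¹) * (Es a c * Uss a c) := by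
    rw [hh]
    ring
  rw [h1, Es_U hca hQ, ← mul_assoc, ← map_mul, ← C_mul, inv_mul_cancel₀ al_ne_zero, C_1,
    map_one, one_mul]

/-- The kernel for `(2, 2, 1, …)`, before subtraction. -/
noncomputable def N1 (a c : L) (m : ℕ) : PowerSeries (VV K L) :=
  tl (Md al a).toLinearMap (hh a c) * yy L m + Lc a c (Tm a c m)

theorem LX_D2t_Gr (hca : c ≠ a) (hQ : IsP J a (qq c) Q0 Q) :
    tl (LX al (al - 1) a) (tl (D2t al (al - 1) a) (tl (mo 0) (Es a c) * Gr (qq c)))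
      = tl (mo 0) (Es a c) * (tl (mo 0) (hh a c) * Lc a c (Gr (qq c)) +
        cmb fun m => Cq c m * N1 a c m) := by
  have hC : ∀ (T : VV K L →ₗ[K] VV K L), (∀ g ∈ Gp K a, ∀ u, T (Polynomial.C g * u)
      = Polynomial.C g * T u) → ∀ m (H : PowerSeries (VV K L)),
      tl T (Cq c m * H) = Cq c m * tl T H := by
    intro T hT m H
    ext1 n
    rw [coeff_tl, Cq, PowerSeries.coeff_C_mul, PowerSeries.coeff_C_mul, coeff_tl,
      hT _ (Xc_Gp hca _)]
  have hLX : ∀ g ∈ Gp K a, ∀ u : VV K L, LX al (al - 1) a (Polynomial.C g * u)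
      = Polynomial.C g * LX al (al - 1) a u := by
    intro g hg u
    rw [LX_C_mul, Md_Gp hg, zero_mul, add_zero]
  have hDt : ∀ g ∈ Gp K a, ∀ u : VV K L, D2t al (al - 1) a (Polynomial.C g * u)
      = Polynomial.C g * D2t al (al - 1) a u := by
    intro g hg u
    refine (isLift_D2t al_ne_zero).par al_ne_zero (Md_Gp hg) (fun f => ?_) u
    rw [D2_apply, D2_apply, Md_Gp_mul hg, Ym_C_mul, hLX g hg, Th1_C_mul, mul_smul_comm]
  have h1 : ∀ m, tl (LX al (al - 1) a) (tl (D2t al (al - 1) a)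
      (tl (mo 0) (Es a c) * (Cq c m * yy L m)))
      = tl (mo 0) (Es a c) * (Cq c m * (tl (mo 0) (hh a c) * Lc a c (yy L m) + N1 a c m)) := by
    intro m
    have h2 : tl (mo 0) (Es a c) * (Cq c m * yy L m) = Cq c m * (tl (mo 0) (Es a c) * yy L m) := by
      ring
    have h3 : tl (mo 0) (tl (D2 al (al - 1) a) (Es a c)) * yy L m + tl (mo 0) (Es a c) * Tm a c m
        = tl (mo 0) (Es a c) * (tl (mo 0) (hh a c) * yy L m + Tm a c m) := by
      rw [← Es_h2 hca hQ, ← tl_mo_mul]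
      ring
    rw [h2, hC _ hDt, D2t_Es hca, h3, hC _ hLX, LX_Es hca, map_add, Lc_mul, N1]
    ring
  have h2 : tl (mo 0) (Es a c) * Gr (qq c)
      = cmb fun m => tl (mo 0) (Es a c) * (Cq c m * yy L m) := by
    rw [cmb_mul, Gr_eq]
    rfl
  rw [h2, tl_cmb, tl_cmb, Lc_Gr hca, ← cmb_mul, ← cmb_add, ← cmb_mul]
  congr 1
  funext m
  rw [h1]
  ring

/-- The series for `(2, 2, 1, …)`. -/
noncomputable def XX (a c : L) : PowerSeries (VV K L) :=
  (cmb fun m => Cq c m * N1 a c m) - R3 a c (Gr (qq c))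

theorem Q_twotwo (hca : c ≠ a) (hQ : IsP J a (qq c) Q0 Q) (n : ℕ) :
    PowerSeries.coeff n (Es a c * (hh a c * tl (Th1 a) (Lc a c (Gr (qq c))) +
      tl (Th1 a) (XX a c)))
      = if 3 ≤ n then (2 * al)⁻¹ • Q0 (X (a, 2) * (X (a, 2) * v1 a (n - 3))) else 0 := by
  have h1 := nat_D hca hQ n
  rw [LX_D2t_Gr hca hQ] at h1
  have h3 : tl (mo 0) (Es a c) * (tl (mo 0) (hh a c) * Lc a c (Gr (qq c)) +
        cmb fun m => Cq c m * N1 a c m) - tl (mo 0) (Es a c) * R3 a c (Gr (qq c))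
      = tl (mo 0) (Es a c) * (tl (mo 0) (hh a c) * Lc a c (Gr (qq c)) + XX a c) := by
    rw [XX]
    ring
  rw [h3] at h1
  have h4 : hh a c * tl (Th1 a) (Lc a c (Gr (qq c))) + tl (Th1 a) (XX a c)
      = tl (Th1 a) (tl (mo 0) (hh a c) * Lc a c (Gr (qq c)) + XX a c) := by
    rw [map_add, tl_Th1_mul]
  rw [h4, ← tl_Th1_mul, coeff_tl, h1, nat_Th1 hQ.lift]
  split_ifs with h
  · rw [map_smul, Th1_mo, map_smul]
  · rw [map_zero, map_zero]

end Ker

end Pool.Agent.JackB
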