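import Pool.Agent.Lib.JackB.Prof4

/-!
Positivity for the profiles `(2, 1, …)`, `(3, 1, …)` and `(2, 2, 1, …)`
(problem MP_b52a9f_co).
-/

open MvPolynomial

namespace Pool.Agent.JackB

section Bas

variable {L : Type*} [DecidableEq L] {a c : L}

/-- Constants in `V`. -/
noncomputable def kk (L : Type*) (x : K) : VV K L := Polynomial.C (C x)

/-- The powers of `Y`. -/
noncomputable def Yy (L : Type*) : VV K L := Polynomial.X

/-- The power sums in `V`. -/
noncomputable def Pp (a : L) (m : ℕ) : VV K L := Polynomial.C (X (a, m))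

/-- The images of the powers of `Y` under the Lax operator. -/
noncomputable def Lm (a : L) (m : ℕ) : VV K L := LX al (al - 1) a (mo m 1)

/-- The images of the powers of `Y` under `D2t`. -/
noncomputable def Sm (a : L) (m : ℕ) : VV K L := D2t al (al - 1) a (mo m 1)

omit [DecidableEq L] in
theorem smul_kk (x : K) (u : VV K L) : x • u = kk L x * u := by
  rw [kk, ← Polynomial.smul_eq_C_mul, ← algebraMap_eq, algebraMap_smul]

omit [DecidableEq L] in
theorem mo_Yy (m : ℕ) : (mo m 1 : VV K L) = Yy L ^ m := by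
  rw [mo_apply, Polynomial.monomial_one_right_eq_X_pow, Yy]

omit [DecidableEq L] in
theorem mo_Cf (m : ℕ) (f : AA K L) : (mo m f : VV K L) = Polynomial.C f * Yy L ^ m := by
  rw [← mo_Yy, C_mul_mo, mul_one]

omit [DecidableEq L] in
theorem Yp_Yy (u : VV K L) : Yp u = Yy L * u := Yp_apply u

theorem Lm_zero : Lm a 0 = 0 := by
  rw [Lm, LX_zero, Derivation.map_one_eq_zero]

theorem Lm_succ (m : ℕ) : Lm a (m + 1)
    = Yy L * (Lm a m + kk L (al - 1) * Yy L ^ m) + Pp a (m + 1) := by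
  rw [Lm, ← Yp_mo, LX_Yp, Th1_mo, mul_one, Yp_Yy, smul_kk, mo_Yy, mo_zero_eq, ← mo_Yy]
  rfl

theorem Sm_zero : Sm a 0 = 0 := by
  rw [Sm, D2t_zero, D2_apply, Derivation.map_one_eq_zero, map_zero, map_zero, map_zero, smul_zero,
    map_zero]

theorem Sm_succ (m : ℕ) : Sm a (m + 1) = Yy L * (Sm a m + Lm a m) := by
  rw [Sm, ← Yp_mo, D2t_Yp, Yp_Yy]
  rfl

theorem LX_Gp {g : AA K L} (hg : g ∈ Gp K a) (u : VV K L) :
    LX al (al - 1) a (Polynomial.C g * u) = Polynomial.C g * LX al (al - 1) a u := by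
  rw [LX_C_mul, Md_Gp hg, zero_mul, add_zero]

theorem LX_kk (x : K) (u : VV K L) :
    LX al (al - 1) a (kk L x * u) = kk L x * LX al (al - 1) a u := by
  rw [← smul_kk, map_smul, smul_kk]

theorem LX_Pp (m : ℕ) : LX al (al - 1) a (Pp a m) = kk L (al * (m : K)) * Yy L ^ m := by
  rw [Pp, ← mo_zero_eq, LX_zero, Md_X, smul_kk, Yy]

/-- The square of the Lax operator on powers of `Y`. -/
theorem LLm (m : ℕ) : LX al (al - 1) a (Lm a (m + 1)) = LX al (al - 1) a (Yy L * Lm a m) +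
    kk L (al - 1) * Lm a (m + 1) + kk L (al * ((m + 1 : ℕ) : K)) * Yy L ^ (m + 1) := by
  have h1 : Lm a (m + 1) = Yy L * Lm a m + kk L (al - 1) * mo (m + 1) 1 + Pp a (m + 1) := by
    rw [Lm_succ, mo_Yy]
    ring
  conv_lhs => rw [h1]
  rw [map_add, map_add, LX_kk, LX_Pp]
  rfl

/-- The derivative of `Th1 Lm`. -/
theorem Md_Th1_Lm (m : ℕ) : Md al a (Th1 a (Lm a m)) = kk L (2 * al) * Sm a (m + 1) := by
  have h1 := D2t_LX al_ne_zero (al - 1) a (mo 0 (X (a, m + 1)) : VV K L)
  have h2 := D2_X_mul al_ne_zero (al - 1) a m (1 : AA K L)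
  rw [mul_one, Derivation.map_one_eq_zero, mul_zero, map_zero, zero_add] at h2
  have h3 : D2 al (al - 1) a (1 : AA K L) = 0 := by
    rw [D2_apply, Derivation.map_one_eq_zero, map_zero, map_zero, map_zero, smul_zero]
  rw [h3, mul_zero, zero_add] at h2
  have h4 : LX al (al - 1) a (mo 0 (X (a, m + 1)) : VV K L)
      = (al * ((m + 1 : ℕ) : K)) • mo (m + 1) 1 := by
    rw [LX_zero, Md_X, mo_Yy]
    rfl
  rw [h4, map_smul, D2t_zero, h2, map_smul, map_smul, LX_zero] at h1
  have h5 : (al * ((m + 1 : ℕ) : K)) • Sm a (m + 1)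
      = (2⁻¹ * ((m + 1 : ℕ) : K)) • Md al a (Th1 a (Lm a m)) := h1
  have h6 : ((m + 1 : ℕ) : K) ≠ 0 := Nat.cast_ne_zero.2 (Nat.succ_ne_zero m)
  have h7 := congrArg (fun u => (2 * (((m + 1 : ℕ) : K))⁻¹) • u) h5
  simp only [smul_smul] at h7
  have h8 : 2 * (((m + 1 : ℕ) : K))⁻¹ * (al * ((m + 1 : ℕ) : K)) = 2 * al := by
    field_simp
  have h9 : 2 * (((m + 1 : ℕ) : K))⁻¹ * (2⁻¹ * ((m + 1 : ℕ) : K)) = 1 := by
    field_simp
  rw [h8, h9, one_smul, smul_kk] at h7
  exact h7.symm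

end Bas

section Coe

variable {L : Type*} [DecidableEq L] {a c : L}

theorem coeff_Lc (k : ℕ) (H : PowerSeries (VV K L)) :
    PowerSeries.coeff k (Lc a c H) = LX al (al - 1) a (PowerSeries.coeff k H) +
      ∑ p ∈ Finset.HasAntidiagonal.antidiagonal k,
        Polynomial.C (qq c p.1) * Yy L ^ p.1 * PowerSeries.coeff p.2 H := by
  rw [LXs_apply, map_add, coeff_tl, PowerSeries.coeff_mul]
  congr 1
  refine Finset.sum_congr rfl fun p _ => ?_
  rw [YY, PowerSeries.coeff_mk, mo_Cf]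

/-- The products of two `q`. -/
noncomputable def QQ (c : L) (k : ℕ) : VV K L :=
  ∑ p ∈ Finset.HasAntidiagonal.antidiagonal k,
    Polynomial.C (qq c p.1) * Polynomial.C (qq c p.2) * Yy L ^ k

omit [DecidableEq L] in
theorem sum_single (c : L) (k : ℕ) (u : VV K L) :
    ∑ p ∈ Finset.HasAntidiagonal.antidiagonal k,
      Polynomial.C (qq c p.1) * Yy L ^ p.1 * (if p.2 = 0 then u else 0)
      = Polynomial.C (qq c k) * Yy L ^ k * u := by
  rw [Finset.sum_eq_single (k, 0)]
  · rw [if_pos rfl]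
  · intro p hp hpn
    rw [Finset.HasAntidiagonal.mem_antidiagonal] at hp
    rw [if_neg, mul_zero]
    intro h
    exact hpn (Prod.ext (by show p.1 = k; omega) h)
  · intro h
    exact absurd (Finset.HasAntidiagonal.mem_antidiagonal.2 (add_zero k)) h

omit [DecidableEq L] in
theorem sum_double (c : L) (k m : ℕ) (x : VV K L) :
    ∑ p ∈ Finset.HasAntidiagonal.antidiagonal k,
      Polynomial.C (qq c p.1) * Yy L ^ p.1 * (x * (Polynomial.C (qq c p.2) * Yy L ^ (m + p.2)))
      = x * (QQ c k * Yy L ^ m) := by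
  rw [QQ, Finset.sum_mul, Finset.mul_sum]
  refine Finset.sum_congr rfl fun p hp => ?_
  rw [Finset.HasAntidiagonal.mem_antidiagonal] at hp
  rw [← hp, pow_add, pow_add]
  ring

omit [DecidableEq L] in
theorem coeff_yy (k m : ℕ) : PowerSeries.coeff k (yy L m) = if k = 0 then Yy L ^ m else 0 := by
  rw [yy, PowerSeries.coeff_C, mo_Yy]

theorem coeff_Lc_yy (k m : ℕ) : PowerSeries.coeff k (Lc a c (yy L m))
    = (if k = 0 then Lm a m else 0) + Polynomial.C (qq c k) * Yy L ^ (m + k) := by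
  rw [coeff_Lc]
  simp only [coeff_yy]
  rw [sum_single]
  congr 1
  · split_ifs
    · rw [Lm, mo_Yy]
    · exact map_zero _
  · rw [pow_add]
    ring

theorem LX_q (hca : c ≠ a) (k m : ℕ) :
    LX al (al - 1) a (Polynomial.C (qq c k) * Yy L ^ m) = Polynomial.C (qq c k) * Lm a m := by
  rw [LX_Gp (qq_Gp hca k), ← mo_Yy]
  rfl

theorem coeff_LLc (hca : c ≠ a) (k m : ℕ) : PowerSeries.coeff k (Lc a c (Lc a c (yy L m)))
    = (if k = 0 then LX al (al - 1) a (Lm a m) else 0) +
      Polynomial.C (qq c k) * (Lm a (m + k) + Yy L ^ k * Lm a m) + QQ c k * Yy L ^ m := by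
  rw [coeff_Lc, coeff_Lc_yy, map_add, LX_q hca]
  have h1 : ∀ p ∈ Finset.HasAntidiagonal.antidiagonal k,
      Polynomial.C (qq c p.1) * Yy L ^ p.1 * PowerSeries.coeff p.2 (Lc a c (yy L m))
      = Polynomial.C (qq c p.1) * Yy L ^ p.1 * (if p.2 = 0 then Lm a m else 0) +
        Polynomial.C (qq c p.1) * Yy L ^ p.1 * (1 * (Polynomial.C (qq c p.2) *
          Yy L ^ (m + p.2))) := by
    intro p _
    rw [coeff_Lc_yy]
    ring
  rw [Finset.sum_congr rfl h1, Finset.sum_add_distrib, sum_single, sum_double]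
  have h2 : LX al (al - 1) a (if k = 0 then Lm a m else 0)
      = if k = 0 then LX al (al - 1) a (Lm a m) else 0 := by
    split_ifs
    · rfl
    · exact map_zero _
  rw [h2]
  ring

/-- The kernel of `R3`. -/
noncomputable def rho3 (a c : L) (m : ℕ) : PowerSeries (VV K L) :=
  Lc a c (Lc a c (yy L m)) - kc L (al - 1) * Lc a c (yy L m) -
    (tl (mo 0) (pq a (qq c)) * yy L m + kc L al * (PowerSeries.C (m : VV K L) * yy L m))

theorem R3_eq (hca : c ≠ a) : R3 a c (Gr (qq c)) = cmb fun m => Cq c m * rho3 a c m := by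
  have h1 : ∀ m, zd (Cq c m * yy L m) = 0 := by
    intro m
    ext1 n
    rw [coeff_zd, Cq, PowerSeries.coeff_C_mul, coeff_yy, map_zero]
    split_ifs with h
    · rw [h, Nat.cast_zero, zero_mul]
    · rw [mul_zero, mul_zero]
  rw [R3, Lc_Gr hca, Lc_cmb, Gr_eq, zd_cmb, ← cmb_mul, ← cmb_mul, ← cmb_mul, ← cmb_add, ← cmb_sub,
    ← cmb_sub]
  congr 1
  funext m
  have h2 : zd (PowerSeries.C (Polynomial.C (X (c, m + 1))) * yy L m) = 0 := h1 m
  have h3 : Lc a c (Cq c m * Lc a c (yy L m)) = Cq c m * Lc a c (Lc a c (yy L m)) :=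
    Lc_C_mul (Xc_Gp hca _) _
  rw [h2, h3, rho3, Cq]
  ring

theorem coeff_rho3 (hca : c ≠ a) (k m : ℕ) : PowerSeries.coeff k (rho3 a c m)
    = (if k = 0 then LX al (al - 1) a (Lm a m) - kk L (al - 1) * Lm a m -
        kk L (al * (m : K)) * Yy L ^ m else 0) +
      Polynomial.C (qq c k) * (Lm a (m + k) + Yy L ^ k * Lm a m - kk L (al - 1) * Yy L ^ (m + k) -
        Pp a k * Yy L ^ m) + QQ c k * Yy L ^ m := by
  have h1 : PowerSeries.coeff k (tl (mo 0) (pq a (qq c)) * yy L m)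
      = Pp a k * Polynomial.C (qq c k) * Yy L ^ m := by
    rw [yy, mul_comm, PowerSeries.coeff_C_mul, coeff_tl, pq, PowerSeries.coeff_mk, mo_zero_eq,
      mo_Yy, map_mul, Pp]
    ring
  have h2 : PowerSeries.coeff k (kc L al * (PowerSeries.C (m : VV K L) * yy L m))
      = if k = 0 then kk L (al * (m : K)) * Yy L ^ m else 0 := by
    rw [kc, PowerSeries.coeff_C_mul, PowerSeries.coeff_C_mul, coeff_yy]
    split_ifs
    · rw [kk, C_mul, map_mul, map_natCast, map_natCast]
      ring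
    · rw [mul_zero, mul_zero]
  have h3 : PowerSeries.coeff k (kc L (al - 1) * Lc a c (yy L m))
      = kk L (al - 1) * ((if k = 0 then Lm a m else 0) +
        Polynomial.C (qq c k) * Yy L ^ (m + k)) := by
    rw [kc, PowerSeries.coeff_C_mul, coeff_Lc_yy]
    rfl
  rw [rho3, map_sub (PowerSeries.coeff k), map_sub (PowerSeries.coeff k),
    map_add (PowerSeries.coeff k), coeff_LLc hca, h1, h2, h3]
  split_ifs <;> ring

theorem coeff_Tm (k m : ℕ) : PowerSeries.coeff k (Tm a c m)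
    = (if k = 0 then Sm a m else 0) + kk L (m : K) * (Polynomial.C (qq c k) * Yy L ^ (m + k)) := by
  induction m with
  | zero =>
    rw [Tm, map_zero, Sm_zero, Nat.cast_zero, kk, C_0, Polynomial.C_0, zero_mul, add_zero]
    split_ifs <;> rfl
  | succ m ih =>
    have h1 : kk L ((m + 1 : ℕ) : K) = kk L (m : K) + 1 := by
      rw [kk, kk, Nat.cast_add, Nat.cast_one, C_add, C_1, Polynomial.C_add, Polynomial.C_1]
    rw [Tm, yX, PowerSeries.coeff_C_mul, map_add (PowerSeries.coeff k), ih, coeff_Lc_yy, h1]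
    have h2 : Yy L ^ (m + 1 + k) = Yy L * Yy L ^ (m + k) := by
      rw [← pow_succ']
      congr 1
      omega
    have h3 : (Polynomial.X : VV K L) = Yy L := rfl
    rw [h2, h3]
    split_ifs
    · rw [Sm_succ]
      ring
    · ring

theorem coeff_Lc_Tm (hca : c ≠ a) (k m : ℕ) : PowerSeries.coeff k (Lc a c (Tm a c m))
    = (if k = 0 then LX al (al - 1) a (Sm a m) else 0) +
      Polynomial.C (qq c k) * (kk L (m : K) * Lm a (m + k) + Yy L ^ k * Sm a m) +
      kk L (m : K) * (QQ c k * Yy L ^ m) := by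
  rw [coeff_Lc, coeff_Tm, map_add, LX_kk, LX_q hca]
  have h1 : ∀ p ∈ Finset.HasAntidiagonal.antidiagonal k,
      Polynomial.C (qq c p.1) * Yy L ^ p.1 * PowerSeries.coeff p.2 (Tm a c m)
      = Polynomial.C (qq c p.1) * Yy L ^ p.1 * (if p.2 = 0 then Sm a m else 0) +
        Polynomial.C (qq c p.1) * Yy L ^ p.1 * (kk L (m : K) * (Polynomial.C (qq c p.2) *
          Yy L ^ (m + p.2))) := by
    intro p _
    rw [coeff_Tm]
    ring
  rw [Finset.sum_congr rfl h1, Finset.sum_add_distrib, sum_single, sum_double]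
  have h2 : LX al (al - 1) a (if k = 0 then Sm a m else 0)
      = if k = 0 then LX al (al - 1) a (Sm a m) else 0 := by
    split_ifs
    · rfl
    · exact map_zero _
  rw [h2]
  ring

theorem QQ_succ (c : L) (k : ℕ) : QQ c (k + 1) = ∑ p ∈ Finset.HasAntidiagonal.antidiagonal k,
    Polynomial.C (X (c, p.1 + 1)) * Polynomial.C (qq c p.2) * Yy L ^ (k + 1) := by
  rw [QQ, Finset.Nat.sum_antidiagonal_succ, qq_zero, Polynomial.C_0, zero_mul, zero_mul, zero_add]
  refine Finset.sum_congr rfl fun p _ => ?_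
  rw [qq_succ]

theorem coeff_Md_hh (hca : c ≠ a) (k : ℕ) :
    PowerSeries.coeff k (tl (Md al a).toLinearMap (hh a c))
      = Polynomial.C (qq c k) * Sm a k + kk L ((k : K) / 2) * QQ c k := by
  have h0 : PowerSeries.coeff k (tl (Md al a).toLinearMap (hh a c))
      = Md al a (PowerSeries.coeff k (hh a c)) := coeff_tl _ _ _
  rw [h0, hh, PowerSeries.coeff_C_mul, Uss, PowerSeries.coeff_C_mul, ← mul_assoc, ← C_mul,
    ← smul_eq_C_mul, Derivation.map_smul, smul_kk]
  cases k with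
  | zero =>
    rw [PowerSeries.coeff_zero_X_mul, map_zero, mul_zero, qq_zero, Polynomial.C_0, zero_mul,
      Nat.cast_zero, zero_div, kk, C_0, Polynomial.C_0, zero_mul, add_zero]
  | succ k =>
    rw [PowerSeries.coeff_succ_X_mul, coeff_tl, Lc_Gr hca, coeff_cmb, map_sum, map_sum,
      Finset.mul_sum, QQ_succ, Finset.mul_sum]
    have h1 : ∀ p ∈ Finset.HasAntidiagonal.antidiagonal k,
        kk L (al⁻¹ * (2 : K)⁻¹) * Md al a (Th1 a (PowerSeries.coeff p.2
          (Cq c p.1 * Lc a c (yy L p.1))))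
        = (if p.2 = 0 then Polynomial.C (X (c, p.1 + 1)) * Sm a (p.1 + 1) else 0) +
          kk L (((k + 1 : ℕ) : K) / 2) * (Polynomial.C (X (c, p.1 + 1)) *
            Polynomial.C (qq c p.2) * Yy L ^ (k + 1)) := by
      intro p hp
      rw [Finset.HasAntidiagonal.mem_antidiagonal] at hp
      rw [Cq, PowerSeries.coeff_C_mul, Th1_C_mul, Md_Gp_mul (Xc_Gp hca _), coeff_Lc_yy, map_add,
        map_add, Th1_C_mul, Md_Gp_mul (qq_Gp hca _)]
      have h2 : Th1 a (Yy L ^ (p.1 + p.2)) = X (a, k + 1) := by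
        rw [← mo_Yy, Th1_mo, mul_one, hp]
      have h3 : Md al a (X (a, k + 1)) = kk L (al * ((k + 1 : ℕ) : K)) * Yy L ^ (k + 1) := by
        rw [Md_X, smul_kk]
        rfl
      have h4 : kk L (al⁻¹ * (2 : K)⁻¹) * kk L (al * ((k + 1 : ℕ) : K))
          = kk L (((k + 1 : ℕ) : K) / 2) := by
        rw [kk, kk, kk, ← Polynomial.C_mul, ← C_mul]
        congr 2
        have := al_ne_zero
        field_simp
      rw [h2, h3, ← h4]
      by_cases h : p.2 = 0
      · rw [if_pos h, if_pos h, Md_Th1_Lm]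
        have h5 : kk L (al⁻¹ * (2 : K)⁻¹) * kk L (2 * al) = 1 := by
          rw [kk, kk, ← Polynomial.C_mul, ← C_mul]
          have h6 : al⁻¹ * (2 : K)⁻¹ * (2 * al) = 1 := by
            have := al_ne_zero
            field_simp
          rw [h6, C_1, Polynomial.C_1]
        linear_combination (Polynomial.C (X (c, p.1 + 1)) * Sm a (p.1 + 1)) * h5
      · rw [if_neg h, if_neg h, map_zero, map_zero]
        ring
    rw [Finset.sum_congr rfl h1, Finset.sum_add_distrib]
    congr 1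
    rw [Finset.sum_eq_single (k, 0)]
    · rw [if_pos rfl, qq_succ]
    · intro p hp hpn
      rw [Finset.HasAntidiagonal.mem_antidiagonal] at hp
      rw [if_neg]
      intro h
      exact hpn (Prod.ext (by show p.1 = k; omega) h)
    · intro h
      exact absurd (Finset.HasAntidiagonal.mem_antidiagonal.2 (add_zero k)) h

end Coe

end Pool.Agent.JackB
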