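import Pool.Agent.Lib.JackB.Prof5

/-!
Positivity for the profiles `(2, 1, …)`, `(3, 1, …)` and `(2, 2, 1, …)`
(problem MP_b52a9f_co).
-/

open MvPolynomial

namespace Pool.Agent.JackB

section Mem

variable {L : Type*} {S : Subsemiring K} {a c : L}

theorem CV_PV {f : AA K L} (h : f ∈ PS S L) : (Polynomial.C f : VV K L) ∈ PV S L := by
  rw [← mo_zero_eq]
  exact mo_PV h 0

theorem Yy_PV : Yy L ∈ PV S L := by
  have h1 : Yy L = mo 1 1 := by
    rw [mo_Yy, pow_one]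
  rw [h1]
  exact mo_PV (PS S L).one_mem 1

theorem kk_PV {x : K} (h : x ∈ S) : kk L x ∈ PV S L := CV_PV (C_PS h)

theorem Pp_PV (m : ℕ) : Pp a m ∈ PV S L := CV_PV (X_PS _)

theorem qq_PS (k : ℕ) : (qq c k : AA K L) ∈ PS S L := by
  unfold qq
  split_ifs
  · exact (PS S L).zero_mem
  · exact X_PS _

theorem QQ_PV (k : ℕ) : QQ c k ∈ PV S L :=
  (PV S L).sum_mem fun p _ => (PV S L).mul_mem ((PV S L).mul_mem (CV_PV (qq_PS _))
    (CV_PV (qq_PS _))) ((PV S L).pow_mem Yy_PV _)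

theorem QQ_zero : QQ c 0 = 0 := by
  rw [QQ, Finset.Nat.antidiagonal_zero, Finset.sum_singleton, qq_zero, Polynomial.C_0, zero_mul,
    zero_mul]

theorem QQ_one : QQ c 1 = 0 := by
  rw [QQ, Finset.Nat.sum_antidiagonal_succ, Finset.Nat.antidiagonal_zero, Finset.sum_singleton,
    qq_zero, Polynomial.C_0]
  ring

variable [DecidableEq L]

theorem Lm_PV (hal : al ∈ S) (hb : al - 1 ∈ S) (m : ℕ) : Lm a m ∈ PV S L :=
  LX_PV hal hb (mo_PV (PS S L).one_mem m)

theorem Sm_PV (hal : al ∈ S) (hb : al - 1 ∈ S) (m : ℕ) : Sm a m ∈ PV S L := by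
  induction m with
  | zero =>
    rw [Sm_zero]
    exact (PV S L).zero_mem
  | succ m ih =>
    rw [Sm_succ]
    exact (PV S L).mul_mem Yy_PV ((PV S L).add_mem ih (Lm_PV hal hb m))

/-- The first inequality. -/
theorem ine1 (hal : al ∈ S) (hb : al - 1 ∈ S) (m k : ℕ) :
    Lm a (m + (k + 1)) - kk L (al - 1) * Yy L ^ (m + (k + 1)) - Pp a (k + 1) * Yy L ^ m
      ∈ PV S L := by
  induction m with
  | zero =>
    rw [zero_add, Lm_succ]
    have h1 : Yy L * (Lm a k + kk L (al - 1) * Yy L ^ k) + Pp a (k + 1) -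
        kk L (al - 1) * Yy L ^ (k + 1) - Pp a (k + 1) * Yy L ^ 0 = Yy L * Lm a k := by
      ring
    rw [h1]
    exact (PV S L).mul_mem Yy_PV (Lm_PV hal hb k)
  | succ m ih =>
    have h0 : m + 1 + (k + 1) = m + (k + 1) + 1 := by omega
    rw [h0, Lm_succ]
    have h1 : Yy L * (Lm a (m + (k + 1)) + kk L (al - 1) * Yy L ^ (m + (k + 1))) +
        Pp a (m + (k + 1) + 1) - kk L (al - 1) * Yy L ^ (m + (k + 1) + 1) -
        Pp a (k + 1) * Yy L ^ (m + 1)
        = Yy L * (Lm a (m + (k + 1)) - kk L (al - 1) * Yy L ^ (m + (k + 1)) -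
          Pp a (k + 1) * Yy L ^ m) + kk L (al - 1) * Yy L ^ (m + (k + 1) + 1) +
          Pp a (m + (k + 1) + 1) := by
      ring
    rw [h1]
    exact (PV S L).add_mem ((PV S L).add_mem ((PV S L).mul_mem Yy_PV ih)
      ((PV S L).mul_mem (kk_PV hb) ((PV S L).pow_mem Yy_PV _))) (Pp_PV _)

theorem Cq_mul_PV {H : PowerSeries (VV K L)} {m k : ℕ} (h : PowerSeries.coeff k H ∈ PV S L) :
    PowerSeries.coeff k (Cq c m * H) ∈ PV S L := by
  rw [Cq, PowerSeries.coeff_C_mul]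
  exact (PV S L).mul_mem (CV_PV (X_PS _)) h

theorem cmb_PV {F : ℕ → PowerSeries (VV K L)} (h : ∀ m k, PowerSeries.coeff k (F m) ∈ PV S L)
    (n : ℕ) : PowerSeries.coeff n (cmb fun m => Cq c m * F m) ∈ PV S L := by
  rw [coeff_cmb]
  exact (PV S L).sum_mem fun p _ => Cq_mul_PV (h _ _)

theorem pos_two (hca : c ≠ a) (hal : al ∈ S) (hb : al - 1 ∈ S) (n : ℕ) :
    PowerSeries.coeff n (Lc a c (Gr (qq c))) ∈ PV S L := by
  rw [Lc_Gr hca]
  refine cmb_PV (fun m k => ?_) n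
  rw [coeff_Lc_yy]
  refine (PV S L).add_mem ?_ ((PV S L).mul_mem (CV_PV (qq_PS _)) ((PV S L).pow_mem Yy_PV _))
  split_ifs
  · exact Lm_PV hal hb m
  · exact (PV S L).zero_mem

theorem R0_PV (hal : al ∈ S) (hb : al - 1 ∈ S) (m : ℕ) :
    LX al (al - 1) a (Lm a m) - kk L (al - 1) * Lm a m - kk L (al * (m : K)) * Yy L ^ m
      ∈ PV S L := by
  cases m with
  | zero =>
    rw [Lm_zero, map_zero, mul_zero, Nat.cast_zero, mul_zero, kk, C_0, Polynomial.C_0, zero_mul,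
      sub_zero, sub_zero]
    exact (PV S L).zero_mem
  | succ m =>
    rw [LLm]
    have h1 : LX al (al - 1) a (Yy L * Lm a m) + kk L (al - 1) * Lm a (m + 1) +
        kk L (al * ((m + 1 : ℕ) : K)) * Yy L ^ (m + 1) - kk L (al - 1) * Lm a (m + 1) -
        kk L (al * ((m + 1 : ℕ) : K)) * Yy L ^ (m + 1) = LX al (al - 1) a (Yy L * Lm a m) := by
      ring
    rw [h1]
    exact LX_PV hal hb ((PV S L).mul_mem Yy_PV (Lm_PV hal hb m))

theorem pos_three (hca : c ≠ a) (hal : al ∈ S) (hb : al - 1 ∈ S) (n : ℕ) :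
    PowerSeries.coeff n (R3 a c (Gr (qq c))) ∈ PV S L := by
  rw [R3_eq hca]
  refine cmb_PV (fun m k => ?_) n
  rw [coeff_rho3 hca]
  refine (PV S L).add_mem ((PV S L).add_mem ?_ ?_)
    ((PV S L).mul_mem (QQ_PV k) ((PV S L).pow_mem Yy_PV _))
  · split_ifs
    · exact R0_PV hal hb m
    · exact (PV S L).zero_mem
  · cases k with
    | zero =>
      rw [qq_zero, Polynomial.C_0, zero_mul]
      exact (PV S L).zero_mem
    | succ k =>
      refine (PV S L).mul_mem (CV_PV (qq_PS _)) ?_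
      have h1 : Lm a (m + (k + 1)) + Yy L ^ (k + 1) * Lm a m -
          kk L (al - 1) * Yy L ^ (m + (k + 1)) - Pp a (k + 1) * Yy L ^ m
          = (Lm a (m + (k + 1)) - kk L (al - 1) * Yy L ^ (m + (k + 1)) -
            Pp a (k + 1) * Yy L ^ m) + Yy L ^ (k + 1) * Lm a m := by
        ring
      rw [h1]
      exact (PV S L).add_mem (ine1 hal hb m k) ((PV S L).mul_mem ((PV S L).pow_mem Yy_PV _)
        (Lm_PV hal hb m))

omit [DecidableEq L] in
theorem kk_add (x y : K) : kk L (x + y) = kk L x + kk L y := by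
  rw [kk, kk, kk, C_add, Polynomial.C_add]

omit [DecidableEq L] in
theorem kk_one : kk L 1 = 1 := by
  rw [kk, C_1, Polynomial.C_1]

omit [DecidableEq L] in
theorem kk_zero : kk L 0 = 0 := by
  rw [kk, C_0, Polynomial.C_0]

/-- The second inequality. -/
theorem ine2 (hal : al ∈ S) (hb : al - 1 ∈ S) (m k : ℕ) :
    Sm a (k + 1) * Yy L ^ m + kk L (m : K) * Lm a (m + (k + 1)) + Yy L ^ (k + 1) * Sm a m -
      (Lm a (m + (k + 1)) + Yy L ^ (k + 1) * Lm a m - kk L (al - 1) * Yy L ^ (m + (k + 1)) -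
        Pp a (k + 1) * Yy L ^ m) ∈ PV S L := by
  cases m with
  | zero =>
    have h1 : Sm a (k + 1) * Yy L ^ 0 + kk L ((0 : ℕ) : K) * Lm a (0 + (k + 1)) +
        Yy L ^ (k + 1) * Sm a 0 - (Lm a (0 + (k + 1)) + Yy L ^ (k + 1) * Lm a 0 -
        kk L (al - 1) * Yy L ^ (0 + (k + 1)) - Pp a (k + 1) * Yy L ^ 0) = Yy L * Sm a k := by
      rw [Sm_zero, Lm_zero, Nat.cast_zero, kk_zero, zero_add, Sm_succ, Lm_succ]
      ring
    rw [h1]
    exact (PV S L).mul_mem Yy_PV (Sm_PV hal hb k)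
  | succ m =>
    have h1 : Sm a (k + 1) * Yy L ^ (m + 1) + kk L ((m + 1 : ℕ) : K) * Lm a (m + 1 + (k + 1)) +
        Yy L ^ (k + 1) * Sm a (m + 1) - (Lm a (m + 1 + (k + 1)) + Yy L ^ (k + 1) * Lm a (m + 1) -
        kk L (al - 1) * Yy L ^ (m + 1 + (k + 1)) - Pp a (k + 1) * Yy L ^ (m + 1))
        = Sm a (k + 1) * Yy L ^ (m + 1) + Yy L ^ (k + 2) * Sm a m -
          Yy L ^ (k + 1) * Pp a (m + 1) + kk L (m : K) * Lm a (m + 1 + (k + 1)) +
          Pp a (k + 1) * Yy L ^ (m + 1) := by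
      rw [Nat.cast_add, Nat.cast_one, kk_add, kk_one, Sm_succ m, Lm_succ m]
      ring
    rw [h1]
    cases m with
    | zero =>
      cases k with
      | zero =>
        have h2 : Sm a (0 + 1) * Yy L ^ (0 + 1) + Yy L ^ (0 + 2) * Sm a 0 -
            Yy L ^ (0 + 1) * Pp a (0 + 1) + kk L ((0 : ℕ) : K) * Lm a (0 + 1 + (0 + 1)) +
            Pp a (0 + 1) * Yy L ^ (0 + 1) = 0 := by
          rw [Sm_succ, Sm_zero, Lm_zero, Nat.cast_zero, kk_zero]
          ring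
        rw [h2]
        exact (PV S L).zero_mem
      | succ k =>
        have h2 : Sm a (k + 1 + 1) * Yy L ^ (0 + 1) + Yy L ^ (k + 1 + 2) * Sm a 0 -
            Yy L ^ (k + 1 + 1) * Pp a (0 + 1) + kk L ((0 : ℕ) : K) * Lm a (0 + 1 + (k + 1 + 1)) +
            Pp a (k + 1 + 1) * Yy L ^ (0 + 1)
            = Yy L ^ 2 * (Sm a (k + 1) + (Lm a (k + (0 + 1)) - kk L (al - 1) * Yy L ^ (k + (0 + 1)) -
              Pp a (0 + 1) * Yy L ^ k) + kk L (al - 1) * Yy L ^ (k + (0 + 1))) +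
              Pp a (k + 1 + 1) * Yy L := by
          rw [Sm_succ (k + 1), Sm_zero, Nat.cast_zero, kk_zero]
          ring
        rw [h2]
        exact (PV S L).add_mem ((PV S L).mul_mem ((PV S L).pow_mem Yy_PV _) ((PV S L).add_mem
          ((PV S L).add_mem (Sm_PV hal hb _) (ine1 hal hb k 0))
          ((PV S L).mul_mem (kk_PV hb) ((PV S L).pow_mem Yy_PV _))))
          ((PV S L).mul_mem (Pp_PV _) Yy_PV)
    | succ m =>
      have h2 : Sm a (k + 1) * Yy L ^ (m + 1 + 1) + Yy L ^ (k + 2) * Sm a (m + 1) -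
          Yy L ^ (k + 1) * Pp a (m + 1 + 1) + kk L ((m + 1 : ℕ) : K) *
          Lm a (m + 1 + 1 + (k + 1)) + Pp a (k + 1) * Yy L ^ (m + 1 + 1)
          = Sm a (k + 1) * Yy L ^ (m + 1 + 1) + Yy L ^ (k + 2) * Sm a (m + 1) +
            (Lm a (k + 1 + (m + 1 + 1)) - kk L (al - 1) * Yy L ^ (k + 1 + (m + 1 + 1)) -
              Pp a (m + 1 + 1) * Yy L ^ (k + 1)) + kk L (al - 1) * Yy L ^ (k + 1 + (m + 1 + 1)) +
            kk L (m : K) * Lm a (m + 1 + 1 + (k + 1)) + Pp a (k + 1) * Yy L ^ (m + 1 + 1) := by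
        have h3 : k + 1 + (m + 1 + 1) = m + 1 + 1 + (k + 1) := by omega
        rw [Nat.cast_add, Nat.cast_one, kk_add, kk_one, h3]
        ring
      rw [h2]
      refine (PV S L).add_mem ((PV S L).add_mem ((PV S L).add_mem ((PV S L).add_mem
        ((PV S L).add_mem ?_ ?_) ?_) ?_) ?_) ?_
      · exact (PV S L).mul_mem (Sm_PV hal hb _) ((PV S L).pow_mem Yy_PV _)
      · exact (PV S L).mul_mem ((PV S L).pow_mem Yy_PV _) (Sm_PV hal hb _)
      · exact ine1 hal hb (k + 1) (m + 1)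
      · exact (PV S L).mul_mem (kk_PV hb) ((PV S L).pow_mem Yy_PV _)
      · exact (PV S L).mul_mem (kk_PV (natCast_mem S m)) (Lm_PV hal hb _)
      · exact (PV S L).mul_mem (Pp_PV _) ((PV S L).pow_mem Yy_PV _)

theorem S0_PV (hal : al ∈ S) (hb : al - 1 ∈ S) (m : ℕ) :
    LX al (al - 1) a (Sm a m) - (LX al (al - 1) a (Lm a m) - kk L (al - 1) * Lm a m -
      kk L (al * (m : K)) * Yy L ^ m) ∈ PV S L := by
  cases m with
  | zero =>
    rw [Lm_zero, Sm_zero, map_zero, mul_zero, Nat.cast_zero, mul_zero, kk_zero, zero_mul,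
      sub_zero, sub_zero, sub_zero]
    exact (PV S L).zero_mem
  | succ m =>
    have h1 : LX al (al - 1) a (Sm a (m + 1)) - (LX al (al - 1) a (Lm a (m + 1)) -
        kk L (al - 1) * Lm a (m + 1) - kk L (al * ((m + 1 : ℕ) : K)) * Yy L ^ (m + 1))
        = LX al (al - 1) a (Yy L * Sm a m) := by
      rw [LLm, Sm_succ, mul_add, map_add]
      ring
    rw [h1]
    exact LX_PV hal hb ((PV S L).mul_mem Yy_PV (Sm_PV hal hb m))

theorem XX_eq (hca : c ≠ a) : XX a c = cmb fun m => Cq c m * (N1 a c m - rho3 a c m) := by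
  rw [XX, R3_eq hca, ← cmb_sub]
  congr 1
  funext m
  ring

theorem pos_twotwo (hca : c ≠ a) (hal : al ∈ S) (hb : al - 1 ∈ S)
    (hinv : ∀ n : ℕ, ((n : K))⁻¹ ∈ S) (n : ℕ) : PowerSeries.coeff n (XX a c) ∈ PV S L := by
  rw [XX_eq hca]
  refine cmb_PV (fun m k => ?_) n
  have h1 : PowerSeries.coeff k (tl (Md al a).toLinearMap (hh a c) * yy L m)
      = (Polynomial.C (qq c k) * Sm a k + kk L ((k : K) / 2) * QQ c k) * Yy L ^ m := by
    rw [yy, mul_comm, PowerSeries.coeff_C_mul, coeff_Md_hh hca, mo_Yy]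
    ring
  rw [map_sub (PowerSeries.coeff k), N1, map_add (PowerSeries.coeff k), h1, coeff_Lc_Tm hca,
    coeff_rho3 hca]
  rcases k with _ | _ | k
  · -- no further `q`
    have h2 : (Polynomial.C (qq c 0) * Sm a 0 + kk L (((0 : ℕ) : K) / 2) * QQ c 0) * Yy L ^ m +
        ((if 0 = 0 then LX al (al - 1) a (Sm a m) else 0) +
          Polynomial.C (qq c 0) * (kk L (m : K) * Lm a (m + 0) + Yy L ^ 0 * Sm a m) +
          kk L (m : K) * (QQ c 0 * Yy L ^ m)) -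
        ((if 0 = 0 then LX al (al - 1) a (Lm a m) - kk L (al - 1) * Lm a m -
          kk L (al * (m : K)) * Yy L ^ m else 0) +
          Polynomial.C (qq c 0) * (Lm a (m + 0) + Yy L ^ 0 * Lm a m -
            kk L (al - 1) * Yy L ^ (m + 0) - Pp a 0 * Yy L ^ m) + QQ c 0 * Yy L ^ m)
        = LX al (al - 1) a (Sm a m) - (LX al (al - 1) a (Lm a m) - kk L (al - 1) * Lm a m -
          kk L (al * (m : K)) * Yy L ^ m) := by
      rw [qq_zero, Polynomial.C_0, QQ_zero, if_pos rfl, if_pos rfl]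
      ring
    rw [h2]
    exact S0_PV hal hb m
  · have h2 : (Polynomial.C (qq c (0 + 1)) * Sm a (0 + 1) +
          kk L (((0 + 1 : ℕ) : K) / 2) * QQ c (0 + 1)) * Yy L ^ m +
        ((if 0 + 1 = 0 then LX al (al - 1) a (Sm a m) else 0) +
          Polynomial.C (qq c (0 + 1)) * (kk L (m : K) * Lm a (m + (0 + 1)) +
            Yy L ^ (0 + 1) * Sm a m) + kk L (m : K) * (QQ c (0 + 1) * Yy L ^ m)) -
        ((if 0 + 1 = 0 then LX al (al - 1) a (Lm a m) - kk L (al - 1) * Lm a m -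
          kk L (al * (m : K)) * Yy L ^ m else 0) +
          Polynomial.C (qq c (0 + 1)) * (Lm a (m + (0 + 1)) + Yy L ^ (0 + 1) * Lm a m -
            kk L (al - 1) * Yy L ^ (m + (0 + 1)) - Pp a (0 + 1) * Yy L ^ m) +
          QQ c (0 + 1) * Yy L ^ m)
        = Polynomial.C (qq c (0 + 1)) * (Sm a (0 + 1) * Yy L ^ m +
          kk L (m : K) * Lm a (m + (0 + 1)) + Yy L ^ (0 + 1) * Sm a m -
          (Lm a (m + (0 + 1)) + Yy L ^ (0 + 1) * Lm a m -
            kk L (al - 1) * Yy L ^ (m + (0 + 1)) - Pp a (0 + 1) * Yy L ^ m)) := by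
      have h3 : QQ c (0 + 1) = 0 := QQ_one
      rw [h3, if_neg (Nat.succ_ne_zero 0), if_neg (Nat.succ_ne_zero 0)]
      ring
    rw [h2]
    exact (PV S L).mul_mem (CV_PV (qq_PS _)) (ine2 hal hb m 0)
  · have h4 : (((k + 1 + 1 : ℕ) : K)) / 2 + (m : K) = ((k : K) * (((2 : ℕ) : K))⁻¹ + (m : K)) + 1 := by
      push_cast
      ring
    have h5 : kk L ((((k + 1 + 1 : ℕ) : K)) / 2) + kk L (m : K)
        = kk L ((k : K) * (((2 : ℕ) : K))⁻¹ + (m : K)) + 1 := by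
      rw [← kk_add, h4, kk_add, kk_one]
    have h2 : (Polynomial.C (qq c (k + 1 + 1)) * Sm a (k + 1 + 1) +
          kk L (((k + 1 + 1 : ℕ) : K) / 2) * QQ c (k + 1 + 1)) * Yy L ^ m +
        ((if k + 1 + 1 = 0 then LX al (al - 1) a (Sm a m) else 0) +
          Polynomial.C (qq c (k + 1 + 1)) * (kk L (m : K) * Lm a (m + (k + 1 + 1)) +
            Yy L ^ (k + 1 + 1) * Sm a m) + kk L (m : K) * (QQ c (k + 1 + 1) * Yy L ^ m)) -
        ((if k + 1 + 1 = 0 then LX al (al - 1) a (Lm a m) - kk L (al - 1) * Lm a m -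
          kk L (al * (m : K)) * Yy L ^ m else 0) +
          Polynomial.C (qq c (k + 1 + 1)) * (Lm a (m + (k + 1 + 1)) + Yy L ^ (k + 1 + 1) * Lm a m -
            kk L (al - 1) * Yy L ^ (m + (k + 1 + 1)) - Pp a (k + 1 + 1) * Yy L ^ m) +
          QQ c (k + 1 + 1) * Yy L ^ m)
        = Polynomial.C (qq c (k + 1 + 1)) * (Sm a (k + 1 + 1) * Yy L ^ m +
          kk L (m : K) * Lm a (m + (k + 1 + 1)) + Yy L ^ (k + 1 + 1) * Sm a m -
          (Lm a (m + (k + 1 + 1)) + Yy L ^ (k + 1 + 1) * Lm a m -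
            kk L (al - 1) * Yy L ^ (m + (k + 1 + 1)) - Pp a (k + 1 + 1) * Yy L ^ m)) +
          kk L ((k : K) * (((2 : ℕ) : K))⁻¹ + (m : K)) * (QQ c (k + 1 + 1) * Yy L ^ m) := by
      rw [if_neg (Nat.succ_ne_zero _), if_neg (Nat.succ_ne_zero _)]
      linear_combination (QQ c (k + 1 + 1) * Yy L ^ m) * h5
    rw [h2]
    refine (PV S L).add_mem ((PV S L).mul_mem (CV_PV (qq_PS _)) (ine2 hal hb m (k + 1)))
      ((PV S L).mul_mem (kk_PV ?_) ((PV S L).mul_mem (QQ_PV _) ((PV S L).pow_mem Yy_PV _)))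
    exact S.add_mem (S.mul_mem (natCast_mem S k) (hinv 2)) (natCast_mem S m)

end Mem

end Pool.Agent.JackB
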