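import Pool.Agent.Lib.JackB.Prof6
import Pool.Agent.Lib.JackB.Hook10

/-!
The derivatives of the logarithm at the parameters `1, 0, 0, …` (problem MP_b52a9f_co).
-/

open MvPolynomial

namespace Pool.Agent.JackB

section Ep

/-- The third alphabet is replaced by the parameters `1, 0, 0, …`. -/
noncomputable def ep : AA K (Fin 3) →ₐ[K] AA K (Fin 3) :=
  aeval fun v => if v.1 = 2 then r1 K (Fin 3) v.2 else X v

theorem ep_two (i : ℕ) : ep (X (2, i)) = r1 K (Fin 3) i := by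
  rw [ep, aeval_X, if_pos rfl]

theorem ep_ne {c : Fin 3} (h : c ≠ 2) (i : ℕ) : ep (X (c, i)) = X (c, i) := by
  rw [ep, aeval_X, if_neg h]

theorem ep_C (x : K) : ep (C x) = C x := by
  rw [algHom_C, algebraMap_eq]

theorem r1_Gp' (i : ℕ) : r1 K (Fin 3) i ∈ Gp K (0 : Fin 3) := r1_Gp i

variable {J : Fam} {Q0 : AA K (Fin 3) →ₗ[K] AA K (Fin 3)} {Q : VV K (Fin 3) →ₗ[K] VV K (Fin 3)}

/-- The power sums of the third alphabet. -/
noncomputable def Xr : ℕ → AA K (Fin 3) := fun i => X (2, i)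

theorem one_ne_zero3 : (1 : Fin 3) ≠ 0 := by decide
theorem two_ne_zero3 : (2 : Fin 3) ≠ 0 := by decide
theorem two_ne_one3 : (2 : Fin 3) ≠ 1 := by decide
theorem zero_ne_two3 : (0 : Fin 3) ≠ 2 := by decide
theorem one_ne_two3 : (1 : Fin 3) ≠ 2 := by decide

theorem Xr_Gp (i : ℕ) : Xr i ∈ Gp K (0 : Fin 3) := Gp_X fun h => absurd h two_ne_zero3

theorem tau_Q (hJ : JOK J) (hQ : IsP J 0 (qq 1) Q0 Q) (n : ℕ) :
    PowerSeries.coeff n (tau J (Fin 3)) = Q0 (vv al 0 Xr n) := by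
  rw [hQ.tq hJ Xr_Gp, tq, coeff_tau]
  refine Finset.sum_congr rfl fun th _ => ?_
  rw [Fin.prod_univ_three, Jr_qq]
  have h1 : Jr J th Xr = Jp J th (2 : Fin 3) := rfl
  rw [h1]
  ring

theorem ep_Q0 (hJ : JOK J) (hQ : IsP J 0 (qq 1) Q0 Q) (f : AA K (Fin 3)) :
    Q0 (ep f) = ep (Q0 f) := by
  refine P0_hom hJ hQ.P1 hQ.P2 _ (fun i _ => ep_ne zero_ne_two3 i) (fun v hv => ?_)
    (fun i => ?_) _
  · by_cases h : v.1 = 2
    · have h1 : v = (2, v.2) := Prod.ext h rfl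
      rw [h1, ep_two]
      exact r1_Gp' _
    · have h1 : v = (v.1, v.2) := rfl
      rw [h1, ep_ne h]
      exact Gp_X hv
  · unfold qq
    split_ifs
    · exact map_zero _
    · exact ep_ne one_ne_two3 i

theorem ep_vv (n : ℕ) : ep (vv al 0 Xr n) = v1 0 n := by
  rw [hom_vv ep fun i _ => ep_ne zero_ne_two3 i, v1]
  congr 1
  funext i
  exact ep_two i

theorem ep_tau (hJ : JOK J) (hQ : IsP J 0 (qq 1) Q0 Q) :
    PowerSeries.map (ep : AA K (Fin 3) →+* AA K (Fin 3)) (tau J (Fin 3)) = Es 0 1 := by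
  ext1 n
  rw [PowerSeries.coeff_map, tau_Q hJ hQ, Es, PowerSeries.coeff_mk, ← hQ.Pe n]
  show ep (Q0 (vv al 0 Xr n)) = Q0 (v1 0 n)
  rw [← ep_Q0 hJ hQ, ep_vv]

theorem Q0_pd (hJ : JOK J) (hQ : IsP J 0 (qq 1) Q0 Q) (x : ℕ) (f : AA K (Fin 3)) :
    Q0 (pderiv (2, x) f) = pderiv (2, x) (Q0 f) := by
  refine P0_pderiv hJ two_ne_zero3 (fun j => ?_) hQ.P1 hQ.P2 f
  unfold qq
  split_ifs
  · exact map_zero _
  · exact pderiv_X_of_ne fun h => two_ne_one3 (Prod.ext_iff.1 h).1.symm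

theorem pd_vv {x : ℕ} (hx : 1 ≤ x) (n : ℕ) :
    C (al * (x : K)) * pderiv (2, x) (vv al 0 Xr n)
      = if x ≤ n then X (0, x) * vv al 0 Xr (n - x) else 0 := by
  have h2 : ∀ j, pderiv (2, x) (X (0, j) : AA K (Fin 3)) = 0 := by
    intro j
    exact pderiv_X_of_ne fun h => zero_ne_two3 (Prod.ext_iff.1 h).1
  have h3 := pderiv_vv al_ne_zero hx h2 n
  have hX : ∀ n, vv al 0 Xr n = vv al (2 : Fin 3) (fun i => X (0, i)) n :=
    fun n => vv_symm al 0 2 n
  rw [hX, hX]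
  exact h3

theorem pd_X0 (x j : ℕ) (f : AA K (Fin 3)) :
    pderiv (2, x) (X (0, j) * f) = X (0, j) * pderiv (2, x) f := by
  rw [pderiv_mul, pderiv_X_of_ne fun h => zero_ne_two3 (Prod.ext_iff.1 h).1, zero_mul, zero_add]

/-- The first derivative of the series. -/
theorem ep_pd_tau (hJ : JOK J) (hQ : IsP J 0 (qq 1) Q0 Q) {x : ℕ} (hx : 1 ≤ x) (n : ℕ) :
    C (al * (x : K)) * ep (pderiv (2, x) (PowerSeries.coeff n (tau J (Fin 3))))
      = if x ≤ n then Q0 (X (0, x) * v1 0 (n - x)) else 0 := by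
  have h1 : C (al * (x : K)) * ep (pderiv (2, x) (PowerSeries.coeff n (tau J (Fin 3))))
      = Q0 (ep (C (al * (x : K)) * pderiv (2, x) (vv al 0 Xr n))) := by
    rw [tau_Q hJ hQ, ← Q0_pd hJ hQ, ← ep_Q0 hJ hQ, map_mul ep, ep_C, ← smul_eq_C_mul,
      ← smul_eq_C_mul, map_smul]
  rw [h1, pd_vv hx]
  split_ifs
  · rw [map_mul ep, ep_ne zero_ne_two3, ep_vv]
  · rw [map_zero, map_zero]

/-- The second derivative of the series. -/
theorem ep_pd_pd_tau (hJ : JOK J) (hQ : IsP J 0 (qq 1) Q0 Q) (n : ℕ) :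
    C (2 * al) * (C (2 * al) * ep (pderiv (2, 2) (pderiv (2, 2)
      (PowerSeries.coeff n (tau J (Fin 3))))))
      = if 4 ≤ n then Q0 (X (0, 2) * (X (0, 2) * v1 0 (n - 4))) else 0 := by
  have h2 : (2 * al : K) = al * ((2 : ℕ) : K) := by
    push_cast
    ring
  have h1 : C (2 * al) * (C (2 * al) * ep (pderiv (2, 2) (pderiv (2, 2)
      (PowerSeries.coeff n (tau J (Fin 3))))))
      = Q0 (ep (C (2 * al) * pderiv (2, 2) (C (2 * al) * pderiv (2, 2) (vv al 0 Xr n)))) := by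
    rw [tau_Q hJ hQ, ← Q0_pd hJ hQ, ← Q0_pd hJ hQ, ← ep_Q0 hJ hQ, map_mul ep, ep_C, pderiv_C_mul,
      map_mul ep, ep_C, ← smul_eq_C_mul, ← smul_eq_C_mul, ← smul_eq_C_mul, ← smul_eq_C_mul, map_smul,
      map_smul]
  rw [h1, h2, pd_vv (by omega)]
  by_cases h : 2 ≤ n
  · rw [if_pos h, pd_X0, mul_left_comm, pd_vv (by omega)]
    by_cases h3 : 2 ≤ n - 2
    · have h4 : n - 2 - 2 = n - 4 := by omega
      rw [if_pos h3, if_pos (by omega), map_mul ep, map_mul ep, ep_ne zero_ne_two3, ep_vv, h4]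
    · rw [if_neg h3, if_neg (by omega), mul_zero, map_zero, map_zero]
  · rw [if_neg h, if_neg (by omega), map_zero, mul_zero, map_zero, map_zero]

end Ep

section Log

variable {J : Fam} {Q0 : AA K (Fin 3) →ₗ[K] AA K (Fin 3)} {Q : VV K (Fin 3) →ₗ[K] VV K (Fin 3)}
  {W : PowerSeries (AA K (Fin 3))}

theorem Es_zero (a c : Fin 3) : PowerSeries.coeff 0 (Es a c) = 1 := by
  rw [Es, PowerSeries.coeff_mk, vv_zero]

theorem Es_ne (a c : Fin 3) : Es a c ≠ 0 := ne_zero_of_one (Es_zero a c)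

/-- The series `ep (∂ W)`. -/
noncomputable def EW (W : PowerSeries (AA K (Fin 3))) (x : ℕ) : PowerSeries (AA K (Fin 3)) :=
  PowerSeries.map (ep : AA K (Fin 3) →+* AA K (Fin 3)) (dd (pderiv (R := K) (2, x)) W)

theorem coeff_EW (x n : ℕ) : PowerSeries.coeff n (EW W x)
    = ep (pderiv (2, x) (PowerSeries.coeff n W)) := by
  rw [EW, PowerSeries.coeff_map, coeff_dd]
  rfl

theorem Cal_ne : (C al : AA K (Fin 3)) ≠ 0 := by
  rw [Ne, C_eq_zero]
  exact al_ne_zero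

theorem map_ep_C (x : K) : PowerSeries.map (ep : AA K (Fin 3) →+* AA K (Fin 3))
    (PowerSeries.C (C x)) = PowerSeries.C (C x) := by
  rw [PowerSeries.map_C]
  congr 1
  exact ep_C x

/-- The equation for the first derivatives of the logarithm. -/
theorem Es_EW (hJ : JOK J) (hQ : IsP J 0 (qq 1) Q0 Q) (hW : IsLog (C al) (tau J (Fin 3)) W)
    {x : ℕ} (hx : 1 ≤ x) (n : ℕ) : PowerSeries.coeff n (Es 0 1 * EW W x)
      = C (x : K)⁻¹ * if x ≤ n then Q0 (X (0, x) * v1 0 (n - x)) else 0 := by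
  have h1 := congrArg (PowerSeries.map (ep : AA K (Fin 3) →+* AA K (Fin 3)))
    (hW.dd_eq (pderiv (R := K) (2, x)) Cal_ne pderiv_C)
  rw [map_mul, map_mul, ep_tau hJ hQ, map_ep_C] at h1
  have h2 : PowerSeries.coeff n (Es 0 1 * EW W x)
      = C al * ep (pderiv (2, x) (PowerSeries.coeff n (tau J (Fin 3)))) := by
    have h3 := congrArg (PowerSeries.coeff n) h1
    rw [PowerSeries.coeff_C_mul, PowerSeries.coeff_map, coeff_dd] at h3
    exact h3.symm
  have h4 : (x : K) ≠ 0 := Nat.cast_ne_zero.2 (by omega)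
  have h5 : (x : K)⁻¹ * (al * (x : K)) = al := by field_simp
  rw [h2, ← ep_pd_tau hJ hQ hx, ← mul_assoc, ← C_mul, h5]

theorem EW_low (hJ : JOK J) (hQ : IsP J 0 (qq 1) Q0 Q) (hW : IsLog (C al) (tau J (Fin 3)) W)
    {x : ℕ} (hx : 1 ≤ x) (j : ℕ) (hj : j < x) : PowerSeries.coeff j (EW W x) = 0 := by
  induction j using Nat.strong_induction_on with
  | _ j ih =>
    have h1 := Es_EW hJ hQ hW hx j
    rw [if_neg (by omega), mul_zero, PowerSeries.coeff_mul, Finset.sum_eq_single (0, j)] at h1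
    · rw [Es_zero, one_mul] at h1
      exact h1
    · intro p hp hpn
      rw [Finset.HasAntidiagonal.mem_antidiagonal] at hp
      have h2 : p.2 ≠ j := by
        intro h
        exact hpn (Prod.ext (by show p.1 = 0; omega) h)
      rw [ih p.2 (by omega) (by omega), mul_zero]
    · intro h
      exact absurd (Finset.HasAntidiagonal.mem_antidiagonal.2 (zero_add j)) h

theorem EW_diag (hJ : JOK J) (hQ : IsP J 0 (qq 1) Q0 Q) (hW : IsLog (C al) (tau J (Fin 3)) W)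
    {x : ℕ} (hx : 1 ≤ x) : PowerSeries.coeff x (EW W x) = C (x : K)⁻¹ * Q0 (X (0, x)) := by
  have h1 := Es_EW hJ hQ hW hx x
  rw [if_pos le_rfl, Nat.sub_self, v1, vv_zero, mul_one, PowerSeries.coeff_mul,
    Finset.sum_eq_single (0, x)] at h1
  · rw [Es_zero, one_mul] at h1
    exact h1
  · intro p hp hpn
    rw [Finset.HasAntidiagonal.mem_antidiagonal] at hp
    have h2 : p.2 ≠ x := by
      intro h
      exact hpn (Prod.ext (by show p.1 = 0; omega) h)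
    rw [EW_low hJ hQ hW hx p.2 (by omega), mul_zero]
  · intro h
    exact absurd (Finset.HasAntidiagonal.mem_antidiagonal.2 (zero_add x)) h

theorem v1_one (a : Fin 3) : v1 a 1 = al⁻¹ • X (a, 1) := by
  have h1 := X_v1 (a := a) 0
  rw [v1, vv_zero, mul_one, zero_add, Nat.cast_one, mul_one] at h1
  rw [h1, smul_smul, inv_mul_cancel₀ al_ne_zero, one_smul]

theorem Q0_one (hQ : IsP J 0 (qq 1) Q0 Q) :
    Q0 (X (0, 1)) = X (0, 1) * X (1, 1) := by
  have h1 := nat_Q_v1 one_ne_zero3 hQ 0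
  have h2 := congrArg (Th1 (0 : Fin 3)) h1
  rw [nat_Th1 hQ.lift, Th1_mo, v1, vv_zero, zero_add, mul_one, PowerSeries.coeff_mul,
    Finset.Nat.antidiagonal_zero, Finset.sum_singleton, coeff_tl, Es_zero, Gr,
    PowerSeries.coeff_mk, mo_zero_eq, C_mul_mo, Th1_mo, one_mul, qq_succ] at h2
  exact h2

theorem EW_next (hJ : JOK J) (hQ : IsP J 0 (qq 1) Q0 Q) (hW : IsLog (C al) (tau J (Fin 3)) W)
    {x : ℕ} (hx : 1 ≤ x) : PowerSeries.coeff (x + 1) (EW W x)
      = C (al * (x : K))⁻¹ * (Q0 (X (0, 1) * X (0, x)) - X (1, 1) * X (0, 1) * Q0 (X (0, x))) := by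
  have h1 := Es_EW hJ hQ hW hx (x + 1)
  rw [if_pos (by omega), Nat.add_sub_cancel_left, v1_one, PowerSeries.coeff_mul,
    Finset.Nat.sum_antidiagonal_succ, Es_zero, one_mul] at h1
  have h2 : ∑ p ∈ Finset.HasAntidiagonal.antidiagonal x, PowerSeries.coeff (p.1 + 1) (Es 0 1) *
      PowerSeries.coeff p.2 (EW W x) = PowerSeries.coeff 1 (Es 0 1) *
        PowerSeries.coeff x (EW W x) := by
    rw [Finset.sum_eq_single (0, x)]
    · intro p hp hpn
      rw [Finset.HasAntidiagonal.mem_antidiagonal] at hp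
      have h2 : p.2 ≠ x := by
        intro h
        exact hpn (Prod.ext (by show p.1 = 0; omega) h)
      rw [EW_low hJ hQ hW hx p.2 (by omega), mul_zero]
    · intro h
      exact absurd (Finset.HasAntidiagonal.mem_antidiagonal.2 (zero_add x)) h
  have h3 : PowerSeries.coeff 1 (Es (0 : Fin 3) 1) = C al⁻¹ * (X (0, 1) * X (1, 1)) := by
    rw [Es, PowerSeries.coeff_mk, ← hQ.Pe 1]
    have h4 : Q0 (v1 0 1) = _ := congrArg Q0 (v1_one 0)
    rw [v1] at h4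
    rw [h4, map_smul, Q0_one hQ, smul_eq_C_mul]
  rw [h2, EW_diag hJ hQ hW hx, h3] at h1
  have h5 : (X (0, x) * al⁻¹ • X (0, 1) : AA K (Fin 3)) = al⁻¹ • (X (0, 1) * X (0, x)) := by
    rw [mul_smul_comm, mul_comm]
  rw [h5, map_smul, smul_eq_C_mul] at h1
  have h6 : (C (al * (x : K))⁻¹ : AA K (Fin 3)) = C al⁻¹ * C (x : K)⁻¹ := by
    rw [mul_inv, C_mul]
  rw [h6]
  linear_combination h1

theorem EW_two (hJ : JOK J) (hQ : IsP J 0 (qq 1) Q0 Q) (hW : IsLog (C al) (tau J (Fin 3)) W) :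
    EW W 2 = Uss 0 1 := by
  refine mul_left_cancel₀ (Es_ne 0 1) ?_
  have h1 : Es 0 1 * Uss 0 1 = PowerSeries.C (C (2 : K)⁻¹) * (PowerSeries.X *
      (Es 0 1 * tl (Th1 (0 : Fin 3)) (Lc 0 1 (Gr (qq 1))))) := by
    rw [Uss]
    ring
  ext1 n
  rw [Es_EW hJ hQ hW (by omega), h1, PowerSeries.coeff_C_mul]
  congr 1
  cases n with
  | zero => rw [PowerSeries.coeff_zero_X_mul, if_neg (by omega)]
  | succ n =>
    rw [PowerSeries.coeff_succ_X_mul, Q_two one_ne_zero3 hQ]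
    by_cases h : 1 ≤ n
    · have h3 : n + 1 - 2 = n - 1 := by omega
      rw [if_pos h, if_pos (by omega), h3]
    · rw [if_neg h, if_neg (by omega)]

theorem EW_three (hJ : JOK J) (hQ : IsP J 0 (qq 1) Q0 Q) (hW : IsLog (C al) (tau J (Fin 3)) W) :
    EW W 3 = PowerSeries.C (C (((3 : ℕ) : K))⁻¹) *
      (PowerSeries.X * tl (Th1 (0 : Fin 3)) (R3 0 1 (Gr (qq 1)))) := by
  refine mul_left_cancel₀ (Es_ne 0 1) ?_
  have h1 : Es 0 1 * (PowerSeries.C (C (((3 : ℕ) : K))⁻¹) *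
      (PowerSeries.X * tl (Th1 (0 : Fin 3)) (R3 0 1 (Gr (qq 1)))))
      = PowerSeries.C (C (((3 : ℕ) : K))⁻¹) * (PowerSeries.X *
      (Es 0 1 * tl (Th1 (0 : Fin 3)) (R3 0 1 (Gr (qq 1))))) := by
    ring
  ext1 n
  rw [Es_EW hJ hQ hW (by omega), h1, PowerSeries.coeff_C_mul]
  congr 1
  cases n with
  | zero => rw [PowerSeries.coeff_zero_X_mul, if_neg (by omega)]
  | succ n =>
    rw [PowerSeries.coeff_succ_X_mul, Q_three one_ne_zero3 hQ]
    by_cases h : 2 ≤ n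
    · have h3 : n + 1 - 3 = n - 2 := by omega
      rw [if_pos h, if_pos (by omega), h3]
    · rw [if_neg h, if_neg (by omega)]

/-- The second derivative of the logarithm. -/
theorem EWW_two (hJ : JOK J) (hQ : IsP J 0 (qq 1) Q0 Q) (hW : IsLog (C al) (tau J (Fin 3)) W) :
    PowerSeries.map (ep : AA K (Fin 3) →+* AA K (Fin 3))
      (dd (pderiv (R := K) (2, 2)) (dd (pderiv (R := K) (2, 2)) W))
      = PowerSeries.C (C (2 : K)⁻¹) * (PowerSeries.X * tl (Th1 (0 : Fin 3)) (XX 0 1)) := by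
  have h0 := hW.dd_eq (pderiv (R := K) ((2 : Fin 3), 2)) Cal_ne pderiv_C
  have h1 := congrArg (PowerSeries.map (ep : AA K (Fin 3) →+* AA K (Fin 3))) h0
  rw [map_mul, map_mul, ep_tau hJ hQ, map_ep_C] at h1
  have h2 := congrArg (dd (pderiv (R := K) ((2 : Fin 3), 2))) h0
  rw [dd_C_mul _ _ pderiv_C, dd_mul] at h2
  have h3 := congrArg (PowerSeries.map (ep : AA K (Fin 3) →+* AA K (Fin 3))) h2
  rw [map_mul, map_add, map_mul, map_mul, ep_tau hJ hQ, map_ep_C] at h3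
  set Et := PowerSeries.map (ep : AA K (Fin 3) →+* AA K (Fin 3))
    (dd (pderiv (R := K) ((2 : Fin 3), 2)) (tau J (Fin 3))) with hEt
  set Ett := PowerSeries.map (ep : AA K (Fin 3) →+* AA K (Fin 3))
    (dd (pderiv (R := K) ((2 : Fin 3), 2)) (dd (pderiv (R := K) ((2 : Fin 3), 2))
      (tau J (Fin 3)))) with hEtt
  have hEW : PowerSeries.map (ep : AA K (Fin 3) →+* AA K (Fin 3))
    (dd (pderiv (R := K) ((2 : Fin 3), 2)) W) = Uss 0 1 := EW_two hJ hQ hW
  rw [hEW] at h1 h3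
  have h4 : Et = Es 0 1 * hh 0 1 := by
    have h5 : PowerSeries.C (C al⁻¹) * (PowerSeries.C (C al) * Et) = Et := by
      rw [← mul_assoc, ← map_mul, ← C_mul, inv_mul_cancel₀ al_ne_zero, C_1, map_one, one_mul]
    rw [← h5, h1, hh]
    ring
  have h6 : PowerSeries.C (C al) * Ett = PowerSeries.C (C (2 : K)⁻¹) * (PowerSeries.X *
      (Es 0 1 * (hh 0 1 * tl (Th1 (0 : Fin 3)) (Lc 0 1 (Gr (qq 1))) +
        tl (Th1 (0 : Fin 3)) (XX 0 1)))) := by
    ext1 n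
    rw [PowerSeries.coeff_C_mul, PowerSeries.coeff_C_mul]
    have h7 := ep_pd_pd_tau hJ hQ n
    have h8 : PowerSeries.coeff n Ett = ep (pderiv (2, 2) (pderiv (2, 2)
        (PowerSeries.coeff n (tau J (Fin 3))))) := by
      rw [hEtt, PowerSeries.coeff_map, coeff_dd, coeff_dd]
      rfl
    rw [← h8] at h7
    have h9 : C al * PowerSeries.coeff n Ett = C ((2 : K)⁻¹ * (2 * al)⁻¹) *
        (C (2 * al) * (C (2 * al) * PowerSeries.coeff n Ett)) := by
      rw [← mul_assoc, ← mul_assoc, ← C_mul, ← C_mul]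
      congr 2
      have := al_ne_zero
      field_simp
    rw [h9, h7]
    cases n with
    | zero => rw [PowerSeries.coeff_zero_X_mul, if_neg (by omega), mul_zero, mul_zero]
    | succ n =>
      rw [PowerSeries.coeff_succ_X_mul, Q_twotwo one_ne_zero3 hQ]
      by_cases h : 3 ≤ n
      · have h10 : n + 1 - 4 = n - 3 := by omega
        rw [if_pos h, if_pos (by omega), h10, C_mul, smul_eq_C_mul]
        ring
      · rw [if_neg h, if_neg (by omega), mul_zero, mul_zero]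
  refine mul_left_cancel₀ (Es_ne 0 1) ?_
  have h11 : hh 0 1 * Uss 0 1 = PowerSeries.C (C (2 : K)⁻¹) * (PowerSeries.X *
      (hh 0 1 * tl (Th1 (0 : Fin 3)) (Lc 0 1 (Gr (qq 1))))) := by
    rw [Uss]
    ring
  rw [h4] at h3
  linear_combination h6 - h3 - (Es 0 1 : PowerSeries (AA K (Fin 3))) * h11

theorem ep_W (hJ : JOK J) (hQ : IsP J 0 (qq 1) Q0 Q) (hW : IsLog (C al) (tau J (Fin 3)) W)
    {n : ℕ} (hn : 1 ≤ n) : ep (PowerSeries.coeff n W) = C (n : K)⁻¹ * (X (0, n) * qq 1 n) := by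
  have h1 := hW.map (ep : AA K (Fin 3) →+* AA K (Fin 3))
  have h2 : (ep : AA K (Fin 3) →+* AA K (Fin 3)) (C al) = C al := ep_C al
  rw [h2, ep_tau hJ hQ] at h1
  have h3 := h1.eq
  have h4 := zd_vv (a := (0 : Fin 3)) (qq_Gp one_ne_zero3) (qq_zero 1)
  have h5 : Es 0 1 * zd (PowerSeries.map (ep : AA K (Fin 3) →+* AA K (Fin 3)) W)
      = Es 0 1 * pq 0 (qq 1) := by
    rw [← h3, mul_comm (Es 0 1) (pq 0 (qq 1))]
    exact h4
  have h6 := congrArg (PowerSeries.coeff n) (mul_left_cancel₀ (Es_ne 0 1) h5)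
  rw [coeff_zd, PowerSeries.coeff_map, pq, PowerSeries.coeff_mk] at h6
  have h7 : (n : AA K (Fin 3)) * ep (PowerSeries.coeff n W) = X (0, n) * qq 1 n := h6
  have h8 : (n : K) ≠ 0 := Nat.cast_ne_zero.2 (by omega)
  rw [← h7, ← map_natCast (C : K →+* AA K (Fin 3)), ← mul_assoc, ← C_mul, inv_mul_cancel₀ h8,
    C_1, one_mul]

end Log

end Pool.Agent.JackB
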