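import Pool.Agent.Lib.JackB.Prof7

/-!
The coefficients `h` and `c` when all but two of the partitions are extreme
(problem MP_b52a9f_co).
-/

open MvPolynomial

namespace Pool.Agent.JackB

section Extr

/-- One when all parts are one, zero otherwise. -/
noncomputable def onn (s : Multiset ℕ) : K := by
  classical exact if ∀ i ∈ s, i = 1 then 1 else 0

theorem onn_pos {s : Multiset ℕ} (h : ∀ i ∈ s, i = 1) : onn s = 1 := if_pos h

theorem onn_neg {s : Multiset ℕ} (h : ¬ ∀ i ∈ s, i = 1) : onn s = 0 := if_neg h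

theorem rr_onn (s : Multiset ℕ) : rr (r1 K (Fin 3)) s = C (onn s) := by
  by_cases h : ∀ i ∈ s, i = 1
  · rw [onn_pos h, C_1, Multiset.eq_replicate_card.2 h, rr, Multiset.map_replicate,
      Multiset.prod_replicate, r1_one, one_pow]
  · rw [onn_neg h, C_0]
    push Not at h
    obtain ⟨i, hi, hi1⟩ := h
    rw [← Multiset.cons_erase hi, rr_cons, r1_ne hi1, zero_mul]

theorem ep_pm_two (s : Multiset ℕ) : ep (pm K 2 s) = C (onn s) := by
  rw [← rr_onn]
  induction s using Multiset.induction_on with
  | empty => simp [rr]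
  | cons i s ih => rw [pm_cons, map_mul, ih, ep_two, rr_cons]

theorem ep_pm_ne {c : Fin 3} (h : c ≠ 2) (s : Multiset ℕ) : ep (pm K c s) = pm K c s := by
  induction s using Multiset.induction_on with
  | empty => simp
  | cons i s ih => rw [pm_cons, map_mul, ih, ep_ne h]

theorem mon_three {n : ℕ} (m : Fin 3 → n.Partition) : (monomial (mon m) (1 : K))
    = pm K 0 (m 0).parts * (pm K 1 (m 1).parts * pm K 2 (m 2).parts) := by
  rw [pm_eq_monomial, pm_eq_monomial, pm_eq_monomial, monomial_mul, monomial_mul, mon_eq,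
    Fin.sum_univ_three, mul_one, mul_one, add_assoc]

/-- Extraction of coefficients. -/
theorem coeff_T {n : ℕ} (T : AA K (Fin 3) →ₗ[K] AA K (Fin 3)) (g : Multiset ℕ → K)
    (hT : ∀ s0 s1 s2, T (pm K 0 s0 * (pm K 1 s1 * pm K 2 s2))
      = C (g s2) * (pm K 0 s0 * pm K 1 s1))
    (m : Fin 3 → n.Partition) (g0 : K)
    (hg : ∀ l : n.Partition, g l.parts = if l = m 2 then g0 else 0)
    {P : AA K (Fin 3)} (hP : Hom n P) :
    (T P).coeff (ex 0 (m 0).parts + ex 1 (m 1).parts) = g0 * P.coeff (mon m) := by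
  classical
  have h1 : T P = ∑ d ∈ P.support, T (monomial d (coeff d P)) := by
    conv_lhs => rw [P.as_sum]
    rw [map_sum]
  have hmon : ∀ m' : Fin 3 → n.Partition, (T (monomial (mon m') 1)).coeff
      (ex 0 (m 0).parts + ex 1 (m 1).parts) = if m' = m then g0 else 0 := by
    intro m'
    rw [mon_three, hT, coeff_C_mul, pm_eq_monomial, pm_eq_monomial, monomial_mul, one_mul,
      coeff_monomial, hg]
    by_cases h : m' = m
    · rw [h, if_pos rfl, if_pos rfl, if_pos rfl, mul_one]
    · rw [if_neg h]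
      by_cases h2 : m' 2 = m 2
      · rw [if_pos h2, if_neg, mul_zero]
        intro he
        apply h
        have e0 : m' 0 = m 0 := by
          refine Nat.Partition.ext (Multiset.ext.2 fun i => ?_)
          have h3 := DFunLike.congr_fun he ((0 : Fin 3), i)
          rw [Finsupp.add_apply, Finsupp.add_apply, ex_apply, ex_apply, ex_apply, ex_apply,
            if_pos rfl, if_pos rfl, if_neg one_ne_zero3, if_neg one_ne_zero3, add_zero,
            add_zero] at h3
          exact h3
        have e1 : m' 1 = m 1 := by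
          refine Nat.Partition.ext (Multiset.ext.2 fun i => ?_)
          have h3 := DFunLike.congr_fun he ((1 : Fin 3), i)
          rw [Finsupp.add_apply, Finsupp.add_apply, ex_apply, ex_apply, ex_apply, ex_apply,
            if_pos rfl, if_pos rfl, if_neg one_ne_zero3.symm, if_neg one_ne_zero3.symm, zero_add,
            zero_add] at h3
          exact h3
        funext c
        fin_cases c
        · exact e0
        · exact e1
        · exact h2
      · rw [if_neg h2, zero_mul]
  rw [h1, coeff_sum]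
  have h2 : ∀ d ∈ P.support, (T (monomial d (coeff d P))).coeff
      (ex 0 (m 0).parts + ex 1 (m 1).parts) = if d = mon m then g0 * P.coeff (mon m) else 0 := by
    intro d hd
    obtain ⟨m', rfl⟩ := hP d (mem_support_iff.1 hd)
    have h3 : (monomial (mon m') (coeff (mon m') P) : AA K (Fin 3))
        = (coeff (mon m') P) • monomial (mon m') 1 := by
      rw [smul_monomial, smul_eq_mul, mul_one]
    rw [h3, map_smul, coeff_smul, smul_eq_mul, hmon]
    by_cases h : m' = m
    · rw [if_pos h, h, if_pos rfl, mul_comm]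
    · rw [if_neg h, mul_zero, if_neg]
      intro h4
      apply h
      funext c
      refine Nat.Partition.ext (Multiset.ext.2 fun i => ?_)
      rw [← mon_apply m' c i, h4, mon_apply]
  rw [Finset.sum_congr rfl h2, Finset.sum_ite_eq']
  split_ifs with h
  · rfl
  · rw [notMem_support_iff.1 h, mul_zero]

theorem pd_three (x : ℕ) (s0 s1 s2 : Multiset ℕ) :
    pderiv (2, x) (pm K (0 : Fin 3) s0 * (pm K 1 s1 * pm K 2 s2))
      = C (s2.count x : K) * (pm K 0 s0 * (pm K 1 s1 * pm K 2 (s2.erase x))) := by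
  rw [pderiv_mul, pderiv_mul, pderiv_pm_of_ne two_ne_zero3, pderiv_pm_of_ne two_ne_one3,
    pderiv_pm]
  ring

theorem ep_three (s0 s1 s2 : Multiset ℕ) :
    ep (pm K (0 : Fin 3) s0 * (pm K 1 s1 * pm K 2 s2))
      = C (onn s2) * (pm K 0 s0 * pm K 1 s1) := by
  rw [map_mul, map_mul, ep_pm_two, ep_pm_ne zero_ne_two3, ep_pm_ne one_ne_two3]
  ring

theorem sum_eq_of {n : ℕ} {l l' : n.Partition} {s t : Multiset ℕ} (h : l.parts = s + t)
    (ht : ∀ i ∈ t, i = 1) {k : ℕ} (h' : l'.parts = s + Multiset.replicate k 1) : l = l' := by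
  refine Nat.Partition.ext ?_
  have h1 := l.parts_sum
  have h2 := l'.parts_sum
  have h3 := Multiset.eq_replicate_card.2 ht
  rw [h, Multiset.sum_add] at h1
  rw [h', Multiset.sum_add, Multiset.sum_replicate, smul_eq_mul, mul_one] at h2
  rw [h3, Multiset.sum_replicate, smul_eq_mul, mul_one] at h1
  have h4 : t.card = k := by omega
  rw [h, h', h3, h4]

theorem erase_replicate {x k : ℕ} (hx : 2 ≤ x) : x ∉ Multiset.replicate k 1 := by
  intro h
  have := Multiset.eq_of_mem_replicate h
  omega

/-- The coefficient of the logarithm at a hook. -/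
theorem coeff_hook {n : ℕ} (m : Fin 3 → n.Partition) {x k : ℕ} (hx : 2 ≤ x)
    (hm : (m 2).parts = x ::ₘ Multiset.replicate k 1) {P : AA K (Fin 3)} (hP : Hom n P) :
    (ep (pderiv (2, x) P)).coeff (ex 0 (m 0).parts + ex 1 (m 1).parts) = P.coeff (mon m) := by
  have h1 := coeff_T (ep.toLinearMap ∘ₗ (pderiv (R := K) ((2 : Fin 3), x)).toLinearMap)
    (fun s => (s.count x : K) * onn (s.erase x)) (fun s0 s1 s2 => by
      show ep (pderiv (2, x) (pm K (0 : Fin 3) s0 * (pm K 1 s1 * pm K 2 s2))) = _
      rw [pd_three, map_mul ep, ep_C, ep_three, C_mul]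
      ring) m 1 (fun l => by
      have hm' : (m 2).parts = {x} + Multiset.replicate k 1 := by
        rw [hm, Multiset.singleton_add]
      by_cases h : l = m 2
      · rw [if_pos h, h, hm, Multiset.count_cons_self, Multiset.count_eq_zero.2
          (erase_replicate hx), Multiset.erase_cons_head, onn_pos fun i hi =>
          Multiset.eq_of_mem_replicate hi]
        norm_num
      · rw [if_neg h]
        by_cases h2 : x ∈ l.parts
        · rw [onn_neg, mul_zero]
          intro h3
          refine h (sum_eq_of (s := {x}) (t := l.parts.erase x) ?_ h3 hm')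
          rw [Multiset.singleton_add, Multiset.cons_erase h2]
        · rw [Multiset.count_eq_zero.2 h2, Nat.cast_zero, zero_mul]) hP
  rw [one_mul] at h1
  exact h1

/-- The coefficient of the logarithm at the partition with all parts one. -/
theorem coeff_ones {n : ℕ} (m : Fin 3 → n.Partition)
    (hm : ∃ k, (m 2).parts = Multiset.replicate k 1) {P : AA K (Fin 3)} (hP : Hom n P) :
    (ep P).coeff (ex 0 (m 0).parts + ex 1 (m 1).parts) = P.coeff (mon m) := by
  obtain ⟨k, hm⟩ := hm
  have h1 := coeff_T ep.toLinearMap onn (fun s0 s1 s2 => ep_three s0 s1 s2) m 1 (fun l => by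
      by_cases h : l = m 2
      · rw [if_pos h, h, hm, onn_pos fun i hi => Multiset.eq_of_mem_replicate hi]
      · rw [if_neg h, onn_neg]
        intro h3
        refine h (sum_eq_of (s := 0) (t := l.parts) (by rw [zero_add]) h3 (k := k) ?_)
        rw [hm, zero_add]) hP
  rw [one_mul] at h1
  exact h1

/-- The coefficient of the logarithm at the partition `(2, 2, 1, …)`. -/
theorem coeff_twotwo {n : ℕ} (m : Fin 3 → n.Partition) {k : ℕ}
    (hm : (m 2).parts = 2 ::ₘ 2 ::ₘ Multiset.replicate k 1) {P : AA K (Fin 3)} (hP : Hom n P) :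
    (ep (pderiv (2, 2) (pderiv (2, 2) P))).coeff (ex 0 (m 0).parts + ex 1 (m 1).parts)
      = 2 * P.coeff (mon m) := by
  refine coeff_T (ep.toLinearMap ∘ₗ (pderiv (R := K) ((2 : Fin 3), 2)).toLinearMap ∘ₗ
    (pderiv (R := K) ((2 : Fin 3), 2)).toLinearMap)
    (fun s => (s.count 2 : K) * (((s.erase 2).count 2 : K) * onn ((s.erase 2).erase 2)))
    (fun s0 s1 s2 => by
      show ep (pderiv (2, 2) (pderiv (2, 2) (pm K (0 : Fin 3) s0 * (pm K 1 s1 * pm K 2 s2)))) = _
      rw [pd_three, pderiv_C_mul, pd_three, map_mul ep, map_mul ep, ep_C, ep_C, ep_three, C_mul,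
        C_mul]
      ring) m 2 (fun l => ?_) hP
  have hm' : (m 2).parts = {2, 2} + Multiset.replicate k 1 := by
    rw [hm, Multiset.insert_eq_cons, Multiset.cons_add, Multiset.singleton_add]
  have h0 : (2 : ℕ) ∉ Multiset.replicate k 1 := erase_replicate le_rfl
  by_cases h : l = m 2
  · rw [if_pos h, h, hm, Multiset.count_cons_self, Multiset.count_cons_self,
      Multiset.erase_cons_head, Multiset.count_cons_self, Multiset.erase_cons_head,
      Multiset.count_eq_zero.2 h0, onn_pos fun i hi => Multiset.eq_of_mem_replicate hi]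
    norm_num
  · rw [if_neg h]
    by_cases h2 : 2 ∈ l.parts
    · by_cases h4 : 2 ∈ l.parts.erase 2
      · rw [onn_neg, mul_zero, mul_zero]
        intro h3
        refine h (sum_eq_of (s := {2, 2}) (t := (l.parts.erase 2).erase 2) ?_ h3 hm')
        rw [Multiset.insert_eq_cons, Multiset.cons_add, Multiset.singleton_add,
          Multiset.cons_erase h4, Multiset.cons_erase h2]
      · rw [Multiset.count_eq_zero.2 h4, Nat.cast_zero, zero_mul, mul_zero]
    · rw [Multiset.count_eq_zero.2 h2, Nat.cast_zero, zero_mul]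

end Extr

section Cls

/-- The multisets of rank at most two, and those with a part missing at most one from the sum. -/
def Cl2 : Set (Multiset ℕ) := {s | rk s ≤ 2 ∨ ∃ x ∈ s, s.sum ≤ x + 1}

theorem rk_le_sum (s : Multiset ℕ) : rk s ≤ s.sum := by
  induction s using Multiset.induction_on with
  | empty => simp [rk]
  | cons i s ih =>
    rw [rk_cons, Multiset.sum_cons]
    omega

theorem Cl2_down : ∀ s t : Multiset ℕ, s ≤ t → t ∈ Cl2 → s ∈ Cl2 := by
  rintro s t hst (h | ⟨x, hx, h⟩)
  · exact Or.inl ((rk_mono hst).trans h)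
  · by_cases hxs : x ∈ s
    · refine Or.inr ⟨x, hxs, ?_⟩
      obtain ⟨u, rfl⟩ := Multiset.le_iff_exists_add.1 hst
      rw [Multiset.sum_add] at h
      omega
    · refine Or.inl ?_
      have h1 : s ≤ t.erase x := by
        rw [Multiset.le_iff_count]
        intro i
        have h2 := Multiset.le_iff_count.1 hst i
        by_cases hi : i = x
        · rw [hi, Multiset.count_eq_zero.2 hxs]
          exact Nat.zero_le _
        · rw [Multiset.count_erase_of_ne hi]
          exact h2
      have h3 : s.sum ≤ 1 := by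
        obtain ⟨u, hu⟩ := Multiset.le_iff_exists_add.1 h1
        have h4 := congrArg Multiset.sum (Multiset.cons_erase hx)
        rw [Multiset.sum_cons, hu, Multiset.sum_add] at h4
        omega
      have h5 := rk_le_sum s
      omega

/-- The extreme partitions. -/
def Extreme {n : ℕ} (l : n.Partition) : Prop := n ≤ l.parts.card + 2 ∨ ∃ x ∈ l.parts, n ≤ x + 1

theorem extreme_iff {n : ℕ} (l : n.Partition) : Extreme l ↔ l.parts ∈ Cl2 := by
  have h1 := rk_parts l
  have h2 := l.parts_sum
  constructor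
  · rintro (h | ⟨x, hx, h⟩)
    · exact Or.inl (by omega)
    · exact Or.inr ⟨x, hx, by omega⟩
  · rintro (h | ⟨x, hx, h⟩)
    · exact Or.inl (by omega)
    · exact Or.inr ⟨x, hx, by omega⟩

/-- The classification of the extreme partitions. -/
theorem extreme_cases {n : ℕ} (l : n.Partition) (h : Extreme l) :
    (∃ k, l.parts = Multiset.replicate k 1) ∨
    (∃ x k, 2 ≤ x ∧ l.parts = x ::ₘ Multiset.replicate k 1 ∧ (x ≤ 3 ∨ k ≤ 1)) ∨
    (∃ k, l.parts = 2 ::ₘ 2 ::ₘ Multiset.replicate k 1) := by
  have hs := parts_split l.parts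
  set s := l.parts.filter fun i => i ≠ 1 with hsd
  have hge : ∀ x ∈ s, 2 ≤ x := by
    intro x hx
    rw [hsd, Multiset.mem_filter] at hx
    have := l.parts_pos hx.1
    have := hx.2
    omega
  have hsum := l.parts_sum
  have hcard : l.parts.card = l.parts.count 1 + s.card := (card_split l.parts).symm
  have hsum2 : n = l.parts.count 1 + s.sum := by
    have h1 := congrArg Multiset.sum hs
    rw [Multiset.sum_add, Multiset.sum_replicate, smul_eq_mul, mul_one, hsum] at h1
    exact h1
  rcases h with h | ⟨x, hx, h⟩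
  · have h1 : s.sum ≤ s.card + 2 := by omega
    rcases Nat.lt_or_ge s.card 3 with hc | hc
    · interval_cases hc' : s.card
      · left
        refine ⟨l.parts.count 1, ?_⟩
        rw [Multiset.card_eq_zero.1 hc', add_zero] at hs
        exact hs
      · right; left
        obtain ⟨x, hx⟩ := Multiset.card_eq_one.1 hc'
        refine ⟨x, l.parts.count 1, hge x (by rw [hx]; exact Multiset.mem_singleton_self x), ?_, ?_⟩
        · rw [hx] at hs
          rw [add_comm, Multiset.singleton_add] at hs
          exact hs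
        · rw [hx, Multiset.sum_singleton] at h1
          left
          omega
      · right; right
        obtain ⟨x, y, hxy⟩ := Multiset.card_eq_two.1 hc'
        have hx := hge x (by rw [hxy]; simp)
        have hy := hge y (by rw [hxy]; simp)
        rw [hxy, Multiset.insert_eq_cons, Multiset.sum_cons, Multiset.sum_singleton] at h1
        have hx2 : x = 2 := by omega
        have hy2 : y = 2 := by omega
        refine ⟨l.parts.count 1, ?_⟩
        rw [hxy, hx2, hy2, add_comm, Multiset.insert_eq_cons, Multiset.cons_add,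
          Multiset.singleton_add] at hs
        exact hs
    · exfalso
      have h2 : 2 * s.card ≤ s.sum := by
        have h3 := Multiset.card_nsmul_le_sum hge
        rw [smul_eq_mul] at h3
        omega
      omega
  · have h1 := Multiset.cons_erase hx
    have h2 := congrArg Multiset.sum h1
    rw [Multiset.sum_cons, hsum] at h2
    have hpos : ∀ y ∈ l.parts.erase x, 1 ≤ y :=
      fun y hy => l.parts_pos (Multiset.mem_of_mem_erase hy)
    have h3 : (l.parts.erase x).card ≤ (l.parts.erase x).sum := by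
      have h4 := Multiset.card_nsmul_le_sum hpos
      rw [smul_eq_mul, mul_one] at h4
      exact h4
    have h4 : ∃ k, k ≤ 1 ∧ l.parts.erase x = Multiset.replicate k 1 := by
      rcases Nat.lt_or_ge (l.parts.erase x).card 1 with hc | hc
      · refine ⟨0, by omega, ?_⟩
        rw [Multiset.replicate_zero]
        exact Multiset.card_eq_zero.1 (by omega)
      · have hc1 : (l.parts.erase x).card = 1 := by omega
        obtain ⟨y, hy⟩ := Multiset.card_eq_one.1 hc1
        have hy1 := hpos y (by rw [hy]; exact Multiset.mem_singleton_self y)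
        rw [hy, Multiset.sum_singleton] at h2
        have hy2 : y = 1 := by omega
        refine ⟨1, le_rfl, ?_⟩
        rw [hy, hy2, Multiset.replicate_one]
    obtain ⟨k, hk, h5⟩ := h4
    rw [h5] at h1
    have hxp : 1 ≤ x := l.parts_pos hx
    rcases Nat.lt_or_ge x 2 with hx2 | hx2
    · left
      have hx1 : x = 1 := by omega
      refine ⟨k + 1, ?_⟩
      rw [← h1, hx1, Multiset.replicate_succ]
    · right; left
      exact ⟨x, k, hx2, h1.symm, Or.inr hk⟩

end Cls

section Fin3

variable {J : Fam}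

theorem mem_of_PS {f : AA K (Fin 3)} (h : f ∈ PS Qb (Fin 3)) (d : Fin 3 × ℕ →₀ ℕ) :
    f.coeff d ∈ Qb := h d (Set.notMem_empty _)

/-- Positivity of the logarithm at the extreme partitions. -/
theorem W_extreme (hK : IsJack J) {W : PowerSeries (AA K (Fin 3))}
    (hW : IsLog (C al) (tau J (Fin 3)) W) {n : ℕ} (hn : 1 ≤ n) (m : Fin 3 → n.Partition)
    (h : Extreme (m 2)) : (PowerSeries.coeff n W).coeff (mon m) ∈ Qb := by
  have hJ := hK.jok
  have hE := hK.eigL (0 : Fin 3)
  have hH := hom_log hK.unital hW n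
  obtain ⟨Q0, Q, hQ⟩ := exists_isP hJ hE (qq_Gp one_ne_zero3)
  obtain ⟨P0, P, hP⟩ := exists_isP hJ hE (r := sp (X ((2 : Fin 3), 0)) 0)
    (fun i => sp_Gp (e_Gp two_ne_zero3) (Gp K 0).zero_mem i)
  have hal := al_mem_Qb
  have hb := b_mem_Qb
  have hinv := inv_mem_Qb
  rcases extreme_cases (m 2) h with h1 | ⟨x, k, hx, hm, hxk⟩ | ⟨k, hm⟩
  · rw [← coeff_ones m h1 hH, ep_W hJ hQ hW hn]
    exact mem_of_PS ((PS Qb (Fin 3)).mul_mem (C_PS (hinv n))
      ((PS Qb (Fin 3)).mul_mem (X_PS _) (qq_PS n))) _
  · rw [← coeff_hook m hx hm hH, ← coeff_EW]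
    refine mem_of_PS ?_ _
    have hnx : n = x + k := by
      have h2 := (m 2).parts_sum
      rw [hm, Multiset.sum_cons, Multiset.sum_replicate, smul_eq_mul, mul_one] at h2
      exact h2.symm
    by_cases hx2 : x = 2
    · subst hx2
      rw [EW_two hJ hQ hW, Uss, PowerSeries.coeff_C_mul]
      refine (PS Qb (Fin 3)).mul_mem (C_PS (hinv 2)) ?_
      cases n with
      | zero => omega
      | succ n =>
        rw [PowerSeries.coeff_succ_X_mul, coeff_tl]
        exact Th1_PV (pos_two one_ne_zero3 hal hb n)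
    by_cases hx3 : x = 3
    · subst hx3
      rw [EW_three hJ hQ hW, PowerSeries.coeff_C_mul]
      refine (PS Qb (Fin 3)).mul_mem (C_PS (hinv 3)) ?_
      cases n with
      | zero => omega
      | succ n =>
        rw [PowerSeries.coeff_succ_X_mul, coeff_tl]
        exact Th1_PV (pos_three one_ne_zero3 hal hb n)
    have hk1 : k ≤ 1 := by omega
    rcases Nat.lt_or_ge k 1 with hk | hk
    · have hk0 : k = 0 := by omega
      have hnx' : n = x := by omega
      subst hnx'
      rw [EW_diag hJ hQ hW hn]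
      exact (PS Qb (Fin 3)).mul_mem (C_PS (hinv n)) (one_pos hJ hE one_ne_zero3 two_ne_zero3
        two_ne_one3 hP hQ hal hb hinv hn)
    · have hnx' : n = x + 1 := by omega
      subst hnx'
      rw [EW_next hJ hQ hW (by omega)]
      exact two_pos hJ hE one_ne_zero3 two_ne_zero3 two_ne_one3 hP hQ hal hb hinv (by omega)
  · have h2 := coeff_twotwo m hm hH
    have h3 : (ep (pderiv (2, 2) (pderiv (2, 2) (PowerSeries.coeff n W)))).coeff
        (ex 0 (m 0).parts + ex 1 (m 1).parts) ∈ Qb := by
      have h4 := congrArg (PowerSeries.coeff n) (EWW_two hJ hQ hW)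
      rw [PowerSeries.coeff_map, coeff_dd, coeff_dd, PowerSeries.coeff_C_mul] at h4
      have h5 : ep (pderiv (2, 2) (pderiv (2, 2) (PowerSeries.coeff n W))) = _ := h4
      rw [h5]
      refine mem_of_PS ((PS Qb (Fin 3)).mul_mem (C_PS (hinv 2)) ?_) _
      cases n with
      | zero => omega
      | succ n =>
        rw [PowerSeries.coeff_succ_X_mul, coeff_tl]
        exact Th1_PV (pos_twotwo one_ne_zero3 hal hb hinv n)
    rw [h2] at h3
    have h6 := Qb.mul_mem (hinv 2) h3
    have h7 : (((2 : ℕ) : K))⁻¹ * (2 * (PowerSeries.coeff n W).coeff (mon m))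
        = (PowerSeries.coeff n W).coeff (mon m) := by
      rw [← mul_assoc, Nat.cast_two, inv_mul_cancel₀ two_ne_zero, one_mul]
    rw [h7] at h6
    exact h6

end Fin3

section All

variable {J : Fam}

/-- Permutations of the alphabets. -/
theorem coeff_perm {ι : Type*} [Fintype ι] [DecidableEq ι]
    {W : PowerSeries (MvPolynomial (ι × ℕ) K)} (hW : IsLog (C al) (tau J ι) W) (e : ι ≃ ι)
    {n : ℕ} (m : ι → n.Partition) : (PowerSeries.coeff n W).coeff (mon m)
      = (PowerSeries.coeff n W).coeff (mon fun a => m (e.symm a)) := by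
  have h1 := isLog_rename (J := J) (ι' := ι) e hW
  rw [map_tau] at h1
  have h2 := congrArg (PowerSeries.coeff n) (hW.unique h1)
  rw [PowerSeries.coeff_map] at h2
  have h3 : PowerSeries.coeff n W = rename (pf e) (PowerSeries.coeff n W) := h2
  have h4 : mon (fun a => m (e.symm a)) = (mon m).mapDomain (pf e) := by
    refine Finsupp.ext fun v => ?_
    obtain ⟨c, i⟩ := v
    have h5 : ((c, i) : ι × ℕ) = pf e (e.symm c, i) := by
      rw [pf]
      simp
    rw [mon_apply]
    rw [h5, Finsupp.mapDomain_apply (pf_inj e.injective), mon_apply]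
  rw [h4]
  conv_rhs => rw [h3]
  rw [coeff_rename_mapDomain _ (pf_inj e.injective)]

theorem exists_perm {k : ℕ} {p q : Fin (k + 2)} (hpq : p ≠ q) :
    ∃ e : Fin (k + 2) ≃ Fin (k + 2), e p = 0 ∧ e q = 1 := by
  have h01 : (0 : Fin (k + 2)) ≠ 1 := by
    intro h
    have := congrArg Fin.val h
    simp at this
  refine ⟨(Equiv.swap p 0).trans (Equiv.swap (Equiv.swap p 0 q) 1), ?_, ?_⟩
  · rw [Equiv.trans_apply, Equiv.swap_apply_left]
    refine Equiv.swap_apply_of_ne_of_ne ?_ h01
    intro h
    apply hpq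
    have h2 : Equiv.swap p 0 p = Equiv.swap p 0 q := by
      rw [Equiv.swap_apply_left]
      exact h
    exact (Equiv.swap p 0).injective h2
  · rw [Equiv.trans_apply, Equiv.swap_apply_left]

/-- The coefficients `h` when the partitions with index at least two are extreme. -/
theorem h_extreme (hK : IsJack J) {k : ℕ} (hk : 1 ≤ k) {n : ℕ} (hn : 1 ≤ n)
    (m : Fin (k + 2) → n.Partition) (hm : ∀ a : Fin (k + 2), 2 ≤ a.val → Extreme (m a)) :
    hJ J k m ∈ Qb := by
  obtain ⟨W, hW⟩ := IsLog.exists_log al (tau_zero hK.unital (Fin 3))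
  refine (reduction (Cl := Cl2) hK.orth hK.unital al_mem_Qb Cl2_down (fun n hn m hm i => ?_) hk hn
    m (fun a ha => (extreme_iff _).1 (hm a ha))).2.1
  have h1 : hJ J 1 m = (n : K) * (PowerSeries.coeff n W).coeff (mon m) :=
    coeff_Psi hK.unital hW n (mon m)
  have h2 := hm 2 le_rfl
  have h3 : hJ J 1 m ∈ Qb := by
    rw [h1]
    exact Qb.mul_mem (natCast_mem Qb n) (W_extreme hK hW hn m ((extreme_iff _).2 h2))
  refine Qb.mul_mem ?_ h3
  have h4 := rat_mem_Qb ((i : ℚ) * ((m 0).parts.count i : ℚ) / (n : ℚ)) (by positivity)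
  have h5 : (((i : ℚ) * ((m 0).parts.count i : ℚ) / (n : ℚ) : ℚ) : K)
      = (i : K) * ((m 0).parts.count i : K) / (n : K) := by
    push_cast
    rfl
  rw [← h5]
  exact h4

/-- The logarithm when all but two partitions are extreme. -/
theorem W_all (hK : IsJack J) {k : ℕ} (hk : 1 ≤ k) {W : PowerSeries (AA K (Fin (k + 2)))}
    (hW : IsLog (C al) (tau J (Fin (k + 2))) W) {p q : Fin (k + 2)} (hpq : p ≠ q) {n : ℕ}
    (m : Fin (k + 2) → n.Partition) (hm : ∀ a, a ≠ p → a ≠ q → Extreme (m a)) :
    (PowerSeries.coeff n W).coeff (mon m) ∈ Qb := by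
  rcases Nat.eq_zero_or_pos n with rfl | hn
  · rw [hW.zero, coeff_zero]
    exact Qb.zero_mem
  obtain ⟨e, hep, heq⟩ := exists_perm hpq
  rw [coeff_perm hW e m]
  have h1 := h_extreme hK hk hn (fun a => m (e.symm a)) (fun a ha => by
    refine hm _ ?_ ?_
    · intro h
      have h2 : a = e p := by rw [← h, Equiv.apply_symm_apply]
      rw [hep] at h2
      rw [h2] at ha
      simp at ha
    · intro h
      have h2 : a = e q := by rw [← h, Equiv.apply_symm_apply]
      rw [heq] at h2
      rw [h2] at ha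
      simp at ha)
  have h2 : hJ J k (fun a => m (e.symm a)) = (n : K) *
      (PowerSeries.coeff n W).coeff (mon fun a => m (e.symm a)) :=
    coeff_Psi hK.unital hW n _
  rw [h2] at h1
  have h3 := Qb.mul_mem (inv_mem_Qb n) h1
  have h4 : (n : K) ≠ 0 := Nat.cast_ne_zero.2 (by omega)
  rw [← mul_assoc, inv_mul_cancel₀ h4, one_mul] at h3
  exact h3

theorem Extreme.sub {n n' : ℕ} {l : n.Partition} {l' : n'.Partition} (h : Extreme l)
    (hl : l'.parts ≤ l.parts) : Extreme l' :=
  (extreme_iff _).2 (Cl2_down _ _ hl ((extreme_iff _).1 h))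

/-- The main theorem. -/
theorem all_extreme (hK : IsJack J) {k : ℕ} (hk : 1 ≤ k) {n : ℕ} (hn : 1 ≤ n)
    (m : Fin (k + 2) → n.Partition) {p q : Fin (k + 2)} (hpq : p ≠ q)
    (hm : ∀ a, a ≠ p → a ≠ q → Extreme (m a)) :
    cJ J k m ∈ Nb ∧ hJ J k m ∈ Nb ∧
    ∀ i : ℕ, ((i : K) * ((m 0).parts.count i : K) / (n : K)) * hJ J k m ∈ Nb := by
  obtain ⟨W, hW⟩ := IsLog.exists_log al (tau_zero hK.unital (Fin (k + 2)))
  obtain ⟨hc, hh, hi⟩ := integral hK hk hn m
  have h1 : hJ J k m = (n : K) * (PowerSeries.coeff n W).coeff (mon m) :=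
    coeff_Psi hK.unital hW n (mon m)
  have h2 : hJ J k m ∈ Qb := by
    rw [h1]
    exact Qb.mul_mem (natCast_mem Qb n) (W_all hK hk hW hpq m hm)
  refine ⟨mem_Nb hc ?_, mem_Nb hh h2, fun i => mem_Nb (hi i) ?_⟩
  · exact c_of_sub hK.unital al_mem_Qb hW 0 fun n' m' hm' =>
      W_all hK hk hW hpq m' fun a hap haq => (hm a hap haq).sub (hm' a)
  · refine Qb.mul_mem ?_ h2
    have h4 := rat_mem_Qb ((i : ℚ) * ((m 0).parts.count i : ℚ) / (n : ℚ)) (by positivity)
    have h5 : (((i : ℚ) * ((m 0).parts.count i : ℚ) / (n : ℚ) : ℚ) : K)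
        = (i : K) * ((m 0).parts.count i : K) / (n : K) := by
      push_cast
      rfl
    rw [← h5]
    exact h4

end All

end Pool.Agent.JackB
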