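import Pool.Agent.Lib.JackB.Defs
import Pool.Agent.Lib.JackB.Pair

/-!
Gluing two series `tau` along an alphabet (problem MP_b52a9f_co).
-/

open MvPolynomial

namespace Pool.Agent.JackB

section Gen

variable {A : Type*} [CommRing A]

theorem IsLog.expand {a : A} {F W : PowerSeries A} (h : IsLog a F W) (p : ℕ) (hp : p ≠ 0) :
    IsLog a (PowerSeries.expand p hp F) (PowerSeries.expand p hp W) where
  one := by
    rw [PowerSeries.coeff_expand, if_pos (dvd_zero p), Nat.zero_div, h.one]
  zero := by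
    rw [PowerSeries.coeff_expand, if_pos (dvd_zero p), Nat.zero_div, h.zero]
  eq := by
    have hz : ∀ G : PowerSeries A, zd (PowerSeries.expand p hp G)
        = PowerSeries.C (p : A) * PowerSeries.expand p hp (zd G) := by
      intro G
      ext1 n
      rw [coeff_zd, PowerSeries.coeff_C_mul, PowerSeries.coeff_expand, PowerSeries.coeff_expand]
      split_ifs with hn
      · obtain ⟨m, rfl⟩ := hn
        rw [Nat.mul_div_cancel_left m (Nat.pos_of_ne_zero hp), coeff_zd]
        push_cast
        ring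
      · rw [mul_zero, mul_zero]
    rw [hz, hz]
    have h1 := congrArg (PowerSeries.expand p hp) h.eq
    rw [map_mul, map_mul, PowerSeries.expand_C] at h1
    linear_combination (PowerSeries.C (p : A)) * h1

end Gen

section Ren

variable {F : Type*} [Field F] {σ τ : Type*}

theorem pderiv_rename_zero [DecidableEq τ] (f : σ → τ) (v : τ) (hv : ∀ u, f u ≠ v)
    (P : MvPolynomial σ F) : pderiv v (rename f P) = 0 := by
  induction P using MvPolynomial.induction_on with
  | C c => rw [rename_C, pderiv_C]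
  | add p q hp hq => rw [map_add, map_add, hp, hq, add_zero]
  | mul_X p u hp =>
    rw [map_mul, pderiv_mul, hp, rename_X, pderiv_X, Pi.single_eq_of_ne (hv u)]
    ring

end Ren

/-- `J_∅ = 1`. -/
def Unital (J : Fam) : Prop := ∀ th l : (0 : ℕ).Partition, J 0 th l = 1

theorem Jp_eq {L : Type*} (J : Fam) {n : ℕ} (th : n.Partition) (a : L) :
    Jp J th a = ∑ l : n.Partition, C (J n th l) * pm K a l.parts := rfl

theorem zal_eq {n : ℕ} (l : n.Partition) : zal l = (zz l.parts : K) * al ^ l.parts.card := rfl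

theorem rename_pm {L L' : Type*} (f : L → L') (a : L) (m : Multiset ℕ) :
    rename (pf f) (pm K a m) = pm K (f a) m := by
  induction m using Multiset.induction_on with
  | empty => simp
  | cons j m ih =>
    rw [pm_cons, pm_cons, map_mul, ih, rename_X]
    rfl

theorem rename_Jp {L L' : Type*} (f : L → L') (J : Fam) {n : ℕ} (th : n.Partition) (a : L) :
    rename (pf f) (Jp J th a) = Jp J th (f a) := by
  rw [Jp_eq, Jp_eq, map_sum]
  refine Finset.sum_congr rfl fun l _ => ?_
  rw [map_mul, rename_C, rename_pm]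

theorem coeff_tau (J : Fam) (ι : Type*) [Fintype ι] (n : ℕ) :
    PowerSeries.coeff n (tau J ι) = ∑ th : n.Partition, C (jn J th)⁻¹ * ∏ a : ι, Jp J th a := by
  rw [tau, PowerSeries.coeff_mk]

theorem tau_zero {J : Fam} (h0 : Unital J) (ι : Type*) [Fintype ι] :
    PowerSeries.coeff 0 (tau J ι) = 1 := by
  rw [coeff_tau, Fintype.sum_unique]
  have hp : ∀ l : (0 : ℕ).Partition, l.parts = 0 := by
    intro l
    rw [Multiset.eq_zero_iff_forall_notMem]
    intro i hi
    have h1 := l.parts_pos hi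
    have h2 := Multiset.single_le_sum (fun _ _ => Nat.zero_le _) _ hi
    rw [l.parts_sum] at h2
    omega
  have hz : ∀ l : (0 : ℕ).Partition, zal l = 1 := by
    intro l
    rw [zal_eq, hp l]
    simp [zz]
  have h1 : jn J (default : (0 : ℕ).Partition) = 1 := by
    rw [jn, Fintype.sum_unique, h0, hz]
    ring
  have h2 : ∀ a : ι, Jp J (default : (0 : ℕ).Partition) a = 1 := by
    intro a
    rw [Jp_eq, Fintype.sum_unique, h0, hp]
    simp
  rw [h1, Finset.prod_congr rfl fun a _ => h2 a]
  simp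

/-- Fine positivity of the logarithm of `tau` in the alphabet `a`, outside bad monomials. -/
def Fine (J : Fam) (S : Subsemiring K) (ι : Type*) [Fintype ι] [DecidableEq ι]
    (bad : ι → Set (ℕ → ℕ)) (a : ι) : Prop :=
  ∀ W, IsLog (C al) (tau J ι) W → ∀ i n : ℕ, ∀ d, d ∉ gb bad →
    (C (i : K) * pderiv (a, i) (PowerSeries.coeff n W)).coeff d ∈ S

section Reindex

variable {ι ι' : Type*} [Fintype ι] [DecidableEq ι] [Fintype ι'] [DecidableEq ι']

theorem map_tau (J : Fam) (e : ι ≃ ι') :
    PowerSeries.map (rename (pf e) : MvPolynomial (ι × ℕ) K →ₐ[K] _).toRingHom (tau J ι)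
      = tau J ι' := by
  ext1 n
  rw [PowerSeries.coeff_map, coeff_tau, coeff_tau]
  show rename (pf e) (∑ th : n.Partition, C (jn J th)⁻¹ * ∏ a : ι, Jp J th a) = _
  rw [map_sum]
  refine Finset.sum_congr rfl fun th _ => ?_
  rw [map_mul, rename_C, map_prod]
  congr 1
  rw [← Equiv.prod_comp e (fun a => Jp J th a)]
  refine Finset.prod_congr rfl fun a _ => ?_
  exact rename_Jp _ J th a

theorem isLog_rename {J : Fam} (f : ι → ι') {W : PowerSeries (MvPolynomial (ι × ℕ) K)}
    {G : PowerSeries (MvPolynomial (ι × ℕ) K)} (h : IsLog (C al) G W) :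
    IsLog (C al : MvPolynomial (ι' × ℕ) K)
      (PowerSeries.map (rename (pf f) : MvPolynomial (ι × ℕ) K →ₐ[K] _).toRingHom G)
      (PowerSeries.map (rename (pf f) : MvPolynomial (ι × ℕ) K →ₐ[K] _).toRingHom W) := by
  have h1 := h.map (rename (pf f) : MvPolynomial (ι × ℕ) K →ₐ[K] _).toRingHom
  have h2 : (rename (pf f) : MvPolynomial (ι × ℕ) K →ₐ[K] _).toRingHom (C al)
      = (C al : MvPolynomial (ι' × ℕ) K) := rename_C _ _
  rw [h2] at h1
  exact h1

theorem Fine.reindex {J : Fam} {S : Subsemiring K} (h0 : Unital J) {bad : ι → Set (ℕ → ℕ)}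
    (hb : UpCl bad) {bad' : ι' → Set (ℕ → ℕ)} (hb' : UpCl bad') (e : ι ≃ ι')
    (he : ∀ a, bad' (e a) = bad a) {a : ι} (h : Fine J S ι bad a) :
    Fine J S ι' bad' (e a) := by
  intro W hW i n
  obtain ⟨V, hV⟩ := IsLog.exists_log al (tau_zero h0 ι)
  have h1 := isLog_rename (J := J) (ι' := ι') e hV
  rw [map_tau] at h1
  have h2 := hW.unique h1
  rw [h2, PowerSeries.coeff_map]
  show (C (i : K) * pderiv (e a, i) (rename (pf e) (PowerSeries.coeff n V))) ∈
    SS S (gb bad') (gb_add hb')
  have h3 : pderiv (e a, i) (rename (pf e) (PowerSeries.coeff n V))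
      = rename (pf e) (pderiv (a, i) (PowerSeries.coeff n V)) :=
    pderiv_rename (pf_inj e.injective) (x := (a, i)) _
  have h4 : (C (i : K) * rename (pf e) (pderiv (a, i) (PowerSeries.coeff n V)))
      = rename (pf e) (C (i : K) * pderiv (a, i) (PowerSeries.coeff n V)) := by
    rw [map_mul, rename_C]
  rw [h3, h4]
  exact rename_mem e.injective hb hb' (fun a => (he a).symm.subset) (h V hV i n)

end Reindex

section Glue

variable {ι κ : Type*} [Fintype ι] [Fintype κ] [DecidableEq ι] [DecidableEq κ]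
  {T : MvPolynomial ((Option ι ⊕ Option κ) × ℕ) K →ₗ[K]
    MvPolynomial ((Option ι ⊕ Option κ) × ℕ) K}

/-- `T` commutes with multiplication by `Q`. -/
def NL (T : MvPolynomial ((Option ι ⊕ Option κ) × ℕ) K →ₗ[K]
    MvPolynomial ((Option ι ⊕ Option κ) × ℕ) K)
    (Q : MvPolynomial ((Option ι ⊕ Option κ) × ℕ) K) : Prop := ∀ P, T (Q * P) = Q * T P

omit [Fintype ι] [Fintype κ] [DecidableEq ι] [DecidableEq κ] in
theorem NL.mul {Q R : MvPolynomial ((Option ι ⊕ Option κ) × ℕ) K} (hQ : NL T Q) (hR : NL T R) :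
    NL T (Q * R) := fun P => by
  rw [mul_assoc, hQ, hR, mul_assoc]

theorem NL_pm (hT : IsWick sw al T) (b : ι ⊕ κ) (m : Multiset ℕ) : NL T (pm K (em b) m) := by
  induction m using Multiset.induction_on with
  | empty =>
    intro P
    rw [pm_zero, one_mul, one_mul]
  | cons j m ih =>
    rw [pm_cons]
    refine NL.mul (fun P => ?_) ih
    rw [hT.X_mul, wt, if_pos (sw_em b)]
    simp

theorem NL_Jp (hT : IsWick sw al T) (J : Fam) {n : ℕ} (th : n.Partition) (b : ι ⊕ κ) :
    NL T (Jp J th (em b)) := by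
  intro P
  rw [Jp_eq, Finset.sum_mul, map_sum, Finset.sum_mul]
  refine Finset.sum_congr rfl fun l _ => ?_
  rw [mul_assoc, hT.C_mul, NL_pm hT, mul_assoc]

theorem NL_prod (hT : IsWick sw al T) (J : Fam) {n : ℕ} (th : n.Partition)
    (t : Finset (ι ⊕ κ)) : NL T (∏ b ∈ t, Jp J th (em b)) := by
  classical
  induction t using Finset.induction_on with
  | empty =>
    intro P
    rw [Finset.prod_empty, one_mul, one_mul]
  | insert b t hb ih =>
    rw [Finset.prod_insert hb]
    exact (NL_Jp hT J th b).mul ih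

theorem phi_JJ' (hT : IsWick sw al T) (J : Fam) {i j : ℕ} (th : i.Partition) (mu : j.Partition) :
    eps K ι κ (T (Jp J th (Sum.inl none) * Jp J mu (Sum.inr none)))
      = ∑ l : i.Partition, ∑ m : j.Partition, C (J i th l * J j mu m) *
        if l.parts = m.parts then C (zal l) else 0 := by
  rw [Jp_eq, Jp_eq, Finset.sum_mul_sum, map_sum, map_sum]
  refine Finset.sum_congr rfl fun l _ => ?_
  rw [map_sum, map_sum]
  refine Finset.sum_congr rfl fun m _ => ?_
  rw [mul_mul_mul_comm, ← C_mul, hT.C_mul, map_mul (eps K ι κ), eps_C, phi_pair hT]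
  rfl

theorem phi_JJ (hT : IsWick sw al T) {J : Fam} (hJ : Orth J) {n : ℕ} (th mu : n.Partition) :
    eps K ι κ (T (Jp J th (Sum.inl none) * Jp J mu (Sum.inr none)))
      = if th = mu then C (jn J th) else 0 := by
  rw [phi_JJ' hT]
  have h1 : ∀ l : n.Partition, (∑ m : n.Partition, C (J n th l * J n mu m) *
        if l.parts = m.parts then C (zal l) else (0 : MvPolynomial ((ι ⊕ κ) × ℕ) K))
      = C (J n th l * J n mu l * zal l) := by
    intro l
    rw [Finset.sum_eq_single l]
    · rw [if_pos rfl, ← C_mul]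
    · intro m _ hm
      rw [if_neg fun h => hm (Nat.Partition.ext h).symm, mul_zero]
    · intro h
      exact absurd (Finset.mem_univ l) h
  rw [Finset.sum_congr rfl fun l _ => h1 l, ← map_sum]
  by_cases h : th = mu
  · rw [if_pos h, h]
    rfl
  · rw [if_neg h, hJ n th mu h, map_zero]

theorem phi_JJ_ne (hT : IsWick sw al T) (J : Fam) {i j : ℕ} (hij : i ≠ j) (th : i.Partition)
    (mu : j.Partition) :
    eps K ι κ (T (Jp J th (Sum.inl none) * Jp J mu (Sum.inr none))) = 0 := by
  rw [phi_JJ' hT]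
  refine Finset.sum_eq_zero fun l _ => Finset.sum_eq_zero fun m _ => ?_
  rw [if_neg, mul_zero]
  intro h
  apply hij
  rw [← l.parts_sum, ← m.parts_sum, h]

/-- The product of the two series in the joint polynomial ring. -/
noncomputable def glue (J : Fam) (ι κ : Type*) [Fintype ι] [Fintype κ] :
    PowerSeries (MvPolynomial ((Option ι ⊕ Option κ) × ℕ) K) :=
  PowerSeries.map (rename (pf Sum.inl) : MvPolynomial (Option ι × ℕ) K →ₐ[K] _).toRingHom
      (tau J (Option ι)) *
    PowerSeries.map (rename (pf Sum.inr) : MvPolynomial (Option κ × ℕ) K →ₐ[K] _).toRingHom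
      (tau J (Option κ))

theorem eps_prod_inl (J : Fam) {n : ℕ} (th : n.Partition) :
    eps K ι κ (∏ a : ι, Jp J th (em (Sum.inl a))) = ∏ a : ι, Jp J th (Sum.inl a) := by
  rw [map_prod]
  refine Finset.prod_congr rfl fun a _ => ?_
  rw [← rename_Jp em J th (Sum.inl a), eps_rename]

theorem eps_prod_inr (J : Fam) {n : ℕ} (th : n.Partition) :
    eps K ι κ (∏ a : κ, Jp J th (em (Sum.inr a))) = ∏ a : κ, Jp J th (Sum.inr a) := by
  rw [map_prod]
  refine Finset.prod_congr rfl fun a _ => ?_
  rw [← rename_Jp em J th (Sum.inr a), eps_rename]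

theorem term_eq (hT : IsWick sw al T) (J : Fam) {i j : ℕ} (th : i.Partition) (mu : j.Partition)
    (c c' : K) :
    eps K ι κ (T ((C c * ∏ a : Option ι, Jp J th (Sum.inl a)) *
        (C c' * ∏ a : Option κ, Jp J mu (Sum.inr a))))
      = C (c * c') * (∏ a : ι, Jp J th (Sum.inl a)) * (∏ a : κ, Jp J mu (Sum.inr a)) *
        eps K ι κ (T (Jp J th (Sum.inl none) * Jp J mu (Sum.inr none))) := by
  have h1 : ∏ a : Option ι, Jp J th (Sum.inl a : Option ι ⊕ Option κ)
      = Jp J th (Sum.inl none) * ∏ a : ι, Jp J th (em (Sum.inl a) : Option ι ⊕ Option κ) :=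
    Fintype.prod_option _
  have h2 : ∏ a : Option κ, Jp J mu (Sum.inr a : Option ι ⊕ Option κ)
      = Jp J mu (Sum.inr none) * ∏ a : κ, Jp J mu (em (Sum.inr a) : Option ι ⊕ Option κ) :=
    Fintype.prod_option _
  have hQ1 : NL T (∏ a : ι, Jp J th (em (Sum.inl a) : Option ι ⊕ Option κ)) := by
    have := NL_prod hT J th (Finset.univ.map ⟨(Sum.inl : ι → ι ⊕ κ), Sum.inl_injective⟩)
    rw [Finset.prod_map] at this
    exact this
  have hQ2 : NL T (∏ a : κ, Jp J mu (em (Sum.inr a) : Option ι ⊕ Option κ)) := by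
    have := NL_prod hT J mu (Finset.univ.map ⟨(Sum.inr : κ → ι ⊕ κ), Sum.inr_injective⟩)
    rw [Finset.prod_map] at this
    exact this
  have h3 : (C c * ∏ a : Option ι, Jp J th (Sum.inl a : Option ι ⊕ Option κ)) *
        (C c' * ∏ a : Option κ, Jp J mu (Sum.inr a : Option ι ⊕ Option κ))
      = C (c * c') * ((∏ a : ι, Jp J th (em (Sum.inl a) : Option ι ⊕ Option κ)) *
        ((∏ a : κ, Jp J mu (em (Sum.inr a) : Option ι ⊕ Option κ)) *
          (Jp J th (Sum.inl none) * Jp J mu (Sum.inr none)))) := by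
    rw [h1, h2, C_mul]
    ring
  rw [h3, hT.C_mul, hQ1, hQ2, map_mul (eps K ι κ), map_mul (eps K ι κ), map_mul (eps K ι κ),
    eps_C, eps_prod_inl, eps_prod_inr]
  ring

theorem coeff_glue (J : Fam) (N : ℕ) :
    PowerSeries.coeff N (glue J ι κ) = ∑ p ∈ Finset.HasAntidiagonal.antidiagonal N,
      ∑ th : p.1.Partition, ∑ mu : p.2.Partition,
        (C (jn J th)⁻¹ * ∏ a : Option ι, Jp J th (Sum.inl a)) *
          (C (jn J mu)⁻¹ * ∏ a : Option κ, Jp J mu (Sum.inr a)) := by
  rw [glue, PowerSeries.coeff_mul]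
  refine Finset.sum_congr rfl fun p _ => ?_
  rw [PowerSeries.coeff_map, PowerSeries.coeff_map, coeff_tau, coeff_tau, map_sum, map_sum,
    Finset.sum_mul_sum]
  refine Finset.sum_congr rfl fun th _ => Finset.sum_congr rfl fun mu _ => ?_
  have h1 : (rename (pf Sum.inl) : MvPolynomial (Option ι × ℕ) K →ₐ[K]
      MvPolynomial ((Option ι ⊕ Option κ) × ℕ) K).toRingHom
        (C (jn J th)⁻¹ * ∏ a : Option ι, Jp J th a)
      = C (jn J th)⁻¹ * ∏ a : Option ι, Jp J th (Sum.inl a) := by
    show rename (pf Sum.inl) (C (jn J th)⁻¹ * ∏ a : Option ι, Jp J th a) = _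
    rw [map_mul, rename_C, map_prod]
    congr 1
    exact Finset.prod_congr rfl fun a _ => rename_Jp _ J th a
  have h2 : (rename (pf Sum.inr) : MvPolynomial (Option κ × ℕ) K →ₐ[K]
      MvPolynomial ((Option ι ⊕ Option κ) × ℕ) K).toRingHom
        (C (jn J mu)⁻¹ * ∏ a : Option κ, Jp J mu a)
      = C (jn J mu)⁻¹ * ∏ a : Option κ, Jp J mu (Sum.inr a) := by
    show rename (pf Sum.inr) (C (jn J mu)⁻¹ * ∏ a : Option κ, Jp J mu a) = _
    rw [map_mul, rename_C, map_prod]
    congr 1
    exact Finset.prod_congr rfl fun a _ => rename_Jp _ J mu a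
  rw [h1, h2]

theorem eps_glue (hT : IsWick sw al T) {J : Fam} (hJ : Orth J) :
    PowerSeries.map (eps K ι κ).toRingHom (tt T.toAddMonoidHom (glue J ι κ))
      = PowerSeries.expand 2 two_ne_zero (tau J (ι ⊕ κ)) := by
  ext1 N
  rw [PowerSeries.coeff_map, coeff_tt, coeff_glue]
  show eps K ι κ (T _) = _
  rw [map_sum, map_sum]
  have hterm : ∀ p ∈ Finset.HasAntidiagonal.antidiagonal N, p.1 ≠ p.2 →
      eps K ι κ (T (∑ th : p.1.Partition, ∑ mu : p.2.Partition,
        (C (jn J th)⁻¹ * ∏ a : Option ι, Jp J th (Sum.inl a)) *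
          (C (jn J mu)⁻¹ * ∏ a : Option κ, Jp J mu (Sum.inr a)))) = 0 := by
    intro p _ hp
    rw [map_sum, map_sum]
    refine Finset.sum_eq_zero fun th _ => ?_
    rw [map_sum, map_sum]
    refine Finset.sum_eq_zero fun mu _ => ?_
    rw [term_eq hT, phi_JJ_ne hT J hp, mul_zero]
  rw [PowerSeries.coeff_expand]
  split_ifs with hN
  · obtain ⟨n, rfl⟩ := hN
    rw [Nat.mul_div_cancel_left n (by norm_num : 0 < 2), coeff_tau,
      Finset.sum_eq_single (n, n)]
    · rw [map_sum, map_sum]
      refine Finset.sum_congr rfl fun th _ => ?_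
      rw [map_sum, map_sum, Finset.sum_eq_single th]
      · rw [term_eq hT, phi_JJ hT hJ, if_pos rfl, Fintype.prod_sum_type]
        have h5 : (C (jn J th)⁻¹ : MvPolynomial ((ι ⊕ κ) × ℕ) K)
            = C ((jn J th)⁻¹ * (jn J th)⁻¹) * C (jn J th) := by
          rw [← C_mul]
          congr 1
          by_cases h : jn J th = 0
          · rw [h]
            simp
          · field_simp
        rw [h5]
        ring
      · intro mu _ hmu
        rw [term_eq hT, phi_JJ hT hJ, if_neg (Ne.symm hmu), mul_zero]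
      · intro h
        exact absurd (Finset.mem_univ th) h
    · intro p hp hpn
      refine hterm p hp fun h => hpn ?_
      rw [Finset.HasAntidiagonal.mem_antidiagonal] at hp
      refine Prod.ext ?_ ?_
      · show p.1 = n
        omega
      · show p.2 = n
        omega
    · intro h
      exact absurd (Finset.HasAntidiagonal.mem_antidiagonal.2 (by ring)) h
  · refine Finset.sum_eq_zero fun p hp => hterm p hp fun h => hN ?_
    rw [Finset.HasAntidiagonal.mem_antidiagonal] at hp
    exact ⟨p.1, by omega⟩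

/-- Nothing on the first leg. -/
def badL (bad : ι ⊕ κ → Set (ℕ → ℕ)) : Option ι → Set (ℕ → ℕ)
  | none => ∅
  | some a => bad (Sum.inl a)

/-- Nothing on the second leg. -/
def badR (bad : ι ⊕ κ → Set (ℕ → ℕ)) : Option κ → Set (ℕ → ℕ)
  | none => ∅
  | some a => bad (Sum.inr a)

omit [Fintype ι] [Fintype κ] [DecidableEq ι] [DecidableEq κ] in
theorem badL_up {bad : ι ⊕ κ → Set (ℕ → ℕ)} (hb : UpCl bad) : UpCl (badL bad) := by
  intro a x y hx hxy
  rcases a with _ | a
  · exact hx
  · exact hb _ x y hx hxy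

omit [Fintype ι] [Fintype κ] [DecidableEq ι] [DecidableEq κ] in
theorem badR_up {bad : ι ⊕ κ → Set (ℕ → ℕ)} (hb : UpCl bad) : UpCl (badR bad) := by
  intro a x y hx hxy
  rcases a with _ | a
  · exact hx
  · exact hb _ x y hx hxy

/-- The gluing step. -/
theorem step {J : Fam} (hJ : Orth J) (h0 : Unital J) {S : Subsemiring K} (halS : al ∈ S)
    (hal : al ≠ 0) {bad : ι ⊕ κ → Set (ℕ → ℕ)} (hb : UpCl bad)
    (hf : Fine J S (Option ι) (badL bad) none) (hg : Fine J S (Option κ) (badR bad) none)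
    (a : ι) (ha : Fine J S (Option ι) (badL bad) (some a)) :
    Fine J S (ι ⊕ κ) bad (Sum.inl a) := by
  intro W3 hW3 i n
  obtain ⟨T, hT⟩ := exists_wick (F := K) (L := Option ι ⊕ Option κ) sw_sw al
  obtain ⟨W1, hW1⟩ := IsLog.exists_log al (tau_zero h0 (Option ι))
  obtain ⟨W2, hW2⟩ := IsLog.exists_log al (tau_zero h0 (Option κ))
  set r1 : MvPolynomial (Option ι × ℕ) K →ₐ[K] MvPolynomial ((Option ι ⊕ Option κ) × ℕ) K :=
    rename (pf Sum.inl) with hr1
  set r2 : MvPolynomial (Option κ × ℕ) K →ₐ[K] MvPolynomial ((Option ι ⊕ Option κ) × ℕ) K :=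
    rename (pf Sum.inr) with hr2
  have hL1 := isLog_rename (J := J) (ι' := Option ι ⊕ Option κ) Sum.inl hW1
  have hL2 := isLog_rename (J := J) (ι' := Option ι ⊕ Option κ) Sum.inr hW2
  have hW0 := hL1.mul hL2
  have hone : PowerSeries.coeff 0 (tt T.toAddMonoidHom (glue J ι κ)) = 1 := by
    rw [coeff_tt]
    have h1 : PowerSeries.coeff 0 (glue J ι κ) = 1 := hW0.one
    rw [h1]
    exact hT.one
  obtain ⟨W, hW⟩ := IsLog.exists_log al hone
  have hE := hW.map (eps K ι κ).toRingHom
  rw [eps_glue hT hJ] at hE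
  have hC : (eps K ι κ).toRingHom (C al) = C al := eps_C al
  rw [hC] at hE
  have huniq := (hW3.expand 2 two_ne_zero).unique hE
  have hcoef : PowerSeries.coeff n W3 = eps K ι κ (PowerSeries.coeff (2 * n) W) := by
    have h1 := congrArg (PowerSeries.coeff (2 * n)) huniq
    rw [PowerSeries.coeff_expand_mul, PowerSeries.coeff_map] at h1
    exact h1
  rw [hcoef]
  show (C (i : K) * pderiv (Sum.inl a, i) (eps K ι κ (PowerSeries.coeff (2 * n) W))) ∈
    SS S (gb bad) (gb_add hb)
  have h2 : (C (i : K) * pderiv (Sum.inl a, i) (eps K ι κ (PowerSeries.coeff (2 * n) W)))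
      = eps K ι κ (C (i : K) * pderiv (em (Sum.inl a), i) (PowerSeries.coeff (2 * n) W)) := by
    rw [map_mul, eps_C, pderiv_eps]
  rw [h2]
  refine eps_mem hb ?_
  have hd1 : ∀ (b : Option ι) (i j : ℕ), pderiv ((Sum.inl b : Option ι ⊕ Option κ), i)
      (r1 (PowerSeries.coeff j W1)) = r1 (pderiv (b, i) (PowerSeries.coeff j W1)) :=
    fun b i j => pderiv_rename (pf_inj Sum.inl_injective) (x := (b, i)) _
  have hd2 : ∀ (b : Option κ) (i j : ℕ), pderiv ((Sum.inr b : Option ι ⊕ Option κ), i)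
      (r2 (PowerSeries.coeff j W2)) = r2 (pderiv (b, i) (PowerSeries.coeff j W2)) :=
    fun b i j => pderiv_rename (pf_inj Sum.inr_injective) (x := (b, i)) _
  have hd3 : ∀ (b : Option ι) (i j : ℕ), pderiv ((Sum.inl b : Option ι ⊕ Option κ), i)
      (r2 (PowerSeries.coeff j W2)) = 0 := by
    intro b i j
    refine pderiv_rename_zero _ _ (fun u hu => ?_) _
    have := (Prod.ext_iff.1 hu).1
    exact absurd this (by simp [pf])
  have hd4 : ∀ (b : Option κ) (i j : ℕ), pderiv ((Sum.inr b : Option ι ⊕ Option κ), i)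
      (r1 (PowerSeries.coeff j W1)) = 0 := by
    intro b i j
    refine pderiv_rename_zero _ _ (fun u hu => ?_) _
    have := (Prod.ext_iff.1 hu).1
    exact absurd this (by simp [pf])
  have hW0c : ∀ j, PowerSeries.coeff j
      (PowerSeries.map r1.toRingHom W1 + PowerSeries.map r2.toRingHom W2)
      = r1 (PowerSeries.coeff j W1) + r2 (PowerSeries.coeff j W2) := by
    intro j
    rw [map_add, PowerSeries.coeff_map, PowerSeries.coeff_map]
    rfl
  have hmem1 : ∀ (b : Option ι) (i j : ℕ), Fine J S (Option ι) (badL bad) b →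
      C (i : K) * pderiv ((Sum.inl b : Option ι ⊕ Option κ), i) (PowerSeries.coeff j
        (PowerSeries.map r1.toRingHom W1 + PowerSeries.map r2.toRingHom W2)) ∈
        SS S (gb (lift bad)) (gb_add (lift_up hb)) := by
    intro b i j hF
    rw [hW0c, map_add, hd1, hd3, add_zero]
    have h3 : (C (i : K) * r1 (pderiv (b, i) (PowerSeries.coeff j W1)))
        = rename (pf Sum.inl) (C (i : K) * pderiv (b, i) (PowerSeries.coeff j W1)) := by
      rw [map_mul, rename_C]
    rw [h3]
    refine rename_mem Sum.inl_injective (badL_up hb) (lift_up hb) ?_ (hF W1 hW1 i j)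
    intro c
    rcases c with _ | c
    · exact Set.Subset.rfl
    · exact Set.Subset.rfl
  have hmem2 : ∀ (b : Option κ) (i j : ℕ), Fine J S (Option κ) (badR bad) b →
      C (i : K) * pderiv ((Sum.inr b : Option ι ⊕ Option κ), i) (PowerSeries.coeff j
        (PowerSeries.map r1.toRingHom W1 + PowerSeries.map r2.toRingHom W2)) ∈
        SS S (gb (lift bad)) (gb_add (lift_up hb)) := by
    intro b i j hF
    rw [hW0c, map_add, hd2, hd4, zero_add]
    have h3 : (C (i : K) * r2 (pderiv (b, i) (PowerSeries.coeff j W2)))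
        = rename (pf Sum.inr) (C (i : K) * pderiv (b, i) (PowerSeries.coeff j W2)) := by
      rw [map_mul, rename_C]
    rw [h3]
    refine rename_mem Sum.inr_injective (badR_up hb) (lift_up hb) ?_ (hF W2 hW2 i j)
    intro c
    rcases c with _ | c
    · exact Set.Subset.rfl
    · exact Set.Subset.rfl
  refine core hT sw_sw hal halS (gb_filter ?_) hW0 hW ?_ _ _ ?_ _
  · intro b hb'
    rcases b with (_ | b) | (_ | b)
    · rfl
    · exact absurd rfl hb'
    · rfl
    · exact absurd rfl hb'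
  · rintro ⟨b, i⟩ hv j
    rcases b with (_ | b) | (_ | b)
    · exact hmem1 none i j hf
    · exact absurd rfl hv
    · exact hmem2 none i j hg
    · exact absurd rfl hv
  · intro j
    exact hmem1 (some a) i j ha

end Glue

end Pool.Agent.JackB
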