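import Pool.Agent.Lib.JackB.Lax2
import Pool.Agent.Lib.JackB.Pair
import Pool.Agent.Lib.JackB.Calc

/-!
Triangularity of the Lax operator conjugated by an exponential of a linear form in the power sums
(problem MP_b52a9f_co).
-/

open MvPolynomial

namespace Pool.Agent.JackB

theorem mem_of_closure {G H : Type*} [AddCommGroup G] [AddCommGroup H] (T : G → H)
    (hT : ∀ x y, T (x + y) = T x + T y) {s : Set G}
    {K : AddSubgroup H} (h : ∀ x ∈ s, T x ∈ K) {x : G} (hx : x ∈ AddSubgroup.closure s) :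
    T x ∈ K := by
  have h0 : T 0 = 0 := by
    have := hT 0 0
    rw [add_zero] at this
    exact left_eq_add.1 this
  refine (AddSubgroup.closure_le (K.comap (⟨⟨T, h0⟩, hT⟩ : G →+ H))).2 h hx

section TL

variable {F : Type*} [Field F] {A B D : Type*} [CommRing A] [CommRing B] [CommRing D]
  [Algebra F A] [Algebra F B] [Algebra F D]

/-- Coefficientwise linear map. -/
noncomputable def tl (T : A →ₗ[F] B) : PowerSeries A →+ PowerSeries B where
  toFun G := PowerSeries.mk fun n => T (PowerSeries.coeff n G)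
  map_zero' := by
    ext1 n
    rw [PowerSeries.coeff_mk, map_zero, map_zero, map_zero]
  map_add' G H := by
    ext1 n
    rw [PowerSeries.coeff_mk, map_add, map_add, map_add, PowerSeries.coeff_mk,
      PowerSeries.coeff_mk]

theorem coeff_tl (T : A →ₗ[F] B) (n : ℕ) (G : PowerSeries A) :
    PowerSeries.coeff n (tl T G) = T (PowerSeries.coeff n G) :=
  PowerSeries.coeff_mk n fun n => T (PowerSeries.coeff n G)

theorem tl_tl (S : B →ₗ[F] D) (T : A →ₗ[F] B) (G : PowerSeries A) :
    tl S (tl T G) = tl (S ∘ₗ T) G := by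
  ext1 n
  rw [coeff_tl, coeff_tl, coeff_tl, LinearMap.comp_apply]

theorem tl_monomial (T : A →ₗ[F] B) (n : ℕ) (u : A) :
    tl T (PowerSeries.monomial n u) = PowerSeries.monomial n (T u) := by
  ext1 m
  rw [coeff_tl, PowerSeries.coeff_monomial, PowerSeries.coeff_monomial]
  split_ifs
  · rfl
  · exact map_zero T

end TL

section Mono

variable {A : Type*} [CommRing A]

theorem monomial_eq (i : ℕ) (u : A) :
    PowerSeries.monomial i u = PowerSeries.C u * PowerSeries.X ^ i := by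
  rw [PowerSeries.X_pow_eq, ← PowerSeries.monomial_zero_eq_C_apply,
    PowerSeries.monomial_mul_monomial, zero_add, mul_one]

theorem coeff_monomial_mul (i n : ℕ) (u : A) (G : PowerSeries A) :
    PowerSeries.coeff n (PowerSeries.monomial i u * G)
      = if i ≤ n then u * PowerSeries.coeff (n - i) G else 0 := by
  rw [monomial_eq, mul_assoc, PowerSeries.coeff_C_mul, PowerSeries.coeff_X_pow_mul']
  split_ifs
  · rfl
  · exact mul_zero u

end Mono

section Tri

variable {F : Type*} [Field F] {L : Type*}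

/-- Polynomials in the power sums of degree `D` with coefficients in `S`. -/
noncomputable def HA (S : Subring F) (a : L) (D : ℕ) : AddSubgroup (AA F L) :=
  AddSubgroup.closure {f | ∃ s ∈ S, ∃ lam : Multiset ℕ, (∀ i ∈ lam, 1 ≤ i) ∧ lam.sum = D ∧
    f = C s * pm F a lam}

/-- Elements of `V` of degree `D` with coefficients in `S`. -/
noncomputable def HV (S : Subring F) (a : L) (D : ℕ) : AddSubgroup (VV F L) :=
  AddSubgroup.closure {u | ∃ k D', D' + k = D ∧ ∃ f ∈ HA S a D', u = mo k f}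

variable {S : Subring F} {a : L}

theorem HA_gen {s : F} (hs : s ∈ S) {lam : Multiset ℕ} (hl : ∀ i ∈ lam, 1 ≤ i) {D : ℕ}
    (hD : lam.sum = D) : C s * pm F a lam ∈ HA S a D :=
  AddSubgroup.subset_closure ⟨s, hs, lam, hl, hD, rfl⟩

theorem HV_gen {k D D' : ℕ} (h : D' + k = D) {f : AA F L} (hf : f ∈ HA S a D') :
    mo k f ∈ HV S a D :=
  AddSubgroup.subset_closure ⟨k, D', h, f, hf, rfl⟩

theorem C_mul_HA {s : F} (hs : s ∈ S) {D : ℕ} {f : AA F L} (hf : f ∈ HA S a D) :
    C s * f ∈ HA S a D := by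
  refine mem_of_closure (fun x => C s * x) (fun x y => mul_add _ _ _) ?_ hf
  rintro x ⟨s', hs', lam, hl, hD, rfl⟩
  show C s * (C s' * pm F a lam) ∈ HA S a D
  rw [← mul_assoc, ← C_mul]
  exact HA_gen (S.mul_mem hs hs') hl hD

theorem X_mul_HA {i : ℕ} (hi : 1 ≤ i) {D : ℕ} {f : AA F L} (hf : f ∈ HA S a D) :
    X (a, i) * f ∈ HA S a (D + i) := by
  refine mem_of_closure (fun x => X (a, i) * x) (fun x y => mul_add _ _ _) ?_ hf
  rintro x ⟨s', hs', lam, hl, hD, rfl⟩
  show X (a, i) * (C s' * pm F a lam) ∈ HA S a (D + i)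
  rw [mul_left_comm, ← pm_cons]
  refine HA_gen hs' ?_ ?_
  · intro j hj
    rcases Multiset.mem_cons.1 hj with h | h
    · rw [h]
      exact hi
    · exact hl j h
  · rw [Multiset.sum_cons, hD, add_comm]

theorem smul_HV {s : F} (hs : s ∈ S) {D : ℕ} {u : VV F L} (hu : u ∈ HV S a D) :
    s • u ∈ HV S a D := by
  refine mem_of_closure (fun x => s • x) (fun x y => smul_add _ _ _) ?_ hu
  rintro x ⟨k, D', hk, f, hf, rfl⟩
  show s • mo k f ∈ HV S a D
  rw [← map_smul, smul_eq_C_mul]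
  exact HV_gen hk (C_mul_HA hs hf)

theorem CX_mul_HV {i : ℕ} (hi : 1 ≤ i) {D : ℕ} {u : VV F L} (hu : u ∈ HV S a D) :
    Polynomial.C (X (a, i)) * u ∈ HV S a (D + i) := by
  refine mem_of_closure (fun x => Polynomial.C (X (a, i)) * x) (fun x y => mul_add _ _ _) ?_ hu
  rintro x ⟨k, D', hk, f, hf, rfl⟩
  show Polynomial.C (X (a, i)) * mo k f ∈ HV S a (D + i)
  rw [C_mul_mo]
  exact HV_gen (by omega) (X_mul_HA hi hf)

theorem Xpow_mul_HV (i : ℕ) {D : ℕ} {u : VV F L} (hu : u ∈ HV S a D) :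
    Polynomial.X ^ i * u ∈ HV S a (D + i) := by
  refine mem_of_closure (fun x => Polynomial.X ^ i * x) (fun x y => mul_add _ _ _) ?_ hu
  rintro x ⟨k, D', hk, f, hf, rfl⟩
  show Polynomial.X ^ i * mo k f ∈ HV S a (D + i)
  rw [X_pow_mul_mo]
  exact HV_gen (by omega) hf

theorem co_zero_HV {D : ℕ} {u : VV F L} (hu : u ∈ HV S a D) : co 0 u ∈ HA S a D := by
  refine mem_of_closure (fun x => co 0 x) (fun x y => map_add _ _ _) ?_ hu
  rintro x ⟨k, D', hk, f, hf, rfl⟩
  show co 0 (mo k f) ∈ HA S a D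
  rw [co_mo]
  split_ifs with h
  · have : D' = D := by omega
    rw [← this]
    exact hf
  · exact (HA S a D).zero_mem

variable [DecidableEq L] {al b : F}

theorem Md_HA (hal : al ∈ S) {D : ℕ} {f : AA F L} (hf : f ∈ HA S a D) :
    Md al a f ∈ HV S a D := by
  have h1 : ∀ lam : Multiset ℕ, (∀ i ∈ lam, 1 ≤ i) → Md al a (pm F a lam) ∈ HV S a lam.sum := by
    intro lam
    induction lam using Multiset.induction_on with
    | empty =>
      intro _
      rw [pm_zero, Derivation.map_one_eq_zero]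
      exact AddSubgroup.zero_mem _
    | cons i lam ih =>
      intro hl
      have h2 := ih fun j hj => hl j (Multiset.mem_cons_of_mem hj)
      have hi := hl i (Multiset.mem_cons_self i lam)
      rw [pm_cons, Derivation.leibniz, Md_X, Multiset.sum_cons, smul_comm]
      refine AddSubgroup.add_mem _ ?_ ?_
      · rw [Polynomial.smul_eq_C_mul, add_comm i]
        exact CX_mul_HV hi h2
      · refine smul_HV (S.mul_mem hal (natCast_mem S i)) ?_
        rw [Polynomial.smul_eq_C_mul, Polynomial.C_mul_X_pow_eq_monomial, ← mo_apply]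
        refine HV_gen (add_comm _ _) ?_
        rw [← one_mul (pm F a lam), ← C_1]
        exact HA_gen S.one_mem (fun j hj => hl j (Multiset.mem_cons_of_mem hj)) rfl
  refine mem_of_closure (fun x => Md al a x) (fun x y => map_add _ _ _) ?_ hf
  rintro x ⟨s', hs', lam, hl, hD, rfl⟩
  show Md al a (C s' * pm F a lam) ∈ HV S a D
  rw [← smul_eq_C_mul, Derivation.map_smul, ← hD]
  exact smul_HV hs' (h1 lam hl)

theorem LX_HV (hal : al ∈ S) (hb : b ∈ S) {D : ℕ} {u : VV F L} (hu : u ∈ HV S a D) :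
    LX al b a u ∈ HV S a D := by
  refine mem_of_closure (fun x => LX al b a x) (fun x y => map_add _ _ _) ?_ hu
  rintro x ⟨k, D', hk, f, hf, rfl⟩
  show LX al b a (mo k f) ∈ HV S a D
  rw [LX_mo]
  refine AddSubgroup.add_mem _ (AddSubgroup.add_mem _ ?_ ?_) ?_
  · rw [← hk]
    exact Xpow_mul_HV k (Md_HA hal hf)
  · exact smul_HV (S.mul_mem hb (natCast_mem S k)) (HV_gen hk hf)
  · refine AddSubgroup.sum_mem _ fun j hj => ?_
    rw [Finset.mem_range] at hj
    exact HV_gen (D' := D' + (j + 1)) (by omega) (X_mul_HA (Nat.le_add_left 1 j) hf)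

end Tri

section Fil

variable {F : Type*} [Field F] {L : Type*}

/-- The product of the parameters. -/
noncomputable def rr (r : ℕ → AA F L) (nu : Multiset ℕ) : AA F L := (nu.map r).prod

/-- The rank of a multiset. -/
def rk (nu : Multiset ℕ) : ℕ := (nu.map fun i => i - 1).sum

theorem rr_cons (r : ℕ → AA F L) (i : ℕ) (nu : Multiset ℕ) :
    rr r (i ::ₘ nu) = r i * rr r nu := by
  simp [rr]

theorem rk_cons (i : ℕ) (nu : Multiset ℕ) : rk (i ::ₘ nu) = (i - 1) + rk nu := by
  simp [rk]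

/-- The filtration on the series over `A`. -/
noncomputable def FA (S : Subring F) (a : L) (r : ℕ → AA F L) (N w : ℕ) :
    AddSubgroup (PowerSeries (AA F L)) :=
  AddSubgroup.closure {G | ∃ nu D, D + 2 * N ≤ w + 2 * rk nu ∧ ∃ f ∈ HA S a D,
    G = PowerSeries.monomial D (rr r nu * f)}

/-- The filtration on the series over `V`. -/
noncomputable def FV (S : Subring F) (a : L) (r : ℕ → AA F L) (N w : ℕ) :
    AddSubgroup (PowerSeries (VV F L)) :=
  AddSubgroup.closure {G | ∃ nu D, D + 2 * N ≤ w + 2 * rk nu ∧ ∃ u ∈ HV S a D,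
    G = PowerSeries.monomial D (Polynomial.C (rr r nu) * u)}

variable {S : Subring F} {a : L} {r : ℕ → AA F L} {N : ℕ}

theorem FA_gen {nu : Multiset ℕ} {D w : ℕ} (h : D + 2 * N ≤ w + 2 * rk nu) {f : AA F L}
    (hf : f ∈ HA S a D) : PowerSeries.monomial D (rr r nu * f) ∈ FA S a r N w :=
  AddSubgroup.subset_closure ⟨nu, D, h, f, hf, rfl⟩

theorem FV_gen {nu : Multiset ℕ} {D w : ℕ} (h : D + 2 * N ≤ w + 2 * rk nu) {u : VV F L}
    (hu : u ∈ HV S a D) :
    PowerSeries.monomial D (Polynomial.C (rr r nu) * u) ∈ FV S a r N w :=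
  AddSubgroup.subset_closure ⟨nu, D, h, u, hu, rfl⟩

theorem FA_mono {w w' : ℕ} (h : w ≤ w') : FA S a r N w ≤ FA S a r N w' := by
  refine (AddSubgroup.closure_le _).2 ?_
  rintro x ⟨nu, D, hD, f, hf, rfl⟩
  exact FA_gen (by omega) hf

theorem FV_mono {w w' : ℕ} (h : w ≤ w') : FV S a r N w ≤ FV S a r N w' := by
  refine (AddSubgroup.closure_le _).2 ?_
  rintro x ⟨nu, D, hD, f, hf, rfl⟩
  exact FV_gen (by omega) hf

theorem mo_FA {w : ℕ} {G : PowerSeries (AA F L)} (hG : G ∈ FA S a r N w) :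
    tl (mo 0) G ∈ FV S a r N w := by
  refine mem_of_closure (fun x => tl (mo 0) x) (fun x y => map_add _ _ _) ?_ hG
  rintro x ⟨nu, D, hD, f, hf, rfl⟩
  show tl (mo 0) (PowerSeries.monomial D (rr r nu * f)) ∈ FV S a r N w
  rw [tl_monomial, ← C_mul_mo]
  exact FV_gen hD (HV_gen (add_zero D) hf)

/-- The series `t Y`. -/
noncomputable def T1 (F L : Type*) [Field F] : PowerSeries (VV F L) :=
  PowerSeries.monomial 1 (mo 1 1)

/-- The series `∑ t ^ i r_i Y ^ i`. -/
noncomputable def YY (r : ℕ → AA F L) : PowerSeries (VV F L) :=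
  PowerSeries.mk fun i => mo i (r i)

theorem YY_eq (hN : ∀ i, N < i → r i = 0) :
    YY r = ∑ i ∈ Finset.range (N + 1), PowerSeries.monomial i (mo i (r i)) := by
  ext1 n
  rw [YY, PowerSeries.coeff_mk, map_sum]
  simp only [PowerSeries.coeff_monomial]
  rw [Finset.sum_ite_eq]
  split_ifs with h
  · rfl
  · rw [Finset.mem_range] at h
    rw [hN n (by omega), map_zero]

theorem mono_mul_gen (i D : ℕ) (nu : Multiset ℕ) (g : AA F L) (u : VV F L) :
    PowerSeries.monomial i (mo i g) * PowerSeries.monomial D (Polynomial.C (rr r nu) * u)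
      = PowerSeries.monomial (D + i) (Polynomial.C (g * rr r nu) * (Polynomial.X ^ i * u)) := by
  rw [PowerSeries.monomial_mul_monomial, add_comm i D, mo_apply,
    ← Polynomial.C_mul_X_pow_eq_monomial, Polynomial.C_mul]
  refine congrArg _ ?_
  ring

theorem T1_pow (i : ℕ) : T1 F L ^ i = PowerSeries.monomial i (mo i 1) := by
  induction i with
  | zero =>
    rw [pow_zero, PowerSeries.monomial_zero_eq_C_apply, mo_apply, Polynomial.monomial_zero_one,
      map_one]
  | succ i ih =>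
    rw [pow_succ, ih, T1, PowerSeries.monomial_mul_monomial, mo_apply, mo_apply, mo_apply,
      Polynomial.monomial_mul_monomial, one_mul]

theorem T1_FV {w : ℕ} {G : PowerSeries (VV F L)} (hG : G ∈ FV S a r N w) :
    T1 F L * G ∈ FV S a r N (w + 1) := by
  refine mem_of_closure (fun x => T1 F L * x) (fun x y => mul_add _ _ _) ?_ hG
  rintro x ⟨nu, D, hD, u, hu, rfl⟩
  show T1 F L * _ ∈ FV S a r N (w + 1)
  rw [T1, mono_mul_gen, one_mul]
  exact FV_gen (by omega) (Xpow_mul_HV 1 hu)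

variable [DecidableEq L]

/-- The Lax operator conjugated by an exponential. -/
noncomputable def LXs (al b : F) (a : L) (r : ℕ → AA F L) :
    PowerSeries (VV F L) →+ PowerSeries (VV F L) :=
  tl (LX al b a) + AddMonoidHom.mulLeft (YY r)

theorem LXs_apply (al b : F) (a : L) (r : ℕ → AA F L) (G : PowerSeries (VV F L)) :
    LXs al b a r G = tl (LX al b a) G + YY r * G := rfl

variable {al b : F}

theorem Md_rr (hr : ∀ i, Md al a (r i) = 0) (nu : Multiset ℕ) : Md al a (rr r nu) = 0 := by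
  induction nu using Multiset.induction_on with
  | empty =>
    rw [rr, Multiset.map_zero, Multiset.prod_zero, Derivation.map_one_eq_zero]
  | cons i nu ih => rw [rr_cons, Derivation.leibniz, ih, hr, smul_zero, smul_zero, add_zero]

theorem LX_C_rr (hr : ∀ i, Md al a (r i) = 0) (nu : Multiset ℕ) (u : VV F L) :
    LX al b a (Polynomial.C (rr r nu) * u) = Polynomial.C (rr r nu) * LX al b a u := by
  rw [LX_C_mul, Md_rr hr, zero_mul, add_zero]

theorem LXs_FV (hal : al ∈ S) (hb : b ∈ S) (hr : ∀ i, Md al a (r i) = 0) (h0 : r 0 = 0)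
    (h1 : r 1 = 1) (hN : ∀ i, N < i → r i = 0) (hN1 : 1 ≤ N) {w : ℕ}
    {G : PowerSeries (VV F L)} (hG : G ∈ FV S a r N w) :
    LXs al b a r G - T1 F L * G ∈ FV S a r N w := by
  refine mem_of_closure (fun x => LXs al b a r x - T1 F L * x) (fun x y => ?_) ?_ hG
  · rw [map_add, mul_add]
    abel
  rintro x ⟨nu, D, hD, u, hu, rfl⟩
  show LXs al b a r _ - T1 F L * _ ∈ FV S a r N w
  rw [LXs_apply, add_sub_assoc, ← sub_mul]
  refine AddSubgroup.add_mem _ ?_ ?_
  · rw [tl_monomial, LX_C_rr hr]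
    exact FV_gen hD (LX_HV hal hb hu)
  · have h2 : YY r - T1 F L
        = ∑ i ∈ (Finset.range (N + 1)).erase 1, PowerSeries.monomial i (mo i (r i)) := by
      rw [Finset.sum_erase_eq_sub (Finset.mem_range.2 (by omega)), YY_eq hN, h1]
      rfl
    rw [h2, Finset.sum_mul]
    refine AddSubgroup.sum_mem _ fun i hi => ?_
    rw [Finset.mem_erase] at hi
    rw [mono_mul_gen, ← rr_cons]
    rcases Nat.eq_zero_or_pos i with rfl | hi0
    · rw [rr_cons, h0, zero_mul, map_zero, zero_mul, map_zero]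
      exact AddSubgroup.zero_mem _
    · refine FV_gen ?_ (Xpow_mul_HV i hu)
      rw [rk_cons]
      have := hi.1
      omega

theorem LXs_FV' (hal : al ∈ S) (hb : b ∈ S) (hr : ∀ i, Md al a (r i) = 0) (h0 : r 0 = 0)
    (h1 : r 1 = 1) (hN : ∀ i, N < i → r i = 0) (hN1 : 1 ≤ N) {w : ℕ}
    {G : PowerSeries (VV F L)} (hG : G ∈ FV S a r N w) :
    LXs al b a r G ∈ FV S a r N (w + 1) := by
  have h2 := AddSubgroup.add_mem _ (FV_mono (Nat.le_add_right w 1)
    (LXs_FV hal hb hr h0 h1 hN hN1 hG)) (T1_FV hG)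
  rwa [sub_add_cancel] at h2

theorem LXs_iter (hal : al ∈ S) (hb : b ∈ S) (hr : ∀ i, Md al a (r i) = 0) (h0 : r 0 = 0)
    (h1 : r 1 = 1) (hN : ∀ i, N < i → r i = 0) (hN1 : 1 ≤ N) {w : ℕ}
    {G : PowerSeries (VV F L)} (hG : G ∈ FV S a r N w) (j : ℕ) :
    (LXs al b a r)^[j] G ∈ FV S a r N (w + j) ∧ T1 F L ^ j * G ∈ FV S a r N (w + j) ∧
    (LXs al b a r)^[j + 1] G - T1 F L ^ (j + 1) * G ∈ FV S a r N (w + j) := by
  induction j with
  | zero =>
    refine ⟨hG, ?_, ?_⟩
    · rw [pow_zero, one_mul]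
      exact hG
    · rw [zero_add, pow_one]
      exact LXs_FV hal hb hr h0 h1 hN hN1 hG
  | succ j ih =>
    obtain ⟨ih1, ih2, ih3⟩ := ih
    have h2 : T1 F L ^ (j + 1) * G ∈ FV S a r N (w + (j + 1)) := by
      rw [pow_succ', mul_assoc]
      exact T1_FV ih2
    refine ⟨?_, h2, ?_⟩
    · rw [Function.iterate_succ_apply']
      exact LXs_FV' hal hb hr h0 h1 hN hN1 ih1
    · rw [Function.iterate_succ_apply', pow_succ' (T1 F L) (j + 1), mul_assoc]
      have h3 : LXs al b a r ((LXs al b a r)^[j + 1] G) - T1 F L * (T1 F L ^ (j + 1) * G)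
          = LXs al b a r ((LXs al b a r)^[j + 1] G - T1 F L ^ (j + 1) * G) +
            (LXs al b a r (T1 F L ^ (j + 1) * G) - T1 F L * (T1 F L ^ (j + 1) * G)) := by
        rw [map_sub]
        abel
      rw [h3]
      exact AddSubgroup.add_mem _ (LXs_FV' hal hb hr h0 h1 hN hN1 ih3)
        (LXs_FV hal hb hr h0 h1 hN hN1 h2)

/-- The operators `h_i` conjugated by an exponential. -/
noncomputable def hks (al b : F) (a : L) (r : ℕ → AA F L) (i : ℕ)
    (G : PowerSeries (AA F L)) : PowerSeries (AA F L) :=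
  tl (co 0) ((LXs al b a r)^[i] (tl (mo 0) G))

theorem co_LX_FV (hal : al ∈ S) (hb : b ∈ S) (hr : ∀ i, Md al a (r i) = 0) {w : ℕ}
    {G : PowerSeries (VV F L)} (hG : G ∈ FV S a r N w) :
    tl (co 0) (tl (LX al b a) G) ∈ FA S a r N w := by
  refine mem_of_closure (fun x => tl (co 0) (tl (LX al b a) x)) (fun x y => ?_) ?_ hG
  · rw [map_add, map_add]
  rintro x ⟨nu, D, hD, u, hu, rfl⟩
  show tl (co 0) (tl (LX al b a) _) ∈ FA S a r N w
  rw [tl_monomial, LX_C_rr hr, tl_monomial]
  have h1 : co 0 (Polynomial.C (rr r nu) * LX al b a u) = rr r nu * co 0 (LX al b a u) := by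
    rw [co_apply, Polynomial.coeff_C_mul]
    rfl
  rw [h1]
  exact FA_gen hD (co_zero_HV (LX_HV hal hb hu))

omit [DecidableEq L] in
theorem co_YY (h0 : r 0 = 0) (G : PowerSeries (VV F L)) : tl (co 0) (YY r * G) = 0 := by
  ext1 n
  rw [coeff_tl, PowerSeries.coeff_mul, map_sum, map_zero]
  refine Finset.sum_eq_zero fun p _ => ?_
  rw [YY, PowerSeries.coeff_mk, co_apply, mo_apply, Polynomial.mul_coeff_zero,
    Polynomial.coeff_monomial]
  split_ifs with h
  · rw [h, h0, zero_mul]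
  · rw [zero_mul]

theorem hks_FA (hal : al ∈ S) (hb : b ∈ S) (hr : ∀ i, Md al a (r i) = 0) (h0 : r 0 = 0)
    (h1 : r 1 = 1) (hN : ∀ i, N < i → r i = 0) (hN1 : 1 ≤ N) {w : ℕ}
    {G : PowerSeries (AA F L)} (hG : G ∈ FA S a r N w) (i : ℕ) :
    hks al b a r (i + 2) G - PowerSeries.monomial (i + 1) (X (a, i + 1)) * G
      ∈ FA S a r N (w + i) := by
  obtain ⟨_, _, h2⟩ := LXs_iter hal hb hr h0 h1 hN hN1 (mo_FA hG) i
  have h3 := co_LX_FV hal hb hr h2
  have h4 : hks al b a r (i + 2) G = tl (co 0) (tl (LX al b a)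
      ((LXs al b a r)^[i + 1] (tl (mo 0) G))) := by
    rw [hks, Function.iterate_succ_apply', LXs_apply, map_add, co_YY h0, add_zero]
  have h5 : PowerSeries.monomial (i + 1) (X (a, i + 1)) * G
      = tl (co 0) (tl (LX al b a) (T1 F L ^ (i + 1) * tl (mo 0) G)) := by
    rw [T1_pow]
    ext1 n
    rw [coeff_tl, coeff_tl, coeff_monomial_mul, coeff_monomial_mul]
    split_ifs with h
    · rw [coeff_tl]
      have h6 : (mo (i + 1) 1 * mo 0 (PowerSeries.coeff (n - (i + 1)) G) : VV F L)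
          = mo (i + 1) (PowerSeries.coeff (n - (i + 1)) G) := by
        rw [mo_apply, mo_apply, mo_apply, Polynomial.monomial_mul_monomial, one_mul, add_zero]
      rw [h6, co_zero_LX, Ym_mo_succ, Th1_mo]
    · rw [map_zero, map_zero]
  rw [h4, h5, ← map_sub, ← map_sub]
  exact h3

/-- The triangularity theorem over `A`. -/
theorem triA (hal : al ∈ S) (hb : b ∈ S) (hr : ∀ i, Md al a (r i) = 0) (h0 : r 0 = 0)
    (h1 : r 1 = 1) (hN : ∀ i, N < i → r i = 0) (hN1 : 1 ≤ N)
    (P : AddSubgroup (PowerSeries (AA F L)))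
    (hP1 : ∀ s ∈ S, ∀ nu, PowerSeries.monomial 0 (rr r nu * C s) ∈ P)
    (hP2 : ∀ i, ∀ G ∈ P, hks al b a r (i + 2) G ∈ P)
    (hP3 : ∀ nu D f, N ≤ rk nu → f ∈ HA S a D → PowerSeries.monomial D (rr r nu * f) ∈ P)
    (w : ℕ) : FA S a r N w ≤ P := by
  induction w using Nat.strong_induction_on with
  | _ w ih =>
    refine (AddSubgroup.closure_le _).2 ?_
    rintro x ⟨nu, D, hD, f, hf, rfl⟩
    refine mem_of_closure (fun f => PowerSeries.monomial D (rr r nu * f)) (fun x y => ?_) ?_ hf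
    · rw [mul_add, map_add]
    rintro f ⟨s, hs, lam, hl, hlD, rfl⟩
    show PowerSeries.monomial D (rr r nu * (C s * pm F a lam)) ∈ P
    by_cases hk : N ≤ rk nu
    · exact hP3 nu D _ hk (HA_gen hs hl hlD)
    · induction lam using Multiset.induction_on with
      | empty =>
        rw [Multiset.sum_zero] at hlD
        rw [← hlD, pm_zero, mul_one]
        exact hP1 s hs nu
      | cons i lam _ =>
        obtain ⟨i, rfl⟩ := Nat.exists_eq_add_of_le' (hl i (Multiset.mem_cons_self i lam))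
        have hl' : ∀ j ∈ lam, 1 ≤ j := fun j hj => hl j (Multiset.mem_cons_of_mem hj)
        rw [Multiset.sum_cons] at hlD
        have hG : PowerSeries.monomial lam.sum (rr r nu * (C s * pm F a lam))
            ∈ FA S a r N (w - (i + 1)) := FA_gen (by omega) (HA_gen hs hl' rfl)
        have h2 := hks_FA hal hb hr h0 h1 hN hN1 hG i
        have h3 := hP2 i _ (ih (w - (i + 1)) (by omega) hG)
        have h4 := ih (w - (i + 1) + i) (by omega) h2
        have h5 := P.sub_mem h3 h4
        rw [sub_sub_cancel, PowerSeries.monomial_mul_monomial] at h5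
        have h6 : X (a, i + 1) * (rr r nu * (C s * pm F a lam))
            = rr r nu * (C s * pm F a ((i + 1) ::ₘ lam)) := by
          rw [pm_cons]
          ring
        rw [h6, hlD] at h5
        exact h5

/-- The triangularity theorem over `V`. -/
theorem triV (hal : al ∈ S) (hb : b ∈ S) (hr : ∀ i, Md al a (r i) = 0) (h0 : r 0 = 0)
    (h1 : r 1 = 1) (hN : ∀ i, N < i → r i = 0) (hN1 : 1 ≤ N)
    (P : AddSubgroup (PowerSeries (VV F L)))
    (hP1 : ∀ w, ∀ G ∈ FA S a r N w, tl (mo 0) G ∈ P)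
    (hP2 : ∀ G ∈ P, LXs al b a r G ∈ P)
    (hP3 : ∀ nu D u, N ≤ rk nu → u ∈ HV S a D →
      PowerSeries.monomial D (Polynomial.C (rr r nu) * u) ∈ P)
    (w : ℕ) : FV S a r N w ≤ P := by
  induction w using Nat.strong_induction_on with
  | _ w ih =>
    refine (AddSubgroup.closure_le _).2 ?_
    rintro x ⟨nu, D, hD, u, hu, rfl⟩
    refine mem_of_closure (fun u => PowerSeries.monomial D (Polynomial.C (rr r nu) * u))
      (fun x y => ?_) ?_ hu
    · rw [mul_add, map_add]
    rintro u ⟨k, D', hk, f, hf, rfl⟩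
    show PowerSeries.monomial D (Polynomial.C (rr r nu) * mo k f) ∈ P
    by_cases hkn : N ≤ rk nu
    · exact hP3 nu D _ hkn (HV_gen hk hf)
    · cases k with
      | zero =>
        rw [add_zero] at hk
        rw [C_mul_mo, ← hk, ← tl_monomial]
        refine hP1 w _ (FA_gen (by omega) hf)
      | succ k =>
        have hG : PowerSeries.monomial (D' + k) (Polynomial.C (rr r nu) * mo k f)
            ∈ FV S a r N (w - 1) := FV_gen (by omega) (HV_gen rfl hf)
        have h2 := LXs_FV hal hb hr h0 h1 hN hN1 hG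
        have h3 := hP2 _ (ih (w - 1) (by omega) hG)
        have h4 := ih (w - 1) (by omega) h2
        have h5 := P.sub_mem h3 h4
        rw [sub_sub_cancel, T1, mono_mul_gen, one_mul, X_pow_mul_mo, add_assoc, hk,
          add_comm 1 k] at h5
        exact h5

end Fil

end Pool.Agent.JackB
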