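import Pool.Agent.Lib.JackB.Calc

/-!
The Wick operator on a polynomial ring with variables `(a, i)`, `a` an alphabet: alphabets
`a` with `s a ≠ a` (legs) are paired by the involution `s` (problem MP_b52a9f_co).
-/

open MvPolynomial

namespace Pool.Agent.JackB

section Wick

variable {F : Type*} [Field F] {L : Type*} [DecidableEq L]

theorem pderiv_comm' (u v : L × ℕ) (P : MvPolynomial (L × ℕ) F) :
    pderiv u (pderiv v P) = pderiv v (pderiv u P) := by
  ext m
  rw [coeff_pderiv, coeff_pderiv, coeff_pderiv, coeff_pderiv]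
  by_cases h : u = v
  · rw [h]
  · have h1 : (m + Finsupp.single u 1 : L × ℕ →₀ ℕ) v = m v := by
      rw [Finsupp.add_apply, Finsupp.single_apply, if_neg h, add_zero]
    have h2 : (m + Finsupp.single v 1 : L × ℕ →₀ ℕ) u = m u := by
      rw [Finsupp.add_apply, Finsupp.single_apply, if_neg (Ne.symm h), add_zero]
    rw [h1, h2, add_right_comm]
    ring

/-- Weight of a variable: its index for a leg alphabet, zero otherwise. -/
def wt (s : L → L) (v : L × ℕ) : ℕ := if s v.1 = v.1 then 0 else v.2

/-- The partner variable. -/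
def sv (s : L → L) (v : L × ℕ) : L × ℕ := (s v.1, v.2)

omit [DecidableEq L] in
theorem sv_sv {s : L → L} (hs : ∀ a, s (s a) = a) (v : L × ℕ) : sv s (sv s v) = v := by
  simp [sv, hs]

theorem wt_sv {s : L → L} (hs : ∀ a, s (s a) = a) (v : L × ℕ) : wt s (sv s v) = wt s v := by
  simp only [wt, sv, hs]
  by_cases h : s v.1 = v.1
  · rw [if_pos h.symm, if_pos h]
  · rw [if_neg (Ne.symm h), if_neg h]

/-- The operator `X_v + α w_v ∂_{v'}`. -/
noncomputable def Zop (s : L → L) (al : F) (v : L × ℕ) :
    Module.End F (MvPolynomial (L × ℕ) F) :=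
  LinearMap.mulLeft F (X v) + (al * (wt s v : F)) • (pderiv (R := F) (sv s v)).toLinearMap

theorem Zop_apply (s : L → L) (al : F) (v : L × ℕ) (P : MvPolynomial (L × ℕ) F) :
    Zop s al v P = X v * P + C (al * (wt s v : F)) * pderiv (sv s v) P := by
  rw [Zop, LinearMap.add_apply, LinearMap.smul_apply, LinearMap.mulLeft_apply, smul_eq_C_mul]
  rfl

theorem Zop_comm {s : L → L} (hs : ∀ a, s (s a) = a) (al : F) (u v : L × ℕ) :
    Zop s al u * Zop s al v = Zop s al v * Zop s al u := by
  refine LinearMap.ext fun P => ?_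
  rw [Module.End.mul_apply, Module.End.mul_apply, Zop_apply, Zop_apply, Zop_apply, Zop_apply,
    map_add, map_add, pderiv_C_mul, pderiv_C_mul, pderiv_mul, pderiv_mul, pderiv_X, pderiv_X,
    pderiv_comm' (sv s u) (sv s v)]
  by_cases h : sv s u = v
  · have h' : sv s v = u := by rw [← h, sv_sv hs]
    have hw : wt s v = wt s u := by rw [← h, wt_sv hs]
    rw [h, h', Pi.single_eq_same, Pi.single_eq_same, hw]
    ring
  · have h' : sv s v ≠ u := fun h0 => h (by rw [← h0, sv_sv hs])
    rw [Pi.single_eq_of_ne (Ne.symm h), Pi.single_eq_of_ne (Ne.symm h')]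
    ring

/-- The Wick operator. -/
structure IsWick (s : L → L) (al : F)
    (T : MvPolynomial (L × ℕ) F →ₗ[F] MvPolynomial (L × ℕ) F) : Prop where
  one : T 1 = 1
  X_mul : ∀ v P, T (X v * P) = X v * T P + C (al * (wt s v : F)) * pderiv (sv s v) (T P)

open scoped IsMulCommutative in
theorem exists_hom {s : L → L} (hs : ∀ a, s (s a) = a) (al : F) :
    ∃ f : MvPolynomial (L × ℕ) F →ₐ[F] Module.End F (MvPolynomial (L × ℕ) F),
      ∀ v, f (X v) = Zop s al v := by
  have hc : ∀ a ∈ Set.range (Zop s al), ∀ b ∈ Set.range (Zop s al), a * b = b * a := by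
    rintro a ⟨u, rfl⟩ b ⟨v, rfl⟩
    exact Zop_comm hs al u v
  have := Algebra.isMulCommutative_adjoin F hc
  refine ⟨(Algebra.adjoin F (Set.range (Zop s al))).val.comp
    (MvPolynomial.aeval fun v => ⟨Zop s al v, Algebra.subset_adjoin ⟨v, rfl⟩⟩), fun v => ?_⟩
  rw [AlgHom.comp_apply, aeval_X]
  rfl

theorem exists_wick {s : L → L} (hs : ∀ a, s (s a) = a) (al : F) :
    ∃ T : MvPolynomial (L × ℕ) F →ₗ[F] MvPolynomial (L × ℕ) F, IsWick s al T := by
  obtain ⟨f, hf⟩ := exists_hom hs al
  have hT : ∀ P, (LinearMap.applyₗ (1 : MvPolynomial (L × ℕ) F)).comp f.toLinearMap P = f P 1 :=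
    fun P => rfl
  refine ⟨(LinearMap.applyₗ (1 : MvPolynomial (L × ℕ) F)).comp f.toLinearMap, ?_, ?_⟩
  · rw [hT, map_one f, Module.End.one_apply]
  · intro v P
    rw [hT, hT, map_mul f, Module.End.mul_apply, hf, Zop_apply]

variable {s : L → L} {al : F} {T : MvPolynomial (L × ℕ) F →ₗ[F] MvPolynomial (L × ℕ) F}

theorem IsWick.C_mul (_hT : IsWick s al T) (c : F) (P : MvPolynomial (L × ℕ) F) :
    T (C c * P) = C c * T P := by
  rw [← smul_eq_C_mul, ← smul_eq_C_mul, map_smul]

theorem IsWick.pderiv_comm (hT : IsWick s al T) (u : L × ℕ) (P : MvPolynomial (L × ℕ) F) :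
    pderiv u (T P) = T (pderiv u P) := by
  induction P using MvPolynomial.induction_on with
  | C c =>
    rw [← mul_one (C c), hT.C_mul, hT.one, mul_one, pderiv_C, map_zero]
  | add p q hp hq => rw [map_add, map_add, hp, hq, map_add, map_add]
  | mul_X p v hp =>
    rw [mul_comm p (X v), hT.X_mul, map_add, pderiv_mul, pderiv_C_mul, pderiv_comm' u, hp,
      pderiv_mul, map_add, hT.X_mul, pderiv_X]
    by_cases h : u = v
    · rw [h, Pi.single_eq_same, one_mul, one_mul]
      ring
    · rw [Pi.single_eq_of_ne (Ne.symm h), zero_mul, zero_mul, map_zero]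
      ring

/-- Multiplication by a polynomial in the variables off the legs commutes with `T`. -/
theorem IsWick.mul_left (hT : IsWick s al T) {e : L × ℕ →₀ ℕ}
    (he : ∀ v ∈ e.support, s v.1 = v.1) (c : F) (P : MvPolynomial (L × ℕ) F) :
    T (monomial e c * P) = monomial e c * T P := by
  have key : ∀ (m : ℕ) (e : L × ℕ →₀ ℕ), e.sum (fun _ n => n) = m →
      (∀ v ∈ e.support, s v.1 = v.1) → ∀ (c : F) (P : MvPolynomial (L × ℕ) F),
      T (monomial e c * P) = monomial e c * T P := by
    intro m
    induction m with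
    | zero =>
      intro e hm _ c P
      have h0 : e = 0 := by
        ext v
        by_contra hv
        have : v ∈ e.support := Finsupp.mem_support_iff.2 hv
        have h1 := Finset.single_le_sum (f := fun v => e v) (fun _ _ => Nat.zero_le _) this
        have h2 : ∑ x ∈ e.support, e x = 0 := hm
        rw [h2] at h1
        exact hv (Nat.le_zero.1 h1)
      rw [h0]
      exact hT.C_mul c P
    | succ m ih =>
      intro e hm he c P
      have hne : e.support.Nonempty := by
        rw [Finset.nonempty_iff_ne_empty]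
        intro h0
        have h1 : e.sum (fun _ n => n) = 0 := by
          rw [Finsupp.sum, h0, Finset.sum_empty]
        omega
      obtain ⟨v, hv⟩ := hne
      have hle : Finsupp.single v 1 ≤ e := by
        rw [Finsupp.single_le_iff]
        exact Nat.one_le_iff_ne_zero.2 (Finsupp.mem_support_iff.1 hv)
      obtain ⟨e', he'⟩ := exists_add_of_le hle
      have hsub : e'.support ⊆ e.support := by
        intro w hw
        rw [Finsupp.mem_support_iff] at hw ⊢
        rw [he', Finsupp.add_apply]
        omega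
      have hmon : (monomial e c : MvPolynomial (L × ℕ) F) = X v * monomial e' c := by
        rw [he', X, monomial_mul, one_mul]
      have hw0 : wt s v = 0 := by
        rw [wt, if_pos (he v hv)]
      have hm' : e'.sum (fun _ n => n) = m := by
        have h1 : e.sum (fun _ n => n) = 1 + e'.sum (fun _ n => n) := by
          rw [he', Finsupp.sum_add_index' (fun _ => rfl) (fun _ _ _ => rfl),
            Finsupp.sum_single_index rfl]
        omega
      rw [hmon, mul_assoc, hT.X_mul, hw0, ih e' hm' (fun w hw => he w (hsub hw))]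
      simp only [Nat.cast_zero, mul_zero, C_0, zero_mul, add_zero]
      ring
  exact key _ e rfl he c P

end Wick

end Pool.Agent.JackB
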